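import Pool.Agent.SFC.Stm

/-!
# SFC/A0a: the special Frobenius algebra of a group-like family

`A = ⨁ T a` (Mathlib `biproduct`), `i a = biproduct.ι`, `q a = biproduct.π`,
`mul = ∑ a b, (q a ⊗ₘ q b) ≫ (m a b (a + b)).hom ≫ i (a + b)`, `one = u.hom ≫ i 0`,
`cm = (n : K)⁻¹ • ∑ a b, q (a + b) ≫ (m a b (a + b)).inv ≫ (i a ⊗ₘ i b)`, `cn = (n : K) • (q 0 ≫ u.inv)`.
All identities are checked on components: morphisms out of `A ⊗ A`, `A ⊗ (A ⊗ A)`, `(A ⊗ A) ⊗ A` are equal if they agree after precomposition with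
`i a ⊗ₘ i b` etc. (`∑ q a ≫ i a = 𝟙`; write a private lemma for this), and morphisms into these objects after postcomposition with `q`.
`assoc`: `th.assoc`.  `coassoc`: the inverse of `th.assoc`.  `frobL`: for `a, b` and the target component `(c, d)` with `a + b = c + d` both sides are
`(m a b).hom ≫ (m c d).inv`, by `th.assoc` for `(a, c', d)`, where `c' = c - a`.  `sep`: `∑ over a + b = c` of `q c ≫ i c` has `n` equal terms.
`cn_cm`: only `a = 0` remains: `n • n⁻¹`, `th.unitL`.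
-/

set_option autoImplicit false

noncomputable section

open CategoryTheory MonoidalCategory

namespace Pool.Agent.SFC

universe v u w


section A0aAux

variable {C : Type u} [Category.{v} C] [Preadditive C]
  {J : Type} [Fintype J] {T : J → C} {A : C} {i : ∀ a, T a ⟶ A} {q : ∀ a, A ⟶ T a}

private theorem A0a_ext1 (hs : ∑ a, q a ≫ i a = 𝟙 A) {X : C} {f g : A ⟶ X}
    (h : ∀ a, i a ≫ f = i a ≫ g) : f = g := by
  rw [← Category.id_comp f, ← Category.id_comp g, ← hs, Preadditive.sum_comp, Preadditive.sum_comp]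
  refine Finset.sum_congr rfl fun a _ => ?_
  rw [Category.assoc, Category.assoc, h]

private theorem A0a_coext1 (hs : ∑ a, q a ≫ i a = 𝟙 A) {X : C} {f g : X ⟶ A}
    (h : ∀ a, f ≫ q a = g ≫ q a) : f = g := by
  rw [← Category.comp_id f, ← Category.comp_id g, ← hs, Preadditive.comp_sum, Preadditive.comp_sum]
  refine Finset.sum_congr rfl fun a _ => ?_
  rw [← Category.assoc, ← Category.assoc, h]

variable [MonoidalCategory C] [MonoidalPreadditive C]

private theorem A0a_sumL (hs : ∑ a, q a ≫ i a = 𝟙 A) (Z : C) :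
    ∑ a, Z ◁ q a ≫ Z ◁ i a = 𝟙 (Z ⊗ A) := by
  rw [← MonoidalCategory.whiskerLeft_id, ← hs, whiskerLeft_sum]
  refine Finset.sum_congr rfl fun a _ => ?_
  rw [MonoidalCategory.whiskerLeft_comp]

private theorem A0a_sumR (hs : ∑ a, q a ≫ i a = 𝟙 A) (Z : C) :
    ∑ a, q a ▷ Z ≫ i a ▷ Z = 𝟙 (A ⊗ Z) := by
  rw [← MonoidalCategory.id_whiskerRight, ← hs, sum_whiskerRight]
  refine Finset.sum_congr rfl fun a _ => ?_
  rw [MonoidalCategory.comp_whiskerRight]

private theorem A0a_extL (hs : ∑ a, q a ≫ i a = 𝟙 A) {Z X : C} {f g : Z ⊗ A ⟶ X}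
    (h : ∀ a, Z ◁ i a ≫ f = Z ◁ i a ≫ g) : f = g := by
  exact A0a_ext1 (i := fun a => Z ◁ i a) (q := fun a => Z ◁ q a) (A0a_sumL hs Z) h

private theorem A0a_extR (hs : ∑ a, q a ≫ i a = 𝟙 A) {Z X : C} {f g : A ⊗ Z ⟶ X}
    (h : ∀ a, i a ▷ Z ≫ f = i a ▷ Z ≫ g) : f = g := by
  exact A0a_ext1 (i := fun a => i a ▷ Z) (q := fun a => q a ▷ Z) (A0a_sumR hs Z) h

private theorem A0a_coextL (hs : ∑ a, q a ≫ i a = 𝟙 A) {Z X : C} {f g : X ⟶ Z ⊗ A}
    (h : ∀ a, f ≫ Z ◁ q a = g ≫ Z ◁ q a) : f = g := by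
  exact A0a_coext1 (i := fun a => Z ◁ i a) (q := fun a => Z ◁ q a) (A0a_sumL hs Z) h

private theorem A0a_coextR (hs : ∑ a, q a ≫ i a = 𝟙 A) {Z X : C} {f g : X ⟶ A ⊗ Z}
    (h : ∀ a, f ≫ q a ▷ Z = g ≫ q a ▷ Z) : f = g := by
  exact A0a_coext1 (i := fun a => i a ▷ Z) (q := fun a => q a ▷ Z) (A0a_sumR hs Z) h

private theorem A0a_coext2 (hs : ∑ a, q a ≫ i a = 𝟙 A) {X : C} {f g : X ⟶ A ⊗ A}
    (h : ∀ a b, f ≫ (q a ⊗ₘ q b) = g ≫ (q a ⊗ₘ q b)) : f = g := by
  refine A0a_coextR hs fun a => A0a_coextL hs fun b => ?_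
  have := h a b
  rw [MonoidalCategory.tensorHom_def] at this
  simpa only [Category.assoc] using this

private theorem A0a_coext3 (hs : ∑ a, q a ≫ i a = 𝟙 A) {X : C} {f g : X ⟶ A ⊗ (A ⊗ A)}
    (h : ∀ a b c, f ≫ (q a ⊗ₘ (q b ⊗ₘ q c)) = g ≫ (q a ⊗ₘ (q b ⊗ₘ q c))) : f = g := by
  refine A0a_coextR hs fun a => ?_
  refine A0a_coext1 (i := fun b => T a ◁ (i b ▷ A)) (q := fun b => T a ◁ (q b ▷ A)) ?_ fun b => ?_
  · have h1 := A0a_sumR hs A
    rw [← MonoidalCategory.whiskerLeft_id, ← h1, whiskerLeft_sum]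
    refine Finset.sum_congr rfl fun a _ => ?_
    rw [MonoidalCategory.whiskerLeft_comp]
  · refine A0a_coext1 (i := fun c => T a ◁ (T b ◁ i c)) (q := fun c => T a ◁ (T b ◁ q c)) ?_ fun c => ?_
    · have h1 := A0a_sumL hs (T b)
      rw [← MonoidalCategory.whiskerLeft_id, ← h1, whiskerLeft_sum]
      refine Finset.sum_congr rfl fun a _ => ?_
      rw [MonoidalCategory.whiskerLeft_comp]
    · have := h a b c
      rw [MonoidalCategory.tensorHom_def, MonoidalCategory.tensorHom_def, MonoidalCategory.whiskerLeft_comp] at this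
      simpa only [Category.assoc] using this

private theorem A0a_ext3 (hs : ∑ a, q a ≫ i a = 𝟙 A) {X : C} {f g : (A ⊗ A) ⊗ A ⟶ X}
    (h : ∀ a b c, ((i a ⊗ₘ i b) ⊗ₘ i c) ≫ f = ((i a ⊗ₘ i b) ⊗ₘ i c) ≫ g) : f = g := by
  refine A0a_extL hs fun c => ?_
  refine A0a_ext1 (i := fun b => (A ◁ i b) ▷ T c) (q := fun b => (A ◁ q b) ▷ T c) ?_ fun b => ?_
  · have h1 := A0a_sumL hs A
    rw [← MonoidalCategory.id_whiskerRight, ← h1, sum_whiskerRight]
    refine Finset.sum_congr rfl fun a _ => ?_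
    rw [MonoidalCategory.comp_whiskerRight]
  · refine A0a_ext1 (i := fun a => (i a ▷ T b) ▷ T c) (q := fun a => (q a ▷ T b) ▷ T c) ?_ fun a => ?_
    · have h1 := A0a_sumR hs (T b)
      rw [← MonoidalCategory.id_whiskerRight, ← h1, sum_whiskerRight]
      refine Finset.sum_congr rfl fun a _ => ?_
      rw [MonoidalCategory.comp_whiskerRight]
    · have := h a b c
      rw [MonoidalCategory.tensorHom_def, MonoidalCategory.tensorHom_def, MonoidalCategory.comp_whiskerRight] at this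
      simpa only [Category.assoc] using this

end A0aAux

section A0aMul

variable {C : Type u} [Category.{v} C] [Preadditive C] [MonoidalCategory C] [MonoidalPreadditive C]
  {n : ℕ} [NeZero n] {th : Gl C n} {A : C} {i : ∀ a, th.T a ⟶ A} {q : ∀ a, A ⟶ th.T a} {mul : A ⊗ A ⟶ A}

private theorem A0a_mulL (hiq : ∀ a, i a ≫ q a = 𝟙 _) (hor : ∀ a b, a ≠ b → i a ≫ q b = 0)
    (hs : ∑ a, q a ≫ i a = 𝟙 A)
    (hm : ∀ a b c (h : a + b = c), (i a ⊗ₘ i b) ≫ mul = (th.m a b c h).hom ≫ i c)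
    (a e c : ZMod n) (h : a + e = c) :
    i a ▷ A ≫ mul ≫ q c = th.T a ◁ q e ≫ (th.m a e c h).hom := by
  refine A0a_extL hs fun e' => ?_
  have h1 : th.T a ◁ i e' ≫ i a ▷ A ≫ mul ≫ q c = (th.m a e' (a + e') rfl).hom ≫ i (a + e') ≫ q c := by
    have h2 := hm a e' _ rfl
    rw [MonoidalCategory.tensorHom_def', Category.assoc] at h2
    rw [reassoc_of% h2]
  rw [h1, ← MonoidalCategory.whiskerLeft_comp_assoc]
  by_cases he : e' = e
  · subst he
    subst h
    rw [hiq, hiq, MonoidalCategory.whiskerLeft_id, Category.id_comp, Category.comp_id]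
  · rw [hor e' e he, hor (a + e') c (fun h3 => he (add_left_cancel (h3.trans h.symm))),
      MonoidalPreadditive.whiskerLeft_zero, Limits.comp_zero, Limits.zero_comp]

private theorem A0a_mulR (hiq : ∀ a, i a ≫ q a = 𝟙 _) (hor : ∀ a b, a ≠ b → i a ≫ q b = 0)
    (hs : ∑ a, q a ≫ i a = 𝟙 A)
    (hm : ∀ a b c (h : a + b = c), (i a ⊗ₘ i b) ≫ mul = (th.m a b c h).hom ≫ i c)
    (e b d : ZMod n) (h : e + b = d) :
    A ◁ i b ≫ mul ≫ q d = q e ▷ th.T b ≫ (th.m e b d h).hom := by
  refine A0a_extR hs fun e' => ?_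
  have h1 : i e' ▷ th.T b ≫ A ◁ i b ≫ mul ≫ q d = (th.m e' b (e' + b) rfl).hom ≫ i (e' + b) ≫ q d := by
    have h2 := hm e' b _ rfl
    rw [MonoidalCategory.tensorHom_def, Category.assoc] at h2
    rw [reassoc_of% h2]
  rw [h1, ← MonoidalCategory.comp_whiskerRight_assoc]
  by_cases he : e' = e
  · subst he
    subst h
    rw [hiq, hiq, MonoidalCategory.id_whiskerRight, Category.id_comp, Category.comp_id]
  · rw [hor e' e he, hor (e' + b) d (fun h3 => he (add_right_cancel (h3.trans h.symm))),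
      MonoidalPreadditive.zero_whiskerRight, Limits.comp_zero, Limits.zero_comp]

end A0aMul

section A0aAssoc

variable {C : Type u} [Category.{v} C] [Preadditive C] [MonoidalCategory C] {n : ℕ} {th : Gl C n}

private theorem A0a_co (a b c ab bc abc : ZMod n) (h1 : a + b = ab) (h2 : ab + c = abc) (h3 : b + c = bc)
    (h4 : a + bc = abc) :
    (th.m ab c abc h2).inv ≫ (th.m a b ab h1).inv ▷ th.T c ≫ (α_ (th.T a) (th.T b) (th.T c)).hom =
      (th.m a bc abc h4).inv ≫ th.T a ◁ (th.m b c bc h3).inv := by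
  have h := th.assoc a b c ab bc abc h1 h2 h3 h4
  rw [← cancel_mono (th.T a ◁ (th.m b c bc h3).hom ≫ (th.m a bc abc h4).hom)]
  rw [← cancel_epi ((th.m a b ab h1).hom ▷ th.T c ≫ (th.m ab c abc h2).hom)]
  simp only [Category.assoc, Iso.hom_inv_id_assoc, MonoidalCategory.hom_inv_whiskerRight_assoc,
    MonoidalCategory.whiskerLeft_inv_hom_assoc, Iso.inv_hom_id, Category.comp_id]
  rw [h]

private theorem A0a_fr1 (a b c d e s : ZMod n) (h1 : a + e = c) (h2 : e + d = b) (h3 : a + b = s) (h4 : c + d = s) :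
    th.T a ◁ (th.m e d b h2).inv ≫ (α_ (th.T a) (th.T e) (th.T d)).inv ≫ (th.m a e c h1).hom ▷ th.T d =
      (th.m a b s h3).hom ≫ (th.m c d s h4).inv := by
  have h := th.assoc a e d c b s h1 h4 h2 h3
  rw [← cancel_mono (th.m c d s h4).hom]
  simp only [Category.assoc, Iso.inv_hom_id, Category.comp_id]
  rw [h]
  simp

private theorem A0a_fr2 (a b c d e s : ZMod n) (h1 : c + e = a) (h2 : e + b = d) (h3 : a + b = s) (h4 : c + d = s) :
    (th.m c e a h1).inv ▷ th.T b ≫ (α_ (th.T c) (th.T e) (th.T b)).hom ≫ th.T c ◁ (th.m e b d h2).hom =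
      (th.m a b s h3).hom ≫ (th.m c d s h4).inv := by
  have h := th.assoc c e b a d s h1 h3 h2 h4
  rw [← cancel_mono (th.m c d s h4).hom]
  simp only [Category.assoc, Iso.inv_hom_id, Category.comp_id]
  rw [← h]
  simp

end A0aAssoc

theorem exists_sum {K : Type w} [Field K] {C : Type u} [Category.{v} C] [Preadditive C] [Linear K C]
    [MonoidalCategory C] [MonoidalPreadditive C] [MonoidalLinear K C] [Limits.HasFiniteBiproducts C] {n : ℕ} [NeZero n]
    (hn : (n : K) ≠ 0) (th : Gl C n) : ∃ S : SFrob C, Nonempty (IsSum K th S) := by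
  classical
  obtain ⟨A, i, q, hiq, hor, hs⟩ : ∃ (A : C) (i : ∀ a, th.T a ⟶ A) (q : ∀ a, A ⟶ th.T a),
      (∀ a, i a ≫ q a = 𝟙 _) ∧ (∀ a b, a ≠ b → i a ≫ q b = 0) ∧ ∑ a, q a ≫ i a = 𝟙 A :=
    ⟨⨁ th.T, fun a => Limits.biproduct.ι th.T a, fun a => Limits.biproduct.π th.T a,
      fun a => Limits.biproduct.ι_π_self th.T a, fun a b h => Limits.biproduct.ι_π_ne th.T h,
      Limits.biproduct.total⟩
  obtain ⟨mul, hm⟩ : ∃ mul : A ⊗ A ⟶ A, ∀ a b c (h : a + b = c),
      (i a ⊗ₘ i b) ≫ mul = (th.m a b c h).hom ≫ i c := by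
    refine ⟨∑ a, ∑ b, (q a ⊗ₘ q b) ≫ (th.m a b (a + b) rfl).hom ≫ i (a + b), fun a b c h => ?_⟩
    subst h
    rw [Preadditive.comp_sum, Finset.sum_eq_single a, Preadditive.comp_sum, Finset.sum_eq_single b]
    · rw [MonoidalCategory.tensorHom_comp_tensorHom_assoc, hiq, hiq, MonoidalCategory.id_tensorHom_id,
        Category.id_comp]
    · intro b' _ hb
      rw [MonoidalCategory.tensorHom_comp_tensorHom_assoc, hor b b' (Ne.symm hb), MonoidalPreadditive.tensor_zero,
        Limits.zero_comp]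
    · intro h
      exact absurd (Finset.mem_univ _) h
    · intro a' _ ha
      rw [Preadditive.comp_sum]
      refine Finset.sum_eq_zero fun b' _ => ?_
      rw [MonoidalCategory.tensorHom_comp_tensorHom_assoc, hor a a' (Ne.symm ha), MonoidalPreadditive.zero_tensor,
        Limits.zero_comp]
    · intro h
      exact absurd (Finset.mem_univ _) h
  obtain ⟨cm, hc⟩ : ∃ cm : A ⟶ A ⊗ A, ∀ a b c (h : a + b = c),
      cm ≫ (q a ⊗ₘ q b) = (n : K)⁻¹ • (q c ≫ (th.m a b c h).inv) := by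
    refine ⟨(n : K)⁻¹ • ∑ a, ∑ b, q (a + b) ≫ (th.m a b (a + b) rfl).inv ≫ (i a ⊗ₘ i b), fun a b c h => ?_⟩
    subst h
    rw [Linear.smul_comp]
    congr 1
    rw [Preadditive.sum_comp, Finset.sum_eq_single a, Preadditive.sum_comp, Finset.sum_eq_single b]
    · rw [Category.assoc, Category.assoc, MonoidalCategory.tensorHom_comp_tensorHom, hiq, hiq,
        MonoidalCategory.id_tensorHom_id, Category.comp_id]
    · intro b' _ hb
      rw [Category.assoc, Category.assoc, MonoidalCategory.tensorHom_comp_tensorHom, hor b' b hb,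
        MonoidalPreadditive.tensor_zero, Limits.comp_zero, Limits.comp_zero]
    · intro h
      exact absurd (Finset.mem_univ _) h
    · intro a' _ ha
      rw [Preadditive.sum_comp]
      refine Finset.sum_eq_zero fun b' _ => ?_
      rw [Category.assoc, Category.assoc, MonoidalCategory.tensorHom_comp_tensorHom, hor a' a ha,
        MonoidalPreadditive.zero_tensor, Limits.comp_zero, Limits.comp_zero]
    · intro h
      exact absurd (Finset.mem_univ _) h
  have hmL := A0a_mulL hiq hor hs hm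
  have hmR := A0a_mulR hiq hor hs hm
  have hnn : (n : K) * (n : K)⁻¹ = 1 := mul_inv_cancel₀ hn
  -- the identities
  have h_one_mul : (th.u.hom ≫ i 0) ▷ A ≫ mul = (λ_ A).hom := by
    refine A0a_extL hs fun a => ?_
    have h1 := hm 0 a a (zero_add a)
    have h2 := th.unitL a (zero_add a)
    rw [MonoidalCategory.tensorHom_def, Category.assoc] at h1
    rw [MonoidalCategory.whisker_exchange_assoc, MonoidalCategory.comp_whiskerRight, Category.assoc, h1,
      reassoc_of% h2, MonoidalCategory.leftUnitor_naturality]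
  have h_mul_one : A ◁ (th.u.hom ≫ i 0) ≫ mul = (ρ_ A).hom := by
    refine A0a_extR hs fun a => ?_
    have h1 := hm a 0 a (add_zero a)
    have h2 := th.unitR a (add_zero a)
    rw [MonoidalCategory.tensorHom_def', Category.assoc] at h1
    rw [← MonoidalCategory.whisker_exchange_assoc, MonoidalCategory.whiskerLeft_comp, Category.assoc, h1,
      reassoc_of% h2, MonoidalCategory.rightUnitor_naturality]
  have h_assoc : mul ▷ A ≫ mul = (α_ A A A).hom ≫ A ◁ mul ≫ mul := by
    refine A0a_ext3 hs fun a b c => ?_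
    have h1 := hm a b (a + b) rfl
    have h2 := hm (a + b) c (a + b + c) rfl
    have h3 := hm b c (b + c) rfl
    have h4 := hm a (b + c) (a + b + c) (add_assoc a b c).symm
    have h5 := th.assoc a b c (a + b) (b + c) (a + b + c) rfl rfl rfl (add_assoc a b c).symm
    have e1 : ((i a ⊗ₘ i b) ⊗ₘ i c) ≫ mul ▷ A ≫ mul =
        (th.m a b (a + b) rfl).hom ▷ th.T c ≫ (th.m (a + b) c (a + b + c) rfl).hom ≫ i (a + b + c) := by
      rw [← MonoidalCategory.tensorHom_id, MonoidalCategory.tensorHom_comp_tensorHom_assoc, Category.comp_id, h1,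
        ← h2, ← MonoidalCategory.tensorHom_id, MonoidalCategory.tensorHom_comp_tensorHom_assoc, Category.id_comp]
    have e2 : ((i a ⊗ₘ i b) ⊗ₘ i c) ≫ (α_ A A A).hom ≫ A ◁ mul ≫ mul =
        (α_ _ _ _).hom ≫ th.T a ◁ (th.m b c (b + c) rfl).hom ≫
          (th.m a (b + c) (a + b + c) (add_assoc a b c).symm).hom ≫ i (a + b + c) := by
      rw [MonoidalCategory.associator_naturality_assoc, ← MonoidalCategory.id_tensorHom,
        MonoidalCategory.tensorHom_comp_tensorHom_assoc, Category.comp_id, h3, ← h4,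
        ← MonoidalCategory.id_tensorHom, MonoidalCategory.tensorHom_comp_tensorHom_assoc, Category.id_comp]
    rw [e1, e2, reassoc_of% h5]
  have h_cn_cm : cm ≫ ((n : K) • (q 0 ≫ th.u.inv)) ▷ A = (λ_ A).inv := by
    refine A0a_coextL hs fun a => ?_
    have h1 := hc 0 a a (zero_add a)
    have h2 := th.unitL a (zero_add a)
    have h3 : (th.m 0 a a (zero_add a)).inv ≫ th.u.inv ▷ th.T a = (λ_ (th.T a)).inv := by
      rw [← cancel_mono (λ_ (th.T a)).hom, Iso.inv_hom_id, ← h2]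
      simp
    rw [MonoidalCategory.tensorHom_def'] at h1
    rw [MonoidalLinear.smul_whiskerRight, Linear.comp_smul, Linear.smul_comp, Category.assoc,
      ← MonoidalCategory.whisker_exchange, MonoidalCategory.comp_whiskerRight, reassoc_of% h1,
      Linear.smul_comp, smul_smul, hnn, one_smul, Category.assoc, h3,
      MonoidalCategory.leftUnitor_inv_naturality]
  have h_cm_cn : cm ≫ A ◁ ((n : K) • (q 0 ≫ th.u.inv)) = (ρ_ A).inv := by
    refine A0a_coextR hs fun a => ?_
    have h1 := hc a 0 a (add_zero a)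
    have h2 := th.unitR a (add_zero a)
    have h3 : (th.m a 0 a (add_zero a)).inv ≫ th.T a ◁ th.u.inv = (ρ_ (th.T a)).inv := by
      rw [← cancel_mono (ρ_ (th.T a)).hom, Iso.inv_hom_id, ← h2]
      simp
    rw [MonoidalCategory.tensorHom_def] at h1
    rw [MonoidalLinear.whiskerLeft_smul, Linear.comp_smul, Linear.smul_comp, Category.assoc,
      MonoidalCategory.whisker_exchange, MonoidalCategory.whiskerLeft_comp, reassoc_of% h1,
      Linear.smul_comp, smul_smul, hnn, one_smul, Category.assoc, h3,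
      MonoidalCategory.rightUnitor_inv_naturality]
  have h_coassoc : cm ≫ cm ▷ A ≫ (α_ A A A).hom = cm ≫ A ◁ cm := by
    refine A0a_coext3 hs fun a b c => ?_
    have h1 := hc a b (a + b) rfl
    have h2 := hc (a + b) c (a + b + c) rfl
    have h3 := hc b c (b + c) rfl
    have h4 := hc a (b + c) (a + b + c) (add_assoc a b c).symm
    have h5 := A0a_co (th := th) a b c (a + b) (b + c) (a + b + c) rfl rfl rfl (add_assoc a b c).symm
    have e1 : (cm ≫ cm ▷ A ≫ (α_ A A A).hom) ≫ (q a ⊗ₘ (q b ⊗ₘ q c)) =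
        (n : K)⁻¹ • (n : K)⁻¹ • (q (a + b + c) ≫ (th.m (a + b) c (a + b + c) rfl).inv ≫
          (th.m a b (a + b) rfl).inv ▷ th.T c ≫ (α_ _ _ _).hom) := by
      rw [Category.assoc, Category.assoc, ← MonoidalCategory.associator_naturality,
        ← MonoidalCategory.tensorHom_id, MonoidalCategory.tensorHom_comp_tensorHom_assoc, Category.id_comp, h1]
      have e3 : ((n : K)⁻¹ • (q (a + b) ≫ (th.m a b (a + b) rfl).inv) ⊗ₘ q c) =
          (n : K)⁻¹ • ((q (a + b) ⊗ₘ q c) ≫ (th.m a b (a + b) rfl).inv ▷ th.T c) := by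
        rw [MonoidalCategory.tensorHom_def, MonoidalLinear.smul_whiskerRight, Linear.smul_comp,
          MonoidalCategory.comp_whiskerRight, Category.assoc, ← MonoidalCategory.whisker_exchange,
          MonoidalCategory.tensorHom_def, Category.assoc]
      rw [e3, Linear.smul_comp, Linear.comp_smul, Category.assoc, reassoc_of% h2, Linear.smul_comp,
        Category.assoc]
    have e2 : (cm ≫ A ◁ cm) ≫ (q a ⊗ₘ (q b ⊗ₘ q c)) =
        (n : K)⁻¹ • (n : K)⁻¹ • (q (a + b + c) ≫ (th.m a (b + c) (a + b + c) (add_assoc a b c).symm).inv ≫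
          th.T a ◁ (th.m b c (b + c) rfl).inv) := by
      rw [Category.assoc, ← MonoidalCategory.id_tensorHom, MonoidalCategory.tensorHom_comp_tensorHom,
        Category.id_comp, h3]
      have e3 : (q a ⊗ₘ (n : K)⁻¹ • (q (b + c) ≫ (th.m b c (b + c) rfl).inv)) =
          (n : K)⁻¹ • ((q a ⊗ₘ q (b + c)) ≫ th.T a ◁ (th.m b c (b + c) rfl).inv) := by
        rw [MonoidalCategory.tensorHom_def, MonoidalLinear.whiskerLeft_smul, Linear.comp_smul,
          MonoidalCategory.whiskerLeft_comp, MonoidalCategory.tensorHom_def, Category.assoc]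
      rw [e3, Linear.comp_smul, reassoc_of% h4, Linear.smul_comp, Category.assoc]
    rw [e1, e2, h5]
  have h_frobL : mul ≫ cm = A ◁ cm ≫ (α_ A A A).inv ≫ mul ▷ A := by
    refine A0a_extR hs fun a => A0a_coext2 hs fun c d => ?_
    obtain ⟨b, hb⟩ : ∃ b, a + b = c + d := ⟨c + d - a, by ring⟩
    obtain ⟨e, he⟩ : ∃ e, a + e = c := ⟨c - a, by ring⟩
    have hed : e + d = b := by
      have : a + (e + d) = a + b := by rw [← add_assoc, he, hb]
      exact add_left_cancel this
    have h5 := A0a_fr1 (th := th) a b c d e (c + d) he hed hb rfl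
    have e1 : (i a ▷ A ≫ mul ≫ cm) ≫ (q c ⊗ₘ q d) =
        (n : K)⁻¹ • (th.T a ◁ q b ≫ (th.m a b (c + d) hb).hom ≫ (th.m c d (c + d) rfl).inv) := by
      have h1 := hc c d _ rfl
      have h2 := hmL a b (c + d) hb
      rw [Category.assoc, Category.assoc, h1, Linear.comp_smul, Linear.comp_smul]
      congr 1
      rw [reassoc_of% h2]
    have e2 : (i a ▷ A ≫ A ◁ cm ≫ (α_ A A A).inv ≫ mul ▷ A) ≫ (q c ⊗ₘ q d) =
        (n : K)⁻¹ • (th.T a ◁ q b ≫ th.T a ◁ (th.m e d b hed).inv ≫ (α_ _ _ _).inv ≫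
          (th.m a e c he).hom ▷ th.T d) := by
      have h1 := hc e d b hed
      have h2 := hmL a e c he
      rw [← MonoidalCategory.whisker_exchange_assoc]
      have e3 : i a ▷ (A ⊗ A) ≫ (α_ A A A).inv ≫ mul ▷ A ≫ (q c ⊗ₘ q d) =
          th.T a ◁ (q e ⊗ₘ q d) ≫ (α_ _ _ _).inv ≫ (th.m a e c he).hom ▷ th.T d := by
        have h3 : i a ▷ A ▷ A ≫ mul ▷ A ≫ q c ▷ A = (th.T a ◁ q e) ▷ A ≫ (th.m a e c he).hom ▷ A := by
          rw [← MonoidalCategory.comp_whiskerRight, ← MonoidalCategory.comp_whiskerRight, h2,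
            MonoidalCategory.comp_whiskerRight]
        rw [MonoidalCategory.associator_inv_naturality_left_assoc, MonoidalCategory.tensorHom_def (q c) (q d),
          reassoc_of% h3, MonoidalCategory.tensorHom_def (q e) (q d), MonoidalCategory.whiskerLeft_comp,
          Category.assoc, MonoidalCategory.associator_inv_naturality_right_assoc,
          MonoidalCategory.associator_inv_naturality_middle_assoc, MonoidalCategory.whisker_exchange]
      simp only [Category.assoc]
      rw [e3, ← MonoidalCategory.whiskerLeft_comp_assoc, h1, MonoidalLinear.whiskerLeft_smul, Linear.smul_comp,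
        MonoidalCategory.whiskerLeft_comp, Category.assoc]
    rw [e1, e2, h5]
  have h_frobR : mul ≫ cm = cm ▷ A ≫ (α_ A A A).hom ≫ A ◁ mul := by
    refine A0a_extL hs fun b => A0a_coext2 hs fun c d => ?_
    obtain ⟨a, ha⟩ : ∃ a, a + b = c + d := ⟨c + d - b, by ring⟩
    obtain ⟨e, he⟩ : ∃ e, e + b = d := ⟨d - b, by ring⟩
    have hce : c + e = a := by
      have : (c + e) + b = a + b := by rw [add_assoc, he, ha]
      exact add_right_cancel this
    have h5 := A0a_fr2 (th := th) a b c d e (c + d) hce he ha rfl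
    have e1 : (A ◁ i b ≫ mul ≫ cm) ≫ (q c ⊗ₘ q d) =
        (n : K)⁻¹ • (q a ▷ th.T b ≫ (th.m a b (c + d) ha).hom ≫ (th.m c d (c + d) rfl).inv) := by
      have h1 := hc c d _ rfl
      have h2 := hmR a b (c + d) ha
      rw [Category.assoc, Category.assoc, h1, Linear.comp_smul, Linear.comp_smul]
      congr 1
      rw [reassoc_of% h2]
    have e2 : (A ◁ i b ≫ cm ▷ A ≫ (α_ A A A).hom ≫ A ◁ mul) ≫ (q c ⊗ₘ q d) =
        (n : K)⁻¹ • (q a ▷ th.T b ≫ (th.m c e a hce).inv ▷ th.T b ≫ (α_ _ _ _).hom ≫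
          th.T c ◁ (th.m e b d he).hom) := by
      have h1 := hc c e a hce
      have h2 := hmR e b d he
      rw [MonoidalCategory.whisker_exchange_assoc]
      have e3 : (A ⊗ A) ◁ i b ≫ (α_ A A A).hom ≫ A ◁ mul ≫ (q c ⊗ₘ q d) =
          (q c ⊗ₘ q e) ▷ th.T b ≫ (α_ _ _ _).hom ≫ th.T c ◁ (th.m e b d he).hom := by
        have h3 : A ◁ A ◁ i b ≫ A ◁ mul ≫ A ◁ q d = A ◁ q e ▷ th.T b ≫ A ◁ (th.m e b d he).hom := by
          rw [← MonoidalCategory.whiskerLeft_comp, ← MonoidalCategory.whiskerLeft_comp, h2,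
            MonoidalCategory.whiskerLeft_comp]
        rw [MonoidalCategory.associator_naturality_right_assoc, MonoidalCategory.tensorHom_def' (q c) (q d),
          reassoc_of% h3, MonoidalCategory.tensorHom_def' (q c) (q e), MonoidalCategory.comp_whiskerRight,
          Category.assoc, MonoidalCategory.associator_naturality_left_assoc,
          MonoidalCategory.associator_naturality_middle_assoc, MonoidalCategory.whisker_exchange]
      simp only [Category.assoc]
      rw [e3, ← MonoidalCategory.comp_whiskerRight_assoc, h1, MonoidalLinear.smul_whiskerRight, Linear.smul_comp,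
        MonoidalCategory.comp_whiskerRight, Category.assoc]
    rw [e1, e2, h5]
  have h_sep : cm ≫ mul = 𝟙 A := by
    refine A0a_coext1 hs fun c => ?_
    have h0 := A0a_sumR hs A
    have h1 : ∀ a : ZMod n, cm ≫ (q a ▷ A ≫ i a ▷ A) ≫ mul ≫ q c = (n : K)⁻¹ • q c := by
      intro a
      obtain ⟨e, he⟩ : ∃ e, a + e = c := ⟨c - a, by ring⟩
      have h2 := hmL a e c he
      have h3 := hc a e c he
      rw [MonoidalCategory.tensorHom_def] at h3
      rw [Category.assoc, h2, reassoc_of% h3, Linear.smul_comp, Category.assoc, Iso.inv_hom_id, Category.comp_id]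
    calc (cm ≫ mul) ≫ q c = cm ≫ (∑ a, q a ▷ A ≫ i a ▷ A) ≫ mul ≫ q c := by
          rw [h0, Category.id_comp, Category.assoc]
      _ = ∑ a, cm ≫ (q a ▷ A ≫ i a ▷ A) ≫ mul ≫ q c := by
          rw [Preadditive.sum_comp, Preadditive.comp_sum]
      _ = ∑ _a : ZMod n, (n : K)⁻¹ • q c := Finset.sum_congr rfl fun a _ => h1 a
      _ = 𝟙 A ≫ q c := by
          rw [Finset.sum_const, Finset.card_univ, ZMod.card, ← Nat.cast_smul_eq_nsmul K, smul_smul, hnn, one_smul,
            Category.id_comp]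
  refine ⟨⟨A, mul, th.u.hom ≫ i 0, cm, (n : K) • (q 0 ≫ th.u.inv), h_one_mul, h_mul_one, h_assoc, h_cn_cm,
    h_cm_cn, h_coassoc, h_frobL, h_frobR, h_sep⟩, ⟨⟨i, q, hiq, hor, hs, hm, rfl, fun a ha => ?_, ?_⟩⟩⟩
  · rw [Linear.comp_smul, ← Category.assoc, hor a 0 ha, Limits.zero_comp, smul_zero]
  · have h1 := hiq 0
    rw [Linear.comp_smul, Linear.comp_smul, reassoc_of% h1, Iso.hom_inv_id]

end Pool.Agent.SFC
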