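import Pool.Agent.SFC.Stm

/-!
# SFC/A0b: the comultiplication is determined by the rest

For a Frobenius algebra `cm = (ρ_ A).inv ≫ A ◁ cp ≫ α⁻¹ ≫ mul ▷ A` with `cp = one ≫ cm` (`frobL`, `mul_one`), and `cp` is the copairing of the nondegenerate pairing
`mul ≫ cn`: `(λ_ A).inv ≫ cp ▷ A ≫ α ≫ A ◁ (mul ≫ cn) = (ρ_ A).inv` and the mirror identity.  A copairing is unique, and `φ ⊗ φ` maps the pairing of `S` to the pairing of `S'`.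
-/

set_option autoImplicit false

noncomputable section

open CategoryTheory MonoidalCategory

namespace Pool.Agent.SFC

universe v u w

variable {C : Type u} [Category.{v} C] [MonoidalCategory C]

private theorem A0b_mix (S : SFrob C) (cm' : S.A ⟶ S.A ⊗ S.A)
    (hF : S.mul ≫ cm' = S.A ◁ cm' ≫ (α_ _ _ _).inv ≫ S.mul ▷ S.A) :
    cm' ≫ S.cm ▷ S.A ≫ (α_ _ _ _).hom = S.cm ≫ S.A ◁ cm' := by
  have h1 : S.cm = (λ_ S.A).inv ≫ (S.one ≫ S.cm) ▷ S.A ≫ (α_ _ _ _).hom ≫ S.A ◁ S.mul := by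
    rw [comp_whiskerRight, Category.assoc, ← S.frobR, ← Category.assoc (S.one ▷ S.A), S.one_mul,
      Iso.inv_hom_id_assoc]
  conv_rhs => rw [h1]
  conv_lhs => rw [h1]
  have h2 : ((λ_ S.A).inv ≫ (S.one ≫ S.cm) ▷ S.A ≫ (α_ _ _ _).hom ≫ S.A ◁ S.mul) ≫ S.A ◁ cm' =
      (λ_ S.A).inv ≫ (S.one ≫ S.cm) ▷ S.A ≫ (α_ _ _ _).hom ≫ S.A ◁ (S.A ◁ cm') ≫
        S.A ◁ ((α_ _ _ _).inv ≫ S.mul ▷ S.A) := by
    simp only [Category.assoc]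
    rw [← MonoidalCategory.whiskerLeft_comp, ← MonoidalCategory.whiskerLeft_comp, hF]
  rw [h2]
  have h3 : (α_ S.A S.A S.A).hom ≫ S.A ◁ (S.A ◁ cm') = (S.A ⊗ S.A) ◁ cm' ≫ (α_ _ _ _).hom := by
    simp
  rw [reassoc_of% h3, ← whisker_exchange_assoc]
  simp

private theorem A0b_uniq (S : SFrob C) (cm' : S.A ⟶ S.A ⊗ S.A)
    (hc : cm' ≫ S.cn ▷ S.A = (λ_ S.A).inv)
    (hF : S.mul ≫ cm' = S.A ◁ cm' ≫ (α_ _ _ _).inv ≫ S.mul ▷ S.A) : S.cm = cm' := by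
  have h1 := congrArg (fun t => t ≫ S.A ◁ (S.cn ▷ S.A ≫ (λ_ S.A).hom)) (A0b_mix S cm' hF)
  have h2 : (S.cm ≫ S.A ◁ cm') ≫ S.A ◁ (S.cn ▷ S.A ≫ (λ_ S.A).hom) = S.cm := by
    rw [Category.assoc, ← MonoidalCategory.whiskerLeft_comp, reassoc_of% hc, Iso.inv_hom_id,
      MonoidalCategory.whiskerLeft_id, Category.comp_id]
  have h3 : (cm' ≫ S.cm ▷ S.A ≫ (α_ _ _ _).hom) ≫ S.A ◁ (S.cn ▷ S.A ≫ (λ_ S.A).hom) = cm' := by
    have h4 : (α_ S.A S.A S.A).hom ≫ S.A ◁ (S.cn ▷ S.A) = (S.A ◁ S.cn) ▷ S.A ≫ (α_ _ _ _).hom := by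
      simp
    rw [MonoidalCategory.whiskerLeft_comp, Category.assoc, Category.assoc, reassoc_of% h4,
      ← comp_whiskerRight_assoc, S.cm_cn]
    simp
  exact h2.symm.trans (h1.symm.trans h3)

theorem cm_of_iso {S S' : SFrob C} (φ : S.A ≅ S'.A) (hm : (φ.hom ⊗ₘ φ.hom) ≫ S'.mul = S.mul ≫ φ.hom)
    (h1 : S.one ≫ φ.hom = S'.one) (hc : φ.hom ≫ S'.cn = S.cn) : S.cm ≫ (φ.hom ⊗ₘ φ.hom) = φ.hom ≫ S'.cm := by
  have hu := A0b_uniq S (φ.hom ≫ S'.cm ≫ (φ.inv ⊗ₘ φ.inv)) ?_ ?_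
  · rw [hu]
    simp
  · have h2 : (φ.inv ⊗ₘ φ.inv) ≫ S.cn ▷ S.A = S'.cn ▷ S'.A ≫ 𝟙_ C ◁ φ.inv := by
      rw [tensorHom_def', Category.assoc, ← comp_whiskerRight, ← hc, Iso.inv_hom_id_assoc, whisker_exchange]
    rw [Category.assoc, Category.assoc, h2, reassoc_of% S'.cn_cm]
    simp
  · have h2 : S.mul = (φ.hom ⊗ₘ φ.hom) ≫ S'.mul ≫ φ.inv := by
      rw [reassoc_of% hm, Iso.hom_inv_id, Category.comp_id]
    rw [← reassoc_of% hm, reassoc_of% S'.frobL, h2]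
    simp only [MonoidalCategory.whiskerLeft_comp, comp_whiskerRight, Category.assoc]
    have h3 : S.A ◁ (φ.inv ⊗ₘ φ.inv) ≫ (α_ S.A S.A S.A).inv ≫ (φ.hom ⊗ₘ φ.hom) ▷ S.A =
        φ.hom ▷ (S'.A ⊗ S'.A) ≫ (α_ S'.A S'.A S'.A).inv ≫ (S'.A ⊗ S'.A) ◁ φ.inv := by
      rw [← id_tensorHom, ← tensorHom_id, ← id_tensorHom, ← tensorHom_id, associator_inv_naturality_assoc,
        tensorHom_comp_tensorHom, tensorHom_comp_tensorHom, ← id_tensorHom_id S'.A S'.A,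
        associator_inv_naturality_assoc, tensorHom_comp_tensorHom, tensorHom_comp_tensorHom]
      simp
    rw [reassoc_of% h3]
    have h4 : (φ.hom ⊗ₘ φ.hom) ≫ S'.A ◁ S'.cm = S.A ◁ φ.hom ≫ S.A ◁ S'.cm ≫ φ.hom ▷ (S'.A ⊗ S'.A) := by
      rw [MonoidalCategory.tensorHom_def', Category.assoc, whisker_exchange]
    have h5 : S'.mul ▷ S'.A ≫ (φ.inv ⊗ₘ φ.inv) = (S'.A ⊗ S'.A) ◁ φ.inv ≫ S'.mul ▷ S.A ≫ φ.inv ▷ S.A := by
      rw [MonoidalCategory.tensorHom_def', whisker_exchange_assoc]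
    rw [reassoc_of% h4, h5]

end Pool.Agent.SFC
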