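import Pool.Agent.SFC.A0b

/-!
# SFC/A0c: the action of `ZMod n` on `A`

`a g = ∑ b, ζ ^ (g * b).val • (q b ≫ i b)`.  `ζ ^ (x + y).val = ζ ^ x.val * ζ ^ y.val` for `x y : ZMod n` (`ζ ^ n = 1`, `ZMod.val_add`, `pow_mod` / `IsPrimitiveRoot.pow_eq_pow_iff_modEq`), so
`add`; `mul` on components by `hS.mul`; `cn`: only the component `0` of `cn` is not zero; `cm`: `cm_of_iso` (`a g` is an isomorphism with inverse `a (-g)`).
`sum`: `∑ g, ζ ^ (g * b).val = n` if `b = 0` and `0` otherwise (geometric sum: multiply by `ζ ^ b.val ≠ 1`); `cn ≫ one = n • (q 0 ≫ i 0)` by `cn0`, `cn`.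
`orth`: `cm ≫ A ◁ a g ≫ mul`: by `frobL`/`frobR` it is `z ↦` multiplication by `cp ≫ A ◁ a g ≫ mul : 𝟙 ⟶ A`; compute `cp`: the copairing of `mul ≫ cn`, so
`cp = n⁻¹ • ∑ b, u ≫ (m b (-b) 0).inv ≫ (i b ⊗ₘ i (-b))` (uniqueness of the copairing, as in `A0b`), hence `cp ≫ A ◁ a g ≫ mul = n⁻¹ • (∑ b, ζ ^ (-g * b).val) • one = 0` for `g ≠ 0`.
`conn`: `t = ∑ t ≫ q b ≫ i b`, `t ≫ q b = 0` for `b ≠ 0` (`th.ne`), and `t ≫ q 0 ≫ u.inv : 𝟙 ⟶ 𝟙` is a scalar (`end1`).  `dim`: `hS.one`, `hS.cn0`.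
-/

set_option autoImplicit false
set_option linter.unusedSectionVars false

noncomputable section

open CategoryTheory MonoidalCategory

namespace Pool.Agent.SFC

universe v u w

private theorem A0c_pow {K : Type w} [Field K] {n : ℕ} [NeZero n] {ζ : K} (h : ζ ^ n = 1) (x y : ZMod n) :
    ζ ^ (x + y).val = ζ ^ x.val * ζ ^ y.val := by
  rw [ZMod.val_add, ← pow_add]
  exact (pow_eq_pow_mod _ h).symm

/-- the pairing -/
private def A0c_x {K : Type w} [Field K] {n : ℕ} (ζ : K) (g b : ZMod n) : K := ζ ^ (g * b).val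

private theorem A0c_comm {K : Type w} [Field K] {n : ℕ} (ζ : K) (g b : ZMod n) :
    A0c_x ζ g b = A0c_x ζ b g := by
  rw [A0c_x, A0c_x, mul_comm]

private theorem A0c_left {K : Type w} [Field K] {n : ℕ} [NeZero n] {ζ : K} (h : ζ ^ n = 1) (g g' b : ZMod n) :
    A0c_x ζ (g + g') b = A0c_x ζ g b * A0c_x ζ g' b := by
  rw [A0c_x, add_mul, A0c_pow h]
  rfl

private theorem A0c_right {K : Type w} [Field K] {n : ℕ} [NeZero n] {ζ : K} (h : ζ ^ n = 1) (g b c : ZMod n) :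
    A0c_x ζ g (b + c) = A0c_x ζ g b * A0c_x ζ g c := by
  rw [A0c_comm, A0c_left h, A0c_comm, A0c_comm ζ c]

private theorem A0c_zl {K : Type w} [Field K] {n : ℕ} [NeZero n] (ζ : K) (b : ZMod n) : A0c_x ζ 0 b = 1 := by
  rw [A0c_x, zero_mul, ZMod.val_zero, pow_zero]

private theorem A0c_zr {K : Type w} [Field K] {n : ℕ} [NeZero n] (ζ : K) (b : ZMod n) : A0c_x ζ b 0 = 1 := by
  rw [A0c_comm, A0c_zl]

private theorem A0c_sum0 {K : Type w} [Field K] {n : ℕ} [NeZero n] (ζ : K) :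
    ∑ g : ZMod n, A0c_x ζ g 0 = (n : K) := by
  simp only [A0c_zr]
  rw [Finset.sum_const, Finset.card_univ, ZMod.card, nsmul_eq_mul, mul_one]

private theorem A0c_sum {K : Type w} [Field K] {n : ℕ} [NeZero n] {ζ : K} (hζ : IsPrimitiveRoot ζ n)
    {b : ZMod n} (hb : b ≠ 0) : ∑ g : ZMod n, A0c_x ζ g b = 0 := by
  have h1 : A0c_x ζ 1 b ≠ 1 := by
    rw [A0c_x, one_mul]
    refine hζ.pow_ne_one_of_pos_of_lt ?_ (ZMod.val_lt b)
    intro h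
    exact hb ((ZMod.val_eq_zero b).1 h)
  have h2 : A0c_x ζ 1 b * ∑ g : ZMod n, A0c_x ζ g b = ∑ g : ZMod n, A0c_x ζ g b := by
    rw [Finset.mul_sum]
    refine Fintype.sum_equiv (Equiv.addLeft (1 : ZMod n)) _ _ fun g => ?_
    rw [Equiv.coe_addLeft, A0c_left hζ.pow_eq_one]
  have h3 : (A0c_x ζ 1 b - 1) * ∑ g : ZMod n, A0c_x ζ g b = 0 := by
    rw [sub_mul, h2, one_mul, sub_self]
  exact (mul_eq_zero.1 h3).resolve_left (sub_ne_zero.2 h1)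

section

variable {K : Type w} [Field K] {C : Type u} [Category.{v} C] [Preadditive C] [Linear K C]
    [MonoidalCategory C] [MonoidalPreadditive C] [MonoidalLinear K C] {n : ℕ} [NeZero n]
    {th : Gl C n} {S : SFrob C}

private theorem A0c_ext (hS : IsSum K th S) {X : C} {f g : S.A ⟶ X}
    (h : ∀ b, hS.i b ≫ f = hS.i b ≫ g) : f = g := by
  rw [← Category.id_comp f, ← Category.id_comp g, ← hS.sum, Preadditive.sum_comp, Preadditive.sum_comp]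
  refine Finset.sum_congr rfl fun b _ => ?_
  rw [Category.assoc, Category.assoc, h]

private theorem A0c_ext2 (hS : IsSum K th S) {X : C} {f g : S.A ⊗ S.A ⟶ X}
    (h : ∀ b c, (hS.i b ⊗ₘ hS.i c) ≫ f = (hS.i b ⊗ₘ hS.i c) ≫ g) : f = g := by
  have h1 : ∀ f : S.A ⊗ S.A ⟶ X,
      f = ∑ b, ∑ c, (hS.q b ⊗ₘ hS.q c) ≫ (hS.i b ⊗ₘ hS.i c) ≫ f := by
    intro f
    conv_lhs => rw [← Category.id_comp f, ← id_tensorHom_id, ← hS.sum, sum_tensor, Preadditive.sum_comp]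
    refine Finset.sum_congr rfl fun b _ => ?_
    rw [tensor_sum, Preadditive.sum_comp]
    refine Finset.sum_congr rfl fun c _ => ?_
    rw [← tensorHom_comp_tensorHom, Category.assoc]
  rw [h1 f, h1 g]
  simp only [h]

/-- the action -/
private def A0c_a (ζ : K) (hS : IsSum K th S) (g : ZMod n) : S.A ⟶ S.A :=
  ∑ b, A0c_x ζ g b • (hS.q b ≫ hS.i b)

private theorem A0c_ia (ζ : K) (hS : IsSum K th S) (g b : ZMod n) :
    hS.i b ≫ A0c_a ζ hS g = A0c_x ζ g b • hS.i b := by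
  rw [A0c_a, Preadditive.comp_sum, Finset.sum_eq_single b]
  · rw [Linear.comp_smul, ← Category.assoc, hS.iq, Category.id_comp]
  · intro c _ hc
    rw [Linear.comp_smul, ← Category.assoc, hS.orth b c hc.symm, Limits.zero_comp, smul_zero]
  · intro h
    exact absurd (Finset.mem_univ b) h

private theorem A0c_aa {ζ : K} (h : ζ ^ n = 1) (hS : IsSum K th S) (g g' : ZMod n) :
    A0c_a ζ hS (g + g') = A0c_a ζ hS g ≫ A0c_a ζ hS g' := by
  refine A0c_ext hS fun b => ?_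
  rw [A0c_ia, ← Category.assoc, A0c_ia, Linear.smul_comp, A0c_ia, smul_smul, A0c_left h]

private theorem A0c_a0 (ζ : K) (hS : IsSum K th S) : A0c_a ζ hS 0 = 𝟙 S.A := by
  rw [A0c_a, ← hS.sum]
  refine Finset.sum_congr rfl fun b _ => ?_
  rw [A0c_zl, one_smul]

private theorem A0c_smul (K : Type w) [Field K] {C : Type u} [Category.{v} C] [Preadditive C] [Linear K C]
    [MonoidalCategory C] [MonoidalPreadditive C] [MonoidalLinear K C] (r s : K) {W X Y Z : C} (f : W ⟶ X)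
    (g : Y ⟶ Z) : (r • f) ⊗ₘ (s • g) = (r * s) • (f ⊗ₘ g) := by
  rw [MonoidalCategory.tensorHom_def, MonoidalCategory.tensorHom_def, MonoidalLinear.smul_whiskerRight, MonoidalLinear.whiskerLeft_smul,
    Linear.smul_comp, Linear.comp_smul, smul_smul]

private theorem A0c_mul {ζ : K} (h : ζ ^ n = 1) (hS : IsSum K th S) (g : ZMod n) :
    (A0c_a ζ hS g ⊗ₘ A0c_a ζ hS g) ≫ S.mul = S.mul ≫ A0c_a ζ hS g := by
  refine A0c_ext2 hS fun b c => ?_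
  rw [← Category.assoc, tensorHom_comp_tensorHom, A0c_ia, A0c_ia, ← Category.assoc, hS.mul b c _ rfl,
    Category.assoc, A0c_ia, A0c_right h, Linear.comp_smul, A0c_smul K, Linear.smul_comp, hS.mul b c _ rfl]

private theorem A0c_one (ζ : K) (hS : IsSum K th S) (g : ZMod n) : S.one ≫ A0c_a ζ hS g = S.one := by
  rw [hS.one, Category.assoc, A0c_ia, A0c_zr, one_smul]

private theorem A0c_cn (ζ : K) (hS : IsSum K th S) (g : ZMod n) : A0c_a ζ hS g ≫ S.cn = S.cn := by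
  refine A0c_ext hS fun b => ?_
  rw [← Category.assoc, A0c_ia, Linear.smul_comp]
  by_cases hb : b = 0
  · rw [hb, A0c_zr, one_smul]
  · rw [hS.cn b hb, smul_zero]

private theorem A0c_i0cn (hS : IsSum K th S) : hS.i 0 ≫ S.cn = (n : K) • th.u.inv := by
  have h := hS.cn0
  have h1 : hS.i 0 ≫ S.cn = th.u.inv ≫ (th.u.hom ≫ hS.i 0 ≫ S.cn) := by
    rw [Iso.inv_hom_id_assoc]
  rw [h1, h, Linear.comp_smul, Category.comp_id]

private theorem A0c_asum {ζ : K} (hζ : IsPrimitiveRoot ζ n) (hS : IsSum K th S) :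
    ∑ g, A0c_a ζ hS g = S.cn ≫ S.one := by
  refine A0c_ext hS fun b => ?_
  rw [Preadditive.comp_sum]
  simp only [A0c_ia]
  rw [← Finset.sum_smul, ← Category.assoc]
  by_cases hb : b = 0
  · subst hb
    rw [A0c_sum0, A0c_i0cn, hS.one, Linear.smul_comp, Iso.inv_hom_id_assoc]
  · rw [A0c_sum hζ hb, hS.cn b hb, zero_smul, Limits.zero_comp]

private theorem A0c_conn (end1 : ∀ f : 𝟙_ C ⟶ 𝟙_ C, ∃ c : K, f = c • 𝟙 (𝟙_ C)) (t : 𝟙_ C ⟶ th.T 0) :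
    ∃ c : K, t = c • th.u.hom := by
  obtain ⟨c, hc⟩ := end1 (t ≫ th.u.inv)
  refine ⟨c, ?_⟩
  have h1 : t = (t ≫ th.u.inv) ≫ th.u.hom := by rw [Category.assoc, Iso.inv_hom_id, Category.comp_id]
  rw [h1, hc, Linear.smul_comp, Category.id_comp]

private theorem A0c_conn2 (end1 : ∀ f : 𝟙_ C ⟶ 𝟙_ C, ∃ c : K, f = c • 𝟙 (𝟙_ C)) (hS : IsSum K th S)
    (t : 𝟙_ C ⟶ S.A) : ∃ c : K, t = c • S.one := by
  obtain ⟨c, hc⟩ := A0c_conn end1 (t ≫ hS.q 0)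
  refine ⟨c, ?_⟩
  have h1 : t = t ≫ ∑ b, hS.q b ≫ hS.i b := by rw [hS.sum, Category.comp_id]
  rw [h1, Preadditive.comp_sum, Finset.sum_eq_single (0 : ZMod n)]
  · rw [← Category.assoc, hc, hS.one, Linear.smul_comp]
  · intro b _ hb
    rw [← Category.assoc, th.ne b hb (t ≫ hS.q b), Limits.zero_comp]
  · intro h
    exact absurd (Finset.mem_univ _) h

/-- the components of the copairing -/
private theorem A0c_cp0 (hS : IsSum K th S) (b c : ZMod n) (h : b + c ≠ 0) :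
    S.one ≫ S.cm ≫ (hS.q b ⊗ₘ hS.q c) = 0 := by
  rw [← cancel_mono (th.m b c _ rfl).hom, Limits.zero_comp]
  exact th.ne _ h _

private theorem A0c_cm (S : SFrob C) : S.cm = (λ_ S.A).inv ≫ (S.one ≫ S.cm) ▷ S.A ≫ (α_ _ _ _).hom ≫ S.A ◁ S.mul := by
  have h := S.frobR
  rw [comp_whiskerRight, Category.assoc, ← h, ← Category.assoc (S.one ▷ S.A), S.one_mul, Iso.inv_hom_id_assoc]

private theorem A0c_cpq (hS : IsSum K th S) (b : ZMod n) :
    S.one ≫ S.cm ≫ hS.q b ▷ S.A = (S.one ≫ S.cm ≫ (hS.q b ⊗ₘ hS.q (-b))) ≫ th.T b ◁ hS.i (-b) := by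
  have h1 : hS.q b ▷ S.A = ∑ c, (hS.q b ⊗ₘ hS.q c) ≫ th.T b ◁ hS.i c := by
    have h2 : hS.q b ▷ S.A = hS.q b ▷ S.A ≫ th.T b ◁ (𝟙 S.A) := by
      rw [MonoidalCategory.whiskerLeft_id, Category.comp_id]
    rw [h2, ← hS.sum, whiskerLeft_sum, Preadditive.comp_sum]
    refine Finset.sum_congr rfl fun c _ => ?_
    rw [MonoidalCategory.whiskerLeft_comp, MonoidalCategory.tensorHom_def, Category.assoc]
  rw [h1, Preadditive.comp_sum, Preadditive.comp_sum, Finset.sum_eq_single (-b)]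
  · simp only [Category.assoc]
  · intro c _ hc
    have h3 := A0c_cp0 hS b c (fun h => hc (eq_neg_of_add_eq_zero_right h))
    have h4 : S.one ≫ S.cm ≫ (hS.q b ⊗ₘ hS.q c) ≫ th.T b ◁ hS.i c =
      (S.one ≫ S.cm ≫ (hS.q b ⊗ₘ hS.q c)) ≫ th.T b ◁ hS.i c := by simp only [Category.assoc]
    rw [h4, h3, Limits.zero_comp]
  · intro h
    exact absurd (Finset.mem_univ _) h

private theorem A0c_zig {C : Type u} [Category.{v} C] [Preadditive C]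
    [MonoidalCategory C] {n : ℕ} {th : Gl C n} (b : ZMod n) (e : b + -b = 0) (e' : -b + b = 0) (e1 : 0 + b = b)
    (e2 : b + 0 = b) : (th.u.hom ≫ (th.m b (-b) 0 e).inv) ▷ th.T b ≫ (α_ _ _ _).hom ≫
      th.T b ◁ (th.m (-b) b 0 e').hom = (λ_ (th.T b)).hom ≫ (th.m b 0 b e2).inv := by
  have h1 := th.assoc b (-b) b 0 0 b e e1 e' e2
  have h2 : (α_ (th.T b) (th.T (-b)) (th.T b)).hom ≫ th.T b ◁ (th.m (-b) b 0 e').hom =
      (th.m b (-b) 0 e).hom ▷ th.T b ≫ (th.m 0 b b e1).hom ≫ (th.m b 0 b e2).inv := by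
    rw [← Category.assoc ((th.m b (-b) 0 e).hom ▷ th.T b), h1]
    simp only [Category.assoc, Iso.hom_inv_id, Category.comp_id]
  rw [h2, comp_whiskerRight, Category.assoc, inv_hom_whiskerRight_assoc, ← th.unitL b e1, Category.assoc]

private theorem A0c_cp1 (hS : IsSum K th S) (b : ZMod n) (γ : K) (e : b + -b = 0)
    (h : S.one ≫ S.cm ≫ (hS.q b ⊗ₘ hS.q (-b)) ≫ (th.m b (-b) 0 e).hom = γ • th.u.hom) :
    (γ * (n : K)) • th.u.hom = th.u.hom := by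
  have h1 : (ρ_ S.A).inv = (λ_ S.A).inv ≫ (S.one ≫ S.cm) ▷ S.A ≫ (α_ _ _ _).hom ≫ S.A ◁ (S.mul ≫ S.cn) := by
    rw [MonoidalCategory.whiskerLeft_comp, ← S.cm_cn]
    conv_lhs => lhs; rw [A0c_cm S]
    simp only [Category.assoc]
  have h2 : S.one ≫ S.cm ≫ (hS.q b ⊗ₘ hS.q (-b)) = γ • (th.u.hom ≫ (th.m b (-b) 0 e).inv) := by
    rw [← cancel_mono (th.m b (-b) 0 e).hom, Linear.smul_comp]
    simp only [Category.assoc, Iso.inv_hom_id, Category.comp_id]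
    exact h
  have e' : -b + b = 0 := neg_add_cancel b
  have h3 : (ρ_ (th.T b)).inv = (γ * (n : K)) • (ρ_ (th.T b)).inv := by
    have h4 : (ρ_ (th.T b)).inv = hS.i b ≫ (ρ_ S.A).inv ≫ hS.q b ▷ 𝟙_ C := by
      rw [← rightUnitor_inv_naturality, ← Category.assoc, hS.iq, Category.id_comp]
    conv_lhs => rw [h4, h1]
    have h5 : hS.i b ≫ ((λ_ S.A).inv ≫ (S.one ≫ S.cm) ▷ S.A ≫ (α_ _ _ _).hom ≫ S.A ◁ (S.mul ≫ S.cn)) ≫
        hS.q b ▷ 𝟙_ C = (λ_ (th.T b)).inv ≫ (S.one ≫ S.cm ≫ hS.q b ▷ S.A) ▷ th.T b ≫ (th.T b ⊗ S.A) ◁ hS.i b ≫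
          (α_ _ _ _).hom ≫ th.T b ◁ (S.mul ≫ S.cn) := by
      have k1 : hS.i b ≫ (λ_ S.A).inv = (λ_ (th.T b)).inv ≫ 𝟙_ C ◁ hS.i b := leftUnitor_inv_naturality _
      have k2 : S.A ◁ (S.mul ≫ S.cn) ≫ hS.q b ▷ 𝟙_ C = hS.q b ▷ (S.A ⊗ S.A) ≫ th.T b ◁ (S.mul ≫ S.cn) :=
        whisker_exchange _ _
      have k3 : (α_ S.A S.A S.A).hom ≫ hS.q b ▷ (S.A ⊗ S.A) = (hS.q b ▷ S.A) ▷ S.A ≫ (α_ _ _ _).hom :=
        (associator_naturality_left _ _ _).symm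
      calc _ = (hS.i b ≫ (λ_ S.A).inv) ≫ (S.one ≫ S.cm) ▷ S.A ≫ (α_ _ _ _).hom ≫
            (S.A ◁ (S.mul ≫ S.cn) ≫ hS.q b ▷ 𝟙_ C) := by simp only [Category.assoc]
        _ = (λ_ (th.T b)).inv ≫ (𝟙_ C ◁ hS.i b ≫ (S.one ≫ S.cm) ▷ S.A) ≫
            ((α_ _ _ _).hom ≫ hS.q b ▷ (S.A ⊗ S.A)) ≫ th.T b ◁ (S.mul ≫ S.cn) := by
          rw [k1, k2]; simp only [Category.assoc]
        _ = (λ_ (th.T b)).inv ≫ (S.one ≫ S.cm) ▷ th.T b ≫ ((S.A ⊗ S.A) ◁ hS.i b ≫ (hS.q b ▷ S.A) ▷ S.A) ≫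
            (α_ _ _ _).hom ≫ th.T b ◁ (S.mul ≫ S.cn) := by
          rw [k3, whisker_exchange]; simp only [Category.assoc]
        _ = _ := by
          rw [whisker_exchange]
          simp only [comp_whiskerRight, Category.assoc]
    rw [h5, A0c_cpq, h2]
    have h6 : ((γ • (th.u.hom ≫ (th.m b (-b) 0 e).inv)) ≫ th.T b ◁ hS.i (-b)) ▷ th.T b ≫
        (th.T b ⊗ S.A) ◁ hS.i b ≫ (α_ _ _ _).hom ≫ th.T b ◁ (S.mul ≫ S.cn) =
        γ • (((th.u.hom ≫ (th.m b (-b) 0 e).inv) ▷ th.T b ≫ (α_ _ _ _).hom ≫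
          th.T b ◁ ((hS.i (-b) ⊗ₘ hS.i b) ≫ S.mul ≫ S.cn))) := by
      rw [Linear.smul_comp, MonoidalLinear.smul_whiskerRight, Linear.smul_comp, comp_whiskerRight,
        Category.assoc]
      congr 2
      rw [MonoidalCategory.tensorHom_def]
      simp only [MonoidalCategory.whiskerLeft_comp, Category.assoc]
      rw [← associator_naturality_middle_assoc, ← associator_naturality_right_assoc]
    rw [h6, Linear.comp_smul]
    have h7 : (hS.i (-b) ⊗ₘ hS.i b) ≫ S.mul ≫ S.cn = (n : K) • ((th.m (-b) b 0 e').hom ≫ th.u.inv) := by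
      rw [← Category.assoc, hS.mul (-b) b 0 e', Category.assoc, A0c_i0cn, Linear.comp_smul]
    rw [h7, MonoidalLinear.whiskerLeft_smul, Linear.comp_smul, Linear.comp_smul, Linear.comp_smul, smul_smul]
    congr 1
    have h8 := A0c_zig (th := th) b e e' (zero_add b) (add_zero b)
    have h9 : (ρ_ (th.T b)).inv = (th.m b 0 b (add_zero b)).inv ≫ th.T b ◁ th.u.inv := by
      rw [← cancel_mono (ρ_ (th.T b)).hom, Iso.inv_hom_id, ← th.unitR b (add_zero b), Category.assoc,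
        ← MonoidalCategory.whiskerLeft_comp_assoc, Iso.inv_hom_id, MonoidalCategory.whiskerLeft_id,
        Category.id_comp, Iso.inv_hom_id]
    rw [h9, MonoidalCategory.whiskerLeft_comp]
    calc _ = (λ_ (th.T b)).inv ≫ ((th.u.hom ≫ (th.m b (-b) 0 e).inv) ▷ th.T b ≫ (α_ _ _ _).hom ≫
      th.T b ◁ (th.m (-b) b 0 e').hom) ≫ th.T b ◁ th.u.inv := by simp only [Category.assoc]
      _ = _ := by rw [h8, Category.assoc, Iso.inv_hom_id_assoc]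
  have h10 : 𝟙 (th.T b) = (γ * (n : K)) • 𝟙 (th.T b) := by
    calc 𝟙 (th.T b) = (ρ_ (th.T b)).inv ≫ (ρ_ (th.T b)).hom := by rw [Iso.inv_hom_id]
      _ = ((γ * (n : K)) • (ρ_ (th.T b)).inv) ≫ (ρ_ (th.T b)).hom := by rw [← h3]
      _ = _ := by rw [Linear.smul_comp, Iso.inv_hom_id]
  have h11 : th.u.hom = th.u.hom ≫ (th.m b (-b) 0 e).inv ≫ (𝟙 (th.T b)) ▷ th.T (-b) ≫
      (th.m b (-b) 0 e).hom := by
    rw [id_whiskerRight, Category.id_comp, Iso.inv_hom_id, Category.comp_id]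
  conv_rhs => rw [h11, h10]
  rw [MonoidalLinear.smul_whiskerRight, Linear.smul_comp, Linear.comp_smul, Linear.comp_smul, id_whiskerRight,
    Category.id_comp, Iso.inv_hom_id, Category.comp_id]

private theorem A0c_orth {ζ : K} (hn : (n : K) ≠ 0) (hζ : IsPrimitiveRoot ζ n)
    (end1 : ∀ f : 𝟙_ C ⟶ 𝟙_ C, ∃ c : K, f = c • 𝟙 (𝟙_ C)) (hS : IsSum K th S) (g : ZMod n) (hg : g ≠ 0) :
    S.cm ≫ S.A ◁ A0c_a ζ hS g ≫ S.mul = 0 := by
  have h1 : S.mul ≫ (S.cm ≫ S.A ◁ A0c_a ζ hS g ≫ S.mul) =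
      S.A ◁ (S.cm ≫ S.A ◁ A0c_a ζ hS g ≫ S.mul) ≫ S.mul := by
    have k1 := S.assoc
    have k2 : S.mul ▷ S.A ≫ S.A ◁ A0c_a ζ hS g = (S.A ⊗ S.A) ◁ A0c_a ζ hS g ≫ S.mul ▷ S.A :=
      (whisker_exchange _ _).symm
    calc S.mul ≫ (S.cm ≫ S.A ◁ A0c_a ζ hS g ≫ S.mul) = (S.mul ≫ S.cm) ≫ S.A ◁ A0c_a ζ hS g ≫ S.mul := by
          rw [Category.assoc]
      _ = S.A ◁ S.cm ≫ (α_ _ _ _).inv ≫ (S.mul ▷ S.A ≫ S.A ◁ A0c_a ζ hS g) ≫ S.mul := by
          rw [S.frobL]; simp only [Category.assoc]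
      _ = S.A ◁ S.cm ≫ ((α_ _ _ _).inv ≫ (S.A ⊗ S.A) ◁ A0c_a ζ hS g) ≫ S.mul ▷ S.A ≫ S.mul := by
          rw [k2]; simp only [Category.assoc]
      _ = S.A ◁ S.cm ≫ S.A ◁ S.A ◁ A0c_a ζ hS g ≫ (α_ _ _ _).inv ≫ S.mul ▷ S.A ≫ S.mul := by
          rw [← associator_inv_naturality_right]; simp only [Category.assoc]
      _ = _ := by
          rw [k1, Iso.inv_hom_id_assoc]
          simp only [MonoidalCategory.whiskerLeft_comp, Category.assoc]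
  have h2 : S.cm ≫ S.A ◁ A0c_a ζ hS g ≫ S.mul =
      (ρ_ S.A).inv ≫ S.A ◁ (S.one ≫ S.cm ≫ S.A ◁ A0c_a ζ hS g ≫ S.mul) ≫ S.mul := by
    rw [MonoidalCategory.whiskerLeft_comp, Category.assoc, ← h1, ← Category.assoc (S.A ◁ S.one), S.mul_one,
      Iso.inv_hom_id_assoc]
  have h3 : S.one ≫ S.cm ≫ S.A ◁ A0c_a ζ hS g ≫ S.mul = 0 := by
    have k0 : ∀ b c : ZMod n, b + c ≠ 0 →
        S.one ≫ S.cm ≫ ((hS.q b ⊗ₘ hS.q c) ≫ (hS.i b ⊗ₘ hS.i c)) ≫ S.A ◁ A0c_a ζ hS g ≫ S.mul = 0 := by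
      intro b c hbc
      calc _ = (S.one ≫ S.cm ≫ (hS.q b ⊗ₘ hS.q c)) ≫ (hS.i b ⊗ₘ hS.i c) ≫ S.A ◁ A0c_a ζ hS g ≫ S.mul := by
            simp only [Category.assoc]
        _ = 0 := by rw [A0c_cp0 hS b c hbc, Limits.zero_comp]
    have k2 : ∀ b : ZMod n, (n : K) • (S.one ≫ S.cm ≫ ((hS.q b ⊗ₘ hS.q (-b)) ≫ (hS.i b ⊗ₘ hS.i (-b))) ≫
        S.A ◁ A0c_a ζ hS g ≫ S.mul) = A0c_x ζ g (-b) • S.one := by
      intro b
      have e : b + -b = 0 := add_neg_cancel b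
      obtain ⟨γ, hγ⟩ := A0c_conn end1 (S.one ≫ S.cm ≫ (hS.q b ⊗ₘ hS.q (-b)) ≫ (th.m b (-b) 0 e).hom)
      have h4 := A0c_cp1 hS b γ e hγ
      have h5 : (hS.i b ⊗ₘ hS.i (-b)) ≫ S.A ◁ A0c_a ζ hS g ≫ S.mul =
          A0c_x ζ g (-b) • ((th.m b (-b) 0 e).hom ≫ hS.i 0) := by
        rw [← id_tensorHom, ← Category.assoc, tensorHom_comp_tensorHom, Category.comp_id, A0c_ia]
        have := A0c_smul K 1 (A0c_x ζ g (-b)) (hS.i b) (hS.i (-b))
        rw [one_smul, one_mul] at this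
        rw [this, Linear.smul_comp, hS.mul b (-b) _ e]
      calc _ = (n : K) • ((S.one ≫ S.cm ≫ (hS.q b ⊗ₘ hS.q (-b))) ≫ ((hS.i b ⊗ₘ hS.i (-b)) ≫
            S.A ◁ A0c_a ζ hS g ≫ S.mul)) := by simp only [Category.assoc]
        _ = A0c_x ζ g (-b) • ((n : K) • ((S.one ≫ S.cm ≫ (hS.q b ⊗ₘ hS.q (-b)) ≫ (th.m b (-b) 0 e).hom) ≫
            hS.i 0)) := by
          rw [h5, Linear.comp_smul, smul_comm]
          simp only [Category.assoc]
        _ = A0c_x ζ g (-b) • (((γ * (n : K)) • th.u.hom) ≫ hS.i 0) := by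
          rw [hγ, Linear.smul_comp, Linear.smul_comp, smul_smul (n : K) γ, mul_comm (n : K) γ]
        _ = _ := by rw [h4, hS.one]
    have k3 : (n : K) • (S.one ≫ S.cm ≫ S.A ◁ A0c_a ζ hS g ≫ S.mul) = 0 := by
      have k4 : S.A ◁ A0c_a ζ hS g ≫ S.mul = ∑ b, ∑ c, ((hS.q b ⊗ₘ hS.q c) ≫ (hS.i b ⊗ₘ hS.i c)) ≫
          S.A ◁ A0c_a ζ hS g ≫ S.mul := by
        conv_lhs => rw [← Category.id_comp (S.A ◁ A0c_a ζ hS g ≫ S.mul), ← id_tensorHom_id, ← hS.sum, sum_tensor,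
          Preadditive.sum_comp]
        refine Finset.sum_congr rfl fun b _ => ?_
        rw [tensor_sum, Preadditive.sum_comp]
        refine Finset.sum_congr rfl fun c _ => ?_
        rw [← tensorHom_comp_tensorHom]
      have k5 : S.one ≫ S.cm ≫ S.A ◁ A0c_a ζ hS g ≫ S.mul = ∑ b, S.one ≫ S.cm ≫
          ((hS.q b ⊗ₘ hS.q (-b)) ≫ (hS.i b ⊗ₘ hS.i (-b))) ≫ S.A ◁ A0c_a ζ hS g ≫ S.mul := by
        conv_lhs => rw [k4]
        rw [Preadditive.comp_sum, Preadditive.comp_sum]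
        refine Finset.sum_congr rfl fun b _ => ?_
        rw [Preadditive.comp_sum, Preadditive.comp_sum]
        refine Finset.sum_eq_single (-b) (fun c _ hc => ?_) (fun h => absurd (Finset.mem_univ _) h)
        exact k0 b c fun h => hc (eq_neg_of_add_eq_zero_right h)
      rw [k5, Finset.smul_sum, Finset.sum_congr rfl fun b _ => k2 b, ← Finset.sum_smul]
      have k6 : ∑ b : ZMod n, A0c_x ζ g (-b) = ∑ b : ZMod n, A0c_x ζ b g := by
        refine Fintype.sum_equiv (Equiv.neg (ZMod n)) _ _ fun b => ?_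
        rw [Equiv.neg_apply, A0c_comm]
      rw [k6, A0c_sum hζ hg, zero_smul]
    exact (smul_eq_zero_iff_right hn).1 k3
  rw [h2, h3, MonoidalPreadditive.whiskerLeft_zero, Limits.zero_comp, Limits.comp_zero]

end

theorem exists_gal {K : Type w} [Field K] {C : Type u} [Category.{v} C] [Preadditive C] [Linear K C]
    [MonoidalCategory C] [MonoidalPreadditive C] [MonoidalLinear K C] {n : ℕ} [NeZero n] (hn : (n : K) ≠ 0) {ζ : K}
    (hζ : IsPrimitiveRoot ζ n) (end1 : ∀ f : 𝟙_ C ⟶ 𝟙_ C, ∃ c : K, f = c • 𝟙 (𝟙_ C)) {th : Gl C n} {S : SFrob C}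
    (hS : IsSum K th S) : Nonempty (Gal K S n) := by
  have h1 := hζ.pow_eq_one
  refine ⟨⟨A0c_a ζ hS, A0c_a0 ζ hS, A0c_aa h1 hS, A0c_mul h1 hS, A0c_one ζ hS, ?_, A0c_cn ζ hS,
    A0c_asum hζ hS, A0c_orth hn hζ end1 hS, A0c_conn2 end1 hS, ?_⟩⟩
  · intro g
    have e1 : A0c_a ζ hS g ≫ A0c_a ζ hS (-g) = 𝟙 S.A := by
      rw [← A0c_aa h1, add_neg_cancel, A0c_a0]
    have e2 : A0c_a ζ hS (-g) ≫ A0c_a ζ hS g = 𝟙 S.A := by
      rw [← A0c_aa h1, neg_add_cancel, A0c_a0]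
    exact cm_of_iso (S := S) (S' := S) ⟨A0c_a ζ hS g, A0c_a ζ hS (-g), e1, e2⟩ (A0c_mul h1 hS g)
      (A0c_one ζ hS g) (A0c_cn ζ hS g)
  · rw [hS.one, Category.assoc, hS.cn0]

end Pool.Agent.SFC
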