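import Pool.Agent.SFC.DefsB

/-!
# SFC/ALin: linear structure of the category of bimodules

Addition, negation and scalar multiplication of bimodule maps are those of `C`.
-/

set_option autoImplicit false

noncomputable section

open CategoryTheory MonoidalCategory

namespace Pool.Agent.SFC

universe v u w

section

variable {C : Type u} [Category.{v} C] [Preadditive C] [MonoidalCategory C] [MonoidalPreadditive C] {S : SFrob C}

namespace Bim

variable {M N P : Bim S}

instance : Zero (M ⟶ N) := ⟨⟨0, by simp, by simp, by simp⟩⟩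

instance : Add (M ⟶ N) := ⟨fun f g => ⟨Hom.f f + Hom.f g, by
  rw [MonoidalPreadditive.whiskerLeft_add, Preadditive.add_comp, Preadditive.comp_add, f.hl, g.hl], by
  rw [MonoidalPreadditive.add_whiskerRight, Preadditive.add_comp, Preadditive.comp_add, f.hr, g.hr], by
  rw [Preadditive.add_comp, f.hp, g.hp]⟩⟩

instance : Neg (M ⟶ N) := ⟨fun f => ⟨-Hom.f f, by
  have h1 : S.A ◁ (-Hom.f f) = -(S.A ◁ Hom.f f) := ((tensoringLeft C).obj S.A).map_neg
  rw [h1, Preadditive.neg_comp, Preadditive.comp_neg, f.hl], by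
  have h1 : (-Hom.f f) ▷ S.A = -(Hom.f f ▷ S.A) := ((tensoringRight C).obj S.A).map_neg
  rw [h1, Preadditive.neg_comp, Preadditive.comp_neg, f.hr], by
  rw [Preadditive.neg_comp, f.hp]⟩⟩

@[simp] theorem zero_f : Hom.f (0 : M ⟶ N) = 0 := rfl
@[simp] theorem add_f (f g : M ⟶ N) : Hom.f (f + g) = Hom.f f + Hom.f g := rfl
@[simp] theorem neg_f (f : M ⟶ N) : Hom.f (-f) = -Hom.f f := rfl

instance : AddCommGroup (M ⟶ N) where
  add_assoc f g h := hom_ext (add_assoc _ _ _)
  zero_add f := hom_ext (zero_add _)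
  add_zero f := hom_ext (add_zero _)
  nsmul := nsmulRec
  zsmul := zsmulRec
  neg_add_cancel f := hom_ext (neg_add_cancel _)
  add_comm f g := hom_ext (add_comm _ _)

instance : Preadditive (Bim S) where
  add_comp _ _ _ f g h := hom_ext (Preadditive.add_comp _ _ _ _ _ _)
  comp_add _ _ _ f g h := hom_ext (Preadditive.comp_add _ _ _ _ _ _)

end Bim

end

section

variable {K : Type w} [Field K] {C : Type u} [Category.{v} C] [Preadditive C] [Linear K C] [MonoidalCategory C]
  [MonoidalPreadditive C] [MonoidalLinear K C] {S : SFrob C}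

namespace Bim

instance (M N : Bim S) : SMul K (M ⟶ N) := ⟨fun c f => ⟨c • Hom.f f, by
  rw [MonoidalLinear.whiskerLeft_smul, Linear.smul_comp, Linear.comp_smul, f.hl], by
  rw [MonoidalLinear.smul_whiskerRight, Linear.smul_comp, Linear.comp_smul, f.hr], by
  rw [Linear.smul_comp, f.hp]⟩⟩

@[simp] theorem smul_f {M N : Bim S} (c : K) (f : M ⟶ N) : Hom.f (c • f) = c • Hom.f f := rfl

instance (M N : Bim S) : Module K (M ⟶ N) where
  one_smul f := hom_ext (one_smul _ _)
  mul_smul a b f := hom_ext (mul_smul _ _ _)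
  smul_zero a := hom_ext (smul_zero _)
  smul_add a f g := hom_ext (smul_add _ _ _)
  add_smul a b f := hom_ext (add_smul _ _ _)
  zero_smul f := hom_ext (zero_smul _ _)

instance : Linear K (Bim S) where
  smul_comp _ _ _ c f g := hom_ext (Linear.smul_comp _ _ _ _ _ _)
  comp_smul _ _ _ f c g := hom_ext (Linear.comp_smul _ _ _ _ _ _)

/-- the linear map `f ↦ f.f` -/
def fLin (M N : Bim S) : (M ⟶ N) →ₗ[K] (M.X ⟶ N.X) where
  toFun f := Hom.f f
  map_add' _ _ := rfl
  map_smul' _ _ := rfl

end Bim

end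

end Pool.Agent.SFC
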