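import Pool.Agent.SFC.AVc
import Pool.Agent.SFC.ALin

/-!
# SFC/AGa: retracts of free bimodules, maps between free bimodules

* `bim_retr`: each bimodule is a retract of a free one;
* `bim_end1`: `End (unt S) = K` if `conn`;
* `hv g : V x ⟶ V y` for `g : x ⟶ A ⊗ (y ⊗ A)`, `hvi T = (one x one) ≫ T`: mutually inverse.
-/

set_option autoImplicit false
set_option linter.unusedSimpArgs false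

noncomputable section

open CategoryTheory MonoidalCategory

namespace Pool.Agent.SFC

universe v u w

section

variable {C : Type u} [Category.{v} C] [MonoidalCategory C]

/-- the action map `A x A ⟶ x` of a bimodule -/
def Bim.act {S : SFrob C} (Z : Bim S) : vO S Z.X ⟶ Z where
  f := S.A ◁ Z.r ≫ Z.l
  hl := by
    show S.A ◁ (S.A ◁ Z.r ≫ Z.l) ≫ Z.l = ((α_ S.A S.A (Z.X ⊗ S.A)).inv ≫ S.mul ▷ (Z.X ⊗ S.A)) ≫ S.A ◁ Z.r ≫ Z.l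
    have h0 : S.A ◁ Z.l ≫ Z.l = (α_ _ _ _).inv ≫ S.mul ▷ Z.X ≫ Z.l := by rw [Z.ll]; simp
    have h := whisker_exchange S.mul Z.r
    calc _ = S.A ◁ S.A ◁ Z.r ≫ (S.A ◁ Z.l ≫ Z.l) := by monoidal
      _ = 𝟙 _ ⊗≫ ((S.A ⊗ S.A) ◁ Z.r ≫ S.mul ▷ Z.X) ≫ Z.l := by rw [h0]; monoidal
      _ = _ := by rw [h]; monoidal
  hr := by
    show (S.A ◁ Z.r ≫ Z.l) ▷ S.A ≫ Z.r = ((α_ S.A (Z.X ⊗ S.A) S.A).hom ≫ S.A ◁ ((α_ Z.X S.A S.A).hom ≫ Z.X ◁ S.mul)) ≫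
      S.A ◁ Z.r ≫ Z.l
    have h0 : Z.r ▷ S.A ≫ Z.r = (α_ _ _ _).hom ≫ Z.X ◁ S.mul ≫ Z.r := by rw [Z.rr]; simp
    calc _ = (S.A ◁ Z.r) ▷ S.A ≫ (Z.l ▷ S.A ≫ Z.r) := by monoidal
      _ = 𝟙 _ ⊗≫ S.A ◁ (Z.r ▷ S.A ≫ Z.r) ≫ Z.l := by rw [Z.lr]; monoidal
      _ = _ := by rw [h0]; monoidal
  hp := by
    show (S.A ◁ Z.r ≫ Z.l) ≫ Z.p = S.A ◁ Z.r ≫ Z.l
    rw [Category.assoc, Z.p_l]

/-- the section of the action map -/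
def Bim.coact {S : SFrob C} (Z : Bim S) : Z ⟶ vO S Z.X where
  f := Z.sL ≫ S.A ◁ Z.sR
  hl := by
    show S.A ◁ (Z.sL ≫ S.A ◁ Z.sR) ≫ (α_ S.A S.A (Z.X ⊗ S.A)).inv ≫ S.mul ▷ (Z.X ⊗ S.A) = Z.l ≫ Z.sL ≫ S.A ◁ Z.sR
    have h := whisker_exchange S.mul Z.sR
    calc _ = 𝟙 _ ⊗≫ S.A ◁ Z.sL ⊗≫ ((S.A ⊗ S.A) ◁ Z.sR ≫ S.mul ▷ (Z.X ⊗ S.A)) := by monoidal
      _ = (S.A ◁ Z.sL ≫ (α_ _ _ _).inv ≫ S.mul ▷ Z.X) ≫ S.A ◁ Z.sR := by rw [h]; monoidal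
      _ = _ := by rw [← Bim.l_sL', Category.assoc]
  hr := by
    show (Z.sL ≫ S.A ◁ Z.sR) ▷ S.A ≫ (α_ S.A (Z.X ⊗ S.A) S.A).hom ≫ S.A ◁ ((α_ Z.X S.A S.A).hom ≫ Z.X ◁ S.mul) =
      Z.r ≫ Z.sL ≫ S.A ◁ Z.sR
    calc _ = 𝟙 _ ⊗≫ Z.sL ▷ S.A ⊗≫ S.A ◁ (Z.sR ▷ S.A ≫ (α_ _ _ _).hom ≫ Z.X ◁ S.mul) := by monoidal
      _ = (Z.sL ▷ S.A ≫ (α_ _ _ _).hom ≫ S.A ◁ Z.r) ≫ S.A ◁ Z.sR := by rw [← Bim.r_sR']; monoidal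
      _ = _ := by rw [← Bim.r_sL, Category.assoc]
  hp := by
    rw [vO_p]
    exact Category.comp_id _

theorem Bim.coact_act {S : SFrob C} (Z : Bim S) : Z.coact ≫ Z.act = 𝟙 Z := by
  apply Bim.hom_ext
  show (Z.sL ≫ S.A ◁ Z.sR) ≫ S.A ◁ Z.r ≫ Z.l = Z.p
  rw [Category.assoc, ← MonoidalCategory.whiskerLeft_comp_assoc, Bim.sR_r, ← Category.assoc, Bim.sL_p, Bim.sL_l]

theorem bim_retr {S : SFrob C} (Z : Bim S) : ∃ (x : C) (i : Z ⟶ vO S x) (p : vO S x ⟶ Z), i ≫ p = 𝟙 Z :=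
  ⟨Z.X, Z.coact, Z.act, Z.coact_act⟩

/-- a bimodule map from `V x` is determined by its restriction to `one x one` -/
def ux (S : SFrob C) (x : C) : x ⟶ S.A ⊗ (x ⊗ S.A) :=
  (λ_ x).inv ≫ (𝟙_ C ◁ (ρ_ x).inv) ≫ S.one ▷ (x ⊗ 𝟙_ C) ≫ S.A ◁ (x ◁ S.one)

theorem hom_ux {S : SFrob C} {x : C} {Z : Bim S} (T : vO S x ⟶ Z) :
    Bim.Hom.f T = S.A ◁ ((ux S x ≫ Bim.Hom.f T) ▷ S.A) ≫ S.A ◁ Z.r ≫ Z.l := by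
  obtain ⟨t, ht⟩ : ∃ t : S.A ⊗ (x ⊗ S.A) ⟶ Z.X, Bim.Hom.f T = t := ⟨_, rfl⟩
  have h1 : S.A ◁ t ≫ Z.l = ((α_ S.A S.A (x ⊗ S.A)).inv ≫ S.mul ▷ (x ⊗ S.A)) ≫ t := by
    rw [← ht]
    exact T.hl
  have h2 : t ▷ S.A ≫ Z.r =
      ((α_ S.A (x ⊗ S.A) S.A).hom ≫ S.A ◁ ((α_ x S.A S.A).hom ≫ x ◁ S.mul)) ≫ t := by
    rw [← ht]
    exact T.hr
  show Bim.Hom.f T = S.A ◁ ((ux S x ≫ Bim.Hom.f T) ▷ S.A) ≫ S.A ◁ Z.r ≫ Z.l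
  rw [ht]
  show t = S.A ◁ ((ux S x ≫ t) ▷ S.A) ≫ S.A ◁ Z.r ≫ Z.l
  have h3 : (ux S x) ▷ S.A ≫ (α_ S.A (x ⊗ S.A) S.A).hom ≫ S.A ◁ ((α_ x S.A S.A).hom ≫ x ◁ S.mul) =
      (λ_ (x ⊗ S.A)).inv ≫ S.one ▷ (x ⊗ S.A) := by
    have h := congrArg (fun t => x ◁ t) S.one_mul
    simp only [MonoidalCategory.whiskerLeft_comp] at h
    calc _ = 𝟙 _ ⊗≫ S.one ▷ (x ⊗ 𝟙_ C ⊗ S.A) ⊗≫ S.A ◁ (x ◁ S.one ▷ S.A ≫ x ◁ S.mul) := by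
          rw [ux]
          monoidal
      _ = _ := by rw [h]; monoidal
  have h4 : S.A ◁ ((λ_ (x ⊗ S.A)).inv ≫ S.one ▷ (x ⊗ S.A)) ≫ (α_ S.A S.A (x ⊗ S.A)).inv ≫ S.mul ▷ (x ⊗ S.A) =
      𝟙 _ := by
    have h := congrArg (fun t => t ▷ (x ⊗ S.A)) S.mul_one
    simp only [comp_whiskerRight] at h
    calc _ = 𝟙 _ ⊗≫ ((S.A ◁ S.one) ▷ (x ⊗ S.A) ≫ S.mul ▷ (x ⊗ S.A)) := by monoidal
      _ = _ := by rw [h]; monoidal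
  have h5 : ((ux S x ≫ t) ▷ S.A) ≫ Z.r = ((λ_ (x ⊗ S.A)).inv ≫ S.one ▷ (x ⊗ S.A)) ≫ t := by
    rw [comp_whiskerRight, Category.assoc, h2, ← h3]
    simp only [Category.assoc]
  rw [← MonoidalCategory.whiskerLeft_comp_assoc, h5, MonoidalCategory.whiskerLeft_comp, Category.assoc, h1]
  simp only [← Category.assoc] at h4 ⊢
  rw [h4, Category.id_comp]

/-- the bimodule map `V x ⟶ Z` with restriction `g` -/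
def hv {S : SFrob C} {x : C} (Z : Bim S) (g : x ⟶ Z.X) : vO S x ⟶ Z := vH S g ≫ Z.act

@[simp] theorem hv_f {S : SFrob C} {x : C} (Z : Bim S) (g : x ⟶ Z.X) :
    Bim.Hom.f (hv Z g) = S.A ◁ (g ▷ S.A) ≫ S.A ◁ Z.r ≫ Z.l := rfl

theorem ux_act {S : SFrob C} {x : C} (Z : Bim S) (g : x ⟶ Z.X) :
    ux S x ≫ S.A ◁ (g ▷ S.A) ≫ S.A ◁ Z.r ≫ Z.l = g ≫ Z.p := by
  have h1 : ux S x ≫ S.A ◁ (g ▷ S.A) = g ≫ ux S Z.X := by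
    rw [ux, ux]
    have a1 := whisker_exchange g S.one
    have a2 := whisker_exchange S.one (g ▷ 𝟙_ C)
    calc _ = 𝟙 _ ⊗≫ S.one ▷ (x ⊗ 𝟙_ C) ≫ S.A ◁ (x ◁ S.one ≫ g ▷ S.A) := by monoidal
      _ = 𝟙 _ ⊗≫ (S.one ▷ (x ⊗ 𝟙_ C) ≫ S.A ◁ (g ▷ 𝟙_ C)) ≫ S.A ◁ (Z.X ◁ S.one) := by rw [a1]; monoidal
      _ = _ := by rw [← a2]; monoidal
  have h2 : ux S Z.X ≫ S.A ◁ Z.r ≫ Z.l = Z.p := by
    rw [ux]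
    calc _ = (λ_ Z.X).inv ≫ S.one ▷ Z.X ≫ S.A ◁ ((ρ_ Z.X).inv ≫ Z.X ◁ S.one ≫ Z.r) ≫ Z.l := by monoidal
      _ = _ := by
        have h6 : S.A ◁ Z.p ≫ Z.l = Z.l := (𝟙 Z : Z ⟶ Z).hl.trans Z.p_l
        rw [← Z.p_r, h6]
        rfl
  rw [← Category.assoc, h1, Category.assoc, h2]

end

end Pool.Agent.SFC
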