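import Pool.Agent.SFC.AGa

/-!
# SFC/AGb: averaging, tensor products of free bimodules (underlying maps)

`rav t`, `lav t`: the maps `cR ≫ t ▷ V 1 ≫ aR` and `cL ≫ V 1 ◁ t ≫ aL` on underlying objects.
`vva : ten (V x) (V y) ⟶ V (x ⊗ (A ⊗ y))` and its inverse `vvb`.
-/

set_option autoImplicit false
set_option linter.unusedSimpArgs false

noncomputable section

open CategoryTheory MonoidalCategory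

namespace Pool.Agent.SFC

universe v u w

section

variable {C : Type u} [Category.{v} C] [MonoidalCategory C]

/-- `cR ≫ t ▷ V 1 ≫ aR` -/
def rav (S : SFrob C) {x y : C} (t : S.A ⊗ (x ⊗ S.A) ⟶ S.A ⊗ (y ⊗ S.A)) : S.A ⊗ (x ⊗ S.A) ⟶ S.A ⊗ (y ⊗ S.A) :=
  S.A ◁ (ρ_ x).inv ▷ S.A ≫ vde S x (𝟙_ C) ≫ t ▷ (S.A ⊗ (𝟙_ C ⊗ S.A)) ≫ vmu S y (𝟙_ C) ≫ S.A ◁ (ρ_ y).hom ▷ S.A

/-- `cL ≫ V 1 ◁ t ≫ aL` -/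
def lav (S : SFrob C) {x y : C} (t : S.A ⊗ (x ⊗ S.A) ⟶ S.A ⊗ (y ⊗ S.A)) : S.A ⊗ (x ⊗ S.A) ⟶ S.A ⊗ (y ⊗ S.A) :=
  S.A ◁ (λ_ x).inv ▷ S.A ≫ vde S (𝟙_ C) x ≫ (S.A ⊗ (𝟙_ C ⊗ S.A)) ◁ t ≫ vmu S (𝟙_ C) y ≫ S.A ◁ (λ_ y).hom ▷ S.A

theorem cp_cn_r (S : SFrob C) : S.A ◁ S.cp ≫ (α_ _ _ _).inv ≫ S.mul ▷ S.A ≫ S.mul ≫ S.cn = (ρ_ _).hom ≫ S.cn := by
  rw [← Category.assoc (S.mul ▷ S.A), S.assoc]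
  simp only [Category.assoc, Iso.inv_hom_id_assoc]
  rw [← MonoidalCategory.whiskerLeft_comp_assoc, SFrob.cp, Category.assoc, S.sep, Category.comp_id,
    ← Category.assoc, S.mul_one]

theorem cp_cn_l (S : SFrob C) : S.cp ▷ S.A ≫ (α_ _ _ _).hom ≫ S.A ◁ S.mul ≫ S.mul ≫ S.cn = (λ_ _).hom ≫ S.cn := by
  have h := S.assoc
  have h0 : S.A ◁ S.mul ≫ S.mul = (α_ _ _ _).inv ≫ S.mul ▷ S.A ≫ S.mul := by rw [S.assoc]; simp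
  rw [← Category.assoc (S.A ◁ S.mul), h0]
  simp only [Category.assoc, Iso.hom_inv_id_assoc]
  rw [← comp_whiskerRight_assoc, SFrob.cp, Category.assoc, S.sep, Category.comp_id,
    ← Category.assoc, S.one_mul]

theorem lin_r (S : SFrob C) {x y : C} {t : S.A ⊗ (x ⊗ S.A) ⟶ S.A ⊗ (y ⊗ S.A)}
    (hr : t ▷ S.A ≫ (vO S y).r = (vO S x).r ≫ t) : t = (α_ S.A x S.A).inv ≫
      (S.A ◁ ((ρ_ x).inv ≫ x ◁ S.one) ≫ t) ▷ S.A ≫ (α_ S.A (y ⊗ S.A) S.A).hom ≫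
        S.A ◁ ((α_ y S.A S.A).hom ≫ y ◁ S.mul) := by
  have h1 : t ▷ S.A ≫ (α_ S.A (y ⊗ S.A) S.A).hom ≫ S.A ◁ ((α_ y S.A S.A).hom ≫ y ◁ S.mul) =
      ((α_ S.A (x ⊗ S.A) S.A).hom ≫ S.A ◁ ((α_ x S.A S.A).hom ≫ x ◁ S.mul)) ≫ t := hr
  have h2 : (α_ S.A x S.A).inv ≫ (S.A ◁ ((ρ_ x).inv ≫ x ◁ S.one)) ▷ S.A ≫ (α_ S.A (x ⊗ S.A) S.A).hom ≫
      S.A ◁ ((α_ x S.A S.A).hom ≫ x ◁ S.mul) = 𝟙 _ := by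
    have h := congrArg (fun t => S.A ◁ x ◁ t) S.one_mul
    simp only [MonoidalCategory.whiskerLeft_comp] at h
    calc _ = 𝟙 _ ⊗≫ (S.A ◁ x ◁ S.one ▷ S.A ≫ S.A ◁ x ◁ S.mul) := by monoidal
      _ = _ := by rw [h]; monoidal
  rw [comp_whiskerRight, Category.assoc, h1]
  simp only [← Category.assoc] at h2 ⊢
  rw [h2, Category.id_comp]

theorem lin_l (S : SFrob C) {x y : C} {t : S.A ⊗ (x ⊗ S.A) ⟶ S.A ⊗ (y ⊗ S.A)}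
    (hl : S.A ◁ t ≫ (vO S y).l = (vO S x).l ≫ t) : t =
      S.A ◁ ((λ_ (x ⊗ S.A)).inv ≫ S.one ▷ (x ⊗ S.A) ≫ t) ≫ (α_ S.A S.A (y ⊗ S.A)).inv ≫ S.mul ▷ (y ⊗ S.A) := by
  have h1 : S.A ◁ t ≫ (α_ S.A S.A (y ⊗ S.A)).inv ≫ S.mul ▷ (y ⊗ S.A) =
      ((α_ S.A S.A (x ⊗ S.A)).inv ≫ S.mul ▷ (x ⊗ S.A)) ≫ t := hl
  have h2 : S.A ◁ ((λ_ (x ⊗ S.A)).inv ≫ S.one ▷ (x ⊗ S.A)) ≫ (α_ S.A S.A (x ⊗ S.A)).inv ≫ S.mul ▷ (x ⊗ S.A) =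
      𝟙 _ := by
    have h := congrArg (fun t => t ▷ (x ⊗ S.A)) S.mul_one
    simp only [comp_whiskerRight] at h
    calc _ = 𝟙 _ ⊗≫ ((S.A ◁ S.one) ▷ (x ⊗ S.A) ≫ S.mul ▷ (x ⊗ S.A)) := by monoidal
      _ = _ := by rw [h]; monoidal
  rw [← Category.assoc (λ_ (x ⊗ S.A)).inv, MonoidalCategory.whiskerLeft_comp _ ((λ_ (x ⊗ S.A)).inv ≫ _),
    Category.assoc, h1]
  simp only [← Category.assoc] at h2 ⊢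
  rw [h2, Category.id_comp]

theorem rav_eq (S : SFrob C) {x y : C} {t : S.A ⊗ (x ⊗ S.A) ⟶ S.A ⊗ (y ⊗ S.A)}
    (hr : t ▷ S.A ≫ (vO S y).r = (vO S x).r ≫ t) : rav S t = (α_ S.A x S.A).inv ≫
      (S.A ◁ ((ρ_ x).inv ≫ x ◁ S.one) ≫ t ≫ S.A ◁ (y ◁ S.cn ≫ (ρ_ y).hom)) ▷ S.A ≫ (α_ S.A y S.A).hom := by
  have h0 := lin_r S hr
  obtain ⟨t₀, ht₀⟩ : ∃ t₀ : S.A ⊗ x ⟶ S.A ⊗ (y ⊗ S.A), S.A ◁ ((ρ_ x).inv ≫ x ◁ S.one) ≫ t = t₀ := ⟨_, rfl⟩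
  rw [ht₀] at h0
  rw [← Category.assoc (S.A ◁ ((ρ_ x).inv ≫ x ◁ S.one)), ht₀, rav]
  conv_lhs => rw [h0]
  have h1 := whisker_exchange t₀ (S.cp ▷ S.A)
  have h2 := cp_cn_r S
  simp only [vmu, vde, bt, gm, Iso.trans_hom, Iso.trans_inv, whiskerRightIso_hom, whiskerRightIso_inv,
    whiskerLeftIso_hom, whiskerLeftIso_inv, Iso.symm_hom, Iso.symm_inv]
  calc _ = 𝟙 _ ⊗≫ ((S.A ⊗ x) ◁ (S.cp ▷ S.A) ≫ t₀ ▷ ((S.A ⊗ S.A) ⊗ S.A)) ⊗≫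
          S.A ◁ y ◁ ((S.mul ▷ S.A ≫ S.mul ≫ S.cn) ▷ S.A) ⊗≫ 𝟙 _ := by monoidal
    _ = 𝟙 _ ⊗≫ t₀ ▷ S.A ⊗≫ S.A ◁ y ◁ ((S.A ◁ S.cp ≫ (α_ _ _ _).inv ≫ S.mul ▷ S.A ≫ S.mul ≫ S.cn) ▷ S.A) ⊗≫
          𝟙 _ := by rw [h1]; monoidal
    _ = _ := by rw [h2]; monoidal

theorem lav_eq (S : SFrob C) {x y : C} {t : S.A ⊗ (x ⊗ S.A) ⟶ S.A ⊗ (y ⊗ S.A)}
    (hl : S.A ◁ t ≫ (vO S y).l = (vO S x).l ≫ t) : lav S t =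
      S.A ◁ ((λ_ (x ⊗ S.A)).inv ≫ S.one ▷ (x ⊗ S.A) ≫ t ≫ S.cn ▷ (y ⊗ S.A) ≫ (λ_ _).hom) := by
  have h0 := lin_l S hl
  obtain ⟨t₀, ht₀⟩ : ∃ t₀ : x ⊗ S.A ⟶ S.A ⊗ (y ⊗ S.A), (λ_ (x ⊗ S.A)).inv ≫ S.one ▷ (x ⊗ S.A) ≫ t = t₀ := ⟨_, rfl⟩
  rw [ht₀] at h0
  have h3 : (λ_ (x ⊗ S.A)).inv ≫ S.one ▷ (x ⊗ S.A) ≫ t ≫ S.cn ▷ (y ⊗ S.A) ≫ (λ_ _).hom =
      t₀ ≫ S.cn ▷ (y ⊗ S.A) ≫ (λ_ _).hom := by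
    rw [← ht₀]
    simp only [Category.assoc]
  rw [h3, lav]
  conv_lhs => rw [h0]
  have h1 := whisker_exchange S.cp t₀
  have h2 := cp_cn_l S
  simp only [vmu, vde, bt, gm, Iso.trans_hom, Iso.trans_inv, whiskerRightIso_hom, whiskerRightIso_inv,
    whiskerLeftIso_hom, whiskerLeftIso_inv, Iso.symm_hom, Iso.symm_inv]
  calc _ = 𝟙 _ ⊗≫ S.A ◁ (S.cp ▷ (x ⊗ S.A) ≫ (S.A ⊗ S.A) ◁ t₀) ⊗≫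
          S.A ◁ ((S.A ◁ S.mul ≫ S.mul ≫ S.cn) ▷ (y ⊗ S.A)) ⊗≫ 𝟙 _ := by monoidal
    _ = 𝟙 _ ⊗≫ S.A ◁ t₀ ⊗≫ S.A ◁ ((S.cp ▷ S.A ≫ (α_ _ _ _).hom ≫ S.A ◁ S.mul ≫ S.mul ≫ S.cn) ▷ (y ⊗ S.A)) ⊗≫
          𝟙 _ := by rw [← h1]; monoidal
    _ = _ := by rw [h2]; monoidal

/-- the averaged map -/
def avf (S : SFrob C) {x y : C} (t : S.A ⊗ (x ⊗ S.A) ⟶ S.A ⊗ (y ⊗ S.A)) : x ⟶ y :=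
  (λ_ x).inv ≫ S.one ▷ x ≫ S.A ◁ ((ρ_ x).inv ≫ x ◁ S.one) ≫ t ≫ S.A ◁ (y ◁ S.cn ≫ (ρ_ y).hom) ≫ S.cn ▷ y ≫
    (λ_ y).hom

theorem lav_rav (S : SFrob C) {x y : C} {t : S.A ⊗ (x ⊗ S.A) ⟶ S.A ⊗ (y ⊗ S.A)}
    (hr : t ▷ S.A ≫ (vO S y).r = (vO S x).r ≫ t) (hl : S.A ◁ rav S t ≫ (vO S y).l = (vO S x).l ≫ rav S t) :
    lav S (rav S t) = S.A ◁ avf S t ▷ S.A := by
  rw [lav_eq S hl, rav_eq S hr, avf]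
  monoidal

end

end Pool.Agent.SFC
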