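import Pool.Agent.SFC.ATen

/-! # SFC/AMon: the monoidal category of bimodules

`im g : M ⟶ N` is the morphism `M.p ≫ g`, for a map `g : M.X ⟶ N.X` which commutes with the actions.  Each morphism `f` is
`im f.f`; composition, `wR`, `wL` of the morphisms `im g` are given by the same formulas on `g`.  The associator is `im` of
the associator of `C`, the unitors are `im` of the actions, with the inverses `im` of the coactions.
-/

set_option autoImplicit false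

noncomputable section

open CategoryTheory MonoidalCategory

namespace Pool.Agent.SFC

universe v u

variable {C : Type u} [Category.{v} C] [MonoidalCategory C]

namespace Bim

variable {S : SFrob C}

theorem p_nat {M N : Bim S} {g : M.X ⟶ N.X} (hl : S.A ◁ g ≫ N.l = M.l ≫ g) : M.p ≫ g = g ≫ N.p := by
  rw [Bim.p, Bim.p, Category.assoc, Category.assoc, ← hl, leftUnitor_inv_naturality_assoc, whisker_exchange_assoc]

theorem Ap_l (M : Bim S) : S.A ◁ M.p ≫ M.l = M.l := by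
  have h : Hom.f (𝟙 M) = M.p := rfl
  have h2 := (𝟙 M : M ⟶ M).hl
  rw [h, p_l] at h2
  exact h2

theorem pA_r (M : Bim S) : M.p ▷ S.A ≫ M.r = M.r := by
  have h : Hom.f (𝟙 M) = M.p := rfl
  have h2 := (𝟙 M : M ⟶ M).hr
  rw [h, p_r'] at h2
  exact h2

/-- the morphism `M.p ≫ g` -/
def im {M N : Bim S} (g : M.X ⟶ N.X) (hl : S.A ◁ g ≫ N.l = M.l ≫ g) (hr : g ▷ S.A ≫ N.r = M.r ≫ g) : M ⟶ N where
  f := M.p ≫ g
  hl := by rw [MonoidalCategory.whiskerLeft_comp, Category.assoc, hl, ← Category.assoc, Ap_l, ← Category.assoc, p_l]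
  hr := by rw [comp_whiskerRight, Category.assoc, hr, ← Category.assoc, pA_r, ← Category.assoc, p_r']
  hp := by rw [Category.assoc, ← p_nat hl, ← Category.assoc, pp]

@[simp] theorem im_f {M N : Bim S} (g : M.X ⟶ N.X) (hl : S.A ◁ g ≫ N.l = M.l ≫ g) (hr : g ▷ S.A ≫ N.r = M.r ≫ g) :
    Hom.f (im g hl hr) = M.p ≫ g := rfl

theorem im_hom {M N : Bim S} (f : M ⟶ N) : im (Hom.f f) f.hl f.hr = f := hom_ext f.ph

theorem im_congr {M N : Bim S} {g g' : M.X ⟶ N.X} (h : g = g') (hl : S.A ◁ g ≫ N.l = M.l ≫ g)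
    (hr : g ▷ S.A ≫ N.r = M.r ≫ g) : im g hl hr = im g' (h ▸ hl) (h ▸ hr) := by
  subst h
  rfl

theorem im_comp {M N P : Bim S} (g : M.X ⟶ N.X) (hl : S.A ◁ g ≫ N.l = M.l ≫ g) (hr : g ▷ S.A ≫ N.r = M.r ≫ g)
    (g' : N.X ⟶ P.X) (hl' : S.A ◁ g' ≫ P.l = N.l ≫ g') (hr' : g' ▷ S.A ≫ P.r = N.r ≫ g') :
    im g hl hr ≫ im g' hl' hr' = im (g ≫ g')
      (by rw [MonoidalCategory.whiskerLeft_comp, Category.assoc, hl', ← Category.assoc, hl, Category.assoc])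
      (by rw [comp_whiskerRight, Category.assoc, hr', ← Category.assoc, hr, Category.assoc]) := by
  apply hom_ext
  rw [comp_f, im_f, im_f, im_f, Category.assoc, ← Category.assoc g, ← p_nat hl]
  simp only [← Category.assoc]
  rw [pp]

theorem im_congr' {M N : Bim S} {g g' : M.X ⟶ N.X} (h : g = g') (hl : S.A ◁ g ≫ N.l = M.l ≫ g)
    (hr : g ▷ S.A ≫ N.r = M.r ≫ g) (hl' : S.A ◁ g' ≫ N.l = M.l ≫ g') (hr' : g' ▷ S.A ≫ N.r = M.r ≫ g') :
    im g hl hr = im g' hl' hr' := by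
  subst h
  rfl

theorem im_ext {M N : Bim S} {g g' : M.X ⟶ N.X} (h : g ≫ N.p = g' ≫ N.p) (hl : S.A ◁ g ≫ N.l = M.l ≫ g)
    (hr : g ▷ S.A ≫ N.r = M.r ≫ g) (hl' : S.A ◁ g' ≫ N.l = M.l ≫ g') (hr' : g' ▷ S.A ≫ N.r = M.r ≫ g') :
    im g hl hr = im g' hl' hr' := by
  apply hom_ext
  rw [im_f, im_f, p_nat hl, p_nat hl', h]

/-- each morphism is of the form `im g` -/
theorem exists_im {M N : Bim S} (f : M ⟶ N) : ∃ (g : M.X ⟶ N.X) (hl : S.A ◁ g ≫ N.l = M.l ≫ g)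
    (hr : g ▷ S.A ≫ N.r = M.r ≫ g), f = im g hl hr := ⟨Hom.f f, f.hl, f.hr, (im_hom f).symm⟩

/-! ### whiskering -/

theorem g_e {M M' : Bim S} {g : M.X ⟶ M'.X} (hr : g ▷ S.A ≫ M'.r = M.r ≫ g) (N : Bim S) :
    g ▷ N.X ≫ e M' N = e M N ≫ g ▷ N.X := by
  have h3 : g ≫ M'.sR = M.sR ≫ g ▷ S.A := by
    rw [sR, sR, rightUnitor_inv_naturality_assoc, ← whisker_exchange_assoc]
    have h4 : g ▷ (S.A ⊗ S.A) ≫ (α_ M'.X S.A S.A).inv ≫ M'.r ▷ S.A =
        (α_ M.X S.A S.A).inv ≫ (g ▷ S.A ≫ M'.r) ▷ S.A := by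
      simp
    rw [h4, hr]
    simp
  rw [e_eq, e_eq, ← comp_whiskerRight_assoc, h3]
  simp only [comp_whiskerRight, Category.assoc]
  rw [associator_naturality_left_assoc, ← whisker_exchange]

theorem e_g (M : Bim S) {N N' : Bim S} {g : N.X ⟶ N'.X} (hl : S.A ◁ g ≫ N'.l = N.l ≫ g) :
    M.X ◁ g ≫ e M N' = e M N ≫ M.X ◁ g := by
  have h3 : g ≫ N'.sL = N.sL ≫ S.A ◁ g := by
    rw [sL, sL, leftUnitor_inv_naturality_assoc, whisker_exchange_assoc]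
    have h2 : (S.A ⊗ S.A) ◁ g ≫ (α_ S.A S.A N'.X).hom ≫ S.A ◁ N'.l =
        (α_ S.A S.A N.X).hom ≫ S.A ◁ (S.A ◁ g ≫ N'.l) := by
      simp
    rw [h2, hl]
    simp
  rw [e, e, ← MonoidalCategory.whiskerLeft_comp_assoc, h3]
  simp only [MonoidalCategory.whiskerLeft_comp, Category.assoc]
  rw [associator_inv_naturality_right_assoc, whisker_exchange]

theorem wR_hl {M M' : Bim S} {g : M.X ⟶ M'.X} (hl : S.A ◁ g ≫ M'.l = M.l ≫ g) (hr : g ▷ S.A ≫ M'.r = M.r ≫ g)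
    (N : Bim S) : S.A ◁ (g ▷ N.X) ≫ (ten M' N).l = (ten M N).l ≫ g ▷ N.X := by
  show S.A ◁ (g ▷ N.X) ≫ lt M' N ≫ e M' N = (lt M N ≫ e M N) ≫ g ▷ N.X
  have h1 : S.A ◁ (g ▷ N.X) ≫ lt M' N = lt M N ≫ g ▷ N.X := by
    rw [lt, lt, Category.assoc, ← comp_whiskerRight, ← hl]
    simp
  rw [← Category.assoc, h1, Category.assoc, g_e hr, Category.assoc]

theorem wR_hr {M M' : Bim S} {g : M.X ⟶ M'.X} (hr : g ▷ S.A ≫ M'.r = M.r ≫ g)
    (N : Bim S) : (g ▷ N.X) ▷ S.A ≫ (ten M' N).r = (ten M N).r ≫ g ▷ N.X := by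
  show (g ▷ N.X) ▷ S.A ≫ rt M' N ≫ e M' N = (rt M N ≫ e M N) ≫ g ▷ N.X
  have h1 : (g ▷ N.X) ▷ S.A ≫ rt M' N = rt M N ≫ g ▷ N.X := by
    rw [rt, rt, Category.assoc, whisker_exchange]
    simp
  rw [← Category.assoc, h1, Category.assoc, g_e hr, Category.assoc]

theorem wL_hl (M : Bim S) {N N' : Bim S} {g : N.X ⟶ N'.X} (hl : S.A ◁ g ≫ N'.l = N.l ≫ g) :
    S.A ◁ (M.X ◁ g) ≫ (ten M N').l = (ten M N).l ≫ M.X ◁ g := by
  show S.A ◁ (M.X ◁ g) ≫ lt M N' ≫ e M N' = (lt M N ≫ e M N) ≫ M.X ◁ g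
  have h1 : S.A ◁ (M.X ◁ g) ≫ lt M N' = lt M N ≫ M.X ◁ g := by
    rw [lt, lt, Category.assoc, ← whisker_exchange]
    simp
  rw [← Category.assoc, h1, Category.assoc, e_g M hl, Category.assoc]

theorem wL_hr (M : Bim S) {N N' : Bim S} {g : N.X ⟶ N'.X} (hl : S.A ◁ g ≫ N'.l = N.l ≫ g)
    (hr : g ▷ S.A ≫ N'.r = N.r ≫ g) : (M.X ◁ g) ▷ S.A ≫ (ten M N').r = (ten M N).r ≫ M.X ◁ g := by
  show (M.X ◁ g) ▷ S.A ≫ rt M N' ≫ e M N' = (rt M N ≫ e M N) ≫ M.X ◁ g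
  have h1 : (M.X ◁ g) ▷ S.A ≫ rt M N' = rt M N ≫ M.X ◁ g := by
    rw [rt, rt, Category.assoc, ← MonoidalCategory.whiskerLeft_comp, ← hr]
    simp
  rw [← Category.assoc, h1, Category.assoc, e_g M hl, Category.assoc]

theorem wR_im {M M' : Bim S} (g : M.X ⟶ M'.X) (hl : S.A ◁ g ≫ M'.l = M.l ≫ g) (hr : g ▷ S.A ≫ M'.r = M.r ≫ g)
    (N : Bim S) : wR (im g hl hr) N = im (g ▷ N.X) (wR_hl hl hr N) (wR_hr hr N) := by
  apply hom_ext
  rw [wR_f, im_f, im_f, ten_p, comp_whiskerRight, ← Category.assoc, pL_e]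

theorem wL_im (M : Bim S) {N N' : Bim S} (g : N.X ⟶ N'.X) (hl : S.A ◁ g ≫ N'.l = N.l ≫ g)
    (hr : g ▷ S.A ≫ N'.r = N.r ≫ g) : wL M (im g hl hr) = im (M.X ◁ g) (wL_hl M hl) (wL_hr M hl hr) := by
  apply hom_ext
  rw [wL_f, im_f, im_f, ten_p, MonoidalCategory.whiskerLeft_comp, ← Category.assoc, pR_e]

/-! ### associator -/

theorem e_al (M N P : Bim S) : e (ten M N) P ≫ (α_ M.X N.X P.X).hom = (α_ M.X N.X P.X).hom ≫ e M (ten N P) := by
  rw [e_ten_l, e_ten_r]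
  simp only [Category.assoc, Iso.inv_hom_id, Category.comp_id]
  exact e_comm M N P

theorem ten_l_def (M N : Bim S) : (ten M N).l = (α_ _ _ _).inv ≫ M.l ▷ N.X ≫ e M N := by
  show lt M N ≫ e M N = _
  rw [lt, Category.assoc]

theorem ten_r_def (M N : Bim S) : (ten M N).r = (α_ _ _ _).hom ≫ M.X ◁ N.r ≫ e M N := by
  show rt M N ≫ e M N = _
  rw [rt, Category.assoc]

theorem al_hl (M N P : Bim S) : S.A ◁ (α_ M.X N.X P.X).hom ≫ (ten M (ten N P)).l =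
    (ten (ten M N) P).l ≫ (α_ M.X N.X P.X).hom := by
  have h1 : (ten (ten M N) P).l = (α_ _ _ _).inv ≫ (α_ _ _ _).inv ▷ P.X ≫ M.l ▷ N.X ▷ P.X ≫ e (ten M N) P := by
    rw [ten_l_def (ten M N) P, ten_l_def M N]
    simp only [comp_whiskerRight, Category.assoc]
    have := e_pL (ten M N) P
    rw [ten_p] at this
    congr 3
  rw [h1, ten_l_def]
  simp only [Category.assoc]
  rw [e_al]
  simp

theorem al_hr (M N P : Bim S) : (α_ M.X N.X P.X).hom ▷ S.A ≫ (ten M (ten N P)).r =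
    (ten (ten M N) P).r ≫ (α_ M.X N.X P.X).hom := by
  have h1 : (ten M (ten N P)).r = (α_ _ _ _).hom ≫ M.X ◁ (α_ _ _ _).hom ≫ M.X ◁ N.X ◁ P.r ≫ e M (ten N P) := by
    rw [ten_r_def M (ten N P), ten_r_def N P]
    simp only [MonoidalCategory.whiskerLeft_comp, Category.assoc]
    have := e_pR M (ten N P)
    rw [ten_p] at this
    congr 3
  rw [h1, ten_r_def]
  simp only [Category.assoc]
  rw [e_al]
  simp

theorem ali_hl (M N P : Bim S) : S.A ◁ (α_ M.X N.X P.X).inv ≫ (ten (ten M N) P).l =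
    (ten M (ten N P)).l ≫ (α_ M.X N.X P.X).inv := by
  rw [← cancel_mono (α_ M.X N.X P.X).hom, Category.assoc, ← al_hl, Category.assoc]
  simp

theorem ali_hr (M N P : Bim S) : (α_ M.X N.X P.X).inv ▷ S.A ≫ (ten (ten M N) P).r =
    (ten M (ten N P)).r ≫ (α_ M.X N.X P.X).inv := by
  rw [← cancel_mono (α_ M.X N.X P.X).hom, Category.assoc, ← al_hr, Category.assoc]
  simp

/-- the associator -/
def al (M N P : Bim S) : ten (ten M N) P ≅ ten M (ten N P) where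
  hom := im (α_ M.X N.X P.X).hom (al_hl M N P) (al_hr M N P)
  inv := im (α_ M.X N.X P.X).inv (ali_hl M N P) (ali_hr M N P)
  hom_inv_id := by
    rw [im_comp]
    apply hom_ext
    rw [im_f, id_f]
    simp
  inv_hom_id := by
    rw [im_comp]
    apply hom_ext
    rw [im_f, id_f]
    simp

/-! ### unitors -/

theorem e_unt_l (M : Bim S) : e (unt S) M = M.l ≫ M.sL := by
  rw [l_sL']
  rfl

theorem e_unt_r (M : Bim S) : e M (unt S) = M.r ≫ M.sR := by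
  rw [r_sR, e, unt_sL]

theorem la_hl (M : Bim S) : S.A ◁ M.l ≫ M.l = (ten (unt S) M).l ≫ M.l := by
  rw [ten_l_def, e_unt_l]
  simp only [Category.assoc]
  rw [sL_l, p_l]
  show S.A ◁ M.l ≫ M.l = (α_ _ _ _).inv ≫ S.mul ▷ M.X ≫ M.l
  rw [M.ll]
  simp

theorem la_hr (M : Bim S) : M.l ▷ S.A ≫ M.r = (ten (unt S) M).r ≫ M.l := by
  rw [ten_r_def, e_unt_l]
  simp only [Category.assoc]
  rw [sL_l, p_l, M.lr]

theorem li_hl (M : Bim S) : S.A ◁ M.sL ≫ (ten (unt S) M).l = M.l ≫ M.sL := by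
  rw [ten_l_def, e_unt_l, ← Category.assoc (S.A ◁ M.sL), ← Category.assoc (S.A ◁ M.sL ≫ (α_ _ _ _).inv)]
  have h : (S.A ◁ M.sL ≫ (α_ _ _ _).inv) ≫ (unt S).l ▷ M.X = M.l ≫ M.sL := by
    rw [l_sL', Category.assoc]
  rw [h, Category.assoc, ← Category.assoc M.sL, sL_l, p_sL]

theorem li_hr (M : Bim S) : M.sL ▷ S.A ≫ (ten (unt S) M).r = M.r ≫ M.sL := by
  rw [ten_r_def, e_unt_l, ← Category.assoc (M.sL ▷ S.A), ← Category.assoc (M.sL ▷ S.A ≫ (α_ _ _ _).hom)]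
  have h : (M.sL ▷ S.A ≫ (α_ _ _ _).hom) ≫ S.A ◁ M.r = M.r ≫ M.sL := by
    rw [r_sL, Category.assoc]
  show ((M.sL ▷ S.A ≫ (α_ _ _ _).hom) ≫ S.A ◁ M.r) ≫ M.l ≫ M.sL = M.r ≫ M.sL
  rw [h, Category.assoc, ← Category.assoc M.sL, sL_l, p_sL]

theorem ra_hl (M : Bim S) : S.A ◁ M.r ≫ M.l = (ten M (unt S)).l ≫ M.r := by
  rw [ten_l_def, e_unt_r]
  simp only [Category.assoc]
  rw [sR_r, p_r']
  show S.A ◁ M.r ≫ M.l = (α_ _ _ _).inv ≫ M.l ▷ S.A ≫ M.r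
  rw [M.lr]
  simp

theorem ra_hr (M : Bim S) : M.r ▷ S.A ≫ M.r = (ten M (unt S)).r ≫ M.r := by
  rw [ten_r_def, e_unt_r]
  simp only [Category.assoc]
  rw [sR_r, p_r']
  show M.r ▷ S.A ≫ M.r = (α_ _ _ _).hom ≫ M.X ◁ S.mul ≫ M.r
  rw [M.rr]
  simp

theorem ri_hl (M : Bim S) : S.A ◁ M.sR ≫ (ten M (unt S)).l = M.l ≫ M.sR := by
  rw [ten_l_def, e_unt_r, ← Category.assoc (S.A ◁ M.sR), ← Category.assoc (S.A ◁ M.sR ≫ (α_ _ _ _).inv)]
  have h : (S.A ◁ M.sR ≫ (α_ _ _ _).inv) ≫ M.l ▷ S.A = M.l ≫ M.sR := by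
    rw [l_sR, Category.assoc]
  show ((S.A ◁ M.sR ≫ (α_ _ _ _).inv) ≫ M.l ▷ S.A) ≫ M.r ≫ M.sR = M.l ≫ M.sR
  rw [h, Category.assoc, ← Category.assoc M.sR, sR_r, p_sR]

theorem ri_hr (M : Bim S) : M.sR ▷ S.A ≫ (ten M (unt S)).r = M.r ≫ M.sR := by
  rw [ten_r_def, e_unt_r, ← Category.assoc (M.sR ▷ S.A), ← Category.assoc (M.sR ▷ S.A ≫ (α_ _ _ _).hom)]
  have h : (M.sR ▷ S.A ≫ (α_ _ _ _).hom) ≫ M.X ◁ S.mul = M.r ≫ M.sR := by
    rw [r_sR', Category.assoc]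
  show ((M.sR ▷ S.A ≫ (α_ _ _ _).hom) ≫ M.X ◁ S.mul) ≫ M.r ≫ M.sR = M.r ≫ M.sR
  rw [h, Category.assoc, ← Category.assoc M.sR, sR_r, p_sR]

/-- the left unitor -/
def la (M : Bim S) : ten (unt S) M ≅ M where
  hom := im M.l (la_hl M) (la_hr M)
  inv := im M.sL (li_hl M) (li_hr M)
  hom_inv_id := by
    rw [im_comp]
    apply hom_ext
    rw [im_f, id_f, ← e_unt_l, ten_p, e_e]
  inv_hom_id := by
    rw [im_comp]
    apply hom_ext
    rw [im_f, id_f, sL_l, pp]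

/-- the right unitor -/
def ra (M : Bim S) : ten M (unt S) ≅ M where
  hom := im M.r (ra_hl M) (ra_hr M)
  inv := im M.sR (ri_hl M) (ri_hr M)
  hom_inv_id := by
    rw [im_comp]
    apply hom_ext
    rw [im_f, id_f, ← e_unt_r, ten_p, e_e]
  inv_hom_id := by
    rw [im_comp]
    apply hom_ext
    rw [im_f, id_f, sR_r, pp]

theorem al_hom (M N P : Bim S) : (al M N P).hom = im (α_ M.X N.X P.X).hom (al_hl M N P) (al_hr M N P) := rfl
theorem al_inv (M N P : Bim S) : (al M N P).inv = im (α_ M.X N.X P.X).inv (ali_hl M N P) (ali_hr M N P) := rfl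
theorem la_hom (M : Bim S) : (la M).hom = im M.l (la_hl M) (la_hr M) := rfl
theorem la_inv (M : Bim S) : (la M).inv = im M.sL (li_hl M) (li_hr M) := rfl
theorem ra_hom (M : Bim S) : (ra M).hom = im M.r (ra_hl M) (ra_hr M) := rfl
theorem ra_inv (M : Bim S) : (ra M).inv = im M.sR (ri_hl M) (ri_hr M) := rfl

/-- the monoidal structure -/
instance mons (S : SFrob C) : MonoidalCategoryStruct (Bim S) where
  tensorObj := ten
  whiskerLeft M _ _ g := wL M g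
  whiskerRight f N := wR f N
  tensorHom f g := wR f _ ≫ wL _ g
  tensorUnit := unt S
  associator := al
  leftUnitor := la
  rightUnitor := ra

theorem wR_id (M N : Bim S) : wR (𝟙 M) N = 𝟙 (ten M N) := by
  apply hom_ext
  rw [wR_f, id_f, id_f, ten_p, pL_e]

theorem wL_id (M N : Bim S) : wL M (𝟙 N) = 𝟙 (ten M N) := by
  apply hom_ext
  rw [wL_f, id_f, id_f, ten_p, pR_e]

theorem wR_comp {M M' M'' : Bim S} (f : M ⟶ M') (g : M' ⟶ M'') (N : Bim S) : wR (f ≫ g) N = wR f N ≫ wR g N := by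
  apply hom_ext
  rw [comp_f, wR_f, wR_f, wR_f, comp_f, comp_whiskerRight, Category.assoc, ← Category.assoc (Hom.f f ▷ N.X), f_e,
    ← Category.assoc, ← Category.assoc, ← Category.assoc, e_e]

theorem wL_comp (M : Bim S) {N N' N'' : Bim S} (f : N ⟶ N') (g : N' ⟶ N'') : wL M (f ≫ g) = wL M f ≫ wL M g := by
  apply hom_ext
  rw [comp_f, wL_f, wL_f, wL_f, comp_f, MonoidalCategory.whiskerLeft_comp, Category.assoc,
    ← Category.assoc (M.X ◁ Hom.f f), e_f, ← Category.assoc, ← Category.assoc, ← Category.assoc, e_e]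

theorem wR_wL {M M' N N' : Bim S} (f : M ⟶ M') (g : N ⟶ N') : wR f N ≫ wL M' g = wL M g ≫ wR f N' := by
  apply hom_ext
  rw [comp_f, comp_f, wR_f, wR_f, wL_f, wL_f, Category.assoc, Category.assoc, ← Category.assoc (Hom.f f ▷ N.X), f_e,
    ← Category.assoc (M.X ◁ Hom.f g), e_f, Category.assoc, Category.assoc, whisker_exchange]

instance monc (S : SFrob C) : MonoidalCategory (Bim S) where
  tensorHom_def _ _ := rfl
  id_tensorHom_id M N := by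
    show wR (𝟙 M) N ≫ wL M (𝟙 N) = 𝟙 (ten M N)
    rw [wR_id, wL_id, Category.comp_id]
  tensorHom_comp_tensorHom f₁ f₂ g₁ g₂ := by
    show (wR f₁ _ ≫ wL _ f₂) ≫ (wR g₁ _ ≫ wL _ g₂) = wR (f₁ ≫ g₁) _ ≫ wL _ (f₂ ≫ g₂)
    rw [wR_comp, wL_comp, Category.assoc, Category.assoc, ← Category.assoc (wL _ f₂), ← wR_wL, Category.assoc]
  whiskerLeft_id M N := wL_id M N
  id_whiskerRight M N := wR_id M N
  associator_naturality f₁ f₂ f₃ := by
    obtain ⟨g₁, h₁, h₁', rfl⟩ := exists_im f₁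
    obtain ⟨g₂, h₂, h₂', rfl⟩ := exists_im f₂
    obtain ⟨g₃, h₃, h₃', rfl⟩ := exists_im f₃
    show (wR (wR (im g₁ h₁ h₁') _ ≫ wL _ (im g₂ h₂ h₂')) _ ≫ wL _ (im g₃ h₃ h₃')) ≫ im _ (al_hl _ _ _) (al_hr _ _ _) =
      im _ (al_hl _ _ _) (al_hr _ _ _) ≫ (wR (im g₁ h₁ h₁') _ ≫ wL _ (wR (im g₂ h₂ h₂') _ ≫ wL _ (im g₃ h₃ h₃')))
    simp only [wR_im, wL_im, im_comp]
    apply im_congr'
    simp
  leftUnitor_naturality f := by
    obtain ⟨g, h, h', rfl⟩ := exists_im f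
    show wL _ (im g h h') ≫ im _ (la_hl _) (la_hr _) = im _ (la_hl _) (la_hr _) ≫ im g h h'
    simp only [wL_im, im_comp]
    exact im_congr' h _ _ _ _
  rightUnitor_naturality f := by
    obtain ⟨g, h, h', rfl⟩ := exists_im f
    show wR (im g h h') _ ≫ im _ (ra_hl _) (ra_hr _) = im _ (ra_hl _) (ra_hr _) ≫ im g h h'
    simp only [wR_im, im_comp]
    exact im_congr' h' _ _ _ _
  pentagon M N P Q := by
    show wR (al M N P).hom Q ≫ (al M (ten N P) Q).hom ≫ wL M (al N P Q).hom =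
      (al (ten M N) P Q).hom ≫ (al M N (ten P Q)).hom
    simp only [al_hom, wR_im, wL_im, im_comp]
    apply im_congr'
    simp
  triangle M N := by
    show (al M (unt S) N).hom ≫ wL M (la N).hom = wR (ra M).hom N
    simp only [al_hom, la_hom, ra_hom, wR_im, wL_im, im_comp]
    apply im_ext
    rw [ten_p, Category.assoc]
    exact (bal M N).symm

end Bim

end Pool.Agent.SFC
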