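import Pool.Agent.SFC.AVc
import Pool.Agent.SFC.AMon

/-!
# SFC/AVd: the functor `V`

`VF S : C ⥤ Bim S`, `x ↦ A x A`, with its lax and oplax monoidal structures.
-/

set_option autoImplicit false
set_option linter.unusedSimpArgs false

noncomputable section

open CategoryTheory MonoidalCategory

namespace Pool.Agent.SFC

universe v u

variable {C : Type u} [Category.{v} C] [MonoidalCategory C]

theorem vH_hl (S : SFrob C) {x y : C} (f : x ⟶ y) :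
    S.A ◁ (S.A ◁ f ▷ S.A) ≫ (vO S y).l = (vO S x).l ≫ S.A ◁ f ▷ S.A := (vH S f).hl

theorem vH_hr (S : SFrob C) {x y : C} (f : x ⟶ y) :
    (S.A ◁ f ▷ S.A) ▷ S.A ≫ (vO S y).r = (vO S x).r ≫ S.A ◁ f ▷ S.A := (vH S f).hr

theorem vM_hl (S : SFrob C) (x y : C) :
    S.A ◁ vmu S x y ≫ (vO S (x ⊗ y)).l = (Bim.ten (vO S x) (vO S y)).l ≫ vmu S x y := (vM S x y).hl

theorem vM_hr (S : SFrob C) (x y : C) :
    vmu S x y ▷ S.A ≫ (vO S (x ⊗ y)).r = (Bim.ten (vO S x) (vO S y)).r ≫ vmu S x y := (vM S x y).hr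

theorem vD_hl (S : SFrob C) (x y : C) :
    S.A ◁ vde S x y ≫ (Bim.ten (vO S x) (vO S y)).l = (vO S (x ⊗ y)).l ≫ vde S x y := (vD S x y).hl

theorem vD_hr (S : SFrob C) (x y : C) :
    vde S x y ▷ S.A ≫ (Bim.ten (vO S x) (vO S y)).r = (vO S (x ⊗ y)).r ≫ vde S x y := (vD S x y).hr

theorem vE_hl (S : SFrob C) : S.A ◁ vep S ≫ (vO S (𝟙_ C)).l = (Bim.unt S).l ≫ vep S := (vE S).hl

theorem vE_hr (S : SFrob C) : vep S ▷ S.A ≫ (vO S (𝟙_ C)).r = (Bim.unt S).r ≫ vep S := (vE S).hr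

theorem vT_hl (S : SFrob C) : S.A ◁ vet S ≫ (Bim.unt S).l = (vO S (𝟙_ C)).l ≫ vet S := (vT S).hl

theorem vT_hr (S : SFrob C) : vet S ▷ S.A ≫ (Bim.unt S).r = (vO S (𝟙_ C)).r ≫ vet S := (vT S).hr

theorem vH_im (S : SFrob C) {x y : C} (f : x ⟶ y) : vH S f = Bim.im (S.A ◁ f ▷ S.A) (vH_hl S f) (vH_hr S f) :=
  (Bim.im_hom (vH S f)).symm

theorem vM_im (S : SFrob C) (x y : C) : vM S x y = Bim.im (vmu S x y) (vM_hl S x y) (vM_hr S x y) :=
  (Bim.im_hom (vM S x y)).symm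

theorem vD_im (S : SFrob C) (x y : C) : vD S x y = Bim.im (vde S x y) (vD_hl S x y) (vD_hr S x y) :=
  (Bim.im_hom (vD S x y)).symm

theorem vE_im (S : SFrob C) : vE S = Bim.im (vep S) (vE_hl S) (vE_hr S) := (Bim.im_hom (vE S)).symm

theorem vT_im (S : SFrob C) : vT S = Bim.im (vet S) (vT_hl S) (vT_hr S) := (Bim.im_hom (vT S)).symm

/-- the functor `x ↦ A x A` -/
def VF (S : SFrob C) : C ⥤ Bim S where
  obj := vO S
  map f := vH S f
  map_id x := by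
    apply Bim.hom_ext
    rw [vH_f, Bim.id_f, vO_p]
    simp
  map_comp f g := by
    apply Bim.hom_ext
    rw [vH_f, Bim.comp_f, vH_f, vH_f]
    simp

@[simp] theorem VF_obj (S : SFrob C) (x : C) : (VF S).obj x = vO S x := rfl
@[simp] theorem VF_map (S : SFrob C) {x y : C} (f : x ⟶ y) : (VF S).map f = vH S f := rfl

instance VF_lax (S : SFrob C) : (VF S).LaxMonoidal where
  ε := vE S
  μ := vM S
  μ_natural_left {x y} f z := by
    show Bim.wR (vH S f) (vO S z) ≫ vM S y z = vM S x z ≫ vH S (f ▷ z)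
    simp only [vH_im, vM_im, Bim.wR_im, Bim.im_comp]
    exact Bim.im_congr' (vmu_nl S f z) _ _ _ _
  μ_natural_right {x y} z f := by
    show Bim.wL (vO S z) (vH S f) ≫ vM S z y = vM S z x ≫ vH S (z ◁ f)
    simp only [vH_im, vM_im, Bim.wL_im, Bim.im_comp]
    exact Bim.im_congr' (vmu_nr S z f) _ _ _ _
  associativity x y z := by
    show Bim.wR (vM S x y) (vO S z) ≫ vM S (x ⊗ y) z ≫ vH S (α_ x y z).hom =
      (Bim.al _ _ _).hom ≫ Bim.wL (vO S x) (vM S y z) ≫ vM S x (y ⊗ z)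
    simp only [vH_im, vM_im, Bim.al_hom, Bim.wR_im, Bim.wL_im, Bim.im_comp]
    exact Bim.im_congr' (vmu_assoc S x y z) _ _ _ _
  left_unitality x := by
    show (Bim.la (vO S x)).hom = Bim.wR (vE S) (vO S x) ≫ vM S (𝟙_ C) x ≫ vH S (λ_ x).hom
    simp only [vH_im, vM_im, vE_im, Bim.la_hom, Bim.wR_im, Bim.im_comp]
    exact Bim.im_congr' (vmu_left S x).symm _ _ _ _
  right_unitality x := by
    show (Bim.ra (vO S x)).hom = Bim.wL (vO S x) (vE S) ≫ vM S x (𝟙_ C) ≫ vH S (ρ_ x).hom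
    simp only [vH_im, vM_im, vE_im, Bim.ra_hom, Bim.wL_im, Bim.im_comp]
    exact Bim.im_congr' (vmu_right S x).symm _ _ _ _

instance VF_oplax (S : SFrob C) : (VF S).OplaxMonoidal where
  η := vT S
  δ := vD S
  δ_natural_left {x y} f z := by
    show vD S x z ≫ Bim.wR (vH S f) (vO S z) = vH S (f ▷ z) ≫ vD S y z
    simp only [vH_im, vD_im, Bim.wR_im, Bim.im_comp]
    exact Bim.im_congr' (vde_nl S f z) _ _ _ _
  δ_natural_right {x y} z f := by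
    show vD S z x ≫ Bim.wL (vO S z) (vH S f) = vH S (z ◁ f) ≫ vD S z y
    simp only [vH_im, vD_im, Bim.wL_im, Bim.im_comp]
    exact Bim.im_congr' (vde_nr S z f) _ _ _ _
  oplax_associativity x y z := by
    show vD S (x ⊗ y) z ≫ Bim.wR (vD S x y) (vO S z) ≫ (Bim.al _ _ _).hom =
      vH S (α_ x y z).hom ≫ vD S x (y ⊗ z) ≫ Bim.wL (vO S x) (vD S y z)
    simp only [vH_im, vD_im, Bim.al_hom, Bim.wR_im, Bim.wL_im, Bim.im_comp]
    exact Bim.im_congr' (vde_coassoc S x y z) _ _ _ _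
  oplax_left_unitality x := by
    show (Bim.la (vO S x)).inv = vH S (λ_ x).inv ≫ vD S (𝟙_ C) x ≫ Bim.wR (vT S) (vO S x)
    simp only [vH_im, vD_im, vT_im, Bim.la_inv, Bim.wR_im, Bim.im_comp]
    exact Bim.im_congr' (vde_left S x).symm _ _ _ _
  oplax_right_unitality x := by
    show (Bim.ra (vO S x)).inv = vH S (ρ_ x).inv ≫ vD S x (𝟙_ C) ≫ Bim.wL (vO S x) (vT S)
    simp only [vH_im, vD_im, vT_im, Bim.ra_inv, Bim.wL_im, Bim.im_comp]
    exact Bim.im_congr' (vde_right S x).symm _ _ _ _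

open Functor.LaxMonoidal Functor.OplaxMonoidal

theorem VF_μ (S : SFrob C) (x y : C) : μ (VF S) x y = vM S x y := rfl
theorem VF_δ (S : SFrob C) (x y : C) : δ (VF S) x y = vD S x y := rfl
theorem VF_ε (S : SFrob C) : ε (VF S) = vE S := rfl
theorem VF_η (S : SFrob C) : η (VF S) = vT S := rfl

theorem VF_frob1 (S : SFrob C) (x y z : C) : δ (VF S) x y ▷ (VF S).obj z ≫ (α_ _ _ _).hom ≫
    (VF S).obj x ◁ μ (VF S) y z = μ (VF S) (x ⊗ y) z ≫ (VF S).map (α_ x y z).hom ≫ δ (VF S) x (y ⊗ z) := by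
  show Bim.wR (vD S x y) (vO S z) ≫ (Bim.al _ _ _).hom ≫ Bim.wL (vO S x) (vM S y z) =
    vM S (x ⊗ y) z ≫ vH S (α_ x y z).hom ≫ vD S x (y ⊗ z)
  simp only [vH_im, vM_im, vD_im, Bim.al_hom, Bim.wR_im, Bim.wL_im, Bim.im_comp]
  exact Bim.im_congr' (vfrob1 S x y z) _ _ _ _

theorem VF_frob2 (S : SFrob C) (x y z : C) : (VF S).obj x ◁ δ (VF S) y z ≫ (α_ _ _ _).inv ≫
    μ (VF S) x y ▷ (VF S).obj z = μ (VF S) x (y ⊗ z) ≫ (VF S).map (α_ x y z).inv ≫ δ (VF S) (x ⊗ y) z := by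
  show Bim.wL (vO S x) (vD S y z) ≫ (Bim.al _ _ _).inv ≫ Bim.wR (vM S x y) (vO S z) =
    vM S x (y ⊗ z) ≫ vH S (α_ x y z).inv ≫ vD S (x ⊗ y) z
  simp only [vH_im, vM_im, vD_im, Bim.al_inv, Bim.wR_im, Bim.wL_im, Bim.im_comp]
  exact Bim.im_congr' (vfrob2 S x y z) _ _ _ _

theorem VF_sep (S : SFrob C) : ε (VF S) ≫ η (VF S) = 𝟙 (𝟙_ (Bim S)) := by
  apply Bim.hom_ext
  show vep S ≫ vet S = (Bim.unt S).p
  rw [vep_vet, Bim.unt_p]

end Pool.Agent.SFC
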