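import Pool.Agent.SFC.AGb
import Pool.Agent.SFC.AVd

/-!
# SFC/AGc: fields of `GalFG` for the functor `V`: `avg`, `VV`, `card`, linearity
-/

set_option autoImplicit false
set_option linter.unusedSimpArgs false

noncomputable section

open CategoryTheory MonoidalCategory

namespace Pool.Agent.SFC

universe v u w

section

variable {C : Type u} [Category.{v} C] [MonoidalCategory C]

open Functor.LaxMonoidal Functor.OplaxMonoidal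

/-- `cR ≫ T ▷ V 1 ≫ aR`, on underlying objects -/
theorem rav_hom (S : SFrob C) {x y : C} (T : vO S x ⟶ vO S y) :
    Bim.Hom.f (cR (VF S) x ≫ T ▷ (VF S).obj (𝟙_ C) ≫ aR (VF S) y) = rav S (Bim.Hom.f T) := by
  obtain ⟨t, hl, hr, rfl⟩ := Bim.exists_im T
  show Bim.Hom.f ((vH S (ρ_ x).inv ≫ vD S x (𝟙_ C)) ≫ Bim.wR (Bim.im t hl hr) (vO S (𝟙_ C)) ≫ vM S y (𝟙_ C) ≫
    vH S (ρ_ y).hom) = _
  simp only [vH_im, vD_im, vM_im, Bim.wR_im, Bim.im_comp, Bim.im_f, vO_p, rav]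
  simp

/-- `cL ≫ V 1 ◁ T ≫ aL`, on underlying objects -/
theorem lav_hom (S : SFrob C) {x y : C} (T : vO S x ⟶ vO S y) :
    Bim.Hom.f (cL (VF S) x ≫ (VF S).obj (𝟙_ C) ◁ T ≫ aL (VF S) y) = lav S (Bim.Hom.f T) := by
  obtain ⟨t, hl, hr, rfl⟩ := Bim.exists_im T
  show Bim.Hom.f ((vH S (λ_ x).inv ≫ vD S (𝟙_ C) x) ≫ Bim.wL (vO S (𝟙_ C)) (Bim.im t hl hr) ≫ vM S (𝟙_ C) y ≫
    vH S (λ_ y).hom) = _
  simp only [vH_im, vD_im, vM_im, Bim.wL_im, Bim.im_comp, Bim.im_f, vO_p, lav]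
  simp

theorem VF_avg (S : SFrob C) {x y : C} (T : vO S x ⟶ vO S y) : av (VF S) T = vH S (avf S (Bim.Hom.f T)) := by
  apply Bim.hom_ext
  have h1 := rav_hom S T
  have h2 := lav_hom S (cR (VF S) x ≫ T ▷ (VF S).obj (𝟙_ C) ≫ aR (VF S) y)
  have h3 : Bim.Hom.f (av (VF S) T) = lav S (rav S (Bim.Hom.f T)) := h2.trans (congrArg (lav S) h1)
  rw [h3, vH_f]
  refine lav_rav S T.hr ?_
  rw [← h1]
  exact (cR (VF S) x ≫ T ▷ (VF S).obj (𝟙_ C) ≫ aR (VF S) y : vO S x ⟶ vO S y).hl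

/-- `V (x ⊗ (A ⊗ y)) ≅ (A ⊗ x) ⊗ (A ⊗ (y ⊗ A))` -/
def gm' (S : SFrob C) (x y : C) : S.A ⊗ ((x ⊗ (S.A ⊗ y)) ⊗ S.A) ≅ (S.A ⊗ x) ⊗ (S.A ⊗ (y ⊗ S.A)) :=
  gm S x (S.A ⊗ y) ≪≫ whiskerLeftIso (S.A ⊗ x) (α_ S.A y S.A)

/-- `V x ⊗ V y ⟶ V (x ⊗ (A ⊗ y))` -/
def vva (S : SFrob C) (x y : C) : (S.A ⊗ (x ⊗ S.A)) ⊗ (S.A ⊗ (y ⊗ S.A)) ⟶ S.A ⊗ ((x ⊗ (S.A ⊗ y)) ⊗ S.A) :=
  (bt S x y).hom ≫ (S.A ⊗ x) ◁ (S.mul ▷ (y ⊗ S.A)) ≫ (gm' S x y).inv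

/-- `V (x ⊗ (A ⊗ y)) ⟶ V x ⊗ V y` -/
def vvb (S : SFrob C) (x y : C) : S.A ⊗ ((x ⊗ (S.A ⊗ y)) ⊗ S.A) ⟶ (S.A ⊗ (x ⊗ S.A)) ⊗ (S.A ⊗ (y ⊗ S.A)) :=
  (gm' S x y).hom ≫ (S.A ⊗ x) ◁ (S.cm ▷ (y ⊗ S.A)) ≫ (bt S x y).inv

theorem vva_vvb (S : SFrob C) (x y : C) : vva S x y ≫ vvb S x y = Bim.e (vO S x) (vO S y) := by
  rw [e_vO, vva, vvb]
  simp only [Category.assoc, Iso.inv_hom_id_assoc]
  rw [← MonoidalCategory.whiskerLeft_comp_assoc, ← comp_whiskerRight]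

theorem vvb_vva (S : SFrob C) (x y : C) : vvb S x y ≫ vva S x y = 𝟙 _ := by
  rw [vva, vvb]
  simp only [Category.assoc, Iso.inv_hom_id_assoc]
  rw [← MonoidalCategory.whiskerLeft_comp_assoc, ← comp_whiskerRight, S.sep]
  simp

theorem vva_l (S : SFrob C) (x y : C) :
    S.A ◁ vva S x y ≫ (vO S (x ⊗ (S.A ⊗ y))).l = Bim.lt (vO S x) (vO S y) ≫ vva S x y := by
  show S.A ◁ vva S x y ≫ (α_ S.A S.A ((x ⊗ (S.A ⊗ y)) ⊗ S.A)).inv ≫ S.mul ▷ ((x ⊗ (S.A ⊗ y)) ⊗ S.A) =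
    ((α_ S.A (S.A ⊗ (x ⊗ S.A)) (S.A ⊗ (y ⊗ S.A))).inv ≫ ((α_ S.A S.A (x ⊗ S.A)).inv ≫ S.mul ▷ (x ⊗ S.A)) ▷
      (S.A ⊗ (y ⊗ S.A))) ≫ vva S x y
  have h := whisker_exchange (S.mul ▷ x) (S.mul ▷ (y ⊗ S.A))
  simp only [vva, bt, gm', gm, Iso.trans_hom, Iso.trans_inv, whiskerRightIso_hom, whiskerRightIso_inv,
    whiskerLeftIso_hom, whiskerLeftIso_inv, Iso.symm_hom, Iso.symm_inv]
  calc _ = 𝟙 _ ⊗≫ (((S.A ⊗ S.A) ⊗ x) ◁ (S.mul ▷ (y ⊗ S.A)) ≫ (S.mul ▷ x) ▷ (S.A ⊗ (y ⊗ S.A))) ⊗≫ 𝟙 _ := by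
        monoidal
    _ = _ := by rw [h]; monoidal

theorem vva_r (S : SFrob C) (x y : C) :
    vva S x y ▷ S.A ≫ (vO S (x ⊗ (S.A ⊗ y))).r = Bim.rt (vO S x) (vO S y) ≫ vva S x y := by
  show vva S x y ▷ S.A ≫ (α_ S.A ((x ⊗ (S.A ⊗ y)) ⊗ S.A) S.A).hom ≫ S.A ◁ ((α_ (x ⊗ (S.A ⊗ y)) S.A S.A).hom ≫
      (x ⊗ (S.A ⊗ y)) ◁ S.mul) =
    ((α_ (S.A ⊗ (x ⊗ S.A)) (S.A ⊗ (y ⊗ S.A)) S.A).hom ≫ (S.A ⊗ (x ⊗ S.A)) ◁ ((α_ S.A (y ⊗ S.A) S.A).hom ≫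
      S.A ◁ ((α_ y S.A S.A).hom ≫ y ◁ S.mul))) ≫ vva S x y
  have h := whisker_exchange S.mul (y ◁ S.mul)
  simp only [vva, bt, gm', gm, Iso.trans_hom, Iso.trans_inv, whiskerRightIso_hom, whiskerRightIso_inv,
    whiskerLeftIso_hom, whiskerLeftIso_inv, Iso.symm_hom, Iso.symm_inv]
  calc _ = 𝟙 _ ⊗≫ (S.A ⊗ x) ◁ (S.mul ▷ (y ⊗ (S.A ⊗ S.A)) ≫ S.A ◁ (y ◁ S.mul)) ⊗≫ 𝟙 _ := by monoidal
    _ = _ := by rw [← h]; monoidal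

theorem vvb_l (S : SFrob C) (x y : C) :
    S.A ◁ vvb S x y ≫ Bim.lt (vO S x) (vO S y) = (vO S (x ⊗ (S.A ⊗ y))).l ≫ vvb S x y := by
  show S.A ◁ vvb S x y ≫ (α_ S.A (S.A ⊗ (x ⊗ S.A)) (S.A ⊗ (y ⊗ S.A))).inv ≫
      ((α_ S.A S.A (x ⊗ S.A)).inv ≫ S.mul ▷ (x ⊗ S.A)) ▷ (S.A ⊗ (y ⊗ S.A)) =
    ((α_ S.A S.A ((x ⊗ (S.A ⊗ y)) ⊗ S.A)).inv ≫ S.mul ▷ ((x ⊗ (S.A ⊗ y)) ⊗ S.A)) ≫ vvb S x y
  have h := whisker_exchange (S.mul ▷ x) (S.cm ▷ (y ⊗ S.A))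
  simp only [vvb, bt, gm', gm, Iso.trans_hom, Iso.trans_inv, whiskerRightIso_hom, whiskerRightIso_inv,
    whiskerLeftIso_hom, whiskerLeftIso_inv, Iso.symm_hom, Iso.symm_inv]
  calc _ = 𝟙 _ ⊗≫ (((S.A ⊗ S.A) ⊗ x) ◁ (S.cm ▷ (y ⊗ S.A)) ≫ (S.mul ▷ x) ▷ ((S.A ⊗ S.A) ⊗ (y ⊗ S.A))) ⊗≫ 𝟙 _ := by
        monoidal
    _ = _ := by rw [h]; monoidal

theorem vvb_r (S : SFrob C) (x y : C) :
    vvb S x y ▷ S.A ≫ Bim.rt (vO S x) (vO S y) = (vO S (x ⊗ (S.A ⊗ y))).r ≫ vvb S x y := by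
  show vvb S x y ▷ S.A ≫ (α_ (S.A ⊗ (x ⊗ S.A)) (S.A ⊗ (y ⊗ S.A)) S.A).hom ≫ (S.A ⊗ (x ⊗ S.A)) ◁
      ((α_ S.A (y ⊗ S.A) S.A).hom ≫ S.A ◁ ((α_ y S.A S.A).hom ≫ y ◁ S.mul)) =
    ((α_ S.A ((x ⊗ (S.A ⊗ y)) ⊗ S.A) S.A).hom ≫ S.A ◁ ((α_ (x ⊗ (S.A ⊗ y)) S.A S.A).hom ≫
      (x ⊗ (S.A ⊗ y)) ◁ S.mul)) ≫ vvb S x y
  have h := whisker_exchange S.cm (y ◁ S.mul)
  simp only [vvb, bt, gm', gm, Iso.trans_hom, Iso.trans_inv, whiskerRightIso_hom, whiskerRightIso_inv,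
    whiskerLeftIso_hom, whiskerLeftIso_inv, Iso.symm_hom, Iso.symm_inv]
  calc _ = 𝟙 _ ⊗≫ (S.A ⊗ x) ◁ (S.cm ▷ (y ⊗ (S.A ⊗ S.A)) ≫ (S.A ⊗ S.A) ◁ (y ◁ S.mul)) ⊗≫ 𝟙 _ := by monoidal
    _ = _ := by rw [← h]; monoidal

theorem e_vva (S : SFrob C) (x y : C) : Bim.e (vO S x) (vO S y) ≫ vva S x y = vva S x y := by
  rw [← vva_vvb, Category.assoc, vvb_vva, Category.comp_id]

theorem vvb_e (S : SFrob C) (x y : C) : vvb S x y ≫ Bim.e (vO S x) (vO S y) = vvb S x y := by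
  rw [← vva_vvb, ← Category.assoc, vvb_vva, Category.id_comp]

/-- `V x ⊗ V y ≅ V (x ⊗ (A ⊗ y))` -/
def VFVV (S : SFrob C) (x y : C) : Bim.ten (vO S x) (vO S y) ≅ vO S (x ⊗ (S.A ⊗ y)) where
  hom := Bim.homOut (vva S x y) (e_vva S x y) (vva_l S x y) (vva_r S x y) (by rw [vO_p]; exact Category.comp_id _)
  inv := Bim.homIn (vvb S x y) (vvb_e S x y) (vvb_l S x y) (vvb_r S x y)
  hom_inv_id := by
    apply Bim.hom_ext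
    rw [Bim.comp_f, Bim.homOut_f, Bim.homIn_f, Bim.id_f, Bim.ten_p, vva_vvb]
  inv_hom_id := by
    apply Bim.hom_ext
    rw [Bim.comp_f, Bim.homOut_f, Bim.homIn_f, Bim.id_f, vO_p, vvb_vva]

end

section

variable {K : Type w} [Field K] {C : Type u} [Category.{v} C] [Preadditive C] [Linear K C] [MonoidalCategory C]
  [MonoidalPreadditive C] [MonoidalLinear K C]

open Functor.LaxMonoidal Functor.OplaxMonoidal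

theorem VF_add (S : SFrob C) {x y : C} (f g : x ⟶ y) : (VF S).map (f + g) = (VF S).map f + (VF S).map g := by
  apply Bim.hom_ext
  show S.A ◁ (f + g) ▷ S.A = S.A ◁ f ▷ S.A + S.A ◁ g ▷ S.A
  rw [MonoidalPreadditive.add_whiskerRight, MonoidalPreadditive.whiskerLeft_add]

theorem VF_smul (S : SFrob C) {x y : C} (c : K) (f : x ⟶ y) : (VF S).map (c • f) = c • (VF S).map f := by
  apply Bim.hom_ext
  show S.A ◁ (c • f) ▷ S.A = c • (S.A ◁ f ▷ S.A)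
  rw [MonoidalLinear.smul_whiskerRight, MonoidalLinear.whiskerLeft_smul]

theorem VF_card (S : SFrob C) {c : K} (h : S.one ≫ S.cn = c • 𝟙 (𝟙_ C)) (x y : C) :
    δ (VF S) x y ≫ μ (VF S) x y = c • 𝟙 ((VF S).obj (x ⊗ y)) := by
  apply Bim.hom_ext
  show vde S x y ≫ vmu S x y = c • (vO S (x ⊗ y)).p
  rw [vde_vmu, h, vO_p, MonoidalLinear.smul_whiskerRight, Linear.smul_comp, Linear.comp_smul,
    MonoidalLinear.whiskerLeft_smul, Linear.smul_comp, Linear.comp_smul]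
  congr 1
  simp

/-- `avf (V f) = c² f` if `one ≫ cn = c` -/
theorem avf_V (S : SFrob C) {c : K} (h : S.one ≫ S.cn = c • 𝟙 (𝟙_ C)) {x y : C} (f : x ⟶ y) :
    avf S (S.A ◁ f ▷ S.A) = (c * c) • f := by
  have h1 : avf S (S.A ◁ f ▷ S.A) = (λ_ x).inv ≫ (S.one ≫ S.cn) ▷ x ≫ (λ_ x).hom ≫ f ≫ (ρ_ y).inv ≫
      y ◁ (S.one ≫ S.cn) ≫ (ρ_ y).hom := by
    rw [avf]
    have a1 := whisker_exchange f S.one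
    have a2 := whisker_exchange S.one (f ≫ (ρ_ y).inv ≫ y ◁ S.one ≫ y ◁ S.cn ≫ (ρ_ y).hom)
    have a3 := whisker_exchange S.cn (f ≫ (ρ_ y).inv ≫ y ◁ S.one ≫ y ◁ S.cn ≫ (ρ_ y).hom)
    calc _ = 𝟙 _ ⊗≫ S.one ▷ x ≫ S.A ◁ ((ρ_ x).inv ≫ (x ◁ S.one ≫ f ▷ S.A) ≫ y ◁ S.cn ≫ (ρ_ y).hom) ≫ S.cn ▷ y ⊗≫
          𝟙 _ := by monoidal
      _ = 𝟙 _ ⊗≫ S.one ▷ x ≫ (S.A ◁ (f ≫ (ρ_ y).inv ≫ y ◁ S.one ≫ y ◁ S.cn ≫ (ρ_ y).hom) ≫ S.cn ▷ y) ⊗≫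
          𝟙 _ := by rw [a1]; monoidal
      _ = _ := by rw [a3]; monoidal
  rw [h1, h, MonoidalLinear.smul_whiskerRight, MonoidalLinear.whiskerLeft_smul]
  simp [smul_smul]

theorem VF_faithful (S : SFrob C) {c : K} (h : S.one ≫ S.cn = c • 𝟙 (𝟙_ C)) (hc : c ≠ 0) : (VF S).Faithful where
  map_injective {x y} f g hfg := by
    have h1 : S.A ◁ f ▷ S.A = S.A ◁ g ▷ S.A := congrArg Bim.Hom.f hfg
    have h2 := avf_V S h f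
    rw [h1, avf_V S h g] at h2
    exact (smul_right_injective _ (mul_ne_zero hc hc) h2).symm

theorem bim_end1 (S : SFrob C) (hc : ∀ t : 𝟙_ C ⟶ S.A, ∃ c : K, t = c • S.one) (f : Bim.unt S ⟶ Bim.unt S) :
    ∃ c : K, f = c • 𝟙 (Bim.unt S) := by
  obtain ⟨c, h⟩ := hc (S.one ≫ Bim.Hom.f f)
  refine ⟨c, Bim.hom_ext ?_⟩
  have h1 : S.A ◁ Bim.Hom.f f ≫ S.mul = S.mul ≫ Bim.Hom.f f := f.hl
  have h2 : Bim.Hom.f f = (ρ_ S.A).inv ≫ S.A ◁ (S.one ≫ Bim.Hom.f f) ≫ S.mul := by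
    rw [MonoidalCategory.whiskerLeft_comp, Category.assoc, h1, ← Category.assoc (S.A ◁ S.one), S.mul_one,
      Iso.inv_hom_id_assoc]
  rw [Bim.smul_f, Bim.id_f, Bim.unt_p, h2, h, MonoidalLinear.whiskerLeft_smul, Linear.smul_comp, S.mul_one,
    Linear.comp_smul, Iso.inv_hom_id]

/-- `Hom (V x, V y) = Hom (x, A ⊗ (y ⊗ A))` -/
def VFHH (S : SFrob C) (x y : C) : (vO S x ⟶ vO S y) ≃ₗ[K] (x ⟶ S.A ⊗ (y ⊗ S.A)) where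
  toFun T := ux S x ≫ Bim.Hom.f T
  map_add' T T' := by
    rw [Bim.add_f, Preadditive.comp_add]
  map_smul' c T := by
    rw [Bim.smul_f, Linear.comp_smul]
    rfl
  invFun g := hv (vO S y) g
  left_inv T := by
    apply Bim.hom_ext
    rw [hv_f]
    exact (hom_ux T).symm
  right_inv g := by
    refine (ux_act (vO S y) g).trans ?_
    rw [vO_p]
    exact Category.comp_id _

end

end Pool.Agent.SFC
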