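import Pool.Agent.SFC.ALin

/-!
# SFC/AIdm: idempotents split in `Bim S`, finite biproducts

`idem`: the image of an idempotent `e` is `⟨M.X, M.l ≫ e.f, M.r ≫ e.f, ..⟩`, both maps of the splitting have
underlying morphism `e.f`.
`bip`: the object `⨁ fun i => (f i).X` of `C` with the componentwise actions; projections `π i ≫ (f i).p`,
injections `(f i).p ≫ ι i`.
-/

set_option autoImplicit false

noncomputable section

open CategoryTheory MonoidalCategory

namespace Pool.Agent.SFC

universe v u w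

variable {C : Type u} [Category.{v} C] [Preadditive C] [MonoidalCategory C] [MonoidalPreadditive C] {S : SFrob C}

/-- the image of an idempotent -/
private def AIdm_im (M : Bim S) (e : M ⟶ M) (he : Bim.Hom.f e ≫ Bim.Hom.f e = Bim.Hom.f e) : Bim S where
  X := M.X
  l := M.l ≫ Bim.Hom.f e
  r := M.r ≫ Bim.Hom.f e
  ll := by
    have h1 := e.hl
    rw [MonoidalCategory.whiskerLeft_comp, Category.assoc, reassoc_of% h1, he, ← Category.assoc, M.ll]
    simp only [Category.assoc]
  rr := by
    have h1 := e.hr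
    rw [MonoidalCategory.comp_whiskerRight, Category.assoc, reassoc_of% h1, he, ← Category.assoc, M.rr]
    simp only [Category.assoc]
  lr := by
    have h1 := e.hr
    have h2 := e.hl
    have h3 := M.lr
    rw [MonoidalCategory.comp_whiskerRight, MonoidalCategory.whiskerLeft_comp, Category.assoc, Category.assoc,
      reassoc_of% h1, he, reassoc_of% h2, he, reassoc_of% h3]
  uu := by
    have h := M.uu
    rw [reassoc_of% h]

private theorem AIdm_im_p (M : Bim S) (e : M ⟶ M) (he : Bim.Hom.f e ≫ Bim.Hom.f e = Bim.Hom.f e) :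
    (AIdm_im M e he).p = Bim.Hom.f e := by
  have h : (AIdm_im M e he).p = M.p ≫ Bim.Hom.f e := by
    show (λ_ M.X).inv ≫ S.one ▷ M.X ≫ M.l ≫ Bim.Hom.f e = M.p ≫ Bim.Hom.f e
    rw [Bim.p]
    simp only [Category.assoc]
  rw [h]
  exact Bim.Hom.ph e

private def AIdm_inc (M : Bim S) (e : M ⟶ M) (he : Bim.Hom.f e ≫ Bim.Hom.f e = Bim.Hom.f e) :
    AIdm_im M e he ⟶ M where
  f := Bim.Hom.f (M := M) (N := M) e
  hl := by
    show S.A ◁ Bim.Hom.f e ≫ M.l = (M.l ≫ Bim.Hom.f e) ≫ Bim.Hom.f e
    rw [Category.assoc, he, e.hl]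
  hr := by
    show Bim.Hom.f e ▷ S.A ≫ M.r = (M.r ≫ Bim.Hom.f e) ≫ Bim.Hom.f e
    rw [Category.assoc, he, e.hr]
  hp := e.hp

private def AIdm_prj (M : Bim S) (e : M ⟶ M) (he : Bim.Hom.f e ≫ Bim.Hom.f e = Bim.Hom.f e) :
    M ⟶ AIdm_im M e he where
  f := Bim.Hom.f (M := M) (N := M) e
  hl := by
    show S.A ◁ Bim.Hom.f e ≫ M.l ≫ Bim.Hom.f e = M.l ≫ Bim.Hom.f e
    have h1 := e.hl
    rw [reassoc_of% h1, he]
  hr := by
    show Bim.Hom.f e ▷ S.A ≫ M.r ≫ Bim.Hom.f e = M.r ≫ Bim.Hom.f e
    have h1 := e.hr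
    rw [reassoc_of% h1, he]
  hp := by
    rw [AIdm_im_p]
    exact he

instance Bim.idem : IsIdempotentComplete (Bim S) := by
  refine ⟨fun M e he => ?_⟩
  have he' : Bim.Hom.f e ≫ Bim.Hom.f e = Bim.Hom.f e := congrArg Bim.Hom.f he
  refine ⟨AIdm_im M e he', AIdm_inc M e he', AIdm_prj M e he', ?_, ?_⟩
  · apply Bim.hom_ext
    rw [Bim.comp_f, Bim.id_f, AIdm_im_p]
    exact he'
  · exact Bim.hom_ext he'

private theorem AIdm_pl (M : Bim S) : S.A ◁ M.p ≫ M.l = M.l := by
  have h := Bim.Hom.hl (𝟙 M : M ⟶ M)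
  rw [Bim.id_f, M.p_l] at h
  exact h

private theorem AIdm_pr (M : Bim S) : M.p ▷ S.A ≫ M.r = M.r := by
  have h := Bim.Hom.hr (𝟙 M : M ⟶ M)
  rw [Bim.id_f, M.p_r'] at h
  exact h

private def AIdm_fh (M N : Bim S) : (M ⟶ N) →+ (M.X ⟶ N.X) where
  toFun f := Bim.Hom.f f
  map_zero' := rfl
  map_add' _ _ := rfl

private theorem AIdm_f_sum {n : ℕ} {M N : Bim S} (G : Fin n → (M ⟶ N)) :
    AIdm_fh M N (∑ i, G i) = ∑ i, Bim.Hom.f (G i) :=
  map_sum (AIdm_fh M N) _ _

/-- a bimodule with the maps of a direct sum -/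
private structure AIdm_S {n : ℕ} (F : Fin n → Bim S) (M : Bim S) where
  pi : ∀ i, M.X ⟶ (F i).X
  io : ∀ i, (F i).X ⟶ M.X
  hl : ∀ i, M.l ≫ pi i = S.A ◁ pi i ≫ (F i).l
  hr : ∀ i, M.r ≫ pi i = pi i ▷ S.A ≫ (F i).r
  self : ∀ i, io i ≫ pi i = 𝟙 _
  ne : ∀ i j, i ≠ j → io i ≫ pi j = 0
  ext : ∀ {Y : C} (g h : Y ⟶ M.X), (∀ i, g ≫ pi i = h ≫ pi i) → g = h

section

variable {n : ℕ} {F : Fin n → Bim S} {M : Bim S} (D : AIdm_S F M)

private theorem AIdm_S.p (i : Fin n) : M.p ≫ D.pi i = D.pi i ≫ (F i).p := by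
  have e1 : S.one ▷ M.X ≫ S.A ◁ D.pi i = 𝟙_ C ◁ D.pi i ≫ S.one ▷ (F i).X := (whisker_exchange _ _).symm
  rw [Bim.p, Bim.p, Category.assoc, Category.assoc, D.hl, reassoc_of% e1, leftUnitor_inv_naturality_assoc]

private theorem AIdm_S.ιπ (i j : Fin n) :
    (F i).p ≫ D.io i ≫ D.pi j ≫ (F j).p = (F i).p ≫ D.io i ≫ D.pi j := by
  by_cases h : i = j
  · subst h
    have h1 := D.self i
    rw [h1, reassoc_of% h1, (F i).pp, Category.comp_id]
  · have h1 := D.ne i j h
    rw [h1, reassoc_of% h1, Limits.zero_comp]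

private def AIdm_S.π (i : Fin n) : M ⟶ F i where
  f := D.pi i ≫ (F i).p
  hl := by
    have h := D.hl i
    rw [MonoidalCategory.whiskerLeft_comp, Category.assoc, AIdm_pl, reassoc_of% h, (F i).p_l]
  hr := by
    have h := D.hr i
    rw [MonoidalCategory.comp_whiskerRight, Category.assoc, AIdm_pr, reassoc_of% h, (F i).p_r']
  hp := by
    rw [Category.assoc, (F i).pp]

private def AIdm_S.ι (i : Fin n) : F i ⟶ M where
  f := (F i).p ≫ D.io i
  hl := by
    apply D.ext
    intro j
    rw [Category.assoc, D.hl, Category.assoc, Category.assoc, ← MonoidalCategory.whiskerLeft_comp_assoc,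
      Category.assoc]
    by_cases h : i = j
    · subst h
      rw [D.self, Category.comp_id, AIdm_pl, (F i).p_l]
    · rw [D.ne i j h, Limits.comp_zero, MonoidalPreadditive.whiskerLeft_zero, Limits.zero_comp,
        Limits.comp_zero]
  hr := by
    apply D.ext
    intro j
    rw [Category.assoc, D.hr, Category.assoc, Category.assoc, ← MonoidalCategory.comp_whiskerRight_assoc,
      Category.assoc]
    by_cases h : i = j
    · subst h
      rw [D.self, Category.comp_id, AIdm_pr, (F i).p_r']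
    · rw [D.ne i j h, Limits.comp_zero, MonoidalPreadditive.zero_whiskerRight, Limits.zero_comp,
        Limits.comp_zero]
  hp := by
    apply D.ext
    intro j
    rw [Category.assoc, Category.assoc, D.p, Category.assoc]
    exact D.ιπ i j

include D in
private theorem AIdm_S.has : Limits.HasBiproduct F := by
  refine Limits.hasBiproduct_of_total
    ({ pt := M
       π := D.π
       ι := D.ι
       ι_π := ?_ } : Limits.Bicone F) ?_
  · intro i j
    apply Bim.hom_ext
    have h0 : Bim.Hom.f (D.ι i ≫ D.π j) = (F i).p ≫ D.io i ≫ D.pi j := by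
      rw [Bim.comp_f]
      show ((F i).p ≫ D.io i) ≫ D.pi j ≫ (F j).p = _
      rw [Category.assoc, D.ιπ]
    rw [h0]
    by_cases h : i = j
    · subst h
      rw [dif_pos rfl, eqToHom_refl, Bim.id_f, D.self, Category.comp_id]
    · rw [dif_neg h, D.ne i j h, Limits.comp_zero, Bim.zero_f]
  · apply Bim.hom_ext
    refine (AIdm_f_sum (fun i => D.π i ≫ D.ι i)).trans ?_
    rw [Bim.id_f]
    apply D.ext
    intro j
    rw [D.p, Preadditive.sum_comp, Finset.sum_eq_single j]
    · rw [Bim.comp_f]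
      show ((D.pi j ≫ (F j).p) ≫ (F j).p ≫ D.io j) ≫ D.pi j = _
      have h1 := (F j).pp
      rw [Category.assoc, Category.assoc, Category.assoc, D.self, Category.comp_id, h1]
    · intro i _ h
      rw [Bim.comp_f]
      show ((D.pi i ≫ (F i).p) ≫ (F i).p ≫ D.io i) ≫ D.pi j = _
      rw [Category.assoc, Category.assoc, Category.assoc, D.ne i j h]
      simp only [Limits.comp_zero]
    · intro h
      exact absurd (Finset.mem_univ _) h

end

section

open Limits

variable [HasFiniteBiproducts C] {n : ℕ} (F : Fin n → Bim S)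

/-- the direct sum -/
private def AIdm_sum : Bim S where
  X := ⨁ fun i => (F i).X
  l := biproduct.lift fun i => S.A ◁ biproduct.π (fun i => (F i).X) i ≫ (F i).l
  r := biproduct.lift fun i => biproduct.π (fun i => (F i).X) i ▷ S.A ≫ (F i).r
  ll := by
    apply biproduct.hom_ext
    intro i
    simp only [Category.assoc, biproduct.lift_π]
    rw [← whisker_exchange_assoc, (F i).ll, ← MonoidalCategory.whiskerLeft_comp_assoc, biproduct.lift_π,
      MonoidalCategory.whiskerLeft_comp, Category.assoc, tensor_whiskerLeft]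
    simp only [Category.assoc, Iso.inv_hom_id_assoc]
  rr := by
    apply biproduct.hom_ext
    intro i
    simp only [Category.assoc, biproduct.lift_π]
    rw [whisker_exchange_assoc, (F i).rr, ← MonoidalCategory.comp_whiskerRight_assoc, biproduct.lift_π,
      MonoidalCategory.comp_whiskerRight, Category.assoc, whiskerRight_tensor]
    simp only [Category.assoc, Iso.hom_inv_id_assoc]
  lr := by
    apply biproduct.hom_ext
    intro i
    simp only [Category.assoc, biproduct.lift_π]
    rw [← MonoidalCategory.comp_whiskerRight_assoc, biproduct.lift_π, ← MonoidalCategory.whiskerLeft_comp_assoc,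
      biproduct.lift_π, MonoidalCategory.comp_whiskerRight, MonoidalCategory.whiskerLeft_comp, Category.assoc,
      Category.assoc, (F i).lr]
    simp
  uu := by
    apply biproduct.hom_ext
    intro i
    simp only [Category.assoc, biproduct.lift_π]
    have e1 : S.one ▷ (⨁ fun i => (F i).X) ≫ S.A ◁ biproduct.π (fun i => (F i).X) i =
      𝟙_ C ◁ biproduct.π (fun i => (F i).X) i ≫ S.one ▷ (F i).X := (whisker_exchange _ _).symm
    have e2 : (⨁ fun i => (F i).X) ◁ S.one ≫ biproduct.π (fun i => (F i).X) i ▷ S.A =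
      biproduct.π (fun i => (F i).X) i ▷ 𝟙_ C ≫ (F i).X ◁ S.one := whisker_exchange _ _
    rw [reassoc_of% e1, reassoc_of% e2, ← leftUnitor_inv_naturality_assoc,
      ← rightUnitor_inv_naturality_assoc, (F i).uu]

private def AIdm_dat : AIdm_S F (AIdm_sum F) where
  pi i := biproduct.π (fun i => (F i).X) i
  io i := biproduct.ι (fun i => (F i).X) i
  hl _ := biproduct.lift_π _ _
  hr _ := biproduct.lift_π _ _
  self _ := biproduct.ι_π_self _ _
  ne _ _ h := biproduct.ι_π_ne _ h
  ext _ _ H := biproduct.hom_ext _ _ H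

end

instance Bim.bip [Limits.HasFiniteBiproducts C] : Limits.HasFiniteBiproducts (Bim S) := by
  refine ⟨fun n => ⟨fun F => (AIdm_dat F).has⟩⟩

end Pool.Agent.SFC
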