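import Pool.Agent.SFC.AMon
import Pool.Agent.SFC.ALin

/-! # SFC/AMop: the monoidal category of bimodules is linear -/

set_option autoImplicit false

noncomputable section

open CategoryTheory MonoidalCategory

namespace Pool.Agent.SFC

universe v u w

section

variable {C : Type u} [Category.{v} C] [Preadditive C] [MonoidalCategory C] [MonoidalPreadditive C]

namespace Bim

instance monp (S : SFrob C) : MonoidalPreadditive (Bim S) where
  whiskerLeft_zero {M N P} := by
    apply hom_ext
    show e M N ≫ M.X ◁ (0 : N.X ⟶ P.X) = 0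
    simp
  zero_whiskerRight {M N P} := by
    apply hom_ext
    show e N M ≫ (0 : N.X ⟶ P.X) ▷ M.X = 0
    simp
  whiskerLeft_add {M N P} f g := by
    apply hom_ext
    show e M N ≫ M.X ◁ (Hom.f f + Hom.f g) = e M N ≫ M.X ◁ Hom.f f + e M N ≫ M.X ◁ Hom.f g
    rw [MonoidalPreadditive.whiskerLeft_add, Preadditive.comp_add]
  add_whiskerRight {M N P} f g := by
    apply hom_ext
    show e N M ≫ (Hom.f f + Hom.f g) ▷ M.X = e N M ≫ Hom.f f ▷ M.X + e N M ≫ Hom.f g ▷ M.X
    rw [MonoidalPreadditive.add_whiskerRight, Preadditive.comp_add]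

end Bim

end

section

variable {K : Type w} [Field K] {C : Type u} [Category.{v} C] [Preadditive C] [Linear K C] [MonoidalCategory C]
  [MonoidalPreadditive C] [MonoidalLinear K C]

namespace Bim

instance monl (S : SFrob C) : MonoidalLinear K (Bim S) where
  whiskerLeft_smul M {N P} r f := by
    apply hom_ext
    show e M N ≫ M.X ◁ (r • Hom.f f) = r • (e M N ≫ M.X ◁ Hom.f f)
    rw [MonoidalLinear.whiskerLeft_smul, Linear.comp_smul]
  smul_whiskerRight r {N P} f M := by
    apply hom_ext
    show e N M ≫ (r • Hom.f f) ▷ M.X = r • (e N M ≫ Hom.f f ▷ M.X)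
    rw [MonoidalLinear.smul_whiskerRight, Linear.comp_smul]

end Bim

end

end Pool.Agent.SFC
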