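import Pool.Agent.SFC.ALin

/-!
# SFC/AReg: `Bim S` is von Neumann regular if `C` is

For `g : M.X ⟶ M'.X` in `C` put `avL g = (λ_ M.X).inv ≫ (S.one ≫ S.cm) ▷ M.X ≫ (α_ _ _ _).hom ≫ S.A ◁ (M.l ≫ g) ≫ M'.l` (`x ↦ σ' g (σ'' x)`, `σ = one ≫ cm`) and
`avR g = (ρ_ M.X).inv ≫ M.X ◁ (S.one ≫ S.cm) ≫ (α_ _ _ _).inv ≫ (M.r ≫ g) ▷ S.A ≫ M'.r`.
`avL g` is left linear: `a σ' ⊗ σ'' = σ' ⊗ σ'' a` (`A ◁ (one ≫ cm) ≫ α⁻¹ ≫ mul ▷ A = (ρ).hom ≫ cm = .. = (one ≫ cm) ▷ A ≫ α ≫ A ◁ mul` up to unitors, from `frobL`, `frobR`, `mul_one`, `one_mul`).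
`avL` keeps right linearity (`lr`), `avR g` is right linear and `avR` keeps left linearity; both are absorbed by `p`.  For bimodule maps `f`, `f'`: `avL (f.f ≫ g) = f.f ≫ avL g`,
`avL (g ≫ f.f) = avL g ≫ f.f`, `avL f.f = f.f` (`sep`: `σ' σ'' = 1`, so `avL f.f = p ≫ f.f`).  Same for `avR`.
`bim_reg`: `f.f ≫ g ≫ f.f = f.f` in `C`; the bimodule map `g'` with `g'.f = avR (avL g)` (which satisfies `hp` because `M'.l ≫ p = M'.l`) has `f ≫ g' ≫ f = f`.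
-/

set_option autoImplicit false

noncomputable section

open CategoryTheory MonoidalCategory

namespace Pool.Agent.SFC

universe v u w

variable {C : Type u} [Category.{v} C] [MonoidalCategory C] {S : SFrob C}

private def AReg_D (M M' : Bim S) (g : M.X ⟶ M'.X) : S.A ⊗ M.X ⟶ M'.X :=
  S.cm ▷ M.X ≫ (α_ _ _ _).hom ≫ S.A ◁ (M.l ≫ g) ≫ M'.l

private def AReg_E (M M' : Bim S) (g : M.X ⟶ M'.X) : M.X ⊗ S.A ⟶ M'.X :=
  M.X ◁ S.cm ≫ (α_ _ _ _).inv ≫ (M.r ≫ g) ▷ S.A ≫ M'.r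

private def AReg_L (M M' : Bim S) (g : M.X ⟶ M'.X) : M.X ⟶ M'.X :=
  (λ_ M.X).inv ≫ S.one ▷ M.X ≫ AReg_D M M' g

private def AReg_R (M M' : Bim S) (g : M.X ⟶ M'.X) : M.X ⟶ M'.X :=
  (ρ_ M.X).inv ≫ M.X ◁ S.one ≫ AReg_E M M' g

private theorem AReg_cmR : S.cm = (λ_ S.A).inv ≫ (S.one ≫ S.cm) ▷ S.A ≫ (α_ _ _ _).hom ≫ S.A ◁ S.mul := by
  rw [comp_whiskerRight, Category.assoc, ← S.frobR, ← Category.assoc (S.one ▷ S.A), S.one_mul,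
    Iso.inv_hom_id_assoc]

private theorem AReg_cmL : S.cm = (ρ_ S.A).inv ≫ S.A ◁ (S.one ≫ S.cm) ≫ (α_ _ _ _).inv ≫ S.mul ▷ S.A := by
  rw [MonoidalCategory.whiskerLeft_comp, Category.assoc, ← S.frobL, ← Category.assoc (S.A ◁ S.one), S.mul_one,
    Iso.inv_hom_id_assoc]

private theorem AReg_ll (M : Bim S) : S.A ◁ M.l ≫ M.l = (α_ _ _ _).inv ≫ S.mul ▷ M.X ≫ M.l := by
  rw [M.ll]; simp

private theorem AReg_rr (M : Bim S) : M.r ▷ S.A ≫ M.r = (α_ _ _ _).hom ≫ M.X ◁ S.mul ≫ M.r := by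
  rw [M.rr]; simp

private theorem AReg_L1 (M M' : Bim S) (g : M.X ⟶ M'.X) : M.l ≫ AReg_L M M' g = AReg_D M M' g := by
  unfold AReg_L AReg_D
  rw [leftUnitor_inv_naturality_assoc, whisker_exchange_assoc, whisker_exchange_assoc]
  have h1 : (S.A ⊗ S.A) ◁ M.l ≫ (α_ _ _ _).hom ≫ S.A ◁ (M.l ≫ g) =
      (α_ _ _ _).hom ≫ S.A ◁ ((α_ _ _ _).inv ≫ S.mul ▷ M.X ≫ M.l ≫ g) := by
    rw [← reassoc_of% (AReg_ll M)]
    simp
  rw [reassoc_of% h1]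
  conv_rhs => rw [AReg_cmR]
  simp

private theorem AReg_L2 (M M' : Bim S) (g : M.X ⟶ M'.X) : S.A ◁ AReg_L M M' g ≫ M'.l = AReg_D M M' g := by
  have h1 := AReg_ll M'
  have h2 : S.A ◁ (S.A ◁ (M.l ≫ g)) ≫ (α_ S.A S.A M'.X).inv ≫ S.mul ▷ M'.X =
      (α_ _ _ _).inv ≫ S.mul ▷ (S.A ⊗ M.X) ≫ S.A ◁ (M.l ≫ g) := by
    rw [associator_inv_naturality_right_assoc, whisker_exchange]
  have h3 : S.A ◁ AReg_L M M' g ≫ M'.l = S.A ◁ ((λ_ M.X).inv ≫ S.one ▷ M.X ≫ S.cm ▷ M.X ≫ (α_ _ _ _).hom) ≫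
      (S.A ◁ (S.A ◁ (M.l ≫ g)) ≫ S.A ◁ M'.l ≫ M'.l) := by
    unfold AReg_L AReg_D
    simp
  rw [h3, h1, reassoc_of% h2]
  unfold AReg_D
  conv_rhs => rw [AReg_cmL]
  simp

private theorem AReg_R1 (M M' : Bim S) (g : M.X ⟶ M'.X) : M.r ≫ AReg_R M M' g = AReg_E M M' g := by
  unfold AReg_R AReg_E
  rw [rightUnitor_inv_naturality_assoc, ← whisker_exchange_assoc, ← whisker_exchange_assoc]
  have h1 : M.r ▷ (S.A ⊗ S.A) ≫ (α_ _ _ _).inv ≫ (M.r ≫ g) ▷ S.A =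
      (α_ _ _ _).inv ≫ ((α_ _ _ _).hom ≫ M.X ◁ S.mul ≫ M.r ≫ g) ▷ S.A := by
    rw [← reassoc_of% (AReg_rr M)]
    simp
  rw [reassoc_of% h1]
  conv_rhs => rw [AReg_cmL]
  simp

private theorem AReg_R2 (M M' : Bim S) (g : M.X ⟶ M'.X) : AReg_R M M' g ▷ S.A ≫ M'.r = AReg_E M M' g := by
  have h1 := AReg_rr M'
  have h2 : ((M.r ≫ g) ▷ S.A) ▷ S.A ≫ (α_ M'.X S.A S.A).hom ≫ M'.X ◁ S.mul =
      (α_ _ _ _).hom ≫ (M.X ⊗ S.A) ◁ S.mul ≫ (M.r ≫ g) ▷ S.A := by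
    rw [associator_naturality_left_assoc, ← whisker_exchange]
  have h3 : AReg_R M M' g ▷ S.A ≫ M'.r = ((ρ_ M.X).inv ≫ M.X ◁ S.one ≫ M.X ◁ S.cm ≫ (α_ _ _ _).inv) ▷ S.A ≫
      (((M.r ≫ g) ▷ S.A) ▷ S.A ≫ M'.r ▷ S.A ≫ M'.r) := by
    unfold AReg_R AReg_E
    simp
  rw [h3, h1, reassoc_of% h2]
  unfold AReg_E
  conv_rhs => rw [AReg_cmR]
  simp

private theorem AReg_lr' (M : Bim S) : S.A ◁ M.r ≫ M.l = (α_ _ _ _).inv ≫ M.l ▷ S.A ≫ M.r := by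
  rw [M.lr]; simp

/-- left linearity is kept by the right average -/
private theorem AReg_RL (M M' : Bim S) (g : M.X ⟶ M'.X) (hg : S.A ◁ g ≫ M'.l = M.l ≫ g) :
    S.A ◁ AReg_R M M' g ≫ M'.l = M.l ≫ AReg_R M M' g := by
  have h1 : S.A ◁ (M.r ≫ g) ≫ M'.l = (α_ _ _ _).inv ≫ M.l ▷ S.A ≫ M.r ≫ g := by
    rw [MonoidalCategory.whiskerLeft_comp, Category.assoc, hg, reassoc_of% (AReg_lr' M)]
  have h2 : S.A ◁ ((M.r ≫ g) ▷ S.A) ≫ S.A ◁ M'.r ≫ M'.l =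
      (α_ _ _ _).inv ≫ (S.A ◁ (M.r ≫ g) ≫ M'.l) ▷ S.A ≫ M'.r := by
    rw [AReg_lr' M', associator_inv_naturality_middle_assoc, comp_whiskerRight_assoc]
  have h3 : S.A ◁ AReg_R M M' g ≫ M'.l =
      S.A ◁ ((ρ_ M.X).inv ≫ M.X ◁ S.one ≫ M.X ◁ S.cm ≫ (α_ _ _ _).inv) ≫
        (S.A ◁ ((M.r ≫ g) ▷ S.A) ≫ S.A ◁ M'.r ≫ M'.l) := by
    unfold AReg_R AReg_E
    simp
  rw [h3, h2, h1]
  unfold AReg_R AReg_E
  rw [rightUnitor_inv_naturality_assoc, ← whisker_exchange_assoc, ← whisker_exchange_assoc]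
  simp

/-- right linearity is kept by the left average -/
private theorem AReg_LR (M M' : Bim S) (g : M.X ⟶ M'.X) (hg : g ▷ S.A ≫ M'.r = M.r ≫ g) :
    AReg_L M M' g ▷ S.A ≫ M'.r = M.r ≫ AReg_L M M' g := by
  have h1 : (M.l ≫ g) ▷ S.A ≫ M'.r = (α_ _ _ _).hom ≫ S.A ◁ M.r ≫ M.l ≫ g := by
    rw [comp_whiskerRight, Category.assoc, hg, reassoc_of% M.lr]
  have h2 : (S.A ◁ (M.l ≫ g)) ▷ S.A ≫ M'.l ▷ S.A ≫ M'.r =
      (α_ _ _ _).hom ≫ S.A ◁ ((M.l ≫ g) ▷ S.A ≫ M'.r) ≫ M'.l := by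
    rw [M'.lr, associator_naturality_middle_assoc, MonoidalCategory.whiskerLeft_comp_assoc]
  have h3 : AReg_L M M' g ▷ S.A ≫ M'.r =
      ((λ_ M.X).inv ≫ S.one ▷ M.X ≫ S.cm ▷ M.X ≫ (α_ _ _ _).hom) ▷ S.A ≫
        ((S.A ◁ (M.l ≫ g)) ▷ S.A ≫ M'.l ▷ S.A ≫ M'.r) := by
    unfold AReg_L AReg_D
    simp
  rw [h3, h2, h1]
  unfold AReg_L AReg_D
  rw [leftUnitor_inv_naturality_assoc, whisker_exchange_assoc, whisker_exchange_assoc]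
  simp

private theorem AReg_Lp (M M' : Bim S) (g : M.X ⟶ M'.X) : AReg_L M M' g ≫ M'.p = AReg_L M M' g := by
  unfold AReg_L AReg_D
  simp only [Category.assoc, M'.p_l]

private theorem AReg_Rp (M M' : Bim S) (g : M.X ⟶ M'.X) : AReg_R M M' g ≫ M'.p = AReg_R M M' g := by
  unfold AReg_R AReg_E
  simp only [Category.assoc, M'.p_r']

private theorem AReg_Lpre {M M' N : Bim S} (f : Bim.Hom M M') (g : M'.X ⟶ N.X) :
    AReg_L M N (f.f ≫ g) = f.f ≫ AReg_L M' N g := by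
  unfold AReg_L AReg_D
  rw [leftUnitor_inv_naturality_assoc, whisker_exchange_assoc, whisker_exchange_assoc, ← reassoc_of% f.hl]
  simp

private theorem AReg_Rpre {M M' N : Bim S} (f : Bim.Hom M M') (g : M'.X ⟶ N.X) :
    AReg_R M N (f.f ≫ g) = f.f ≫ AReg_R M' N g := by
  unfold AReg_R AReg_E
  rw [rightUnitor_inv_naturality_assoc, ← whisker_exchange_assoc, ← whisker_exchange_assoc, ← reassoc_of% f.hr]
  simp

private theorem AReg_Lpost {M M' N : Bim S} (f : Bim.Hom M' N) (g : M.X ⟶ M'.X) :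
    AReg_L M N (g ≫ f.f) = AReg_L M M' g ≫ f.f := by
  unfold AReg_L AReg_D
  simp only [Category.assoc, MonoidalCategory.whiskerLeft_comp, f.hl]

private theorem AReg_Rpost {M M' N : Bim S} (f : Bim.Hom M' N) (g : M.X ⟶ M'.X) :
    AReg_R M N (g ≫ f.f) = AReg_R M M' g ≫ f.f := by
  unfold AReg_R AReg_E
  simp only [Category.assoc, comp_whiskerRight, f.hr]

private theorem AReg_Lid {M M' : Bim S} (f : Bim.Hom M M') : AReg_L M M' f.f = f.f := by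
  have h1 : S.A ◁ (M.l ≫ f.f) ≫ M'.l = (α_ _ _ _).inv ≫ S.mul ▷ M.X ≫ M.l ≫ f.f := by
    rw [MonoidalCategory.whiskerLeft_comp, Category.assoc, f.hl, reassoc_of% (AReg_ll M)]
  unfold AReg_L AReg_D
  have h3 : S.cm ▷ M.X ≫ S.mul ▷ M.X = 𝟙 _ := by rw [← comp_whiskerRight, S.sep, id_whiskerRight]
  rw [h1, Iso.hom_inv_id_assoc, reassoc_of% h3]
  have h2 := f.ph
  unfold Bim.p at h2
  rw [Category.assoc, Category.assoc] at h2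
  exact h2

private theorem AReg_Rid {M M' : Bim S} (f : Bim.Hom M M') : AReg_R M M' f.f = f.f := by
  have h1 : (M.r ≫ f.f) ▷ S.A ≫ M'.r = (α_ _ _ _).hom ≫ M.X ◁ S.mul ≫ M.r ≫ f.f := by
    rw [comp_whiskerRight, Category.assoc, f.hr, reassoc_of% (AReg_rr M)]
  unfold AReg_R AReg_E
  have h3 : M.X ◁ S.cm ≫ M.X ◁ S.mul = 𝟙 _ := by
    rw [← MonoidalCategory.whiskerLeft_comp, S.sep, MonoidalCategory.whiskerLeft_id]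
  rw [h1, Iso.inv_hom_id_assoc, reassoc_of% h3]
  have h2 := f.ph
  rw [Bim.p_r, Category.assoc, Category.assoc] at h2
  exact h2

theorem bim_reg (hC : ∀ {x y : C} (f : x ⟶ y), ∃ g : y ⟶ x, f ≫ g ≫ f = f) {M M' : Bim S} (f : M ⟶ M') :
    ∃ g : M' ⟶ M, f ≫ g ≫ f = f := by
  obtain ⟨g, hg⟩ := hC (Bim.Hom.f f)
  have hl : S.A ◁ AReg_L M' M g ≫ M.l = M'.l ≫ AReg_L M' M g := by rw [AReg_L1, AReg_L2]
  refine ⟨⟨AReg_R M' M (AReg_L M' M g), AReg_RL M' M _ hl, by rw [AReg_R1, AReg_R2], AReg_Rp M' M _⟩, ?_⟩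
  refine Bim.hom_ext ?_
  change Bim.Hom.f f ≫ AReg_R M' M (AReg_L M' M g) ≫ Bim.Hom.f f = Bim.Hom.f f
  rw [← AReg_Rpost, ← AReg_Rpre, ← AReg_Lpost, ← AReg_Lpre, hg, AReg_Lid, AReg_Rid]

end Pool.Agent.SFC
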