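import Pool.Agent.SFC.ATm

/-! # SFC/ATen: the tensor product of bimodules -/

set_option autoImplicit false

noncomputable section

open CategoryTheory MonoidalCategory

namespace Pool.Agent.SFC

universe v u

variable {C : Type u} [Category.{v} C] [MonoidalCategory C]

namespace Bim

variable {S : SFrob C}

/-- the balancing idempotent -/
def e (M N : Bim S) : M.X ⊗ N.X ⟶ M.X ⊗ N.X := M.X ◁ N.sL ≫ (α_ _ _ _).inv ≫ M.r ▷ N.X

theorem e_eq (M N : Bim S) : e M N = M.sR ▷ N.X ≫ (α_ _ _ _).hom ≫ M.X ◁ N.l := by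
  rw [e, sL, sR]
  simp only [MonoidalCategory.whiskerLeft_comp, comp_whiskerRight, Category.assoc]
  have h : M.X ◁ S.A ◁ N.l ≫ (α_ M.X S.A N.X).inv ≫ M.r ▷ N.X =
      (α_ _ _ _).inv ≫ M.r ▷ (S.A ⊗ N.X) ≫ M.X ◁ N.l := by
    rw [← whisker_exchange]
    simp
  rw [h]
  monoidal

theorem bal (M N : Bim S) : M.r ▷ N.X ≫ e M N = (α_ _ _ _).hom ≫ M.X ◁ N.l ≫ e M N := by
  have h1 : M.r ▷ N.X ≫ e M N = (α_ _ _ _).hom ≫ M.X ◁ (S.A ◁ N.sL ≫ (α_ _ _ _).inv ≫ S.mul ▷ N.X) ≫ (α_ _ _ _).inv ≫ M.r ▷ N.X := by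
    rw [e, ← whisker_exchange_assoc]
    have h2 : M.r ▷ (S.A ⊗ N.X) ≫ (α_ M.X S.A N.X).inv ≫ M.r ▷ N.X =
        (α_ _ _ _).inv ≫ (M.r ▷ S.A ≫ M.r) ▷ N.X := by
      simp
    have h3 : M.r ▷ S.A ≫ M.r = (α_ _ _ _).hom ≫ M.X ◁ S.mul ≫ M.r := by rw [M.rr]; simp
    rw [h2, h3]
    simp only [MonoidalCategory.whiskerLeft_comp, comp_whiskerRight]
    monoidal
  rw [h1, ← l_sL', e]
  simp

theorem e_e (M N : Bim S) : e M N ≫ e M N = e M N := by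
  have h : e M N ≫ e M N = M.X ◁ N.sL ≫ (α_ _ _ _).inv ≫ M.r ▷ N.X ≫ e M N := by
    conv_lhs => lhs; rw [e]
    simp only [Category.assoc]
  rw [h, bal, Iso.inv_hom_id_assoc, ← MonoidalCategory.whiskerLeft_comp_assoc, sL_l, e,
    ← MonoidalCategory.whiskerLeft_comp_assoc, p_sL]

theorem l_e (M N : Bim S) : (α_ _ _ _).inv ≫ M.l ▷ N.X ≫ e M N = S.A ◁ e M N ≫ (α_ _ _ _).inv ≫ M.l ▷ N.X := by
  rw [e_eq]
  have h : M.l ▷ N.X ≫ M.sR ▷ N.X = (S.A ◁ M.sR ≫ (α_ _ _ _).inv ≫ M.l ▷ S.A) ▷ N.X := by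
    rw [← comp_whiskerRight, l_sR]
  rw [← Category.assoc (M.l ▷ N.X), h]
  simp only [MonoidalCategory.whiskerLeft_comp, comp_whiskerRight, Category.assoc]
  have h2 : S.A ◁ M.X ◁ N.l ≫ (α_ S.A M.X N.X).inv ≫ M.l ▷ N.X = (α_ _ _ _).inv ≫ M.l ▷ (S.A ⊗ N.X) ≫ M.X ◁ N.l := by
    rw [← whisker_exchange]
    simp
  rw [h2]
  monoidal

theorem r_e (M N : Bim S) : (α_ _ _ _).hom ≫ M.X ◁ N.r ≫ e M N = e M N ▷ S.A ≫ (α_ _ _ _).hom ≫ M.X ◁ N.r := by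
  rw [e]
  have h : M.X ◁ N.r ≫ M.X ◁ N.sL = M.X ◁ (N.sL ▷ S.A ≫ (α_ _ _ _).hom ≫ S.A ◁ N.r) := by
    rw [← MonoidalCategory.whiskerLeft_comp, r_sL]
  rw [← Category.assoc (M.X ◁ N.r), h]
  simp only [MonoidalCategory.whiskerLeft_comp, comp_whiskerRight, Category.assoc]
  have h2 : M.r ▷ N.X ▷ S.A ≫ (α_ M.X N.X S.A).hom ≫ M.X ◁ N.r = (α_ _ _ _).hom ≫ (M.X ⊗ S.A) ◁ N.r ≫ M.r ▷ N.X := by
    rw [whisker_exchange]
    simp
  rw [h2]
  monoidal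

theorem e_pL (M N : Bim S) : M.p ▷ N.X ≫ e M N = e M N := by
  rw [e_eq, ← comp_whiskerRight_assoc, p_sR]

theorem e_pR (M N : Bim S) : M.X ◁ N.p ≫ e M N = e M N := by
  rw [e, ← MonoidalCategory.whiskerLeft_comp_assoc, p_sL]

theorem pL_e (M N : Bim S) : e M N ≫ M.p ▷ N.X = e M N := by
  rw [e, Category.assoc, Category.assoc, ← comp_whiskerRight, p_r']

theorem pR_e (M N : Bim S) : e M N ≫ M.X ◁ N.p = e M N := by
  rw [e_eq, Category.assoc, Category.assoc, ← MonoidalCategory.whiskerLeft_comp, p_l]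

theorem f_e {M M' : Bim S} (f : M ⟶ M') (N : Bim S) : Hom.f f ▷ N.X ≫ e M' N = e M N ≫ Hom.f f ▷ N.X := by
  rw [e_eq, e_eq, ← comp_whiskerRight_assoc, hom_sR]
  simp only [comp_whiskerRight, Category.assoc]
  rw [associator_naturality_left_assoc, ← whisker_exchange]

theorem e_f (M : Bim S) {N N' : Bim S} (g : N ⟶ N') : M.X ◁ Hom.f g ≫ e M N' = e M N ≫ M.X ◁ Hom.f g := by
  rw [e, e, ← MonoidalCategory.whiskerLeft_comp_assoc, hom_sL]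
  simp only [MonoidalCategory.whiskerLeft_comp, Category.assoc]
  rw [associator_inv_naturality_right_assoc, whisker_exchange]

/-- `(a, x ⊗ y) ↦ a x ⊗ y` -/
def lt (M N : Bim S) : S.A ⊗ (M.X ⊗ N.X) ⟶ M.X ⊗ N.X := (α_ _ _ _).inv ≫ M.l ▷ N.X

/-- `(x ⊗ y, a) ↦ x ⊗ y a` -/
def rt (M N : Bim S) : (M.X ⊗ N.X) ⊗ S.A ⟶ M.X ⊗ N.X := (α_ _ _ _).hom ≫ M.X ◁ N.r

theorem lt_e (M N : Bim S) : lt M N ≫ e M N = S.A ◁ e M N ≫ lt M N := by
  rw [lt, Category.assoc, l_e]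

theorem rt_e (M N : Bim S) : rt M N ≫ e M N = e M N ▷ S.A ≫ rt M N := by
  rw [rt, Category.assoc, r_e]

theorem lt_lt (M N : Bim S) : S.mul ▷ (M.X ⊗ N.X) ≫ lt M N = (α_ _ _ _).hom ≫ S.A ◁ lt M N ≫ lt M N := by
  have h1 := congrArg (fun t => (α_ _ _ _).inv ≫ t ▷ N.X) M.ll
  simp only [comp_whiskerRight] at h1
  simp only [lt, MonoidalCategory.whiskerLeft_comp, Category.assoc]
  rw [associator_inv_naturality_left_assoc, h1]
  monoidal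

theorem rt_rt (M N : Bim S) : (M.X ⊗ N.X) ◁ S.mul ≫ rt M N = (α_ _ _ _).inv ≫ rt M N ▷ S.A ≫ rt M N := by
  have h1 := congrArg (fun t => (α_ _ _ _).hom ≫ M.X ◁ t) N.rr
  simp only [MonoidalCategory.whiskerLeft_comp] at h1
  simp only [rt, comp_whiskerRight, Category.assoc]
  rw [associator_naturality_right_assoc, h1]
  monoidal

theorem lt_rt (M N : Bim S) : lt M N ▷ S.A ≫ rt M N = (α_ _ _ _).hom ≫ S.A ◁ rt M N ≫ lt M N := by
  simp only [lt, rt, comp_whiskerRight, MonoidalCategory.whiskerLeft_comp, Category.assoc]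
  have h : M.l ▷ N.X ▷ S.A ≫ (α_ M.X N.X S.A).hom ≫ M.X ◁ N.r = (α_ _ _ _).hom ≫ (S.A ⊗ M.X) ◁ N.r ≫ M.l ▷ N.X := by
    rw [whisker_exchange]
    simp
  rw [h]
  monoidal

theorem one_lt (M N : Bim S) : (λ_ _).inv ≫ S.one ▷ (M.X ⊗ N.X) ≫ lt M N = M.p ▷ N.X := by
  rw [lt, associator_inv_naturality_left_assoc, p]
  simp only [comp_whiskerRight]
  monoidal

theorem one_rt (M N : Bim S) : (ρ_ _).inv ≫ (M.X ⊗ N.X) ◁ S.one ≫ rt M N = M.X ◁ N.p := by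
  rw [rt, associator_naturality_right_assoc, p_r]
  simp only [MonoidalCategory.whiskerLeft_comp]
  monoidal

/-- the tensor product over `S` -/
@[reducible] def ten (M N : Bim S) : Bim S where
  X := M.X ⊗ N.X
  l := lt M N ≫ e M N
  r := rt M N ≫ e M N
  ll := by
    rw [MonoidalCategory.whiskerLeft_comp, Category.assoc, ← Category.assoc (S.A ◁ e M N), ← lt_e, Category.assoc,
      e_e, ← Category.assoc, lt_lt]
    simp
  rr := by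
    rw [comp_whiskerRight, Category.assoc, ← Category.assoc (e M N ▷ S.A), ← rt_e, Category.assoc,
      e_e, ← Category.assoc, rt_rt]
    simp
  lr := by
    rw [comp_whiskerRight, MonoidalCategory.whiskerLeft_comp, Category.assoc, Category.assoc,
      ← Category.assoc (e M N ▷ S.A), ← rt_e, ← Category.assoc (S.A ◁ e M N), ← lt_e, Category.assoc,
      Category.assoc, e_e, ← Category.assoc, lt_rt]
    simp
  uu := by
    have h1 := congrArg (· ≫ e M N) (one_lt M N)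
    have h2 := congrArg (· ≫ e M N) (one_rt M N)
    simp only [Category.assoc] at h1 h2
    rw [h1, h2, e_pL, e_pR]

@[simp] theorem ten_X (M N : Bim S) : (ten M N).X = M.X ⊗ N.X := rfl

theorem ten_p (M N : Bim S) : (ten M N).p = e M N := by
  have h1 := congrArg (· ≫ e M N) (one_lt M N)
  simp only [Category.assoc] at h1
  rw [← e_pL M N, ← h1]
  rfl

/-- `f ▷ N` -/
def wR {M M' : Bim S} (f : M ⟶ M') (N : Bim S) : ten M N ⟶ ten M' N where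
  f := e M N ≫ Hom.f f ▷ N.X
  hl := by
    show S.A ◁ (e M N ≫ Hom.f f ▷ N.X) ≫ lt M' N ≫ e M' N = (lt M N ≫ e M N) ≫ e M N ≫ Hom.f f ▷ N.X
    have h : S.A ◁ (Hom.f f ▷ N.X) ≫ lt M' N = lt M N ≫ Hom.f f ▷ N.X := by
      rw [lt, lt, Category.assoc, ← comp_whiskerRight, ← f.hl]
      simp
    rw [MonoidalCategory.whiskerLeft_comp, Category.assoc, ← Category.assoc (S.A ◁ (Hom.f f ▷ N.X)), h, Category.assoc,
      f_e, ← Category.assoc (S.A ◁ e M N), ← lt_e, Category.assoc]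
  hr := by
    show (e M N ≫ Hom.f f ▷ N.X) ▷ S.A ≫ rt M' N ≫ e M' N = (rt M N ≫ e M N) ≫ e M N ≫ Hom.f f ▷ N.X
    have h : Hom.f f ▷ N.X ▷ S.A ≫ rt M' N = rt M N ≫ Hom.f f ▷ N.X := by
      rw [rt, rt, Category.assoc, whisker_exchange]
      simp
    rw [comp_whiskerRight, Category.assoc, ← Category.assoc (Hom.f f ▷ N.X ▷ S.A), h, Category.assoc,
      f_e, ← Category.assoc (e M N ▷ S.A), ← rt_e, Category.assoc]
  hp := by
    have h1 : (e M N ≫ Hom.f f ▷ N.X) ≫ e M' N = e M N ≫ Hom.f f ▷ N.X := by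
      rw [Category.assoc, f_e, ← Category.assoc, e_e]
    rw [ten_p]
    exact h1

/-- `M ◁ g` -/
def wL (M : Bim S) {N N' : Bim S} (g : N ⟶ N') : ten M N ⟶ ten M N' where
  f := e M N ≫ M.X ◁ Hom.f g
  hl := by
    show S.A ◁ (e M N ≫ M.X ◁ Hom.f g) ≫ lt M N' ≫ e M N' = (lt M N ≫ e M N) ≫ e M N ≫ M.X ◁ Hom.f g
    have h : S.A ◁ (M.X ◁ Hom.f g) ≫ lt M N' = lt M N ≫ M.X ◁ Hom.f g := by
      rw [lt, lt, Category.assoc, ← whisker_exchange]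
      simp
    rw [MonoidalCategory.whiskerLeft_comp, Category.assoc, ← Category.assoc (S.A ◁ (M.X ◁ Hom.f g)), h, Category.assoc,
      e_f, ← Category.assoc (S.A ◁ e M N), ← lt_e, Category.assoc]
  hr := by
    show (e M N ≫ M.X ◁ Hom.f g) ▷ S.A ≫ rt M N' ≫ e M N' = (rt M N ≫ e M N) ≫ e M N ≫ M.X ◁ Hom.f g
    have h : (M.X ◁ Hom.f g) ▷ S.A ≫ rt M N' = rt M N ≫ M.X ◁ Hom.f g := by
      rw [rt, rt, Category.assoc, ← MonoidalCategory.whiskerLeft_comp, ← g.hr]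
      simp
    rw [comp_whiskerRight, Category.assoc, ← Category.assoc ((M.X ◁ Hom.f g) ▷ S.A), h, Category.assoc,
      e_f, ← Category.assoc (e M N ▷ S.A), ← rt_e, Category.assoc]
  hp := by
    have h1 : (e M N ≫ M.X ◁ Hom.f g) ≫ e M N' = e M N ≫ M.X ◁ Hom.f g := by
      rw [Category.assoc, e_f, ← Category.assoc, e_e]
    rw [ten_p]
    exact h1

@[simp] theorem wR_f {M M' : Bim S} (f : M ⟶ M') (N : Bim S) : Hom.f (wR f N) = e M N ≫ Hom.f f ▷ N.X := rfl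
@[simp] theorem wL_f (M : Bim S) {N N' : Bim S} (g : N ⟶ N') : Hom.f (wL M g) = e M N ≫ M.X ◁ Hom.f g := rfl

/-- the unit object -/
@[reducible] def unt (S : SFrob C) : Bim S where
  X := S.A
  l := S.mul
  r := S.mul
  ll := S.assoc
  rr := by rw [S.assoc]; simp
  lr := S.assoc
  uu := by rw [S.one_mul, S.mul_one]; simp

@[simp] theorem unt_X (S : SFrob C) : (unt S).X = S.A := rfl

theorem unt_p (S : SFrob C) : (unt S).p = 𝟙 S.A := by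
  show (λ_ S.A).inv ≫ S.one ▷ S.A ≫ S.mul = 𝟙 S.A
  rw [S.one_mul]
  simp

theorem unt_sL (S : SFrob C) : (unt S).sL = S.cm := by
  rw [← S.cp_r]
  rfl

theorem unt_sR (S : SFrob C) : (unt S).sR = S.cm := by
  rw [← S.cp_l]
  rfl

/-- the associator, on underlying objects: `e` compressed -/
def aF (M N P : Bim S) : (M.X ⊗ N.X) ⊗ P.X ⟶ M.X ⊗ (N.X ⊗ P.X) :=
  e M N ▷ P.X ≫ (α_ _ _ _).hom ≫ M.X ◁ e N P

/-- the inverse associator -/
def aG (M N P : Bim S) : M.X ⊗ (N.X ⊗ P.X) ⟶ (M.X ⊗ N.X) ⊗ P.X :=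
  M.X ◁ e N P ≫ (α_ _ _ _).inv ≫ e M N ▷ P.X

theorem l_e' (N P : Bim S) : N.l ▷ P.X ≫ e N P = (α_ _ _ _).hom ≫ S.A ◁ e N P ≫ (α_ _ _ _).inv ≫ N.l ▷ P.X := by
  rw [← l_e]
  simp

/-- the idempotents `e M N ▷ P` and `M ◁ e N P` commute -/
theorem e_comm (M N P : Bim S) : e M N ▷ P.X ≫ (α_ _ _ _).hom ≫ M.X ◁ e N P =
    (α_ _ _ _).hom ≫ M.X ◁ e N P ≫ (α_ _ _ _).inv ≫ e M N ▷ P.X ≫ (α_ _ _ _).hom := by
  have h1 : e M N ▷ P.X = (M.sR ▷ N.X) ▷ P.X ≫ (α_ _ _ _).hom ▷ P.X ≫ (M.X ◁ N.l) ▷ P.X := by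
    rw [e_eq]
    simp only [comp_whiskerRight]
  have h2 : (M.X ◁ N.l) ▷ P.X ≫ (α_ _ _ _).hom ≫ M.X ◁ e N P = (α_ _ _ _).hom ≫ M.X ◁ ((α_ _ _ _).hom ≫
      S.A ◁ e N P ≫ (α_ _ _ _).inv ≫ N.l ▷ P.X) := by
    rw [← l_e']
    simp
  have h3 : M.X ◁ e N P ≫ (α_ _ _ _).inv ≫ (M.sR ▷ N.X) ▷ P.X = M.sR ▷ (N.X ⊗ P.X) ≫ (M.X ⊗ S.A) ◁ e N P ≫
      (α_ _ _ _).inv := by
    rw [← associator_inv_naturality_left, whisker_exchange_assoc]
  conv_lhs => rw [h1]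
  conv_rhs => rw [h1]
  simp only [Category.assoc]
  rw [h2]
  have h4 := congrArg (fun t => (α_ _ _ _).hom ≫ t ≫ (α_ _ _ _).hom ▷ P.X ≫ (M.X ◁ N.l) ▷ P.X ≫ (α_ _ _ _).hom) h3
  simp only [Category.assoc] at h4
  rw [h4]
  simp only [MonoidalCategory.whiskerLeft_comp]
  monoidal

theorem e_ten_l (M N P : Bim S) : e (ten M N) P = e M N ▷ P.X ≫ (α_ _ _ _).hom ≫ M.X ◁ e N P ≫ (α_ _ _ _).inv := by
  show (M.X ⊗ N.X) ◁ P.sL ≫ (α_ _ _ _).inv ≫ (rt M N ≫ e M N) ▷ P.X = _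
  rw [rt_e, comp_whiskerRight, ← associator_inv_naturality_left_assoc, whisker_exchange_assoc, rt,
    show e N P = N.X ◁ P.sL ≫ (α_ _ _ _).inv ≫ N.r ▷ P.X from rfl]
  congr 1
  simp only [MonoidalCategory.whiskerLeft_comp, comp_whiskerRight]
  monoidal

theorem e_ten_r (M N P : Bim S) : e M (ten N P) = M.X ◁ e N P ≫ (α_ _ _ _).inv ≫ e M N ▷ P.X ≫ (α_ _ _ _).hom := by
  rw [e_eq]
  show M.sR ▷ (N.X ⊗ P.X) ≫ (α_ _ _ _).hom ≫ M.X ◁ (lt N P ≫ e N P) = _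
  rw [lt_e, MonoidalCategory.whiskerLeft_comp, ← associator_naturality_right_assoc, ← whisker_exchange_assoc, lt, e_eq M N]
  congr 1
  simp only [comp_whiskerRight]
  monoidal

end Bim

end Pool.Agent.SFC
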