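import Pool.Agent.SFC.Defs

/-! # SFC/ATm: the balancing idempotent -/

set_option autoImplicit false

noncomputable section

open CategoryTheory MonoidalCategory

namespace Pool.Agent.SFC

universe v u

variable {C : Type u} [Category.{v} C] [MonoidalCategory C]

/-- the copairing -/
def SFrob.cp (S : SFrob C) : 𝟙_ C ⟶ S.A ⊗ S.A := S.one ≫ S.cm

theorem SFrob.cp_l (S : SFrob C) : (ρ_ S.A).inv ≫ S.A ◁ S.cp ≫ (α_ _ _ _).inv ≫ S.mul ▷ S.A = S.cm := by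
  rw [SFrob.cp, MonoidalCategory.whiskerLeft_comp, Category.assoc, ← S.frobL, ← Category.assoc (S.A ◁ S.one), S.mul_one]
  simp

theorem SFrob.cp_r (S : SFrob C) : (λ_ S.A).inv ≫ S.cp ▷ S.A ≫ (α_ _ _ _).hom ≫ S.A ◁ S.mul = S.cm := by
  rw [SFrob.cp, comp_whiskerRight, Category.assoc, ← S.frobR, ← Category.assoc (S.one ▷ S.A), S.one_mul]
  simp

namespace Bim

variable {S : SFrob C}

/-- left coaction -/
def sL (N : Bim S) : N.X ⟶ S.A ⊗ N.X := (λ_ N.X).inv ≫ S.cp ▷ N.X ≫ (α_ _ _ _).hom ≫ S.A ◁ N.l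

/-- right coaction -/
def sR (M : Bim S) : M.X ⟶ M.X ⊗ S.A := (ρ_ M.X).inv ≫ M.X ◁ S.cp ≫ (α_ _ _ _).inv ≫ M.r ▷ S.A

/-- `σ' ⊗ σ'' a x = a σ' ⊗ σ'' x` -/
theorem l_sL (N : Bim S) : N.l ≫ N.sL = S.cm ▷ N.X ≫ (α_ _ _ _).hom ≫ S.A ◁ N.l := by
  rw [sL, leftUnitor_inv_naturality_assoc, whisker_exchange_assoc]
  have h1 : S.A ◁ (S.A ◁ N.l) ≫ S.A ◁ N.l = S.A ◁ ((α_ _ _ _).inv ≫ S.mul ▷ N.X ≫ N.l) := by
    rw [← MonoidalCategory.whiskerLeft_comp]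
    congr 1
    rw [N.ll]
    simp
  have h2 : (S.A ⊗ S.A) ◁ N.l ≫ (α_ S.A S.A N.X).hom ≫ S.A ◁ N.l =
      (α_ S.A S.A (S.A ⊗ N.X)).hom ≫ S.A ◁ (S.A ◁ N.l) ≫ S.A ◁ N.l := by
    simp
  rw [h2, h1]
  conv_rhs => rw [← S.cp_r]
  simp only [MonoidalCategory.whiskerLeft_comp, comp_whiskerRight]
  monoidal

/-- `cm ▷ X ≫ A ◁ l` as `A ◁ sL ≫ mul` -/
theorem l_sL' (N : Bim S) : N.l ≫ N.sL = S.A ◁ N.sL ≫ (α_ _ _ _).inv ≫ S.mul ▷ N.X := by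
  rw [l_sL, sL]
  conv_lhs => rw [← S.cp_l]
  simp only [MonoidalCategory.whiskerLeft_comp, comp_whiskerRight]
  have h : S.A ◁ S.A ◁ N.l ≫ (α_ S.A S.A N.X).inv ≫ S.mul ▷ N.X = (α_ S.A S.A (S.A ⊗ N.X)).inv ≫ S.mul ▷ (S.A ⊗ N.X) ≫ S.A ◁ N.l := by
    rw [← whisker_exchange]
    simp
  simp only [Category.assoc]
  rw [h]
  monoidal

theorem r_sR (M : Bim S) : M.r ≫ M.sR = M.X ◁ S.cm ≫ (α_ _ _ _).inv ≫ M.r ▷ S.A := by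
  rw [sR, rightUnitor_inv_naturality_assoc, ← whisker_exchange_assoc]
  have h1 : M.r ▷ S.A ▷ S.A ≫ M.r ▷ S.A = ((α_ _ _ _).hom ≫ M.X ◁ S.mul ≫ M.r) ▷ S.A := by
    rw [← comp_whiskerRight]
    congr 1
    rw [M.rr]
    simp
  have h2 : M.r ▷ (S.A ⊗ S.A) ≫ (α_ M.X S.A S.A).inv ≫ M.r ▷ S.A =
      (α_ (M.X ⊗ S.A) S.A S.A).inv ≫ M.r ▷ S.A ▷ S.A ≫ M.r ▷ S.A := by
    simp
  rw [h2, h1]
  conv_rhs => rw [← S.cp_l]
  simp only [MonoidalCategory.whiskerLeft_comp, comp_whiskerRight]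
  monoidal

theorem r_sR' (M : Bim S) : M.r ≫ M.sR = M.sR ▷ S.A ≫ (α_ _ _ _).hom ≫ M.X ◁ S.mul := by
  rw [r_sR, sR]
  conv_lhs => rw [← S.cp_r]
  simp only [MonoidalCategory.whiskerLeft_comp, comp_whiskerRight]
  have h : M.r ▷ S.A ▷ S.A ≫ (α_ M.X S.A S.A).hom ≫ M.X ◁ S.mul =
      (α_ (M.X ⊗ S.A) S.A S.A).hom ≫ (M.X ⊗ S.A) ◁ S.mul ≫ M.r ▷ S.A := by
    rw [whisker_exchange]
    simp
  simp only [Category.assoc]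
  rw [h]
  monoidal

theorem sL_l (N : Bim S) : N.sL ≫ N.l = N.p := by
  have h1 : S.A ◁ N.l ≫ N.l = (α_ _ _ _).inv ≫ S.mul ▷ N.X ≫ N.l := by rw [N.ll]; simp
  rw [sL, Category.assoc, Category.assoc, Category.assoc, h1, Iso.hom_inv_id_assoc, ← comp_whiskerRight_assoc,
    SFrob.cp, Category.assoc, S.sep, Category.comp_id, p]

theorem sR_r (M : Bim S) : M.sR ≫ M.r = M.p := by
  have h1 : M.r ▷ S.A ≫ M.r = (α_ _ _ _).hom ≫ M.X ◁ S.mul ≫ M.r := by rw [M.rr]; simp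
  rw [sR, Category.assoc, Category.assoc, Category.assoc, h1, Iso.inv_hom_id_assoc,
    ← MonoidalCategory.whiskerLeft_comp_assoc, SFrob.cp, Category.assoc, S.sep, Category.comp_id, p_r]

theorem l_sR (M : Bim S) : M.l ≫ M.sR = S.A ◁ M.sR ≫ (α_ _ _ _).inv ≫ M.l ▷ S.A := by
  rw [sR, rightUnitor_inv_naturality_assoc, ← whisker_exchange_assoc]
  have h2 : M.l ▷ (S.A ⊗ S.A) ≫ (α_ M.X S.A S.A).inv ≫ M.r ▷ S.A =
      (α_ (S.A ⊗ M.X) S.A S.A).inv ≫ (M.l ▷ S.A ≫ M.r) ▷ S.A := by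
    simp
  rw [h2, M.lr]
  simp only [MonoidalCategory.whiskerLeft_comp, comp_whiskerRight]
  monoidal

theorem r_sL (N : Bim S) : N.r ≫ N.sL = N.sL ▷ S.A ≫ (α_ _ _ _).hom ≫ S.A ◁ N.r := by
  rw [sL, leftUnitor_inv_naturality_assoc, whisker_exchange_assoc]
  have h0 : S.A ◁ N.r ≫ N.l = (α_ _ _ _).inv ≫ N.l ▷ S.A ≫ N.r := by rw [N.lr]; simp
  have h2 : (S.A ⊗ S.A) ◁ N.r ≫ (α_ S.A S.A N.X).hom ≫ S.A ◁ N.l =
      (α_ S.A S.A (N.X ⊗ S.A)).hom ≫ S.A ◁ (S.A ◁ N.r ≫ N.l) := by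
    simp
  rw [h2, h0]
  simp only [MonoidalCategory.whiskerLeft_comp, comp_whiskerRight]
  monoidal

theorem sL_p (N : Bim S) : N.sL ≫ S.A ◁ N.p = N.sL := by
  rw [sL]
  simp only [Category.assoc]
  rw [← MonoidalCategory.whiskerLeft_comp, p_l]

theorem p_sL (N : Bim S) : N.p ≫ N.sL = N.sL := by
  have h1 : N.l ≫ N.sL = S.cm ▷ N.X ≫ (α_ _ _ _).hom ≫ S.A ◁ N.l := l_sL N
  rw [p, Category.assoc, Category.assoc, h1, ← comp_whiskerRight_assoc]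
  rfl

theorem sR_p (M : Bim S) : M.sR ≫ M.p ▷ S.A = M.sR := by
  rw [sR]
  simp only [Category.assoc]
  rw [← comp_whiskerRight, p_r']

theorem p_sR (M : Bim S) : M.p ≫ M.sR = M.sR := by
  rw [p_r, Category.assoc, Category.assoc, r_sR, ← MonoidalCategory.whiskerLeft_comp_assoc]
  rfl

theorem hom_sL {N N' : Bim S} (g : N ⟶ N') : Hom.f g ≫ N'.sL = N.sL ≫ S.A ◁ Hom.f g := by
  rw [sL, sL, leftUnitor_inv_naturality_assoc, whisker_exchange_assoc]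
  have h2 : (S.A ⊗ S.A) ◁ Hom.f g ≫ (α_ S.A S.A N'.X).hom ≫ S.A ◁ N'.l =
      (α_ S.A S.A N.X).hom ≫ S.A ◁ (S.A ◁ Hom.f g ≫ N'.l) := by
    simp
  rw [h2, g.hl]
  simp

theorem hom_sR {M M' : Bim S} (g : M ⟶ M') : Hom.f g ≫ M'.sR = M.sR ≫ Hom.f g ▷ S.A := by
  rw [sR, sR, rightUnitor_inv_naturality_assoc, ← whisker_exchange_assoc]
  have h2 : Hom.f g ▷ (S.A ⊗ S.A) ≫ (α_ M'.X S.A S.A).inv ≫ M'.r ▷ S.A =
      (α_ M.X S.A S.A).inv ≫ (Hom.f g ▷ S.A ≫ M'.r) ▷ S.A := by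
    simp
  rw [h2, g.hr]
  simp

end Bim

end Pool.Agent.SFC
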