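import Pool.Agent.SFC.ATen

/-!
# SFC/AVa: the free bimodules `V x = A ⊗ (x ⊗ A)`

`bt x y : V x ⊗ V y ≅ (A ⊗ x) ⊗ ((A ⊗ A) ⊗ (y ⊗ A))` and `gm x y : V (x ⊗ y) ≅ (A ⊗ x) ⊗ (y ⊗ A)` are the coherence isomorphisms.
`vmu` = `mul ≫ cn` in the middle, `vde` = `cp` in the middle, `vep = cm`, `vet = mul`.
-/

set_option autoImplicit false

noncomputable section

open CategoryTheory MonoidalCategory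

namespace Pool.Agent.SFC

universe v u

variable {C : Type u} [Category.{v} C] [MonoidalCategory C]

/-- `V x ⊗ V y ≅ (A ⊗ x) ⊗ ((A ⊗ A) ⊗ (y ⊗ A))` -/
def bt (S : SFrob C) (x y : C) :
    (S.A ⊗ (x ⊗ S.A)) ⊗ (S.A ⊗ (y ⊗ S.A)) ≅ (S.A ⊗ x) ⊗ ((S.A ⊗ S.A) ⊗ (y ⊗ S.A)) :=
  whiskerRightIso (α_ S.A x S.A).symm _ ≪≫ α_ (S.A ⊗ x) S.A (S.A ⊗ (y ⊗ S.A)) ≪≫
    whiskerLeftIso (S.A ⊗ x) (α_ S.A S.A (y ⊗ S.A)).symm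

/-- `V (x ⊗ y) ≅ (A ⊗ x) ⊗ (y ⊗ A)` -/
def gm (S : SFrob C) (x y : C) : S.A ⊗ ((x ⊗ y) ⊗ S.A) ≅ (S.A ⊗ x) ⊗ (y ⊗ S.A) :=
  whiskerLeftIso S.A (α_ x y S.A) ≪≫ (α_ S.A x (y ⊗ S.A)).symm

/-- the object `A x A` -/
@[reducible] def vO (S : SFrob C) (x : C) : Bim S where
  X := S.A ⊗ (x ⊗ S.A)
  l := (α_ S.A S.A (x ⊗ S.A)).inv ≫ S.mul ▷ (x ⊗ S.A)
  r := (α_ S.A (x ⊗ S.A) S.A).hom ≫ S.A ◁ ((α_ x S.A S.A).hom ≫ x ◁ S.mul)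
  ll := by
    have h := congrArg (fun t => (α_ _ _ _).inv ≫ t ▷ (x ⊗ S.A)) S.assoc
    simp only [comp_whiskerRight] at h
    rw [associator_inv_naturality_left_assoc, h]
    monoidal
  rr := by
    have h : S.A ◁ S.mul ≫ S.mul = (α_ _ _ _).inv ≫ S.mul ▷ S.A ≫ S.mul := by rw [S.assoc]; simp
    have h' := congrArg (fun t => (α_ S.A (x ⊗ S.A) (S.A ⊗ S.A)).hom ≫ S.A ◁ ((α_ x S.A (S.A ⊗ S.A)).hom ≫ x ◁ t)) h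
    simp only [MonoidalCategory.whiskerLeft_comp] at h'
    calc _ = (α_ S.A (x ⊗ S.A) (S.A ⊗ S.A)).hom ≫ S.A ◁ (α_ x S.A (S.A ⊗ S.A)).hom ≫ S.A ◁ x ◁ S.A ◁ S.mul ≫
          S.A ◁ x ◁ S.mul := by monoidal
      _ = _ := by rw [h']; monoidal
  lr := by
    have h : (S.mul ▷ (x ⊗ S.A)) ▷ S.A ≫ (α_ S.A (x ⊗ S.A) S.A).hom ≫ S.A ◁ ((α_ x S.A S.A).hom ≫ x ◁ S.mul) =
        (α_ _ _ _).hom ≫ (S.A ⊗ S.A) ◁ ((α_ x S.A S.A).hom ≫ x ◁ S.mul) ≫ S.mul ▷ (x ⊗ S.A) := by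
      rw [whisker_exchange]
      simp
    rw [comp_whiskerRight, Category.assoc, h]
    monoidal
  uu := by
    have h1 := congrArg (fun t => t ▷ (x ⊗ S.A)) S.one_mul
    have h2 := congrArg (fun t => S.A ◁ x ◁ t) S.mul_one
    simp only [comp_whiskerRight] at h1
    simp only [MonoidalCategory.whiskerLeft_comp] at h2
    calc _ = (λ_ (S.A ⊗ (x ⊗ S.A))).inv ≫ (α_ _ _ _).inv ≫ (S.one ▷ S.A) ▷ (x ⊗ S.A) ≫ S.mul ▷ (x ⊗ S.A) := by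
          monoidal
      _ = 𝟙 _ := by rw [h1]; monoidal
      _ = (ρ_ (S.A ⊗ (x ⊗ S.A))).inv ≫ (α_ _ _ _).hom ≫ S.A ◁ (α_ _ _ _).hom ≫ (S.A ◁ x ◁ S.A ◁ S.one ≫
          S.A ◁ x ◁ S.mul) := by rw [h2]; monoidal
      _ = _ := by monoidal

@[simp] theorem vO_X (S : SFrob C) (x : C) : (vO S x).X = S.A ⊗ (x ⊗ S.A) := rfl

theorem vO_l (S : SFrob C) (x : C) : (vO S x).l = (α_ S.A S.A (x ⊗ S.A)).inv ≫ S.mul ▷ (x ⊗ S.A) := rfl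

theorem vO_r (S : SFrob C) (x : C) :
    (vO S x).r = (α_ S.A (x ⊗ S.A) S.A).hom ≫ S.A ◁ ((α_ x S.A S.A).hom ≫ x ◁ S.mul) := rfl

theorem vO_p (S : SFrob C) (x : C) : (vO S x).p = 𝟙 (S.A ⊗ (x ⊗ S.A)) := by
  have h1 := congrArg (fun t => t ▷ (x ⊗ S.A)) S.one_mul
  simp only [comp_whiskerRight] at h1
  show (λ_ (S.A ⊗ (x ⊗ S.A))).inv ≫ S.one ▷ (S.A ⊗ (x ⊗ S.A)) ≫ (α_ S.A S.A (x ⊗ S.A)).inv ≫ S.mul ▷ (x ⊗ S.A) =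
    𝟙 (S.A ⊗ (x ⊗ S.A))
  calc _ = (λ_ (S.A ⊗ (x ⊗ S.A))).inv ≫ (α_ _ _ _).inv ≫ (S.one ▷ S.A) ▷ (x ⊗ S.A) ≫ S.mul ▷ (x ⊗ S.A) := by
        monoidal
    _ = 𝟙 _ := by rw [h1]; monoidal

theorem vO_sL (S : SFrob C) (x : C) : (vO S x).sL = S.cm ▷ (x ⊗ S.A) ≫ (α_ _ _ _).hom := by
  show (λ_ (S.A ⊗ (x ⊗ S.A))).inv ≫ S.cp ▷ (S.A ⊗ (x ⊗ S.A)) ≫ (α_ S.A S.A (S.A ⊗ (x ⊗ S.A))).hom ≫
    S.A ◁ ((α_ S.A S.A (x ⊗ S.A)).inv ≫ S.mul ▷ (x ⊗ S.A)) = _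
  rw [← S.cp_r]
  simp only [comp_whiskerRight, MonoidalCategory.whiskerLeft_comp]
  monoidal

theorem vO_sR (S : SFrob C) (x : C) :
    (vO S x).sR = S.A ◁ (x ◁ S.cm ≫ (α_ _ _ _).inv) ≫ (α_ _ _ _).inv := by
  show (ρ_ (S.A ⊗ (x ⊗ S.A))).inv ≫ (S.A ⊗ (x ⊗ S.A)) ◁ S.cp ≫ (α_ (S.A ⊗ (x ⊗ S.A)) S.A S.A).inv ≫
    ((α_ S.A (x ⊗ S.A) S.A).hom ≫ S.A ◁ ((α_ x S.A S.A).hom ≫ x ◁ S.mul)) ▷ S.A = _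
  rw [← S.cp_l]
  simp only [comp_whiskerRight, MonoidalCategory.whiskerLeft_comp]
  monoidal

/-- the map `V f` -/
def vH (S : SFrob C) {x y : C} (f : x ⟶ y) : vO S x ⟶ vO S y where
  f := S.A ◁ f ▷ S.A
  hl := by
    show S.A ◁ (S.A ◁ f ▷ S.A) ≫ (α_ S.A S.A (y ⊗ S.A)).inv ≫ S.mul ▷ (y ⊗ S.A) =
      ((α_ S.A S.A (x ⊗ S.A)).inv ≫ S.mul ▷ (x ⊗ S.A)) ≫ S.A ◁ f ▷ S.A
    rw [Category.assoc, ← whisker_exchange]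
    simp
  hr := by
    show (S.A ◁ f ▷ S.A) ▷ S.A ≫ (α_ S.A (y ⊗ S.A) S.A).hom ≫ S.A ◁ ((α_ y S.A S.A).hom ≫ y ◁ S.mul) =
      ((α_ S.A (x ⊗ S.A) S.A).hom ≫ S.A ◁ ((α_ x S.A S.A).hom ≫ x ◁ S.mul)) ≫ S.A ◁ f ▷ S.A
    have h : (f ▷ S.A) ▷ S.A ≫ (α_ y S.A S.A).hom ≫ y ◁ S.mul = (α_ x S.A S.A).hom ≫ x ◁ S.mul ≫ f ▷ S.A := by
      rw [whisker_exchange]
      simp
    have h' := congrArg (fun t => (α_ S.A (x ⊗ S.A) S.A).hom ≫ S.A ◁ t) h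
    simp only [MonoidalCategory.whiskerLeft_comp] at h'
    simp only [MonoidalCategory.whiskerLeft_comp, Category.assoc]
    rw [← h']
    monoidal
  hp := by
    rw [vO_p]
    exact Category.comp_id _

@[simp] theorem vH_f (S : SFrob C) {x y : C} (f : x ⟶ y) : Bim.Hom.f (vH S f) = S.A ◁ f ▷ S.A := rfl

/-- the balancing idempotent of `V x ⊗ V y` is `mul ≫ cm` in the middle -/
theorem e_vO (S : SFrob C) (x y : C) : Bim.e (vO S x) (vO S y) =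
    (bt S x y).hom ≫ (S.A ⊗ x) ◁ (S.mul ≫ S.cm) ▷ (y ⊗ S.A) ≫ (bt S x y).inv := by
  rw [Bim.e, vO_sL]
  show (S.A ⊗ (x ⊗ S.A)) ◁ (S.cm ▷ (y ⊗ S.A) ≫ (α_ S.A S.A (y ⊗ S.A)).hom) ≫
    (α_ (S.A ⊗ (x ⊗ S.A)) S.A (S.A ⊗ (y ⊗ S.A))).inv ≫
    ((α_ S.A (x ⊗ S.A) S.A).hom ≫ S.A ◁ ((α_ x S.A S.A).hom ≫ x ◁ S.mul)) ▷ (S.A ⊗ (y ⊗ S.A)) = _
  rw [S.frobL]
  simp only [bt, Iso.trans_hom, Iso.trans_inv, whiskerRightIso_hom, whiskerRightIso_inv, whiskerLeftIso_hom,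
    whiskerLeftIso_inv, Iso.symm_hom, Iso.symm_inv, comp_whiskerRight, MonoidalCategory.whiskerLeft_comp]
  monoidal

end Pool.Agent.SFC
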