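import Pool.Agent.SFC.AVa

/-!
# SFC/AVb: the structure maps of the functor `V`

`vmu : V x ⊗ V y ⟶ V (x ⊗ y)` (`mul ≫ cn` in the middle), `vde : V (x ⊗ y) ⟶ V x ⊗ V y` (`cp` in the middle),
`vep : A ⟶ V 1` (`cm`), `vet : V 1 ⟶ A` (`mul`).
-/

set_option autoImplicit false

noncomputable section

open CategoryTheory MonoidalCategory

namespace Pool.Agent.SFC

universe v u

variable {C : Type u} [Category.{v} C] [MonoidalCategory C]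

/-- maps out of a tensor product -/
def Bim.homOut {S : SFrob C} {M N P : Bim S} (φ : M.X ⊗ N.X ⟶ P.X) (he : Bim.e M N ≫ φ = φ)
    (hl : S.A ◁ φ ≫ P.l = Bim.lt M N ≫ φ) (hr : φ ▷ S.A ≫ P.r = Bim.rt M N ≫ φ) (hp : φ ≫ P.p = φ) :
    Bim.ten M N ⟶ P where
  f := φ
  hl := by
    show S.A ◁ φ ≫ P.l = (Bim.lt M N ≫ Bim.e M N) ≫ φ
    rw [Category.assoc, he, hl]
  hr := by
    show φ ▷ S.A ≫ P.r = (Bim.rt M N ≫ Bim.e M N) ≫ φ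
    rw [Category.assoc, he, hr]
  hp := hp

/-- maps into a tensor product -/
def Bim.homIn {S : SFrob C} {M N P : Bim S} (ψ : P.X ⟶ M.X ⊗ N.X) (he : ψ ≫ Bim.e M N = ψ)
    (hl : S.A ◁ ψ ≫ Bim.lt M N = P.l ≫ ψ) (hr : ψ ▷ S.A ≫ Bim.rt M N = P.r ≫ ψ) :
    P ⟶ Bim.ten M N where
  f := ψ
  hl := by
    show S.A ◁ ψ ≫ Bim.lt M N ≫ Bim.e M N = P.l ≫ ψ
    rw [← Category.assoc, hl, Category.assoc, he]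
  hr := by
    show ψ ▷ S.A ≫ Bim.rt M N ≫ Bim.e M N = P.r ≫ ψ
    rw [← Category.assoc, hr, Category.assoc, he]
  hp := by
    rw [Bim.ten_p]
    exact he

@[simp] theorem Bim.homOut_f {S : SFrob C} {M N P : Bim S} (φ : M.X ⊗ N.X ⟶ P.X) (he : Bim.e M N ≫ φ = φ)
    (hl : S.A ◁ φ ≫ P.l = Bim.lt M N ≫ φ) (hr : φ ▷ S.A ≫ P.r = Bim.rt M N ≫ φ) (hp : φ ≫ P.p = φ) :
    Bim.Hom.f (Bim.homOut φ he hl hr hp) = φ := rfl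

@[simp] theorem Bim.homIn_f {S : SFrob C} {M N P : Bim S} (ψ : P.X ⟶ M.X ⊗ N.X) (he : ψ ≫ Bim.e M N = ψ)
    (hl : S.A ◁ ψ ≫ Bim.lt M N = P.l ≫ ψ) (hr : ψ ▷ S.A ≫ Bim.rt M N = P.r ≫ ψ) :
    Bim.Hom.f (Bim.homIn ψ he hl hr) = ψ := rfl

/-- `V x ⊗ V y ⟶ V (x ⊗ y)` -/
def vmu (S : SFrob C) (x y : C) : (S.A ⊗ (x ⊗ S.A)) ⊗ (S.A ⊗ (y ⊗ S.A)) ⟶ S.A ⊗ ((x ⊗ y) ⊗ S.A) :=
  (bt S x y).hom ≫ (S.A ⊗ x) ◁ ((S.mul ≫ S.cn) ▷ (y ⊗ S.A) ≫ (λ_ _).hom) ≫ (gm S x y).inv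

/-- `V (x ⊗ y) ⟶ V x ⊗ V y` -/
def vde (S : SFrob C) (x y : C) : S.A ⊗ ((x ⊗ y) ⊗ S.A) ⟶ (S.A ⊗ (x ⊗ S.A)) ⊗ (S.A ⊗ (y ⊗ S.A)) :=
  (gm S x y).hom ≫ (S.A ⊗ x) ◁ ((λ_ _).inv ≫ S.cp ▷ (y ⊗ S.A)) ≫ (bt S x y).inv

/-- `A ⟶ V 1` -/
def vep (S : SFrob C) : S.A ⟶ S.A ⊗ (𝟙_ C ⊗ S.A) := S.cm ≫ S.A ◁ (λ_ S.A).inv

/-- `V 1 ⟶ A` -/
def vet (S : SFrob C) : S.A ⊗ (𝟙_ C ⊗ S.A) ⟶ S.A := S.A ◁ (λ_ S.A).hom ≫ S.mul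

theorem e_vmu (S : SFrob C) (x y : C) : Bim.e (vO S x) (vO S y) ≫ vmu S x y = vmu S x y := by
  have h : (S.mul ≫ S.cm) ≫ (S.mul ≫ S.cn) = S.mul ≫ S.cn := by
    rw [Category.assoc, ← Category.assoc S.cm, S.sep, Category.id_comp]
  rw [e_vO]
  show ((bt S x y).hom ≫ (S.A ⊗ x) ◁ (S.mul ≫ S.cm) ▷ (y ⊗ S.A) ≫ (bt S x y).inv) ≫ (bt S x y).hom ≫
    (S.A ⊗ x) ◁ ((S.mul ≫ S.cn) ▷ (y ⊗ S.A) ≫ (λ_ _).hom) ≫ (gm S x y).inv = vmu S x y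
  rw [Category.assoc, Category.assoc, Iso.inv_hom_id_assoc, ← MonoidalCategory.whiskerLeft_comp_assoc,
    ← comp_whiskerRight_assoc, h, vmu]

theorem vde_e (S : SFrob C) (x y : C) : vde S x y ≫ Bim.e (vO S x) (vO S y) = vde S x y := by
  have h : S.cp ≫ (S.mul ≫ S.cm) = S.cp := by
    rw [SFrob.cp, Category.assoc, ← Category.assoc S.cm, S.sep, Category.id_comp]
  rw [e_vO]
  show ((gm S x y).hom ≫ (S.A ⊗ x) ◁ ((λ_ _).inv ≫ S.cp ▷ (y ⊗ S.A)) ≫ (bt S x y).inv) ≫ (bt S x y).hom ≫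
    (S.A ⊗ x) ◁ (S.mul ≫ S.cm) ▷ (y ⊗ S.A) ≫ (bt S x y).inv = vde S x y
  rw [Category.assoc, Category.assoc, Iso.inv_hom_id_assoc, ← MonoidalCategory.whiskerLeft_comp_assoc,
    Category.assoc, ← comp_whiskerRight, h, vde]

theorem vmu_l (S : SFrob C) (x y : C) :
    S.A ◁ vmu S x y ≫ (vO S (x ⊗ y)).l = Bim.lt (vO S x) (vO S y) ≫ vmu S x y := by
  show S.A ◁ vmu S x y ≫ (α_ S.A S.A ((x ⊗ y) ⊗ S.A)).inv ≫ S.mul ▷ ((x ⊗ y) ⊗ S.A) =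
    ((α_ S.A (S.A ⊗ (x ⊗ S.A)) (S.A ⊗ (y ⊗ S.A))).inv ≫ ((α_ S.A S.A (x ⊗ S.A)).inv ≫ S.mul ▷ (x ⊗ S.A)) ▷
      (S.A ⊗ (y ⊗ S.A))) ≫ vmu S x y
  have h := whisker_exchange (S.mul ▷ x) ((S.mul ≫ S.cn) ▷ (y ⊗ S.A) ≫ (λ_ _).hom)
  simp only [vmu, bt, gm, Iso.trans_hom, Iso.trans_inv, whiskerRightIso_hom, whiskerRightIso_inv, whiskerLeftIso_hom,
    whiskerLeftIso_inv, Iso.symm_hom, Iso.symm_inv]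
  calc _ = 𝟙 _ ⊗≫ (((S.A ⊗ S.A) ⊗ x) ◁ ((S.mul ≫ S.cn) ▷ (y ⊗ S.A) ≫ (λ_ _).hom) ≫
          (S.mul ▷ x) ▷ (y ⊗ S.A)) ⊗≫ 𝟙 _ := by monoidal
    _ = _ := by rw [h]; monoidal

theorem vmu_r (S : SFrob C) (x y : C) :
    vmu S x y ▷ S.A ≫ (vO S (x ⊗ y)).r = Bim.rt (vO S x) (vO S y) ≫ vmu S x y := by
  show vmu S x y ▷ S.A ≫ (α_ S.A ((x ⊗ y) ⊗ S.A) S.A).hom ≫ S.A ◁ ((α_ (x ⊗ y) S.A S.A).hom ≫ (x ⊗ y) ◁ S.mul) =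
    ((α_ (S.A ⊗ (x ⊗ S.A)) (S.A ⊗ (y ⊗ S.A)) S.A).hom ≫ (S.A ⊗ (x ⊗ S.A)) ◁ ((α_ S.A (y ⊗ S.A) S.A).hom ≫
      S.A ◁ ((α_ y S.A S.A).hom ≫ y ◁ S.mul))) ≫ vmu S x y
  have h := whisker_exchange (S.mul ≫ S.cn) (y ◁ S.mul)
  simp only [vmu, bt, gm, Iso.trans_hom, Iso.trans_inv, whiskerRightIso_hom, whiskerRightIso_inv, whiskerLeftIso_hom,
    whiskerLeftIso_inv, Iso.symm_hom, Iso.symm_inv]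
  calc _ = 𝟙 _ ⊗≫ (S.A ⊗ x) ◁ ((S.mul ≫ S.cn) ▷ (y ⊗ (S.A ⊗ S.A)) ≫ 𝟙_ C ◁ (y ◁ S.mul)) ⊗≫ 𝟙 _ := by monoidal
    _ = _ := by rw [← h]; monoidal

theorem vde_l (S : SFrob C) (x y : C) :
    S.A ◁ vde S x y ≫ Bim.lt (vO S x) (vO S y) = (vO S (x ⊗ y)).l ≫ vde S x y := by
  show S.A ◁ vde S x y ≫ (α_ S.A (S.A ⊗ (x ⊗ S.A)) (S.A ⊗ (y ⊗ S.A))).inv ≫
      ((α_ S.A S.A (x ⊗ S.A)).inv ≫ S.mul ▷ (x ⊗ S.A)) ▷ (S.A ⊗ (y ⊗ S.A)) =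
    ((α_ S.A S.A ((x ⊗ y) ⊗ S.A)).inv ≫ S.mul ▷ ((x ⊗ y) ⊗ S.A)) ≫ vde S x y
  have h := whisker_exchange (S.mul ▷ x) ((λ_ _).inv ≫ S.cp ▷ (y ⊗ S.A))
  simp only [vde, bt, gm, Iso.trans_hom, Iso.trans_inv, whiskerRightIso_hom, whiskerRightIso_inv, whiskerLeftIso_hom,
    whiskerLeftIso_inv, Iso.symm_hom, Iso.symm_inv]
  calc _ = 𝟙 _ ⊗≫ (((S.A ⊗ S.A) ⊗ x) ◁ ((λ_ _).inv ≫ S.cp ▷ (y ⊗ S.A)) ≫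
          (S.mul ▷ x) ▷ ((S.A ⊗ S.A) ⊗ (y ⊗ S.A))) ⊗≫ 𝟙 _ := by monoidal
    _ = _ := by rw [h]; monoidal

theorem vde_r (S : SFrob C) (x y : C) :
    vde S x y ▷ S.A ≫ Bim.rt (vO S x) (vO S y) = (vO S (x ⊗ y)).r ≫ vde S x y := by
  show vde S x y ▷ S.A ≫ (α_ (S.A ⊗ (x ⊗ S.A)) (S.A ⊗ (y ⊗ S.A)) S.A).hom ≫ (S.A ⊗ (x ⊗ S.A)) ◁
      ((α_ S.A (y ⊗ S.A) S.A).hom ≫ S.A ◁ ((α_ y S.A S.A).hom ≫ y ◁ S.mul)) =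
    ((α_ S.A ((x ⊗ y) ⊗ S.A) S.A).hom ≫ S.A ◁ ((α_ (x ⊗ y) S.A S.A).hom ≫ (x ⊗ y) ◁ S.mul)) ≫ vde S x y
  have h := whisker_exchange S.cp (y ◁ S.mul)
  simp only [vde, bt, gm, Iso.trans_hom, Iso.trans_inv, whiskerRightIso_hom, whiskerRightIso_inv, whiskerLeftIso_hom,
    whiskerLeftIso_inv, Iso.symm_hom, Iso.symm_inv]
  calc _ = 𝟙 _ ⊗≫ (S.A ⊗ x) ◁ (S.cp ▷ (y ⊗ (S.A ⊗ S.A)) ≫ (S.A ⊗ S.A) ◁ (y ◁ S.mul)) ⊗≫ 𝟙 _ := by monoidal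
    _ = _ := by rw [← h]; monoidal

/-- `μ` of the functor `V` -/
def vM (S : SFrob C) (x y : C) : Bim.ten (vO S x) (vO S y) ⟶ vO S (x ⊗ y) :=
  Bim.homOut (vmu S x y) (e_vmu S x y) (vmu_l S x y) (vmu_r S x y) (by rw [vO_p]; exact Category.comp_id _)

/-- `δ` of the functor `V` -/
def vD (S : SFrob C) (x y : C) : vO S (x ⊗ y) ⟶ Bim.ten (vO S x) (vO S y) :=
  Bim.homIn (vde S x y) (vde_e S x y) (vde_l S x y) (vde_r S x y)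

/-- `ε` of the functor `V` -/
def vE (S : SFrob C) : Bim.unt S ⟶ vO S (𝟙_ C) where
  f := vep S
  hl := by
    show S.A ◁ (S.cm ≫ S.A ◁ (λ_ S.A).inv) ≫ (α_ S.A S.A (𝟙_ C ⊗ S.A)).inv ≫ S.mul ▷ (𝟙_ C ⊗ S.A) =
      S.mul ≫ S.cm ≫ S.A ◁ (λ_ S.A).inv
    rw [← Category.assoc S.mul, S.frobL]
    have h := whisker_exchange S.mul (λ_ S.A).inv
    calc _ = 𝟙 _ ⊗≫ S.A ◁ S.cm ⊗≫ ((S.A ⊗ S.A) ◁ (λ_ S.A).inv ≫ S.mul ▷ (𝟙_ C ⊗ S.A)) := by monoidal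
      _ = _ := by rw [h]; monoidal
  hr := by
    show (S.cm ≫ S.A ◁ (λ_ S.A).inv) ▷ S.A ≫ (α_ S.A (𝟙_ C ⊗ S.A) S.A).hom ≫ S.A ◁ ((α_ (𝟙_ C) S.A S.A).hom ≫
      𝟙_ C ◁ S.mul) = S.mul ≫ S.cm ≫ S.A ◁ (λ_ S.A).inv
    rw [← Category.assoc S.mul, S.frobR]
    monoidal
  hp := by rw [vO_p]; exact Category.comp_id _

/-- `η` of the functor `V` -/
def vT (S : SFrob C) : vO S (𝟙_ C) ⟶ Bim.unt S where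
  f := vet S
  hl := by
    show S.A ◁ (S.A ◁ (λ_ S.A).hom ≫ S.mul) ≫ S.mul = ((α_ S.A S.A (𝟙_ C ⊗ S.A)).inv ≫ S.mul ▷ (𝟙_ C ⊗ S.A)) ≫
      S.A ◁ (λ_ S.A).hom ≫ S.mul
    have h0 : S.A ◁ S.mul ≫ S.mul = (α_ _ _ _).inv ≫ S.mul ▷ S.A ≫ S.mul := by rw [S.assoc]; simp
    have h := whisker_exchange S.mul (λ_ S.A).hom
    calc _ = S.A ◁ (S.A ◁ (λ_ S.A).hom) ≫ (S.A ◁ S.mul ≫ S.mul) := by monoidal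
      _ = 𝟙 _ ⊗≫ ((S.A ⊗ S.A) ◁ (λ_ S.A).hom ≫ S.mul ▷ S.A) ≫ S.mul := by rw [h0]; monoidal
      _ = _ := by rw [h]; monoidal
  hr := by
    show (S.A ◁ (λ_ S.A).hom ≫ S.mul) ▷ S.A ≫ S.mul = ((α_ S.A (𝟙_ C ⊗ S.A) S.A).hom ≫ S.A ◁ ((α_ (𝟙_ C) S.A S.A).hom ≫
      𝟙_ C ◁ S.mul)) ≫ S.A ◁ (λ_ S.A).hom ≫ S.mul
    calc _ = (S.A ◁ (λ_ S.A).hom) ▷ S.A ≫ (S.mul ▷ S.A ≫ S.mul) := by monoidal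
      _ = _ := by rw [S.assoc]; monoidal
  hp := by rw [Bim.unt_p]; exact Category.comp_id _

@[simp] theorem vM_f (S : SFrob C) (x y : C) : Bim.Hom.f (vM S x y) = vmu S x y := rfl
@[simp] theorem vD_f (S : SFrob C) (x y : C) : Bim.Hom.f (vD S x y) = vde S x y := rfl
@[simp] theorem vE_f (S : SFrob C) : Bim.Hom.f (vE S) = vep S := rfl
@[simp] theorem vT_f (S : SFrob C) : Bim.Hom.f (vT S) = vet S := rfl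

end Pool.Agent.SFC
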