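import Pool.Agent.SFC.AVb

/-!
# SFC/AVc: identities of the structure maps of `V` in `C`

Naturality, associativity, unit and Frobenius identities of `vmu`, `vde`, `vep`, `vet`, on the underlying objects.
-/

set_option autoImplicit false
set_option linter.unusedSimpArgs false

noncomputable section

open CategoryTheory MonoidalCategory

namespace Pool.Agent.SFC

universe v u

variable {C : Type u} [Category.{v} C] [MonoidalCategory C]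

theorem vmu_nl (S : SFrob C) {x y : C} (f : x ⟶ y) (z : C) :
    (S.A ◁ f ▷ S.A) ▷ (S.A ⊗ (z ⊗ S.A)) ≫ vmu S y z = vmu S x z ≫ S.A ◁ (f ▷ z) ▷ S.A := by
  have h := whisker_exchange (S.A ◁ f) ((S.mul ≫ S.cn) ▷ (z ⊗ S.A) ≫ (λ_ _).hom)
  simp only [vmu, bt, gm, Iso.trans_hom, Iso.trans_inv, whiskerRightIso_hom, whiskerRightIso_inv, whiskerLeftIso_hom,
    whiskerLeftIso_inv, Iso.symm_hom, Iso.symm_inv]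
  calc _ = 𝟙 _ ⊗≫ ((S.A ◁ f) ▷ ((S.A ⊗ S.A) ⊗ (z ⊗ S.A)) ≫
          (S.A ⊗ y) ◁ ((S.mul ≫ S.cn) ▷ (z ⊗ S.A) ≫ (λ_ _).hom)) ⊗≫ 𝟙 _ := by monoidal
    _ = _ := by rw [← h]; monoidal

theorem vmu_nr (S : SFrob C) (z : C) {x y : C} (f : x ⟶ y) :
    (S.A ⊗ (z ⊗ S.A)) ◁ (S.A ◁ f ▷ S.A) ≫ vmu S z y = vmu S z x ≫ S.A ◁ (z ◁ f) ▷ S.A := by
  have h := whisker_exchange (S.mul ≫ S.cn) (f ▷ S.A)
  simp only [vmu, bt, gm, Iso.trans_hom, Iso.trans_inv, whiskerRightIso_hom, whiskerRightIso_inv, whiskerLeftIso_hom,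
    whiskerLeftIso_inv, Iso.symm_hom, Iso.symm_inv]
  calc _ = 𝟙 _ ⊗≫ (S.A ⊗ z) ◁ ((S.A ⊗ S.A) ◁ (f ▷ S.A) ≫ (S.mul ≫ S.cn) ▷ (y ⊗ S.A)) ⊗≫ 𝟙 _ := by monoidal
    _ = _ := by rw [h]; monoidal

theorem vmu_assoc (S : SFrob C) (x y z : C) :
    vmu S x y ▷ (S.A ⊗ (z ⊗ S.A)) ≫ vmu S (x ⊗ y) z ≫ S.A ◁ (α_ x y z).hom ▷ S.A =
      (α_ _ _ _).hom ≫ (S.A ⊗ (x ⊗ S.A)) ◁ vmu S y z ≫ vmu S x (y ⊗ z) := by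
  have h := whisker_exchange (S.mul ≫ S.cn) (y ◁ ((S.mul ≫ S.cn) ▷ (z ⊗ S.A)))
  simp only [vmu, bt, gm, Iso.trans_hom, Iso.trans_inv, whiskerRightIso_hom, whiskerRightIso_inv, whiskerLeftIso_hom,
    whiskerLeftIso_inv, Iso.symm_hom, Iso.symm_inv]
  calc _ = 𝟙 _ ⊗≫ (S.A ⊗ x) ◁ ((S.mul ≫ S.cn) ▷ (y ⊗ ((S.A ⊗ S.A) ⊗ (z ⊗ S.A))) ≫
          𝟙_ C ◁ (y ◁ ((S.mul ≫ S.cn) ▷ (z ⊗ S.A)))) ⊗≫ 𝟙 _ := by monoidal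
    _ = _ := by rw [← h]; monoidal

theorem vmu_left (S : SFrob C) (x : C) :
    vep S ▷ (S.A ⊗ (x ⊗ S.A)) ≫ vmu S (𝟙_ C) x ≫ S.A ◁ (λ_ x).hom ▷ S.A = (vO S x).l := by
  have h : S.cm ▷ S.A ≫ (α_ _ _ _).hom ≫ S.A ◁ (S.mul ≫ S.cn) = S.mul ≫ (ρ_ _).inv := by
    rw [MonoidalCategory.whiskerLeft_comp, ← Category.assoc (α_ S.A S.A S.A).hom, ← Category.assoc (S.cm ▷ S.A),
      ← S.frobR, Category.assoc, S.cm_cn]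
  show _ = (α_ S.A S.A (x ⊗ S.A)).inv ≫ S.mul ▷ (x ⊗ S.A)
  simp only [vmu, vep, bt, gm, Iso.trans_hom, Iso.trans_inv, whiskerRightIso_hom, whiskerRightIso_inv,
    whiskerLeftIso_hom, whiskerLeftIso_inv, Iso.symm_hom, Iso.symm_inv]
  calc _ = 𝟙 _ ⊗≫ (S.cm ▷ S.A ≫ (α_ _ _ _).hom ≫ S.A ◁ (S.mul ≫ S.cn)) ▷ (x ⊗ S.A) ⊗≫ 𝟙 _ := by monoidal
    _ = _ := by rw [h]; monoidal

theorem vmu_right (S : SFrob C) (x : C) :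
    (S.A ⊗ (x ⊗ S.A)) ◁ vep S ≫ vmu S x (𝟙_ C) ≫ S.A ◁ (ρ_ x).hom ▷ S.A = (vO S x).r := by
  have h : S.A ◁ S.cm ≫ (α_ _ _ _).inv ≫ (S.mul ≫ S.cn) ▷ S.A = S.mul ≫ (λ_ _).inv := by
    rw [comp_whiskerRight, ← Category.assoc (α_ S.A S.A S.A).inv, ← Category.assoc (S.A ◁ S.cm),
      ← S.frobL, Category.assoc, S.cn_cm]
  have h1 := whisker_exchange (S.mul ≫ S.cn) (λ_ S.A).inv
  show _ = (α_ S.A (x ⊗ S.A) S.A).hom ≫ S.A ◁ ((α_ x S.A S.A).hom ≫ x ◁ S.mul)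
  simp only [vmu, vep, bt, gm, Iso.trans_hom, Iso.trans_inv, whiskerRightIso_hom, whiskerRightIso_inv,
    whiskerLeftIso_hom, whiskerLeftIso_inv, Iso.symm_hom, Iso.symm_inv]
  calc _ = 𝟙 _ ⊗≫ S.A ◁ x ◁ (S.A ◁ S.cm ≫ (α_ _ _ _).inv ≫ ((S.A ⊗ S.A) ◁ (λ_ S.A).inv ≫
          (S.mul ≫ S.cn) ▷ (𝟙_ C ⊗ S.A))) ⊗≫ 𝟙 _ := by monoidal
    _ = 𝟙 _ ⊗≫ S.A ◁ x ◁ (S.A ◁ S.cm ≫ (α_ _ _ _).inv ≫ (S.mul ≫ S.cn) ▷ S.A) ⊗≫ 𝟙 _ := by rw [h1]; monoidal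
    _ = _ := by rw [h]; monoidal

theorem vde_nl (S : SFrob C) {x y : C} (f : x ⟶ y) (z : C) :
    vde S x z ≫ (S.A ◁ f ▷ S.A) ▷ (S.A ⊗ (z ⊗ S.A)) = S.A ◁ (f ▷ z) ▷ S.A ≫ vde S y z := by
  have h := whisker_exchange (S.A ◁ f) ((λ_ _).inv ≫ S.cp ▷ (z ⊗ S.A))
  simp only [vde, bt, gm, Iso.trans_hom, Iso.trans_inv, whiskerRightIso_hom, whiskerRightIso_inv, whiskerLeftIso_hom,
    whiskerLeftIso_inv, Iso.symm_hom, Iso.symm_inv]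
  calc _ = 𝟙 _ ⊗≫ ((S.A ⊗ x) ◁ ((λ_ _).inv ≫ S.cp ▷ (z ⊗ S.A)) ≫
          (S.A ◁ f) ▷ ((S.A ⊗ S.A) ⊗ (z ⊗ S.A))) ⊗≫ 𝟙 _ := by monoidal
    _ = _ := by rw [h]; monoidal

theorem vde_nr (S : SFrob C) (z : C) {x y : C} (f : x ⟶ y) :
    vde S z x ≫ (S.A ⊗ (z ⊗ S.A)) ◁ (S.A ◁ f ▷ S.A) = S.A ◁ (z ◁ f) ▷ S.A ≫ vde S z y := by
  have h := whisker_exchange S.cp (f ▷ S.A)
  simp only [vde, bt, gm, Iso.trans_hom, Iso.trans_inv, whiskerRightIso_hom, whiskerRightIso_inv, whiskerLeftIso_hom,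
    whiskerLeftIso_inv, Iso.symm_hom, Iso.symm_inv]
  calc _ = 𝟙 _ ⊗≫ (S.A ⊗ z) ◁ (S.cp ▷ (x ⊗ S.A) ≫ (S.A ⊗ S.A) ◁ (f ▷ S.A)) ⊗≫ 𝟙 _ := by monoidal
    _ = _ := by rw [← h]; monoidal

theorem vde_coassoc (S : SFrob C) (x y z : C) :
    vde S (x ⊗ y) z ≫ vde S x y ▷ (S.A ⊗ (z ⊗ S.A)) ≫ (α_ _ _ _).hom =
      S.A ◁ (α_ x y z).hom ▷ S.A ≫ vde S x (y ⊗ z) ≫ (S.A ⊗ (x ⊗ S.A)) ◁ vde S y z := by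
  have h := whisker_exchange S.cp (y ◁ (S.cp ▷ (z ⊗ S.A)))
  simp only [vde, bt, gm, Iso.trans_hom, Iso.trans_inv, whiskerRightIso_hom, whiskerRightIso_inv, whiskerLeftIso_hom,
    whiskerLeftIso_inv, Iso.symm_hom, Iso.symm_inv]
  calc _ = 𝟙 _ ⊗≫ (S.A ⊗ x) ◁ (𝟙_ C ◁ (y ◁ (S.cp ▷ (z ⊗ S.A))) ≫
          S.cp ▷ (y ⊗ ((S.A ⊗ S.A) ⊗ (z ⊗ S.A)))) ⊗≫ 𝟙 _ := by monoidal
    _ = _ := by rw [h]; monoidal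

theorem vde_left (S : SFrob C) (x : C) :
    S.A ◁ (λ_ x).inv ▷ S.A ≫ vde S (𝟙_ C) x ≫ vet S ▷ (S.A ⊗ (x ⊗ S.A)) = (vO S x).sL := by
  rw [vO_sL, ← S.cp_l]
  simp only [vde, vet, bt, gm, Iso.trans_hom, Iso.trans_inv, whiskerRightIso_hom, whiskerRightIso_inv,
    whiskerLeftIso_hom, whiskerLeftIso_inv, Iso.symm_hom, Iso.symm_inv]
  monoidal

theorem vde_right (S : SFrob C) (x : C) :
    S.A ◁ (ρ_ x).inv ▷ S.A ≫ vde S x (𝟙_ C) ≫ (S.A ⊗ (x ⊗ S.A)) ◁ vet S = (vO S x).sR := by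
  rw [vO_sR, ← S.cp_r]
  have h1 := whisker_exchange S.cp (λ_ S.A).hom
  simp only [vde, vet, bt, gm, Iso.trans_hom, Iso.trans_inv, whiskerRightIso_hom, whiskerRightIso_inv,
    whiskerLeftIso_hom, whiskerLeftIso_inv, Iso.symm_hom, Iso.symm_inv]
  calc _ = 𝟙 _ ⊗≫ S.A ◁ x ◁ ((S.cp ▷ (𝟙_ C ⊗ S.A) ≫ (S.A ⊗ S.A) ◁ (λ_ S.A).hom) ⊗≫ S.A ◁ S.mul) ⊗≫ 𝟙 _ := by
        monoidal
    _ = _ := by rw [← h1]; monoidal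

theorem vfrob1 (S : SFrob C) (x y z : C) :
    vde S x y ▷ (S.A ⊗ (z ⊗ S.A)) ≫ (α_ _ _ _).hom ≫ (S.A ⊗ (x ⊗ S.A)) ◁ vmu S y z =
      vmu S (x ⊗ y) z ≫ S.A ◁ (α_ x y z).hom ▷ S.A ≫ vde S x (y ⊗ z) := by
  have h := whisker_exchange S.cp (y ◁ ((S.mul ≫ S.cn) ▷ (z ⊗ S.A)))
  simp only [vmu, vde, bt, gm, Iso.trans_hom, Iso.trans_inv, whiskerRightIso_hom, whiskerRightIso_inv,
    whiskerLeftIso_hom, whiskerLeftIso_inv, Iso.symm_hom, Iso.symm_inv]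
  calc _ = 𝟙 _ ⊗≫ (S.A ⊗ x) ◁ (S.cp ▷ (y ⊗ ((S.A ⊗ S.A) ⊗ (z ⊗ S.A))) ≫
          (S.A ⊗ S.A) ◁ (y ◁ ((S.mul ≫ S.cn) ▷ (z ⊗ S.A)))) ⊗≫ 𝟙 _ := by monoidal
    _ = _ := by rw [← h]; monoidal

theorem vfrob2 (S : SFrob C) (x y z : C) :
    (S.A ⊗ (x ⊗ S.A)) ◁ vde S y z ≫ (α_ _ _ _).inv ≫ vmu S x y ▷ (S.A ⊗ (z ⊗ S.A)) =
      vmu S x (y ⊗ z) ≫ S.A ◁ (α_ x y z).inv ▷ S.A ≫ vde S (x ⊗ y) z := by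
  have h := whisker_exchange (S.mul ≫ S.cn) (y ◁ (S.cp ▷ (z ⊗ S.A)))
  simp only [vmu, vde, bt, gm, Iso.trans_hom, Iso.trans_inv, whiskerRightIso_hom, whiskerRightIso_inv,
    whiskerLeftIso_hom, whiskerLeftIso_inv, Iso.symm_hom, Iso.symm_inv]
  calc _ = 𝟙 _ ⊗≫ (S.A ⊗ x) ◁ ((S.A ⊗ S.A) ◁ (y ◁ (S.cp ▷ (z ⊗ S.A))) ≫
          (S.mul ≫ S.cn) ▷ (y ⊗ ((S.A ⊗ S.A) ⊗ (z ⊗ S.A)))) ⊗≫ 𝟙 _ := by monoidal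
    _ = _ := by rw [h]; monoidal

theorem vep_vet (S : SFrob C) : vep S ≫ vet S = 𝟙 S.A := by
  rw [vep, vet, Category.assoc, ← MonoidalCategory.whiskerLeft_comp_assoc, Iso.inv_hom_id,
    MonoidalCategory.whiskerLeft_id, Category.id_comp, S.sep]

theorem vde_vmu (S : SFrob C) (x y : C) : vde S x y ≫ vmu S x y =
    (gm S x y).hom ≫ (S.A ⊗ x) ◁ ((λ_ _).inv ≫ (S.one ≫ S.cn) ▷ (y ⊗ S.A) ≫ (λ_ _).hom) ≫ (gm S x y).inv := by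
  have h : S.cp ≫ (S.mul ≫ S.cn) = S.one ≫ S.cn := by
    rw [SFrob.cp, Category.assoc, ← Category.assoc S.cm, S.sep, Category.id_comp]
  rw [vde, vmu, Category.assoc, Category.assoc, Iso.inv_hom_id_assoc, ← MonoidalCategory.whiskerLeft_comp_assoc,
    Category.assoc, ← comp_whiskerRight_assoc, h]

end Pool.Agent.SFC
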