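import Pool.Agent.SFC.Stm

/-!
# SFC/BDu: `V` preserves exact pairings

For a Frobenius monoidal functor `V` and an exact pairing `(x, y)` in `C`, `(V x, V y)` is an exact pairing with
coevaluation `ε ≫ V (coev) ≫ δ` and evaluation `μ ≫ V (ev) ≫ η`.

PLAN.  In Mathlib `ExactPairing x y` has `coevaluation' : 𝟙 ⟶ x ⊗ y`, `evaluation' : y ⊗ x ⟶ 𝟙`,
`coevaluation_evaluation' : y ◁ coev ≫ (α_ _ _ _).inv ≫ ev ▷ y = (ρ_ y).hom ≫ (λ_ y).inv` and
`evaluation_coevaluation' : coev ▷ x ≫ (α_ _ _ _).hom ≫ x ◁ ev = (λ_ x).hom ≫ (ρ_ x).inv`.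
Second identity for `V x`: `(ε ≫ V c ≫ δ) ▷ V x ≫ α ≫ V x ◁ (μ ≫ V e ≫ η)`.  By `G.frob1 x y x` the middle part
`δ x y ▷ V x ≫ α ≫ V x ◁ μ y x` is `μ (x ⊗ y) x ≫ V α ≫ δ x (y ⊗ x)`.  Then `V c ▷ V x ≫ μ = μ ≫ V (c ▷ x)`
(`μ_natural_left`), `δ ≫ V x ◁ V e = V (x ◁ e) ≫ δ` (`δ_natural_right`), so the composite is
`ε ▷ V x ≫ μ 𝟙 x ≫ V (c ▷ x ≫ α ≫ x ◁ e) ≫ δ x 𝟙 ≫ V x ◁ η`, and the zigzag identity of `C` and left unitality of `μ`, right
unitality of `δ` (`left_unitality`, `OplaxMonoidal.right_unitality`) finish.  First identity in the same way with `G.frob2`.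
-/

set_option autoImplicit false

noncomputable section

open CategoryTheory MonoidalCategory
open Functor.LaxMonoidal Functor.OplaxMonoidal

namespace Pool.Agent.SFC

universe v u v' u' w

variable {K : Type w} [Field K] {C : Type u} [Category.{v} C] [Preadditive C] [Linear K C] [MonoidalCategory C]
  {N : Type u'} [Category.{v'} N] [Preadditive N] [Linear K N] [MonoidalCategory N] {V : C ⥤ N} [V.LaxMonoidal]
  [V.OplaxMonoidal] {n : ℕ} [NeZero n]

private theorem BDu_two (G : GalF K V n) {x y : C} (e : ExactPairing x y) :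
    (ε V ≫ V.map e.coevaluation' ≫ δ V x y) ▷ V.obj x ≫ (α_ _ _ _).hom ≫
      V.obj x ◁ (μ V y x ≫ V.map e.evaluation' ≫ η V) = (λ_ (V.obj x)).hom ≫ (ρ_ (V.obj x)).inv := by
  have h1 := G.frob1 x y x
  have h2 := congrArg V.map e.evaluation_coevaluation'
  rw [V.map_comp, V.map_comp, V.map_comp] at h2
  calc (ε V ≫ V.map e.coevaluation' ≫ δ V x y) ▷ V.obj x ≫ (α_ _ _ _).hom ≫
      V.obj x ◁ (μ V y x ≫ V.map e.evaluation' ≫ η V)
      = ε V ▷ V.obj x ≫ V.map e.coevaluation' ▷ V.obj x ≫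
          (δ V x y ▷ V.obj x ≫ (α_ _ _ _).hom ≫ V.obj x ◁ μ V y x) ≫
            V.obj x ◁ V.map e.evaluation' ≫ V.obj x ◁ η V := by
        simp only [comp_whiskerRight, MonoidalCategory.whiskerLeft_comp, Category.assoc]
    _ = ε V ▷ V.obj x ≫ (V.map e.coevaluation' ▷ V.obj x ≫ μ V (x ⊗ y) x) ≫ V.map (α_ x y x).hom ≫
          (δ V x (y ⊗ x) ≫ V.obj x ◁ V.map e.evaluation') ≫ V.obj x ◁ η V := by
        rw [h1]
        simp only [Category.assoc]
    _ = ε V ▷ V.obj x ≫ μ V (𝟙_ C) x ≫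
          (V.map (e.coevaluation' ▷ x) ≫ V.map (α_ x y x).hom ≫ V.map (x ◁ e.evaluation')) ≫
            δ V x (𝟙_ C) ≫ V.obj x ◁ η V := by
        rw [μ_natural_left, δ_natural_right]
        simp only [Category.assoc]
    _ = (ε V ▷ V.obj x ≫ μ V (𝟙_ C) x ≫ V.map (λ_ x).hom) ≫
          (V.map (ρ_ x).inv ≫ δ V x (𝟙_ C) ≫ V.obj x ◁ η V) := by
        rw [h2]
        simp only [Category.assoc]
    _ = (λ_ (V.obj x)).hom ≫ (ρ_ (V.obj x)).inv := by
        rw [← Functor.LaxMonoidal.left_unitality, ← Functor.OplaxMonoidal.right_unitality]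

private theorem BDu_one (G : GalF K V n) {x y : C} (e : ExactPairing x y) :
    V.obj y ◁ (ε V ≫ V.map e.coevaluation' ≫ δ V x y) ≫ (α_ _ _ _).inv ≫
      (μ V y x ≫ V.map e.evaluation' ≫ η V) ▷ V.obj y = (ρ_ (V.obj y)).hom ≫ (λ_ (V.obj y)).inv := by
  have h1 := G.frob2 y x y
  have h2 := congrArg V.map e.coevaluation_evaluation'
  rw [V.map_comp, V.map_comp, V.map_comp] at h2
  calc V.obj y ◁ (ε V ≫ V.map e.coevaluation' ≫ δ V x y) ≫ (α_ _ _ _).inv ≫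
      (μ V y x ≫ V.map e.evaluation' ≫ η V) ▷ V.obj y
      = V.obj y ◁ ε V ≫ V.obj y ◁ V.map e.coevaluation' ≫
          (V.obj y ◁ δ V x y ≫ (α_ _ _ _).inv ≫ μ V y x ▷ V.obj y) ≫
            V.map e.evaluation' ▷ V.obj y ≫ η V ▷ V.obj y := by
        simp only [comp_whiskerRight, MonoidalCategory.whiskerLeft_comp, Category.assoc]
    _ = V.obj y ◁ ε V ≫ (V.obj y ◁ V.map e.coevaluation' ≫ μ V y (x ⊗ y)) ≫ V.map (α_ y x y).inv ≫
          (δ V (y ⊗ x) y ≫ V.map e.evaluation' ▷ V.obj y) ≫ η V ▷ V.obj y := by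
        rw [h1]
        simp only [Category.assoc]
    _ = V.obj y ◁ ε V ≫ μ V y (𝟙_ C) ≫
          (V.map (y ◁ e.coevaluation') ≫ V.map (α_ y x y).inv ≫ V.map (e.evaluation' ▷ y)) ≫
            δ V (𝟙_ C) y ≫ η V ▷ V.obj y := by
        rw [μ_natural_right, δ_natural_left]
        simp only [Category.assoc]
    _ = (V.obj y ◁ ε V ≫ μ V y (𝟙_ C) ≫ V.map (ρ_ y).hom) ≫
          (V.map (λ_ y).inv ≫ δ V (𝟙_ C) y ≫ η V ▷ V.obj y) := by
        rw [h2]
        simp only [Category.assoc]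
    _ = (ρ_ (V.obj y)).hom ≫ (λ_ (V.obj y)).inv := by
        rw [← Functor.LaxMonoidal.right_unitality, ← Functor.OplaxMonoidal.left_unitality]

theorem pair_V (G : GalF K V n) {x y : C} (e : ExactPairing x y) : Nonempty (ExactPairing (V.obj x) (V.obj y)) :=
  ⟨{ coevaluation' := ε V ≫ V.map e.coevaluation' ≫ δ V x y
     evaluation' := μ V y x ≫ V.map e.evaluation' ≫ η V
     coevaluation_evaluation' := BDu_one G e
     evaluation_coevaluation' := BDu_two G e }⟩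

end Pool.Agent.SFC
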