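import Pool.Agent.SFC.Stm
import Pool.Agent.NFG.Mul

/-!
# SFC/BFa: semisimple categories: dimensions of Hom spaces, regularity

All from `Fus.dec`, `Fus.schur`, `Fus.hom_zero` and the lemmas of `Pool.Agent.NFG.SemA` (`fin_hom`, `dual_basis`, `exists_retract`, ..)
and `finrank_dual` of `Pool.Agent.NFG.Mul`.
`fus_fd`: `Hom (Z, W)` embeds in `∏ a, Hom (S (k a), W)` by `f ↦ (j a ≫ f)` (`Z` decomposed by `dec`).
`fus_finrank`: with the dual bases `b m` of `Hom (S m, W)`, `g m` of `Hom (W, S m)` (`dual_basis`, `∑ g m i ≫ b m i = 𝟙 W`), the map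
`f ↦ (f ≫ g m i)` is a linear isomorphism `Hom (Z, W) ≃ ∏ m, Hom (Z, S m) ^ (n m)`.
`fus_symm`: from `fus_finrank` twice and `finrank_dual`.
`fus_reg`: decompose `Z`, `W` in `dual_basis` form: `f` is a family of matrices `M m` over `K` (`b m i ≫ f ≫ g' m j = M m i j • 𝟙`); each
matrix has a generalized inverse (`∃ B, A * B * A = A`: for a linear map `A : V → W` of finite dimensional spaces choose complements;
`LinearMap.exists_rightInverse_of_surjective`, `Submodule.exists_isCompl`, or `Module.projective_lifting_property`).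
-/

set_option autoImplicit false

noncomputable section

open CategoryTheory MonoidalCategory

namespace Pool.Agent.SFC

open Pool.Agent.NFG

universe v u w

variable {K : Type w} [Field K] {C : Type u} [Category.{v} C] [Preadditive C] [Linear K C] [MonoidalCategory C]
  [MonoidalPreadditive C] [MonoidalLinear K C]
  {ι : Type} [Fintype ι] [DecidableEq ι]

theorem fus_fd (F : Fus K C ι) (Z W : C) : FiniteDimensional K (Z ⟶ W) := by
  obtain ⟨n, k, p, j, -, -, h3⟩ := F.dec Z
  haveI hfin : ∀ a, FiniteDimensional K (F.S (k a) ⟶ W) := fun a => fin_hom F W (k a)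
  obtain ⟨φ, hφ⟩ : ∃ φ : (Z ⟶ W) →ₗ[K] (∀ a, F.S (k a) ⟶ W), ∀ f a, φ f a = j a ≫ f :=
    ⟨{ toFun := fun f a => j a ≫ f
       map_add' := fun f g => funext fun a => Preadditive.comp_add _ _ _ _ _ _
       map_smul' := fun c f => funext fun a => Linear.comp_smul _ _ _ _ _ _ }, fun _ _ => rfl⟩
  refine FiniteDimensional.of_injective φ fun f g hfg => ?_
  rw [← Category.id_comp f, ← Category.id_comp g, ← h3, Preadditive.sum_comp, Preadditive.sum_comp]
  refine Finset.sum_congr rfl fun a _ => ?_
  rw [Category.assoc, Category.assoc, ← hφ f a, ← hφ g a, hfg]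

private theorem BFa_basis (F : Fus K C ι) (W : C) :
    ∃ (b : ∀ m, Module.Basis (Fin (Module.finrank K (F.S m ⟶ W))) K (F.S m ⟶ W))
      (g : ∀ m, Fin (Module.finrank K (F.S m ⟶ W)) → (W ⟶ F.S m)),
      (∀ m i j, b m i ≫ g m j = if i = j then 𝟙 (F.S m) else 0) ∧ ∑ m, ∑ i, g m i ≫ b m i = 𝟙 W := by
  haveI : ∀ m, FiniteDimensional K (F.S m ⟶ W) := fun m => fin_hom F W m
  obtain ⟨g, hg⟩ := dual_basis F W (fun m => Module.finrank K (F.S m ⟶ W))
    (fun m => Module.finBasis K (F.S m ⟶ W))
  exact ⟨_, g, hg⟩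

theorem fus_finrank (F : Fus K C ι) (Z W : C) :
    Module.finrank K (Z ⟶ W) = ∑ m, Module.finrank K (Z ⟶ F.S m) * Module.finrank K (F.S m ⟶ W) := by
  obtain ⟨b, g, hg1, hg2⟩ := BFa_basis F W
  haveI : ∀ m, FiniteDimensional K (Z ⟶ F.S m) := fun m => fus_fd F Z (F.S m)
  let e : (Z ⟶ W) ≃ₗ[K] (∀ m, Fin (Module.finrank K (F.S m ⟶ W)) → (Z ⟶ F.S m)) :=
    { toFun := fun f m i => f ≫ g m i
      map_add' := fun f f' => funext fun m => funext fun i => Preadditive.add_comp _ _ _ _ _ _
      map_smul' := fun c f => funext fun m => funext fun i => Linear.smul_comp _ _ _ _ _ _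
      invFun := fun h => ∑ m, ∑ i, h m i ≫ b m i
      left_inv := fun f => by
        show ∑ m, ∑ i, (f ≫ g m i) ≫ b m i = f
        conv_rhs => rw [← Category.comp_id f, ← hg2, Preadditive.comp_sum]
        refine Finset.sum_congr rfl fun m _ => ?_
        rw [Preadditive.comp_sum]
        exact Finset.sum_congr rfl fun i _ => Category.assoc _ _ _
      right_inv := fun h => by
        funext m i
        show (∑ m', ∑ i', h m' i' ≫ b m' i') ≫ g m i = h m i
        rw [Preadditive.sum_comp, Finset.sum_eq_single m]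
        · rw [Preadditive.sum_comp, Finset.sum_eq_single i]
          · rw [Category.assoc, hg1, if_pos rfl, Category.comp_id]
          · intro i' _ hi
            rw [Category.assoc, hg1, if_neg hi, Limits.comp_zero]
          · intro hi
            exact absurd (Finset.mem_univ i) hi
        · intro m' _ hm
          rw [Preadditive.sum_comp]
          refine Finset.sum_eq_zero fun i' _ => ?_
          rw [Category.assoc, comp_zero' F hm, Limits.comp_zero]
        · intro hm
          exact absurd (Finset.mem_univ m) hm }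
  rw [e.finrank_eq, Module.finrank_pi_fintype]
  refine Finset.sum_congr rfl fun m _ => ?_
  rw [Module.finrank_pi_fintype, Finset.sum_const, Finset.card_univ, Fintype.card_fin,
    smul_eq_mul, mul_comm]

theorem fus_symm (F : Fus K C ι) (Z W : C) : Module.finrank K (Z ⟶ W) = Module.finrank K (W ⟶ Z) := by
  rw [fus_finrank F Z W, fus_finrank F W Z]
  refine Finset.sum_congr rfl fun m _ => ?_
  rw [finrank_dual F Z m, finrank_dual F W m, mul_comm]

private theorem BFa_ginv {V V' : Type v} [AddCommGroup V] [Module K V] [AddCommGroup V']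
    [Module K V'] (T : V →ₗ[K] V') : ∃ U : V' →ₗ[K] V, ∀ x, T (U (T x)) = T x := by
  obtain ⟨R, hR⟩ := T.rangeRestrict.exists_rightInverse_of_surjective T.range_rangeRestrict
  obtain ⟨L, hL⟩ := (LinearMap.range T).subtype.exists_leftInverse_of_injective
    (Submodule.ker_subtype _)
  refine ⟨R.comp L, fun x => ?_⟩
  have h1 : L (T x) = T.rangeRestrict x := by
    have := LinearMap.congr_fun hL (T.rangeRestrict x)
    exact this
  have h2 := LinearMap.congr_fun hR (T.rangeRestrict x)
  rw [LinearMap.comp_apply, h1]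
  have h3 := congrArg Subtype.val h2
  exact h3

theorem fus_reg (F : Fus K C ι) {Z W : C} (f : Z ⟶ W) : ∃ g : W ⟶ Z, f ≫ g ≫ f = f := by
  obtain ⟨b, g, hg1, hg2⟩ := BFa_basis F W
  have hU : ∀ m, ∃ U : (F.S m ⟶ W) →ₗ[K] (F.S m ⟶ Z), ∀ x : F.S m ⟶ Z, U (x ≫ f) ≫ f = x ≫ f := by
    intro m
    obtain ⟨U, hU⟩ := BFa_ginv (K := K) ({ toFun := fun x => x ≫ f
                                           map_add' := fun x y => Preadditive.add_comp _ _ _ _ _ _
                                           map_smul' := fun c x => Linear.smul_comp _ _ _ _ _ _ } :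
      (F.S m ⟶ Z) →ₗ[K] (F.S m ⟶ W))
    exact ⟨U, hU⟩
  choose U hU using hU
  refine ⟨∑ m, ∑ i, g m i ≫ U m (b m i), ?_⟩
  have key : ∀ (m : ι) (h : F.S m ⟶ W), h ≫ (∑ m, ∑ i, g m i ≫ U m (b m i)) = U m h := by
    intro m h
    rw [Preadditive.comp_sum, Finset.sum_eq_single m]
    · have h1 : ∀ i, h ≫ g m i = (b m).repr h i • 𝟙 (F.S m) := by
        intro i
        conv_lhs => rw [← (b m).sum_repr h]
        rw [Preadditive.sum_comp, Finset.sum_eq_single i]
        · rw [Linear.smul_comp, hg1 m i i, if_pos rfl]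
        · intro l _ hl
          rw [Linear.smul_comp, hg1 m l i, if_neg hl, smul_zero]
        · intro hi
          exact absurd (Finset.mem_univ i) hi
      rw [Preadditive.comp_sum]
      conv_rhs => rw [← (b m).sum_repr h]
      rw [map_sum]
      refine Finset.sum_congr rfl fun i _ => ?_
      rw [← Category.assoc, h1 i, Linear.smul_comp, Category.id_comp, map_smul]
    · intro m' _ hm
      rw [Preadditive.comp_sum]
      refine Finset.sum_eq_zero fun i _ => ?_
      rw [← Category.assoc, comp_zero' F (fun e => hm e.symm), Limits.zero_comp]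
    · intro hm
      exact absurd (Finset.mem_univ m) hm
  refine ext_left F fun m h => ?_
  rw [← Category.assoc, ← Category.assoc, key m (h ≫ f)]
  exact hU m h

/-- a nonzero object has a nonzero morphism to a simple object -/
theorem fus_ne (F : Fus K C ι) {Z : C} (h : 𝟙 Z ≠ 0) : ∃ (m : ι) (f : Z ⟶ F.S m), f ≠ 0 := by
  obtain ⟨m, f, hf⟩ := exists_ne_zero F h
  obtain ⟨g, hg⟩ := exists_retract F hf
  refine ⟨m, g, ?_⟩
  rintro rfl
  rw [Limits.comp_zero] at hg
  exact F.one_ne m hg.symm

end Pool.Agent.SFC
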