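import Pool.Agent.SFC.BFb
import Pool.Agent.SFC.BDu
import Pool.Agent.SFC.BGc

/-!
# SFC/BDa: dimensions of bimodules

`fN G F f Z = (1/n) ∑ k, f k * dim Hom (V (S k), Z)`.
`fN_V`: `dim Hom (V (S k), V x) = dim Hom (S k, A ⊗ (x ⊗ A))` (`G.HH`), so `fN (V x) = (1/n) * fo (A ⊗ (x ⊗ A)) = (1/n) * fo A ^ 2 * fo x`, and
`fo A = ∑ a, fo (T a) = n` (`fo_add`, `fo_gl`, `thA`).
`hom_V`: `dim Hom (V y, Z) = ∑ l, dim Hom (S l, y) * dim Hom (V (S l), Z)` (decompose `y` by `dec`, apply `V`).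
`fN_VZ`: let `(x', x)` be an exact pairing in `C` (`Rig C`), so `(V x', V x)` is one in `N` (`pair_V`).
`dim Hom (V (S k), V x ⊗ Z) = dim Hom (V x' ⊗ V (S k), Z)` (adjunction: for an exact pairing `(X', X)`, `Hom (X' ⊗ Y, Z) ≃ Hom (Y, X ⊗ Z)`, Mathlib `tensorLeftHomEquiv`),
`= dim Hom (V (x' ⊗ (A ⊗ S k)), Z)` (`G.VV`) `= ∑ l, dim Hom (S l, x' ⊗ (A ⊗ S k)) * dim Hom (V (S l), Z)`.  And
`∑ k, f k * dim Hom (S l, x' ⊗ (A ⊗ S k)) = ∑ k, f k * dim Hom (A' ⊗ (x ⊗ S l), S k)` (adjunctions in `C`; `(A', A)`, `(x'', x')` dual pairs, `fus_symm`) `= fo (A' ⊗ (x'' ⊗ S l))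
= fo A * fo x * f l` (`fo_dual`, `fo_tensor`).  So `fN (V x ⊗ Z) = n * fo x * fN Z`.
(Use the direction of the pairings which fits; `Rig C` gives left and right duals of every object, and `fo` of all of them is `fo x`.)
-/

set_option autoImplicit false

noncomputable section

open CategoryTheory MonoidalCategory

namespace Pool.Agent.SFC

open Pool.Agent.NFG

universe v u v' u' w

variable {K : Type w} [Field K] {C : Type u} [Category.{v} C] [Preadditive C] [Linear K C] [MonoidalCategory C]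
  [MonoidalPreadditive C] [MonoidalLinear K C] {N : Type u'} [Category.{v'} N] [Preadditive N] [Linear K N]
  [MonoidalCategory N] [MonoidalPreadditive N] [MonoidalLinear K N] {V : C ⥤ N} [V.LaxMonoidal] [V.OplaxMonoidal]
  {n : ℕ} [NeZero n] {ι : Type} [Fintype ι] [DecidableEq ι]

/-- the dimension of an object of `N` -/
def fN (G : GalF K V n) (F : Fus K C ι) (f : ι → ℝ) (Z : N) : ℝ :=
  (n : ℝ)⁻¹ * ∑ k, f k * (Module.finrank K (V.obj (F.S k) ⟶ Z) : ℝ)

private theorem BDa_foA (G : GalF K V n) {F : Fus K C ι} {f : ι → ℝ} (hf : IsFPdim F f) : fo F f G.A = n := by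
  rw [fo_add F f G.thA.T G.qA G.iA G.iqA G.orthA G.sumA]
  rw [Finset.sum_congr rfl fun a _ => fo_gl hf G.thA a, Finset.sum_const, Finset.card_univ, ZMod.card,
    nsmul_eq_mul, mul_one]

/-- the adjunction of an exact pairing, as a linear isomorphism -/
private theorem BDa_adj {M : Type u'} [Category.{v'} M] [Preadditive M] [Linear K M] [MonoidalCategory M]
    [MonoidalPreadditive M] [MonoidalLinear K M] {Y Y' : M} (e : ExactPairing Y Y') (X Z : M) :
    Module.finrank K (Y' ⊗ X ⟶ Z) = Module.finrank K (X ⟶ Y ⊗ Z) := by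
  letI := e
  let Φ : (Y' ⊗ X ⟶ Z) ≃ₗ[K] (X ⟶ Y ⊗ Z) :=
    { tensorLeftHomEquiv X Y Y' Z with
      map_add' := fun f g => by
        change (λ_ _).inv ≫ η_ _ _ ▷ _ ≫ (α_ _ _ _).hom ≫ _ ◁ (f + g) =
          ((λ_ _).inv ≫ η_ _ _ ▷ _ ≫ (α_ _ _ _).hom ≫ _ ◁ f) + ((λ_ _).inv ≫ η_ _ _ ▷ _ ≫ (α_ _ _ _).hom ≫ _ ◁ g)
        rw [MonoidalPreadditive.whiskerLeft_add]
        simp only [Preadditive.comp_add]
      map_smul' := fun c f => by
        change (λ_ _).inv ≫ η_ _ _ ▷ _ ≫ (α_ _ _ _).hom ≫ _ ◁ (c • f) =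
          c • ((λ_ _).inv ≫ η_ _ _ ▷ _ ≫ (α_ _ _ _).hom ≫ _ ◁ f)
        rw [MonoidalLinear.whiskerLeft_smul]
        simp only [Linear.comp_smul] }
  exact Φ.finrank_eq

private theorem BDa_iso {M : Type u'} [Category.{v'} M] [Preadditive M] [Linear K M] {X X' : M} (e : X ≅ X') (Z : M) :
    Module.finrank K (X ⟶ Z) = Module.finrank K (X' ⟶ Z) :=
  (Linear.homCongr K e (Iso.refl Z)).finrank_eq

theorem fN_V (G : GalF K V n) {F : Fus K C ι} {f : ι → ℝ} (hf : IsFPdim F f) (x : C) :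
    fN G F f (V.obj x) = n * fo F f x := by
  have hn : (n : ℝ) ≠ 0 := Nat.cast_ne_zero.2 (NeZero.ne n)
  have h1 : ∑ k, f k * (Module.finrank K (V.obj (F.S k) ⟶ V.obj x) : ℝ) = fo F f (G.A ⊗ (x ⊗ G.A)) := by
    unfold fo
    refine Finset.sum_congr rfl fun k _ => ?_
    obtain ⟨e⟩ := G.HH (F.S k) x
    rw [e.finrank_eq]
  rw [fN, h1, fo_tensor hf, fo_tensor hf, BDa_foA G hf]
  field_simp

theorem hom_V (G : GalF K V n) (F : Fus K C ι) (y : C) (Z : N) : Module.finrank K (V.obj y ⟶ Z) =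
    ∑ l, Module.finrank K (F.S l ⟶ y) * Module.finrank K (V.obj (F.S l) ⟶ Z) := by
  have hfin : ∀ m, FiniteDimensional K (F.S m ⟶ y) := fun m => fin_hom F y m
  obtain ⟨g, hg1, hg2⟩ := dual_basis F y (fun m => Module.finrank K (F.S m ⟶ y))
    (fun m => Module.finBasis K (F.S m ⟶ y))
  set b : ∀ m, Module.Basis (Fin (Module.finrank K (F.S m ⟶ y))) K (F.S m ⟶ y) :=
    fun m => Module.finBasis K (F.S m ⟶ y) with hb
  have hfin2 : ∀ m, FiniteDimensional K (V.obj (F.S m) ⟶ Z) := fun m => (gal_reg G F).fd _ _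
  have hz : ∀ x x' : C, V.map (0 : x ⟶ x') = 0 := fun x x' =>
    map_zero (AddMonoidHom.mk' (fun g : x ⟶ x' => V.map g) (fun g h => G.map_add g h))
  have hV : ∑ m, ∑ i, V.map (g m i) ≫ V.map (b m i) = 𝟙 (V.obj y) := by
    rw [← V.map_id, ← hg2]
    have hs := map_sum (AddMonoidHom.mk' (fun g : y ⟶ y => V.map g) (fun g h => G.map_add g h))
      (fun m => ∑ i, g m i ≫ b m i) Finset.univ
    refine Eq.trans ?_ hs.symm
    refine Finset.sum_congr rfl fun m _ => ?_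
    refine Eq.trans ?_ (map_sum (AddMonoidHom.mk' (fun g : y ⟶ y => V.map g) (fun g h => G.map_add g h))
      (fun i => g m i ≫ b m i) Finset.univ).symm
    exact Finset.sum_congr rfl fun i _ => (V.map_comp _ _).symm
  let e : (V.obj y ⟶ Z) ≃ₗ[K] (∀ m, Fin (Module.finrank K (F.S m ⟶ y)) → (V.obj (F.S m) ⟶ Z)) :=
    { toFun := fun f m i => V.map (b m i) ≫ f
      map_add' := fun f f' => funext fun m => funext fun i => Preadditive.comp_add _ _ _ _ _ _
      map_smul' := fun c f => funext fun m => funext fun i => Linear.comp_smul _ _ _ _ _ _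
      invFun := fun h => ∑ m, ∑ i, V.map (g m i) ≫ h m i
      left_inv := fun f => by
        change ∑ m, ∑ i, V.map (g m i) ≫ V.map (b m i) ≫ f = f
        conv_rhs => rw [← Category.id_comp f, ← hV, Preadditive.sum_comp]
        refine Finset.sum_congr rfl fun m _ => ?_
        rw [Preadditive.sum_comp]
        exact Finset.sum_congr rfl fun i _ => (Category.assoc _ _ _).symm
      right_inv := fun h => by
        funext m i
        change V.map (b m i) ≫ (∑ m', ∑ i', V.map (g m' i') ≫ h m' i') = h m i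
        rw [Preadditive.comp_sum, Finset.sum_eq_single m]
        · rw [Preadditive.comp_sum, Finset.sum_eq_single i]
          · rw [← Category.assoc, ← V.map_comp, hg1, if_pos rfl, V.map_id, Category.id_comp]
          · intro i' _ hi
            rw [← Category.assoc, ← V.map_comp, hg1, if_neg (fun h => hi h.symm), hz, Limits.zero_comp]
          · intro hi
            exact absurd (Finset.mem_univ i) hi
        · intro m' _ hm
          rw [Preadditive.comp_sum]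
          refine Finset.sum_eq_zero fun i' _ => ?_
          rw [← Category.assoc, ← V.map_comp, F.hom_zero m m' (fun h => hm h.symm) (b m i ≫ g m' i'), hz,
            Limits.zero_comp]
        · intro hm
          exact absurd (Finset.mem_univ m) hm }
  rw [e.finrank_eq, Module.finrank_pi_fintype]
  refine Finset.sum_congr rfl fun m _ => ?_
  rw [Module.finrank_pi_fintype, Finset.sum_const, Finset.card_univ, Fintype.card_fin, smul_eq_mul]

theorem fN_VZ (G : GalF K V n) (hC : Rig C) {F : Fus K C ι} {f : ι → ℝ} (hf : IsFPdim F f) (x : C) (Z : N) :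
    fN G F f (V.obj x ⊗ Z) = n * fo F f x * fN G F f Z := by
  obtain ⟨x', ⟨e1⟩⟩ := (hC x).1
  obtain ⟨x'', ⟨e2⟩⟩ := (hC x').1
  obtain ⟨A', ⟨e3⟩⟩ := (hC G.A).1
  obtain ⟨eV⟩ := pair_V G e1
  have h1 : ∀ k, Module.finrank K (V.obj (F.S k) ⟶ V.obj x ⊗ Z) =
      ∑ l, Module.finrank K (F.S k ⟶ A' ⊗ (x'' ⊗ F.S l)) * Module.finrank K (V.obj (F.S l) ⟶ Z) := by
    intro k
    obtain ⟨i⟩ := G.VV x' (F.S k)
    rw [← BDa_adj eV, BDa_iso i Z, hom_V G F]
    refine Finset.sum_congr rfl fun l _ => ?_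
    rw [← BDa_adj e2, ← BDa_adj e3, fus_symm F]
  have h2 : ∀ l, ∑ k, f k * (Module.finrank K (F.S k ⟶ A' ⊗ (x'' ⊗ F.S l)) : ℝ) = n * fo F f x * f l := by
    intro l
    have h3 : ∑ k, f k * (Module.finrank K (F.S k ⟶ A' ⊗ (x'' ⊗ F.S l)) : ℝ) = fo F f (A' ⊗ (x'' ⊗ F.S l)) := rfl
    rw [h3, fo_tensor hf, fo_tensor hf, fo_S, fo_dual hf e3, BDa_foA G hf, fo_dual hf e2, fo_dual hf e1]
    ring
  have h4 : ∑ k, f k * (Module.finrank K (V.obj (F.S k) ⟶ V.obj x ⊗ Z) : ℝ) =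
      n * fo F f x * ∑ l, f l * (Module.finrank K (V.obj (F.S l) ⟶ Z) : ℝ) := by
    calc ∑ k, f k * (Module.finrank K (V.obj (F.S k) ⟶ V.obj x ⊗ Z) : ℝ)
        = ∑ k, ∑ l, f k * (Module.finrank K (F.S k ⟶ A' ⊗ (x'' ⊗ F.S l)) : ℝ) *
            (Module.finrank K (V.obj (F.S l) ⟶ Z) : ℝ) := by
          refine Finset.sum_congr rfl fun k _ => ?_
          rw [h1 k]
          push_cast
          rw [Finset.mul_sum]
          exact Finset.sum_congr rfl fun l _ => by ring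
      _ = ∑ l, (∑ k, f k * (Module.finrank K (F.S k ⟶ A' ⊗ (x'' ⊗ F.S l)) : ℝ)) *
            (Module.finrank K (V.obj (F.S l) ⟶ Z) : ℝ) := by
          rw [Finset.sum_comm]
          exact Finset.sum_congr rfl fun l _ => (Finset.sum_mul _ _ _).symm
      _ = n * fo F f x * ∑ l, f l * (Module.finrank K (V.obj (F.S l) ⟶ Z) : ℝ) := by
          rw [Finset.mul_sum]
          refine Finset.sum_congr rfl fun l _ => ?_
          rw [h2 l]
          ring
  rw [fN, h4, fN]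
  ring

/-- additivity -/
theorem fN_sum (G : GalF K V n) (F : Fus K C ι) (f : ι → ℝ) {ι' : Type} [Fintype ι'] [DecidableEq ι']
    (FN : Fus K N ι') (Z : N) :
    fN G F f Z = ∑ j, (Module.finrank K (FN.S j ⟶ Z) : ℝ) * fN G F f (FN.S j) := by
  have h1 : ∀ k, (Module.finrank K (V.obj (F.S k) ⟶ Z) : ℝ) = ∑ j,
      (Module.finrank K (V.obj (F.S k) ⟶ FN.S j) : ℝ) * (Module.finrank K (FN.S j ⟶ Z) : ℝ) := by
    intro k
    rw [fus_finrank FN]
    push_cast
    rfl
  calc fN G F f Z = (n : ℝ)⁻¹ * ∑ k, ∑ j, f k * ((Module.finrank K (V.obj (F.S k) ⟶ FN.S j) : ℝ) *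
        (Module.finrank K (FN.S j ⟶ Z) : ℝ)) := by
        rw [fN]
        congr 1
        refine Finset.sum_congr rfl fun k _ => ?_
        rw [h1 k, Finset.mul_sum]
    _ = ∑ j, (Module.finrank K (FN.S j ⟶ Z) : ℝ) * fN G F f (FN.S j) := by
        rw [Finset.sum_comm, Finset.mul_sum]
        refine Finset.sum_congr rfl fun j _ => ?_
        rw [fN, Finset.mul_sum, Finset.mul_sum, Finset.mul_sum]
        refine Finset.sum_congr rfl fun k _ => ?_
        ring

theorem fN_pos (G : GalF K V n) {F : Fus K C ι} {f : ι → ℝ} (hf : IsFPdim F f) {Z : N} (hZ : 𝟙 Z ≠ 0) :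
    0 < fN G F f Z := by
  have hn : (0 : ℝ) < n := Nat.cast_pos.2 (Nat.pos_of_ne_zero (NeZero.ne n))
  obtain ⟨k, g, hg⟩ := gal_ne' G F hZ
  have hfd : FiniteDimensional K (V.obj (F.S k) ⟶ Z) := (gal_reg G F).fd _ _
  have hnt : Nontrivial (V.obj (F.S k) ⟶ Z) := ⟨⟨g, 0, hg⟩⟩
  have hpos : 0 < Module.finrank K (V.obj (F.S k) ⟶ Z) := Module.finrank_pos
  rw [fN]
  refine mul_pos (inv_pos.2 hn) ?_
  refine Finset.sum_pos' (fun k _ => mul_nonneg (hf.1 k).le (Nat.cast_nonneg _)) ⟨k, Finset.mem_univ k, ?_⟩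
  exact mul_pos (hf.1 k) (Nat.cast_pos.2 hpos)

end Pool.Agent.SFC
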