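import Pool.Agent.SFC.DefsB

/-!
# SFC: the definitions of the final statement

`Act K G D`: actions of a group `G` on a monoidal category `D`; `Eqv K A F`: `F : C ⥤ D` is the forgetful functor of the
equivariantization `C = D ^ G`; `FC K`: fusion categories over `K`; `Chain K X`: `X` is obtained from `Vec` by
extensions by finite groups and equivariantizations by groups of prime order.
-/

set_option autoImplicit false
set_option linter.checkUnivs false

noncomputable section

open CategoryTheory MonoidalCategory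

namespace Pool.Agent.SFC

open Pool.Agent.NFG

universe v u v' u' w

section

variable (K : Type w) [Field K] {C : Type u} [Category.{v} C] [Preadditive C] [Linear K C] [MonoidalCategory C]

/-- An action of the group `G` on the monoidal category `D` by `K`-linear monoidal functors `T g`, with coherent
isomorphisms `T g (T h Z) ≅ T (g h) Z`. -/
structure Act (G : Type) [Group G] (D : Type u') [Category.{v'} D] [Preadditive D] [Linear K D]
    [MonoidalCategory D] where
  T : G → D ⥤ D
  mon : ∀ g, (T g).Monoidal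
  map_add : ∀ (g : G) {x y : D} (f f' : x ⟶ y), (T g).map (f + f') = (T g).map f + (T g).map f'
  map_smul : ∀ (g : G) {x y : D} (c : K) (f : x ⟶ y), (T g).map (c • f) = c • (T g).map f
  comp : ∀ g h gh : G, g * h = gh → (T h ⋙ T g ≅ T gh)
  comp_mon : ∀ g h gh (e : g * h = gh), NatTrans.IsMonoidal (comp g h gh e).hom
  one : 𝟭 D ≅ T 1
  one_mon : NatTrans.IsMonoidal one.hom
  assoc : ∀ (g h k gh hk ghk : G) (e1 : g * h = gh) (e2 : gh * k = ghk) (e3 : h * k = hk) (e4 : g * hk = ghk) (Z : D),
    (T g).map ((comp h k hk e3).hom.app Z) ≫ (comp g hk ghk e4).hom.app Z =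
      (comp g h gh e1).hom.app ((T k).obj Z) ≫ (comp gh k ghk e2).hom.app Z
  unitL : ∀ (g : G) (e : 1 * g = g) (Z : D), one.hom.app ((T g).obj Z) ≫ (comp 1 g g e).hom.app Z = 𝟙 _
  unitR : ∀ (g : G) (e : g * 1 = g) (Z : D), (T g).map (one.hom.app Z) ≫ (comp g 1 g e).hom.app Z = 𝟙 _

attribute [instance] Act.mon

variable {G : Type} [Group G] {D : Type u'} [Category.{v'} D] [Preadditive D] [Linear K D] [MonoidalCategory D]

/-- `F : C ⥤ D` is the forgetful functor of the equivariantization `C = D ^ G`: the objects `F x` are equivariant by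
isomorphisms `u g : T g (F x) ≅ F x`, which are monoidal; the morphisms `x ⟶ y` are the equivariant morphisms
`F x ⟶ F y`, and each equivariant object `(Z, v)` is isomorphic to `(F x, u)` for some `x`. -/
structure Eqv (A : Act K G D) (F : C ⥤ D) [F.Monoidal] where
  map_add : ∀ {x y : C} (f g : x ⟶ y), F.map (f + g) = F.map f + F.map g
  map_smul : ∀ {x y : C} (c : K) (f : x ⟶ y), F.map (c • f) = c • F.map f
  u : ∀ g, F ⋙ A.T g ≅ F
  u_mon : ∀ g, NatTrans.IsMonoidal (u g).hom
  u_one : ∀ x : C, A.one.hom.app (F.obj x) ≫ (u 1).hom.app x = 𝟙 _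
  u_mul : ∀ (g h gh : G) (e : g * h = gh) (x : C),
    (A.T g).map ((u h).hom.app x) ≫ (u g).hom.app x = (A.comp g h gh e).hom.app (F.obj x) ≫ (u gh).hom.app x
  hom : ∀ (x y : C) (h : F.obj x ⟶ F.obj y),
    (∀ g, (A.T g).map h ≫ (u g).hom.app y = (u g).hom.app x ≫ h) → ∃! f : x ⟶ y, F.map f = h
  ess : ∀ (Z : D) (z : ∀ g, (A.T g).obj Z ⟶ Z), A.one.hom.app Z ≫ z 1 = 𝟙 Z →
    (∀ (g h gh : G) (e : g * h = gh), (A.T g).map (z h) ≫ z g = (A.comp g h gh e).hom.app Z ≫ z gh) →
    ∃ (x : C) (i : F.obj x ≅ Z), ∀ g, (A.T g).map i.hom ≫ z g = (u g).hom.app x ≫ i.hom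

/-- each object has a left and a right dual -/
def Rig (C : Type u) [Category.{v} C] [MonoidalCategory C] : Prop :=
  ∀ x : C, (∃ y : C, Nonempty (ExactPairing x y)) ∧ ∃ y : C, Nonempty (ExactPairing y x)

/-- A fusion category over `K`, with representatives `F.S i`, `i : ι`, of the simple objects. -/
structure FC where
  C : Type (max u v)
  [cat : Category.{v} C]
  [pre : Preadditive C]
  [lin : Linear K C]
  [mon : MonoidalCategory C]
  [mp : MonoidalPreadditive C]
  [ml : MonoidalLinear K C]
  [bip : Limits.HasFiniteBiproducts C]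
  rig : Rig C
  ι : Type
  [fin : Fintype ι]
  [dec : DecidableEq ι]
  F : Fus K C ι

attribute [instance] FC.cat FC.pre FC.lin FC.mon FC.mp FC.ml FC.bip FC.fin FC.dec

/-- `X` is obtained from `Vec`, or any nilpotent fusion category, by finitely many extensions by finite groups and
equivariantizations by groups of prime order. -/
inductive Chain : FC.{v, u} K → Prop
  | nil (X : FC.{v, u} K) (h : X.F.Nlp Set.univ) : Chain X
  | ext (D X : FC.{v, u} K) (Q : Type) [Group Q] [Finite Q] (deg : X.ι → Q) (G : D.C ⥤ X.C) [G.Monoidal]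
      (h : IsExt K G X.F Q deg) (hD : Chain D) : Chain X
  | eqv (D X : FC.{v, u} K) (G : Type) [Group G] (hG : (Nat.card G).Prime) (A : Act K G D.C) (F : X.C ⥤ D.C)
      [F.Monoidal] (E : Eqv K A F) (hD : Chain D) : Chain X

end

end Pool.Agent.SFC
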