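import Pool.Agent.SFC.BGa

/-!
# SFC/BGb: existence of a `Fus` structure

Let `G a`, `a : Fin m`, be objects such that each `Z` with `𝟙 Z ≠ 0` has a nonzero morphism to some `G a`.  Decompose all `G a`
(`smp_dec`): a finite family of simple objects `U : Fin M → N` (reindex the sigma type).  Every simple `Z` is isomorphic to some `U b`: there is
`f : Z ⟶ G a`, `f ≠ 0`, so `f ≫ p b ≠ 0` for some component, `smp_iso`.
`ι' := {b : Fin M // ∀ c < b, ¬ Nonempty (U c ≅ U b)}` (subtype of a fintype, `Classical`; it is in `Type`), `S b := U b`.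
`hom_zero`: different `b < c` in `ι'`: a nonzero morphism would give `U b ≅ U c` (`smp_iso`), contradiction.  Every simple `Z` is isomorphic to `S b` for the
least `b` with `Z ≅ U b`.  `dec`: from `smp_dec` for `Z` and the isomorphisms `T a ≅ S (k a)`.  `o`: `𝟙_ N` is simple (`h1`, `end1`).
-/

set_option autoImplicit false

noncomputable section

open CategoryTheory MonoidalCategory

namespace Pool.Agent.SFC

open Pool.Agent.NFG

universe v u w

/-- the isomorphism relation on the components -/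
private def BGb_setoid {N : Type u} [Category.{v} N] {X : Type} (T : X → N) : Setoid X where
  r x y := Nonempty (T x ≅ T y)
  iseqv := ⟨fun _ => ⟨Iso.refl _⟩, fun ⟨e⟩ => ⟨e.symm⟩, fun ⟨e⟩ ⟨f⟩ => ⟨e ≪≫ f⟩⟩

theorem exists_fus {K : Type w} [Field K] [IsAlgClosed K] {N : Type u} [Category.{v} N] [Preadditive N] [Linear K N]
    [MonoidalCategory N] [IsIdempotentComplete N] (h : Reg K N) {m : ℕ} (G : Fin m → N)
    (hG : ∀ Z : N, 𝟙 Z ≠ 0 → ∃ (a : Fin m) (f : Z ⟶ G a), f ≠ 0) (h1 : 𝟙 (𝟙_ N) ≠ 0)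
    (end1 : ∀ f : 𝟙_ N ⟶ 𝟙_ N, ∃ c : K, f = c • 𝟙 (𝟙_ N)) :
    ∃ (ι : Type) (_ : Fintype ι) (_ : DecidableEq ι), Nonempty (Fus K N ι) := by
  classical
  choose n T p j hT hjp hne hsum using fun a : Fin m => smp_dec h (G a)
  let X : Type := Σ a : Fin m, Fin (n a)
  let U : X → N := fun x => T x.1 x.2
  let s : Setoid X := BGb_setoid U
  let ι : Type := Quotient s
  let S : ι → N := fun q => U q.out
  have hfin : Finite ι := inferInstance
  have hU : ∀ x : X, Smp K (U x) := fun x => hT x.1 x.2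
  have hS : ∀ q : ι, Smp K (S q) := fun q => hU _
  have hcomp : ∀ Z : N, Smp K Z → ∃ q : ι, Nonempty (Z ≅ S q) := by
    intro Z hZ
    obtain ⟨a, f, hf⟩ := hG Z hZ.1
    have h2 : ∃ b : Fin (n a), f ≫ p a b ≠ 0 := by
      by_contra hcon
      push Not at hcon
      apply hf
      have h3 : f = ∑ b, f ≫ (p a b ≫ j a b) := by
        rw [← Preadditive.comp_sum, hsum a, Category.comp_id]
      rw [h3]
      apply Finset.sum_eq_zero
      intro b _
      rw [← Category.assoc, hcon b, Limits.zero_comp]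
    obtain ⟨b, hb⟩ := h2
    obtain ⟨e⟩ := smp_iso h hZ (hT a b) _ hb
    let x : X := ⟨a, b⟩
    have h4 : Nonempty (U (Quotient.mk s x).out ≅ U x) := Quotient.mk_out (s := s) x
    obtain ⟨e2⟩ := h4
    exact ⟨Quotient.mk s x, ⟨e ≪≫ e2.symm⟩⟩
  obtain ⟨o, ⟨eo⟩⟩ := hcomp (𝟙_ N) ⟨h1, end1⟩
  refine ⟨ι, Fintype.ofFinite ι, Classical.decEq ι, ⟨?_⟩⟩
  refine @Fus.mk K _ N _ _ _ _ ι (Fintype.ofFinite ι) (Classical.decEq ι) S o eo.symm (fun i f => (hS i).2 f)
    (fun i => (hS i).1) ?_ ?_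
  · intro q q' hqq f
    by_contra hf
    obtain ⟨e⟩ := smp_iso h (hS q) (hS q') f hf
    apply hqq
    have h5 : Quotient.mk s q.out = Quotient.mk s q'.out := Quotient.sound (s := s) ⟨e⟩
    rw [Quotient.out_eq, Quotient.out_eq] at h5
    exact h5
  · intro Z
    obtain ⟨n', T', p', j', hT', hjp', hne', hsum'⟩ := smp_dec h Z
    choose k hk using fun a => hcomp (T' a) (hT' a)
    let e : ∀ a, T' a ≅ S (k a) := fun a => (hk a).some
    refine ⟨n', k, fun a => p' a ≫ (e a).hom, fun a => (e a).inv ≫ j' a, ?_, ?_, ?_⟩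
    · intro a
      have h6 : ((e a).inv ≫ j' a) ≫ p' a ≫ (e a).hom = (e a).inv ≫ (j' a ≫ p' a) ≫ (e a).hom := by
        simp only [Category.assoc]
      rw [h6, hjp' a, Category.id_comp, Iso.inv_hom_id]
    · intro a b hab
      have h6 : ((e a).inv ≫ j' a) ≫ p' b ≫ (e b).hom = (e a).inv ≫ (j' a ≫ p' b) ≫ (e b).hom := by
        simp only [Category.assoc]
      rw [h6, hne' a b hab, Limits.zero_comp, Limits.comp_zero]
    · rw [← hsum']
      apply Finset.sum_congr rfl
      intro a _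
      have h6 : (p' a ≫ (e a).hom) ≫ (e a).inv ≫ j' a = p' a ≫ ((e a).hom ≫ (e a).inv) ≫ j' a := by
        simp only [Category.assoc]
      rw [h6, Iso.hom_inv_id, Category.id_comp]

end Pool.Agent.SFC
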