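import Pool.Agent.SFC.DefsG
import Pool.Agent.SFC.BGb
import Pool.Agent.SFC.BFa

/-!
# SFC/BGcH (general finite group): the category of bimodules is a fusion category

`gal_reg`: `Hom (V x, V y)` is finite dimensional by `G.HH` and `fus_fd`; `Hom (Z, W)` embeds in `Hom (V x, V y)` for retracts `Z` of
`V x`, `W` of `V y`.  `gal_ne`: `Z ≠ 0`, `i : Z ⟶ V x`, `i ≫ p = 𝟙`; decompose `x` (`F.dec`): `∑ a, V (p a) ≫ V (j a) = 𝟙 (V x)`
(`G.map_add`, for sums by `map_sum` with the additive hom), so some `i ≫ V (p a) ≠ 0`.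
`gal_fus`: `exists_fus` with the objects `V (F.S k)`, `ι ≃ Fin (card ι)`; `𝟙 (𝟙_ N) ≠ 0`: otherwise `V (𝟙_ C)` is zero (`𝟙 (V 1)` is
`λ⁻¹ ≫ (ε ▷ _) ≫ ..` or `𝟙_ N ⊗ V 1 ≅ V 1` and `𝟙 (𝟙_ N) ▷ V 1 = 0`), so `V (𝟙 (𝟙_ C)) = 0 = V 0` and `𝟙 (𝟙_ C) = 0` by faithfulness,
against `F.one_ne F.o`, `F.u`.
-/

set_option autoImplicit false

noncomputable section

open CategoryTheory MonoidalCategory

namespace Pool.Agent.SFC.G

open Pool.Agent.NFG

universe v u v' u' w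

variable {K : Type w} [Field K] {C : Type u} [Category.{v} C] [Preadditive C] [Linear K C] [MonoidalCategory C]
  [MonoidalPreadditive C] [MonoidalLinear K C]
  {N : Type u'} [Category.{v'} N] [Preadditive N] [Linear K N] [MonoidalCategory N]
  [MonoidalPreadditive N] [MonoidalLinear K N] {V : C ⥤ N} [V.LaxMonoidal]
  [V.OplaxMonoidal] {Γ : Type} [AddGroup Γ] [Fintype Γ] {ι : Type} [Fintype ι] [DecidableEq ι]

private theorem BGc_sum (G : GalFH K V Γ) {x y : C} {m : ℕ} (f : Fin m → (x ⟶ y)) :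
    V.map (∑ a, f a) = ∑ a, V.map (f a) :=
  map_sum (AddMonoidHom.mk' (fun g : x ⟶ y => V.map g) (fun g h => G.map_add g h)) f Finset.univ

private theorem BGc_zero (G : GalFH K V Γ) (x y : C) : V.map (0 : x ⟶ y) = 0 :=
  map_zero (AddMonoidHom.mk' (fun g : x ⟶ y => V.map g) (fun g h => G.map_add g h))

theorem gal_reg (G : GalFH K V Γ) (F : Fus K C ι) : Reg K N := by
  refine ⟨fun Z W => ?_, fun f => G.reg f⟩
  obtain ⟨x, i, p, hip⟩ := G.retr Z
  obtain ⟨y, i', p', hip'⟩ := G.retr W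
  obtain ⟨e⟩ := G.HH x y
  have hfd : FiniteDimensional K (x ⟶ G.A ⊗ (y ⊗ G.A)) := fus_fd F _ _
  have hfd2 : FiniteDimensional K (V.obj x ⟶ V.obj y) := Module.Finite.equiv e.symm
  let Φ : (Z ⟶ W) →ₗ[K] (V.obj x ⟶ V.obj y) :=
    { toFun := fun f => p ≫ f ≫ i'
      map_add' := fun f g => by rw [Preadditive.add_comp, Preadditive.comp_add]
      map_smul' := fun c f => by rw [Linear.smul_comp, Linear.comp_smul, RingHom.id_apply] }
  refine FiniteDimensional.of_injective Φ ?_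
  intro f g hfg
  have h1 : p ≫ f ≫ i' = p ≫ g ≫ i' := hfg
  have h2 : ∀ f : Z ⟶ W, i ≫ (p ≫ f ≫ i') ≫ p' = f := by
    intro f
    rw [Category.assoc, Category.assoc, hip', Category.comp_id, ← Category.assoc, hip,
      Category.id_comp]
  rw [← h2 f, h1, h2 g]

/-- a nonzero object of `N` has nonzero morphisms to and from some `V (S k)` -/
theorem gal_ne (G : GalFH K V Γ) (F : Fus K C ι) {Z : N} (h : 𝟙 Z ≠ 0) : ∃ (k : ι) (f : Z ⟶ V.obj (F.S k)), f ≠ 0 := by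
  obtain ⟨x, i, p, hip⟩ := G.retr Z
  obtain ⟨m, k, q, j, -, -, hs⟩ := F.dec x
  by_contra hne
  push Not at hne
  apply h
  have h1 : 𝟙 (V.obj x) = ∑ a, V.map (q a) ≫ V.map (j a) := by
    rw [← V.map_id, ← hs, BGc_sum G]
    exact Finset.sum_congr rfl fun a _ => V.map_comp _ _
  rw [← hip, ← Category.comp_id i, h1, Preadditive.comp_sum]
  have h2 : ∀ a, i ≫ V.map (q a) ≫ V.map (j a) = 0 := by
    intro a
    rw [← Category.assoc, hne (k a) (i ≫ V.map (q a)), Limits.zero_comp]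
  rw [Finset.sum_eq_zero fun a _ => h2 a, Limits.zero_comp]

theorem gal_ne' (G : GalFH K V Γ) (F : Fus K C ι) {Z : N} (h : 𝟙 Z ≠ 0) : ∃ (k : ι) (f : V.obj (F.S k) ⟶ Z), f ≠ 0 := by
  obtain ⟨x, i, p, hip⟩ := G.retr Z
  obtain ⟨m, k, q, j, -, -, hs⟩ := F.dec x
  by_contra hne
  push Not at hne
  apply h
  have h1 : 𝟙 (V.obj x) = ∑ a, V.map (q a) ≫ V.map (j a) := by
    rw [← V.map_id, ← hs, BGc_sum G]
    exact Finset.sum_congr rfl fun a _ => V.map_comp _ _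
  rw [← hip, ← Category.id_comp p, h1, Preadditive.sum_comp, Preadditive.comp_sum]
  refine Finset.sum_eq_zero fun a _ => ?_
  rw [Category.assoc, hne (k a) (V.map (j a) ≫ p), Limits.comp_zero, Limits.comp_zero]

theorem gal_fus [IsAlgClosed K] [IsIdempotentComplete N] (G : GalFH K V Γ) (F : Fus K C ι) :
    ∃ (ι' : Type) (_ : Fintype ι') (_ : DecidableEq ι'), Nonempty (Fus K N ι') := by
  refine exists_fus (gal_reg G F)
    (fun a : Fin (Fintype.card ι) => V.obj (F.S ((Fintype.equivFin ι).symm a))) ?_ ?_ G.end1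
  · intro Z hZ
    obtain ⟨k, f, hf⟩ := gal_ne G F hZ
    obtain ⟨a, rfl⟩ := (Fintype.equivFin ι).symm.surjective k
    exact ⟨a, f, hf⟩
  · intro h
    have h1 : 𝟙 (V.obj (𝟙_ C)) = 0 := by
      have h2 : 𝟙 (V.obj (𝟙_ C)) = (λ_ (V.obj (𝟙_ C))).inv ≫ (𝟙 (𝟙_ N) ▷ V.obj (𝟙_ C)) ≫
          (λ_ (V.obj (𝟙_ C))).hom := by
        rw [id_whiskerRight, Category.id_comp, Iso.inv_hom_id]
      rw [h2, h, MonoidalPreadditive.zero_whiskerRight, Limits.zero_comp, Limits.comp_zero]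
    have h3 : (𝟙 (𝟙_ C) : 𝟙_ C ⟶ 𝟙_ C) = 0 := by
      apply G.faithful.map_injective
      rw [V.map_id, h1, BGc_zero G]
    apply F.one_ne F.o
    have h4 : 𝟙 (F.S F.o) = F.u.hom ≫ 𝟙 (𝟙_ C) ≫ F.u.inv := by
      rw [Category.id_comp, Iso.hom_inv_id]
    rw [h4, h3, Limits.zero_comp, Limits.comp_zero]

end Pool.Agent.SFC.G
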