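import Pool.Agent.SFC.Stm

/-!
# SFC/BRt: duals of retracts

Let `(W, W')` be an exact pairing and `Z` a retract of `W`.  The idempotent of `W` with image `Z`
has a mate, an idempotent of `W'`, and its image `Z'` is a dual of `Z`: the coevaluation and the
evaluation of `(Z, Z')` are those of `(W, W')` composed with the projections and inclusions.
-/

set_option autoImplicit false

noncomputable section

open CategoryTheory MonoidalCategory

namespace Pool.Agent.SFC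

universe v u

variable {N : Type u} [Category.{v} N] [MonoidalCategory N] [IsIdempotentComplete N]

open scoped ExactPairing in
@[reducible] private def BRt_pair {W W' Z Z' : N} [ExactPairing W W'] (i : Z ⟶ W) (p : W ⟶ Z)
    (h : i ≫ p = 𝟙 Z) (i' : Z' ⟶ W') (p' : W' ⟶ Z') (h' : i' ≫ p' = 𝟙 Z')
    (hc : η_ W W' ≫ (p ≫ i) ▷ W' = η_ W W' ≫ W ◁ (p' ≫ i'))
    (he : (p' ≫ i') ▷ W ≫ ε_ W W' = W' ◁ (p ≫ i) ≫ ε_ W W') : ExactPairing Z Z' where
  coevaluation' := η_ W W' ≫ p ▷ W' ≫ Z ◁ p'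
  evaluation' := i' ▷ Z ≫ W' ◁ i ≫ ε_ W W'
  coevaluation_evaluation' := by
    have h1 : W' ◁ η_ W W' ≫ W' ◁ (p ▷ W') ≫ W' ◁ (i ▷ W') =
        W' ◁ η_ W W' ≫ W' ◁ (W ◁ (p' ≫ i')) := by
      rw [← MonoidalCategory.whiskerLeft_comp, ← MonoidalCategory.whiskerLeft_comp,
        ← comp_whiskerRight, hc, MonoidalCategory.whiskerLeft_comp]
    have h2 : W' ◁ η_ W W' ≫ (α_ W' W W').inv ≫ ε_ W W' ▷ W' = (ρ_ W').hom ≫ (λ_ W').inv :=
      ExactPairing.coevaluation_evaluation W W'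
    calc Z' ◁ (η_ W W' ≫ p ▷ W' ≫ Z ◁ p') ≫ (α_ Z' Z Z').inv ≫
          (i' ▷ Z ≫ W' ◁ i ≫ ε_ W W') ▷ Z'
        = Z' ◁ η_ W W' ≫ Z' ◁ (p ▷ W') ≫ (α_ Z' Z W').inv ≫ (Z' ⊗ Z) ◁ p' ≫
            (i' ▷ Z) ▷ Z' ≫ (W' ◁ i) ▷ Z' ≫ ε_ W W' ▷ Z' := by
          simp only [MonoidalCategory.whiskerLeft_comp, comp_whiskerRight, Category.assoc,
            associator_inv_naturality_right_assoc]
      _ = Z' ◁ η_ W W' ≫ Z' ◁ (p ▷ W') ≫ (α_ Z' Z W').inv ≫
            (i' ▷ Z) ▷ W' ≫ (W' ◁ i) ▷ W' ≫ ε_ W W' ▷ W' ≫ 𝟙_ N ◁ p' := by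
          rw [whisker_exchange_assoc, whisker_exchange_assoc, whisker_exchange]
      _ = i' ▷ 𝟙_ N ≫ (W' ◁ η_ W W' ≫ W' ◁ (p ▷ W') ≫ W' ◁ (i ▷ W')) ≫ (α_ W' W W').inv ≫
            ε_ W W' ▷ W' ≫ 𝟙_ N ◁ p' := by
          rw [← associator_inv_naturality_left_assoc, ← associator_inv_naturality_middle_assoc,
            whisker_exchange_assoc, whisker_exchange_assoc]
          simp only [Category.assoc]
      _ = i' ▷ 𝟙_ N ≫ (W' ◁ η_ W W' ≫ (α_ W' W W').inv ≫ ε_ W W' ▷ W') ≫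
            𝟙_ N ◁ (p' ≫ i') ≫ 𝟙_ N ◁ p' := by
          rw [h1]
          simp only [Category.assoc]
          rw [associator_inv_naturality_right_assoc, whisker_exchange_assoc]
      _ = (ρ_ Z').hom ≫ (λ_ Z').inv := by
          have h3 : (p' ≫ i') ≫ p' = p' := by rw [Category.assoc, h', Category.comp_id]
          rw [h2, ← MonoidalCategory.whiskerLeft_comp, h3]
          simp only [Category.assoc]
          rw [← leftUnitor_inv_naturality, rightUnitor_naturality_assoc, reassoc_of% h']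
  evaluation_coevaluation' := by
    have h1 : Z ◁ (p' ▷ Z) ≫ Z ◁ (i' ▷ Z) ≫ Z ◁ (W' ◁ i) ≫ Z ◁ ε_ W W' =
        Z ◁ (W' ◁ i) ≫ Z ◁ ε_ W W' := by
      rw [← MonoidalCategory.whiskerLeft_comp, ← MonoidalCategory.whiskerLeft_comp,
        ← MonoidalCategory.whiskerLeft_comp, ← comp_whiskerRight_assoc,
        ← whisker_exchange_assoc, he, ← MonoidalCategory.whiskerLeft_comp_assoc, reassoc_of% h]
    have h2 : η_ W W' ▷ W ≫ (α_ W W' W).hom ≫ W ◁ ε_ W W' = (λ_ W).hom ≫ (ρ_ W).inv :=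
      ExactPairing.evaluation_coevaluation W W'
    calc (η_ W W' ≫ p ▷ W' ≫ Z ◁ p') ▷ Z ≫ (α_ Z Z' Z).hom ≫
          Z ◁ (i' ▷ Z ≫ W' ◁ i ≫ ε_ W W')
        = η_ W W' ▷ Z ≫ (p ▷ W') ▷ Z ≫ (α_ Z W' Z).hom ≫ Z ◁ (p' ▷ Z) ≫ Z ◁ (i' ▷ Z) ≫
            Z ◁ (W' ◁ i) ≫ Z ◁ ε_ W W' := by
          simp only [MonoidalCategory.whiskerLeft_comp, comp_whiskerRight, Category.assoc,
            associator_naturality_middle_assoc]
      _ = 𝟙_ N ◁ i ≫ (η_ W W' ▷ W ≫ (α_ W W' W).hom ≫ W ◁ ε_ W W') ≫ p ▷ 𝟙_ N := by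
          rw [h1, ← associator_naturality_right_assoc, ← whisker_exchange_assoc,
            ← whisker_exchange_assoc]
          simp only [Category.assoc]
          rw [associator_naturality_left_assoc, ← whisker_exchange]
      _ = (λ_ Z).hom ≫ (ρ_ Z).inv := by
          rw [h2]
          simp only [Category.assoc]
          rw [← rightUnitor_inv_naturality, leftUnitor_naturality_assoc, reassoc_of% h]

theorem pair_retr {W W' Z : N} (e : ExactPairing W W') (i : Z ⟶ W) (p : W ⟶ Z) (h : i ≫ p = 𝟙 Z) :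
    ∃ Z' : N, Nonempty (ExactPairing Z Z') := by
  let _ := e
  let _ : HasRightDual W := ⟨W'⟩
  have hq : (p ≫ i) ≫ (p ≫ i) = p ≫ i := by
    rw [Category.assoc, reassoc_of% h]
  have hq' : rightAdjointMate (p ≫ i) ≫ rightAdjointMate (p ≫ i) = rightAdjointMate (p ≫ i) := by
    rw [← comp_rightAdjointMate, hq]
  obtain ⟨Z', i', p', h1, h2⟩ := IsIdempotentComplete.idempotents_split _ _ hq'
  refine ⟨Z', ⟨BRt_pair i p h i' p' h1 ?_ ?_⟩⟩
  · rw [h2]
    exact (coevaluation_comp_rightAdjointMate (p ≫ i)).symm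
  · rw [h2]
    exact rightAdjointMate_comp_evaluation (p ≫ i)

theorem pair_retr' {W W' Z : N} (e : ExactPairing W' W) (i : Z ⟶ W) (p : W ⟶ Z) (h : i ≫ p = 𝟙 Z) :
    ∃ Z' : N, Nonempty (ExactPairing Z' Z) := by
  let _ := e
  let _ : HasLeftDual W := ⟨W'⟩
  have hq : (p ≫ i) ≫ (p ≫ i) = p ≫ i := by
    rw [Category.assoc, reassoc_of% h]
  have hq' : leftAdjointMate (p ≫ i) ≫ leftAdjointMate (p ≫ i) = leftAdjointMate (p ≫ i) := by
    rw [← comp_leftAdjointMate, hq]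
  obtain ⟨Z', i', p', h1, h2⟩ := IsIdempotentComplete.idempotents_split _ _ hq'
  refine ⟨Z', ⟨BRt_pair i' p' h1 i p h ?_ ?_⟩⟩
  · rw [h2]
    exact coevaluation_comp_leftAdjointMate (p ≫ i)
  · rw [h2]
    exact (leftAdjointMate_comp_evaluation (p ≫ i)).symm

end Pool.Agent.SFC
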