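import Pool.Agent.SFC.BDuH
import Pool.Agent.SFC.BRt

/-! # SFC/BRigH (general finite group): the category of bimodules is rigid -/

set_option autoImplicit false

noncomputable section

open CategoryTheory MonoidalCategory

namespace Pool.Agent.SFC.G

universe v u v' u' w

variable {K : Type w} [Field K] {C : Type u} [Category.{v} C] [Preadditive C] [Linear K C] [MonoidalCategory C]
  {N : Type u'} [Category.{v'} N] [Preadditive N] [Linear K N] [MonoidalCategory N] [IsIdempotentComplete N]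
  {V : C ⥤ N} [V.LaxMonoidal] [V.OplaxMonoidal] {Γ : Type} [AddGroup Γ] [Fintype Γ]

theorem rig_gal (G : GalFH K V Γ) (hC : Rig C) : Rig N := by
  intro Z
  obtain ⟨x, i, p, h⟩ := G.retr Z
  obtain ⟨⟨y, ⟨e⟩⟩, ⟨y', ⟨e'⟩⟩⟩ := hC x
  obtain ⟨f⟩ := pair_V G e
  obtain ⟨f'⟩ := pair_V G e'
  exact ⟨pair_retr f i p h, pair_retr' f' i p h⟩

end Pool.Agent.SFC.G
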