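import Pool.Agent.SFC.BDaH
import Pool.Agent.SFC.BRigH

/-!
# SFC/BDbH (general finite group): the dimensions of bimodules are Frobenius-Perron dimensions

`fN_mul0` (Perron-Frobenius argument): fix `Y` and put `g Z = fN (Z ⊗ Y)`, `h Z = fN Z`; both are additive (`fN_sum`; for `g` apply it to the decomposition of
`Z` tensored with `Y`).  Let `c = g (S m₀) / h (S m₀)` be minimal among the simple objects (`Finite.exists_min`, `h > 0` by `fN_pos`), so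
`g (S j) ≥ c * h (S j)` for all `j`.  For `k : ι` let `a k j = dim Hom (S j, V (F.S k) ⊗ S m₀)`.  By `fN_VZ` and the associator
`∑ k, g (V (S k) ⊗ S m₀) = n * (∑ f k) * g (S m₀)` and `∑ k, h (V (S k) ⊗ S m₀) = n * (∑ f k) * h (S m₀)`, so
`∑ k j, a k j * (g (S j) - c * h (S j)) = 0`, all terms are `≥ 0`, so `g (S j) = c * h (S j)` whenever some `a k j ≠ 0`.  This is the case for all `j`: take a dual `W` of
`S m₀` with `Hom (S j, V x ⊗ S m₀) ≃ Hom (S j ⊗ W, V x)` (`rig_gal`); `S j ⊗ W ≠ 0` (coevaluation: `S m₀` is a retract of `S m₀ ⊗ W ⊗ S m₀`, so `W ≠ 0`; and `S j` is a retract of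
`S j ⊗ W ⊗ W*`.. ; or: if `𝟙 (S j ⊗ W) = 0` then tensoring with the dual of `W`, `S j ≅ S j ⊗ 𝟙` is a retract of `S j ⊗ (W ⊗ W*)` up to the coevaluation `𝟙 → W ⊗ W*`, which is a split mono because
`𝟙_ N` is simple and the coevaluation is not `0`), then `gal_ne`.
So `fN (Z ⊗ Y) = c * fN Z` for all `Z` (additivity); `Z = 𝟙_ N`: `fN Y = c * fN 𝟙`.  Hence `fN (Z ⊗ Y) * fN 𝟙 = fN Z * fN Y`.
`fN_one`: `t g = fN (th.T g) / fN 𝟙` is multiplicative in `g : Γ` and positive, so `t g = 1`; `∑ g, fN (th.T g) = fN (V 𝟙) = n` (`fN_V`, `fo_one`; the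
decomposition `G.k`, `G.j`).  So `fN 𝟙 = 1`.
`fN_fp`: `IsFPdim FN (fun j => fN (FN.S j))`.  `fN_gl`: `fN (th.T g) = 1`.
-/

set_option autoImplicit false

noncomputable section

open CategoryTheory MonoidalCategory

namespace Pool.Agent.SFC.G

open Pool.Agent.NFG

universe v u v' u' w

variable {K : Type w} [Field K] {C : Type u} [Category.{v} C] [Preadditive C] [Linear K C] [MonoidalCategory C]
  [MonoidalPreadditive C] [MonoidalLinear K C] {N : Type u'} [Category.{v'} N] [Preadditive N] [Linear K N]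
  [MonoidalCategory N] [MonoidalPreadditive N] [MonoidalLinear K N] [IsIdempotentComplete N] {V : C ⥤ N}
  [V.LaxMonoidal] [V.OplaxMonoidal] {Γ : Type} [AddGroup Γ] [Fintype Γ] {ι : Type} [Fintype ι] [DecidableEq ι] {ι' : Type} [Fintype ι']
  [DecidableEq ι']

private theorem BDb_fo (G : GalFH K V Γ) (F : Fus K C ι) (f : ι → ℝ) (FN : Fus K N ι') (Z : N) :
    fN G F f Z = fo FN (fun j => fN G F f (FN.S j)) Z := by
  rw [fN_sum G F f FN Z, fo]
  exact Finset.sum_congr rfl fun j _ => mul_comm _ _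

private theorem BDb_iso (G : GalFH K V Γ) (F : Fus K C ι) (f : ι → ℝ) (FN : Fus K N ι') {Z W : N} (e : Z ≅ W) :
    fN G F f Z = fN G F f W := by
  rw [BDb_fo G F f FN Z, BDb_fo G F f FN W]
  exact fo_iso FN _ e

private theorem BDb_ten (G : GalFH K V Γ) (F : Fus K C ι) (f : ι → ℝ) (FN : Fus K N ι') (Z Y : N) :
    fN G F f (Z ⊗ Y) = fo FN (fun j => fN G F f (FN.S j ⊗ Y)) Z := by
  obtain ⟨m, k, p, j, h1, h2, h3⟩ := FN.dec Z
  have e1 : fN G F f (Z ⊗ Y) = ∑ a, fN G F f (FN.S (k a) ⊗ Y) := by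
    rw [BDb_fo G F f FN (Z ⊗ Y)]
    rw [fo_add FN (fun j => fN G F f (FN.S j)) (fun a => FN.S (k a) ⊗ Y) (fun a => p a ▷ Y)
      (fun a => j a ▷ Y)]
    · exact Finset.sum_congr rfl fun a _ => (BDb_fo G F f FN _).symm
    · intro a
      rw [← comp_whiskerRight, h1, id_whiskerRight]
    · intro a b hab
      rw [← comp_whiskerRight, h2 a b hab, MonoidalPreadditive.zero_whiskerRight]
    · have e : ∀ a, p a ▷ Y ≫ j a ▷ Y = (p a ≫ j a) ▷ Y := fun a => (comp_whiskerRight _ _ _).symm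
      rw [Finset.sum_congr rfl fun a _ => e a, ← sum_whiskerRight, h3, id_whiskerRight]
  rw [e1, fo_add FN (fun j => fN G F f (FN.S j ⊗ Y)) (fun a => FN.S (k a)) p j h1 h2 h3]
  exact Finset.sum_congr rfl fun a _ => (fo_S FN (fun j => fN G F f (FN.S j ⊗ Y)) (k a)).symm

private theorem BDb_unit (FN : Fus K N ι') : 𝟙 (𝟙_ N) ≠ 0 := by
  intro h
  apply FN.one_ne FN.o
  have h4 : 𝟙 (FN.S FN.o) = FN.u.hom ≫ 𝟙 (𝟙_ N) ≫ FN.u.inv := by
    rw [Category.id_comp, Iso.hom_inv_id]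
  rw [h4, h, Limits.zero_comp, Limits.comp_zero]

/-- tensoring with a dual of a nonzero object is faithful on objects -/
private theorem BDb_nz (FN : Fus K N ι') {Z W : N} (e : ExactPairing W Z) (hZ : 𝟙 Z ≠ 0) (j : ι') :
    𝟙 (FN.S j ⊗ W) ≠ 0 := by
  intro h0
  have hc : η_ W Z ≠ 0 := by
    intro hc
    apply hZ
    have h1 := ExactPairing.coevaluation_evaluation W Z
    rw [hc, MonoidalPreadditive.whiskerLeft_zero, Limits.zero_comp] at h1
    have h2 : 𝟙 Z = (ρ_ Z).inv ≫ ((ρ_ Z).hom ≫ (λ_ Z).inv) ≫ (λ_ Z).hom := by simp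
    rw [h2, ← h1, Limits.zero_comp, Limits.comp_zero]
  have hu : FN.u.hom ≫ η_ W Z ≠ 0 := by
    intro hu
    apply hc
    have h2 : η_ W Z = FN.u.inv ≫ FN.u.hom ≫ η_ W Z := by rw [Iso.inv_hom_id_assoc]
    rw [h2, hu, Limits.comp_zero]
  obtain ⟨g, hg⟩ := exists_retract FN hu
  have hr : η_ W Z ≫ (g ≫ FN.u.hom) = 𝟙 (𝟙_ N) := by
    have h3 : FN.u.inv ≫ ((FN.u.hom ≫ η_ W Z) ≫ g) ≫ FN.u.hom = 𝟙 (𝟙_ N) := by
      rw [hg, Category.id_comp, Iso.inv_hom_id]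
    rw [← h3]
    simp only [Category.assoc, Iso.inv_hom_id_assoc]
  have h5 : 𝟙 (FN.S j ⊗ (W ⊗ Z)) = 0 := by
    have h6 : 𝟙 (FN.S j ⊗ (W ⊗ Z)) = (α_ _ _ _).inv ≫ (𝟙 (FN.S j ⊗ W) ▷ Z) ≫ (α_ _ _ _).hom := by
      rw [id_whiskerRight, Category.id_comp, Iso.inv_hom_id]
    rw [h6, h0, MonoidalPreadditive.zero_whiskerRight, Limits.zero_comp, Limits.comp_zero]
  have h7 : 𝟙 (FN.S j ⊗ 𝟙_ N) = 0 := by
    have h8 : 𝟙 (FN.S j ⊗ 𝟙_ N) = FN.S j ◁ η_ W Z ≫ 𝟙 (FN.S j ⊗ (W ⊗ Z)) ≫ FN.S j ◁ (g ≫ FN.u.hom) := by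
      rw [Category.id_comp, ← MonoidalCategory.whiskerLeft_comp, hr, MonoidalCategory.whiskerLeft_id]
    rw [h8, h5, Limits.zero_comp, Limits.comp_zero]
  apply FN.one_ne j
  have h9 : 𝟙 (FN.S j) = (ρ_ _).inv ≫ 𝟙 (FN.S j ⊗ 𝟙_ N) ≫ (ρ_ _).hom := by
    rw [Category.id_comp, Iso.inv_hom_id]
  rw [h9, h7, Limits.zero_comp, Limits.comp_zero]

private theorem BDb_conn (G : GalFH K V Γ) (hC : Rig C) (F : Fus K C ι) (FN : Fus K N ι') (m j : ι') :
    ∃ k : ι, (Module.finrank K (FN.S j ⟶ V.obj (F.S k) ⊗ FN.S m) : ℝ) ≠ 0 := by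
  obtain ⟨-, W, ⟨e⟩⟩ := rig_gal G hC (FN.S m)
  obtain ⟨k, f, hf⟩ := gal_ne G F (BDb_nz FN e (FN.one_ne m) j)
  refine ⟨k, fun h0 => hf ?_⟩
  have h1 : Module.finrank K (FN.S j ⟶ V.obj (F.S k) ⊗ FN.S m) = 0 := by exact_mod_cast h0
  have := fin_hom FN (V.obj (F.S k) ⊗ FN.S m) j
  have : Subsingleton (FN.S j ⟶ V.obj (F.S k) ⊗ FN.S m) := Module.finrank_zero_iff.1 h1
  have : Subsingleton (FN.S j ⊗ W ⟶ V.obj (F.S k)) :=
    (tensorRightHomEquiv (FN.S j) W (FN.S m) (V.obj (F.S k))).subsingleton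
  exact Subsingleton.elim _ _

theorem fN_mul0 (G : GalFH K V Γ) (hC : Rig C) {F : Fus K C ι} {f : ι → ℝ} (hf : IsFPdim F f) (FN : Fus K N ι')
    (Z Y : N) : fN G F f (Z ⊗ Y) * fN G F f (𝟙_ N) = fN G F f Z * fN G F f Y := by
  have : Nonempty ι' := ⟨FN.o⟩
  have hφ : ∀ j, 0 < fN G F f (FN.S j) := fun j => fN_pos G hf (FN.one_ne j)
  obtain ⟨m, hm⟩ := Finite.exists_min (fun j => fN G F f (FN.S j ⊗ Y) / fN G F f (FN.S j))
  set c : ℝ := fN G F f (FN.S m ⊗ Y) / fN G F f (FN.S m) with hc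
  have hcm : fN G F f (FN.S m ⊗ Y) = c * fN G F f (FN.S m) := by
    rw [hc, div_mul_cancel₀ _ (hφ m).ne']
  have hle : ∀ j, c * fN G F f (FN.S j) ≤ fN G F f (FN.S j ⊗ Y) := by
    intro j
    have h1 := hm j
    rwa [le_div_iff₀ (hφ j)] at h1
  have heq : ∀ j, fN G F f (FN.S j ⊗ Y) = c * fN G F f (FN.S j) := by
    intro j
    obtain ⟨k, hk⟩ := BDb_conn G hC F FN m j
    have e1 : fN G F f (V.obj (F.S k) ⊗ FN.S m) = Fintype.card Γ * f k * fN G F f (FN.S m) := by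
      rw [fN_VZ G hC hf, fo_S]
    have e2 : fN G F f ((V.obj (F.S k) ⊗ FN.S m) ⊗ Y) = Fintype.card Γ * f k * fN G F f (FN.S m ⊗ Y) := by
      rw [BDb_iso G F f FN (α_ _ _ _), fN_VZ G hC hf, fo_S]
    have e3 : ∑ i, (fN G F f (FN.S i ⊗ Y) - c * fN G F f (FN.S i)) *
        (Module.finrank K (FN.S i ⟶ V.obj (F.S k) ⊗ FN.S m) : ℝ) = 0 := by
      have e4 := BDb_ten G F f FN (V.obj (F.S k) ⊗ FN.S m) Y
      have e5 := BDb_fo G F f FN (V.obj (F.S k) ⊗ FN.S m)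
      rw [fo] at e4 e5
      simp only [sub_mul, Finset.sum_sub_distrib, mul_assoc c]
      rw [← Finset.mul_sum, ← e4, ← e5, e2, e1, hcm]
      ring
    have e6 := (Finset.sum_eq_zero_iff_of_nonneg (fun i _ =>
      mul_nonneg (sub_nonneg.2 (hle i)) (Nat.cast_nonneg _))).1 e3 j (Finset.mem_univ j)
    rcases mul_eq_zero.1 e6 with h | h
    · linarith
    · exact absurd h hk
  have hall : ∀ Z : N, fN G F f (Z ⊗ Y) = c * fN G F f Z := by
    intro Z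
    rw [BDb_ten G F f FN Z Y, BDb_fo G F f FN Z, fo, fo, Finset.mul_sum]
    refine Finset.sum_congr rfl fun j _ => ?_
    rw [heq j]
    ring
  have h1 : fN G F f Y = c * fN G F f (𝟙_ N) := by
    rw [← hall, BDb_iso G F f FN (λ_ Y)]
  rw [hall Z, h1]
  ring

private theorem BDb_nonneg (G : GalFH K V Γ) {F : Fus K C ι} {f : ι → ℝ} (hf : IsFPdim F f) (Z : N) :
    0 ≤ fN G F f Z := by
  unfold fN
  exact mul_nonneg (inv_nonneg.2 (Nat.cast_nonneg _))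
    (Finset.sum_nonneg fun k _ => mul_nonneg (hf.1 k).le (Nat.cast_nonneg _))

/-- all group-like objects have the same dimension as the unit -/
private theorem BDb_t (G : GalFH K V Γ) (hC : Rig C) {F : Fus K C ι} {f : ι → ℝ} (hf : IsFPdim F f)
    (FN : Fus K N ι') (g : Γ) : fN G F f (G.th.T g) = fN G F f (𝟙_ N) := by
  have h1 : 0 < fN G F f (𝟙_ N) := fN_pos G hf (BDb_unit FN)
  set t : Γ → ℝ := fun g => fN G F f (G.th.T g) / fN G F f (𝟙_ N) with ht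
  have t0 : t 0 = 1 := by
    rw [ht]
    simp only
    rw [← BDb_iso G F f FN G.th.u, div_self h1.ne']
  have tadd : ∀ a b, t (a + b) = t a * t b := by
    intro a b
    rw [ht]
    simp only
    rw [← BDb_iso G F f FN (G.th.m a b (a + b) rfl), div_mul_div_comm, ← fN_mul0 G hC hf FN,
      mul_div_mul_right _ _ h1.ne']
  have tpow : ∀ (m : ℕ) (a : Γ), t (m • a) = t a ^ m := by
    intro m a
    induction m with
    | zero => rw [zero_smul, t0, pow_zero]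
    | succ m ih => rw [succ_nsmul, tadd, ih, pow_succ]
  have hn : t g ^ (Fintype.card Γ) = 1 := by
    rw [← tpow, card_nsmul_eq_zero, t0]
  have hnn : 0 ≤ t g := div_nonneg (BDb_nonneg G hf _) h1.le
  have hg : t g = 1 := (pow_eq_one_iff_of_nonneg hnn Fintype.card_ne_zero).1 hn
  rw [ht] at hg
  simp only at hg
  rwa [div_eq_one_iff_eq h1.ne'] at hg

theorem fN_one (G : GalFH K V Γ) (hC : Rig C) {F : Fus K C ι} {f : ι → ℝ} (hf : IsFPdim F f) (FN : Fus K N ι') :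
    fN G F f (𝟙_ N) = 1 := by
  have h1 : fN G F f (V.obj (𝟙_ C)) = ∑ g, fN G F f (G.th.T g) := by
    rw [BDb_fo G F f FN, fo_add FN _ G.th.T G.j G.k G.kj (fun a b hab => G.orth a b hab) G.sum]
    exact Finset.sum_congr rfl fun g _ => (BDb_fo G F f FN _).symm
  rw [fN_V G hf, fo_one hf, Finset.sum_congr rfl fun g _ => BDb_t G hC hf FN g, Finset.sum_const,
    Finset.card_univ, nsmul_eq_mul] at h1
  have hn : (Fintype.card Γ : ℝ) ≠ 0 := Nat.cast_ne_zero.2 Fintype.card_ne_zero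
  exact (mul_left_cancel₀ hn h1).symm

theorem fN_gl (G : GalFH K V Γ) (hC : Rig C) {F : Fus K C ι} {f : ι → ℝ} (hf : IsFPdim F f) (FN : Fus K N ι')
    (g : Γ) : fN G F f (G.th.T g) = 1 := by
  rw [BDb_t G hC hf FN g, fN_one G hC hf FN]

theorem fN_mul (G : GalFH K V Γ) (hC : Rig C) {F : Fus K C ι} {f : ι → ℝ} (hf : IsFPdim F f) (FN : Fus K N ι')
    (Z Y : N) : fN G F f (Z ⊗ Y) = fN G F f Z * fN G F f Y := by
  rw [← fN_mul0 G hC hf FN, fN_one G hC hf FN, mul_one]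

theorem fN_fp (G : GalFH K V Γ) (hC : Rig C) {F : Fus K C ι} {f : ι → ℝ} (hf : IsFPdim F f) (FN : Fus K N ι') :
    IsFPdim FN (fun j => fN G F f (FN.S j)) := by
  refine ⟨fun j => fN_pos G hf (FN.one_ne j), fun i j => ?_⟩
  change fN G F f (FN.S i) * fN G F f (FN.S j) = _
  rw [← fN_mul G hC hf FN, fN_sum G F f FN]

end Pool.Agent.SFC.G
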