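import Pool.Agent.SFC.BFa
import Pool.Agent.NFG.FinFP
import Pool.Agent.NFG.DuM

/-!
# SFC/BFb: Frobenius-Perron dimensions of objects

`fo F f x = ∑ k, f k * dim Hom (S k, x)`.  `FPd F f`: `IsFPdim F f`.
`fo_of_iso`: clear.  `fo_S`: `dim Hom (S k, S i) = δ` (schur, one_ne, hom_zero).
`fo_add`: if `𝟙 x = ∑ a, p a ≫ j a` with `j a ≫ p b = δ` then `Hom (S k, x) ≃ ∏ a, Hom (S k, x a)`.
`fo_tensor`: by `dec` and `fo_add` (the decompositions of `x` and `y` give one of `x ⊗ y`) enough for simple `x`, `y`: `IsFPdim` and `fo_S`.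
`fo_one`: `f o = 1`: `f o * f o = f o` from `IsFPdim` with `S o ⊗ S o ≅ S o` (or `fo_tensor` with `𝟙 ⊗ 𝟙 ≅ 𝟙`), `0 < f o`.
`fo_dual`: let `(x, y)` be an exact pairing.  `dim Hom (x ⊗ a, b) = dim Hom (a, y ⊗ b)` and `dim Hom (y ⊗ b, a) = dim Hom (b, x ⊗ a)` (one of the two
adjunctions of the pairing, e.g. `tensorLeftHomEquiv`, made linear; `fus_symm`).  So
`∑ i j, f i * f j * dim Hom (S i, y ⊗ S j) = ∑ j, f j * fo (y ⊗ S j) = fo y * ∑ f j ^ 2` and, with `dim Hom (S i, y ⊗ S j) = dim Hom (x ⊗ S i, S j) = dim Hom (S j, x ⊗ S i)`,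
it is also `∑ i, f i * fo (x ⊗ S i) = fo x * ∑ f i ^ 2`; `∑ f i ^ 2 > 0`.
`fo_pos`: `fus_ne` and `fus_symm`.
`fo_gl`: `fo (T a) * fo (T b) = fo (T (a + b))`, `fo (T 0) = fo 𝟙 = 1`, so `fo (T a) ^ n = fo (T (n a)) = 1` (`ZMod`: `n • a = 0`) and `fo (T a) ≥ 0`.
-/

set_option autoImplicit false

noncomputable section

open CategoryTheory MonoidalCategory

namespace Pool.Agent.SFC

open Pool.Agent.NFG

universe v u w

variable {K : Type w} [Field K] {C : Type u} [Category.{v} C] [Preadditive C] [Linear K C] [MonoidalCategory C]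
  [MonoidalPreadditive C] [MonoidalLinear K C] {ι : Type} [Fintype ι] [DecidableEq ι]

/-- the dimension of an object -/
def fo (F : Fus K C ι) (f : ι → ℝ) (x : C) : ℝ := ∑ k, f k * (Module.finrank K (F.S k ⟶ x) : ℝ)

theorem fo_iso (F : Fus K C ι) (f : ι → ℝ) {x y : C} (e : x ≅ y) : fo F f x = fo F f y := by
  unfold fo
  refine Finset.sum_congr rfl fun k _ => ?_
  let E : (F.S k ⟶ x) ≃ₗ[K] (F.S k ⟶ y) :=
    { toFun := fun g => g ≫ e.hom
      map_add' := fun g h => Preadditive.add_comp _ _ _ _ _ _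
      map_smul' := fun c g => Linear.smul_comp _ _ _ _ _ _
      invFun := fun g => g ≫ e.inv
      left_inv := fun g => by
        show (g ≫ e.hom) ≫ e.inv = g
        rw [Category.assoc, Iso.hom_inv_id, Category.comp_id]
      right_inv := fun g => by
        show (g ≫ e.inv) ≫ e.hom = g
        rw [Category.assoc, Iso.inv_hom_id, Category.comp_id] }
  rw [E.finrank_eq]

theorem fo_S (F : Fus K C ι) (f : ι → ℝ) (i : ι) : fo F f (F.S i) = f i := by
  unfold fo
  rw [Finset.sum_eq_single i]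
  · have h1 : Module.finrank K (F.S i ⟶ F.S i) = 1 := by
      rw [finrank_eq_one_iff_of_nonzero' (𝟙 (F.S i)) (F.one_ne i)]
      intro g
      obtain ⟨c, hc⟩ := F.schur i g
      exact ⟨c, hc.symm⟩
    rw [h1, Nat.cast_one, mul_one]
  · intro k _ hk
    have h1 : Module.finrank K (F.S k ⟶ F.S i) = 0 := by
      haveI : Subsingleton (F.S k ⟶ F.S i) :=
        ⟨fun a b => by rw [F.hom_zero k i hk a, F.hom_zero k i hk b]⟩
      exact Module.finrank_zero_of_subsingleton
    rw [h1, Nat.cast_zero, mul_zero]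
  · intro hi
    exact absurd (Finset.mem_univ i) hi

theorem fo_add (F : Fus K C ι) (f : ι → ℝ) {κ : Type*} [Fintype κ] {x : C} (X : κ → C) (p : ∀ a, x ⟶ X a)
    (j : ∀ a, X a ⟶ x) (h1 : ∀ a, j a ≫ p a = 𝟙 (X a)) (h2 : ∀ a b, a ≠ b → j a ≫ p b = 0)
    (h3 : ∑ a, p a ≫ j a = 𝟙 x) : fo F f x = ∑ a, fo F f (X a) := by
  classical
  unfold fo
  rw [Finset.sum_comm]
  refine Finset.sum_congr rfl fun k _ => ?_
  rw [← Finset.mul_sum]
  congr 1
  haveI : ∀ a, FiniteDimensional K (F.S k ⟶ X a) := fun a => fin_hom F (X a) k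
  let E : (F.S k ⟶ x) ≃ₗ[K] (∀ a, F.S k ⟶ X a) :=
    { toFun := fun g a => g ≫ p a
      map_add' := fun g h => funext fun a => Preadditive.add_comp _ _ _ _ _ _
      map_smul' := fun c g => funext fun a => Linear.smul_comp _ _ _ _ _ _
      invFun := fun g => ∑ a, g a ≫ j a
      left_inv := fun g => by
        show ∑ a, (g ≫ p a) ≫ j a = g
        conv_rhs => rw [← Category.comp_id g, ← h3, Preadditive.comp_sum]
        exact Finset.sum_congr rfl fun a _ => Category.assoc _ _ _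
      right_inv := fun g => by
        funext b
        show (∑ a, g a ≫ j a) ≫ p b = g b
        rw [Preadditive.sum_comp, Finset.sum_eq_single b]
        · rw [Category.assoc, h1, Category.comp_id]
        · intro a _ hab
          rw [Category.assoc, h2 a b hab, Limits.comp_zero]
        · intro hb
          exact absurd (Finset.mem_univ b) hb }
  rw [E.finrank_eq, Module.finrank_pi_fintype, Nat.cast_sum]

theorem fo_tensor {F : Fus K C ι} {f : ι → ℝ} (hf : IsFPdim F f) (x y : C) : fo F f (x ⊗ y) = fo F f x * fo F f y := by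
  classical
  obtain ⟨n, k, p, j, h1, h2, h3⟩ := F.dec x
  obtain ⟨n', k', p', j', h1', h2', h3'⟩ := F.dec y
  have hS : ∀ a b, fo F f (F.S a ⊗ F.S b) = f a * f b := by
    intro a b
    rw [hf.2 a b]
    unfold fo
    exact Finset.sum_congr rfl fun m _ => mul_comm _ _
  rw [fo_add F f (fun a => F.S (k a)) p j h1 h2 h3, fo_add F f (fun a => F.S (k' a)) p' j' h1' h2' h3',
    fo_add F f (fun ab : Fin n × Fin n' => F.S (k ab.1) ⊗ F.S (k' ab.2))
      (fun ab => p ab.1 ⊗ₘ p' ab.2) (fun ab => j ab.1 ⊗ₘ j' ab.2)]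
  · rw [Finset.sum_mul_sum, Fintype.sum_prod_type]
    refine Finset.sum_congr rfl fun a _ => Finset.sum_congr rfl fun b _ => ?_
    rw [hS, fo_S, fo_S]
  · intro ab
    rw [MonoidalCategory.tensorHom_comp_tensorHom, h1, h1', MonoidalCategory.id_tensorHom_id]
  · intro ab cd hne
    rw [MonoidalCategory.tensorHom_comp_tensorHom]
    by_cases h : ab.1 = cd.1
    · have h' : ab.2 ≠ cd.2 := fun h' => hne (Prod.ext h h')
      rw [h2' _ _ h', MonoidalPreadditive.tensor_zero]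
    · rw [h2 _ _ h, MonoidalPreadditive.zero_tensor]
  · rw [Fintype.sum_prod_type]
    have h4 : ∀ a : Fin n, ∑ b : Fin n', (p a ⊗ₘ p' b) ≫ (j a ⊗ₘ j' b) =
        (p a ≫ j a) ⊗ₘ 𝟙 y := by
      intro a
      rw [← h3', tensor_sum]
      exact Finset.sum_congr rfl fun b _ => MonoidalCategory.tensorHom_comp_tensorHom _ _ _ _
    rw [Finset.sum_congr rfl fun a _ => h4 a, ← sum_tensor, h3, MonoidalCategory.id_tensorHom_id]

theorem fo_one {F : Fus K C ι} {f : ι → ℝ} (hf : IsFPdim F f) : fo F f (𝟙_ C) = 1 := by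
  have h1 : fo F f (𝟙_ C) = f F.o := by rw [← fo_iso F f F.u, fo_S]
  have h2 : fo F f (𝟙_ C ⊗ 𝟙_ C) = fo F f (𝟙_ C) := fo_iso F f (λ_ (𝟙_ C))
  rw [fo_tensor hf, h1] at h2
  have h3 := hf.1 F.o
  rw [h1]
  exact mul_left_cancel₀ h3.ne' (by rw [h2, mul_one])

private theorem BFb_adj {x y : C} (e : ExactPairing x y) (a b : C) :
    Module.finrank K (y ⊗ a ⟶ b) = Module.finrank K (a ⟶ x ⊗ b) := by
  let E : (y ⊗ a ⟶ b) ≃ₗ[K] (a ⟶ x ⊗ b) :=
    { tensorLeftHomEquiv a x y b with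
      map_add' := fun g h => by
        simp [tensorLeftHomEquiv, Preadditive.comp_add, MonoidalPreadditive.whiskerLeft_add]
      map_smul' := fun c g => by
        simp [tensorLeftHomEquiv, Linear.comp_smul] }
  exact E.finrank_eq

theorem fo_dual {F : Fus K C ι} {f : ι → ℝ} (hf : IsFPdim F f) {x y : C} (e : ExactPairing x y) :
    fo F f y = fo F f x := by
  have hpos : 0 < ∑ i, f i * f i :=
    Finset.sum_pos (fun i _ => mul_pos (hf.1 i) (hf.1 i)) ⟨F.o, Finset.mem_univ _⟩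
  have h1 : ∑ i, f i * fo F f (y ⊗ F.S i) = fo F f y * ∑ i, f i * f i := by
    rw [Finset.mul_sum]
    refine Finset.sum_congr rfl fun i _ => ?_
    rw [fo_tensor hf, fo_S]
    ring
  have h2 : ∑ i, f i * fo F f (x ⊗ F.S i) = fo F f x * ∑ i, f i * f i := by
    rw [Finset.mul_sum]
    refine Finset.sum_congr rfl fun i _ => ?_
    rw [fo_tensor hf, fo_S]
    ring
  have h3 : ∑ i, f i * fo F f (y ⊗ F.S i) = ∑ i, f i * fo F f (x ⊗ F.S i) := by
    unfold fo
    simp_rw [Finset.mul_sum]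
    rw [Finset.sum_comm]
    refine Finset.sum_congr rfl fun k _ => Finset.sum_congr rfl fun i _ => ?_
    rw [← finrank_dual F (y ⊗ F.S i) k, BFb_adj (K := K) e (F.S i) (F.S k)]
    ring
  rw [h1, h2] at h3
  exact mul_right_cancel₀ hpos.ne' h3

theorem fo_pos {F : Fus K C ι} {f : ι → ℝ} (hf : IsFPdim F f) {x : C} (hx : 𝟙 x ≠ 0) : 0 < fo F f x := by
  obtain ⟨m, g, hg⟩ := exists_ne_zero F hx
  haveI := fin_hom F x m
  have h1 : 0 < Module.finrank K (F.S m ⟶ x) :=
    Module.finrank_pos_iff_exists_ne_zero.2 ⟨g, hg⟩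
  unfold fo
  refine Finset.sum_pos' (fun k _ => mul_nonneg (hf.1 k).le (Nat.cast_nonneg _))
    ⟨m, Finset.mem_univ _, mul_pos (hf.1 m) (Nat.cast_pos.2 h1)⟩

theorem fo_gl {F : Fus K C ι} {f : ι → ℝ} (hf : IsFPdim F f) {n : ℕ} [NeZero n] (th : Gl C n) (a : ZMod n) :
    fo F f (th.T a) = 1 := by
  have h0 : fo F f (th.T 0) = 1 := by rw [← fo_iso F f th.u, fo_one hf]
  have hm : ∀ a b, fo F f (th.T a) * fo F f (th.T b) = fo F f (th.T (a + b)) := by
    intro a b
    rw [← fo_tensor hf]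
    exact fo_iso F f (th.m a b (a + b) rfl)
  have hp : ∀ k : ℕ, fo F f (th.T a) ^ k = fo F f (th.T (k • a)) := by
    intro k
    induction k with
    | zero => rw [pow_zero, zero_smul, h0]
    | succ k ih => rw [pow_succ, ih, hm, succ_nsmul]
  have hn := hp n
  have hna : n • a = 0 := by
    rw [nsmul_eq_mul, ZMod.natCast_self, zero_mul]
  rw [hna, h0] at hn
  have hnn : 0 ≤ fo F f (th.T a) := by
    unfold fo
    exact Finset.sum_nonneg fun k _ => mul_nonneg (hf.1 k).le (Nat.cast_nonneg _)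
  exact (pow_eq_one_iff_of_nonneg hnn (NeZero.ne n)).1 hn

end Pool.Agent.SFC
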