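import Pool.Agent.SFC.BFa

/-!
# SFC/BFc: idempotents split in a semisimple category with finite direct sums

Let `e : Z ⟶ Z` be idempotent.  With the dual bases `b m i`, `g m i` of `Hom (S m, Z)`, `Hom (Z, S m)` (`NFG.dual_basis`, or `F.dec Z`) `e` is a family of idempotent matrices `M m` over `K`.  Choose for every `m`
a basis of `Hom (S m, Z)` adapted to the idempotent map `f ↦ f ≫ e` (range and kernel: `LinearMap.IsProj`, or `Submodule` complement), say `b m i`, `i : Fin (r m)`, a basis of the range, and the dual elements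
`g m i : Z ⟶ S m` with `b m i ≫ g m j = δ`, `e ≫ g m i = g m i` (replace `g` by `e ≫ g`).  `Y := ⨁ (S m) ^ (r m)` (`biproduct` over the sigma type, `HasFiniteBiproducts`), `Y ⟶ Z` by `biproduct.desc b`, `Z ⟶ Y` by
`biproduct.lift g`; the composites are `𝟙` and `e` (`NFG.ext_left`).
-/

set_option autoImplicit false

noncomputable section

open CategoryTheory MonoidalCategory

namespace Pool.Agent.SFC

open Pool.Agent.NFG

universe v u w

private theorem BFc_rep {K : Type w} [Field K] {C : Type u} [Category.{v} C] [Preadditive C] [Linear K C]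
    [MonoidalCategory C] {ι : Type} [Fintype ι] [DecidableEq ι] (F : Fus K C ι) (Z : C) (m : ι)
    (l : (F.S m ⟶ Z) →ₗ[K] K) : ∃ g : Z ⟶ F.S m, ∀ f : F.S m ⟶ Z, f ≫ g = l f • 𝟙 (F.S m) := by
  have hfin : ∀ m, FiniteDimensional K (F.S m ⟶ Z) := fun m => fin_hom F Z m
  obtain ⟨g, hg, -⟩ := dual_basis F Z (fun m => Module.finrank K (F.S m ⟶ Z))
    (fun m => Module.finBasis K _)
  refine ⟨∑ i, l (Module.finBasis K (F.S m ⟶ Z) i) • g m i, fun f => ?_⟩
  have h1 : f = ∑ i, (Module.finBasis K (F.S m ⟶ Z)).repr f i • Module.finBasis K (F.S m ⟶ Z) i :=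
    ((Module.finBasis K (F.S m ⟶ Z)).sum_repr f).symm
  have h2 : ∀ k, Module.finBasis K (F.S m ⟶ Z) k ≫
      (∑ i, l (Module.finBasis K (F.S m ⟶ Z) i) • g m i) =
        l (Module.finBasis K (F.S m ⟶ Z) k) • 𝟙 (F.S m) := by
    intro k
    rw [Preadditive.comp_sum, Finset.sum_eq_single k]
    · rw [Linear.comp_smul, hg m k k, if_pos rfl]
    · intro i _ hi
      rw [Linear.comp_smul, hg m k i, if_neg (Ne.symm hi), smul_zero]
    · intro h
      exact absurd (Finset.mem_univ k) h
  have h3 : l f = ∑ i, (Module.finBasis K (F.S m ⟶ Z)).repr f i *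
      l (Module.finBasis K (F.S m ⟶ Z) i) := by
    conv_lhs => rw [h1]
    rw [map_sum]
    exact Finset.sum_congr rfl fun i _ => by rw [map_smul, smul_eq_mul]
  rw [h3, Finset.sum_smul]
  conv_lhs => rw [h1, Preadditive.sum_comp]
  refine Finset.sum_congr rfl fun k _ => ?_
  rw [Linear.smul_comp, h2 k, smul_smul]

theorem fus_idem {K : Type w} [Field K] {C : Type u} [Category.{v} C] [Preadditive C] [Linear K C]
    [MonoidalCategory C] [MonoidalPreadditive C] [MonoidalLinear K C] [Limits.HasFiniteBiproducts C] {ι : Type}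
    [Fintype ι] [DecidableEq ι] (F : Fus K C ι) : IsIdempotentComplete C := by
  refine ⟨fun Z e he => ?_⟩
  have hfin : ∀ m, FiniteDimensional K (F.S m ⟶ Z) := fun m => fin_hom F Z m
  obtain ⟨T, hT⟩ : ∃ T : ∀ m, (F.S m ⟶ Z) →ₗ[K] (F.S m ⟶ Z), ∀ m f, T m f = f ≫ e :=
    ⟨fun m =>
      { toFun := fun f => f ≫ e
        map_add' := fun f g => Preadditive.add_comp _ _ _ _ _ _
        map_smul' := fun c f => Linear.smul_comp _ _ _ _ _ _ }, fun _ _ => rfl⟩
  obtain ⟨r, hr⟩ : ∃ r : ι → ℕ, ∀ m, Nonempty (Module.Basis (Fin (r m)) K (LinearMap.range (T m))) :=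
    ⟨fun m => Module.finrank K (LinearMap.range (T m)), fun m => ⟨Module.finBasis K _⟩⟩
  let b : ∀ m, Module.Basis (Fin (r m)) K (LinearMap.range (T m)) := fun m => Classical.choice (hr m)
  have hb : ∀ m i, ((b m i : LinearMap.range (T m)) : F.S m ⟶ Z) ≫ e = b m i := by
    intro m i
    obtain ⟨f, hf⟩ := (b m i).2
    rw [← hf, hT, Category.assoc, he]
  have hbr : ∀ m i, (T m).rangeRestrict (b m i : F.S m ⟶ Z) = b m i := by
    intro m i
    apply Subtype.ext
    change T m (b m i : F.S m ⟶ Z) = _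
    rw [hT]
    exact hb m i
  choose g hg using fun (a : Σ m, Fin (r m)) =>
    BFc_rep F Z a.1 ((b a.1).coord a.2 ∘ₗ (T a.1).rangeRestrict)
  have hbg : ∀ m i j, (b m i : F.S m ⟶ Z) ≫ g ⟨m, j⟩ = if i = j then 𝟙 (F.S m) else 0 := by
    intro m i j
    rw [hg ⟨m, j⟩ (b m i : F.S m ⟶ Z), LinearMap.comp_apply]
    change ((b m).coord j) ((T m).rangeRestrict (b m i : F.S m ⟶ Z)) • 𝟙 (F.S m) = _
    rw [hbr, Module.Basis.coord_apply, Module.Basis.repr_self, Finsupp.single_apply]
    by_cases h : i = j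
    · rw [if_pos h, if_pos h, one_smul]
    · rw [if_neg h, if_neg h, zero_smul]
  refine ⟨⨁ (fun a : Σ m, Fin (r m) => F.S a.1), Limits.biproduct.desc (fun a => (b a.1 a.2 : F.S a.1 ⟶ Z)),
    Limits.biproduct.lift (fun a => g a), ?_, ?_⟩
  · refine Limits.biproduct.hom_ext' _ _ fun a => Limits.biproduct.hom_ext _ _ fun a' => ?_
    rw [Category.comp_id, Category.assoc, Category.assoc, Limits.biproduct.lift_π,
      Limits.biproduct.ι_desc_assoc]
    obtain ⟨m, i⟩ := a
    obtain ⟨m', j⟩ := a'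
    by_cases hm : m = m'
    · subst hm
      rw [hbg m i j]
      by_cases hij : i = j
      · subst hij
        rw [if_pos rfl, Limits.biproduct.ι_π_self]
      · rw [if_neg hij, Limits.biproduct.ι_π_ne]
        intro h
        apply hij
        have h2 := (Sigma.mk.inj_iff.1 h).2
        exact eq_of_heq h2
    · rw [comp_zero' F hm, Limits.biproduct.ι_π_ne]
      intro h
      exact hm (Sigma.mk.inj_iff.1 h).1
  · rw [Limits.biproduct.lift_desc]
    refine ext_left F fun m f => ?_
    rw [Preadditive.comp_sum, Fintype.sum_sigma, Finset.sum_eq_single m]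
    · have h1 : ∀ i, f ≫ g ⟨m, i⟩ ≫ (b m i : F.S m ⟶ Z) =
          (b m).repr ((T m).rangeRestrict f) i • (b m i : F.S m ⟶ Z) := by
        intro i
        rw [← Category.assoc, hg ⟨m, i⟩ f, LinearMap.comp_apply, Linear.smul_comp, Category.id_comp]
        rfl
      rw [Finset.sum_congr rfl fun i _ => h1 i]
      have h2 : (((∑ i, (b m).repr ((T m).rangeRestrict f) i • b m i : LinearMap.range (T m))) :
          F.S m ⟶ Z) = f ≫ e := by
        rw [(b m).sum_repr ((T m).rangeRestrict f), ← hT m f]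
        rfl
      rw [← h2, AddSubmonoidClass.coe_finsetSum]
      rfl
    · intro m' _ hm'
      refine Finset.sum_eq_zero fun i _ => ?_
      rw [← Category.assoc, comp_zero' F (Ne.symm hm'), Limits.zero_comp]
    · intro h
      exact absurd (Finset.mem_univ m) h

end Pool.Agent.SFC
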