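import Pool.Agent.SFC.Stm
import Pool.Agent.NFG.Mul

/-!
# SFC/BGa: decomposition of objects in a von Neumann regular category

`Smp Z`: `Z` is simple, i.e. `End Z = K`.  Standing hypotheses: all `Hom` spaces are finite dimensional, `N` is von Neumann
regular (`∀ f, ∃ g, f ≫ g ≫ f = f`) and idempotents split.
-/

set_option autoImplicit false

noncomputable section

open CategoryTheory MonoidalCategory

namespace Pool.Agent.SFC

open Pool.Agent.NFG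

universe v u w

variable {K : Type w} [Field K] {N : Type u} [Category.{v} N] [Preadditive N] [Linear K N]

/-- `Z` is a simple object. -/
def Smp (K : Type w) [Field K] {N : Type u} [Category.{v} N] [Preadditive N] [Linear K N] (Z : N) : Prop :=
  𝟙 Z ≠ 0 ∧ ∀ f : Z ⟶ Z, ∃ c : K, f = c • 𝟙 Z

/-- finite dimensional `Hom` spaces, von Neumann regular -/
structure Reg (K : Type w) [Field K] (N : Type u) [Category.{v} N] [Preadditive N] [Linear K N] : Prop where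
  fd : ∀ Z W : N, FiniteDimensional K (Z ⟶ W)
  reg : ∀ {Z W : N} (f : Z ⟶ W), ∃ g : W ⟶ Z, f ≫ g ≫ f = f

private theorem BGa_inv (h : Reg K N) {Z : N} (hid : ∀ e : Z ⟶ Z, e ≫ e = e → e = 0 ∨ e = 𝟙 Z) (f : Z ⟶ Z) (hf : f ≠ 0) :
    ∃ g : Z ⟶ Z, g ≫ f = 𝟙 Z := by
  obtain ⟨g, hg⟩ := h.reg f
  refine ⟨g, ?_⟩
  have h1 : (g ≫ f) ≫ (g ≫ f) = g ≫ f := by
    rw [Category.assoc, hg]
  rcases hid _ h1 with h2 | h2
  · exfalso
    apply hf
    rw [← hg, h2, Limits.comp_zero]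
  · exact h2

theorem smp_or_split [IsAlgClosed K] [IsIdempotentComplete N] (h : Reg K N) (Z : N) (hZ : 𝟙 Z ≠ 0) :
    Smp K Z ∨ ∃ (Z₁ Z₂ : N) (i₁ : Z₁ ⟶ Z) (p₁ : Z ⟶ Z₁) (i₂ : Z₂ ⟶ Z) (p₂ : Z ⟶ Z₂), i₁ ≫ p₁ = 𝟙 Z₁ ∧ i₂ ≫ p₂ = 𝟙 Z₂ ∧
      i₁ ≫ p₂ = 0 ∧ i₂ ≫ p₁ = 0 ∧ p₁ ≫ i₁ + p₂ ≫ i₂ = 𝟙 Z ∧ 𝟙 Z₁ ≠ 0 ∧ 𝟙 Z₂ ≠ 0 := by
  by_cases hid : ∀ e : Z ⟶ Z, e ≫ e = e → e = 0 ∨ e = 𝟙 Z
  · left
    refine ⟨hZ, fun f => ?_⟩
    have := h.fd Z Z
    have : Nontrivial (Z ⟶ Z) := ⟨⟨𝟙 Z, 0, hZ⟩⟩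
    obtain ⟨c, hc⟩ := Module.End.exists_eigenvalue (Linear.leftComp K Z f)
    obtain ⟨x, hx⟩ := hc.exists_hasEigenvector
    refine ⟨c, ?_⟩
    by_contra hne
    have hne' : f - c • 𝟙 Z ≠ 0 := fun h0 => hne (sub_eq_zero.mp h0)
    obtain ⟨g, hg⟩ := BGa_inv h hid _ hne'
    apply hx.2
    have h3 : f ≫ x = c • x := hx.apply_eq_smul
    have h4 : (f - c • 𝟙 Z) ≫ x = 0 := by
      rw [Preadditive.sub_comp, h3, Linear.smul_comp, Category.id_comp, sub_self]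
    calc x = (g ≫ (f - c • 𝟙 Z)) ≫ x := by rw [hg, Category.id_comp]
      _ = 0 := by rw [Category.assoc, h4, Limits.comp_zero]
  · right
    push Not at hid
    obtain ⟨e, he, he0, he1⟩ := hid
    have he' : (𝟙 Z - e) ≫ (𝟙 Z - e) = 𝟙 Z - e := by
      rw [Preadditive.sub_comp, Preadditive.comp_sub, Preadditive.comp_sub, he, Category.id_comp, Category.id_comp,
        Category.comp_id, sub_self, sub_zero]
    obtain ⟨Z₁, i₁, p₁, a1, a2⟩ := IsIdempotentComplete.idempotents_split Z e he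
    obtain ⟨Z₂, i₂, p₂, b1, b2⟩ := IsIdempotentComplete.idempotents_split Z (𝟙 Z - e) he'
    have c1 : i₁ = i₁ ≫ e := by rw [← a2, ← Category.assoc, a1, Category.id_comp]
    have c2 : p₂ = (𝟙 Z - e) ≫ p₂ := by rw [← b2, Category.assoc, b1, Category.comp_id]
    have d1 : i₂ = i₂ ≫ (𝟙 Z - e) := by rw [← b2, ← Category.assoc, b1, Category.id_comp]
    have d2 : p₁ = e ≫ p₁ := by rw [← a2, Category.assoc, a1, Category.comp_id]
    have z1 : e ≫ (𝟙 Z - e) = 0 := by rw [Preadditive.comp_sub, he, Category.comp_id, sub_self]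
    have z2 : (𝟙 Z - e) ≫ e = 0 := by rw [Preadditive.sub_comp, he, Category.id_comp, sub_self]
    refine ⟨Z₁, Z₂, i₁, p₁, i₂, p₂, a1, b1, ?_, ?_, ?_, ?_, ?_⟩
    · rw [c1, c2, Category.assoc, ← Category.assoc e, z1, Limits.zero_comp, Limits.comp_zero]
    · rw [d1, d2, Category.assoc, ← Category.assoc (𝟙 Z - e), z2, Limits.zero_comp, Limits.comp_zero]
    · rw [a2, b2, add_sub_cancel]
    · intro h0
      apply he0
      rw [← a2]
      rw [← Category.comp_id p₁, h0, Limits.comp_zero, Limits.zero_comp]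
    · intro h0
      apply he1
      have : 𝟙 Z - e = 0 := by
        rw [← b2]
        rw [← Category.comp_id p₂, h0, Limits.comp_zero, Limits.zero_comp]
      exact (sub_eq_zero.mp this).symm

private theorem BGa_lt (h : Reg K N) {Z Z₁ Z₂ : N} (i₁ : Z₁ ⟶ Z) (p₁ : Z ⟶ Z₁) (i₂ : Z₂ ⟶ Z) (p₂ : Z ⟶ Z₂)
    (h1 : i₁ ≫ p₁ = 𝟙 Z₁) (h2 : i₂ ≫ p₂ = 𝟙 Z₂) (h12 : i₁ ≫ p₂ = 0) (h0 : 𝟙 Z₂ ≠ 0) :
    Module.finrank K (Z₁ ⟶ Z₁) < Module.finrank K (Z ⟶ Z) := by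
  have := h.fd Z Z
  have := h.fd Z₁ Z₁
  let φ : (Z₁ ⟶ Z₁) →ₗ[K] (Z ⟶ Z) := (Linear.rightComp K Z i₁).comp (Linear.leftComp K Z₁ p₁)
  have hφ : ∀ f, φ f = (p₁ ≫ f) ≫ i₁ := fun f => rfl
  have hinj : Function.Injective φ := by
    intro f g hfg
    rw [hφ, hφ] at hfg
    have h3 : i₁ ≫ ((p₁ ≫ f) ≫ i₁) ≫ p₁ = i₁ ≫ ((p₁ ≫ g) ≫ i₁) ≫ p₁ := by rw [hfg]
    simp only [Category.assoc] at h3
    rw [h1, Category.comp_id, Category.comp_id, ← Category.assoc, ← Category.assoc, h1, Category.id_comp,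
      Category.id_comp] at h3
    exact h3
  have hlt : LinearMap.range φ < ⊤ := by
    rw [lt_top_iff_ne_top]
    intro htop
    have h4 : (p₂ ≫ i₂) ∈ LinearMap.range φ := by rw [htop]; trivial
    obtain ⟨f, hf⟩ := h4
    rw [hφ] at hf
    apply h0
    have h5 : i₂ ≫ ((p₁ ≫ f) ≫ i₁) ≫ p₂ = i₂ ≫ (p₂ ≫ i₂) ≫ p₂ := by rw [hf]
    simp only [Category.assoc] at h5
    rw [h12, h2, Category.comp_id, h2, Limits.comp_zero, Limits.comp_zero, Limits.comp_zero] at h5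
    exact h5.symm
  calc Module.finrank K (Z₁ ⟶ Z₁) = Module.finrank K (LinearMap.range φ) := (LinearMap.finrank_range_of_inj hinj).symm
    _ < Module.finrank K (Z ⟶ Z) := Submodule.finrank_lt hlt.ne

private theorem BGa_dec [IsAlgClosed K] [IsIdempotentComplete N] (h : Reg K N) : ∀ (m : ℕ) (Z : N),
    Module.finrank K (Z ⟶ Z) = m →
    ∃ (ι : Type) (_ : Fintype ι) (T : ι → N) (p : ∀ a, Z ⟶ T a) (j : ∀ a, T a ⟶ Z), (∀ a, Smp K (T a)) ∧
      (∀ a, j a ≫ p a = 𝟙 (T a)) ∧ (∀ a b, a ≠ b → j a ≫ p b = 0) ∧ ∑ a, p a ≫ j a = 𝟙 Z := by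
  intro m
  induction m using Nat.strong_induction_on with
  | _ m ih =>
    intro Z hm
    by_cases hZ : 𝟙 Z = 0
    · exact ⟨Empty, inferInstance, fun a => a.elim, fun a => a.elim, fun a => a.elim, fun a => a.elim, fun a => a.elim,
        fun a => a.elim, by rw [hZ]; simp⟩
    · rcases smp_or_split h Z hZ with hs | ⟨Z₁, Z₂, i₁, p₁, i₂, p₂, h11, h22, h12, h21, hsum, hZ1, hZ2⟩
      · exact ⟨Unit, inferInstance, fun _ => Z, fun _ => 𝟙 Z, fun _ => 𝟙 Z, fun _ => hs, fun _ => Category.id_comp _,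
          fun a b hab => (hab (Subsingleton.elim a b)).elim, by simp⟩
      · have l1 := BGa_lt h i₁ p₁ i₂ p₂ h11 h22 h12 hZ2
        have l2 := BGa_lt h i₂ p₂ i₁ p₁ h22 h11 h21 hZ1
        obtain ⟨ι₁, F₁, T₁, q₁, j₁, s1, o1, z1, u1⟩ := ih _ (hm ▸ l1) Z₁ rfl
        obtain ⟨ι₂, F₂, T₂, q₂, j₂, s2, o2, z2, u2⟩ := ih _ (hm ▸ l2) Z₂ rfl
        refine ⟨ι₁ ⊕ ι₂, inferInstance, Sum.elim T₁ T₂,
          fun a => match a with
            | Sum.inl a => p₁ ≫ q₁ a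
            | Sum.inr a => p₂ ≫ q₂ a,
          fun a => match a with
            | Sum.inl a => j₁ a ≫ i₁
            | Sum.inr a => j₂ a ≫ i₂, ?_, ?_, ?_, ?_⟩
        · rintro (a | a)
          · exact s1 a
          · exact s2 a
        · rintro (a | a)
          · show (j₁ a ≫ i₁) ≫ p₁ ≫ q₁ a = 𝟙 (T₁ a)
            rw [Category.assoc, ← Category.assoc i₁, h11, Category.id_comp, o1]
          · show (j₂ a ≫ i₂) ≫ p₂ ≫ q₂ a = 𝟙 (T₂ a)
            rw [Category.assoc, ← Category.assoc i₂, h22, Category.id_comp, o2]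
        · rintro (a | a) (b | b) hab
          · show (j₁ a ≫ i₁) ≫ p₁ ≫ q₁ b = 0
            rw [Category.assoc, ← Category.assoc i₁, h11, Category.id_comp]
            exact z1 a b (fun h' => hab (by rw [h']))
          · show (j₁ a ≫ i₁) ≫ p₂ ≫ q₂ b = 0
            rw [Category.assoc, ← Category.assoc i₁, h12, Limits.zero_comp, Limits.comp_zero]
          · show (j₂ a ≫ i₂) ≫ p₁ ≫ q₁ b = 0
            rw [Category.assoc, ← Category.assoc i₂, h21, Limits.zero_comp, Limits.comp_zero]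
          · show (j₂ a ≫ i₂) ≫ p₂ ≫ q₂ b = 0
            rw [Category.assoc, ← Category.assoc i₂, h22, Category.id_comp]
            exact z2 a b (fun h' => hab (by rw [h']))
        · rw [Fintype.sum_sum_type]
          show ∑ a, (p₁ ≫ q₁ a) ≫ j₁ a ≫ i₁ + ∑ a, (p₂ ≫ q₂ a) ≫ j₂ a ≫ i₂ = 𝟙 Z
          have e1 : ∑ a, (p₁ ≫ q₁ a) ≫ j₁ a ≫ i₁ = p₁ ≫ i₁ := by
            calc ∑ a, (p₁ ≫ q₁ a) ≫ j₁ a ≫ i₁ = ∑ a, p₁ ≫ (q₁ a ≫ j₁ a) ≫ i₁ := by
                  refine Finset.sum_congr rfl (fun a _ => ?_)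
                  simp only [Category.assoc]
              _ = p₁ ≫ (∑ a, q₁ a ≫ j₁ a) ≫ i₁ := by rw [Preadditive.sum_comp, Preadditive.comp_sum]
              _ = p₁ ≫ i₁ := by rw [u1, Category.id_comp]
          have e2 : ∑ a, (p₂ ≫ q₂ a) ≫ j₂ a ≫ i₂ = p₂ ≫ i₂ := by
            calc ∑ a, (p₂ ≫ q₂ a) ≫ j₂ a ≫ i₂ = ∑ a, p₂ ≫ (q₂ a ≫ j₂ a) ≫ i₂ := by
                  refine Finset.sum_congr rfl (fun a _ => ?_)
                  simp only [Category.assoc]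
              _ = p₂ ≫ (∑ a, q₂ a ≫ j₂ a) ≫ i₂ := by rw [Preadditive.sum_comp, Preadditive.comp_sum]
              _ = p₂ ≫ i₂ := by rw [u2, Category.id_comp]
          rw [e1, e2, hsum]

theorem smp_dec [IsAlgClosed K] [IsIdempotentComplete N] (h : Reg K N) (Z : N) :
    ∃ (n : ℕ) (T : Fin n → N) (p : ∀ a, Z ⟶ T a) (j : ∀ a, T a ⟶ Z), (∀ a, Smp K (T a)) ∧
      (∀ a, j a ≫ p a = 𝟙 (T a)) ∧ (∀ a b, a ≠ b → j a ≫ p b = 0) ∧ ∑ a, p a ≫ j a = 𝟙 Z := by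
  obtain ⟨ι, F, T, p, j, s, o, z, u⟩ := BGa_dec h _ Z rfl
  let e : Fin (Fintype.card ι) ≃ ι := (Fintype.equivFin ι).symm
  refine ⟨Fintype.card ι, fun a => T (e a), fun a => p (e a), fun a => j (e a), fun a => s _, fun a => o _,
    fun a b hab => z _ _ (fun h' => hab (e.injective h')), ?_⟩
  rw [← u]
  exact Equiv.sum_comp e (fun a => p a ≫ j a)

theorem smp_iso (h : Reg K N) {Z W : N} (hZ : Smp K Z) (hW : Smp K W) (f : Z ⟶ W) (hf : f ≠ 0) : Nonempty (Z ≅ W) := by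
  obtain ⟨g, hg⟩ := h.reg f
  have key : ∀ {X : N} (_ : Smp K X) (e : X ⟶ X), e ≫ e = e → e ≠ 0 → e = 𝟙 X := by
    intro X hX e he he0
    obtain ⟨c, hc⟩ := hX.2 e
    have h1 : c ≠ 0 := by
      intro h0
      apply he0
      rw [hc, h0, zero_smul]
    have h2 : (c * c - c) • 𝟙 X = 0 := by
      rw [sub_smul, sub_eq_zero, ← hc]
      calc (c * c) • 𝟙 X = (c • 𝟙 X) ≫ (c • 𝟙 X) := by
            rw [Linear.smul_comp, Linear.comp_smul, Category.comp_id, smul_smul]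
        _ = e := by rw [← hc, he]
    have h3 : c * c - c = 0 := by
      rcases smul_eq_zero.mp h2 with h4 | h4
      · exact h4
      · exact (hX.1 h4).elim
    have h5 : c = 1 := by
      have h6 : c * (c - 1) = 0 := by rw [mul_sub, mul_one]; exact h3
      rcases mul_eq_zero.mp h6 with h7 | h7
      · exact (h1 h7).elim
      · exact sub_eq_zero.mp h7
    rw [hc, h5, one_smul]
  have e1 : (f ≫ g) ≫ (f ≫ g) = f ≫ g := by
    rw [Category.assoc, ← Category.assoc g, ← Category.assoc f, hg]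
  have e2 : (g ≫ f) ≫ (g ≫ f) = g ≫ f := by
    rw [Category.assoc, hg]
  have n1 : f ≫ g ≠ 0 := by
    intro h0
    apply hf
    rw [← hg, ← Category.assoc, h0, Limits.zero_comp]
  have n2 : g ≫ f ≠ 0 := by
    intro h0
    apply hf
    rw [← hg, h0, Limits.comp_zero]
  exact ⟨⟨f, g, key hZ _ e1 n1, key hW _ e2 n2⟩⟩

end Pool.Agent.SFC
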