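import Pool.Agent.SFC.BOrb
import Pool.Agent.NFG.FrC

/-!
# SFC/BNum: the dimensions of the bimodules are prime to `p`

`fp_int`: Frobenius-Perron dimensions are algebraic integers.  (`Pool.Agent.NFG.ch_integral` for `FRing`; or directly: `f i` is an eigenvalue of the integer matrix `(N_{ij}^k)_{j,k}` with the nonzero eigenvector
`f`: root of the characteristic polynomial of an integer matrix, `Matrix.charpoly_monic`, Cayley-Hamilton.)
`nsum_unit`: `n * f i = M * d` with `d = fN (S j)` for some `j` (`V (S i) ≠ 0`) and `a * p + b * f i = 1`, so `n = a * n * p + b * M * d`.  If `p ∣ M` then `n / p` is an algebraic integer and rational, so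
`p ∣ n` (`IsIntegrallyClosed.isIntegral_iff`, see the proof of `not_dvd_of_relPrime` in `Pool/Agent/Results/MP_3062fa_al/NilpotentCategories.lean`), but `n ≠ p` are primes.
`gal_relP`: for `j` choose `i` with `Hom (S j, V (S i)) ≠ 0` (`gal_ne`, `FN.one_ne`); `n = a n p + (b M) d` and `α n + β p = 1` (Bezout in `ℤ`).
`gal_sc`: `av V (q ≫ u) = V f = c • 𝟙` (`G.avg`, `F.schur`, `G.map_smul`); `c * M = n ^ 2` (`av_scalar`), `M` and `n` are units of `O` (`unit_of_coprime`).
-/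

set_option autoImplicit false

noncomputable section

open CategoryTheory MonoidalCategory

namespace Pool.Agent.SFC

open Pool.Agent.NFG

universe v u v' u' w

/-- The integer `p` and the algebraic integer `x` are relatively prime. -/
def RelP (p : ℕ) (x : ℝ) : Prop := ∃ a b : ℝ, IsIntegral ℤ a ∧ IsIntegral ℤ b ∧ a * p + b * x = 1

variable {K : Type w} [Field K] {C : Type u} [Category.{v} C] [Preadditive C] [Linear K C] [MonoidalCategory C]
  [MonoidalPreadditive C] [MonoidalLinear K C] {N : Type u'} [Category.{v'} N] [Preadditive N] [Linear K N]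
  [MonoidalCategory N] [MonoidalPreadditive N] [MonoidalLinear K N] [IsIdempotentComplete N] {V : C ⥤ N}
  [V.LaxMonoidal] [V.OplaxMonoidal] {n : ℕ} [NeZero n] {ι : Type} [Fintype ι] [DecidableEq ι] {ι' : Type} [Fintype ι']
  [DecidableEq ι'] {O : Subring K}

theorem fp_int {F : Fus K C ι} {f : ι → ℝ} (hf : IsFPdim F f) (i : ι) : IsIntegral ℤ (f i) := by
  let M : Matrix ι ι ℤ := fun j k => (Module.finrank K (F.S k ⟶ F.S i ⊗ F.S j) : ℤ)
  have h1 : (M.map (Int.castRingHom ℝ)).charpoly.eval (f i) = 0 := by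
    rw [Matrix.eval_charpoly]
    apply Matrix.exists_mulVec_eq_zero_iff.1
    refine ⟨f, ?_, ?_⟩
    · intro h
      exact (hf.1 i).ne' (congrFun h i)
    · funext j
      rw [Matrix.sub_mulVec]
      simp only [Pi.sub_apply, Pi.zero_apply]
      have h2 : (Matrix.scalar ι (f i)).mulVec f j = f i * f j := by
        simp [Matrix.mulVec, dotProduct, Matrix.diagonal_apply]
      have h3 : (M.map (Int.castRingHom ℝ)).mulVec f j = f i * f j := by
        rw [hf.2 i j]
        unfold Matrix.mulVec dotProduct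
        refine Finset.sum_congr rfl fun x _ => ?_
        show (((Module.finrank K (F.S x ⟶ F.S i ⊗ F.S j) : ℤ) : ℝ)) * f x = _
        push_cast
        rfl
      rw [h2, h3, sub_self]
  refine ⟨M.charpoly, M.charpoly_monic, ?_⟩
  rw [Matrix.charpoly_map, Polynomial.eval_map] at h1
  exact h1

private theorem BNum_nat (m : ℕ) : IsIntegral ℤ (m : ℝ) := by
  have := isIntegral_algebraMap (R := ℤ) (A := ℝ) (x := (m : ℤ))
  simpa using this

private theorem BNum_int (m : ℤ) : IsIntegral ℤ (m : ℝ) := by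
  have := isIntegral_algebraMap (R := ℤ) (A := ℝ) (x := m)
  simpa using this

/-- a natural number which is `p` times an algebraic integer is divisible by `p` -/
private theorem BNum_dvd {p m : ℕ} (hp : p.Prime) {x : ℝ} (hx : IsIntegral ℤ x) (h : (p : ℝ) * x = m) : p ∣ m := by
  have hp0 : (p : ℝ) ≠ 0 := by exact_mod_cast hp.ne_zero
  have hq : x = algebraMap ℚ ℝ ((m : ℚ) / (p : ℚ)) := by
    rw [eq_ratCast, Rat.cast_div, Rat.cast_natCast, Rat.cast_natCast, eq_div_iff hp0, mul_comm]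
    exact h
  rw [hq] at hx
  have hint2 : IsIntegral ℤ ((m : ℚ) / (p : ℚ)) := (isIntegral_algebraMap_iff (algebraMap ℚ ℝ).injective).1 hx
  obtain ⟨z, hz⟩ := IsIntegrallyClosed.isIntegral_iff.1 hint2
  have hpq : (p : ℚ) ≠ 0 := by exact_mod_cast hp.ne_zero
  have hz2 : (z * p : ℤ) = m := by
    have h5 : (z : ℚ) = (m : ℚ) / (p : ℚ) := by simpa using hz
    have : (z : ℚ) * p = m := by
      rw [h5, div_mul_cancel₀ _ hpq]
    exact_mod_cast this
  have h6 : (p : ℤ) ∣ (m : ℤ) := ⟨z, by rw [mul_comm]; exact hz2.symm⟩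
  exact_mod_cast h6

private theorem BNum_ne (G : GalF K V n) (F : Fus K C ι) (i : ι) : 𝟙 (V.obj (F.S i)) ≠ 0 := by
  intro h
  apply F.one_ne i
  have := G.faithful
  apply V.map_injective
  have h0 : V.map (0 : F.S i ⟶ F.S i) = 0 := by
    have h1 := G.map_smul (0 : K) (0 : F.S i ⟶ F.S i)
    rwa [zero_smul, zero_smul] at h1
  rw [V.map_id, h, h0]

private theorem BNum_not (n : ℕ) {p : ℕ} (hp : p.Prime) (hn : n.Prime) (hpn : n ≠ p) : ¬ p ∣ n := fun h =>
  hpn ((Nat.prime_dvd_prime_iff_eq hp hn).1 h).symm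

theorem nsum_prime [CharZero K] (G : GalF K V n) (hC : Rig C) {F : Fus K C ι} {f : ι → ℝ} (hf : IsFPdim F f)
    (FN : Fus K N ι') {p : ℕ} (hp : p.Prime) (hn : n.Prime) (hpn : n ≠ p) (h : ∀ i, RelP p (f i)) (i : ι) :
    ¬ p ∣ nsum V F FN i := by
  rintro ⟨m, hm⟩
  obtain ⟨j, u, hu⟩ := exists_ne_zero FN (BNum_ne G F i)
  have h1 := orb_dim G hC hf FN hu
  obtain ⟨a, b, ha, hb, hab⟩ := h i
  have hd : IsIntegral ℤ (fN G F f (FN.S j)) := fp_int (fN_fp G hC hf FN) j
  apply BNum_not n hp hn hpn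
  refine BNum_dvd hp (x := a * n + b * m * fN G F f (FN.S j)) ?_ ?_
  · exact (ha.mul (BNum_nat n)).add ((hb.mul (BNum_nat m)).mul hd)
  · rw [hm] at h1
    push_cast at h1
    linear_combination (n : ℝ) * hab - b * h1

theorem gal_relP [CharZero K] (G : GalF K V n) (hC : Rig C) {F : Fus K C ι} {f : ι → ℝ} (hf : IsFPdim F f)
    (FN : Fus K N ι') {p : ℕ} (hp : p.Prime) (hn : n.Prime) (hpn : n ≠ p) (h : ∀ i, RelP p (f i)) (j : ι') :
    RelP p (fN G F f (FN.S j)) := by
  obtain ⟨i, u, hu⟩ := gal_ne G F (FN.one_ne j)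
  have h1 := orb_dim G hC hf FN hu
  obtain ⟨a, b, ha, hb, hab⟩ := h i
  have hco : IsCoprime (n : ℤ) (p : ℤ) :=
    Nat.isCoprime_iff_coprime.2 (hp.coprime_iff_not_dvd.2 (BNum_not n hp hn hpn)).symm
  obtain ⟨s, t, hst⟩ := hco
  have hst' : (s : ℝ) * n + t * p = 1 := by exact_mod_cast hst
  refine ⟨s * a * n + t, s * b * nsum V F FN i, ?_, ?_, ?_⟩
  · exact (((BNum_int s).mul ha).mul (BNum_nat n)).add (BNum_int t)
  · exact ((BNum_int s).mul hb).mul (BNum_nat _)
  · linear_combination hst' + s * n * hab - s * b * h1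

theorem gal_sc [CharZero K] (G : GalF K V n) (hC : Rig C) {F : Fus K C ι} {f : ι → ℝ} (hf : IsFPdim F f)
    (FN : Fus K N ι') (hO : Val O) {p : ℕ} (hp : p.Prime) (hpO : ((p : K))⁻¹ ∉ O) (hn : n.Prime) (hpn : n ≠ p)
    (h : ∀ i, RelP p (f i)) (i : ι) (j : ι') (u : FN.S j ⟶ V.obj (F.S i)) (q : V.obj (F.S i) ⟶ FN.S j)
    (huq : u ≫ q = 𝟙 _) : ∃ c : K, IsU O c ∧ av V (q ≫ u) = c • 𝟙 (V.obj (F.S i)) := by
  obtain ⟨g, hg⟩ := G.avg (q ≫ u)
  obtain ⟨c, rfl⟩ := F.schur i g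
  have hav : av V (q ≫ u) = c • 𝟙 (V.obj (F.S i)) := by
    rw [hg, G.map_smul, V.map_id]
  have hsc := av_scalar G FN ⟨FN.one_ne j, FN.schur j⟩ u q huq hav
  rw [← Nat.cast_sum] at hsc
  have hM : IsU O ((nsum V F FN i : ℕ) : K) := unit_of_coprime hO hp hpO (nsum_prime G hC hf FN hp hn hpn h i)
  have hN : IsU O (n : K) := unit_of_coprime hO hp hpO (BNum_not n hp hn hpn)
  refine ⟨c, ?_, hav⟩
  have e : c = (n : K) * n * ((nsum V F FN i : ℕ) : K)⁻¹ := by
    rw [eq_mul_inv_iff_mul_eq₀ hM.1]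
    rw [← pow_two]
    exact hsc
  rw [e]
  refine ⟨mul_ne_zero (mul_ne_zero hN.1 hN.1) (inv_ne_zero hM.1), O.mul_mem (O.mul_mem hN.2.1 hN.2.1) hM.2.2, ?_⟩
  rw [mul_inv, mul_inv, inv_inv]
  exact O.mul_mem (O.mul_mem hN.2.2 hN.2.2) hM.2.1

end Pool.Agent.SFC
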