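import Pool.Agent.SFC.BTr
import Pool.Agent.SFC.BDb

/-!
# SFC/BOrb: the simple summands of `V (S i)` form one orbit

`orb`: `T := q ≫ u` with `u : S j ⟶ V (S i)`, `u ≫ q = 𝟙` (`exists_retract`); `av V T = V f = c • 𝟙` (`G.avg`, `F.schur`), `c ≠ 0` by `av_scalar` (`n ≠ 0` in `K`).  For
`u' : S j' ⟶ V (S i)`, `u' ≠ 0`: `u' ≫ av V T = c • u' ≠ 0`, so by `av_eq` some `u' ≫ pL g (pR h T) ≠ 0`; this factors through
`T g ⊗ (S j ⊗ T h)`, which is simple (`smp_gl`), so it is isomorphic to `S j'` (`smp_iso`, `gal_reg`).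
`orb_dim`: `fN (S j') = fN (S j)` by `fN_mul`, `fN_gl`; `n * f i = fN (V (S i)) = ∑ j', dim Hom (S j', V (S i)) * fN (S j') = M * fN (S j)` (`fN_V`, `fo_S`, `fN_sum`).
-/

set_option autoImplicit false

noncomputable section

open CategoryTheory MonoidalCategory

namespace Pool.Agent.SFC

open Pool.Agent.NFG

universe v u v' u' w

variable {K : Type w} [Field K] {C : Type u} [Category.{v} C] [Preadditive C] [Linear K C] [MonoidalCategory C]
  [MonoidalPreadditive C] [MonoidalLinear K C] {N : Type u'} [Category.{v'} N] [Preadditive N] [Linear K N]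
  [MonoidalCategory N] [MonoidalPreadditive N] [MonoidalLinear K N] [IsIdempotentComplete N] {V : C ⥤ N}
  [V.LaxMonoidal] [V.OplaxMonoidal] {n : ℕ} [NeZero n] {ι : Type} [Fintype ι] [DecidableEq ι] {ι' : Type} [Fintype ι']
  [DecidableEq ι']

/-- the number of simple summands of `V (S i)` -/
def nsum (V : C ⥤ N) (F : Fus K C ι) (FN : Fus K N ι') (i : ι) : ℕ :=
  ∑ j, Module.finrank K (FN.S j ⟶ V.obj (F.S i))

private theorem BOrb_smp (FN : Fus K N ι') (j : ι') : Smp K (FN.S j) := ⟨FN.one_ne j, FN.schur j⟩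

private theorem BOrb_fac (G : GalF K V n) {x : C} {Z : N} (u : Z ⟶ V.obj x) (q : V.obj x ⟶ Z) (g h : ZMod n) :
    pL G g (pR G h (q ≫ u)) =
      (kL' G g x ≫ G.th.T g ◁ (kR' G h x ≫ q ▷ G.th.T h)) ≫ (G.th.T g ◁ (u ▷ G.th.T h ≫ kR G h x) ≫ kL G g x) := by
  unfold pL pR
  simp only [comp_whiskerRight, MonoidalCategory.whiskerLeft_comp, Category.assoc]

theorem orb [CharZero K] (G : GalF K V n) (F : Fus K C ι) (FN : Fus K N ι') {i : ι} {j j' : ι'}
    {u : FN.S j ⟶ V.obj (F.S i)} (hu : u ≠ 0) {u' : FN.S j' ⟶ V.obj (F.S i)} (hu' : u' ≠ 0) :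
    ∃ g h : ZMod n, Nonempty (FN.S j' ≅ G.th.T g ⊗ (FN.S j ⊗ G.th.T h)) := by
  obtain ⟨q, hq⟩ := exists_retract FN hu
  obtain ⟨f, hf⟩ := G.avg (q ≫ u)
  obtain ⟨c, rfl⟩ := F.schur i f
  have hav : av V (q ≫ u) = c • 𝟙 (V.obj (F.S i)) := by
    rw [hf, G.map_smul, V.map_id]
  have hsc := av_scalar G FN (BOrb_smp FN j) u q hq hav
  have hn : (n : K) ^ 2 ≠ 0 := pow_ne_zero 2 (Nat.cast_ne_zero.2 (NeZero.ne n))
  have hc : c ≠ 0 := by
    rintro rfl
    rw [zero_mul] at hsc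
    exact hn hsc.symm
  have h1 : u' ≫ av V (q ≫ u) ≠ 0 := by
    rw [hav, Linear.comp_smul, Category.comp_id]
    exact smul_ne_zero hc hu'
  have h2 : ∃ g h : ZMod n, u' ≫ pL G g (pR G h (q ≫ u)) ≠ 0 := by
    by_contra hcon
    push Not at hcon
    apply h1
    rw [av_eq G, Preadditive.comp_sum]
    refine Finset.sum_eq_zero fun g _ => ?_
    rw [Preadditive.comp_sum]
    exact Finset.sum_eq_zero fun h _ => hcon g h
  obtain ⟨g, h, hgh⟩ := h2
  refine ⟨g, h, smp_iso (gal_reg G F) (BOrb_smp FN j') (smp_gl G.th (BOrb_smp FN j) g h)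
    (u' ≫ kL' G g (F.S i) ≫ G.th.T g ◁ (kR' G h (F.S i) ≫ q ▷ G.th.T h)) ?_⟩
  intro h0
  apply hgh
  rw [BOrb_fac, ← Category.assoc, h0, Limits.zero_comp]

private theorem BOrb_iso (G : GalF K V n) (F : Fus K C ι) (f : ι → ℝ) {Z W : N} (e : Z ≅ W) :
    fN G F f Z = fN G F f W := by
  unfold fN
  congr 1
  refine Finset.sum_congr rfl fun k _ => ?_
  congr 2
  exact LinearEquiv.finrank_eq (Linear.homCongr K (Iso.refl (V.obj (F.S k))) e)

theorem orb_dim [CharZero K] (G : GalF K V n) (hC : Rig C) {F : Fus K C ι} {f : ι → ℝ} (hf : IsFPdim F f)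
    (FN : Fus K N ι') {i : ι} {j : ι'} {u : FN.S j ⟶ V.obj (F.S i)} (hu : u ≠ 0) :
    (n : ℝ) * f i = nsum V F FN i * fN G F f (FN.S j) := by
  rw [← fo_S F f i, ← fN_V G hf (F.S i), fN_sum G F f FN (V.obj (F.S i)), nsum, Nat.cast_sum, Finset.sum_mul]
  refine Finset.sum_congr rfl fun j' _ => ?_
  by_cases h0 : Module.finrank K (FN.S j' ⟶ V.obj (F.S i)) = 0
  · rw [h0, Nat.cast_zero, zero_mul, zero_mul]
  · have hnt : Nontrivial (FN.S j' ⟶ V.obj (F.S i)) := Module.nontrivial_of_finrank_pos (R := K) (Nat.pos_of_ne_zero h0)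
    obtain ⟨u', hu'⟩ := exists_ne (0 : FN.S j' ⟶ V.obj (F.S i))
    obtain ⟨g, h, ⟨e⟩⟩ := orb G F FN hu hu'
    rw [BOrb_iso G F f e, fN_mul G hC hf FN, fN_mul G hC hf FN, fN_gl G hC hf FN, fN_gl G hC hf FN, one_mul, mul_one]

end Pool.Agent.SFC
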