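import Pool.Agent.SFC.BSig

/-!
# SFC/BPhi: `ZMod n × ZMod n` acts on `Hom (V x, V y)`; averaging is the sum over this action

`kL g x : T g ⊗ V x ⟶ V x` is the action of `T g ⊂ V 1`.  Module axioms: `aL` is a unital associative action of `V 1` (from `associativity`, `left_unitality` of `μ`), so
by `k_mul`, `k_one`: `(th.m g h gh).hom ▷ V x ≫ kL gh x = α ≫ T g ◁ kL h x ≫ kL g x` and `th.u.hom ▷ V x ≫ kL 0 x = λ`.  So `kL g x` is invertible, with inverse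
`kL' g x` (built from `u`, `(m g (-g) 0)⁻¹`, `kL (-g) x`); use `th.assoc`, `th.unitR`, `th.unitL` as for group actions.
`pL g T = kL' g x ≫ T g ◁ T ≫ kL g y`.  Same on the right: `kR`, `kR'`, `pR`.
`sum_pL`: `∑ g, pL g T = cL V x ≫ V 1 ◁ T ≫ aL V y`: insert `cL_eq`, `sig_eq`; the summand of `g` is `pL g T`.
`sum_pR`: `∑ g, pR g T = cR V x ≫ T ▷ V 1 ≫ aR V y` (the summand of `sig_eq` with index `g` is `pR (-g) T`; reindex the sum by `g ↦ -g`).
`av_eq`: combine.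
-/

set_option autoImplicit false

noncomputable section

open CategoryTheory MonoidalCategory
open Functor.LaxMonoidal Functor.OplaxMonoidal

namespace Pool.Agent.SFC

universe v u v' u' w

variable {K : Type w} [Field K] {C : Type u} [Category.{v} C] [Preadditive C] [Linear K C] [MonoidalCategory C]
  [MonoidalPreadditive C] [MonoidalLinear K C] {N : Type u'} [Category.{v'} N] [Preadditive N] [Linear K N]
  [MonoidalCategory N] [MonoidalPreadditive N] [MonoidalLinear K N] {V : C ⥤ N} [V.LaxMonoidal] [V.OplaxMonoidal]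
  {n : ℕ} [NeZero n]

/-- action of `T g` from the left -/
def kL (G : GalF K V n) (g : ZMod n) (x : C) : G.th.T g ⊗ V.obj x ⟶ V.obj x := G.k g ▷ V.obj x ≫ aL V x

/-- its inverse -/
def kL' (G : GalF K V n) (g : ZMod n) (x : C) : V.obj x ⟶ G.th.T g ⊗ V.obj x :=
  (λ_ _).inv ≫ (G.th.u.hom ≫ (G.th.m g (-g) 0 (add_neg_cancel g)).inv) ▷ V.obj x ≫ (α_ _ _ _).hom ≫
    G.th.T g ◁ kL G (-g) x

/-- action of `T g` from the right -/
def kR (G : GalF K V n) (g : ZMod n) (x : C) : V.obj x ⊗ G.th.T g ⟶ V.obj x := V.obj x ◁ G.k g ≫ aR V x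

/-- its inverse -/
def kR' (G : GalF K V n) (g : ZMod n) (x : C) : V.obj x ⟶ V.obj x ⊗ G.th.T g :=
  (ρ_ _).inv ≫ V.obj x ◁ (G.th.u.hom ≫ (G.th.m (-g) g 0 (neg_add_cancel g)).inv) ≫ (α_ _ _ _).inv ≫
    kR G (-g) x ▷ G.th.T g

/-! ### module axioms -/

private theorem BPhi_aL_assoc (x : C) : aL V (𝟙_ C) ▷ V.obj x ≫ aL V x =
    (α_ _ _ _).hom ≫ V.obj (𝟙_ C) ◁ aL V x ≫ aL V x := by
  have h2 : (λ_ (𝟙_ C)).hom ▷ x = (α_ (𝟙_ C) (𝟙_ C) x).hom ≫ 𝟙_ C ◁ (λ_ x).hom := by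
    monoidal
  simp only [aL, comp_whiskerRight, MonoidalCategory.whiskerLeft_comp, Category.assoc]
  rw [μ_natural_left_assoc, μ_natural_right_assoc, h2, V.map_comp, Category.assoc, Functor.LaxMonoidal.associativity_assoc]

private theorem BPhi_aR_assoc (x : C) : V.obj x ◁ aR V (𝟙_ C) ≫ aR V x =
    (α_ _ _ _).inv ≫ aR V x ▷ V.obj (𝟙_ C) ≫ aR V x := by
  have h2 : (ρ_ x).hom ▷ 𝟙_ C = (α_ x (𝟙_ C) (𝟙_ C)).hom ≫ x ◁ (ρ_ (𝟙_ C)).hom := by
    monoidal
  rw [Iso.eq_inv_comp]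
  simp only [aR, comp_whiskerRight, MonoidalCategory.whiskerLeft_comp, Category.assoc]
  rw [μ_natural_left_assoc, μ_natural_right_assoc, h2, V.map_comp, Category.assoc, Functor.LaxMonoidal.associativity_assoc]

private theorem BPhi_kL_mul (G : GalF K V n) (g h gh : ZMod n) (e : g + h = gh) (x : C) :
    (G.th.m g h gh e).hom ▷ V.obj x ≫ kL G gh x = (α_ _ _ _).hom ≫ G.th.T g ◁ kL G h x ≫ kL G g x := by
  have h1 := G.k_mul g h gh e
  rw [kL, ← Category.assoc, ← comp_whiskerRight, ← h1, comp_whiskerRight, Category.assoc, BPhi_aL_assoc]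
  rw [tensorHom_def', comp_whiskerRight, Category.assoc, associator_naturality_left_assoc,
    ← whisker_exchange_assoc, associator_naturality_middle_assoc, kL, kL, MonoidalCategory.whiskerLeft_comp,
    Category.assoc]

private theorem BPhi_kL_one (G : GalF K V n) (x : C) :
    G.th.u.hom ▷ V.obj x ≫ kL G 0 x = (λ_ (V.obj x)).hom := by
  rw [kL, ← Category.assoc, ← comp_whiskerRight, ← G.k_one, aL]
  exact (Functor.LaxMonoidal.left_unitality V x).symm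

private theorem BPhi_kR_mul (G : GalF K V n) (g h gh : ZMod n) (e : g + h = gh) (x : C) :
    V.obj x ◁ (G.th.m g h gh e).hom ≫ kR G gh x = (α_ _ _ _).inv ≫ kR G g x ▷ G.th.T h ≫ kR G h x := by
  have h1 := G.k_mul g h gh e
  have h2 : aL V (𝟙_ C) = aR V (𝟙_ C) := by rw [aL, aR, unitors_equal]
  rw [kR, ← Category.assoc, ← MonoidalCategory.whiskerLeft_comp, ← h1, MonoidalCategory.whiskerLeft_comp,
    Category.assoc, h2, BPhi_aR_assoc]
  rw [MonoidalCategory.tensorHom_def, MonoidalCategory.whiskerLeft_comp, Category.assoc, associator_inv_naturality_right_assoc,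
    whisker_exchange_assoc, associator_inv_naturality_middle_assoc, kR, kR, comp_whiskerRight,
    Category.assoc]

private theorem BPhi_kR_one (G : GalF K V n) (x : C) :
    V.obj x ◁ G.th.u.hom ≫ kR G 0 x = (ρ_ (V.obj x)).hom := by
  rw [kR, ← Category.assoc, ← MonoidalCategory.whiskerLeft_comp, ← G.k_one, aR]
  exact (Functor.LaxMonoidal.right_unitality V x).symm

private theorem BPhi_cancelL (G : GalF K V n) (g : ZMod n) {Z W : N} (a b : Z ⟶ W)
    (h : G.th.T (-g) ◁ a = G.th.T (-g) ◁ b) : a = b := by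
  have h1 : ∀ c : Z ⟶ W, 𝟙_ N ◁ c ≫ (G.th.u.hom ≫ (G.th.m g (-g) 0 (add_neg_cancel g)).inv) ▷ W ≫ (α_ _ _ _).hom =
      (G.th.u.hom ≫ (G.th.m g (-g) 0 (add_neg_cancel g)).inv) ▷ Z ≫ (α_ _ _ _).hom ≫
        G.th.T g ◁ G.th.T (-g) ◁ c := by
    intro c
    rw [whisker_exchange_assoc, associator_naturality_right]
  have h2 : 𝟙_ N ◁ a ≫ (G.th.u.hom ≫ (G.th.m g (-g) 0 (add_neg_cancel g)).inv) ▷ W ≫ (α_ _ _ _).hom =
      𝟙_ N ◁ b ≫ (G.th.u.hom ≫ (G.th.m g (-g) 0 (add_neg_cancel g)).inv) ▷ W ≫ (α_ _ _ _).hom := by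
    rw [h1, h1, h]
  rw [cancel_mono] at h2
  have h3 := congrArg (fun f => (λ_ Z).inv ≫ f ≫ (λ_ W).hom) h2
  simpa using h3

private theorem BPhi_cancelR (G : GalF K V n) (g : ZMod n) {Z W : N} (a b : Z ⟶ W)
    (h : a ▷ G.th.T (-g) = b ▷ G.th.T (-g)) : a = b := by
  have h1 : ∀ c : Z ⟶ W, c ▷ 𝟙_ N ≫ W ◁ (G.th.u.hom ≫ (G.th.m (-g) g 0 (neg_add_cancel g)).inv) ≫ (α_ _ _ _).inv =
      Z ◁ (G.th.u.hom ≫ (G.th.m (-g) g 0 (neg_add_cancel g)).inv) ≫ (α_ _ _ _).inv ≫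
        c ▷ G.th.T (-g) ▷ G.th.T g := by
    intro c
    rw [← whisker_exchange_assoc, associator_inv_naturality_left]
  have h2 : a ▷ 𝟙_ N ≫ W ◁ (G.th.u.hom ≫ (G.th.m (-g) g 0 (neg_add_cancel g)).inv) ≫ (α_ _ _ _).inv =
      b ▷ 𝟙_ N ≫ W ◁ (G.th.u.hom ≫ (G.th.m (-g) g 0 (neg_add_cancel g)).inv) ≫ (α_ _ _ _).inv := by
    rw [h1, h1, h]
  rw [cancel_mono] at h2
  have h3 := congrArg (fun f => (ρ_ Z).inv ≫ f ≫ (ρ_ W).hom) h2
  simpa using h3

private theorem BPhi_kL'_kL (G : GalF K V n) (g : ZMod n) (x : C) : kL' G g x ≫ kL G g x = 𝟙 _ := by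
  have h1 := BPhi_kL_mul G g (-g) 0 (add_neg_cancel g) x
  rw [kL']
  simp only [Category.assoc]
  rw [← h1, comp_whiskerRight, Category.assoc, inv_hom_whiskerRight_assoc, BPhi_kL_one, Iso.inv_hom_id]

private theorem BPhi_kR'_kR (G : GalF K V n) (g : ZMod n) (x : C) : kR' G g x ≫ kR G g x = 𝟙 _ := by
  have h1 := BPhi_kR_mul G (-g) g 0 (neg_add_cancel g) x
  rw [kR']
  simp only [Category.assoc]
  rw [← h1, MonoidalCategory.whiskerLeft_comp, Category.assoc, whiskerLeft_inv_hom_assoc, BPhi_kR_one,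
    Iso.inv_hom_id]

theorem kL_inv (G : GalF K V n) (g : ZMod n) (x : C) : kL G g x ≫ kL' G g x = 𝟙 _ ∧ kL' G g x ≫ kL G g x = 𝟙 _ := by
  refine ⟨?_, BPhi_kL'_kL G g x⟩
  apply BPhi_cancelL G g
  have h0 : kL G 0 x = G.th.u.inv ▷ V.obj x ≫ (λ_ (V.obj x)).hom := by
    rw [← BPhi_kL_one G x, inv_hom_whiskerRight_assoc]
  have h1 := BPhi_kL_mul G (-g) g 0 (neg_add_cancel g) x
  have h2 : G.th.T (-g) ◁ kL G g x ≫ kL G (-g) x =
      (α_ _ _ _).inv ≫ (G.th.m (-g) g 0 (neg_add_cancel g)).hom ▷ V.obj x ≫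
        G.th.u.inv ▷ V.obj x ≫ (λ_ (V.obj x)).hom := by
    rw [← h0, h1, Iso.inv_hom_id_assoc]
  have h3 : IsIso (G.th.T (-g) ◁ kL G g x ≫ kL G (-g) x) := by
    rw [h2]; infer_instance
  rw [← cancel_mono (G.th.T (-g) ◁ kL G g x ≫ kL G (-g) x), ← Category.assoc, ← Category.assoc,
    ← MonoidalCategory.whiskerLeft_comp, ← MonoidalCategory.whiskerLeft_comp, Category.assoc, BPhi_kL'_kL,
    Category.comp_id, Category.id_comp]

theorem kR_inv (G : GalF K V n) (g : ZMod n) (x : C) : kR G g x ≫ kR' G g x = 𝟙 _ ∧ kR' G g x ≫ kR G g x = 𝟙 _ := by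
  refine ⟨?_, BPhi_kR'_kR G g x⟩
  apply BPhi_cancelR G g
  have h0 : kR G 0 x = V.obj x ◁ G.th.u.inv ≫ (ρ_ (V.obj x)).hom := by
    rw [← BPhi_kR_one G x, whiskerLeft_inv_hom_assoc]
  have h1 := BPhi_kR_mul G g (-g) 0 (add_neg_cancel g) x
  have h2 : kR G g x ▷ G.th.T (-g) ≫ kR G (-g) x =
      (α_ _ _ _).hom ≫ V.obj x ◁ (G.th.m g (-g) 0 (add_neg_cancel g)).hom ≫
        V.obj x ◁ G.th.u.inv ≫ (ρ_ (V.obj x)).hom := by
    rw [← h0, h1, Iso.hom_inv_id_assoc]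
  have h3 : IsIso (kR G g x ▷ G.th.T (-g) ≫ kR G (-g) x) := by
    rw [h2]; infer_instance
  rw [← cancel_mono (kR G g x ▷ G.th.T (-g) ≫ kR G (-g) x), ← Category.assoc, ← Category.assoc,
    ← comp_whiskerRight, ← comp_whiskerRight, Category.assoc, BPhi_kR'_kR,
    Category.comp_id, Category.id_comp]

/-- left action on morphisms -/
def pL (G : GalF K V n) (g : ZMod n) {x y : C} (T : V.obj x ⟶ V.obj y) : V.obj x ⟶ V.obj y :=
  kL' G g x ≫ G.th.T g ◁ T ≫ kL G g y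

/-- right action on morphisms -/
def pR (G : GalF K V n) (g : ZMod n) {x y : C} (T : V.obj x ⟶ V.obj y) : V.obj x ⟶ V.obj y :=
  kR' G g x ≫ T ▷ G.th.T g ≫ kR G g y

private theorem BPhi_termL (G : GalF K V n) (g : ZMod n) {x y : C} (T : V.obj x ⟶ V.obj y) :
    (λ_ (V.obj x)).inv ≫ (G.th.u.hom ≫ (G.th.m g (-g) 0 (add_neg_cancel g)).inv ≫ (G.k g ⊗ₘ G.k (-g))) ▷ V.obj x ≫
      (α_ _ _ _).hom ≫ V.obj (𝟙_ C) ◁ aL V x ≫ V.obj (𝟙_ C) ◁ T ≫ aL V y = pL G g T := by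
  rw [pL, kL', kL, kL]
  simp only [comp_whiskerRight, MonoidalCategory.whiskerLeft_comp, Category.assoc]
  rw [tensorHom_def', comp_whiskerRight, Category.assoc, associator_naturality_left_assoc,
    ← whisker_exchange_assoc, ← whisker_exchange_assoc, associator_naturality_middle_assoc]

theorem sum_pL (G : GalF K V n) {x y : C} (T : V.obj x ⟶ V.obj y) :
    ∑ g, pL G g T = cL V x ≫ V.obj (𝟙_ C) ◁ T ≫ aL V y := by
  rw [cL_eq G, sig_eq G, sum_whiskerRight, Preadditive.sum_comp, Preadditive.comp_sum, Preadditive.sum_comp]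
  refine Finset.sum_congr rfl fun g _ => ?_
  rw [← BPhi_termL]
  simp only [Category.assoc]

private theorem BPhi_termR (G : GalF K V n) (g h : ZMod n) (e : h + g = 0) {x y : C} (T : V.obj x ⟶ V.obj y) :
    (ρ_ (V.obj x)).inv ≫ V.obj x ◁ (G.th.u.hom ≫ (G.th.m h g 0 e).inv ≫ (G.k h ⊗ₘ G.k g)) ≫
      (α_ _ _ _).inv ≫ aR V x ▷ V.obj (𝟙_ C) ≫ T ▷ V.obj (𝟙_ C) ≫ aR V y = pR G g T := by
  obtain rfl : h = -g := eq_neg_of_add_eq_zero_left e
  rw [pR, kR', kR, kR]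
  simp only [comp_whiskerRight, MonoidalCategory.whiskerLeft_comp, Category.assoc]
  rw [MonoidalCategory.tensorHom_def, MonoidalCategory.whiskerLeft_comp, Category.assoc, associator_inv_naturality_right_assoc,
    whisker_exchange_assoc, whisker_exchange_assoc, associator_inv_naturality_middle_assoc]

theorem sum_pR (G : GalF K V n) {x y : C} (T : V.obj x ⟶ V.obj y) :
    ∑ g, pR G g T = cR V x ≫ T ▷ V.obj (𝟙_ C) ≫ aR V y := by
  rw [cR_eq G, sig_eq G, whiskerLeft_sum, Preadditive.sum_comp, Preadditive.comp_sum, Preadditive.sum_comp,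
    ← Equiv.sum_comp (Equiv.neg (ZMod n))]
  refine Finset.sum_congr rfl fun g _ => ?_
  rw [Equiv.neg_apply, ← BPhi_termR G (-g) g (add_neg_cancel g)]
  simp only [Category.assoc]

private theorem BPhi_pL_sum (G : GalF K V n) (g : ZMod n) {x y : C} (T : ZMod n → (V.obj x ⟶ V.obj y)) :
    pL G g (∑ h, T h) = ∑ h, pL G g (T h) := by
  simp only [pL]
  rw [whiskerLeft_sum, Preadditive.sum_comp, Preadditive.comp_sum]

theorem av_eq (G : GalF K V n) {x y : C} (T : V.obj x ⟶ V.obj y) : av V T = ∑ g, ∑ h, pL G g (pR G h T) := by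
  rw [av, ← sum_pR G, ← sum_pL G]
  exact Finset.sum_congr rfl fun g _ => BPhi_pL_sum G g _

end Pool.Agent.SFC
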