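import Pool.Agent.SFC.Stm

/-!
# SFC/BSig: the copairing of the algebra `V 1`

`sig V : 𝟙 ⟶ V 1 ⊗ V 1` is `ε ≫ cL (𝟙)`.
`cL_eq`: precompose `G.frob1 (𝟙_ C) (𝟙_ C) x` with `ε ≫ V λ⁻¹` (tensored with `V x`); left unitality of `μ`, naturality of `μ`, `δ`.
`cR_eq`: in the same way with `G.frob2`.
`sig_eq`: put `β = aL V 1 ≫ η : V 1 ⊗ V 1 ⟶ 𝟙`.  From `cL_eq` for `x = 𝟙` and right (co)unitality (`λ_ 𝟙 = ρ_ 𝟙`, `unitors_equal`):
`(λ_ _).inv ≫ sig ▷ V 1 ≫ α ≫ V 1 ◁ β = (ρ_ _).inv`.  Let `s'` be the right hand side of `sig_eq`.  `β (k g ⊗ k h) = m ≫ k (g + h) ≫ η` (`k_mul`) is `0` if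
`g + h ≠ 0` (`kη`) and `m ≫ u⁻¹` if `g + h = 0` (`k_one`, `sep`: `u ≫ k 0 ≫ η = 𝟙`).  Hence `(ρ_ _).inv ≫ V 1 ◁ s' ≫ α⁻¹ ≫ β ▷ V 1 = (λ_ _).inv`: check it on the
components `k g` (`∑ j g ≫ k g = 𝟙`): only the summand `h = -g` remains and it is the identity of `T g` by `th.assoc` for `(g, -g, g)`, `th.unitL`, `th.unitR`.
Two such copairings are equal: `sig = sig ≫ (..)` (insert `s'` in the middle and use both identities and the interchange law).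
-/

set_option autoImplicit false

noncomputable section

open CategoryTheory MonoidalCategory
open Functor.LaxMonoidal Functor.OplaxMonoidal

namespace Pool.Agent.SFC

universe v u v' u' w

variable {K : Type w} [Field K] {C : Type u} [Category.{v} C] [Preadditive C] [Linear K C] [MonoidalCategory C]
  [MonoidalPreadditive C] [MonoidalLinear K C] {N : Type u'} [Category.{v'} N] [Preadditive N] [Linear K N]
  [MonoidalCategory N] [MonoidalPreadditive N] [MonoidalLinear K N] {V : C ⥤ N} [V.LaxMonoidal] [V.OplaxMonoidal]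
  {n : ℕ} [NeZero n]

/-- the copairing -/
def sig (V : C ⥤ N) [V.LaxMonoidal] [V.OplaxMonoidal] : 𝟙_ N ⟶ V.obj (𝟙_ C) ⊗ V.obj (𝟙_ C) := ε V ≫ cL V (𝟙_ C)

theorem cL_eq (G : GalF K V n) (x : C) :
    cL V x = (λ_ (V.obj x)).inv ≫ sig V ▷ V.obj x ≫ (α_ _ _ _).hom ≫ V.obj (𝟙_ C) ◁ aL V x := by
  have h := G.frob1 (𝟙_ C) (𝟙_ C) x
  have h1 : (λ_ (V.obj x)).inv ≫ sig V ▷ V.obj x ≫ (α_ _ _ _).hom ≫ V.obj (𝟙_ C) ◁ aL V x =
      (λ_ (V.obj x)).inv ≫ ε V ▷ V.obj x ≫ V.map (λ_ (𝟙_ C)).inv ▷ V.obj x ≫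
        (δ V (𝟙_ C) (𝟙_ C) ▷ V.obj x ≫ (α_ _ _ _).hom ≫ V.obj (𝟙_ C) ◁ μ V (𝟙_ C) x) ≫
          V.obj (𝟙_ C) ◁ V.map (λ_ x).hom := by
    simp only [sig, cL, aL, comp_whiskerRight, MonoidalCategory.whiskerLeft_comp, Category.assoc]
  have h2 : (λ_ x).inv ≫ (λ_ (𝟙_ C)).inv ▷ x ≫ (α_ (𝟙_ C) (𝟙_ C) x).hom ≫ 𝟙_ C ◁ (λ_ x).hom = (λ_ x).inv := by
    monoidal
  rw [h1, h, Category.assoc, Category.assoc, δ_natural_right, μ_natural_left_assoc, left_unitality_inv_assoc,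
    ← V.map_comp_assoc, ← V.map_comp_assoc, ← V.map_comp_assoc, Category.assoc, Category.assoc, h2, cL]

theorem cR_eq (G : GalF K V n) (x : C) :
    cR V x = (ρ_ (V.obj x)).inv ≫ V.obj x ◁ sig V ≫ (α_ _ _ _).inv ≫ aR V x ▷ V.obj (𝟙_ C) := by
  have h := G.frob2 x (𝟙_ C) (𝟙_ C)
  have h1 : (ρ_ (V.obj x)).inv ≫ V.obj x ◁ sig V ≫ (α_ _ _ _).inv ≫ aR V x ▷ V.obj (𝟙_ C) =
      (ρ_ (V.obj x)).inv ≫ V.obj x ◁ ε V ≫ V.obj x ◁ V.map (λ_ (𝟙_ C)).inv ≫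
        (V.obj x ◁ δ V (𝟙_ C) (𝟙_ C) ≫ (α_ _ _ _).inv ≫ μ V x (𝟙_ C) ▷ V.obj (𝟙_ C)) ≫
          V.map (ρ_ x).hom ▷ V.obj (𝟙_ C) := by
    simp only [sig, cL, aR, comp_whiskerRight, MonoidalCategory.whiskerLeft_comp, Category.assoc]
  have h2 : (ρ_ x).inv ≫ x ◁ (λ_ (𝟙_ C)).inv ≫ (α_ x (𝟙_ C) (𝟙_ C)).inv ≫ (ρ_ x).hom ▷ 𝟙_ C = (ρ_ x).inv := by
    monoidal
  rw [h1, h, Category.assoc, Category.assoc, δ_natural_left, μ_natural_right_assoc, right_unitality_inv_assoc,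
    ← V.map_comp_assoc, ← V.map_comp_assoc, ← V.map_comp_assoc, Category.assoc, Category.assoc, h2, cR]

/-- two copairings for the same pairing are equal -/
private theorem BSig_uniq {X : N} (s t : 𝟙_ N ⟶ X ⊗ X) (b : X ⊗ X ⟶ 𝟙_ N)
    (hs : (λ_ X).inv ≫ s ▷ X ≫ (α_ X X X).hom ≫ X ◁ b = (ρ_ X).inv)
    (ht : (ρ_ X).inv ≫ X ◁ t ≫ (α_ X X X).inv ≫ b ▷ X = (λ_ X).inv) : s = t := by
  have h1 : s ≫ X ◁ ((ρ_ X).inv ≫ X ◁ t ≫ (α_ X X X).inv ≫ b ▷ X ≫ (λ_ X).hom) = s := by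
    have h : (ρ_ X).inv ≫ X ◁ t ≫ (α_ X X X).inv ≫ b ▷ X ≫ (λ_ X).hom = 𝟙 X := by
      have := congrArg (fun f => f ≫ (λ_ X).hom) ht
      simpa only [Category.assoc, Iso.inv_hom_id] using this
    rw [h, whiskerLeft_id, Category.comp_id]
  have h2 : t ≫ ((λ_ X).inv ≫ s ▷ X ≫ (α_ X X X).hom ≫ X ◁ b ≫ (ρ_ X).hom) ▷ X = t := by
    have h : (λ_ X).inv ≫ s ▷ X ≫ (α_ X X X).hom ≫ X ◁ b ≫ (ρ_ X).hom = 𝟙 X := by
      have := congrArg (fun f => f ≫ (ρ_ X).hom) hs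
      simpa only [Category.assoc, Iso.inv_hom_id] using this
    rw [h, id_whiskerRight, Category.comp_id]
  have h3 : s ≫ X ◁ ((ρ_ X).inv ≫ X ◁ t) = t ≫ ((λ_ X).inv ≫ s ▷ X) ▷ X ≫ (α_ _ _ _).hom ≫ (α_ _ _ _).hom := by
    have e1 : s ≫ X ◁ ((ρ_ X).inv ≫ X ◁ t) = (ρ_ (𝟙_ N)).inv ≫ (s ▷ 𝟙_ N ≫ (X ⊗ X) ◁ t) ≫ (α_ _ _ _).hom := by
      monoidal
    have e2 : t ≫ ((λ_ X).inv ≫ s ▷ X) ▷ X ≫ (α_ _ _ _).hom ≫ (α_ _ _ _).hom =
        (ρ_ (𝟙_ N)).inv ≫ (𝟙_ N ◁ t ≫ s ▷ (X ⊗ X)) ≫ (α_ _ _ _).hom := by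
      monoidal
    rw [e1, e2, whisker_exchange]
  calc s = s ≫ X ◁ ((ρ_ X).inv ≫ X ◁ t ≫ (α_ X X X).inv ≫ b ▷ X ≫ (λ_ X).hom) := h1.symm
    _ = (s ≫ X ◁ ((ρ_ X).inv ≫ X ◁ t)) ≫ X ◁ ((α_ X X X).inv ≫ b ▷ X ≫ (λ_ X).hom) := by
        simp only [MonoidalCategory.whiskerLeft_comp, Category.assoc]
    _ = t ≫ ((λ_ X).inv ≫ s ▷ X ≫ (α_ X X X).hom ≫ X ◁ b ≫ (ρ_ X).hom) ▷ X := by
        rw [h3]
        monoidal
    _ = t := h2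

/-- the pairing on the components -/
private theorem BSig_pair (G : GalF K V n) (g h : ZMod n) :
    (g + h ≠ 0 → (G.k g ⊗ₘ G.k h) ≫ aL V (𝟙_ C) ≫ η V = 0) ∧
      ∀ e : g + h = 0, (G.k g ⊗ₘ G.k h) ≫ aL V (𝟙_ C) ≫ η V = (G.th.m g h 0 e).hom ≫ G.th.u.inv := by
  constructor
  · intro e
    have h1 := G.k_mul g h (g + h) rfl
    rw [← Category.assoc, h1, Category.assoc, G.kη _ e, Limits.comp_zero]
  · intro e
    have h1 := G.k_mul g h 0 e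
    have h2 : G.k 0 ≫ η V = G.th.u.inv := by
      have h3 := G.sep
      rw [G.k_one, Category.assoc] at h3
      rw [← cancel_epi G.th.u.hom, h3, Iso.hom_inv_id]
    rw [← Category.assoc, h1, Category.assoc, h2]

/-- the identity of `T g` -/
private theorem BSig_Tg (G : GalF K V n) (g : ZMod n) (e : g + -g = 0) (e' : -g + g = 0) :
    (ρ_ (G.th.T g)).inv ≫ G.th.T g ◁ (G.th.u.hom ≫ (G.th.m (-g) g 0 e').inv) ≫ (α_ _ _ _).inv ≫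
      ((G.th.m g (-g) 0 e).hom ≫ G.th.u.inv) ▷ G.th.T g = (λ_ (G.th.T g)).inv := by
  have h := G.th.assoc g (-g) g 0 0 g e (zero_add g) e' (add_zero g)
  have hL := G.th.unitL g (zero_add g)
  have hR := G.th.unitR g (add_zero g)
  have h1 : (G.th.m g (-g) 0 e).hom ▷ G.th.T g = (α_ (G.th.T g) (G.th.T (-g)) (G.th.T g)).hom ≫
      G.th.T g ◁ (G.th.m (-g) g 0 e').hom ≫ (G.th.m g 0 g (add_zero g)).hom ≫ (G.th.m 0 g g (zero_add g)).inv := by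
    rw [← cancel_mono (G.th.m 0 g g (zero_add g)).hom, h]
    simp only [Category.assoc, Iso.inv_hom_id, Category.comp_id]
  have h2 : (ρ_ (G.th.T g)).inv ≫ G.th.T g ◁ G.th.u.hom ≫ (G.th.m g 0 g (add_zero g)).hom = 𝟙 _ := by
    rw [hR, Iso.inv_hom_id]
  have h3 : (G.th.m 0 g g (zero_add g)).inv ≫ G.th.u.inv ▷ G.th.T g = (λ_ (G.th.T g)).inv := by
    rw [← cancel_epi (G.th.m 0 g g (zero_add g)).hom, ← cancel_epi (G.th.u.hom ▷ G.th.T g), Iso.hom_inv_id_assoc,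
      hom_inv_whiskerRight, ← Category.assoc, hL, Iso.hom_inv_id]
  rw [comp_whiskerRight, h1, MonoidalCategory.whiskerLeft_comp]
  simp only [Category.assoc, Iso.inv_hom_id_assoc]
  rw [whiskerLeft_inv_hom_assoc, h3, ← Category.assoc, ← Category.assoc, Category.assoc (ρ_ (G.th.T g)).inv, h2,
    Category.id_comp]

private theorem BSig_move {X T1 T2 T3 : N} (a : T1 ⟶ X) (b : T2 ⟶ X) (c : T3 ⟶ X) (t : 𝟙_ N ⟶ T2 ⊗ T3)
    (p : X ⊗ X ⟶ 𝟙_ N) : a ≫ (ρ_ X).inv ≫ X ◁ (t ≫ (b ⊗ₘ c)) ≫ (α_ X X X).inv ≫ p ▷ X =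
      (ρ_ T1).inv ≫ T1 ◁ t ≫ (α_ T1 T2 T3).inv ≫ ((a ⊗ₘ b) ≫ p) ▷ T3 ≫ 𝟙_ N ◁ c := by
  rw [rightUnitor_inv_naturality_assoc, MonoidalCategory.whiskerLeft_comp, Category.assoc,
    ← whisker_exchange_assoc]
  congr 2
  have h1 : a ▷ (T2 ⊗ T3) ≫ X ◁ (b ⊗ₘ c) ≫ (α_ X X X).inv = (α_ T1 T2 T3).inv ≫ ((a ⊗ₘ b) ⊗ₘ c) := by
    rw [← associator_inv_naturality, tensorHom_def a (b ⊗ₘ c), Category.assoc]
  rw [reassoc_of% h1, tensorHom_def' (a ⊗ₘ b) c, Category.assoc, ← comp_whiskerRight, ← whisker_exchange]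

private theorem BSig_term (G : GalF K V n) (g h g' : ZMod n) (e : g + h = 0) (e' : h + g' = 0) :
    G.k g ≫ (ρ_ (V.obj (𝟙_ C))).inv ≫ V.obj (𝟙_ C) ◁ (G.th.u.hom ≫ (G.th.m h g' 0 e').inv ≫ (G.k h ⊗ₘ G.k g')) ≫
      (α_ _ _ _).inv ≫ (aL V (𝟙_ C) ≫ η V) ▷ V.obj (𝟙_ C) = G.k g ≫ (λ_ _).inv := by
  obtain rfl : h = -g := (neg_eq_of_add_eq_zero_right e).symm
  obtain rfl : g' = g := by
    have := neg_eq_of_add_eq_zero_right e'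
    rw [neg_neg] at this
    exact this.symm
  have h1 := BSig_Tg G g' e e'
  have h2 := (BSig_pair G g' (-g')).2 e
  rw [← Category.assoc G.th.u.hom, BSig_move, h2, leftUnitor_inv_naturality, ← h1]
  simp only [Category.assoc]

theorem sig_eq (G : GalF K V n) : sig V =
    ∑ g, G.th.u.hom ≫ (G.th.m g (-g) 0 (add_neg_cancel g)).inv ≫ (G.k g ⊗ₘ G.k (-g)) := by
  refine BSig_uniq _ _ (aL V (𝟙_ C) ≫ η V) ?_ ?_
  · have h := cL_eq G (𝟙_ C)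
    have h1 : (ρ_ (V.obj (𝟙_ C))).inv = cL V (𝟙_ C) ≫ V.obj (𝟙_ C) ◁ η V := by
      rw [Functor.OplaxMonoidal.right_unitality, cL, unitors_inv_equal, Category.assoc]
    rw [h1, h]
    simp only [MonoidalCategory.whiskerLeft_comp, Category.assoc]
  · have hg : ∀ g, G.k g ≫ (ρ_ (V.obj (𝟙_ C))).inv ≫ V.obj (𝟙_ C) ◁ (∑ g, G.th.u.hom ≫
        (G.th.m g (-g) 0 (add_neg_cancel g)).inv ≫ (G.k g ⊗ₘ G.k (-g))) ≫
        (α_ _ _ _).inv ≫ (aL V (𝟙_ C) ≫ η V) ▷ V.obj (𝟙_ C) = G.k g ≫ (λ_ _).inv := by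
      intro g
      rw [whiskerLeft_sum, Preadditive.sum_comp, Preadditive.comp_sum, Preadditive.comp_sum,
        Finset.sum_eq_single (-g)]
      · exact BSig_term G g (-g) (- -g) (add_neg_cancel g) (add_neg_cancel (-g))
      · intro h _ hh
        have e : g + h ≠ 0 := fun e => hh (neg_eq_of_add_eq_zero_right e).symm
        rw [← Category.assoc G.th.u.hom, BSig_move, (BSig_pair G g h).1 e, MonoidalPreadditive.zero_whiskerRight,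
          Limits.zero_comp, Limits.comp_zero, Limits.comp_zero, Limits.comp_zero]
      · intro h
        exact absurd (Finset.mem_univ _) h
    rw [← Category.id_comp (ρ_ (V.obj (𝟙_ C))).inv, ← G.sum, Category.assoc, Preadditive.sum_comp,
      ← Category.id_comp (λ_ (V.obj (𝟙_ C))).inv, ← G.sum, Preadditive.sum_comp]
    refine Finset.sum_congr rfl fun g _ => ?_
    rw [Category.assoc, Category.assoc, hg g]

end Pool.Agent.SFC
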