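import Pool.Agent.SFC.BPhiH
import Pool.Agent.SFC.BGcH

/-!
# SFC/BTrH (general finite group): the averaging scalar

`trN FN T = ∑ j, Tr (v ↦ v ≫ T | Hom (S j, W))` for `T : W ⟶ W`.
`trN_one`: `Tr (id) = finrank`.  `trN_rank`: `u ≫ q = 𝟙 Z`, `Z` simple, `Z ≅ S k`: `v ↦ v ≫ q ≫ u` on `Hom (S j, W)` factors through `Hom (S j, Z)` (dimension `δ j k`), trace `= Tr (v' ↦ v' ≫ u ≫ q)
= dim Hom (S j, Z)` (`LinearMap.trace_comp_comm'` or `trace_mul_comm`); `Z ≅ S k` for exactly one `k` (`FN.dec Z`, `smp_iso`).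
`smp_gl`: `T g ⊗ (Z ⊗ T h)` is simple: tensoring with the invertible object `T g` is fully faithful on endomorphisms (`f : T g ⊗ Z ⟶ T g ⊗ Z` gives
`T (-g) ◁ f` conjugated to an endomorphism `c • 𝟙` of `Z`).
`av_scalar`: `trN (av V (q ≫ u)) = ∑ g h, trN (pL g (pR h (q ≫ u)))` (`av_eq`), and `pL g (pR h (q ≫ u)) = q' ≫ u'` with `u' ≫ q' = 𝟙` on the simple object
`T g ⊗ (Z ⊗ T h)`; so the sum is `n ^ 2`; on the other side it is `c * trN (𝟙) = c * M`.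
-/

set_option autoImplicit false

noncomputable section

open CategoryTheory MonoidalCategory
open Functor.LaxMonoidal Functor.OplaxMonoidal

namespace Pool.Agent.SFC.G

open Pool.Agent.NFG

universe v u v' u' w

variable {K : Type w} [Field K] {C : Type u} [Category.{v} C] [Preadditive C] [Linear K C] [MonoidalCategory C]
  [MonoidalPreadditive C] [MonoidalLinear K C] {N : Type u'} [Category.{v'} N] [Preadditive N] [Linear K N]
  [MonoidalCategory N] [MonoidalPreadditive N] [MonoidalLinear K N] {V : C ⥤ N} [V.LaxMonoidal] [V.OplaxMonoidal]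
  {Γ : Type} [AddGroup Γ] [Fintype Γ] {ι' : Type} [Fintype ι'] [DecidableEq ι']

/-- the trace of `T` on the spaces `Hom (S j, W)` -/
def trN (FN : Fus K N ι') {W : N} (T : W ⟶ W) : K := ∑ j, LinearMap.trace K (FN.S j ⟶ W) (Linear.rightComp K (FN.S j) T)


private theorem BTr_comp {X Y Z : N} (S : N) (f : X ⟶ Y) (g : Y ⟶ Z) :
    Linear.rightComp K S (f ≫ g) = Linear.rightComp K S g ∘ₗ Linear.rightComp K S f := by
  ext v
  simp

private theorem BTr_id (S W : N) : Linear.rightComp K S (𝟙 W) = LinearMap.id := by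
  ext v
  simp

private theorem BTr_add (FN : Fus K N ι') {W : N} (T T' : W ⟶ W) : trN FN (T + T') = trN FN T + trN FN T' := by
  unfold trN
  rw [← Finset.sum_add_distrib]
  refine Finset.sum_congr rfl fun j _ => ?_
  rw [← map_add]
  congr 1
  ext v
  simp

private theorem BTr_smul (FN : Fus K N ι') {W : N} (c : K) (T : W ⟶ W) : trN FN (c • T) = c * trN FN T := by
  unfold trN
  rw [Finset.mul_sum]
  refine Finset.sum_congr rfl fun j _ => ?_
  rw [← smul_eq_mul, ← map_smul]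
  congr 1
  ext v
  simp

private theorem BTr_sum (FN : Fus K N ι') {W : N} {α : Type} (s : Finset α) (T : α → (W ⟶ W)) :
    trN FN (∑ a ∈ s, T a) = ∑ a ∈ s, trN FN (T a) := by
  have h0 : trN FN (0 : W ⟶ W) = 0 := by
    have := BTr_smul FN (0 : K) (0 : W ⟶ W)
    simpa using this
  exact map_sum (⟨⟨fun T => trN FN T, h0⟩, fun a b => BTr_add FN a b⟩ : (W ⟶ W) →+ K) T s

theorem trN_one (FN : Fus K N ι') (W : N) : trN FN (𝟙 W) = ∑ j, (Module.finrank K (FN.S j ⟶ W) : K) := by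
  unfold trN
  refine Finset.sum_congr rfl fun j _ => ?_
  haveI := fus_fd FN (FN.S j) W
  rw [BTr_id, LinearMap.trace_id]

theorem trN_rank (FN : Fus K N ι') {W Z : N} (hZ : Smp K Z) (u : Z ⟶ W) (q : W ⟶ Z) (h : u ≫ q = 𝟙 Z) :
    trN FN (q ≫ u) = 1 := by
  have h1 : trN FN (q ≫ u) = trN FN (𝟙 Z) := by
    unfold trN
    refine Finset.sum_congr rfl fun j _ => ?_
    haveI := fus_fd FN (FN.S j) W
    haveI := fus_fd FN (FN.S j) Z
    rw [BTr_comp, LinearMap.trace_comp_comm', ← BTr_comp, h]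
  rw [h1, trN_one]
  have h2 : Module.finrank K (Z ⟶ Z) = 1 := by
    rw [finrank_eq_one_iff_of_nonzero' (𝟙 Z) hZ.1]
    intro f
    obtain ⟨c, hc⟩ := hZ.2 f
    exact ⟨c, hc.symm⟩
  have h3 := fus_finrank FN Z Z
  rw [h2] at h3
  have h4 : ∀ m, Module.finrank K (Z ⟶ FN.S m) * Module.finrank K (FN.S m ⟶ Z) =
      Module.finrank K (FN.S m ⟶ Z) := by
    intro m
    have h5 : Module.finrank K (Z ⟶ FN.S m) = Module.finrank K (FN.S m ⟶ Z) := fus_symm FN _ _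
    have h6 : Module.finrank K (Z ⟶ FN.S m) * Module.finrank K (FN.S m ⟶ Z) ≤ 1 := by
      rw [h3]
      exact Finset.single_le_sum
        (f := fun m => Module.finrank K (Z ⟶ FN.S m) * Module.finrank K (FN.S m ⟶ Z))
        (fun _ _ => Nat.zero_le _) (Finset.mem_univ m)
    rw [h5] at h6 ⊢
    rcases Nat.eq_zero_or_pos (Module.finrank K (FN.S m ⟶ Z)) with h7 | h7
    · rw [h7]
    · have : Module.finrank K (FN.S m ⟶ Z) = 1 := by nlinarith
      rw [this]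
  rw [Finset.sum_congr rfl fun m _ => h4 m] at h3
  rw [← Nat.cast_sum, ← h3, Nat.cast_one]

private theorem BTr_natL {P Q X Y : N} (i : Q ⊗ P ≅ 𝟙_ N) (f : X ⟶ Y) :
    Q ◁ (P ◁ f) ≫ ((α_ Q P Y).inv ≫ i.hom ▷ Y ≫ (λ_ Y).hom) =
      ((α_ Q P X).inv ≫ i.hom ▷ X ≫ (λ_ X).hom) ≫ f := by
  rw [← Category.assoc, associator_inv_naturality_right, Category.assoc, ← Category.assoc ((Q ⊗ P) ◁ f),
    whisker_exchange, Category.assoc, leftUnitor_naturality]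
  simp only [Category.assoc]

private theorem BTr_natR {P Q X Y : N} (i : P ⊗ Q ≅ 𝟙_ N) (f : X ⟶ Y) :
    f ▷ P ▷ Q ≫ ((α_ Y P Q).hom ≫ Y ◁ i.hom ≫ (ρ_ Y).hom) =
      ((α_ X P Q).hom ≫ X ◁ i.hom ≫ (ρ_ X).hom) ≫ f := by
  rw [← Category.assoc, associator_naturality_left, Category.assoc, ← Category.assoc (f ▷ (P ⊗ Q)),
    ← whisker_exchange, Category.assoc, rightUnitor_naturality]
  simp only [Category.assoc]

private theorem BTr_conj {X Y : N} (e : X ≅ Y) {f : X ⟶ X} {c : K} (h : e.inv ≫ f ≫ e.hom = c • 𝟙 Y) :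
    f = c • 𝟙 X := by
  have h1 : f = e.hom ≫ (e.inv ≫ f ≫ e.hom) ≫ e.inv := by simp
  rw [h1, h, Linear.smul_comp, Category.id_comp, Linear.comp_smul, Iso.hom_inv_id]

private theorem BTr_smpL {P Q Z : N} (i : Q ⊗ P ≅ 𝟙_ N) (j : P ⊗ Q ≅ 𝟙_ N) (hZ : Smp K Z) : Smp K (P ⊗ Z) := by
  let e : ∀ X : N, Q ⊗ (P ⊗ X) ≅ X := fun X =>
    (α_ Q P X).symm ≪≫ whiskerRightIso i X ≪≫ λ_ X
  let e' : ∀ X : N, P ⊗ (Q ⊗ X) ≅ X := fun X =>
    (α_ P Q X).symm ≪≫ whiskerRightIso j X ≪≫ λ_ X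
  have he : ∀ {X Y : N} (f : X ⟶ Y), P ◁ (Q ◁ f) ≫ (e' Y).hom = (e' X).hom ≫ f := fun f => BTr_natL j f
  constructor
  · intro h0
    apply hZ.1
    have h1 : 𝟙 Z = (e Z).inv ≫ Q ◁ 𝟙 (P ⊗ Z) ≫ (e Z).hom := by simp
    rw [h1, h0, MonoidalPreadditive.whiskerLeft_zero, Limits.zero_comp, Limits.comp_zero]
  · intro f
    obtain ⟨c, hc⟩ := hZ.2 ((e Z).inv ≫ Q ◁ f ≫ (e Z).hom)
    have h1 := BTr_conj (e Z) hc
    refine ⟨c, ?_⟩
    have h2 := he f
    rw [h1, MonoidalLinear.whiskerLeft_smul, whiskerLeft_id, Linear.smul_comp, Category.id_comp] at h2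
    have h3 : f = (e' (P ⊗ Z)).inv ≫ ((e' (P ⊗ Z)).hom ≫ f) := by simp
    rw [h3, ← h2, Linear.comp_smul, Iso.inv_hom_id]

private theorem BTr_smpR {P Q Z : N} (i : Q ⊗ P ≅ 𝟙_ N) (j : P ⊗ Q ≅ 𝟙_ N) (hZ : Smp K Z) : Smp K (Z ⊗ P) := by
  let e : ∀ X : N, (X ⊗ P) ⊗ Q ≅ X := fun X =>
    α_ X P Q ≪≫ whiskerLeftIso X j ≪≫ ρ_ X
  let e' : ∀ X : N, (X ⊗ Q) ⊗ P ≅ X := fun X =>
    α_ X Q P ≪≫ whiskerLeftIso X i ≪≫ ρ_ X
  have he : ∀ {X Y : N} (f : X ⟶ Y), f ▷ Q ▷ P ≫ (e' Y).hom = (e' X).hom ≫ f := fun f => BTr_natR i f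
  constructor
  · intro h0
    apply hZ.1
    have h1 : 𝟙 Z = (e Z).inv ≫ 𝟙 (Z ⊗ P) ▷ Q ≫ (e Z).hom := by simp
    rw [h1, h0, MonoidalPreadditive.zero_whiskerRight, Limits.zero_comp, Limits.comp_zero]
  · intro f
    obtain ⟨c, hc⟩ := hZ.2 ((e Z).inv ≫ f ▷ Q ≫ (e Z).hom)
    have h1 := BTr_conj (e Z) hc
    refine ⟨c, ?_⟩
    have h2 := he f
    rw [h1, MonoidalLinear.smul_whiskerRight, id_whiskerRight, Linear.smul_comp, Category.id_comp] at h2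
    have h3 : f = (e' (Z ⊗ P)).inv ≫ ((e' (Z ⊗ P)).hom ≫ f) := by simp
    rw [h3, ← h2, Linear.comp_smul, Iso.inv_hom_id]

theorem smp_gl (th : GlH N Γ) {Z : N} (hZ : Smp K Z) (g h : Γ) : Smp K (th.T g ⊗ (Z ⊗ th.T h)) :=
  BTr_smpL (th.m (-g) g 0 (neg_add_cancel g) ≪≫ th.u.symm) (th.m g (-g) 0 (add_neg_cancel g) ≪≫ th.u.symm)
    (BTr_smpR (th.m (-h) h 0 (neg_add_cancel h) ≪≫ th.u.symm) (th.m h (-h) 0 (add_neg_cancel h) ≪≫ th.u.symm) hZ)

theorem av_scalar (G : GalFH K V Γ) (FN : Fus K N ι') {x : C} {Z : N} (hZ : Smp K Z) (u : Z ⟶ V.obj x)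
    (q : V.obj x ⟶ Z) (h : u ≫ q = 𝟙 Z) {c : K} (hc : av V (q ≫ u) = c • 𝟙 (V.obj x)) :
    c * (∑ j, (Module.finrank K (FN.S j ⟶ V.obj x) : K)) = (Fintype.card Γ : K) ^ 2 := by
  have key : ∀ g h' : Γ, trN FN (pL G g (pR G h' (q ≫ u))) = 1 := by
    intro g h'
    have h1 : pL G g (pR G h' (q ≫ u)) =
        (kL' G g x ≫ G.th.T g ◁ (kR' G h' x ≫ q ▷ G.th.T h')) ≫
          (G.th.T g ◁ (u ▷ G.th.T h' ≫ kR G h' x) ≫ kL G g x) := by
      unfold pL pR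
      simp only [comp_whiskerRight, MonoidalCategory.whiskerLeft_comp, Category.assoc]
    rw [h1]
    refine trN_rank FN (smp_gl G.th hZ g h') _ _ ?_
    have h2 : kL G g x ≫ kL' G g x ≫ G.th.T g ◁ (kR' G h' x ≫ q ▷ G.th.T h') =
        G.th.T g ◁ (kR' G h' x ≫ q ▷ G.th.T h') := by
      rw [← Category.assoc, (kL_inv G g x).1, Category.id_comp]
    rw [Category.assoc, h2, ← MonoidalCategory.whiskerLeft_comp, Category.assoc,
      ← Category.assoc (kR G h' x), (kR_inv G h' x).1, Category.id_comp, ← comp_whiskerRight, h,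
      id_whiskerRight, MonoidalCategory.whiskerLeft_id]
  have h1 : trN FN (av V (q ≫ u)) = (Fintype.card Γ : K) ^ 2 := by
    rw [av_eq G, BTr_sum]
    have h2 : ∀ g ∈ (Finset.univ : Finset (Γ)),
        trN FN (∑ h' : Γ, pL G g (pR G h' (q ≫ u))) = (Fintype.card Γ : K) := by
      intro g _
      rw [BTr_sum, Finset.sum_congr rfl fun h' _ => key g h', Finset.sum_const, Finset.card_univ,
        nsmul_eq_mul, mul_one]
    rw [Finset.sum_congr rfl h2, Finset.sum_const, Finset.card_univ, nsmul_eq_mul, sq]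
  rw [hc, BTr_smul, trN_one] at h1
  exact h1

end Pool.Agent.SFC.G
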