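import Pool.Agent.NFG.Stm

/-!
# SFC: good primes for solvable fusion categories (definitions)

`SFrob C`: special Frobenius algebras.  `Bim S`: bimodules over `S` in the following form: the unit of `S` acts on the
object `X` from both sides by the same idempotent `p` (so that `X` stands for the image of `p`), and the morphisms are
the bimodule maps `f` with `f ≫ p = f`.  `Gl C n`: a family `T a`, `a : ZMod n`, of invertible objects with associative
isomorphisms `T a ⊗ T b ≅ T (a + b)`.  `GalF V n`: the properties of the functor `V : x ↦ A x A` from `C` to the category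
`N` of bimodules over the algebra `A = ⨁ T a`.
-/

set_option autoImplicit false

noncomputable section

open CategoryTheory MonoidalCategory

namespace Pool.Agent.SFC

universe v u v' u' w

/-! ### Algebras and bimodules -/

section Alg

variable (C : Type u) [Category.{v} C] [MonoidalCategory C]

/-- A special Frobenius algebra. -/
structure SFrob where
  A : C
  mul : A ⊗ A ⟶ A
  one : 𝟙_ C ⟶ A
  cm : A ⟶ A ⊗ A
  cn : A ⟶ 𝟙_ C
  one_mul : one ▷ A ≫ mul = (λ_ A).hom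
  mul_one : A ◁ one ≫ mul = (ρ_ A).hom
  assoc : mul ▷ A ≫ mul = (α_ A A A).hom ≫ A ◁ mul ≫ mul
  cn_cm : cm ≫ cn ▷ A = (λ_ A).inv
  cm_cn : cm ≫ A ◁ cn = (ρ_ A).inv
  coassoc : cm ≫ cm ▷ A ≫ (α_ A A A).hom = cm ≫ A ◁ cm
  frobL : mul ≫ cm = A ◁ cm ≫ (α_ A A A).inv ≫ mul ▷ A
  frobR : mul ≫ cm = cm ▷ A ≫ (α_ A A A).hom ≫ A ◁ mul
  sep : cm ≫ mul = 𝟙 A

variable {C}

/-- A bimodule over `S`; the unit of `S` acts by the same idempotent from both sides. -/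
structure Bim (S : SFrob C) where
  X : C
  l : S.A ⊗ X ⟶ X
  r : X ⊗ S.A ⟶ X
  ll : S.mul ▷ X ≫ l = (α_ _ _ _).hom ≫ S.A ◁ l ≫ l
  rr : X ◁ S.mul ≫ r = (α_ _ _ _).inv ≫ r ▷ S.A ≫ r
  lr : l ▷ S.A ≫ r = (α_ _ _ _).hom ≫ S.A ◁ r ≫ l
  uu : (λ_ X).inv ≫ S.one ▷ X ≫ l = (ρ_ X).inv ≫ X ◁ S.one ≫ r

/-- the action of the unit -/
def Bim.p {S : SFrob C} (M : Bim S) : M.X ⟶ M.X := (λ_ M.X).inv ≫ S.one ▷ M.X ≫ M.l

/-- A map of bimodules. -/
@[ext] structure Bim.Hom {S : SFrob C} (M N : Bim S) where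
  f : M.X ⟶ N.X
  hl : S.A ◁ f ≫ N.l = M.l ≫ f
  hr : f ▷ S.A ≫ N.r = M.r ≫ f
  hp : f ≫ N.p = f

theorem Bim.p_r {S : SFrob C} (M : Bim S) : M.p = (ρ_ M.X).inv ≫ M.X ◁ S.one ≫ M.r := M.uu

theorem Bim.p_l {S : SFrob C} (M : Bim S) : M.l ≫ M.p = M.l := by
  rw [Bim.p, leftUnitor_inv_naturality_assoc, whisker_exchange_assoc]
  have h1 := M.ll
  have h2 : S.one ▷ (S.A ⊗ M.X) ≫ S.A ◁ M.l ≫ M.l = (α_ _ _ _).inv ≫ (S.one ▷ S.A ≫ S.mul) ▷ M.X ≫ M.l := by
    rw [comp_whiskerRight, Category.assoc, h1]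
    simp
  rw [h2, S.one_mul]
  simp

theorem Bim.p_r' {S : SFrob C} (M : Bim S) : M.r ≫ M.p = M.r := by
  rw [Bim.p_r, rightUnitor_inv_naturality_assoc, ← whisker_exchange_assoc]
  have h1 := M.rr
  have h2 : (M.X ⊗ S.A) ◁ S.one ≫ M.r ▷ S.A ≫ M.r = (α_ _ _ _).hom ≫ M.X ◁ (S.A ◁ S.one ≫ S.mul) ≫ M.r := by
    rw [MonoidalCategory.whiskerLeft_comp, Category.assoc, h1]
    simp
  rw [h2, S.mul_one]
  simp

theorem Bim.pp {S : SFrob C} (M : Bim S) : M.p ≫ M.p = M.p := by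
  have h : M.p = (λ_ M.X).inv ≫ S.one ▷ M.X ≫ M.l := rfl
  calc M.p ≫ M.p = (λ_ M.X).inv ≫ S.one ▷ M.X ≫ (M.l ≫ M.p) := by
        conv_lhs => lhs; rw [h]
        simp only [Category.assoc]
    _ = M.p := by rw [M.p_l, h]

theorem Bim.Hom.ph {S : SFrob C} {M N : Bim S} (f : Bim.Hom M N) : M.p ≫ f.f = f.f := by
  have h1 : M.p ≫ f.f = f.f ≫ N.p := by
    rw [Bim.p, Bim.p, Category.assoc, Category.assoc, ← f.hl, leftUnitor_inv_naturality_assoc,
      whisker_exchange_assoc]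
  rw [h1, f.hp]

instance Bim.cat (S : SFrob C) : Category (Bim S) where
  Hom := Bim.Hom
  id M := ⟨M.p, by
    have h1 := M.ll
    have h2 : S.A ◁ M.p ≫ M.l = M.l := by
      have h3 : S.A ◁ M.l ≫ M.l = (α_ _ _ _).inv ≫ S.mul ▷ M.X ≫ M.l := by rw [h1]; simp
      rw [Bim.p, MonoidalCategory.whiskerLeft_comp, MonoidalCategory.whiskerLeft_comp, Category.assoc, Category.assoc,
        h3, associator_inv_naturality_middle_assoc, ← comp_whiskerRight_assoc, S.mul_one]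
      simp
    rw [h2, M.p_l], by
    have h1 := M.rr
    have h2 : M.p ▷ S.A ≫ M.r = M.r := by
      have h3 : M.r ▷ S.A ≫ M.r = (α_ _ _ _).hom ≫ M.X ◁ S.mul ≫ M.r := by rw [h1]; simp
      rw [Bim.p_r, comp_whiskerRight, comp_whiskerRight, Category.assoc, Category.assoc, h3,
        associator_naturality_middle_assoc, ← MonoidalCategory.whiskerLeft_comp_assoc, S.one_mul]
      simp
    rw [h2, M.p_r'], M.pp⟩
  comp f g := ⟨f.f ≫ g.f, by
    rw [MonoidalCategory.whiskerLeft_comp, Category.assoc, g.hl, ← Category.assoc, f.hl, Category.assoc], by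
    rw [comp_whiskerRight, Category.assoc, g.hr, ← Category.assoc, f.hr, Category.assoc], by
    rw [Category.assoc, g.hp]⟩
  id_comp f := Bim.Hom.ext f.ph
  comp_id f := Bim.Hom.ext f.hp
  assoc f g h := Bim.Hom.ext (Category.assoc _ _ _)

@[simp] theorem Bim.comp_f {S : SFrob C} {M N P : Bim S} (f : M ⟶ N) (g : N ⟶ P) :
    Bim.Hom.f (f ≫ g) = Bim.Hom.f f ≫ Bim.Hom.f g := rfl

@[simp] theorem Bim.id_f {S : SFrob C} (M : Bim S) : Bim.Hom.f (𝟙 M) = M.p := rfl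

theorem Bim.hom_ext {S : SFrob C} {M N : Bim S} {f g : M ⟶ N} (h : Bim.Hom.f f = Bim.Hom.f g) : f = g :=
  Bim.Hom.ext h

end Alg

end Pool.Agent.SFC
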