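import Pool.Agent.SFC.Defs

/-!
# SFC: definitions, second part

* `Gl C n`: group-like algebras; `Gal S n`: a special Frobenius algebra with an action of `ZMod n` by automorphisms, with
  `∑ g, a g = cn ≫ one`;
* `GalF K V n`: the properties of the functor `V : x ↦ A x A` which are used for dimensions and for the transfer of forms;
* `DeEq K F n`: `F : C ⥤ D` is the de-equivariantization by the central objects `T a`, `a : ZMod n`;
* `IsExt G F Q deg`: `C` is graded by `Q` and `G : D ⥤ C` identifies `D` with the trivial component.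
-/

set_option autoImplicit false

noncomputable section

open CategoryTheory MonoidalCategory
open scoped BigOperators

namespace Pool.Agent.SFC

open Pool.Agent.NFG

universe v u v' u' w

/-! ### Group-like algebras -/

/-- Objects `T a` with associative isomorphisms `T a ⊗ T b ≅ T (a + b)`. -/
structure Gl (C : Type u) [Category.{v} C] [Preadditive C] [MonoidalCategory C] (n : ℕ) where
  T : ZMod n → C
  u : 𝟙_ C ≅ T 0
  m : ∀ a b c : ZMod n, a + b = c → (T a ⊗ T b ≅ T c)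
  unitL : ∀ (a : ZMod n) (h : 0 + a = a), u.hom ▷ T a ≫ (m 0 a a h).hom = (λ_ (T a)).hom
  unitR : ∀ (a : ZMod n) (h : a + 0 = a), T a ◁ u.hom ≫ (m a 0 a h).hom = (ρ_ (T a)).hom
  assoc : ∀ (a b c ab bc abc : ZMod n) (h1 : a + b = ab) (h2 : ab + c = abc) (h3 : b + c = bc) (h4 : a + bc = abc),
    (m a b ab h1).hom ▷ T c ≫ (m ab c abc h2).hom =
      (α_ (T a) (T b) (T c)).hom ≫ T a ◁ (m b c bc h3).hom ≫ (m a bc abc h4).hom
  ne : ∀ a : ZMod n, a ≠ 0 → ∀ f : 𝟙_ C ⟶ T a, f = 0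

section

variable (K : Type w) [Field K] {C : Type u} [Category.{v} C] [Preadditive C] [Linear K C] [MonoidalCategory C]

/-- `S` is the direct sum of the objects `T a`, with the multiplication given by the isomorphisms `m`. -/
structure IsSum {n : ℕ} [NeZero n] (th : Gl C n) (S : SFrob C) where
  i : ∀ a, th.T a ⟶ S.A
  q : ∀ a, S.A ⟶ th.T a
  iq : ∀ a, i a ≫ q a = 𝟙 _
  orth : ∀ a b, a ≠ b → i a ≫ q b = 0
  sum : ∑ a, q a ≫ i a = 𝟙 S.A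
  mul : ∀ a b c (h : a + b = c), (i a ⊗ₘ i b) ≫ S.mul = (th.m a b c h).hom ≫ i c
  one : S.one = th.u.hom ≫ i 0
  cn : ∀ a, a ≠ 0 → i a ≫ S.cn = 0
  cn0 : th.u.hom ≫ i 0 ≫ S.cn = (n : K) • 𝟙 (𝟙_ C)

/-- A connected special Frobenius algebra with an action of `ZMod n` such that `∑ g, a g = cn ≫ one`. -/
structure Gal (S : SFrob C) (n : ℕ) [NeZero n] where
  a : ZMod n → (S.A ⟶ S.A)
  zero : a 0 = 𝟙 S.A
  add : ∀ g h, a (g + h) = a g ≫ a h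
  mul : ∀ g, (a g ⊗ₘ a g) ≫ S.mul = S.mul ≫ a g
  one : ∀ g, S.one ≫ a g = S.one
  cm : ∀ g, S.cm ≫ (a g ⊗ₘ a g) = a g ≫ S.cm
  cn : ∀ g, a g ≫ S.cn = S.cn
  sum : ∑ g, a g = S.cn ≫ S.one
  orth : ∀ g, g ≠ 0 → S.cm ≫ S.A ◁ a g ≫ S.mul = 0
  conn : ∀ t : 𝟙_ C ⟶ S.A, ∃ c : K, t = c • S.one
  dim : S.one ≫ S.cn = (n : K) • 𝟙 (𝟙_ C)

end

/-! ### The functor `V` -/

section

variable {C : Type u} [Category.{v} C] [MonoidalCategory C] {N : Type u'} [Category.{v'} N] [MonoidalCategory N]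
  (V : C ⥤ N)

open Functor.LaxMonoidal Functor.OplaxMonoidal

/-- left action of `V 1` on `V x` -/
def aL [V.LaxMonoidal] (x : C) : V.obj (𝟙_ C) ⊗ V.obj x ⟶ V.obj x := μ V _ _ ≫ V.map (λ_ x).hom

/-- right action of `V 1` on `V x` -/
def aR [V.LaxMonoidal] (x : C) : V.obj x ⊗ V.obj (𝟙_ C) ⟶ V.obj x := μ V _ _ ≫ V.map (ρ_ x).hom

/-- left coaction of `V 1` on `V x` -/
def cL [V.OplaxMonoidal] (x : C) : V.obj x ⟶ V.obj (𝟙_ C) ⊗ V.obj x := V.map (λ_ x).inv ≫ δ V _ _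

/-- right coaction of `V 1` on `V x` -/
def cR [V.OplaxMonoidal] (x : C) : V.obj x ⟶ V.obj x ⊗ V.obj (𝟙_ C) := V.map (ρ_ x).inv ≫ δ V _ _

/-- averaging -/
def av [V.LaxMonoidal] [V.OplaxMonoidal] {x y : C} (T : V.obj x ⟶ V.obj y) : V.obj x ⟶ V.obj y :=
  cL V x ≫ V.obj (𝟙_ C) ◁ (cR V x ≫ T ▷ V.obj (𝟙_ C) ≫ aR V y) ≫ aL V y

end

section

variable (K : Type w) [Field K] {C : Type u} [Category.{v} C] [Preadditive C] [Linear K C] [MonoidalCategory C]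
  {N : Type u'} [Category.{v'} N] [Preadditive N] [Linear K N] [MonoidalCategory N]

open Functor.LaxMonoidal Functor.OplaxMonoidal

/-- The properties of the functor `V : x ↦ A x A` from `C` to the category `N` of `A`-bimodules. -/
structure GalF (V : C ⥤ N) [V.LaxMonoidal] [V.OplaxMonoidal] (n : ℕ) [NeZero n] where
  map_add : ∀ {x y : C} (f g : x ⟶ y), V.map (f + g) = V.map f + V.map g
  map_smul : ∀ {x y : C} (c : K) (f : x ⟶ y), V.map (c • f) = c • V.map f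
  faithful : V.Faithful
  frob1 : ∀ x y z : C, δ V x y ▷ V.obj z ≫ (α_ _ _ _).hom ≫ V.obj x ◁ μ V y z =
    μ V (x ⊗ y) z ≫ V.map (α_ x y z).hom ≫ δ V x (y ⊗ z)
  frob2 : ∀ x y z : C, V.obj x ◁ δ V y z ≫ (α_ _ _ _).inv ≫ μ V x y ▷ V.obj z =
    μ V x (y ⊗ z) ≫ V.map (α_ x y z).inv ≫ δ V (x ⊗ y) z
  card : ∀ x y : C, δ V x y ≫ μ V x y = (n : K) • 𝟙 (V.obj (x ⊗ y))
  sep : ε V ≫ η V = 𝟙 (𝟙_ N)
  retr : ∀ Z : N, ∃ (x : C) (i : Z ⟶ V.obj x) (p : V.obj x ⟶ Z), i ≫ p = 𝟙 Z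
  avg : ∀ {x y : C} (T : V.obj x ⟶ V.obj y), ∃ f : x ⟶ y, av V T = V.map f
  /-- `N` is von Neumann regular -/
  reg : ∀ {Z W : N} (f : Z ⟶ W), ∃ g : W ⟶ Z, f ≫ g ≫ f = f
  end1 : ∀ f : 𝟙_ N ⟶ 𝟙_ N, ∃ c : K, f = c • 𝟙 (𝟙_ N)
  /-- the algebra in `C`, as an object -/
  A : C
  VV : ∀ x y : C, Nonempty (V.obj x ⊗ V.obj y ≅ V.obj (x ⊗ (A ⊗ y)))
  HH : ∀ x y : C, Nonempty ((V.obj x ⟶ V.obj y) ≃ₗ[K] (x ⟶ A ⊗ (y ⊗ A)))
  /-- `A` is the direct sum of `n` invertible objects -/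
  thA : Gl C n
  iA : ∀ a, thA.T a ⟶ A
  qA : ∀ a, A ⟶ thA.T a
  iqA : ∀ a, iA a ≫ qA a = 𝟙 _
  orthA : ∀ a b, a ≠ b → iA a ≫ qA b = 0
  sumA : ∑ a, qA a ≫ iA a = 𝟙 A
  /-- `V 1` is the group algebra of the group-like objects `th.T g` of `N` -/
  th : Gl N n
  k : ∀ g, th.T g ⟶ V.obj (𝟙_ C)
  j : ∀ g, V.obj (𝟙_ C) ⟶ th.T g
  kj : ∀ g, k g ≫ j g = 𝟙 _
  orth : ∀ g h, g ≠ h → k g ≫ j h = 0
  sum : ∑ g, j g ≫ k g = 𝟙 (V.obj (𝟙_ C))
  k_mul : ∀ g h gh (e : g + h = gh), (k g ⊗ₘ k h) ≫ aL V (𝟙_ C) = (th.m g h gh e).hom ≫ k gh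
  k_one : ε V = th.u.hom ≫ k 0
  kη : ∀ g, g ≠ 0 → k g ≫ η V = 0

end

/-! ### Extensions and de-equivariantizations -/

section

variable (K : Type w) [Field K] {C : Type u} [Category.{v} C] [Preadditive C] [Linear K C] [MonoidalCategory C]
  {D : Type u'} [Category.{v'} D] [Preadditive D] [Linear K D] [MonoidalCategory D]

open Functor.LaxMonoidal Functor.OplaxMonoidal

/-- `C` is faithfully graded by `Q` and `G : D ⥤ C` identifies `D` with the component of degree `1`. -/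
structure IsExt (G : D ⥤ C) {ι : Type} [Fintype ι] [DecidableEq ι] (F : Fus K C ι) (Q : Type) [Group Q]
    (deg : ι → Q) : Prop where
  full : G.Full
  faithful : G.Faithful
  map_add : ∀ {x y : D} (f g : x ⟶ y), G.map (f + g) = G.map f + G.map g
  map_smul : ∀ {x y : D} (c : K) (f : x ⟶ y), G.map (c • f) = c • G.map f
  occ : ∀ i j k, F.Occ i j k → deg k = deg i * deg j
  surj : ∀ q, ∃ i, deg i = q
  img : ∀ i, deg i = 1 → ∃ y : D, Nonempty (F.S i ≅ G.obj y)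
  one : ∀ (y : D) (i : ι) (f : F.S i ⟶ G.obj y), f ≠ 0 → deg i = 1

/-- `F : C ⥤ D` is the de-equivariantization of `C` by the central objects `T a`, `a : ZMod n`, with `F (T a) ≅ 𝟙`. -/
structure DeEq (F : C ⥤ D) [F.Monoidal] (n : ℕ) [NeZero n] where
  map_add : ∀ {x y : C} (f g : x ⟶ y), F.map (f + g) = F.map f + F.map g
  map_smul : ∀ {x y : C} (c : K) (f : x ⟶ y), F.map (c • f) = c • F.map f
  th : Gl C n
  t : ∀ a, F.obj (th.T a) ≅ 𝟙_ D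
  t_one : F.map th.u.hom ≫ (t 0).hom = η F
  t_mul : ∀ a b c (h : a + b = c), F.map (th.m a b c h).hom ≫ (t c).hom =
    δ F _ _ ≫ ((t a).hom ⊗ₘ (t b).hom) ≫ (λ_ (𝟙_ D)).hom
  /-- the half-braiding -/
  cen : ∀ (a : ZMod n) (x : C), x ⊗ th.T a ≅ th.T a ⊗ x
  F_cen : ∀ (a : ZMod n) (x : C), F.map (cen a x).hom = δ F _ _ ≫ F.obj x ◁ (t a).hom ≫ (ρ_ _).hom ≫
    (λ_ _).inv ≫ (t a).inv ▷ F.obj x ≫ μ F _ _
  hom : ∀ (x y : C) (h : F.obj x ⟶ F.obj y), ∃! f : ∀ a : ZMod n, x ⟶ th.T a ⊗ y,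
    h = ∑ a, F.map (f a) ≫ δ F _ _ ≫ (t a).hom ▷ F.obj y ≫ (λ_ _).hom
  dom : ∀ Z : D, ∃ (x : C) (i : Z ⟶ F.obj x) (p : F.obj x ⟶ Z), i ≫ p = 𝟙 Z

end

end Pool.Agent.SFC
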