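import Pool.Agent.SFC.Stm

/-!
# SFC/E1a: the characters of a group of prime order

`G` is a group of prime order `n`, hence cyclic (`isCyclic_of_prime_card`) with a generator `g0`; let `z : K` be a primitive `n`-th root of unity
(`K` algebraically closed of characteristic zero).  Each `g` is `g0 ^ i`; `X a g = z ^ (a i)`.  One way: a multiplicative isomorphism `e : G ≃* Multiplicative (ZMod n)`
(`zmodCyclicMulEquiv` or from `zmodCyclicAddEquiv`, `Nat.card G = n`) and the additive character of `ZMod n` with values in `K` (`ZMod.toChar..`, or directly: `z ^ ((a * i).val)`,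
which is additive in `a * i : ZMod n` because `z ^ n = 1`).
`sum_g`: for `a ≠ 0`, `a * i` runs over `ZMod n` (`n` prime), `∑ i, z ^ i = 0`.  `sum_a`: the same.
-/

set_option autoImplicit false

noncomputable section

open scoped BigOperators

namespace Pool.Agent.SFC

universe w

/-- the characters of a group `G` of prime order `n` -/
structure Chars (K : Type w) [Field K] (G : Type) [Group G] [Fintype G] [DecidableEq G] (n : ℕ) [NeZero n] where
  X : ZMod n → G → K
  mul : ∀ a g h, X a (g * h) = X a g * X a h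
  add : ∀ a b g, X (a + b) g = X a g * X b g
  one : ∀ a, X a 1 = 1
  zero : ∀ g, X 0 g = 1
  ex : ∀ a, a ≠ 0 → ∃ g, X a g ≠ 1
  sum_g : ∀ a, ∑ g, X a g = if a = 0 then (n : K) else 0
  sum_a : ∀ g, ∑ a, X a g = if g = 1 then (n : K) else 0

private theorem E1a_log {n : ℕ} (hn : n.Prime) (G : Type) [Group G] [Fintype G] (hG : Fintype.card G = n) :
    ∃ f : G → ZMod n, f 1 = 0 ∧ (∀ g h, f (g * h) = f g + f h) ∧ Function.Injective f ∧ Function.Surjective f := by
  have hfp : Fact n.Prime := ⟨hn⟩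
  have hc : Nat.card G = n := by rw [Nat.card_eq_fintype_card, hG]
  have h1 : IsCyclic G := isCyclic_of_prime_card hc
  subst hc
  refine ⟨fun g => Multiplicative.toAdd ((zmodCyclicMulEquiv h1).symm g), ?_, fun g h => ?_, ?_, ?_⟩
  · show Multiplicative.toAdd ((zmodCyclicMulEquiv h1).symm 1) = 0
    rw [map_one]
    rfl
  · show Multiplicative.toAdd ((zmodCyclicMulEquiv h1).symm (g * h)) = _
    rw [map_mul]
    rfl
  · intro g h hgh
    exact (zmodCyclicMulEquiv h1).symm.injective (Multiplicative.toAdd.injective hgh)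
  · intro x
    refine ⟨zmodCyclicMulEquiv h1 (Multiplicative.ofAdd x), ?_⟩
    show Multiplicative.toAdd ((zmodCyclicMulEquiv h1).symm (zmodCyclicMulEquiv h1 (Multiplicative.ofAdd x))) = x
    rw [MulEquiv.symm_apply_apply]
    rfl

theorem exists_chars (K : Type w) [Field K] [IsAlgClosed K] [CharZero K] (G : Type) [Group G] [Fintype G] [DecidableEq G]
    (n : ℕ) [NeZero n] (hn : n.Prime) (hG : Fintype.card G = n) : Nonempty (Chars K G n) := by
  have hfp : Fact n.Prime := ⟨hn⟩
  have hf1 : Fact (1 < n) := ⟨hn.one_lt⟩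
  have hnc : NeZero (n : K) := ⟨Nat.cast_ne_zero.2 hn.ne_zero⟩
  obtain ⟨z, hz⟩ := HasEnoughRootsOfUnity.exists_primitiveRoot K n
  have hzn : z ^ n = 1 := hz.pow_eq_one
  have hz1 : z ≠ 1 := by
    intro h
    have h1 : (z : K) ^ 1 = 1 := by rw [pow_one, h]
    have h2 := hz.dvd_of_pow_eq_one 1 h1
    exact hn.one_lt.ne' (Nat.dvd_one.1 h2)
  obtain ⟨f, hf0, hfa, hfi, hfs⟩ := E1a_log hn G hG
  have hp0 : z ^ (0 : ZMod n).val = 1 := by rw [ZMod.val_zero, pow_zero]
  have hpa : ∀ x y : ZMod n, z ^ (x + y).val = z ^ x.val * z ^ y.val := by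
    intro x y
    rw [ZMod.val_add, ← pow_eq_pow_mod _ hzn, pow_add]
  have hp1 : z ^ (1 : ZMod n).val ≠ 1 := by
    rw [ZMod.val_one, pow_one]
    exact hz1
  have hmul : ∀ (a : ZMod n) (g h : G), z ^ (a * f (g * h)).val = z ^ (a * f g).val * z ^ (a * f h).val := by
    intro a g h
    rw [hfa, mul_add, hpa]
  have hadd : ∀ (a b : ZMod n) (g : G), z ^ ((a + b) * f g).val = z ^ (a * f g).val * z ^ (b * f g).val := by
    intro a b g
    rw [add_mul, hpa]
  have hex : ∀ a : ZMod n, a ≠ 0 → ∃ g, z ^ (a * f g).val ≠ 1 := by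
    intro a ha
    obtain ⟨g, hg⟩ := hfs a⁻¹
    refine ⟨g, ?_⟩
    rw [hg, mul_inv_cancel₀ ha]
    exact hp1
  have hex' : ∀ g : G, g ≠ 1 → ∃ a : ZMod n, z ^ (a * f g).val ≠ 1 := by
    intro g hg
    have h1 : f g ≠ 0 := fun h => hg (hfi (h.trans hf0.symm))
    refine ⟨(f g)⁻¹, ?_⟩
    rw [inv_mul_cancel₀ h1]
    exact hp1
  refine ⟨⟨fun a g => z ^ (a * f g).val, hmul, hadd, fun a => ?_, fun g => ?_, hex, fun a => ?_, fun g => ?_⟩⟩
  · rw [hf0, mul_zero, hp0]
  · rw [zero_mul, hp0]
  · split_ifs with ha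
    · subst ha
      have h1 : ∀ g : G, z ^ ((0 : ZMod n) * f g).val = 1 := fun g => by rw [zero_mul, hp0]
      rw [Finset.sum_congr rfl fun g _ => h1 g, Finset.sum_const, Finset.card_univ, hG, nsmul_eq_mul, mul_one]
    · obtain ⟨g0, hg0⟩ := hex a ha
      have h1 : ∑ g, z ^ (a * f g).val = z ^ (a * f g0).val * ∑ g, z ^ (a * f g).val := by
        rw [Finset.mul_sum, ← Equiv.sum_comp (Equiv.mulLeft g0)]
        refine Finset.sum_congr rfl fun g _ => ?_
        rw [Equiv.coe_mulLeft, hmul]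
      have h2 : (z ^ (a * f g0).val - 1) * ∑ g, z ^ (a * f g).val = 0 := by
        rw [sub_mul, one_mul, ← h1, sub_self]
      exact (mul_eq_zero.1 h2).resolve_left (sub_ne_zero.2 hg0)
  · split_ifs with hg
    · subst hg
      have h1 : ∀ a : ZMod n, z ^ (a * f 1).val = 1 := fun a => by rw [hf0, mul_zero, hp0]
      rw [Finset.sum_congr rfl fun a _ => h1 a, Finset.sum_const, Finset.card_univ, ZMod.card, nsmul_eq_mul, mul_one]
    · obtain ⟨a0, ha0⟩ := hex' g hg
      have h1 : ∑ a : ZMod n, z ^ (a * f g).val = z ^ (a0 * f g).val * ∑ a : ZMod n, z ^ (a * f g).val := by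
        rw [Finset.mul_sum, ← Equiv.sum_comp (Equiv.addLeft a0)]
        refine Finset.sum_congr rfl fun a _ => ?_
        rw [Equiv.coe_addLeft, hadd]
      have h2 : (z ^ (a0 * f g).val - 1) * ∑ a : ZMod n, z ^ (a * f g).val = 0 := by
        rw [sub_mul, one_mul, ← h1, sub_self]
      exact (mul_eq_zero.1 h2).resolve_left (sub_ne_zero.2 ha0)

variable {K : Type w} [Field K] {G : Type} [Group G] [Fintype G] [DecidableEq G] {n : ℕ} [NeZero n]

theorem Chars.neg (X : Chars K G n) (a : ZMod n) (g : G) : X.X (-a) g * X.X a g = 1 := by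
  rw [← X.add, neg_add_cancel, X.zero]

theorem Chars.ne (X : Chars K G n) (a : ZMod n) (g : G) : X.X a g ≠ 0 := by
  intro h
  have h1 := X.neg a g
  rw [h, mul_zero] at h1
  exact zero_ne_one h1

end Pool.Agent.SFC
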