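import Pool.Agent.SFC.Stm

/-!
# SFC/E1b: functors with a weight decomposition

`Wts K F n`: for all `x y : C` the space `Hom (F x, F y)` is the direct sum of subspaces `W a`, `a : ZMod n`, compatible with composition and tensor product, with
`W 0 = F.map (Hom (x, y))`; there are objects `T a` and isomorphisms `F (T a) ≅ F 𝟙` of weight `a`.  (`F` is a de-equivariantization; `W a` is the space of eigenvectors.)

`inv`: let `f` be an isomorphism of weight `a`; `f.inv = ∑ k b` (`dec`).  `f.hom ≫ f.inv = 𝟙 = F.map (𝟙 _)` has weight `0`, and `f.hom ≫ k b` has weight `a + b`; apply `uniq` to the family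
`c ↦ f.hom ≫ k (c - a) - (if c = 0 then 𝟙 else 0)`: `f.hom ≫ k b = 0` for `b ≠ -a`, so `k b = 0`, `f.inv = k (-a)`.
`disj`: `uniq` for the family with `k a = f`, `k b = -f`, else `0`.
-/

set_option autoImplicit false

noncomputable section

open CategoryTheory MonoidalCategory
open scoped BigOperators

namespace Pool.Agent.SFC

universe v u v' u' w

open Functor.LaxMonoidal Functor.OplaxMonoidal

/-- a weight decomposition of the spaces `Hom (F x, F y)` -/
structure Wts (K : Type w) [Field K] {C : Type u} [Category.{v} C] [Preadditive C] [Linear K C] [MonoidalCategory C]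
    {D : Type u'} [Category.{v'} D] [Preadditive D] [Linear K D] [MonoidalCategory D] (F : C ⥤ D) [F.Monoidal] (n : ℕ)
    [NeZero n] where
  map_add : ∀ {x y : C} (f g : x ⟶ y), F.map (f + g) = F.map f + F.map g
  map_smul : ∀ {x y : C} (c : K) (f : x ⟶ y), F.map (c • f) = c • F.map f
  W : ZMod n → ∀ x y : C, Submodule K (F.obj x ⟶ F.obj y)
  comp : ∀ {a b c : ZMod n} (_ : a + b = c) {x y z : C} {f : F.obj x ⟶ F.obj y} {g : F.obj y ⟶ F.obj z},
    f ∈ W a x y → g ∈ W b y z → f ≫ g ∈ W c x z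
  ten : ∀ {a b c : ZMod n} (_ : a + b = c) {x y x' y' : C} {f : F.obj x ⟶ F.obj y} {f' : F.obj x' ⟶ F.obj y'},
    f ∈ W a x y → f' ∈ W b x' y' → δ F x x' ≫ (f ⊗ₘ f') ≫ μ F y y' ∈ W c (x ⊗ x') (y ⊗ y')
  map : ∀ {x y : C} (f : x ⟶ y), F.map f ∈ W 0 x y
  lift : ∀ {x y : C} (h : F.obj x ⟶ F.obj y), h ∈ W 0 x y → ∃! f : x ⟶ y, F.map f = h
  dec : ∀ {x y : C} (h : F.obj x ⟶ F.obj y), ∃ k : ZMod n → (F.obj x ⟶ F.obj y), (∀ a, k a ∈ W a x y) ∧ ∑ a, k a = h
  uniq : ∀ {x y : C} (k : ZMod n → (F.obj x ⟶ F.obj y)), (∀ a, k a ∈ W a x y) → ∑ a, k a = 0 → ∀ a, k a = 0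
  T : ZMod n → C
  τ : ∀ a, F.obj (T a) ≅ F.obj (𝟙_ C)
  τ_mem : ∀ a, (τ a).hom ∈ W a (T a) (𝟙_ C)
  dom : ∀ Z : D, ∃ (x : C) (i : Z ⟶ F.obj x) (p : F.obj x ⟶ Z), i ≫ p = 𝟙 Z

variable {K : Type w} [Field K] {C : Type u} [Category.{v} C] [Preadditive C] [Linear K C] [MonoidalCategory C]
  {D : Type u'} [Category.{v'} D] [Preadditive D] [Linear K D] [MonoidalCategory D] {F : C ⥤ D} [F.Monoidal] {n : ℕ}
  [NeZero n]

theorem Wts.disj (Wt : Wts K F n) {a b : ZMod n} (h : a ≠ b) {x y : C} {f : F.obj x ⟶ F.obj y} (h1 : f ∈ Wt.W a x y)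
    (h2 : f ∈ Wt.W b x y) : f = 0 := by
  classical
  have h3 := Wt.uniq (fun c => (if c = a then f else 0) - (if c = b then f else 0)) (fun c => ?_) ?_ a
  · simpa [h] using h3
  · refine Submodule.sub_mem _ ?_ ?_
    · split_ifs with hc
      · rw [hc]; exact h1
      · exact Submodule.zero_mem _
    · split_ifs with hc
      · rw [hc]; exact h2
      · exact Submodule.zero_mem _
  · rw [Finset.sum_sub_distrib, Finset.sum_ite_eq', Finset.sum_ite_eq']
    simp

theorem Wts.id (Wt : Wts K F n) (x : C) : 𝟙 (F.obj x) ∈ Wt.W 0 x x := by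
  rw [← F.map_id]
  exact Wt.map _

theorem Wts.inv (Wt : Wts K F n) {a b : ZMod n} (h : a + b = 0) {x y : C} (f : F.obj x ≅ F.obj y)
    (hf : f.hom ∈ Wt.W a x y) : f.inv ∈ Wt.W b y x := by
  classical
  obtain ⟨k, hk, hs⟩ := Wt.dec f.inv
  have h3 := Wt.uniq (fun c => f.hom ≫ k (c - a) - (if c = 0 then 𝟙 (F.obj x) else 0)) (fun c => ?_) ?_
  · have h4 : ∀ b', b' ≠ b → k b' = 0 := by
      intro b' hb
      have h5 := h3 (b' + a)
      have h6 : b' + a ≠ 0 := by
        intro h7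
        apply hb
        have h8 : b' + a = b + a := by rw [h7, add_comm b a, h]
        exact add_right_cancel h8
      rw [if_neg h6, sub_zero, add_sub_cancel_right] at h5
      rw [← cancel_epi f.hom, h5, Limits.comp_zero]
    rw [← hs, Finset.sum_eq_single b (fun b' _ hb => h4 b' hb) (fun hb => absurd (Finset.mem_univ _) hb)]
    exact hk b
  · refine Submodule.sub_mem _ (Wt.comp (by ring) hf (hk (c - a))) ?_
    split_ifs with hc
    · rw [hc]; exact Wt.id x
    · exact Submodule.zero_mem _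
  · rw [Finset.sum_sub_distrib, Finset.sum_ite_eq', if_pos (Finset.mem_univ _)]
    have h5 : ∑ c : ZMod n, f.hom ≫ k (c - a) = ∑ c : ZMod n, f.hom ≫ k c :=
      Equiv.sum_comp (Equiv.subRight a) (fun c => f.hom ≫ k c)
    rw [h5, ← Preadditive.comp_sum, hs, Iso.hom_inv_id, sub_self]

theorem Wts.faithful (Wt : Wts K F n) {x y : C} {f g : x ⟶ y} (h : F.map f = F.map g) : f = g := by
  obtain ⟨k, -, hk⟩ := Wt.lift (F.map g) (Wt.map g)
  rw [hk f h, hk g rfl]

theorem Wts.lift_iso (Wt : Wts K F n) {x y : C} (f : F.obj x ≅ F.obj y) (hf : f.hom ∈ Wt.W 0 x y) :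
    ∃ e : x ≅ y, F.map e.hom = f.hom ∧ F.map e.inv = f.inv := by
  obtain ⟨g, hg, -⟩ := Wt.lift f.hom hf
  obtain ⟨g', hg', -⟩ := Wt.lift f.inv (Wt.inv (add_zero 0) f hf)
  have hg : F.map g = f.hom := hg
  have hg' : F.map g' = f.inv := hg'
  exact ⟨⟨g, g', Wt.faithful (by rw [F.map_comp, hg, hg', Iso.hom_inv_id, F.map_id]),
    Wt.faithful (by rw [F.map_comp, hg, hg', Iso.inv_hom_id, F.map_id])⟩, hg, hg'⟩

end Pool.Agent.SFC
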