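import Pool.Agent.SFC.E1b

/-!
# SFC/E1c: the group-like objects of a weight decomposition

`t a := τ a ≫ η F : F (T a) ≅ 𝟙` (`η F` is the inverse of `ε F`).
`exists_u`: `(τ 0).inv : F 𝟙 ⟶ F (T 0)` has weight `0` (`Wts.inv`), so it is `F.map u.hom` (`Wts.lift_iso`).
`exists_m`: the isomorphism `δ ≫ (τ a ⊗ₘ τ b) ≫ μ ≫ F.map (λ_ 𝟙).hom ≫ (τ c).inv` has weight `a + b + 0 - c = 0` (`Wts.ten`, `Wts.comp`, `Wts.map`, `Wts.inv`), so it is `F.map m.hom`;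
`(η ⊗ₘ η) ≫ λ ≫ ε = μ ≫ F.map λ`.
`unitL`, `unitR`, `assoc` in `C`: by `Wts.faithful` it is enough to show the equality after `F.map`, and composing with the isomorphism `t`: use `F.map u.hom ≫ t 0 = η F`,
`F.map m.hom ≫ t c = δ ≫ (t a ⊗ₘ t b) ≫ λ` and the monoidality of `F` (for `assoc`: both sides are `δ ≫ (δ ▷ _) ≫ ((t a ⊗ₘ t b) ⊗ₘ t c) ≫ ..`; coherence in `D`: `(λ_ 𝟙).hom ▷ 𝟙 ≫ (λ_ 𝟙).hom = (α_ 𝟙 𝟙 𝟙).hom ≫ 𝟙 ◁ (λ_ 𝟙).hom ≫ (λ_ 𝟙).hom`).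
`ne`: for `f : 𝟙 ⟶ T a`, `a ≠ 0`: `F.map f ≫ (τ a).hom : F 𝟙 ⟶ F 𝟙` has weight `a`; every endomorphism of `F 𝟙 ≅ 𝟙` is a multiple of the identity and has weight `0`; so it is zero (`Wts.disj`), `F.map f = 0`, `f = 0`
(`F.map 0 = 0` from `map_smul` or `map_add`, `Wts.faithful`).
-/

set_option autoImplicit false

noncomputable section

open CategoryTheory MonoidalCategory
open scoped BigOperators

namespace Pool.Agent.SFC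

universe v u v' u' w

open Functor.LaxMonoidal Functor.OplaxMonoidal

variable {K : Type w} [Field K] {C : Type u} [Category.{v} C] [Preadditive C] [Linear K C] [MonoidalCategory C]
  {D : Type u'} [Category.{v'} D] [Preadditive D] [Linear K D] [MonoidalCategory D] {F : C ⥤ D} [F.Monoidal] {n : ℕ}
  [NeZero n]

/-- `F (T a) ≅ 𝟙` -/
def Wts.t (Wt : Wts K F n) (a : ZMod n) : F.obj (Wt.T a) ≅ 𝟙_ D := Wt.τ a ≪≫ (Functor.Monoidal.εIso F).symm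

theorem Wts.t_hom (Wt : Wts K F n) (a : ZMod n) : (Wt.t a).hom = (Wt.τ a).hom ≫ η F := rfl

theorem Wts.exists_u (Wt : Wts K F n) : ∃ u : 𝟙_ C ≅ Wt.T 0, F.map u.hom ≫ (Wt.t 0).hom = η F := by
  have h0 : (Wt.τ 0).inv ∈ Wt.W 0 (𝟙_ C) (Wt.T 0) := Wt.inv (add_zero 0) (Wt.τ 0) (Wt.τ_mem 0)
  obtain ⟨e, he, -⟩ := Wt.lift_iso (Wt.τ 0).symm h0
  refine ⟨e, ?_⟩
  rw [he, Wts.t_hom, Iso.symm_hom, Iso.inv_hom_id_assoc]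

private theorem E1c_unit : μ F (𝟙_ C) (𝟙_ C) ≫ F.map (λ_ (𝟙_ C)).hom ≫ η F =
    (η F ⊗ₘ η F) ≫ (λ_ (𝟙_ D)).hom := by
  rw [← Functor.OplaxMonoidal.left_unitality_hom, Category.assoc, Category.assoc,
    Functor.Monoidal.μ_δ_assoc, ← leftUnitor_naturality, MonoidalCategory.tensorHom_def, Category.assoc]

theorem Wts.exists_m (Wt : Wts K F n) (a b c : ZMod n) (h : a + b = c) : ∃ m : Wt.T a ⊗ Wt.T b ≅ Wt.T c,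
    F.map m.hom ≫ (Wt.t c).hom = δ F _ _ ≫ ((Wt.t a).hom ⊗ₘ (Wt.t b).hom) ≫ (λ_ (𝟙_ D)).hom := by
  let φ : F.obj (Wt.T a ⊗ Wt.T b) ≅ F.obj (Wt.T c) :=
    (Functor.Monoidal.μIso F (Wt.T a) (Wt.T b)).symm ≪≫ (Wt.τ a ⊗ᵢ Wt.τ b) ≪≫
      Functor.Monoidal.μIso F (𝟙_ C) (𝟙_ C) ≪≫ F.mapIso (λ_ (𝟙_ C)) ≪≫ (Wt.τ c).symm
  have hφ : φ.hom = (δ F (Wt.T a) (Wt.T b) ≫ ((Wt.τ a).hom ⊗ₘ (Wt.τ b).hom) ≫ μ F (𝟙_ C) (𝟙_ C)) ≫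
      F.map (λ_ (𝟙_ C)).hom ≫ (Wt.τ c).inv := by
    simp [φ]
  have hc : (Wt.τ c).inv ∈ Wt.W (-c) (𝟙_ C) (Wt.T c) := Wt.inv (add_neg_cancel c) (Wt.τ c) (Wt.τ_mem c)
  have h1 : F.map (λ_ (𝟙_ C)).hom ≫ (Wt.τ c).inv ∈ Wt.W (-c) (𝟙_ C ⊗ 𝟙_ C) (Wt.T c) :=
    Wt.comp (zero_add (-c)) (Wt.map _) hc
  have h2 : φ.hom ∈ Wt.W 0 (Wt.T a ⊗ Wt.T b) (Wt.T c) := by
    rw [hφ]
    exact Wt.comp (add_neg_cancel c) (Wt.ten h (Wt.τ_mem a) (Wt.τ_mem b)) h1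
  obtain ⟨m, hm, -⟩ := Wt.lift_iso φ h2
  refine ⟨m, ?_⟩
  rw [hm, hφ, Wts.t_hom, Wts.t_hom, Wts.t_hom]
  have h3 : ((δ F (Wt.T a) (Wt.T b) ≫ ((Wt.τ a).hom ⊗ₘ (Wt.τ b).hom) ≫ μ F (𝟙_ C) (𝟙_ C)) ≫
      F.map (λ_ (𝟙_ C)).hom ≫ (Wt.τ c).inv) ≫ (Wt.τ c).hom ≫ η F =
      δ F (Wt.T a) (Wt.T b) ≫ ((Wt.τ a).hom ⊗ₘ (Wt.τ b).hom) ≫
        (μ F (𝟙_ C) (𝟙_ C) ≫ F.map (λ_ (𝟙_ C)).hom ≫ η F) := by
    simp only [Category.assoc, Iso.inv_hom_id_assoc]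
  rw [h3, E1c_unit, tensorHom_comp_tensorHom_assoc]

private theorem E1c_coh {A B E : D} (x : A ⟶ 𝟙_ D) (y : B ⟶ 𝟙_ D) (z : E ⟶ 𝟙_ D) :
    (((x ⊗ₘ y) ≫ (λ_ (𝟙_ D)).hom) ⊗ₘ z) ≫ (λ_ (𝟙_ D)).hom =
      (α_ A B E).hom ≫ (x ⊗ₘ ((y ⊗ₘ z) ≫ (λ_ (𝟙_ D)).hom)) ≫ (λ_ (𝟙_ D)).hom := by
  have e1 : (((x ⊗ₘ y) ≫ (λ_ (𝟙_ D)).hom) ⊗ₘ z) =
      ((x ⊗ₘ y) ⊗ₘ z) ≫ ((λ_ (𝟙_ D)).hom ▷ 𝟙_ D) := by
    rw [← tensorHom_id, tensorHom_comp_tensorHom, Category.comp_id]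
  have e2 : (x ⊗ₘ ((y ⊗ₘ z) ≫ (λ_ (𝟙_ D)).hom)) =
      (x ⊗ₘ (y ⊗ₘ z)) ≫ (𝟙_ D ◁ (λ_ (𝟙_ D)).hom) := by
    rw [← id_tensorHom, tensorHom_comp_tensorHom, Category.comp_id]
  rw [e1, e2, Category.assoc, Category.assoc, ← associator_naturality_assoc]
  congr 1
  monoidal

theorem Wts.exists_gl (Wt : Wts K F n) (h1 : ∀ f : 𝟙_ D ⟶ 𝟙_ D, ∃ c : K, f = c • 𝟙 _) :
    ∃ (th : Gl C n) (t : ∀ a, F.obj (th.T a) ≅ 𝟙_ D), F.map th.u.hom ≫ (t 0).hom = η F ∧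
      (∀ a b c (h : a + b = c), F.map (th.m a b c h).hom ≫ (t c).hom =
        δ F _ _ ≫ ((t a).hom ⊗ₘ (t b).hom) ≫ (λ_ (𝟙_ D)).hom) ∧
      ∀ a, (t a).hom ≫ ε F ∈ Wt.W a (th.T a) (𝟙_ C) := by
  obtain ⟨u, hu⟩ := Wt.exists_u
  choose m hm using Wt.exists_m
  refine ⟨⟨Wt.T, u, m, ?_, ?_, ?_, ?_⟩, Wt.t, hu, hm, ?_⟩
  · intro a h
    apply Wt.faithful
    rw [← cancel_mono (Wt.t a).hom, F.map_comp, Category.assoc, hm,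
      ← Functor.OplaxMonoidal.δ_natural_left_assoc]
    have e1 : F.map u.hom ▷ F.obj (Wt.T a) ≫ ((Wt.t 0).hom ⊗ₘ (Wt.t a).hom) =
        (η F ⊗ₘ (Wt.t a).hom) := by
      rw [← tensorHom_id, tensorHom_comp_tensorHom, hu, Category.id_comp]
    rw [reassoc_of% e1, ← Functor.OplaxMonoidal.left_unitality_hom, MonoidalCategory.tensorHom_def, Category.assoc,
      Category.assoc, Category.assoc, leftUnitor_naturality]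
  · intro a h
    apply Wt.faithful
    rw [← cancel_mono (Wt.t a).hom, F.map_comp, Category.assoc, hm,
      ← Functor.OplaxMonoidal.δ_natural_right_assoc]
    have e1 : F.obj (Wt.T a) ◁ F.map u.hom ≫ ((Wt.t a).hom ⊗ₘ (Wt.t 0).hom) =
        ((Wt.t a).hom ⊗ₘ η F) := by
      rw [← id_tensorHom, tensorHom_comp_tensorHom, hu, Category.id_comp]
    rw [reassoc_of% e1, ← Functor.OplaxMonoidal.right_unitality_hom, MonoidalCategory.tensorHom_def', Category.assoc,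
      Category.assoc, Category.assoc, unitors_equal, rightUnitor_naturality]
  · intro a b c ab bc abc h1' h2' h3' h4'
    apply Wt.faithful
    rw [← cancel_mono (Wt.t abc).hom]
    simp only [F.map_comp, Category.assoc]
    rw [hm, hm, ← Functor.OplaxMonoidal.δ_natural_left_assoc,
      ← Functor.OplaxMonoidal.δ_natural_right_assoc]
    have e1 : F.map (m a b ab h1').hom ▷ F.obj (Wt.T c) ≫ ((Wt.t ab).hom ⊗ₘ (Wt.t c).hom) =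
        δ F (Wt.T a) (Wt.T b) ▷ F.obj (Wt.T c) ≫
          ((((Wt.t a).hom ⊗ₘ (Wt.t b).hom) ≫ (λ_ (𝟙_ D)).hom) ⊗ₘ (Wt.t c).hom) := by
      rw [← tensorHom_id, ← tensorHom_id, tensorHom_comp_tensorHom, tensorHom_comp_tensorHom, hm]
    have e2 : F.obj (Wt.T a) ◁ F.map (m b c bc h3').hom ≫ ((Wt.t a).hom ⊗ₘ (Wt.t bc).hom) =
        F.obj (Wt.T a) ◁ δ F (Wt.T b) (Wt.T c) ≫
          ((Wt.t a).hom ⊗ₘ (((Wt.t b).hom ⊗ₘ (Wt.t c).hom) ≫ (λ_ (𝟙_ D)).hom)) := by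
      rw [← id_tensorHom, ← id_tensorHom, tensorHom_comp_tensorHom, tensorHom_comp_tensorHom, hm]
    rw [reassoc_of% e1, reassoc_of% e2, ← Functor.OplaxMonoidal.associativity_assoc, E1c_coh]
  · intro a ha f
    have hg : F.map f ≫ (Wt.τ a).hom ∈ Wt.W a (𝟙_ C) (𝟙_ C) :=
      Wt.comp (zero_add a) (Wt.map f) (Wt.τ_mem a)
    obtain ⟨c, hc⟩ := h1 (ε F ≫ (F.map f ≫ (Wt.τ a).hom) ≫ η F)
    have e1 : F.map f ≫ (Wt.τ a).hom = c • 𝟙 (F.obj (𝟙_ C)) := by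
      have e2 : F.map f ≫ (Wt.τ a).hom =
          η F ≫ (ε F ≫ (F.map f ≫ (Wt.τ a).hom) ≫ η F) ≫ ε F := by
        simp only [Category.assoc, Functor.Monoidal.η_ε, Category.comp_id,
          Functor.Monoidal.η_ε_assoc]
      rw [e2, hc, Linear.smul_comp, Linear.comp_smul, Category.id_comp, Functor.Monoidal.η_ε]
    have h0 : F.map f ≫ (Wt.τ a).hom ∈ Wt.W 0 (𝟙_ C) (𝟙_ C) := by
      rw [e1]
      exact Submodule.smul_mem _ _ (Wt.id _)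
    have h2 : F.map f ≫ (Wt.τ a).hom = 0 := Wt.disj ha hg h0
    have h3 : F.map f = 0 := by
      rw [← cancel_mono (Wt.τ a).hom, h2, Limits.zero_comp]
    have h4 : F.map (0 : 𝟙_ C ⟶ Wt.T a) = 0 := by
      have h5 := Wt.map_smul (0 : K) (0 : 𝟙_ C ⟶ Wt.T a)
      rwa [zero_smul, zero_smul] at h5
    exact Wt.faithful (h3.trans h4.symm)
  · intro a
    have e1 : (Wt.t a).hom ≫ ε F = (Wt.τ a).hom := by
      rw [Wts.t_hom, Category.assoc, Functor.Monoidal.η_ε, Category.comp_id]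
    have e2 := Wt.τ_mem a
    rw [← e1] at e2
    exact e2

end Pool.Agent.SFC
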