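import Pool.Agent.SFC.E1c

/-!
# SFC/E1d: a weight decomposition gives a de-equivariantization

`T a`, `t a` as in `Wts.exists_gl`; `τ a := (t a).hom ≫ ε F : F (T a) ≅ F 𝟙` has weight `a`, its inverse `η F ≫ (t a).inv` has weight `-a` (`Wts.inv`).
`exists_cen`: the isomorphism in the statement is equal to `(δ ≫ (𝟙 ⊗ₘ τ a) ≫ μ) ≫ F.map ((ρ_ x).hom ≫ (λ_ x).inv) ≫ (δ ≫ ((τ a).inv ⊗ₘ 𝟙) ≫ μ)`, so it has weight `a + 0 - a = 0` (`Wts.id`,
`Wts.ten`, `Wts.comp`, `Wts.map`); `Wts.lift_iso`.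
`hom`: `κ a := δ F _ _ ≫ (t a).hom ▷ F.obj y ≫ (λ_ _).hom : F (T a ⊗ y) ⟶ F y` is an isomorphism of weight `a`: it is `(δ ≫ (τ a ⊗ₘ 𝟙) ≫ μ) ≫ F.map (λ_ y).hom`.
Existence: `h = ∑ a, k a` (`dec`), `k a ≫ (κ a)⁻¹` has weight `0`, so it is `F.map (f a)` (`lift`).  Uniqueness: if `h = ∑ a, F.map (f a) ≫ κ a = ∑ a, F.map (f' a) ≫ κ a`, then `uniq`, applied to the differences,
gives `F.map (f a) ≫ κ a = F.map (f' a) ≫ κ a`, so `F.map (f a) = F.map (f' a)` and `f a = f' a` (`Wts.faithful`).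
`wts_deeq`: collect the fields.
-/

set_option autoImplicit false

noncomputable section

open CategoryTheory MonoidalCategory
open scoped BigOperators

namespace Pool.Agent.SFC

universe v u v' u' w

open Functor.LaxMonoidal Functor.OplaxMonoidal

variable {K : Type w} [Field K] {C : Type u} [Category.{v} C] [Preadditive C] [Linear K C] [MonoidalCategory C]
  {D : Type u'} [Category.{v'} D] [Preadditive D] [Linear K D] [MonoidalCategory D] {F : C ⥤ D} [F.Monoidal] {n : ℕ}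
  [NeZero n]

theorem Wts.exists_cen (Wt : Wts K F n) {a : ZMod n} {T : C} (t : F.obj T ≅ 𝟙_ D)
    (ht : t.hom ≫ ε F ∈ Wt.W a T (𝟙_ C)) (x : C) : ∃ c : x ⊗ T ≅ T ⊗ x,
      F.map c.hom = δ F _ _ ≫ F.obj x ◁ t.hom ≫ (ρ_ _).hom ≫ (λ_ _).inv ≫ t.inv ▷ F.obj x ≫ μ F _ _ := by
  have hinv : η F ≫ t.inv ∈ Wt.W (-a) (𝟙_ C) T := by
    have h := Wt.inv (a := a) (b := -a) (add_neg_cancel a) (t ≪≫ Functor.Monoidal.εIso F) ht
    exact h
  obtain ⟨φ, hφ⟩ : ∃ φ : F.obj (x ⊗ T) ≅ F.obj (T ⊗ x), φ.hom =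
      δ F _ _ ≫ F.obj x ◁ t.hom ≫ (ρ_ _).hom ≫ (λ_ _).inv ≫ t.inv ▷ F.obj x ≫ μ F _ _ :=
    ⟨(Functor.Monoidal.μIso F x T).symm ≪≫ whiskerLeftIso (F.obj x) t ≪≫ ρ_ (F.obj x) ≪≫
      (λ_ (F.obj x)).symm ≪≫ whiskerRightIso t.symm (F.obj x) ≪≫ Functor.Monoidal.μIso F T x, rfl⟩
  have hmem : φ.hom ∈ Wt.W 0 (x ⊗ T) (T ⊗ x) := by
    have hA := Wt.ten (zero_add a) (Wt.id x) ht
    have hB := Wt.map ((ρ_ x).hom ≫ (λ_ x).inv)
    have hC := Wt.ten (add_zero (-a)) hinv (Wt.id x)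
    have hAB := Wt.comp (add_zero a) hA hB
    have hABC := Wt.comp (add_neg_cancel a) hAB hC
    have he : φ.hom = ((δ F x T ≫ (𝟙 (F.obj x) ⊗ₘ (t.hom ≫ ε F)) ≫ μ F x (𝟙_ C)) ≫
        F.map ((ρ_ x).hom ≫ (λ_ x).inv)) ≫
          (δ F (𝟙_ C) x ≫ ((η F ≫ t.inv) ⊗ₘ 𝟙 (F.obj x)) ≫ μ F T x) := by
      rw [hφ, F.map_comp, Functor.Monoidal.map_rightUnitor, Functor.Monoidal.map_leftUnitor_inv,
        id_tensorHom, tensorHom_id]
      simp only [Category.assoc, Functor.Monoidal.μ_δ_assoc, MonoidalCategory.whiskerLeft_comp,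
        comp_whiskerRight]
      rw [← whiskerLeft_comp_assoc (F.obj x) (ε F) (η F), Functor.Monoidal.ε_η,
        ← comp_whiskerRight_assoc (ε F) (η F) (F.obj x), Functor.Monoidal.ε_η]
      simp only [whiskerLeft_id, id_whiskerRight, Category.id_comp]
    rw [he]
    exact hABC
  obtain ⟨e, he, -⟩ := Wt.lift_iso φ hmem
  exact ⟨e, he.trans hφ⟩

private theorem E1d_kappa (Wt : Wts K F n) {a : ZMod n} {T : C} (t : F.obj T ≅ 𝟙_ D)
    (ht : t.hom ≫ ε F ∈ Wt.W a T (𝟙_ C)) (y : C) : ∃ κ : F.obj (T ⊗ y) ≅ F.obj y,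
      κ.hom = δ F _ _ ≫ t.hom ▷ F.obj y ≫ (λ_ _).hom ∧ κ.hom ∈ Wt.W a (T ⊗ y) y ∧
        κ.inv ∈ Wt.W (-a) y (T ⊗ y) := by
  obtain ⟨φ, hφ⟩ : ∃ φ : F.obj (T ⊗ y) ≅ F.obj y, φ.hom =
      δ F _ _ ≫ t.hom ▷ F.obj y ≫ (λ_ _).hom :=
    ⟨(Functor.Monoidal.μIso F T y).symm ≪≫ whiskerRightIso t (F.obj y) ≪≫ λ_ (F.obj y), rfl⟩
  have hmem : φ.hom ∈ Wt.W a (T ⊗ y) y := by
    have hA := Wt.ten (add_zero a) ht (Wt.id y)
    have hAB := Wt.comp (add_zero a) hA (Wt.map (λ_ y).hom)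
    have he : φ.hom = (δ F T y ≫ ((t.hom ≫ ε F) ⊗ₘ 𝟙 (F.obj y)) ≫ μ F (𝟙_ C) y) ≫
        F.map (λ_ y).hom := by
      rw [hφ, Functor.Monoidal.map_leftUnitor, tensorHom_id]
      simp only [Category.assoc, Functor.Monoidal.μ_δ_assoc, comp_whiskerRight]
      rw [← comp_whiskerRight_assoc (ε F) (η F) (F.obj y), Functor.Monoidal.ε_η]
      simp only [id_whiskerRight, Category.id_comp]
    rw [he]
    exact hAB
  exact ⟨φ, hφ, hmem, Wt.inv (add_neg_cancel a) φ hmem⟩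

theorem Wts.hom (Wt : Wts K F n) {T : ZMod n → C} (t : ∀ a, F.obj (T a) ≅ 𝟙_ D)
    (ht : ∀ a, (t a).hom ≫ ε F ∈ Wt.W a (T a) (𝟙_ C)) (x y : C) (h : F.obj x ⟶ F.obj y) :
    ∃! f : ∀ a : ZMod n, x ⟶ T a ⊗ y,
      h = ∑ a, F.map (f a) ≫ δ F _ _ ≫ (t a).hom ▷ F.obj y ≫ (λ_ _).hom := by
  choose κ hκ hκW hκi using fun a => E1d_kappa Wt (t a) (ht a) y
  simp only [← hκ]
  obtain ⟨k, hk, hks⟩ := Wt.dec h
  have h1 : ∀ a, ∃ f : x ⟶ T a ⊗ y, F.map f = k a ≫ (κ a).inv := fun a => by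
    obtain ⟨f, hf, -⟩ := Wt.lift (k a ≫ (κ a).inv)
      (Wt.comp (add_neg_cancel a) (hk a) (hκi a))
    exact ⟨f, hf⟩
  choose f hf using h1
  have hfk : ∀ a, F.map (f a) ≫ (κ a).hom = k a := fun a => by
    rw [hf a, Category.assoc, Iso.inv_hom_id, Category.comp_id]
  refine ⟨f, ?_, ?_⟩
  · show h = ∑ a, F.map (f a) ≫ (κ a).hom
    rw [← hks]
    exact Finset.sum_congr rfl fun a _ => (hfk a).symm
  · intro f' hf'
    have hf'' : h = ∑ a, F.map (f' a) ≫ (κ a).hom := hf'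
    have h2 := Wt.uniq (fun a => F.map (f' a) ≫ (κ a).hom - k a)
      (fun a => (Wt.W a x y).sub_mem (Wt.comp (zero_add a) (Wt.map (f' a)) (hκW a)) (hk a))
      (by rw [Finset.sum_sub_distrib, ← hf'', hks, sub_self])
    funext a
    apply Wt.faithful
    rw [← cancel_mono (κ a).hom, hfk a]
    exact sub_eq_zero.1 (h2 a)

theorem wts_deeq (Wt : Wts K F n) (h1 : ∀ f : 𝟙_ D ⟶ 𝟙_ D, ∃ c : K, f = c • 𝟙 _) : Nonempty (DeEq K F n) := by
  obtain ⟨th, t, hu, hm, ht⟩ := Wt.exists_gl h1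
  choose cen hcen using fun a x => Wt.exists_cen (t a) (ht a) x
  exact ⟨{ map_add := Wt.map_add
           map_smul := Wt.map_smul
           th := th
           t := t
           t_one := hu
           t_mul := hm
           cen := cen
           F_cen := hcen
           hom := fun x y h => Wt.hom t ht x y h
           dom := Wt.dom }⟩

end Pool.Agent.SFC
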