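import Pool.Agent.SFC.Stm

/-!
# SFC/E1e: the action of `G` on `Hom (F x, F y)` for an equivariantization

`E.th g h := (u g)⁻¹ ≫ T g h ≫ u g` for `h : F x ⟶ F y`.
`th_comp`, `th_add`, `th_smul`, `th_id`: clear (`Functor.map_comp`, `A.map_add`, ..).  `th_map`: naturality of `(E.u g).hom`.
`th_one`: naturality of `A.one.hom` and `E.u_one` (`A.one.hom.app _` is an isomorphism).
`th_mul`: `E.u_mul` gives `(u gh).inv ≫ (A.comp ..).inv = (u g).inv ≫ T g ((u h).inv)`; naturality of `(A.comp g h gh e).hom`.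
`th_ten`: `(E.u g).hom` is a monoidal transformation (`E.u_mon`, `NatTrans.IsMonoidal.tensor`): `μ (A.T g) _ _ ≫ (A.T g).map (μ F x y) ≫ (u g)_(x ⊗ y) = ((u g)_x ⊗ₘ (u g)_y) ≫ μ F x y`; with the naturality of `μ (A.T g)`.
`δ` is the inverse of `μ` (`Functor.Monoidal.μ_δ` ..).
`th_inv`: for an isomorphism `h` from `th_comp`, `th_id`.
-/

set_option autoImplicit false

noncomputable section

open CategoryTheory MonoidalCategory

namespace Pool.Agent.SFC

universe v u v' u' w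

open Functor.LaxMonoidal Functor.OplaxMonoidal

variable {K : Type w} [Field K] {C : Type u} [Category.{v} C] [Preadditive C] [Linear K C] [MonoidalCategory C]
  {G : Type} [Group G] {D : Type u'} [Category.{v'} D] [Preadditive D] [Linear K D] [MonoidalCategory D]
  {A : Act K G D} {F : C ⥤ D} [F.Monoidal]

/-- the action of `g` on `Hom (F x, F y)` -/
def Eqv.th (E : Eqv K A F) (g : G) {x y : C} (h : F.obj x ⟶ F.obj y) : F.obj x ⟶ F.obj y :=
  (E.u g).inv.app x ≫ (A.T g).map h ≫ (E.u g).hom.app y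

theorem Eqv.th_comp (E : Eqv K A F) (g : G) {x y z : C} (h : F.obj x ⟶ F.obj y) (k : F.obj y ⟶ F.obj z) :
    E.th g (h ≫ k) = E.th g h ≫ E.th g k := by
  simp only [Eqv.th, Functor.map_comp, Category.assoc, Iso.hom_inv_id_app_assoc]

theorem Eqv.th_add (E : Eqv K A F) (g : G) {x y : C} (h k : F.obj x ⟶ F.obj y) :
    E.th g (h + k) = E.th g h + E.th g k := by
  simp only [Eqv.th, A.map_add, Preadditive.comp_add, Preadditive.add_comp]

theorem Eqv.th_smul (E : Eqv K A F) (g : G) {x y : C} (c : K) (h : F.obj x ⟶ F.obj y) :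
    E.th g (c • h) = c • E.th g h := by
  simp only [Eqv.th, A.map_smul, Linear.comp_smul, Linear.smul_comp]

theorem Eqv.th_map (E : Eqv K A F) (g : G) {x y : C} (f : x ⟶ y) : E.th g (F.map f) = F.map f := by
  have h1 := (E.u g).hom.naturality f
  have h2 : (A.T g).map (F.map f) ≫ (E.u g).hom.app y = (E.u g).hom.app x ≫ F.map f := h1
  rw [Eqv.th, h2, Iso.inv_hom_id_app_assoc]

theorem Eqv.th_one (E : Eqv K A F) {x y : C} (h : F.obj x ⟶ F.obj y) : E.th 1 h = h := by
  have h1 : ∀ z : C, (E.u 1).inv.app z = A.one.hom.app (F.obj z) := by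
    intro z
    rw [← cancel_mono ((E.u 1).hom.app z), E.u_one, Iso.inv_hom_id_app]
    rfl
  have h2 : h ≫ A.one.hom.app (F.obj y) = A.one.hom.app (F.obj x) ≫ (A.T 1).map h := A.one.hom.naturality h
  rw [Eqv.th, h1, ← Category.assoc, ← h2, Category.assoc, E.u_one]
  exact Category.comp_id h

theorem Eqv.th_mul (E : Eqv K A F) (g g' : G) {x y : C} (h : F.obj x ⟶ F.obj y) :
    E.th (g * g') h = E.th g (E.th g' h) := by
  have h1 := fun z => E.u_mul g g' (g * g') rfl z
  have h2 : (E.u g).inv.app x ≫ (A.T g).map ((E.u g').inv.app x) ≫ (A.comp g g' (g * g') rfl).hom.app (F.obj x) =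
      (E.u (g * g')).inv.app x := by
    rw [← cancel_mono ((E.u (g * g')).hom.app x), Category.assoc, Category.assoc, ← h1 x, Iso.inv_hom_id_app,
      ← Functor.map_comp_assoc, Iso.inv_hom_id_app]
    erw [CategoryTheory.Functor.map_id, Category.id_comp, Iso.inv_hom_id_app]
  have h3 : (A.T g).map ((A.T g').map h) ≫ (A.comp g g' (g * g') rfl).hom.app (F.obj y) =
      (A.comp g g' (g * g') rfl).hom.app (F.obj x) ≫ (A.T (g * g')).map h :=
    (A.comp g g' (g * g') rfl).hom.naturality h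
  simp only [Eqv.th, Functor.map_comp, Category.assoc]
  rw [h1 y, reassoc_of% h3, ← h2]
  simp only [Category.assoc]

theorem Eqv.th_ten (E : Eqv K A F) (g : G) {x y x' y' : C} (h : F.obj x ⟶ F.obj y) (k : F.obj x' ⟶ F.obj y') :
    E.th g (δ F x x' ≫ (h ⊗ₘ k) ≫ μ F y y') = δ F x x' ≫ (E.th g h ⊗ₘ E.th g k) ≫ μ F y y' := by
  have h0 : ∀ a b : C, μ (A.T g) (F.obj a) (F.obj b) ≫ (A.T g).map (μ F a b) ≫ (E.u g).hom.app (a ⊗ b) =
      ((E.u g).hom.app a ⊗ₘ (E.u g).hom.app b) ≫ μ F a b := by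
    intro a b
    have := (E.u_mon g).tensor a b
    rw [Functor.LaxMonoidal.comp_μ, Category.assoc] at this
    exact this
  have h1 : ∀ a b : C, (A.T g).map (μ F a b) ≫ (E.u g).hom.app (a ⊗ b) =
      δ (A.T g) (F.obj a) (F.obj b) ≫ ((E.u g).hom.app a ⊗ₘ (E.u g).hom.app b) ≫ μ F a b := by
    intro a b
    rw [← h0 a b, Functor.Monoidal.δ_μ_assoc]
  have h2 : (E.u g).inv.app (x ⊗ x') ≫ (A.T g).map (δ F x x') ≫ δ (A.T g) (F.obj x) (F.obj x') =
      δ F x x' ≫ ((E.u g).inv.app x ⊗ₘ (E.u g).inv.app x') := by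
    have h3 : (E.u g).hom.app (x ⊗ x') = (A.T g).map (δ F x x') ≫ δ (A.T g) (F.obj x) (F.obj x') ≫
        ((E.u g).hom.app x ⊗ₘ (E.u g).hom.app x') ≫ μ F x x' := by
      rw [← h1 x x', ← Functor.map_comp_assoc, Functor.Monoidal.δ_μ, CategoryTheory.Functor.map_id, Category.id_comp]
    have h4 : (E.u g).hom.app (x ⊗ x') ≫ δ F x x' ≫ ((E.u g).inv.app x ⊗ₘ (E.u g).inv.app x') =
        (A.T g).map (δ F x x') ≫ δ (A.T g) (F.obj x) (F.obj x') := by
      rw [h3]
      simp only [Category.assoc, Functor.Monoidal.μ_δ_assoc, tensorHom_comp_tensorHom, Iso.hom_inv_id_app]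
      erw [tensorHom_id, id_whiskerRight, Category.comp_id]
    rw [← h4, Iso.inv_hom_id_app_assoc]
  simp only [Eqv.th, Functor.map_comp, Category.assoc]
  rw [h1 y y', ← Functor.OplaxMonoidal.δ_natural_assoc, reassoc_of% h2]
  simp only [tensorHom_comp_tensorHom_assoc, Category.assoc]

theorem Eqv.th_fix (E : Eqv K A F) {x y : C} (h : F.obj x ⟶ F.obj y) (hh : ∀ g, E.th g h = h) :
    ∃! f : x ⟶ y, F.map f = h := by
  refine E.hom x y h fun g => ?_
  have h1 := hh g
  rw [Eqv.th] at h1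
  conv_rhs => rw [← h1]
  rw [Iso.hom_inv_id_app_assoc]

end Pool.Agent.SFC
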