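import Pool.Agent.SFC.E1a
import Pool.Agent.SFC.E1e

/-!
# SFC/E1f: the objects `(𝟙, χ)` of an equivariantization

Let `χ : G → K` be a character.  The object `𝟙_ D` with `z g := (χ g)⁻¹ • η (A.T g) : T g 𝟙 ⟶ 𝟙` satisfies the hypotheses of `E.ess`:
`A.one.hom.app 𝟙 = ε (A.T 1)` (`A.one_mon`, unit axiom `NatTrans.IsMonoidal.unit`, `ε (𝟭 D) = 𝟙`) and `ε ≫ η = 𝟙`;
`(A.T g).map (η (A.T h)) ≫ η (A.T g) = (A.comp g h gh e).hom.app 𝟙 ≫ η (A.T gh)`, because `ε (A.T h ⋙ A.T g) ≫ (A.comp ..).hom.app 𝟙 = ε (A.T gh)` (`A.comp_mon`) and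
`ε (A.T h ⋙ A.T g) = ε (A.T g) ≫ (A.T g).map (ε (A.T h))`; `η` is the inverse of `ε`.
So there are `x` and `i : F x ≅ 𝟙` with `(A.T g).map i.hom ≫ z g = (u g).hom.app x ≫ i.hom`.  Let `τ := i ≪≫ εIso F : F x ≅ F 𝟙`.  `(E.u g).hom` is monoidal (unit axiom):
`ε (A.T g) ≫ (A.T g).map (ε F) ≫ (u g).hom.app 𝟙 = ε F`, so `(A.T g).map (ε F) ≫ (u g).hom.app 𝟙 = η (A.T g) ≫ ε F` and
`E.th g τ.hom = (u g)⁻¹ ≫ (A.T g).map i.hom ≫ η (A.T g) ≫ ε F = χ g • τ.hom`.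
-/

set_option autoImplicit false

noncomputable section

open CategoryTheory MonoidalCategory

namespace Pool.Agent.SFC

universe v u v' u' w

open Functor.LaxMonoidal Functor.OplaxMonoidal

variable {K : Type w} [Field K] {C : Type u} [Category.{v} C] [Preadditive C] [Linear K C] [MonoidalCategory C]
  {G : Type} [Group G] {D : Type u'} [Category.{v'} D] [Preadditive D] [Linear K D] [MonoidalCategory D]
  {A : Act K G D} {F : C ⥤ D} [F.Monoidal]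

theorem Act.one_unit (A : Act K G D) : A.one.hom.app (𝟙_ D) ≫ η (A.T 1) = 𝟙 _ := by
  have h1 : ε (𝟭 D) ≫ A.one.hom.app (𝟙_ D) = ε (A.T 1) := A.one_mon.unit
  have h2 : A.one.hom.app (𝟙_ D) = ε (A.T 1) := by
    rw [← h1, Functor.LaxMonoidal.id_ε]
    exact (Category.id_comp _).symm
  rw [h2, Functor.Monoidal.ε_η]
  rfl

theorem Act.comp_unit (A : Act K G D) (g h gh : G) (e : g * h = gh) :
    (A.T g).map (η (A.T h)) ≫ η (A.T g) = (A.comp g h gh e).hom.app (𝟙_ D) ≫ η (A.T gh) := by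
  have h1 : ε (A.T g) ≫ (A.T g).map (ε (A.T h)) ≫ (A.comp g h gh e).hom.app (𝟙_ D) = ε (A.T gh) := by
    have := (A.comp_mon g h gh e).unit
    rw [Functor.LaxMonoidal.comp_ε, Category.assoc] at this
    exact this
  have h2 : (A.comp g h gh e).hom.app (𝟙_ D) =
      (A.T g).map (η (A.T h)) ≫ η (A.T g) ≫ ε (A.T gh) := by
    rw [← h1, Functor.Monoidal.η_ε_assoc, ← Functor.map_comp_assoc, Functor.Monoidal.η_ε,
      CategoryTheory.Functor.map_id]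
    exact (Category.id_comp _).symm
  rw [h2, Category.assoc, Category.assoc, Functor.Monoidal.ε_η, Category.comp_id]

theorem Eqv.u_unit (E : Eqv K A F) (g : G) :
    (A.T g).map (ε F) ≫ (E.u g).hom.app (𝟙_ C) = η (A.T g) ≫ ε F := by
  have h1 : ε (A.T g) ≫ (A.T g).map (ε F) ≫ (E.u g).hom.app (𝟙_ C) = ε F := by
    have := (E.u_mon g).unit
    rw [Functor.LaxMonoidal.comp_ε, Category.assoc] at this
    exact this
  calc (A.T g).map (ε F) ≫ (E.u g).hom.app (𝟙_ C) =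
        η (A.T g) ≫ (ε (A.T g) ≫ (A.T g).map (ε F) ≫ (E.u g).hom.app (𝟙_ C)) := by
        rw [Functor.Monoidal.η_ε_assoc]
    _ = _ := by rw [h1]

theorem Eqv.exists_ch (E : Eqv K A F) (χ : G → K) (h1 : χ 1 = 1) (hm : ∀ g h, χ (g * h) = χ g * χ h)
    (hne : ∀ g, χ g ≠ 0) : ∃ (x : C) (τ : F.obj x ≅ F.obj (𝟙_ C)), ∀ g, E.th g τ.hom = χ g • τ.hom := by
  obtain ⟨x, i, hi⟩ := E.ess (𝟙_ D) (fun g => (χ g)⁻¹ • η (A.T g)) (by
    rw [h1, inv_one, one_smul]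
    exact A.one_unit) (by
    intro g h gh e
    have h2 : (χ gh)⁻¹ = (χ h)⁻¹ * (χ g)⁻¹ := by
      rw [← e, hm, mul_inv, mul_comm]
    rw [A.map_smul, Linear.smul_comp, Linear.comp_smul, Linear.comp_smul, smul_smul, A.comp_unit g h gh e, h2])
  refine ⟨x, i ≪≫ Functor.Monoidal.εIso F, fun g => ?_⟩
  have h2 : (A.T g).map i.hom ≫ η (A.T g) = χ g • ((E.u g).hom.app x ≫ i.hom) := by
    rw [← hi g, Linear.comp_smul, smul_smul, mul_inv_cancel₀ (hne g), one_smul]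
  rw [Iso.trans_hom, Functor.Monoidal.εIso_hom, Eqv.th, Functor.map_comp, Category.assoc, E.u_unit g,
    ← Category.assoc ((A.T g).map i.hom), h2, Linear.smul_comp, Linear.comp_smul, Category.assoc,
    Iso.inv_hom_id_app_assoc]

end Pool.Agent.SFC
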