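import Pool.Agent.SFC.E1e

/-!
# SFC/E1g: the forgetful functor of an equivariantization is dominant

For `Z : D` let `Y := ⨁ fun g : G => (A.T g).obj Z`, with the map `z h : T h Y ⟶ Y` given by
`z h ≫ π k = (A.T h).map (π g) ≫ (A.comp h g k e).hom.app Z` for `e : h * g = k`.
`E.ess` gives `x` and `i : F x ≅ Y`; the maps `Z ⟶ T 1 Z ⟶ Y ≅ F x` (`A.one.hom`, `ι 1`) and `F x ≅ Y ⟶ T 1 Z ⟶ Z` compose to the identity.
-/

set_option autoImplicit false

noncomputable section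

open CategoryTheory MonoidalCategory

namespace Pool.Agent.SFC

universe v u v' u' w

variable {K : Type w} [Field K] {C : Type u} [Category.{v} C] [Preadditive C] [Linear K C] [MonoidalCategory C]
  {G : Type} [Group G] [Fintype G] [DecidableEq G] {D : Type u'} [Category.{v'} D] [Preadditive D] [Linear K D]
  [MonoidalCategory D] [Limits.HasFiniteBiproducts D] {A : Act K G D} {F : C ⥤ D} [F.Monoidal]

variable (A) in
/-- the direct sum of the translates of `Z` -/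
private def E1g_Y (Z : D) : D := ⨁ fun g : G => (A.T g).obj Z

variable (A) in
private def E1g_π (Z : D) (g : G) : E1g_Y A Z ⟶ (A.T g).obj Z :=
  Limits.biproduct.π (fun g : G => (A.T g).obj Z) g

variable (A) in
private def E1g_ι (Z : D) (g : G) : (A.T g).obj Z ⟶ E1g_Y A Z :=
  Limits.biproduct.ι (fun g : G => (A.T g).obj Z) g

private theorem E1g_ιπ (Z : D) (g : G) : E1g_ι A Z g ≫ E1g_π A Z g = 𝟙 _ :=
  Limits.biproduct.ι_π_self _ _

private theorem E1g_ext {Z W : D} {f f' : W ⟶ E1g_Y A Z} (h : ∀ g, f ≫ E1g_π A Z g = f' ≫ E1g_π A Z g) : f = f' :=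
  Limits.biproduct.hom_ext _ _ h

variable (A) in
private def E1g_z (Z : D) (h : G) : (A.T h).obj (E1g_Y A Z) ⟶ E1g_Y A Z :=
  Limits.biproduct.lift fun k => (A.T h).map (E1g_π A Z (h⁻¹ * k)) ≫
    (A.comp h (h⁻¹ * k) k (mul_inv_cancel_left h k)).hom.app Z

private theorem E1g_zπ (Z : D) (h g k : G) (e : h * g = k) :
    E1g_z A Z h ≫ E1g_π A Z k = (A.T h).map (E1g_π A Z g) ≫ (A.comp h g k e).hom.app Z := by
  obtain rfl : g = h⁻¹ * k := by rw [← e, inv_mul_cancel_left]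
  exact Limits.biproduct.lift_π _ _

private theorem E1g_one (Z : D) : A.one.hom.app (E1g_Y A Z) ≫ E1g_z A Z 1 = 𝟙 _ := by
  apply E1g_ext
  intro k
  have h1 := A.one.hom.naturality (E1g_π A Z k)
  have h2 := A.unitL k (one_mul k) Z
  rw [Functor.id_map] at h1
  rw [Category.assoc, E1g_zπ Z 1 k k (one_mul k), ← reassoc_of% h1, Category.id_comp]
  erw [h2]
  exact Category.comp_id _

private theorem E1g_mul (Z : D) (g h gh : G) (e : g * h = gh) :
    (A.T g).map (E1g_z A Z h) ≫ E1g_z A Z g = (A.comp g h gh e).hom.app (E1g_Y A Z) ≫ E1g_z A Z gh := by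
  apply E1g_ext
  intro k
  obtain ⟨m, hm⟩ : ∃ m, g * m = k := ⟨g⁻¹ * k, mul_inv_cancel_left g k⟩
  obtain ⟨l, hl⟩ : ∃ l, h * l = m := ⟨h⁻¹ * m, mul_inv_cancel_left h m⟩
  have hk : gh * l = k := by rw [← e, mul_assoc, hl, hm]
  have h1 := (A.comp g h gh e).hom.naturality (E1g_π A Z l)
  have h2 := A.assoc g h l gh m k e hk hl hm Z
  rw [Functor.comp_map] at h1
  rw [Category.assoc, Category.assoc, E1g_zπ Z g m k hm, E1g_zπ Z gh l k hk, ← Functor.map_comp_assoc,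
    E1g_zπ Z h l m hl, Functor.map_comp, Category.assoc, h2, reassoc_of% h1]

theorem Eqv.dom (E : Eqv K A F) (Z : D) : ∃ (x : C) (i : Z ⟶ F.obj x) (p : F.obj x ⟶ Z), i ≫ p = 𝟙 Z := by
  obtain ⟨x, i, _⟩ := E.ess (E1g_Y A Z) (E1g_z A Z) (E1g_one Z) (E1g_mul Z)
  refine ⟨x, A.one.hom.app Z ≫ E1g_ι A Z 1 ≫ i.inv, i.hom ≫ E1g_π A Z 1 ≫ A.one.inv.app Z, ?_⟩
  rw [Category.assoc, Category.assoc, Iso.inv_hom_id_assoc, reassoc_of% (E1g_ιπ (A := A) Z 1)]
  exact A.one.hom_inv_id_app Z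

end Pool.Agent.SFC
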