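import Pool.Agent.SFC.E1d
import Pool.Agent.SFC.E1f
import Pool.Agent.SFC.E1g

/-!
# SFC/E1h: the forgetful functor of an equivariantization by a group of prime order is a de-equivariantization

`eqv_wts`: `X : Chars K G n` (`exists_chars`), `W a x y := {h | ∀ g, E.th g h = X.X a g • h}` (a submodule by `th_add`, `th_smul`).  `comp`, `ten`: `th_comp`, `th_ten`, `X.add` (and `smul` through `⊗ₘ`, `≫`).
`map`: `th_map`, `X.zero`.  `lift`: `th_fix`.  `dec`: `k a := (n : K)⁻¹ • ∑ g, X.X (-a) g • E.th g h`; `E.th g' (k a) = X.X a g' • k a` by `th_mul` and the substitution `g ↦ g' g`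
(`X.X (-a) g = X.X a g' * X.X (-a) (g' g)`); `∑ a, k a = (n)⁻¹ • ∑ g, (∑ a, X.X (-a) g) • E.th g h = E.th 1 h = h` by `X.sum_a` (reindex `a ↦ -a`), `th_one`.
`uniq`: `k a = (n)⁻¹ • ∑ g, X.X (-a) g • E.th g (∑ b, k b)`, because `∑ g, X.X (-a) g * X.X b g = ∑ g, X.X (b - a) g = if b = a then n else 0` (`X.sum_g`).
`T a`, `τ a`: `E.exists_ch (X.X a)`.  `dom`: `E.dom`.
`eqv_deeq`: `wts_deeq`.
-/

set_option autoImplicit false

noncomputable section

open CategoryTheory MonoidalCategory

namespace Pool.Agent.SFC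

universe v u v' u' w

variable {K : Type w} [Field K] [IsAlgClosed K] [CharZero K] {C : Type u} [Category.{v} C] [Preadditive C] [Linear K C]
  [MonoidalCategory C] {G : Type} [Group G] {D : Type u'} [Category.{v'} D] [Preadditive D] [Linear K D]
  [MonoidalCategory D] [MonoidalPreadditive D] [MonoidalLinear K D] [Limits.HasFiniteBiproducts D] {A : Act K G D}
  {F : C ⥤ D} [F.Monoidal]

open Functor.LaxMonoidal Functor.OplaxMonoidal

section

omit [IsAlgClosed K] [CharZero K] [MonoidalPreadditive D] [MonoidalLinear K D] [Limits.HasFiniteBiproducts D]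

/-- `E.th g` as a linear map -/
private def E1h_L (E : Eqv K A F) (g : G) (x y : C) : (F.obj x ⟶ F.obj y) →ₗ[K] (F.obj x ⟶ F.obj y) where
  toFun h := E.th g h
  map_add' h k := E.th_add g h k
  map_smul' c h := E.th_smul g c h

private theorem E1h_L_apply (E : Eqv K A F) (g : G) {x y : C} (h : F.obj x ⟶ F.obj y) :
    E1h_L E g x y h = E.th g h := rfl

variable [Fintype G] [DecidableEq G] {n : ℕ} [NeZero n]

/-- the space of weight `a` -/
private def E1h_W (E : Eqv K A F) (X : Chars K G n) (a : ZMod n) (x y : C) : Submodule K (F.obj x ⟶ F.obj y) where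
  carrier := {h | ∀ g, E.th g h = X.X a g • h}
  add_mem' := by
    intro h k hh hk g
    rw [E.th_add, hh g, hk g, smul_add]
  zero_mem' := by
    intro g
    rw [← E1h_L_apply, map_zero, smul_zero]
  smul_mem' := by
    intro c h hh g
    rw [E.th_smul, hh g, smul_comm]

private theorem E1h_mem (E : Eqv K A F) (X : Chars K G n) (a : ZMod n) {x y : C} (h : F.obj x ⟶ F.obj y) :
    h ∈ E1h_W E X a x y ↔ ∀ g, E.th g h = X.X a g • h := Iff.rfl

/-- the projection to the space of weight `a`, times `n` -/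
private def E1h_P (E : Eqv K A F) (X : Chars K G n) (a : ZMod n) (x y : C) :
    (F.obj x ⟶ F.obj y) →ₗ[K] (F.obj x ⟶ F.obj y) := ∑ g, X.X (-a) g • E1h_L E g x y

private theorem E1h_P_apply (E : Eqv K A F) (X : Chars K G n) (a : ZMod n) {x y : C} (h : F.obj x ⟶ F.obj y) :
    E1h_P E X a x y h = ∑ g, X.X (-a) g • E.th g h := by
  unfold E1h_P
  rw [LinearMap.sum_apply]
  rfl

private theorem E1h_P_mem (E : Eqv K A F) (X : Chars K G n) (a : ZMod n) {x y : C} (h : F.obj x ⟶ F.obj y) :
    E1h_P E X a x y h ∈ E1h_W E X a x y := by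
  rw [E1h_mem]
  intro g'
  rw [← E1h_L_apply, E1h_P_apply, map_sum, Finset.smul_sum]
  rw [← Equiv.sum_comp (Equiv.mulLeft g') (fun g => X.X a g' • X.X (-a) g • E.th g h)]
  refine Finset.sum_congr rfl fun g _ => ?_
  rw [map_smul, E1h_L_apply, Equiv.coe_mulLeft, ← E.th_mul, smul_smul, X.mul, ← mul_assoc,
    mul_comm (X.X a g'), X.neg, one_mul]

private theorem E1h_P_sum (E : Eqv K A F) (X : Chars K G n) {x y : C} (h : F.obj x ⟶ F.obj y) :
    ∑ a, E1h_P E X a x y h = (n : K) • h := by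
  have h1 : ∀ a, E1h_P E X a x y h = ∑ g, X.X (-a) g • E.th g h := fun a => E1h_P_apply E X a h
  rw [Finset.sum_congr rfl (fun a _ => h1 a), Finset.sum_comm]
  have h2 : ∀ g : G, ∑ a : ZMod n, X.X (-a) g • E.th g h = (if g = 1 then (n : K) else 0) • E.th g h := by
    intro g
    rw [← Finset.sum_smul, ← X.sum_a g, ← Equiv.sum_comp (Equiv.neg (ZMod n)) (fun a => X.X a g)]
    rfl
  rw [Finset.sum_congr rfl (fun g _ => h2 g), Finset.sum_eq_single (1 : G)]
  · rw [if_pos rfl, E.th_one]
  · intro g _ hg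
    rw [if_neg hg, zero_smul]
  · intro hg
    exact absurd (Finset.mem_univ _) hg

private theorem E1h_P_of_mem (E : Eqv K A F) (X : Chars K G n) (a b : ZMod n) {x y : C} {h : F.obj x ⟶ F.obj y}
    (hh : h ∈ E1h_W E X b x y) : E1h_P E X a x y h = (if b = a then (n : K) else 0) • h := by
  rw [E1h_P_apply]
  have h1 : ∀ g, X.X (-a) g • E.th g h = X.X (b - a) g • h := by
    intro g
    rw [(E1h_mem E X b h).1 hh g, smul_smul, ← X.add, sub_eq_add_neg, add_comm]
  rw [Finset.sum_congr rfl (fun g _ => h1 g), ← Finset.sum_smul, X.sum_g]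
  congr 1
  by_cases hab : b = a
  · rw [if_pos hab, if_pos (sub_eq_zero.2 hab)]
  · rw [if_neg hab, if_neg (fun h => hab (sub_eq_zero.1 h))]

end

theorem eqv_wts [Fintype G] [DecidableEq G] {n : ℕ} [NeZero n] (E : Eqv K A F) (X : Chars K G n) :
    Nonempty (Wts K F n) := by
  have hn : (n : K) ≠ 0 := Nat.cast_ne_zero.2 (NeZero.ne n)
  choose T τ hτ using fun a : ZMod n => E.exists_ch (X.X a) (X.one a) (X.mul a) (X.ne a)
  refine ⟨{
    map_add := E.map_add
    map_smul := E.map_smul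
    W := E1h_W E X
    comp := ?_
    ten := ?_
    map := ?_
    lift := ?_
    dec := ?_
    uniq := ?_
    T := T
    τ := τ
    τ_mem := hτ
    dom := E.dom }⟩
  · intro a b c hc x y z f k hf hk
    rw [E1h_mem]
    intro g
    rw [E.th_comp, (E1h_mem E X a f).1 hf g, (E1h_mem E X b k).1 hk g, Linear.smul_comp,
      Linear.comp_smul, smul_smul, ← hc, X.add]
  · intro a b c hc x y x' y' f f' hf hf'
    rw [E1h_mem]
    intro g
    rw [E.th_ten, (E1h_mem E X a f).1 hf g, (E1h_mem E X b f').1 hf' g, MonoidalCategory.tensorHom_def,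
      MonoidalLinear.smul_whiskerRight, MonoidalLinear.whiskerLeft_smul, Linear.smul_comp,
      Linear.comp_smul, smul_smul, Linear.smul_comp, Linear.comp_smul, ← MonoidalCategory.tensorHom_def, ← hc, X.add]
  · intro x y f
    rw [E1h_mem]
    intro g
    rw [E.th_map, X.zero, one_smul]
  · intro x y h hh
    refine E.th_fix h fun g => ?_
    rw [(E1h_mem E X 0 h).1 hh g, X.zero, one_smul]
  · intro x y h
    refine ⟨fun a => (n : K)⁻¹ • E1h_P E X a x y h, fun a => Submodule.smul_mem _ _ (E1h_P_mem E X a h), ?_⟩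
    rw [← Finset.smul_sum, E1h_P_sum, smul_smul, inv_mul_cancel₀ hn, one_smul]
  · intro x y k hk h0 a
    have h1 : E1h_P E X a x y (∑ b, k b) = (n : K) • k a := by
      rw [map_sum, Finset.sum_eq_single a]
      · rw [E1h_P_of_mem E X a a (hk a), if_pos rfl]
      · intro b _ hb
        rw [E1h_P_of_mem E X a b (hk b), if_neg hb, zero_smul]
      · intro h
        exact absurd (Finset.mem_univ _) h
    rw [h0, map_zero] at h1
    exact (smul_eq_zero.1 h1.symm).resolve_left hn

theorem eqv_deeq {n : ℕ} [NeZero n] (hn : n.Prime) (hG : Nat.card G = n) (E : Eqv K A F)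
    (h1 : ∀ f : 𝟙_ D ⟶ 𝟙_ D, ∃ c : K, f = c • 𝟙 _) : Nonempty (DeEq K F n) := by
  classical
  have hfin : Finite G := (Nat.card_pos_iff.1 (by rw [hG]; exact hn.pos)).2
  have := Fintype.ofFinite G
  obtain ⟨X⟩ := exists_chars K G n hn (by rw [← Nat.card_eq_fintype_card, hG])
  obtain ⟨Wt⟩ := eqv_wts E X
  exact wts_deeq Wt h1

end Pool.Agent.SFC
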