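import Pool.Agent.SFC.E1h

/-!
# SFC/E1i: equivariantizations by groups of prime order
-/

set_option autoImplicit false

noncomputable section

open CategoryTheory MonoidalCategory

namespace Pool.Agent.SFC

open Pool.Agent.NFG

universe v u v' u' w

theorem fus_end1 {K : Type w} [Field K] {C : Type u} [Category.{v} C] [Preadditive C] [Linear K C]
    [MonoidalCategory C] {ι : Type} [Fintype ι] [DecidableEq ι] (F : Fus K C ι) (f : 𝟙_ C ⟶ 𝟙_ C) :
    ∃ c : K, f = c • 𝟙 (𝟙_ C) := by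
  obtain ⟨c, hc⟩ := F.schur F.o (F.u.hom ≫ f ≫ F.u.inv)
  refine ⟨c, ?_⟩
  have h1 : f = F.u.inv ≫ (F.u.hom ≫ f ≫ F.u.inv) ≫ F.u.hom := by simp
  rw [h1, hc, Linear.smul_comp, Linear.comp_smul]
  simp

theorem fus_one_ne {K : Type w} [Field K] {C : Type u} [Category.{v} C] [Preadditive C] [Linear K C]
    [MonoidalCategory C] {ι : Type} [Fintype ι] [DecidableEq ι] (F : Fus K C ι) : 𝟙 (𝟙_ C) ≠ 0 := by
  intro h
  apply F.one_ne F.o
  have h4 : 𝟙 (F.S F.o) = F.u.hom ≫ 𝟙 (𝟙_ C) ≫ F.u.inv := by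
    rw [Category.id_comp, Iso.hom_inv_id]
  rw [h4, h, Limits.zero_comp, Limits.comp_zero]

/-- E1 -/
theorem eqv_deq {K : Type w} [Field K] {C : Type u} [Category.{v} C] [Preadditive C] [Linear K C] [MonoidalCategory C]
    [MonoidalPreadditive C] [MonoidalLinear K C] {D : Type u'} [Category.{v'} D] [Preadditive D] [Linear K D]
    [MonoidalCategory D] [MonoidalPreadditive D] [MonoidalLinear K D]
    [IsAlgClosed K] [CharZero K] [Limits.HasFiniteBiproducts D] {H : Type} [Group H] {A : Act K H D}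
    {F : C ⥤ D} [F.Monoidal] (E : Eqv K A F) {ι : Type} [Fintype ι] [DecidableEq ι] (FD : Fus K D ι) {n : ℕ}
    [NeZero n] (hn : n.Prime) (hH : Nat.card H = n) : Nonempty (DeEq K F n) :=
  eqv_deeq hn hH E (fus_end1 FD)

end Pool.Agent.SFC
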