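import Pool.Agent.SFC.E2w

/-!
# SFC/E2a: the algebra `A = ⨁ T a` and the map `χ : F A ⟶ 𝟙`

`S.A` is the direct sum of the objects `T a` of a de-equivariantization (`IsSum`).  `χ := ∑ a, F (q a) ≫ t a : F A ⟶ 𝟙`; `act y := δ ≫ χ ▷ _ ≫ λ : F (A ⊗ y) ⟶ F y`.
`i_chi`: `iq`, `orth` (`F.map` preserves sums: `map_sum` with the additive hom from `Q.map_add`).  `one_chi`: `hS.one`, `Q.t_one`.
`mul_chi`: insert `𝟙 = ∑ q a ≫ i a` in both factors: `F.map S.mul ≫ χ = ∑ a b, F.map ((q a ⊗ₘ q b) ≫ (i a ⊗ₘ i b) ≫ S.mul) ≫ χ`, `hS.mul`, `Q.t_mul`, `i_chi`; and the same for the right-hand side.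
`act_univ`: for `h` take `f` from `Q.hom` and `k := ∑ a, f a ≫ i a ▷ y`; `F.map (i a ▷ y) ≫ act y = kap a y`.  Uniqueness: for `k` the family `k ≫ q a ▷ y` satisfies the equation in `Q.hom`, and `k = ∑ a, (k ≫ q a ▷ y) ≫ i a ▷ y`.
`exists_univ`: `Z` is a retract of `F y` (`Q.dom`), `i : Z ⟶ F y`, `p : F y ⟶ Z`; `act y ≫ p ≫ i = F.map k ≫ act y` with `k` idempotent (uniqueness in `act_univ`), `k = π ≫ ι`, `ι ≫ π = 𝟙 r` (`idempotents_split`);
`c := F.map ι ≫ act y ≫ p`.  For `h : F x ⟶ Z`: `h ≫ i = F.map k' ≫ act y`, take `k' ≫ π`: `F.map (k' ≫ π ≫ ι) ≫ act y ≫ p = F.map k' ≫ act y ≫ p ≫ i ≫ p = h`.  Uniqueness: if `F.map k' ≫ c = F.map k'' ≫ c`, then after `≫ i`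
`F.map (k' ≫ ι ≫ k) ≫ act y = F.map (k'' ≫ ι ≫ k) ≫ act y`, so `k' ≫ ι = k'' ≫ ι`.
`exists_adj`: `Adjunction.rightAdjointOfEquiv`, `Adjunction.adjunctionOfEquivRight` with the equivalences `(F.obj x ⟶ Z) ≃ (x ⟶ r Z)` from `exists_univ`.
-/

set_option autoImplicit false

noncomputable section

open CategoryTheory MonoidalCategory
open scoped BigOperators

namespace Pool.Agent.SFC

universe v u v' u' w

open Functor.LaxMonoidal Functor.OplaxMonoidal

variable {K : Type w} [Field K] {C : Type u} [Category.{v} C] [Preadditive C] [Linear K C] [MonoidalCategory C]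
  [MonoidalPreadditive C] [MonoidalLinear K C]
  {D : Type u'} [Category.{v'} D] [Preadditive D] [Linear K D] [MonoidalCategory D] [MonoidalPreadditive D]
  [MonoidalLinear K D] {F : C ⥤ D} [F.Monoidal] {n : ℕ} [NeZero n]

/-- `F A ⟶ 𝟙` -/
def DeEq.chi (Q : DeEq K F n) {S : SFrob C} (hS : IsSum K Q.th S) : F.obj S.A ⟶ 𝟙_ D :=
  ∑ a, F.map (hS.q a) ≫ (Q.t a).hom

private theorem E2a_sum (Q : DeEq K F n) {x y : C} {α : Type} (s : Finset α) (f : α → (x ⟶ y)) :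
    F.map (∑ a ∈ s, f a) = ∑ a ∈ s, F.map (f a) :=
  map_sum (AddMonoidHom.mk' (fun g : x ⟶ y => F.map g) (fun g h => Q.map_add g h)) f s

private theorem E2a_zero (Q : DeEq K F n) (x y : C) : F.map (0 : x ⟶ y) = 0 :=
  map_zero (AddMonoidHom.mk' (fun g : x ⟶ y => F.map g) (fun g h => Q.map_add g h))

theorem DeEq.i_chi (Q : DeEq K F n) {S : SFrob C} (hS : IsSum K Q.th S) (a : ZMod n) :
    F.map (hS.i a) ≫ Q.chi hS = (Q.t a).hom := by
  unfold DeEq.chi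
  rw [Preadditive.comp_sum, Finset.sum_eq_single a]
  · rw [← Category.assoc, ← F.map_comp, hS.iq, F.map_id, Category.id_comp]
  · intro b _ hb
    rw [← Category.assoc, ← F.map_comp, hS.orth a b (Ne.symm hb), E2a_zero Q, Limits.zero_comp]
  · intro h
    exact absurd (Finset.mem_univ _) h

theorem DeEq.one_chi (Q : DeEq K F n) {S : SFrob C} (hS : IsSum K Q.th S) : F.map S.one ≫ Q.chi hS = η F := by
  rw [hS.one, F.map_comp, Category.assoc, Q.i_chi hS, Q.t_one]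

private theorem E2a_id {S : SFrob C} {th : Gl C n} (hS : IsSum K th S) :
    𝟙 (S.A ⊗ S.A) = ∑ a, ∑ b, (hS.q a ⊗ₘ hS.q b) ≫ (hS.i a ⊗ₘ hS.i b) := by
  have h1 : 𝟙 (S.A ⊗ S.A) = (∑ a, hS.q a ≫ hS.i a) ⊗ₘ (∑ b, hS.q b ≫ hS.i b) := by
    rw [hS.sum, MonoidalCategory.id_tensorHom_id]
  rw [h1, sum_tensor]
  refine Finset.sum_congr rfl fun a _ => ?_
  rw [tensor_sum]
  refine Finset.sum_congr rfl fun b _ => ?_
  rw [MonoidalCategory.tensorHom_comp_tensorHom]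

theorem DeEq.mul_chi (Q : DeEq K F n) {S : SFrob C} (hS : IsSum K Q.th S) :
    F.map S.mul ≫ Q.chi hS = δ F _ _ ≫ (Q.chi hS ⊗ₘ Q.chi hS) ≫ (λ_ (𝟙_ D)).hom := by
  have h1 : F.map S.mul ≫ Q.chi hS = ∑ a, ∑ b, F.map (hS.q a ⊗ₘ hS.q b) ≫ δ F _ _ ≫
      ((Q.t a).hom ⊗ₘ (Q.t b).hom) ≫ (λ_ (𝟙_ D)).hom := by
    have h2 : S.mul = ∑ a, ∑ b, (hS.q a ⊗ₘ hS.q b) ≫ (Q.th.m a b (a + b) rfl).hom ≫ hS.i (a + b) := by
      have h3 : S.mul = (∑ a, ∑ b, (hS.q a ⊗ₘ hS.q b) ≫ (hS.i a ⊗ₘ hS.i b)) ≫ S.mul := by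
        rw [← E2a_id hS, Category.id_comp]
      conv_lhs => rw [h3]
      rw [Preadditive.sum_comp]
      refine Finset.sum_congr rfl fun a _ => ?_
      rw [Preadditive.sum_comp]
      refine Finset.sum_congr rfl fun b _ => ?_
      rw [Category.assoc, hS.mul a b (a + b) rfl]
    rw [h2, E2a_sum Q, Preadditive.sum_comp]
    refine Finset.sum_congr rfl fun a _ => ?_
    rw [E2a_sum Q, Preadditive.sum_comp]
    refine Finset.sum_congr rfl fun b _ => ?_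
    rw [F.map_comp, F.map_comp, Category.assoc, Category.assoc, Q.i_chi hS, Q.t_mul a b (a + b) rfl]
  rw [h1]
  have h4 : (Q.chi hS ⊗ₘ Q.chi hS) = ∑ a, ∑ b, (F.map (hS.q a) ⊗ₘ F.map (hS.q b)) ≫
      ((Q.t a).hom ⊗ₘ (Q.t b).hom) := by
    unfold DeEq.chi
    rw [sum_tensor]
    refine Finset.sum_congr rfl fun a _ => ?_
    rw [tensor_sum]
    refine Finset.sum_congr rfl fun b _ => ?_
    rw [MonoidalCategory.tensorHom_comp_tensorHom]
  rw [h4, Preadditive.sum_comp, Preadditive.comp_sum]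
  refine Finset.sum_congr rfl fun a _ => ?_
  rw [Preadditive.sum_comp, Preadditive.comp_sum]
  refine Finset.sum_congr rfl fun b _ => ?_
  rw [Category.assoc, ← Category.assoc (δ F S.A S.A), Functor.OplaxMonoidal.δ_natural, Category.assoc]

/-- `F (A ⊗ y) ⟶ F y` -/
def DeEq.act (Q : DeEq K F n) {S : SFrob C} (hS : IsSum K Q.th S) (y : C) : F.obj (S.A ⊗ y) ⟶ F.obj y :=
  δ F _ _ ≫ Q.chi hS ▷ F.obj y ≫ (λ_ _).hom

private theorem E2a_act (Q : DeEq K F n) {S : SFrob C} (hS : IsSum K Q.th S) (a : ZMod n) (y : C) :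
    F.map (hS.i a ▷ y) ≫ Q.act hS y = Q.kap a y := by
  unfold DeEq.act DeEq.kap
  rw [← Category.assoc, ← Functor.OplaxMonoidal.δ_natural_left, Category.assoc, ← Category.assoc (F.map (hS.i a) ▷ F.obj y),
    ← comp_whiskerRight, Q.i_chi hS]

private theorem E2a_idy {S : SFrob C} {th : Gl C n} (hS : IsSum K th S) (y : C) :
    ∑ a, hS.q a ▷ y ≫ hS.i a ▷ y = 𝟙 (S.A ⊗ y) := by
  have h1 : ∑ a, hS.q a ▷ y ≫ hS.i a ▷ y = (∑ a, hS.q a ≫ hS.i a) ▷ y := by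
    rw [sum_whiskerRight]
    exact Finset.sum_congr rfl fun a _ => (comp_whiskerRight _ _ _).symm
  rw [h1, hS.sum, id_whiskerRight]

theorem DeEq.act_univ (Q : DeEq K F n) {S : SFrob C} (hS : IsSum K Q.th S) {x y : C} (h : F.obj x ⟶ F.obj y) :
    ∃! k : x ⟶ S.A ⊗ y, F.map k ≫ Q.act hS y = h := by
  obtain ⟨f, hf, hu⟩ := Q.hom x y h
  have hf' : h = ∑ a, F.map (f a) ≫ Q.kap a y := hf
  refine ⟨∑ a, f a ≫ hS.i a ▷ y, ?_, ?_⟩
  · change F.map (∑ a, f a ≫ hS.i a ▷ y) ≫ Q.act hS y = h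
    rw [hf', E2a_sum Q, Preadditive.sum_comp]
    refine Finset.sum_congr rfl fun a _ => ?_
    rw [F.map_comp, Category.assoc, E2a_act Q hS]
  · intro k hk
    have h1 : (fun a => k ≫ hS.q a ▷ y) = f := by
      apply hu
      change h = ∑ a, F.map (k ≫ hS.q a ▷ y) ≫ Q.kap a y
      rw [← hk]
      have h2 : ∀ a ∈ (Finset.univ : Finset (ZMod n)), F.map (k ≫ hS.q a ▷ y) ≫ Q.kap a y =
          F.map (k ≫ hS.q a ▷ y ≫ hS.i a ▷ y) ≫ Q.act hS y := by
        intro a _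
        rw [← E2a_act Q hS, ← Category.assoc, ← F.map_comp, Category.assoc]
      rw [Finset.sum_congr rfl h2, ← Preadditive.sum_comp, ← E2a_sum Q, ← Preadditive.comp_sum,
        E2a_idy hS, Category.comp_id]
    rw [← h1]
    have h3 : ∑ a, (k ≫ hS.q a ▷ y) ≫ hS.i a ▷ y = k ≫ ∑ a, hS.q a ▷ y ≫ hS.i a ▷ y := by
      rw [Preadditive.comp_sum]
      exact Finset.sum_congr rfl fun a _ => Category.assoc _ _ _
    change k = ∑ a, (k ≫ hS.q a ▷ y) ≫ hS.i a ▷ y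
    rw [h3, E2a_idy hS, Category.comp_id]

theorem DeEq.exists_univ [IsIdempotentComplete C] (Q : DeEq K F n) {S : SFrob C} (hS : IsSum K Q.th S) (Z : D) :
    ∃ (r : C) (c : F.obj r ⟶ Z), ∀ (x : C) (h : F.obj x ⟶ Z), ∃! k : x ⟶ r, F.map k ≫ c = h := by
  obtain ⟨y, i, p, hip⟩ := Q.dom Z
  obtain ⟨k, hk, -⟩ := Q.act_univ hS (x := S.A ⊗ y) (Q.act hS y ≫ p ≫ i)
  have hk' : F.map k ≫ Q.act hS y = Q.act hS y ≫ p ≫ i := hk
  have hkk : k ≫ k = k := by
    refine (Q.act_univ hS (Q.act hS y ≫ p ≫ i)).unique ?_ hk'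
    change F.map (k ≫ k) ≫ Q.act hS y = _
    rw [F.map_comp, Category.assoc, hk', ← Category.assoc, hk', Category.assoc, Category.assoc,
      ← Category.assoc i, hip, Category.id_comp]
  obtain ⟨r, ι, π, h1, h2⟩ := IsIdempotentComplete.idempotents_split _ k hkk
  refine ⟨r, F.map ι ≫ Q.act hS y ≫ p, fun x h => ?_⟩
  obtain ⟨m, hm, hmu⟩ := Q.act_univ hS (h ≫ i)
  have hm' : F.map m ≫ Q.act hS y = h ≫ i := hm
  refine ⟨m ≫ π, ?_, ?_⟩
  · change F.map (m ≫ π) ≫ F.map ι ≫ Q.act hS y ≫ p = h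
    rw [← Category.assoc, ← F.map_comp, Category.assoc, h2, F.map_comp, Category.assoc,
      ← Category.assoc (F.map k), hk']
    rw [Category.assoc, Category.assoc, hip, Category.comp_id, ← Category.assoc, hm', Category.assoc,
      hip, Category.comp_id]
  · intro m' hm1
    change F.map m' ≫ F.map ι ≫ Q.act hS y ≫ p = h at hm1
    have h3 : m' ≫ ι = m := by
      apply hmu
      change F.map (m' ≫ ι) ≫ Q.act hS y = h ≫ i
      have h4 : ι = ι ≫ k := by rw [← h2, ← Category.assoc, h1, Category.id_comp]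
      rw [h4, ← Category.assoc, F.map_comp, Category.assoc, hk', F.map_comp, ← hm1]
      simp only [Category.assoc]
    rw [← h3, Category.assoc, h1, Category.comp_id]

theorem DeEq.exists_adj [IsIdempotentComplete C] (Q : DeEq K F n) {S : SFrob C} (hS : IsSum K Q.th S) :
    ∃ R : D ⥤ C, Nonempty (F ⊣ R) := by
  choose r c hc using fun Z : D => Q.exists_univ hS Z
  let e : ∀ (x : C) (Z : D), (F.obj x ⟶ Z) ≃ (x ⟶ r Z) := fun x Z =>
    { toFun := fun h => (hc Z x h).choose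
      invFun := fun k => F.map k ≫ c Z
      left_inv := fun h => (hc Z x h).choose_spec.1
      right_inv := fun k => ((hc Z x (F.map k ≫ c Z)).choose_spec.2 k rfl).symm }
  have he : ∀ (x' x : C) (Z : D) (f : x' ⟶ x) (g : F.obj x ⟶ Z), e x' Z (F.map f ≫ g) = f ≫ e x Z g := by
    intro x' x Z f g
    rw [← Equiv.eq_symm_apply]
    change F.map f ≫ g = F.map (f ≫ (hc Z x g).choose) ≫ c Z
    have h1 : F.map (hc Z x g).choose ≫ c Z = g := (hc Z x g).choose_spec.1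
    rw [F.map_comp, Category.assoc, h1]
  exact ⟨Adjunction.rightAdjointOfEquiv e he, ⟨Adjunction.adjunctionOfEquivRight e he⟩⟩

end Pool.Agent.SFC
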