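import Pool.Agent.SFC.ALin

/-!
# SFC/E2d: a lax monoidal functor gives bimodules over its value at the unit

`R : D ⥤ C` is lax monoidal, `φ : A ⟶ R 𝟙` is a map of algebras.  Each `R Z` is a bimodule over `A`: `l = (φ ▷ R Z) ≫ μ ≫ R (λ_ Z)`, `r = (R Z ◁ φ) ≫ μ ≫ R (ρ_ Z)`.
`ll`: `S.mul ▷ _ ≫ φ ▷ _ = ((φ ⊗ₘ φ) ≫ μ ≫ R.map (λ_ 𝟙).hom) ▷ _` (`φ.mul`), `μ_natural_left`, `associativity` of `R`, the triangle `(λ_ 𝟙).hom ▷ Z ≫ (λ_ Z).hom = (α_ _ _ _).hom ≫ 𝟙 ◁ (λ_ Z).hom ≫ (λ_ Z).hom`.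
`rr`, `lr` the same way.  `uu`: both sides are `𝟙` (`φ.one`, left and right unitality of `R`), which also gives `LB_p`.
`LBf`: `map f` has the underlying morphism `R.map f`; `hl`, `hr` by naturality of `μ`.
`LBmu`: `μ R Z W` as a morphism `R Z ⊗ R W ⟶ R (Z ⊗ W)`: it is left linear, right linear, balanced.
-/

set_option autoImplicit false

noncomputable section

open CategoryTheory MonoidalCategory

namespace Pool.Agent.SFC

universe v u v' u' w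

open Functor.LaxMonoidal

variable {C : Type u} [Category.{v} C] [MonoidalCategory C] {D : Type u'} [Category.{v'} D] [MonoidalCategory D]

/-- a map of algebras `A ⟶ R 𝟙` -/
structure AlgTo (S : SFrob C) (R : D ⥤ C) [R.LaxMonoidal] where
  f : S.A ⟶ R.obj (𝟙_ D)
  one : S.one ≫ f = ε R
  mul : S.mul ≫ f = (f ⊗ₘ f) ≫ μ R _ _ ≫ R.map (λ_ (𝟙_ D)).hom

variable {R : D ⥤ C} [R.LaxMonoidal] {S : SFrob C}

/-- left action on `R Z` -/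
def AlgTo.l (φ : AlgTo S R) (Z : D) : S.A ⊗ R.obj Z ⟶ R.obj Z := φ.f ▷ R.obj Z ≫ μ R _ _ ≫ R.map (λ_ Z).hom

/-- right action on `R Z` -/
def AlgTo.r (φ : AlgTo S R) (Z : D) : R.obj Z ⊗ S.A ⟶ R.obj Z := R.obj Z ◁ φ.f ≫ μ R _ _ ≫ R.map (ρ_ Z).hom

private theorem e2_map_l (φ : AlgTo S R) {Z W : D} (f : Z ⟶ W) : S.A ◁ R.map f ≫ φ.l W = φ.l Z ≫ R.map f := by
  unfold AlgTo.l
  rw [whisker_exchange_assoc, μ_natural_right_assoc, ← R.map_comp, leftUnitor_naturality, R.map_comp]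
  simp only [Category.assoc]

private theorem e2_map_r (φ : AlgTo S R) {Z W : D} (f : Z ⟶ W) : R.map f ▷ S.A ≫ φ.r W = φ.r Z ≫ R.map f := by
  unfold AlgTo.r
  rw [← whisker_exchange_assoc, μ_natural_left_assoc, ← R.map_comp, rightUnitor_naturality, R.map_comp]
  simp only [Category.assoc]

private theorem e2_mu_l (φ : AlgTo S R) (Z W : D) :
    φ.l Z ▷ R.obj W ≫ μ R Z W = (α_ _ _ _).hom ≫ S.A ◁ μ R Z W ≫ φ.l (Z ⊗ W) := by
  unfold AlgTo.l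
  rw [comp_whiskerRight, comp_whiskerRight, Category.assoc, Category.assoc, μ_natural_left, leftUnitor_whiskerRight,
    R.map_comp, associativity_assoc, whisker_exchange_assoc, associator_naturality_left_assoc]

private theorem e2_mu_r (φ : AlgTo S R) (Z W : D) :
    R.obj Z ◁ φ.r W ≫ μ R Z W = (α_ _ _ _).inv ≫ μ R Z W ▷ S.A ≫ φ.r (Z ⊗ W) := by
  unfold AlgTo.r
  rw [MonoidalCategory.whiskerLeft_comp, MonoidalCategory.whiskerLeft_comp, Category.assoc, Category.assoc,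
    μ_natural_right, whiskerLeft_rightUnitor, R.map_comp, associativity_inv_assoc, ← whisker_exchange_assoc,
    associator_inv_naturality_right_assoc]

private theorem e2_mu_b (φ : AlgTo S R) (Z W : D) :
    φ.r Z ▷ R.obj W ≫ μ R Z W = (α_ _ _ _).hom ≫ R.obj Z ◁ φ.l W ≫ μ R Z W := by
  unfold AlgTo.r AlgTo.l
  rw [comp_whiskerRight, comp_whiskerRight, Category.assoc, Category.assoc, μ_natural_left, ← triangle,
    R.map_comp, associativity_assoc, MonoidalCategory.whiskerLeft_comp, MonoidalCategory.whiskerLeft_comp,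
    Category.assoc, Category.assoc, μ_natural_right, associator_naturality_middle_assoc]

private theorem e2_mulL (φ : AlgTo S R) : S.mul ≫ φ.f = S.A ◁ φ.f ≫ φ.l (𝟙_ D) := by
  rw [φ.mul, MonoidalCategory.tensorHom_def', Category.assoc]
  rfl

private theorem e2_mulR (φ : AlgTo S R) : S.mul ≫ φ.f = φ.f ▷ S.A ≫ φ.r (𝟙_ D) := by
  rw [φ.mul, MonoidalCategory.tensorHom_def, Category.assoc, unitors_equal]
  rfl

theorem AlgTo.ll (φ : AlgTo S R) (Z : D) : S.mul ▷ R.obj Z ≫ φ.l Z = (α_ _ _ _).hom ≫ S.A ◁ φ.l Z ≫ φ.l Z := by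
  have h1 : S.mul ▷ R.obj Z ≫ φ.l Z = (S.mul ≫ φ.f) ▷ R.obj Z ≫ μ R _ _ ≫ R.map (λ_ Z).hom := by
    rw [comp_whiskerRight, Category.assoc]
    rfl
  have h2 : S.A ◁ φ.l Z = S.A ◁ (φ.f ▷ R.obj Z) ≫ S.A ◁ μ R _ _ ≫ S.A ◁ R.map (λ_ Z).hom := by
    rw [← MonoidalCategory.whiskerLeft_comp, ← MonoidalCategory.whiskerLeft_comp]
    rfl
  have h3 := e2_mu_l φ (𝟙_ D) Z
  rw [h1, e2_mulL, comp_whiskerRight, Category.assoc, reassoc_of% h3, ← e2_map_l, h2,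
    associator_naturality_middle_assoc]
  simp only [Category.assoc]

theorem AlgTo.rr (φ : AlgTo S R) (Z : D) : R.obj Z ◁ S.mul ≫ φ.r Z = (α_ _ _ _).inv ≫ φ.r Z ▷ S.A ≫ φ.r Z := by
  have h1 : R.obj Z ◁ S.mul ≫ φ.r Z = R.obj Z ◁ (S.mul ≫ φ.f) ≫ μ R _ _ ≫ R.map (ρ_ Z).hom := by
    rw [MonoidalCategory.whiskerLeft_comp, Category.assoc]
    rfl
  have h2 : φ.r Z ▷ S.A = (R.obj Z ◁ φ.f) ▷ S.A ≫ μ R _ _ ▷ S.A ≫ R.map (ρ_ Z).hom ▷ S.A := by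
    rw [← comp_whiskerRight, ← comp_whiskerRight]
    rfl
  have h3 := e2_mu_r φ Z (𝟙_ D)
  rw [h1, e2_mulR, MonoidalCategory.whiskerLeft_comp, Category.assoc, reassoc_of% h3, ← e2_map_r, h2,
    associator_inv_naturality_middle_assoc]
  simp only [Category.assoc]

theorem AlgTo.lr (φ : AlgTo S R) (Z : D) : φ.l Z ▷ S.A ≫ φ.r Z = (α_ _ _ _).hom ≫ S.A ◁ φ.r Z ≫ φ.l Z := by
  have h1 : φ.l Z ▷ S.A ≫ φ.r Z = (S.A ⊗ R.obj Z) ◁ φ.f ≫ φ.l Z ▷ R.obj (𝟙_ D) ≫ μ R _ _ ≫ R.map (ρ_ Z).hom := by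
    rw [whisker_exchange_assoc]
    rfl
  have h2 : S.A ◁ φ.r Z = S.A ◁ (R.obj Z ◁ φ.f) ≫ S.A ◁ μ R _ _ ≫ S.A ◁ R.map (ρ_ Z).hom := by
    rw [← MonoidalCategory.whiskerLeft_comp, ← MonoidalCategory.whiskerLeft_comp]
    rfl
  have h3 := e2_mu_l φ Z (𝟙_ D)
  rw [h1, reassoc_of% h3, ← e2_map_l, h2, associator_naturality_right_assoc]
  simp only [Category.assoc]

theorem AlgTo.ul (φ : AlgTo S R) (Z : D) : (λ_ (R.obj Z)).inv ≫ S.one ▷ R.obj Z ≫ φ.l Z = 𝟙 _ := by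
  unfold AlgTo.l
  rw [← comp_whiskerRight_assoc, φ.one, ← left_unitality, Iso.inv_hom_id]

theorem AlgTo.ur (φ : AlgTo S R) (Z : D) : (ρ_ (R.obj Z)).inv ≫ R.obj Z ◁ S.one ≫ φ.r Z = 𝟙 _ := by
  unfold AlgTo.r
  rw [← MonoidalCategory.whiskerLeft_comp_assoc, φ.one, ← right_unitality, Iso.inv_hom_id]

/-- `R Z` as a bimodule -/
def AlgTo.LB (φ : AlgTo S R) (Z : D) : Bim S where
  X := R.obj Z
  l := φ.l Z
  r := φ.r Z
  ll := φ.ll Z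
  rr := φ.rr Z
  lr := φ.lr Z
  uu := by rw [φ.ul, φ.ur]

theorem AlgTo.LB_p (φ : AlgTo S R) (Z : D) : (φ.LB Z).p = 𝟙 _ := φ.ul Z

theorem AlgTo.map_l (φ : AlgTo S R) {Z W : D} (f : Z ⟶ W) : S.A ◁ R.map f ≫ φ.l W = φ.l Z ≫ R.map f := by
  exact e2_map_l φ f

theorem AlgTo.map_r (φ : AlgTo S R) {Z W : D} (f : Z ⟶ W) : R.map f ▷ S.A ≫ φ.r W = φ.r Z ≫ R.map f := by
  exact e2_map_r φ f

/-- the functor `Z ↦ R Z` -/
def AlgTo.LBf (φ : AlgTo S R) : D ⥤ Bim S where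
  obj := φ.LB
  map {Z W} f := (⟨R.map f, φ.map_l f, φ.map_r f, by rw [φ.LB_p]; exact Category.comp_id _⟩ :
    Bim.Hom (φ.LB Z) (φ.LB W))
  map_id Z := Bim.hom_ext ((R.map_id Z).trans (φ.LB_p Z).symm)
  map_comp f g := Bim.hom_ext (R.map_comp f g)

@[simp] theorem AlgTo.LBf_map_f (φ : AlgTo S R) {Z W : D} (f : Z ⟶ W) : Bim.Hom.f (φ.LBf.map f) = R.map f := rfl

theorem AlgTo.mu_l (φ : AlgTo S R) (Z W : D) :
    φ.l Z ▷ R.obj W ≫ μ R Z W = (α_ _ _ _).hom ≫ S.A ◁ μ R Z W ≫ φ.l (Z ⊗ W) := by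
  exact e2_mu_l φ Z W

theorem AlgTo.mu_r (φ : AlgTo S R) (Z W : D) :
    R.obj Z ◁ φ.r W ≫ μ R Z W = (α_ _ _ _).inv ≫ μ R Z W ▷ S.A ≫ φ.r (Z ⊗ W) := by
  exact e2_mu_r φ Z W

theorem AlgTo.mu_b (φ : AlgTo S R) (Z W : D) :
    φ.r Z ▷ R.obj W ≫ μ R Z W = (α_ _ _ _).hom ≫ R.obj Z ◁ φ.l W ≫ μ R Z W := by
  exact e2_mu_b φ Z W

end Pool.Agent.SFC
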