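import Pool.Agent.SFC.E2a
import Pool.Agent.SFC.E2d

/-!
# SFC/E2c: the right adjoint of a de-equivariantization, as a functor to bimodules

`adj : F ⊣ R`, compatible with the monoidal structures (`adj.IsMonoidal`; `Adjunction.map_ε_comp_counit_app_unit`, `Adjunction.map_μ_comp_counit_app_tensor`).  Write `c Z := adj.counit.app Z : F (R Z) ⟶ Z`.
Principle: `k, k' : x ⟶ R Z` are equal if `F.map k ≫ c Z = F.map k' ≫ c Z` (`adj.homEquiv` is injective); `hext`.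
`exists_phi`: `φ := adj.homEquiv _ _ χ` (`F.map φ ≫ c 𝟙 = χ`).  `one`, `mul` by the principle from `one_chi`, `mul_chi`: `F.map (μ R _ _) ≫ c (Z ⊗ W) = δ F _ _ ≫ (c Z ⊗ₘ c W)`.
`φ` is an isomorphism: by `act_univ` for `y = 𝟙_ C` and `F 𝟙 ≅ 𝟙`, `A ⊗ 𝟙 ≅ A`, each `h : F x ⟶ 𝟙` is `F.map k ≫ χ` for a unique `k : x ⟶ A`; the inverse of `φ` is the `k` for `h = c 𝟙`.
`map_add_R`, `map_smul_R`: by the principle (`F.map_add`).
`c_epi`: `Z` is a retract of `F x` (`Q.dom`): `i ≫ p = 𝟙 Z`, `p = F.map k ≫ c Z`, so `c Z` has the section `i ≫ F.map k`.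
`faithfulR`: if `R f = R g` then `c Z ≫ f = F.map (R f) ≫ c W = c Z ≫ g`.
`theta`: `θ y : A ⊗ y ⟶ R (F y)`, `θ y := (A ◁ adj.unit.app y) ≫ l (F y)`: by `F.map (l Z) ≫ c Z = δ F _ _ ≫ (χ ⊗ₘ c Z) ≫ (λ_ Z).hom` one gets `F.map (θ y) ≫ c (F y) = act y`, so (`act_univ`) `θ y` is an isomorphism.
-/

set_option autoImplicit false
set_option linter.unusedSectionVars false

noncomputable section

open CategoryTheory MonoidalCategory
open scoped BigOperators

namespace Pool.Agent.SFC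

universe v u v' u' w

open Functor.LaxMonoidal Functor.OplaxMonoidal

variable {K : Type w} [Field K] {C : Type u} [Category.{v} C] [Preadditive C] [Linear K C] [MonoidalCategory C]
  [MonoidalPreadditive C] [MonoidalLinear K C]
  {D : Type u'} [Category.{v'} D] [Preadditive D] [Linear K D] [MonoidalCategory D] [MonoidalPreadditive D]
  [MonoidalLinear K D] {F : C ⥤ D} [F.Monoidal] {n : ℕ} [NeZero n] {R : D ⥤ C} [R.LaxMonoidal]

theorem hext (adj : F ⊣ R) {x : C} {Z : D} {k k' : x ⟶ R.obj Z}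
    (h : F.map k ≫ adj.counit.app Z = F.map k' ≫ adj.counit.app Z) : k = k' := by
  apply (adj.homEquiv x Z).symm.injective
  rw [adj.homEquiv_counit, adj.homEquiv_counit]
  exact h

private theorem E2c_hom (adj : F ⊣ R) {x : C} {Z : D} (h : F.obj x ⟶ Z) :
    F.map (adj.homEquiv x Z h) ≫ adj.counit.app Z = h := by
  have h1 := (adj.homEquiv x Z).symm_apply_apply h
  rwa [adj.homEquiv_counit] at h1

private theorem E2c_nat (adj : F ⊣ R) {Z W : D} (f : Z ⟶ W) :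
    F.map (R.map f) ≫ adj.counit.app W = adj.counit.app Z ≫ f :=
  adj.counit.naturality f

private theorem E2c_act (Q : DeEq K F n) {S : SFrob C} (hS : IsSum K Q.th S) :
    Q.act hS (𝟙_ C) = F.map (ρ_ S.A).hom ≫ Q.chi hS ≫ ε F := by
  rw [DeEq.act, Functor.Monoidal.map_rightUnitor]
  simp only [Category.assoc]
  rw [← rightUnitor_naturality_assoc, whisker_exchange_assoc, ← MonoidalCategory.unitors_equal,
    leftUnitor_naturality_assoc]
  simp

private theorem E2c_univ (Q : DeEq K F n) {S : SFrob C} (hS : IsSum K Q.th S) {x : C} (h : F.obj x ⟶ 𝟙_ D) :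
    ∃ k : x ⟶ S.A, F.map k ≫ Q.chi hS = h := by
  obtain ⟨k, hk, -⟩ := Q.act_univ hS (y := 𝟙_ C) (h ≫ ε F)
  have hk : F.map k ≫ Q.act hS (𝟙_ C) = h ≫ ε F := hk
  refine ⟨k ≫ (ρ_ S.A).hom, ?_⟩
  rw [E2c_act] at hk
  have h2 : (F.map (k ≫ (ρ_ S.A).hom) ≫ Q.chi hS) ≫ ε F = h ≫ ε F := by
    rw [F.map_comp]
    simpa only [Category.assoc] using hk
  exact (cancel_mono (ε F)).1 h2

private theorem E2c_cancel (Q : DeEq K F n) {S : SFrob C} (hS : IsSum K Q.th S) {x : C} {k k' : x ⟶ S.A}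
    (h : F.map k ≫ Q.chi hS = F.map k' ≫ Q.chi hS) : k = k' := by
  obtain ⟨k0, -, hu⟩ := Q.act_univ hS (y := 𝟙_ C) (F.map k ≫ Q.chi hS ≫ ε F)
  have key : ∀ q : x ⟶ S.A, F.map (q ≫ (ρ_ S.A).inv) ≫ Q.act hS (𝟙_ C) = F.map q ≫ Q.chi hS ≫ ε F := by
    intro q
    rw [E2c_act, ← F.map_comp_assoc, Category.assoc, Iso.inv_hom_id, Category.comp_id]
  have h1 := hu (k ≫ (ρ_ S.A).inv) (key k)
  have h2 := hu (k' ≫ (ρ_ S.A).inv) (by
    show F.map (k' ≫ (ρ_ S.A).inv) ≫ Q.act hS (𝟙_ C) = _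
    rw [key k', ← Category.assoc, ← h, Category.assoc])
  exact (cancel_mono (ρ_ S.A).inv).1 (h1.trans h2.symm)

theorem DeEq.exists_phi (Q : DeEq K F n) {S : SFrob C} (hS : IsSum K Q.th S) (adj : F ⊣ R) [adj.IsMonoidal] :
    ∃ φ : AlgTo S R, F.map φ.f ≫ adj.counit.app (𝟙_ D) = Q.chi hS ∧ IsIso φ.f := by
  have h0 := E2c_hom adj (Q.chi hS)
  set f := adj.homEquiv S.A (𝟙_ D) (Q.chi hS) with hf
  refine ⟨⟨f, ?_, ?_⟩, h0, ?_⟩
  · apply hext adj
    rw [F.map_comp, Category.assoc, h0, Q.one_chi hS, adj.map_ε_comp_counit_app_unit]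
  · apply hext adj
    rw [F.map_comp, Category.assoc, h0, Q.mul_chi hS, F.map_comp, F.map_comp]
    simp only [Category.assoc]
    rw [E2c_nat adj, adj.map_μ_comp_counit_app_tensor_assoc, ← δ_natural_assoc, tensorHom_comp_tensorHom_assoc, h0]
  · obtain ⟨j, hj⟩ := E2c_univ Q hS (adj.counit.app (𝟙_ D))
    refine ⟨j, ?_, ?_⟩
    · apply E2c_cancel Q hS
      rw [F.map_comp, Category.assoc, hj, F.map_id, Category.id_comp]
      exact h0
    · apply hext adj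
      rw [F.map_comp, Category.assoc, F.map_id, Category.id_comp]
      exact (congrArg (F.map j ≫ ·) h0).trans hj

theorem DeEq.map_add_R (Q : DeEq K F n) (adj : F ⊣ R) {Z W : D} (f g : Z ⟶ W) :
    R.map (f + g) = R.map f + R.map g := by
  apply hext adj
  rw [E2c_nat adj, Q.map_add, Preadditive.add_comp, E2c_nat adj, E2c_nat adj, Preadditive.comp_add]

theorem DeEq.map_smul_R (Q : DeEq K F n) (adj : F ⊣ R) {Z W : D} (c : K) (f : Z ⟶ W) :
    R.map (c • f) = c • R.map f := by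
  apply hext adj
  rw [E2c_nat adj, Q.map_smul, Linear.smul_comp, E2c_nat adj, Linear.comp_smul]

theorem DeEq.c_epi (Q : DeEq K F n) (adj : F ⊣ R) (Z : D) : ∃ s : Z ⟶ F.obj (R.obj Z), s ≫ adj.counit.app Z = 𝟙 Z := by
  obtain ⟨x, i, p, hip⟩ := Q.dom Z
  exact ⟨i ≫ F.map (adj.homEquiv x Z p), by rw [Category.assoc, E2c_hom adj, hip]⟩

theorem DeEq.faithfulR (Q : DeEq K F n) (adj : F ⊣ R) {Z W : D} {f g : Z ⟶ W} (h : R.map f = R.map g) : f = g := by
  obtain ⟨s, hs⟩ := Q.c_epi adj Z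
  rw [← Category.id_comp f, ← Category.id_comp g, ← hs, Category.assoc, Category.assoc, ← E2c_nat adj, ← E2c_nat adj, h]

/-- the action after `F` -/
theorem l_c {S : SFrob C} (φ : AlgTo S R) (adj : F ⊣ R) [adj.IsMonoidal] (Z : D) :
    F.map (φ.l Z) ≫ adj.counit.app Z =
      δ F _ _ ≫ ((F.map φ.f ≫ adj.counit.app (𝟙_ D)) ⊗ₘ adj.counit.app Z) ≫ (λ_ Z).hom := by
  rw [AlgTo.l, F.map_comp, F.map_comp]
  simp only [Category.assoc]
  rw [E2c_nat adj, adj.map_μ_comp_counit_app_tensor_assoc, ← δ_natural_left_assoc, whiskerRight_comp_tensorHom_assoc]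

theorem r_c {S : SFrob C} (φ : AlgTo S R) (adj : F ⊣ R) [adj.IsMonoidal] (Z : D) :
    F.map (φ.r Z) ≫ adj.counit.app Z =
      δ F _ _ ≫ (adj.counit.app Z ⊗ₘ (F.map φ.f ≫ adj.counit.app (𝟙_ D))) ≫ (ρ_ Z).hom := by
  rw [AlgTo.r, F.map_comp, F.map_comp]
  simp only [Category.assoc]
  rw [E2c_nat adj, adj.map_μ_comp_counit_app_tensor_assoc, ← δ_natural_right_assoc, whiskerLeft_comp_tensorHom_assoc]

/-- `A ⊗ y ⟶ R (F y)` -/
def thet {S : SFrob C} (φ : AlgTo S R) (adj : F ⊣ R) (y : C) : S.A ⊗ y ⟶ R.obj (F.obj y) :=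
  S.A ◁ adj.unit.app y ≫ φ.l (F.obj y)

theorem DeEq.thet_c (Q : DeEq K F n) {S : SFrob C} (hS : IsSum K Q.th S) (adj : F ⊣ R) [adj.IsMonoidal]
    (φ : AlgTo S R) (hφ : F.map φ.f ≫ adj.counit.app (𝟙_ D) = Q.chi hS) (y : C) :
    F.map (thet φ adj y) ≫ adj.counit.app (F.obj y) = Q.act hS y := by
  have e1 : F.map (S.A ◁ adj.unit.app y) ≫ δ F S.A (R.obj (F.obj y)) =
      δ F S.A y ≫ F.obj S.A ◁ F.map (adj.unit.app y) := (δ_natural_right F S.A (adj.unit.app y)).symm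
  have e2 : F.map (adj.unit.app y) ≫ adj.counit.app (F.obj y) = 𝟙 (F.obj y) := adj.left_triangle_components y
  have e3 : F.obj S.A ◁ F.map (adj.unit.app y) ≫ (Q.chi hS ⊗ₘ adj.counit.app (F.obj y)) =
      Q.chi hS ▷ F.obj y := by
    refine (whiskerLeft_comp_tensorHom _ _ _).trans ?_
    refine (congrArg (fun g => Q.chi hS ⊗ₘ g) e2).trans ?_
    exact tensorHom_id _ _
  rw [thet, F.map_comp, Category.assoc, l_c φ adj, hφ, reassoc_of% e1]
  exact congrArg (fun g => δ F S.A y ≫ g) ((Category.assoc _ _ _).symm.trans (congrArg (· ≫ (λ_ (F.obj y)).hom) e3))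

theorem DeEq.thet_iso (Q : DeEq K F n) {S : SFrob C} (hS : IsSum K Q.th S) (adj : F ⊣ R) [adj.IsMonoidal]
    (φ : AlgTo S R) (hφ : F.map φ.f ≫ adj.counit.app (𝟙_ D) = Q.chi hS) (y : C) : IsIso (thet φ adj y) := by
  have h0 := Q.thet_c hS adj φ hφ y
  obtain ⟨k, hk, -⟩ := Q.act_univ hS (y := y) (adj.counit.app (F.obj y))
  have hk : F.map k ≫ Q.act hS y = adj.counit.app (F.obj y) := hk
  refine ⟨k, ?_, ?_⟩
  · obtain ⟨k0, -, hu⟩ := Q.act_univ hS (y := y) (Q.act hS y)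
    have h1 := hu (thet φ adj y ≫ k) (by
      show F.map (thet φ adj y ≫ k) ≫ Q.act hS y = _
      rw [F.map_comp, Category.assoc, hk, h0])
    have h2 := hu (𝟙 _) (by
      show F.map (𝟙 _) ≫ Q.act hS y = _
      rw [F.map_id, Category.id_comp])
    exact h1.trans h2.symm
  · apply hext adj
    rw [F.map_comp, Category.assoc, h0, hk, F.map_id, Category.id_comp]

end Pool.Agent.SFC
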