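import Pool.Agent.SFC.E2c

/-!
# SFC/E2e: the functor `Z ↦ R Z` to bimodules is fully faithful

`full`: let `h : R Z ⟶ R W` be a map of bimodules.  First `Z = F x`: let `f := F.map (adj.unit.app x ≫ h) ≫ c W : F x ⟶ W`.  `R.map f` and `h` are both left linear and agree after `adj.unit.app x` (`hext`), so they agree after
`θ x = (A ◁ adj.unit.app x) ≫ l (F x)`, which is an isomorphism (`thet_iso`).  General `Z`: `i ≫ p = 𝟙 Z` with `p : F x ⟶ Z` (`Q.dom`); `R p ≫ h = R f'`, so `h = R i ≫ R p ≫ h = R (i ≫ f')`.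
`nu_iso`: `ν := (R Z ◁ adj.unit.app y) ≫ μ R Z (F y) : R Z ⊗ y ⟶ R (Z ⊗ F y)` is an isomorphism for all `Z`, `y`.  For `Z = F x`: `θ x ▷ y ≫ ν = (α_ _ _ _).hom ≫ θ (x ⊗ y) ≫ R.map (δ F x y)` (by `hext`: both sides become
`δ ≫ (act x ▷ F y)`).  For a retract `Z` of `F x` the map is a retract of the one for `F x` (naturality in `Z`): inverse `R.map (i ▷ F y) ≫ ν⁻¹ ≫ (R.map p ▷ y)`.
-/

set_option autoImplicit false

noncomputable section

open CategoryTheory MonoidalCategory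
open scoped BigOperators

namespace Pool.Agent.SFC

universe v u v' u' w

open Functor.LaxMonoidal Functor.OplaxMonoidal

variable {K : Type w} [Field K] {C : Type u} [Category.{v} C] [Preadditive C] [Linear K C] [MonoidalCategory C]
  [MonoidalPreadditive C] [MonoidalLinear K C]
  {D : Type u'} [Category.{v'} D] [Preadditive D] [Linear K D] [MonoidalCategory D] [MonoidalPreadditive D]
  [MonoidalLinear K D] {F : C ⥤ D} [F.Monoidal] {n : ℕ} [NeZero n] {R : D ⥤ C} [R.LaxMonoidal]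

private theorem E2e_unit_f (adj : F ⊣ R) {x : C} {W : D} (k : x ⟶ R.obj W) :
    adj.unit.app x ≫ R.map (F.map k ≫ adj.counit.app W) = k := by
  have h := (adj.homEquiv x W).apply_symm_apply k
  rw [Adjunction.homEquiv_counit, Adjunction.homEquiv_unit] at h
  exact h

private theorem E2e_full_F (Q : DeEq K F n) {S : SFrob C} (hS : IsSum K Q.th S) (adj : F ⊣ R) [adj.IsMonoidal]
    (φ : AlgTo S R) (hφ : F.map φ.f ≫ adj.counit.app (𝟙_ D) = Q.chi hS) {x : C} {W : D}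
    (h : R.obj (F.obj x) ⟶ R.obj W) (hh : S.A ◁ h ≫ φ.l W = φ.l (F.obj x) ≫ h) :
    ∃ f : F.obj x ⟶ W, R.map f = h := by
  have hθ := Q.thet_iso hS adj φ hφ x
  refine ⟨F.map (adj.unit.app x ≫ h) ≫ adj.counit.app W, ?_⟩
  rw [← cancel_epi (thet φ adj x)]
  unfold thet
  rw [Category.assoc, Category.assoc, ← φ.map_l, ← hh, ← whiskerLeft_comp_assoc, ← whiskerLeft_comp_assoc]
  exact congrArg (fun z => S.A ◁ z ≫ φ.l W) (E2e_unit_f adj (adj.unit.app x ≫ h))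

theorem DeEq.full (Q : DeEq K F n) {S : SFrob C} (hS : IsSum K Q.th S) (adj : F ⊣ R) [adj.IsMonoidal]
    (φ : AlgTo S R) (hφ : F.map φ.f ≫ adj.counit.app (𝟙_ D) = Q.chi hS) {Z W : D} (h : R.obj Z ⟶ R.obj W)
    (hh : S.A ◁ h ≫ φ.l W = φ.l Z ≫ h) : ∃ f : Z ⟶ W, R.map f = h := by
  obtain ⟨x, i, p, hip⟩ := Q.dom Z
  obtain ⟨f', hf'⟩ := E2e_full_F Q hS adj φ hφ (R.map p ≫ h) (by
    rw [whiskerLeft_comp, Category.assoc, hh, ← Category.assoc, φ.map_l, Category.assoc])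
  refine ⟨i ≫ f', ?_⟩
  rw [R.map_comp, hf', ← R.map_comp_assoc, hip, R.map_id, Category.id_comp]

/-- `R Z ⊗ y ⟶ R (Z ⊗ F y)` -/
def nu (adj : F ⊣ R) (Z : D) (y : C) : R.obj Z ⊗ y ⟶ R.obj (Z ⊗ F.obj y) :=
  R.obj Z ◁ adj.unit.app y ≫ μ R Z (F.obj y)

private theorem E2e_nu_nat (adj : F ⊣ R) {Z W : D} (g : Z ⟶ W) (y : C) :
    R.map g ▷ y ≫ nu adj W y = nu adj Z y ≫ R.map (g ▷ F.obj y) := by
  unfold nu
  rw [← whisker_exchange_assoc, Category.assoc]
  exact congrArg (fun z => R.obj Z ◁ adj.unit.app y ≫ z) (μ_natural_left R g (F.obj y))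

private theorem E2e_act (Q : DeEq K F n) {S : SFrob C} (hS : IsSum K Q.th S) (x y : C) :
    δ F (S.A ⊗ x) y ≫ Q.act hS x ▷ F.obj y =
      F.map (α_ S.A x y).hom ≫ Q.act hS (x ⊗ y) ≫ δ F x y := by
  unfold DeEq.act
  simp only [Category.assoc, comp_whiskerRight]
  rw [← leftUnitor_naturality, ← whisker_exchange_assoc, ← Functor.OplaxMonoidal.associativity_assoc,
    ← associator_naturality_left_assoc, leftUnitor_tensor_hom]
  simp

private theorem E2e_nu_c' (adj : F ⊣ R) [adj.IsMonoidal] (Z Y : D) (y : C) (u : y ⟶ R.obj Y) :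
    F.map (R.obj Z ◁ u ≫ μ R Z Y) ≫ adj.counit.app (Z ⊗ Y) =
      δ F _ _ ≫ (adj.counit.app Z ⊗ₘ (F.map u ≫ adj.counit.app Y)) := by
  have e : F.map (μ R Z Y) ≫ adj.counit.app (Z ⊗ Y) =
      δ F _ _ ≫ (adj.counit.app Z ⊗ₘ adj.counit.app Y) := adj.map_μ_comp_counit_app_tensor Z Y
  rw [F.map_comp, Category.assoc, e, ← δ_natural_right_assoc]
  congr 1
  rw [MonoidalCategory.tensorHom_def', MonoidalCategory.tensorHom_def', whiskerLeft_comp, Category.assoc]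

private theorem E2e_nu_c (adj : F ⊣ R) [adj.IsMonoidal] (Z : D) (y : C) :
    F.map (nu adj Z y) ≫ adj.counit.app (Z ⊗ F.obj y) = δ F _ _ ≫ adj.counit.app Z ▷ F.obj y := by
  have e : F.map (adj.unit.app y) ≫ adj.counit.app (F.obj y) = 𝟙 (F.obj y) :=
    adj.left_triangle_components y
  have h := E2e_nu_c' adj Z (F.obj y) y (adj.unit.app y)
  refine h.trans ?_
  refine congrArg (fun z => δ F _ _ ≫ z) ?_
  refine (congrArg (fun z => adj.counit.app Z ⊗ₘ z) e).trans ?_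
  exact tensorHom_id _ _

private theorem E2e_nu_F (Q : DeEq K F n) {S : SFrob C} (hS : IsSum K Q.th S) (adj : F ⊣ R) [adj.IsMonoidal]
    (φ : AlgTo S R) (hφ : F.map φ.f ≫ adj.counit.app (𝟙_ D) = Q.chi hS) (x y : C) :
    thet φ adj x ▷ y ≫ nu adj (F.obj x) y =
      (α_ S.A x y).hom ≫ thet φ adj (x ⊗ y) ≫ R.map (δ F x y) := by
  apply hext adj
  have e1 : F.map (R.map (δ F x y)) ≫ adj.counit.app (F.obj x ⊗ F.obj y) =
      adj.counit.app (F.obj (x ⊗ y)) ≫ δ F x y := adj.counit_naturality _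
  have e2 : F.map (thet φ adj (x ⊗ y)) ≫ adj.counit.app (F.obj (x ⊗ y)) = Q.act hS (x ⊗ y) :=
    Q.thet_c hS adj φ hφ (x ⊗ y)
  have e3 : F.map (thet φ adj x) ≫ adj.counit.app (F.obj x) = Q.act hS x := Q.thet_c hS adj φ hφ x
  have e4 : F.map (nu adj (F.obj x) y) ≫ adj.counit.app (F.obj x ⊗ F.obj y) =
      δ F _ _ ≫ adj.counit.app (F.obj x) ▷ F.obj y := E2e_nu_c adj (F.obj x) y
  simp only [F.map_comp, Category.assoc]
  rw [e4, e1, reassoc_of% e2, ← E2e_act, ← e3, ← δ_natural_left_assoc]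
  refine congrArg (fun z => δ F _ _ ≫ z) ?_
  exact (comp_whiskerRight _ _ _).symm

private theorem E2e_iso_F (Q : DeEq K F n) {S : SFrob C} (hS : IsSum K Q.th S) (adj : F ⊣ R) [adj.IsMonoidal]
    (φ : AlgTo S R) (hφ : F.map φ.f ≫ adj.counit.app (𝟙_ D) = Q.chi hS) (x y : C) :
    IsIso (nu adj (F.obj x) y) := by
  have h1 := Q.thet_iso hS adj φ hφ x
  have h2 := Q.thet_iso hS adj φ hφ (x ⊗ y)
  have h3 : IsIso (thet φ adj x ▷ y ≫ nu adj (F.obj x) y) := by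
    rw [E2e_nu_F Q hS adj φ hφ x y]
    infer_instance
  exact IsIso.of_isIso_comp_left (thet φ adj x ▷ y) _

theorem DeEq.nu_iso (Q : DeEq K F n) {S : SFrob C} (hS : IsSum K Q.th S) (adj : F ⊣ R) [adj.IsMonoidal]
    (φ : AlgTo S R) (hφ : F.map φ.f ≫ adj.counit.app (𝟙_ D) = Q.chi hS) (Z : D) (y : C) : IsIso (nu adj Z y) := by
  obtain ⟨x, i, p, hip⟩ := Q.dom Z
  have hx := E2e_iso_F Q hS adj φ hφ x y
  refine ⟨R.map (i ▷ F.obj y) ≫ inv (nu adj (F.obj x) y) ≫ R.map p ▷ y, ?_, ?_⟩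
  · rw [← Category.assoc, ← E2e_nu_nat, Category.assoc, IsIso.hom_inv_id_assoc, ← comp_whiskerRight,
      ← R.map_comp, hip, R.map_id, id_whiskerRight]
  · rw [Category.assoc, Category.assoc, E2e_nu_nat, IsIso.inv_hom_id_assoc, ← R.map_comp,
      ← comp_whiskerRight, hip, id_whiskerRight, R.map_id]

end Pool.Agent.SFC
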