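import Pool.Agent.SFC.ATen
import Pool.Agent.SFC.E2e

/-!
# SFC/E2f: `R Z ⊗_A R W ≅ R (Z ⊗ W)`
-/

set_option autoImplicit false

noncomputable section

open CategoryTheory MonoidalCategory
open scoped BigOperators

namespace Pool.Agent.SFC

universe v u v' u' w

open Functor.LaxMonoidal Functor.OplaxMonoidal

section

variable {C : Type u} [Category.{v} C] [MonoidalCategory C] {D : Type u'} [Category.{v'} D] [MonoidalCategory D]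
  {R : D ⥤ C} [R.LaxMonoidal] {S : SFrob C}

private theorem E2f_e (M N : Bim S) {Y : C} (m : M.X ⊗ N.X ⟶ Y)
    (h : M.r ▷ N.X ≫ m = (α_ _ _ _).hom ≫ M.X ◁ N.l ≫ m) (hp : N.p = 𝟙 _) : Bim.e M N ≫ m = m := by
  rw [Bim.e, Category.assoc, Category.assoc, h, Iso.inv_hom_id_assoc, ← MonoidalCategory.whiskerLeft_comp_assoc,
    Bim.sL_l, hp, MonoidalCategory.whiskerLeft_id, Category.id_comp]

private theorem E2f_hl (M N P : Bim S) (m : M.X ⊗ N.X ⟶ P.X) (he : Bim.e M N ≫ m = m)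
    (h : M.l ▷ N.X ≫ m = (α_ _ _ _).hom ≫ S.A ◁ m ≫ P.l) : S.A ◁ m ≫ P.l = (Bim.ten M N).l ≫ m := by
  show S.A ◁ m ≫ P.l = (Bim.lt M N ≫ Bim.e M N) ≫ m
  rw [Category.assoc, he, Bim.lt, Category.assoc, h, Iso.inv_hom_id_assoc]

private theorem E2f_hr (M N P : Bim S) (m : M.X ⊗ N.X ⟶ P.X) (he : Bim.e M N ≫ m = m)
    (h : M.X ◁ N.r ≫ m = (α_ _ _ _).inv ≫ m ▷ S.A ≫ P.r) : m ▷ S.A ≫ P.r = (Bim.ten M N).r ≫ m := by
  show m ▷ S.A ≫ P.r = (Bim.rt M N ≫ Bim.e M N) ≫ m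
  rw [Category.assoc, he, Bim.rt, Category.assoc, h, Iso.hom_inv_id_assoc]

private theorem E2f_key (M N : Bim S) {y T : C} (u : y ⟶ N.X) (t : M.X ⊗ N.X ⟶ T)
    (ht : M.r ▷ N.X ≫ t = (α_ _ _ _).hom ≫ M.X ◁ N.l ≫ t) :
    M.X ◁ (S.A ◁ u ≫ N.l) ≫ t = (α_ _ _ _).inv ≫ M.r ▷ y ≫ M.X ◁ u ≫ t := by
  rw [← whisker_exchange_assoc, ht, ← associator_inv_naturality_right_assoc, Iso.inv_hom_id_assoc,
    MonoidalCategory.whiskerLeft_comp, Category.assoc]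

private theorem E2f_inv (M N : Bim S) {y P : C} (u : y ⟶ N.X) (m : M.X ⊗ N.X ⟶ P)
    (hb : M.r ▷ N.X ≫ m = (α_ _ _ _).hom ≫ M.X ◁ N.l ≫ m) (he : Bim.e M N ≫ m = m)
    (h1 : IsIso (M.X ◁ u ≫ m)) (h2 : IsIso (S.A ◁ u ≫ N.l)) :
    ∃ g : P ⟶ M.X ⊗ N.X, g ≫ m = 𝟙 _ ∧ m ≫ g = Bim.e M N := by
  refine ⟨inv (M.X ◁ u ≫ m) ≫ M.X ◁ u ≫ Bim.e M N, ?_, ?_⟩
  · rw [Category.assoc, Category.assoc, he, IsIso.inv_hom_id]
  · rw [← cancel_epi (M.X ◁ (S.A ◁ u ≫ N.l)), E2f_key M N u (Bim.e M N) (Bim.bal M N),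
      E2f_key M N u (m ≫ inv (M.X ◁ u ≫ m) ≫ M.X ◁ u ≫ Bim.e M N) (by rw [← Category.assoc, hb]; simp only [Category.assoc])]
    have h3 : M.X ◁ u ≫ m ≫ inv (M.X ◁ u ≫ m) ≫ M.X ◁ u ≫ Bim.e M N = M.X ◁ u ≫ Bim.e M N := by
      rw [← Category.assoc, IsIso.hom_inv_id_assoc]
    rw [h3]

private theorem E2f_iso (M N P : Bim S) (m : Bim.ten M N ⟶ P) (f : M.X ⊗ N.X ⟶ P.X) (hm : Bim.Hom.f m = f)
    (g : P.X ⟶ M.X ⊗ N.X)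
    (h1 : g ≫ f = 𝟙 _) (h2 : f ≫ g = Bim.e M N) (hp : P.p = 𝟙 _) : IsIso m := by
  have hl : S.A ◁ f ≫ P.l = (Bim.lt M N ≫ Bim.e M N) ≫ f := by
    subst hm
    exact m.hl
  have hr : f ▷ S.A ≫ P.r = (Bim.rt M N ≫ Bim.e M N) ≫ f := by
    subst hm
    exact m.hr
  have hge : g ≫ Bim.e M N = g := by rw [← h2, ← Category.assoc, h1, Category.id_comp]
  have a1 : S.A ◁ g ≫ Bim.lt M N ≫ Bim.e M N = P.l ≫ g := by
    have h3 : (Bim.lt M N ≫ Bim.e M N) ≫ f ≫ g = Bim.lt M N ≫ Bim.e M N := by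
      rw [h2, Category.assoc, Bim.e_e]
    rw [← h3, ← Category.assoc (Bim.lt M N ≫ Bim.e M N), ← hl, Category.assoc,
      ← MonoidalCategory.whiskerLeft_comp_assoc, h1, MonoidalCategory.whiskerLeft_id, Category.id_comp]
  have a2 : g ▷ S.A ≫ Bim.rt M N ≫ Bim.e M N = P.r ≫ g := by
    have h3 : (Bim.rt M N ≫ Bim.e M N) ≫ f ≫ g = Bim.rt M N ≫ Bim.e M N := by
      rw [h2, Category.assoc, Bim.e_e]
    rw [← h3, ← Category.assoc (Bim.rt M N ≫ Bim.e M N), ← hr, Category.assoc,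
      ← comp_whiskerRight_assoc, h1, id_whiskerRight, Category.id_comp]
  let k : P ⟶ Bim.ten M N := Bim.Hom.mk (M := P) (N := Bim.ten M N) g a1 a2 (by rw [Bim.ten_p]; exact hge)
  refine ⟨k, Bim.hom_ext ?_, Bim.hom_ext ?_⟩
  · have h4 : Bim.Hom.f m ≫ g = (Bim.ten M N).p := by
      rw [Bim.ten_p, hm]
      exact h2
    exact h4
  · have h4 : g ≫ Bim.Hom.f m = P.p := by
      rw [hp, hm]
      exact h1
    exact h4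

private theorem E2f_mulL (φ : AlgTo S R) : S.A ◁ φ.f ≫ φ.l (𝟙_ D) = S.mul ≫ φ.f := by
  rw [φ.mul, MonoidalCategory.tensorHom_def', Category.assoc]
  rfl

private theorem E2f_mulR (φ : AlgTo S R) : φ.f ▷ S.A ≫ φ.r (𝟙_ D) = S.mul ≫ φ.f := by
  rw [φ.mul, MonoidalCategory.tensorHom_def, Category.assoc, unitors_equal]
  rfl

theorem AlgTo.e_mu (φ : AlgTo S R) (Z W : D) : Bim.e (φ.LB Z) (φ.LB W) ≫ μ R Z W = μ R Z W := by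
  exact E2f_e (φ.LB Z) (φ.LB W) (μ R Z W) (φ.mu_b Z W) (φ.LB_p W)

/-- `R Z ⊗_A R W ⟶ R (Z ⊗ W)` -/
def AlgTo.mu (φ : AlgTo S R) (Z W : D) : Bim.ten (φ.LB Z) (φ.LB W) ⟶ φ.LB (Z ⊗ W) :=
  Bim.Hom.mk (M := Bim.ten (φ.LB Z) (φ.LB W)) (N := φ.LB (Z ⊗ W)) (μ R Z W)
    (E2f_hl (φ.LB Z) (φ.LB W) (φ.LB (Z ⊗ W)) (μ R Z W) (φ.e_mu Z W) (φ.mu_l Z W))
    (E2f_hr (φ.LB Z) (φ.LB W) (φ.LB (Z ⊗ W)) (μ R Z W) (φ.e_mu Z W) (φ.mu_r Z W))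
    (by rw [φ.LB_p]; exact Category.comp_id _)

@[simp] theorem AlgTo.mu_f (φ : AlgTo S R) (Z W : D) : Bim.Hom.f (φ.mu Z W) = μ R Z W := rfl

/-- `A ⟶ R 𝟙` -/
def AlgTo.ep (φ : AlgTo S R) : Bim.unt S ⟶ φ.LB (𝟙_ D) :=
  Bim.Hom.mk (M := Bim.unt S) (N := φ.LB (𝟙_ D)) φ.f (E2f_mulL φ) (E2f_mulR φ)
    (by rw [φ.LB_p]; exact Category.comp_id _)

@[simp] theorem AlgTo.ep_f (φ : AlgTo S R) : Bim.Hom.f φ.ep = φ.f := rfl

theorem AlgTo.ep_iso (φ : AlgTo S R) (h : IsIso φ.f) : IsIso φ.ep := by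
  have a1 : S.A ◁ inv φ.f ≫ S.mul = φ.l (𝟙_ D) ≫ inv φ.f := by
    rw [← cancel_mono φ.f, Category.assoc, Category.assoc, IsIso.inv_hom_id, Category.comp_id, ← E2f_mulL,
      ← MonoidalCategory.whiskerLeft_comp_assoc, IsIso.inv_hom_id, MonoidalCategory.whiskerLeft_id, Category.id_comp]
  have a2 : inv φ.f ▷ S.A ≫ S.mul = φ.r (𝟙_ D) ≫ inv φ.f := by
    rw [← cancel_mono φ.f, Category.assoc, Category.assoc, IsIso.inv_hom_id, Category.comp_id, ← E2f_mulR,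
      ← comp_whiskerRight_assoc, IsIso.inv_hom_id, id_whiskerRight, Category.id_comp]
  have a3 : inv φ.f ≫ 𝟙 S.A = inv φ.f := Category.comp_id _
  have a4 := IsIso.hom_inv_id φ.f
  have a5 := IsIso.inv_hom_id φ.f
  generalize inv φ.f = j at a1 a2 a3 a4 a5
  let k : φ.LB (𝟙_ D) ⟶ Bim.unt S := Bim.Hom.mk (M := φ.LB (𝟙_ D)) (N := Bim.unt S) j a1 a2
    (by rw [Bim.unt_p]; exact a3)
  refine ⟨k, Bim.hom_ext ?_, Bim.hom_ext ?_⟩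
  · exact a4.trans (Bim.unt_p S).symm
  · exact a5.trans (φ.LB_p (𝟙_ D)).symm

end

variable {K : Type w} [Field K] {C : Type u} [Category.{v} C] [Preadditive C] [Linear K C] [MonoidalCategory C]
  [MonoidalPreadditive C] [MonoidalLinear K C]
  {D : Type u'} [Category.{v'} D] [Preadditive D] [Linear K D] [MonoidalCategory D] [MonoidalPreadditive D]
  [MonoidalLinear K D] {F : C ⥤ D} [F.Monoidal] {n : ℕ} [NeZero n] {R : D ⥤ C} [R.LaxMonoidal]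

theorem DeEq.exists_mu_inv (Q : DeEq K F n) {S : SFrob C} (hS : IsSum K Q.th S) (adj : F ⊣ R) [adj.IsMonoidal]
    (φ : AlgTo S R) (hφ : F.map φ.f ≫ adj.counit.app (𝟙_ D) = Q.chi hS) (Z W : D) :
    ∃ g : R.obj (Z ⊗ W) ⟶ R.obj Z ⊗ R.obj W, g ≫ μ R Z W = 𝟙 _ ∧ μ R Z W ≫ g = Bim.e (φ.LB Z) (φ.LB W) := by
  obtain ⟨y, i, p, hip⟩ := Q.dom W
  obtain ⟨g, h1, h2⟩ := E2f_inv (φ.LB Z) (φ.LB (F.obj y)) (adj.unit.app y) (μ R Z (F.obj y)) (φ.mu_b Z (F.obj y))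
    (φ.e_mu Z (F.obj y)) (Q.nu_iso hS adj φ hφ Z y) (Q.thet_iso hS adj φ hφ y)
  have h3 : R.obj Z ◁ R.map i ≫ Bim.e (φ.LB Z) (φ.LB (F.obj y)) = Bim.e (φ.LB Z) (φ.LB W) ≫ R.obj Z ◁ R.map i :=
    Bim.e_f (φ.LB Z) (φ.LBf.map i)
  have h4 : R.obj Z ◁ R.map i ≫ R.obj Z ◁ R.map p = 𝟙 (R.obj Z ⊗ R.obj W) := by
    rw [← MonoidalCategory.whiskerLeft_comp, ← R.map_comp, hip, R.map_id, MonoidalCategory.whiskerLeft_id]
  have h5 : R.map (Z ◁ i) ≫ R.map (Z ◁ p) = 𝟙 (R.obj (Z ⊗ W)) := by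
    rw [← R.map_comp, ← MonoidalCategory.whiskerLeft_comp, hip, MonoidalCategory.whiskerLeft_id, R.map_id]
  have e1 : R.obj Z ◁ R.map p ≫ μ R Z W = μ R Z (F.obj y) ≫ R.map (Z ◁ p) := μ_natural_right R Z p
  have e2 : R.obj Z ◁ R.map i ≫ μ R Z (F.obj y) = μ R Z W ≫ R.map (Z ◁ i) := μ_natural_right R Z i
  refine ⟨R.map (Z ◁ i) ≫ g ≫ R.obj Z ◁ R.map p, ?_, ?_⟩
  · have k1 : g ≫ μ R Z (F.obj y) ≫ R.map (Z ◁ p) = R.map (Z ◁ p) :=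
      (Category.assoc _ _ _).symm.trans ((congrArg (· ≫ R.map (Z ◁ p)) h1).trans (Category.id_comp _))
    have k2 : g ≫ R.obj Z ◁ R.map p ≫ μ R Z W = R.map (Z ◁ p) := (congrArg (g ≫ ·) e1).trans k1
    rw [Category.assoc]
    refine Eq.trans ?_ h5
    refine congrArg (R.map (Z ◁ i) ≫ ·) ?_
    exact (Category.assoc _ _ _).trans k2
  · have k1 : μ R Z W ≫ R.map (Z ◁ i) ≫ g = Bim.e (φ.LB Z) (φ.LB W) ≫ R.obj Z ◁ R.map i :=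
      ((Category.assoc _ _ _).symm.trans (congrArg (· ≫ g) e2.symm)).trans
        ((Category.assoc _ _ _).trans ((congrArg (R.obj Z ◁ R.map i ≫ ·) h2).trans h3))
    have k2 : (μ R Z W ≫ R.map (Z ◁ i) ≫ g) ≫ R.obj Z ◁ R.map p = Bim.e (φ.LB Z) (φ.LB W) :=
      (congrArg (· ≫ R.obj Z ◁ R.map p) k1).trans
        ((Category.assoc _ _ _).trans ((congrArg (Bim.e (φ.LB Z) (φ.LB W) ≫ ·) h4).trans (Category.comp_id _)))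
    refine Eq.trans ?_ k2
    exact ((Category.assoc _ _ _).trans (congrArg (μ R Z W ≫ ·) (Category.assoc _ _ _))).symm

theorem DeEq.mu_iso (Q : DeEq K F n) {S : SFrob C} (hS : IsSum K Q.th S) (adj : F ⊣ R) [adj.IsMonoidal]
    (φ : AlgTo S R) (hφ : F.map φ.f ≫ adj.counit.app (𝟙_ D) = Q.chi hS) (Z W : D) : IsIso (φ.mu Z W) := by
  obtain ⟨g, h1, h2⟩ := Q.exists_mu_inv hS adj φ hφ Z W
  exact E2f_iso (φ.LB Z) (φ.LB W) (φ.LB (Z ⊗ W)) (φ.mu Z W) (μ R Z W) rfl g h1 h2 (φ.LB_p (Z ⊗ W))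

end Pool.Agent.SFC
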