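import Pool.Agent.SFC.E2a
import Pool.Agent.SFC.ALin

/-!
# SFC/E2g: the automorphisms `ρ a` of a bimodule

Bimodules over `S.A = ⨁ T a`, described by operators in `D`.  `lop M a, rop M a : F M.X ⟶ F M.X`: the action of `T a` from the left and from the right, with `F (T a) ≅ 𝟙` (`t a`).
`lop_mem`: `(t a).inv : 𝟙 ⟶ F (T a)` gives a morphism of weight `-a`: `lop M a = F.map (λ_ _).inv ≫ (δ ≫ ((ε⁻¹ ≫ (t a).inv) ⊗ₘ 𝟙) ≫ μ) ≫ F.map (i a ▷ _ ≫ l)`; `Q.wts.ten`, `Q.wts.inv`, `Q.wts.map`, `Q.wts.comp`.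
`lop_lop`: from `M.ll` on the components `T b ⊗ T a` (`hS.mul`, `Q.t_mul`; `a + b = b + a`).  `rop_rop`: `M.rr`.  `lop_rop`: `M.lr` and the exchange law.
`lop_zero`: `hS.one`, `Q.t_one`.  `hom_lop`, `hom_rop`: naturality, `f.hl`, `f.hr`.
`of_lop`: conversely, if `F.map f` commutes with all `lop`, `rop`, then `F.map (i a ▷ _ ≫ M.l ≫ f) = F.map (i a ▷ _ ≫ A ◁ f ≫ N.l)` (`t a` is an isomorphism, so `lop M a` determines `F.map (i a ▷ _ ≫ M.l)`); `Q.faithful`, and `∑ a, (q a ≫ i a) ▷ _ = 𝟙`.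
`rho`: `lop M (-a) ≫ rop M a` has weight `0`, so it is `F.map r` (`Q.wts.lift`), and `r` is a map of bimodules by `of_lop` (`lop_lop`, `lop_rop`, `rop_rop`: the group is commutative).
`rho_nat`: `Q.faithful`, `hom_lop`, `hom_rop`.  `rho_add`, `rho_zero`: the same way (`lop_rop`, `lop_lop`, `rop_rop`, `lop_zero`).
-/

set_option autoImplicit false

noncomputable section

open CategoryTheory MonoidalCategory
open scoped BigOperators

namespace Pool.Agent.SFC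

universe v u v' u' w

open Functor.LaxMonoidal Functor.OplaxMonoidal

variable {K : Type w} [Field K] {C : Type u} [Category.{v} C] [Preadditive C] [Linear K C] [MonoidalCategory C]
  [MonoidalPreadditive C] [MonoidalLinear K C]
  {D : Type u'} [Category.{v'} D] [Preadditive D] [Linear K D] [MonoidalCategory D] [MonoidalPreadditive D]
  [MonoidalLinear K D] {F : C ⥤ D} [F.Monoidal] {n : ℕ} [NeZero n]

/-- the left action of `T a` -/
def DeEq.lop (Q : DeEq K F n) {S : SFrob C} (hS : IsSum K Q.th S) (M : Bim S) (a : ZMod n) :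
    F.obj M.X ⟶ F.obj M.X :=
  (λ_ _).inv ≫ (Q.t a).inv ▷ F.obj M.X ≫ μ F _ _ ≫ F.map (hS.i a ▷ M.X ≫ M.l)

/-- the right action of `T a` -/
def DeEq.rop (Q : DeEq K F n) {S : SFrob C} (hS : IsSum K Q.th S) (M : Bim S) (a : ZMod n) :
    F.obj M.X ⟶ F.obj M.X :=
  (ρ_ _).inv ≫ F.obj M.X ◁ (Q.t a).inv ≫ μ F _ _ ≫ F.map (M.X ◁ hS.i a ≫ M.r)

/-! ### The isomorphisms `F x ⟶ F (T a ⊗ x)` and `F x ⟶ F (x ⊗ T a)` -/

private def E2g_e (Q : DeEq K F n) (a : ZMod n) (x : C) : F.obj x ⟶ F.obj (Q.th.T a ⊗ x) :=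
  (λ_ _).inv ≫ (Q.t a).inv ▷ F.obj x ≫ μ F _ _

private def E2g_e' (Q : DeEq K F n) (a : ZMod n) (x : C) : F.obj x ⟶ F.obj (x ⊗ Q.th.T a) :=
  (ρ_ _).inv ≫ F.obj x ◁ (Q.t a).inv ≫ μ F _ _

private def E2g_kap' (Q : DeEq K F n) (a : ZMod n) (x : C) : F.obj (x ⊗ Q.th.T a) ⟶ F.obj x :=
  δ F _ _ ≫ F.obj x ◁ (Q.t a).hom ≫ (ρ_ _).hom

private theorem E2g_e_kap (Q : DeEq K F n) (a : ZMod n) (x : C) : E2g_e Q a x ≫ Q.kap a x = 𝟙 _ := by
  simp only [E2g_e, DeEq.kap, Category.assoc, Functor.Monoidal.μ_δ_assoc]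
  rw [← comp_whiskerRight_assoc, Iso.inv_hom_id, id_whiskerRight, Category.id_comp, Iso.inv_hom_id]

private theorem E2g_kap_e (Q : DeEq K F n) (a : ZMod n) (x : C) : Q.kap a x ≫ E2g_e Q a x = 𝟙 _ := by
  simp only [E2g_e, DeEq.kap, Category.assoc, Iso.hom_inv_id_assoc]
  rw [← comp_whiskerRight_assoc, Iso.hom_inv_id, id_whiskerRight, Category.id_comp, Functor.Monoidal.δ_μ]

private theorem E2g_e'_kap' (Q : DeEq K F n) (a : ZMod n) (x : C) : E2g_e' Q a x ≫ E2g_kap' Q a x = 𝟙 _ := by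
  simp only [E2g_e', E2g_kap', Category.assoc, Functor.Monoidal.μ_δ_assoc]
  rw [← MonoidalCategory.whiskerLeft_comp_assoc, Iso.inv_hom_id, MonoidalCategory.whiskerLeft_id, Category.id_comp,
    Iso.inv_hom_id]

private theorem E2g_kap'_e' (Q : DeEq K F n) (a : ZMod n) (x : C) : E2g_kap' Q a x ≫ E2g_e' Q a x = 𝟙 _ := by
  simp only [E2g_e', E2g_kap', Category.assoc, Iso.hom_inv_id_assoc]
  rw [← MonoidalCategory.whiskerLeft_comp_assoc, Iso.hom_inv_id, MonoidalCategory.whiskerLeft_id, Category.id_comp,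
    Functor.Monoidal.δ_μ]

private theorem E2g_e_nat (Q : DeEq K F n) (a : ZMod n) {x y : C} (g : x ⟶ y) :
    F.map g ≫ E2g_e Q a y = E2g_e Q a x ≫ F.map (Q.th.T a ◁ g) := by
  have h := Q.kap_nat a g
  calc F.map g ≫ E2g_e Q a y = E2g_e Q a x ≫ (Q.kap a x ≫ F.map g) ≫ E2g_e Q a y := by
        rw [Category.assoc, ← Category.assoc (E2g_e Q a x), E2g_e_kap, Category.id_comp]
    _ = E2g_e Q a x ≫ F.map (Q.th.T a ◁ g) := by
        rw [h, Category.assoc, E2g_kap_e, Category.comp_id]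

private theorem E2g_e'_nat (Q : DeEq K F n) (a : ZMod n) {x y : C} (g : x ⟶ y) :
    F.map g ≫ E2g_e' Q a y = E2g_e' Q a x ≫ F.map (g ▷ Q.th.T a) := by
  simp only [E2g_e', Category.assoc]
  rw [rightUnitor_inv_naturality_assoc, ← whisker_exchange_assoc, μ_natural_left]

private theorem E2g_e_e (Q : DeEq K F n) {a b c : ZMod n} (h : a + b = c) (y : C) :
    E2g_e Q b y ≫ E2g_e Q a (Q.th.T b ⊗ y) =
      E2g_e Q c y ≫ F.map ((Q.th.m a b c h).inv ▷ y ≫ (α_ _ _ _).hom) := by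
  have h1 := Q.kap_kap h y
  have h2 : F.map ((Q.th.m a b c h).inv ▷ y ≫ (α_ _ _ _).hom) ≫ Q.kap a (Q.th.T b ⊗ y) ≫ Q.kap b y = Q.kap c y := by
    rw [h1, ← Category.assoc, ← F.map_comp]
    have h3 : ((Q.th.m a b c h).inv ▷ y ≫ (α_ _ _ _).hom) ≫ (α_ _ _ _).inv ≫ (Q.th.m a b c h).hom ▷ y = 𝟙 _ := by
      rw [Category.assoc, Iso.hom_inv_id_assoc, ← comp_whiskerRight, Iso.inv_hom_id, id_whiskerRight]
    rw [h3, F.map_id, Category.id_comp]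
  calc E2g_e Q b y ≫ E2g_e Q a (Q.th.T b ⊗ y)
      = E2g_e Q c y ≫ Q.kap c y ≫ E2g_e Q b y ≫ E2g_e Q a (Q.th.T b ⊗ y) := by
        rw [← Category.assoc (E2g_e Q c y), E2g_e_kap, Category.id_comp]
    _ = E2g_e Q c y ≫ F.map ((Q.th.m a b c h).inv ▷ y ≫ (α_ _ _ _).hom) ≫ Q.kap a (Q.th.T b ⊗ y) ≫
          (Q.kap b y ≫ E2g_e Q b y) ≫ E2g_e Q a (Q.th.T b ⊗ y) := by
        rw [← h2]
        simp only [Category.assoc]
    _ = E2g_e Q c y ≫ F.map ((Q.th.m a b c h).inv ▷ y ≫ (α_ _ _ _).hom) := by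
        rw [E2g_kap_e, Category.id_comp, E2g_kap_e, Category.comp_id]

private theorem E2g_t_inv_mul (Q : DeEq K F n) {a b c : ZMod n} (h : a + b = c) :
    (λ_ (𝟙_ D)).inv ≫ ((Q.t a).inv ⊗ₘ (Q.t b).inv) ≫ μ F _ _ = (Q.t c).inv ≫ F.map (Q.th.m a b c h).inv := by
  have h1 := Q.t_mul a b c h
  rw [← cancel_mono (F.map (Q.th.m a b c h).hom ≫ (Q.t c).hom)]
  have h2 : ((Q.t c).inv ≫ F.map (Q.th.m a b c h).inv) ≫ F.map (Q.th.m a b c h).hom ≫ (Q.t c).hom = 𝟙 _ := by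
    rw [Category.assoc, ← Category.assoc (F.map _), ← F.map_comp, Iso.inv_hom_id, F.map_id, Category.id_comp,
      Iso.inv_hom_id]
  rw [h2, h1]
  simp only [Category.assoc, Functor.Monoidal.μ_δ_assoc]
  rw [← Category.assoc ((Q.t a).inv ⊗ₘ (Q.t b).inv), MonoidalCategory.tensorHom_comp_tensorHom, Iso.inv_hom_id,
    Iso.inv_hom_id, MonoidalCategory.id_tensorHom_id, Category.id_comp, Iso.inv_hom_id]

private theorem E2g_e'_e' (Q : DeEq K F n) {a b c : ZMod n} (h : a + b = c) (y : C) :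
    E2g_e' Q a y ≫ E2g_e' Q b (y ⊗ Q.th.T a) =
      E2g_e' Q c y ≫ F.map (y ◁ (Q.th.m a b c h).inv ≫ (α_ _ _ _).inv) := by
  have h1 := E2g_t_inv_mul Q h
  have h2 : E2g_e' Q c y ≫ F.map (y ◁ (Q.th.m a b c h).inv) =
      (ρ_ _).inv ≫ F.obj y ◁ ((λ_ (𝟙_ D)).inv ≫ ((Q.t a).inv ⊗ₘ (Q.t b).inv) ≫ μ F _ _) ≫ μ F _ _ := by
    rw [h1]
    simp only [E2g_e', Category.assoc, MonoidalCategory.whiskerLeft_comp]
    rw [μ_natural_right]
  rw [F.map_comp, ← Category.assoc, h2]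
  simp only [E2g_e', Category.assoc, MonoidalCategory.whiskerLeft_comp]
  rw [Functor.LaxMonoidal.associativity_inv, rightUnitor_inv_naturality_assoc, ← whisker_exchange_assoc]
  have h3 : F.obj y ◁ (Q.t a).inv ≫ (ρ_ (F.obj y ⊗ F.obj (Q.th.T a))).inv ≫
      (F.obj y ⊗ F.obj (Q.th.T a)) ◁ (Q.t b).inv =
      F.obj y ◁ (λ_ (𝟙_ D)).inv ≫ F.obj y ◁ ((Q.t a).inv ⊗ₘ (Q.t b).inv) ≫ (α_ _ _ _).inv := by
    rw [MonoidalCategory.tensorHom_def]
    monoidal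
  simp only [← Category.assoc]
  congr 2
  simp only [Category.assoc]
  rw [← h3]

private theorem E2g_e_e' (Q : DeEq K F n) (a b : ZMod n) (y : C) :
    E2g_e Q a y ≫ E2g_e' Q b (Q.th.T a ⊗ y) = E2g_e' Q b y ≫ E2g_e Q a (y ⊗ Q.th.T b) ≫ F.map (α_ _ _ _).inv := by
  simp only [E2g_e', E2g_e, Category.assoc]
  rw [rightUnitor_inv_naturality_assoc, ← whisker_exchange_assoc, leftUnitor_inv_naturality_assoc,
    whisker_exchange_assoc (Q.t a).inv (μ F y _), Functor.LaxMonoidal.associativity_inv]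
  have h3 : (λ_ (F.obj y)).inv ≫ (Q.t a).inv ▷ F.obj y ≫ (ρ_ (F.obj (Q.th.T a) ⊗ F.obj y)).inv ≫
      (F.obj (Q.th.T a) ⊗ F.obj y) ◁ (Q.t b).inv =
      (ρ_ (F.obj y)).inv ≫ F.obj y ◁ (Q.t b).inv ≫ (λ_ (F.obj y ⊗ F.obj (Q.th.T b))).inv ≫
        (Q.t a).inv ▷ (F.obj y ⊗ F.obj (Q.th.T b)) ≫ (α_ _ _ _).inv := by
    have h4 : (λ_ (F.obj y ⊗ F.obj (Q.th.T b))).inv ≫ (Q.t a).inv ▷ (F.obj y ⊗ F.obj (Q.th.T b)) ≫ (α_ _ _ _).inv =
        ((λ_ (F.obj y)).inv ≫ (Q.t a).inv ▷ F.obj y) ▷ F.obj (Q.th.T b) := by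
      monoidal
    rw [h4, whisker_exchange, rightUnitor_inv_naturality_assoc, comp_whiskerRight, Category.assoc,
      rightUnitor_inv_naturality_assoc]
  simp only [← Category.assoc]
  congr 2
  simp only [Category.assoc]
  exact h3

private theorem E2g_lop (Q : DeEq K F n) {S : SFrob C} (hS : IsSum K Q.th S) (M : Bim S) (a : ZMod n) :
    Q.lop hS M a = E2g_e Q a M.X ≫ F.map (hS.i a ▷ M.X ≫ M.l) := by
  simp only [DeEq.lop, E2g_e, Category.assoc]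

private theorem E2g_rop (Q : DeEq K F n) {S : SFrob C} (hS : IsSum K Q.th S) (M : Bim S) (a : ZMod n) :
    Q.rop hS M a = E2g_e' Q a M.X ≫ F.map (M.X ◁ hS.i a ≫ M.r) := by
  simp only [DeEq.rop, E2g_e', Category.assoc]

theorem DeEq.lop_mem (Q : DeEq K F n) {S : SFrob C} (hS : IsSum K Q.th S) (M : Bim S) (a : ZMod n) :
    Q.lop hS M a ∈ Q.W (-a) M.X M.X := by
  have h1 := Q.wts.inv (add_neg_cancel a) (Q.wts.τ a) (Q.wts.τ_mem a)
  have h2 : (Q.wts.τ a).inv = η F ≫ (Q.t a).inv := rfl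
  have h3 : (η F ≫ (Q.t a).inv : F.obj (𝟙_ C) ⟶ F.obj (Q.th.T a)) ∈ Q.W (-a) (𝟙_ C) (Q.th.T a) := by
    rw [← h2]
    exact h1
  have h4 := Q.W_left h3 M.X
  have h5 := Q.W_comp (zero_add (-a)) (Q.wts.map (λ_ M.X).inv) h4
  have h6 := Q.W_comp (add_zero (-a)) h5 (Q.wts.map (hS.i a ▷ M.X ≫ M.l))
  have h7 : Q.lop hS M a = (F.map (λ_ M.X).inv ≫ δ F (𝟙_ C) M.X ≫
      (η F ≫ (Q.t a).inv) ▷ F.obj M.X ≫ μ F (Q.th.T a) M.X) ≫ F.map (hS.i a ▷ M.X ≫ M.l) := by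
    rw [DeEq.lop, Functor.OplaxMonoidal.left_unitality]
    simp only [Category.assoc, comp_whiskerRight]
  rw [h7]
  exact h6

theorem DeEq.rop_mem (Q : DeEq K F n) {S : SFrob C} (hS : IsSum K Q.th S) (M : Bim S) (a : ZMod n) :
    Q.rop hS M a ∈ Q.W (-a) M.X M.X := by
  have h1 := Q.wts.inv (add_neg_cancel a) (Q.wts.τ a) (Q.wts.τ_mem a)
  have h2 : (Q.wts.τ a).inv = η F ≫ (Q.t a).inv := rfl
  have h3 : (η F ≫ (Q.t a).inv : F.obj (𝟙_ C) ⟶ F.obj (Q.th.T a)) ∈ Q.W (-a) (𝟙_ C) (Q.th.T a) := by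
    rw [← h2]
    exact h1
  have h4 := Q.W_right h3 M.X
  have h5 := Q.W_comp (zero_add (-a)) (Q.wts.map (ρ_ M.X).inv) h4
  have h6 := Q.W_comp (add_zero (-a)) h5 (Q.wts.map (M.X ◁ hS.i a ≫ M.r))
  have h7 : Q.rop hS M a = (F.map (ρ_ M.X).inv ≫ δ F M.X (𝟙_ C) ≫
      F.obj M.X ◁ (η F ≫ (Q.t a).inv) ≫ μ F M.X (Q.th.T a)) ≫ F.map (M.X ◁ hS.i a ≫ M.r) := by
    rw [DeEq.rop, Functor.OplaxMonoidal.right_unitality]
    simp only [Category.assoc, MonoidalCategory.whiskerLeft_comp]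
  rw [h7]
  exact h6

private theorem E2g_alg_l {th : Gl C n} {S : SFrob C} (hS : IsSum K th S) (M : Bim S) {a b c : ZMod n}
    (h : a + b = c) :
    ((th.m a b c h).inv ▷ M.X ≫ (α_ _ _ _).hom) ≫ th.T a ◁ (hS.i b ▷ M.X ≫ M.l) ≫ hS.i a ▷ M.X ≫ M.l =
      hS.i c ▷ M.X ≫ M.l := by
  have h1 : hS.i c = (th.m a b c h).inv ≫ (hS.i a ⊗ₘ hS.i b) ≫ S.mul := by
    rw [hS.mul a b c h, Iso.inv_hom_id_assoc]
  rw [MonoidalCategory.whiskerLeft_comp, Category.assoc, Category.assoc, whisker_exchange_assoc]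
  have h2 : S.A ◁ M.l ≫ M.l = (α_ _ _ _).inv ≫ S.mul ▷ M.X ≫ M.l := by rw [M.ll, Iso.inv_hom_id_assoc]
  rw [h2, h1, comp_whiskerRight, comp_whiskerRight, Category.assoc, Category.assoc]
  congr 1
  rw [MonoidalCategory.tensorHom_def', comp_whiskerRight, Category.assoc]
  monoidal

private theorem E2g_alg_r {th : Gl C n} {S : SFrob C} (hS : IsSum K th S) (M : Bim S) {a b c : ZMod n}
    (h : a + b = c) :
    (M.X ◁ (th.m a b c h).inv ≫ (α_ _ _ _).inv) ≫ (M.X ◁ hS.i a ≫ M.r) ▷ th.T b ≫ M.X ◁ hS.i b ≫ M.r =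
      M.X ◁ hS.i c ≫ M.r := by
  have h1 : hS.i c = (th.m a b c h).inv ≫ (hS.i a ⊗ₘ hS.i b) ≫ S.mul := by
    rw [hS.mul a b c h, Iso.inv_hom_id_assoc]
  rw [comp_whiskerRight, Category.assoc, Category.assoc, ← whisker_exchange_assoc]
  have h2 : M.r ▷ S.A ≫ M.r = (α_ _ _ _).hom ≫ M.X ◁ S.mul ≫ M.r := by rw [M.rr, Iso.hom_inv_id_assoc]
  rw [h2, h1, MonoidalCategory.whiskerLeft_comp, MonoidalCategory.whiskerLeft_comp, Category.assoc, Category.assoc]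
  congr 1
  rw [MonoidalCategory.tensorHom_def, MonoidalCategory.whiskerLeft_comp, Category.assoc]
  monoidal

private theorem E2g_lop_comm (Q : DeEq K F n) {S : SFrob C} (hS : IsSum K Q.th S) (M : Bim S) {a b c : ZMod n}
    (h : a + b = c) : Q.lop hS M b ≫ Q.lop hS M a = Q.lop hS M c := by
  rw [E2g_lop, E2g_lop, E2g_lop, Category.assoc, ← Category.assoc (F.map _), E2g_e_nat, Category.assoc,
    ← Category.assoc (E2g_e Q b M.X), E2g_e_e Q h, Category.assoc, ← F.map_comp, ← F.map_comp, E2g_alg_l hS M h]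

theorem DeEq.lop_lop (Q : DeEq K F n) {S : SFrob C} (hS : IsSum K Q.th S) (M : Bim S) (a b : ZMod n) :
    Q.lop hS M a ≫ Q.lop hS M b = Q.lop hS M (a + b) :=
  E2g_lop_comm Q hS M (add_comm b a)

theorem DeEq.rop_rop (Q : DeEq K F n) {S : SFrob C} (hS : IsSum K Q.th S) (M : Bim S) (a b : ZMod n) :
    Q.rop hS M a ≫ Q.rop hS M b = Q.rop hS M (a + b) := by
  rw [E2g_rop, E2g_rop, E2g_rop, Category.assoc, ← Category.assoc (F.map _), E2g_e'_nat, Category.assoc,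
    ← Category.assoc (E2g_e' Q a M.X), E2g_e'_e' Q rfl, Category.assoc, ← F.map_comp, ← F.map_comp, E2g_alg_r hS M rfl]

theorem DeEq.lop_rop (Q : DeEq K F n) {S : SFrob C} (hS : IsSum K Q.th S) (M : Bim S) (a b : ZMod n) :
    Q.lop hS M a ≫ Q.rop hS M b = Q.rop hS M b ≫ Q.lop hS M a := by
  have h1 : (hS.i a ▷ M.X ≫ M.l) ▷ Q.th.T b ≫ M.X ◁ hS.i b ≫ M.r =
      (α_ _ _ _).hom ≫ Q.th.T a ◁ (M.X ◁ hS.i b ≫ M.r) ≫ hS.i a ▷ M.X ≫ M.l := by
    rw [comp_whiskerRight, Category.assoc, ← whisker_exchange_assoc, M.lr, MonoidalCategory.whiskerLeft_comp,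
      Category.assoc, whisker_exchange_assoc]
    have h2 : (hS.i a ▷ M.X) ▷ Q.th.T b ≫ (S.A ⊗ M.X) ◁ hS.i b ≫ (α_ S.A M.X S.A).hom =
        (α_ _ _ _).hom ≫ Q.th.T a ◁ (M.X ◁ hS.i b) ≫ hS.i a ▷ (M.X ⊗ S.A) := by
      rw [whisker_exchange]
      monoidal
    simp only [← Category.assoc] at h2 ⊢
    rw [h2]
  rw [E2g_lop, E2g_rop, Category.assoc, ← Category.assoc (F.map _), E2g_e'_nat, Category.assoc,
    ← Category.assoc (E2g_e Q a M.X), E2g_e_e', ← F.map_comp, h1, Category.assoc, Category.assoc, ← F.map_comp,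
    Iso.inv_hom_id_assoc, Category.assoc, ← Category.assoc (F.map (M.X ◁ hS.i b ≫ M.r)), E2g_e_nat, F.map_comp,
    Category.assoc]

theorem DeEq.lop_zero (Q : DeEq K F n) {S : SFrob C} (hS : IsSum K Q.th S) (M : Bim S) :
    Q.lop hS M 0 = F.map M.p := by
  have h1 : E2g_e Q 0 M.X = F.map ((λ_ M.X).inv ≫ Q.th.u.hom ▷ M.X) := by
    have h2 := Q.kap_zero (𝟙 M.X)
    rw [F.map_id, Category.id_comp] at h2
    calc E2g_e Q 0 M.X = 𝟙 _ ≫ E2g_e Q 0 M.X := (Category.id_comp _).symm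
      _ = F.map ((λ_ M.X).inv ≫ Q.th.u.hom ▷ M.X) := by
        rw [h2, Category.assoc, E2g_kap_e, Category.comp_id]
  rw [E2g_lop, h1, ← F.map_comp, Bim.p, hS.one, comp_whiskerRight]
  simp only [Category.assoc]

theorem DeEq.rop_zero (Q : DeEq K F n) {S : SFrob C} (hS : IsSum K Q.th S) (M : Bim S) :
    Q.rop hS M 0 = F.map M.p := by
  have h2 : (Q.t 0).inv = ε F ≫ F.map Q.th.u.hom := by
    rw [← cancel_mono (Q.t 0).hom, Iso.inv_hom_id, Category.assoc, Q.t_one, Functor.Monoidal.ε_η]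
  have h1 : E2g_e' Q 0 M.X = F.map ((ρ_ M.X).inv ≫ M.X ◁ Q.th.u.hom) := by
    rw [E2g_e', h2, MonoidalCategory.whiskerLeft_comp, Category.assoc, μ_natural_right, F.map_comp]
    simp
  rw [E2g_rop, h1, ← F.map_comp, Bim.p_r, hS.one, MonoidalCategory.whiskerLeft_comp]
  simp only [Category.assoc]

theorem DeEq.hom_lop (Q : DeEq K F n) {S : SFrob C} (hS : IsSum K Q.th S) {M N : Bim S} (f : M ⟶ N) (a : ZMod n) :
    Q.lop hS M a ≫ F.map (Bim.Hom.f f) = F.map (Bim.Hom.f f) ≫ Q.lop hS N a := by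
  rw [E2g_lop, E2g_lop, ← Category.assoc (F.map _), E2g_e_nat, Category.assoc, Category.assoc, ← F.map_comp,
    ← F.map_comp, whisker_exchange_assoc, Bim.Hom.hl, Category.assoc]

theorem DeEq.hom_rop (Q : DeEq K F n) {S : SFrob C} (hS : IsSum K Q.th S) {M N : Bim S} (f : M ⟶ N) (a : ZMod n) :
    Q.rop hS M a ≫ F.map (Bim.Hom.f f) = F.map (Bim.Hom.f f) ≫ Q.rop hS N a := by
  rw [E2g_rop, E2g_rop, ← Category.assoc (F.map _), E2g_e'_nat, Category.assoc, Category.assoc, ← F.map_comp,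
    ← F.map_comp, ← whisker_exchange_assoc, Bim.Hom.hr, Category.assoc]

theorem DeEq.left_of_lop (Q : DeEq K F n) {S : SFrob C} (hS : IsSum K Q.th S) {M N : Bim S} (f : M.X ⟶ N.X)
    (h : ∀ a, Q.lop hS M a ≫ F.map f = F.map f ≫ Q.lop hS N a) : S.A ◁ f ≫ N.l = M.l ≫ f := by
  have h1 : ∀ a, hS.i a ▷ M.X ≫ M.l ≫ f = hS.i a ▷ M.X ≫ S.A ◁ f ≫ N.l := by
    intro a
    have h2 := h a
    rw [E2g_lop, E2g_lop, ← Category.assoc (F.map _), E2g_e_nat, Category.assoc, Category.assoc, ← F.map_comp,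
      ← F.map_comp] at h2
    have h3 : F.map ((hS.i a ▷ M.X ≫ M.l) ≫ f) = F.map (Q.th.T a ◁ f ≫ hS.i a ▷ N.X ≫ N.l) := by
      have h4 := congrArg (fun z => Q.kap a M.X ≫ z) h2
      simp only [← Category.assoc (Q.kap a M.X), E2g_kap_e, Category.id_comp] at h4
      exact h4
    have h5 := Q.faithful h3
    rw [whisker_exchange_assoc, Category.assoc] at h5
    exact h5
  have h2 : ∀ z : S.A ⊗ M.X ⟶ N.X, z = ∑ a, hS.q a ▷ M.X ≫ hS.i a ▷ M.X ≫ z := by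
    intro z
    have h3 : (𝟙 (S.A ⊗ M.X)) = ∑ a, hS.q a ▷ M.X ≫ hS.i a ▷ M.X := by
      rw [← id_whiskerRight, ← hS.sum, sum_whiskerRight]
      exact Finset.sum_congr rfl fun a _ => comp_whiskerRight _ _ _
    calc z = 𝟙 (S.A ⊗ M.X) ≫ z := (Category.id_comp _).symm
      _ = _ := by
        rw [h3, Preadditive.sum_comp]
        exact Finset.sum_congr rfl fun a _ => Category.assoc _ _ _
  rw [h2 (S.A ◁ f ≫ N.l), h2 (M.l ≫ f)]
  exact Finset.sum_congr rfl fun a _ => by rw [h1 a]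

theorem DeEq.right_of_rop (Q : DeEq K F n) {S : SFrob C} (hS : IsSum K Q.th S) {M N : Bim S} (f : M.X ⟶ N.X)
    (h : ∀ a, Q.rop hS M a ≫ F.map f = F.map f ≫ Q.rop hS N a) : f ▷ S.A ≫ N.r = M.r ≫ f := by
  have h1 : ∀ a, M.X ◁ hS.i a ≫ M.r ≫ f = M.X ◁ hS.i a ≫ f ▷ S.A ≫ N.r := by
    intro a
    have h2 := h a
    rw [E2g_rop, E2g_rop, ← Category.assoc (F.map _), E2g_e'_nat, Category.assoc, Category.assoc, ← F.map_comp,
      ← F.map_comp] at h2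
    have h3 : F.map ((M.X ◁ hS.i a ≫ M.r) ≫ f) = F.map (f ▷ Q.th.T a ≫ N.X ◁ hS.i a ≫ N.r) := by
      have h4 := congrArg (fun z => E2g_kap' Q a M.X ≫ z) h2
      simp only [← Category.assoc (E2g_kap' Q a M.X), E2g_kap'_e', Category.id_comp] at h4
      exact h4
    have h5 := Q.faithful h3
    rw [← whisker_exchange_assoc, Category.assoc] at h5
    exact h5
  have h2 : ∀ z : M.X ⊗ S.A ⟶ N.X, z = ∑ a, M.X ◁ hS.q a ≫ M.X ◁ hS.i a ≫ z := by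
    intro z
    have h3 : (𝟙 (M.X ⊗ S.A)) = ∑ a, M.X ◁ hS.q a ≫ M.X ◁ hS.i a := by
      rw [← MonoidalCategory.whiskerLeft_id, ← hS.sum, whiskerLeft_sum]
      exact Finset.sum_congr rfl fun a _ => MonoidalCategory.whiskerLeft_comp _ _ _
    calc z = 𝟙 (M.X ⊗ S.A) ≫ z := (Category.id_comp _).symm
      _ = _ := by
        rw [h3, Preadditive.sum_comp]
        exact Finset.sum_congr rfl fun a _ => Category.assoc _ _ _
  rw [h2 (f ▷ S.A ≫ N.r), h2 (M.r ≫ f)]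
  exact Finset.sum_congr rfl fun a _ => by rw [h1 a]

theorem DeEq.exists_rho (Q : DeEq K F n) {S : SFrob C} (hS : IsSum K Q.th S) (M : Bim S) (a : ZMod n) :
    ∃ r : M ⟶ M, F.map (Bim.Hom.f r) = Q.lop hS M (-a) ≫ Q.rop hS M a := by
  have h1 : Q.lop hS M (-a) ≫ Q.rop hS M a ∈ Q.W 0 M.X M.X :=
    Q.W_comp (by ring) (Q.lop_mem hS M (-a)) (Q.rop_mem hS M a)
  obtain ⟨g, hg, -⟩ := Q.W_lift _ h1
  have hg : F.map g = Q.lop hS M (-a) ≫ Q.rop hS M a := hg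
  refine ⟨⟨g, ?_, ?_, ?_⟩, hg⟩
  · refine Q.left_of_lop hS g fun b => ?_
    rw [hg, ← Category.assoc, Q.lop_lop, Category.assoc, ← Q.lop_rop hS M b a, ← Category.assoc, Q.lop_lop,
      add_comm b (-a)]
  · refine Q.right_of_rop hS g fun b => ?_
    rw [hg, ← Category.assoc, ← Q.lop_rop, Category.assoc, Category.assoc, Q.rop_rop, Q.rop_rop, add_comm b a]
  · refine Q.faithful ?_
    rw [F.map_comp, hg, ← Q.rop_zero hS M, Category.assoc, Q.rop_rop, add_zero]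

/-- the automorphism `ρ a` of a bimodule -/
def DeEq.rho (Q : DeEq K F n) {S : SFrob C} (hS : IsSum K Q.th S) (M : Bim S) (a : ZMod n) : M ⟶ M :=
  (Q.exists_rho hS M a).choose

theorem DeEq.F_rho (Q : DeEq K F n) {S : SFrob C} (hS : IsSum K Q.th S) (M : Bim S) (a : ZMod n) :
    F.map (Bim.Hom.f (Q.rho hS M a)) = Q.lop hS M (-a) ≫ Q.rop hS M a := (Q.exists_rho hS M a).choose_spec

theorem DeEq.rho_nat (Q : DeEq K F n) {S : SFrob C} (hS : IsSum K Q.th S) {M N : Bim S} (f : M ⟶ N) (a : ZMod n) :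
    Q.rho hS M a ≫ f = f ≫ Q.rho hS N a := by
  refine Bim.hom_ext (Q.faithful ?_)
  rw [Bim.comp_f, Bim.comp_f, F.map_comp, F.map_comp, Q.F_rho, Q.F_rho, Category.assoc, Q.hom_rop, ← Category.assoc,
    Q.hom_lop, Category.assoc]

theorem DeEq.rho_add (Q : DeEq K F n) {S : SFrob C} (hS : IsSum K Q.th S) (M : Bim S) (a b : ZMod n) :
    Q.rho hS M a ≫ Q.rho hS M b = Q.rho hS M (a + b) := by
  refine Bim.hom_ext (Q.faithful ?_)
  rw [Bim.comp_f, F.map_comp, Q.F_rho, Q.F_rho, Q.F_rho, Category.assoc, ← Category.assoc (Q.rop hS M a),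
    ← Q.lop_rop, Category.assoc, Q.rop_rop, ← Category.assoc, Q.lop_lop, neg_add]

theorem DeEq.rho_zero (Q : DeEq K F n) {S : SFrob C} (hS : IsSum K Q.th S) (M : Bim S) :
    Q.rho hS M 0 = 𝟙 M := by
  refine Bim.hom_ext (Q.faithful ?_)
  rw [Q.F_rho, neg_zero, Q.lop_zero, Q.rop_zero, Bim.id_f, ← F.map_comp, M.pp]

end Pool.Agent.SFC
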