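import Pool.Agent.SFC.E2e
import Pool.Agent.SFC.E2g

/-!
# SFC/E2h: bimodules with trivial `ρ` come from `D`

`rho_LB`: for `M = φ.LB Z` (`X = R Z`): write `c = adj.counit.app Z`.  By `l_c`, `r_c` and `i_chi`: `F.map (i a ▷ _ ≫ l) ≫ c = δ ≫ (t a ⊗ₘ c) ≫ λ`, so `lop M a ≫ c = c` and `rop M a ≫ c = c`.  Hence `F.map (ρ a) ≫ c = c`, and
`ρ a = 𝟙` by `hext` (`(φ.LB Z).p = 𝟙`, `Bim.id_f`).
`central`: if `rho M a = 𝟙` for all `a`, then `lop M (-a) ≫ rop M a = F.map M.p` (`F_rho`, `Bim.id_f`); compose with `lop M a`: `rop M a = lop M a` (`lop_lop`, `lop_zero`; `F.map M.p ≫ rop M a = rop M a`, from `hom_rop` for `𝟙 M` and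
`rop M 0`).
`right_of_left`: if `M`, `N` are central and `f : M.X ⟶ N.X` is left linear, then it is right linear (`right_of_rop`; `lop M a ≫ F.map f = F.map f ≫ lop N a` as in `hom_lop`; for this only left linearity is used: state it as a private lemma).
`retract`: `M` central.  `L := φ.LB (F M.X)`, `L.X = R (F M.X)`, `θ = thet φ adj M.X : A ⊗ M.X ≅ R (F M.X)` (`Q.thet_iso`), which is left linear for the left action of `A` on `A ⊗ M.X` (`thet` and `φ.ll`).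
`π := θ⁻¹ ≫ M.l : R (F M.X) ⟶ M.X` and `ι := s ≫ θ`, where `s := (λ_ M.X).inv ≫ (S.one ≫ S.cm) ▷ M.X ≫ (α_ _ _ _).hom ≫ S.A ◁ M.l : M.X ⟶ A ⊗ M.X` is left linear (the Frobenius relations: `cp = S.one ≫ S.cm` satisfies
`A cp = cp A`) and `s ≫ M.l = M.p` (`S.sep`, `M.ll`).  So (after composing `π` with `M.p`) they are maps of bimodules `L ⟶ M ⟶ L` by `right_of_left` (`L` is central by `rho_LB`), `ι ≫ π = 𝟙 M`.
`img`: the idempotent `π ≫ ι` of `L` is `φ.LBf.map e` (`Q.full`), `e` idempotent (`Q.faithfulR`), `e = π' ≫ ι'` with `ι' ≫ π' = 𝟙 y` (`IsIdempotentComplete D`); `M ≅ φ.LBf.obj y`.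
-/

set_option autoImplicit false

noncomputable section

open CategoryTheory MonoidalCategory
open scoped BigOperators

namespace Pool.Agent.SFC

universe v u v' u' w

open Functor.LaxMonoidal Functor.OplaxMonoidal

variable {K : Type w} [Field K] {C : Type u} [Category.{v} C] [Preadditive C] [Linear K C] [MonoidalCategory C]
  [MonoidalPreadditive C] [MonoidalLinear K C]
  {D : Type u'} [Category.{v'} D] [Preadditive D] [Linear K D] [MonoidalCategory D] [MonoidalPreadditive D]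
  [MonoidalLinear K D] {F : C ⥤ D} [F.Monoidal] {n : ℕ} [NeZero n] {R : D ⥤ C} [R.LaxMonoidal]

private theorem E2h_lop_c (Q : DeEq K F n) {S : SFrob C} (hS : IsSum K Q.th S) (adj : F ⊣ R) [adj.IsMonoidal]
    (φ : AlgTo S R) (hφ : F.map φ.f ≫ adj.counit.app (𝟙_ D) = Q.chi hS) (Z : D) (a : ZMod n) :
    Q.lop hS (φ.LB Z) a ≫ adj.counit.app Z = adj.counit.app Z := by
  have h1 := l_c φ adj Z
  rw [hφ] at h1
  show ((λ_ _).inv ≫ (Q.t a).inv ▷ F.obj (R.obj Z) ≫ μ F _ _ ≫ F.map (hS.i a ▷ R.obj Z ≫ φ.l Z)) ≫ _ = _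
  have h2 : F.map (hS.i a ▷ R.obj Z) ≫ δ F _ _ = δ F _ _ ≫ F.map (hS.i a) ▷ F.obj (R.obj Z) :=
    (Functor.OplaxMonoidal.δ_natural_left F (hS.i a) (R.obj Z)).symm
  rw [F.map_comp]
  simp only [Category.assoc]
  rw [h1, reassoc_of% h2, Functor.Monoidal.μ_δ_assoc, MonoidalCategory.tensorHom_def]
  simp only [Category.assoc]
  rw [← comp_whiskerRight_assoc, ← comp_whiskerRight_assoc, Category.assoc (Q.t a).inv, Q.i_chi hS a,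
    Iso.inv_hom_id, id_whiskerRight]
  have h3 : (𝟙_ D) ◁ adj.counit.app Z ≫ (λ_ Z).hom = (λ_ (F.obj (R.obj Z))).hom ≫ adj.counit.app Z :=
    leftUnitor_naturality _
  show (λ_ (F.obj (R.obj Z))).inv ≫ 𝟙 _ ≫ (𝟙_ D) ◁ adj.counit.app Z ≫ (λ_ Z).hom = adj.counit.app Z
  rw [h3, Category.id_comp, Iso.inv_hom_id_assoc]

private theorem E2h_rop_c (Q : DeEq K F n) {S : SFrob C} (hS : IsSum K Q.th S) (adj : F ⊣ R) [adj.IsMonoidal]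
    (φ : AlgTo S R) (hφ : F.map φ.f ≫ adj.counit.app (𝟙_ D) = Q.chi hS) (Z : D) (a : ZMod n) :
    Q.rop hS (φ.LB Z) a ≫ adj.counit.app Z = adj.counit.app Z := by
  have h1 := r_c φ adj Z
  rw [hφ] at h1
  show ((ρ_ _).inv ≫ F.obj (R.obj Z) ◁ (Q.t a).inv ≫ μ F _ _ ≫ F.map (R.obj Z ◁ hS.i a ≫ φ.r Z)) ≫ _ = _
  have h2 : F.map (R.obj Z ◁ hS.i a) ≫ δ F _ _ = δ F _ _ ≫ F.obj (R.obj Z) ◁ F.map (hS.i a) :=
    (Functor.OplaxMonoidal.δ_natural_right F (R.obj Z) (hS.i a)).symm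
  rw [F.map_comp]
  simp only [Category.assoc]
  rw [h1, reassoc_of% h2, Functor.Monoidal.μ_δ_assoc, MonoidalCategory.tensorHom_def']
  simp only [Category.assoc]
  rw [← MonoidalCategory.whiskerLeft_comp_assoc, ← MonoidalCategory.whiskerLeft_comp_assoc,
    Category.assoc (Q.t a).inv, Q.i_chi hS a, Iso.inv_hom_id, MonoidalCategory.whiskerLeft_id]
  have h3 : adj.counit.app Z ▷ (𝟙_ D) ≫ (ρ_ Z).hom = (ρ_ (F.obj (R.obj Z))).hom ≫ adj.counit.app Z :=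
    rightUnitor_naturality _
  show (ρ_ (F.obj (R.obj Z))).inv ≫ 𝟙 _ ≫ adj.counit.app Z ▷ (𝟙_ D) ≫ (ρ_ Z).hom = adj.counit.app Z
  rw [h3, Category.id_comp, Iso.inv_hom_id_assoc]

theorem DeEq.rho_LB (Q : DeEq K F n) {S : SFrob C} (hS : IsSum K Q.th S) (adj : F ⊣ R) [adj.IsMonoidal]
    (φ : AlgTo S R) (hφ : F.map φ.f ≫ adj.counit.app (𝟙_ D) = Q.chi hS) (Z : D) (a : ZMod n) :
    Q.rho hS (φ.LB Z) a = 𝟙 (φ.LB Z) := by
  apply Bim.hom_ext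
  rw [Bim.id_f, φ.LB_p]
  have h1 : F.map (Bim.Hom.f (Q.rho hS (φ.LB Z) a)) ≫ adj.counit.app Z = F.map (𝟙 (R.obj Z)) ≫ adj.counit.app Z := by
    rw [Q.F_rho, Category.assoc, E2h_rop_c Q hS adj φ hφ, E2h_lop_c Q hS adj φ hφ, F.map_id]
    exact (Category.id_comp _).symm
  exact hext adj h1

theorem DeEq.central (Q : DeEq K F n) {S : SFrob C} (hS : IsSum K Q.th S) {M : Bim S}
    (h : ∀ a, Q.rho hS M a = 𝟙 M) (a : ZMod n) : Q.rop hS M a = Q.lop hS M a := by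
  have h1 := Q.F_rho hS M a
  rw [h a, Bim.id_f] at h1
  have h2 : Q.lop hS M a ≫ F.map M.p = Q.lop hS M a := by
    rw [← Q.lop_zero hS M, Q.lop_lop, add_zero]
  have h3 : F.map M.p ≫ Q.rop hS M a = Q.rop hS M a := by
    rw [← Q.rop_zero hS M, Q.rop_rop, zero_add]
  rw [← h3, ← h2, h1, ← Category.assoc (Q.lop hS M a), Q.lop_lop, add_neg_cancel, Q.lop_zero, h1]

private theorem E2h_lop_of_left (Q : DeEq K F n) {S : SFrob C} (hS : IsSum K Q.th S) {M N : Bim S} (f : M.X ⟶ N.X)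
    (hf : S.A ◁ f ≫ N.l = M.l ≫ f) (a : ZMod n) :
    Q.lop hS M a ≫ F.map f = F.map f ≫ Q.lop hS N a := by
  unfold DeEq.lop
  have h1 : F.map (hS.i a ▷ M.X ≫ M.l) ≫ F.map f = F.map (Q.th.T a ◁ f) ≫ F.map (hS.i a ▷ N.X ≫ N.l) := by
    rw [← F.map_comp, ← F.map_comp, Category.assoc, ← hf, whisker_exchange_assoc]
  simp only [Category.assoc]
  rw [h1, ← Functor.LaxMonoidal.μ_natural_right_assoc, ← whisker_exchange_assoc,
    leftUnitor_inv_naturality_assoc]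

theorem DeEq.right_of_left (Q : DeEq K F n) {S : SFrob C} (hS : IsSum K Q.th S) {M N : Bim S}
    (hM : ∀ a, Q.rop hS M a = Q.lop hS M a) (hN : ∀ a, Q.rop hS N a = Q.lop hS N a) (f : M.X ⟶ N.X)
    (hf : S.A ◁ f ≫ N.l = M.l ≫ f) : f ▷ S.A ≫ N.r = M.r ≫ f := by
  apply Q.right_of_rop hS f
  intro a
  rw [hM, hN, E2h_lop_of_left Q hS f hf]

private theorem E2h_I (S : SFrob C) : S.A ◁ (S.one ≫ S.cm) ≫ (α_ S.A S.A S.A).inv ≫ S.mul ▷ S.A =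
    (ρ_ S.A).hom ≫ S.cm := by
  rw [MonoidalCategory.whiskerLeft_comp, Category.assoc, ← S.frobL, ← Category.assoc, S.mul_one]

private theorem E2h_II (S : SFrob C) : (S.one ≫ S.cm) ▷ S.A ≫ (α_ S.A S.A S.A).hom ≫ S.A ◁ S.mul =
    (λ_ S.A).hom ≫ S.cm := by
  rw [comp_whiskerRight, Category.assoc, ← S.frobR, ← Category.assoc, S.one_mul]

/-- the section -/
private def E2h_s {S : SFrob C} (M : Bim S) : M.X ⟶ S.A ⊗ M.X :=
  (λ_ M.X).inv ≫ (S.one ≫ S.cm) ▷ M.X ≫ (α_ _ _ _).hom ≫ S.A ◁ M.l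

private theorem E2h_s_l {S : SFrob C} (M : Bim S) : E2h_s M ≫ M.l = M.p := by
  unfold E2h_s Bim.p
  have h1 := M.ll
  simp only [Category.assoc]
  rw [← h1, ← comp_whiskerRight_assoc, Category.assoc, S.sep, Category.comp_id]

private theorem E2h_s_lin1 {S : SFrob C} (M : Bim S) :
    S.A ◁ E2h_s M ≫ (α_ _ _ _).inv ≫ S.mul ▷ M.X = S.cm ▷ M.X ≫ (α_ _ _ _).hom ≫ S.A ◁ M.l := by
  have h1 : (S.A ◁ (S.one ≫ S.cm) ≫ (α_ S.A S.A S.A).inv ≫ S.mul ▷ S.A) ▷ M.X ≫ (α_ _ _ _).hom ≫ S.A ◁ M.l =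
      ((ρ_ S.A).hom ≫ S.cm) ▷ M.X ≫ (α_ _ _ _).hom ≫ S.A ◁ M.l := by rw [E2h_I]
  have h2 : S.cm ▷ M.X ≫ (α_ _ _ _).hom ≫ S.A ◁ M.l =
      S.A ◁ (λ_ M.X).inv ≫ (α_ _ _ _).inv ≫ ((ρ_ S.A).hom ≫ S.cm) ▷ M.X ≫ (α_ _ _ _).hom ≫ S.A ◁ M.l := by
    simp
  rw [h2, ← h1]
  unfold E2h_s
  simp only [MonoidalCategory.whiskerLeft_comp, comp_whiskerRight, Category.assoc]
  have h3 : S.A ◁ S.A ◁ M.l ≫ (α_ S.A S.A M.X).inv ≫ S.mul ▷ M.X =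
      (α_ S.A S.A (S.A ⊗ M.X)).inv ≫ S.mul ▷ (S.A ⊗ M.X) ≫ S.A ◁ M.l := by
    rw [associator_inv_naturality_right_assoc, whisker_exchange]
  rw [h3]
  simp

private theorem E2h_s_lin2 {S : SFrob C} (M : Bim S) :
    M.l ≫ E2h_s M = S.cm ▷ M.X ≫ (α_ _ _ _).hom ≫ S.A ◁ M.l := by
  have h1 : ((S.one ≫ S.cm) ▷ S.A ≫ (α_ S.A S.A S.A).hom ≫ S.A ◁ S.mul) ▷ M.X ≫ (α_ _ _ _).hom ≫ S.A ◁ M.l =
      ((λ_ S.A).hom ≫ S.cm) ▷ M.X ≫ (α_ _ _ _).hom ≫ S.A ◁ M.l := by rw [E2h_II]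
  have h2 : S.cm ▷ M.X ≫ (α_ _ _ _).hom ≫ S.A ◁ M.l =
      (λ_ (S.A ⊗ M.X)).inv ≫ (α_ _ _ _).inv ≫ ((λ_ S.A).hom ≫ S.cm) ▷ M.X ≫ (α_ _ _ _).hom ≫ S.A ◁ M.l := by
    simp
  rw [h2, ← h1]
  unfold E2h_s
  rw [leftUnitor_inv_naturality_assoc, whisker_exchange_assoc]
  have h3 : (S.A ⊗ S.A) ◁ M.l ≫ (α_ S.A S.A M.X).hom ≫ S.A ◁ M.l =
      (α_ _ _ _).hom ≫ S.A ◁ ((α_ _ _ _).inv ≫ S.mul ▷ M.X ≫ M.l) := by
    have h4 := M.ll
    rw [h4, Iso.inv_hom_id_assoc, MonoidalCategory.whiskerLeft_comp, associator_naturality_right_assoc]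
  rw [h3]
  simp

theorem DeEq.retract (Q : DeEq K F n) {S : SFrob C} (hS : IsSum K Q.th S) (adj : F ⊣ R) [adj.IsMonoidal]
    (φ : AlgTo S R) (hφ : F.map φ.f ≫ adj.counit.app (𝟙_ D) = Q.chi hS) {M : Bim S}
    (hM : ∀ a, Q.rop hS M a = Q.lop hS M a) : ∃ (i : M ⟶ φ.LB (F.obj M.X)) (p : φ.LB (F.obj M.X) ⟶ M), i ≫ p = 𝟙 M := by
  have hL : ∀ a, Q.rop hS (φ.LB (F.obj M.X)) a = Q.lop hS (φ.LB (F.obj M.X)) a :=
    Q.central hS (Q.rho_LB hS adj φ hφ (F.obj M.X))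
  obtain ⟨ti, ht1, ht2⟩ := (Q.thet_iso hS adj φ hφ M.X).out
  have hθ : S.A ◁ thet φ adj M.X ≫ φ.l (F.obj M.X) = (α_ _ _ _).inv ≫ S.mul ▷ M.X ≫ thet φ adj M.X := by
    have key : ∀ u : M.X ⟶ R.obj (F.obj M.X), S.A ◁ (S.A ◁ u ≫ φ.l (F.obj M.X)) ≫ φ.l (F.obj M.X) =
        (α_ _ _ _).inv ≫ S.mul ▷ M.X ≫ S.A ◁ u ≫ φ.l (F.obj M.X) := by
      intro u
      have h1 := φ.ll (F.obj M.X)
      have h2 : S.A ◁ φ.l (F.obj M.X) ≫ φ.l (F.obj M.X) = (α_ _ _ _).inv ≫ S.mul ▷ R.obj (F.obj M.X) ≫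
          φ.l (F.obj M.X) := by
        rw [h1, Iso.inv_hom_id_assoc]
      rw [MonoidalCategory.whiskerLeft_comp, Category.assoc, h2, associator_inv_naturality_right_assoc,
        whisker_exchange_assoc]
    exact key _
  have hl1 : S.A ◁ (E2h_s M ≫ thet φ adj M.X) ≫ (φ.LB (F.obj M.X)).l = M.l ≫ E2h_s M ≫ thet φ adj M.X := by
    show S.A ◁ (E2h_s M ≫ thet φ adj M.X) ≫ φ.l (F.obj M.X) = M.l ≫ E2h_s M ≫ thet φ adj M.X
    rw [MonoidalCategory.whiskerLeft_comp, Category.assoc, hθ]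
    have h1 := E2h_s_lin1 M
    have h2 := E2h_s_lin2 M
    rw [← Category.assoc M.l, h2, ← h1]
    simp only [Category.assoc]
  have hl2 : S.A ◁ (ti ≫ M.l) ≫ M.l = (φ.LB (F.obj M.X)).l ≫ ti ≫ M.l := by
    show S.A ◁ (ti ≫ M.l) ≫ M.l = φ.l (F.obj M.X) ≫ ti ≫ M.l
    calc S.A ◁ (ti ≫ M.l) ≫ M.l = S.A ◁ ti ≫ (α_ _ _ _).inv ≫ S.mul ▷ M.X ≫ M.l := by
          rw [MonoidalCategory.whiskerLeft_comp, Category.assoc, M.ll, Iso.inv_hom_id_assoc]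
      _ = S.A ◁ ti ≫ (α_ _ _ _).inv ≫ S.mul ▷ M.X ≫ (thet φ adj M.X ≫ ti) ≫ M.l := by
          rw [ht1, Category.id_comp]
      _ = S.A ◁ ti ≫ (S.A ◁ thet φ adj M.X ≫ φ.l (F.obj M.X)) ≫ ti ≫ M.l := by
          rw [hθ]
          simp only [Category.assoc]
      _ = S.A ◁ (ti ≫ thet φ adj M.X) ≫ φ.l (F.obj M.X) ≫ ti ≫ M.l := by
          rw [MonoidalCategory.whiskerLeft_comp]
          simp only [Category.assoc]
      _ = φ.l (F.obj M.X) ≫ ti ≫ M.l := by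
          rw [ht2, MonoidalCategory.whiskerLeft_id, Category.id_comp]
  refine ⟨(⟨E2h_s M ≫ thet φ adj M.X, hl1, Q.right_of_left hS hM hL _ hl1, ?_⟩ : Bim.Hom M (φ.LB (F.obj M.X))),
    (⟨ti ≫ M.l, hl2, Q.right_of_left hS hL hM _ hl2, ?_⟩ : Bim.Hom (φ.LB (F.obj M.X)) M), ?_⟩
  · rw [φ.LB_p]
    exact Category.comp_id _
  · rw [Category.assoc, M.p_l]
  · apply Bim.hom_ext
    show (E2h_s M ≫ thet φ adj M.X) ≫ ti ≫ M.l = M.p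
    rw [Category.assoc, reassoc_of% ht1, E2h_s_l]

theorem DeEq.img [IsIdempotentComplete D] (Q : DeEq K F n) {S : SFrob C} (hS : IsSum K Q.th S) (adj : F ⊣ R)
    [adj.IsMonoidal] (φ : AlgTo S R) (hφ : F.map φ.f ≫ adj.counit.app (𝟙_ D) = Q.chi hS) {M : Bim S}
    (hM : ∀ a, Q.rho hS M a = 𝟙 M) : ∃ y : D, Nonempty (M ≅ φ.LBf.obj y) := by
  obtain ⟨i, p, hip⟩ : ∃ (i : M ⟶ φ.LBf.obj (F.obj M.X)) (p : φ.LBf.obj (F.obj M.X) ⟶ M), i ≫ p = 𝟙 M :=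
    Q.retract hS adj φ hφ (Q.central hS hM)
  obtain ⟨e, he⟩ := Q.full hS adj φ hφ (Bim.Hom.f (p ≫ i)) (Bim.Hom.hl (p ≫ i))
  have he1 : φ.LBf.map e = p ≫ i := Bim.hom_ext he
  have he2 : e ≫ e = e := by
    apply Q.faithfulR adj
    have h5 : Bim.Hom.f (p ≫ i) ≫ Bim.Hom.f (p ≫ i) = Bim.Hom.f (p ≫ i) := by
      show Bim.Hom.f ((p ≫ i) ≫ p ≫ i) = Bim.Hom.f (p ≫ i)
      rw [Category.assoc, reassoc_of% hip]
    rw [R.map_comp, he]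
    exact h5
  obtain ⟨y, ι, π, h1, h2⟩ := IsIdempotentComplete.idempotents_split (F.obj M.X) e he2
  refine ⟨y, ⟨⟨i ≫ φ.LBf.map π, φ.LBf.map ι ≫ p, ?_, ?_⟩⟩⟩
  · have h3 : φ.LBf.map π ≫ φ.LBf.map ι = p ≫ i := by rw [← Functor.map_comp, h2, he1]
    rw [Category.assoc, reassoc_of% h3, hip, Category.comp_id, hip]
  · have h3 : φ.LBf.map ι ≫ p ≫ i ≫ φ.LBf.map π = φ.LBf.map (ι ≫ e ≫ π) := by
      rw [Functor.map_comp, Functor.map_comp, he1, Category.assoc]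
    rw [Category.assoc, h3, ← h2, Category.assoc, h1, Category.comp_id, h1, CategoryTheory.Functor.map_id]

end Pool.Agent.SFC
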