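import Pool.Agent.SFC.ATen
import Pool.Agent.SFC.E2g

/-!
# SFC/E2i: `ρ` is monoidal

`Bim.ten M N` has `X = M.X ⊗ N.X`, `l = Bim.lt M N ≫ Bim.e M N = (α_ _ _ _).inv ≫ M.l ▷ _ ≫ e`, `r = Bim.rt M N ≫ Bim.e M N = (α_ _ _ _).hom ≫ _ ◁ N.r ≫ e` (SFC/ATen).
`lop_ten`, `rop_ten`: by the definitions of `lop`, `rop` and the monoidality of `F` (naturality and associativity of `μ`, unitality).
`bal_op`: from `Bim.bal` on the summand `T a` of `A`.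
`rho_ten`: apply `F` (`Q.faithful`), `F_rho`: LHS `lop (-a) ≫ rop a` of `ten M N`.  By `lop_ten`, `rop_ten` (`e` commutes with `lop`, `rop` of `ten M N`: `Bim.e M N = (Bim.ten M N).p`, `hom_lop` for `𝟙`; `Bim.e_e`) it is
`δ ≫ (lop M (-a) ⊗ₘ rop N a) ≫ μ ≫ F.map e`.  RHS: `Hom.f` of the composite is `e ≫ f ▷ _ ≫ e ≫ _ ◁ g = f ▷ _ ≫ _ ◁ g ≫ e` (up to `Bim.f_e`, `Bim.e_f`, `Bim.e_e`), so `F` of it is
`δ ≫ ((lop M (-a) ≫ rop M a) ⊗ₘ (lop N (-a) ≫ rop N a)) ≫ μ ≫ F.map e`; move `rop M a` to the other side by `bal_op`: `lop N a ≫ lop N (-a) = F.map N.p` (`lop_lop`, `lop_zero`), and `N.p` is absorbed by `e` (`Bim.e_pR`).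
-/

set_option autoImplicit false
set_option linter.unusedSectionVars false

noncomputable section

open CategoryTheory MonoidalCategory
open scoped BigOperators

namespace Pool.Agent.SFC

universe v u v' u' w

open Functor.LaxMonoidal Functor.OplaxMonoidal

variable {K : Type w} [Field K] {C : Type u} [Category.{v} C] [Preadditive C] [Linear K C] [MonoidalCategory C]
  [MonoidalPreadditive C] [MonoidalLinear K C]
  {D : Type u'} [Category.{v'} D] [Preadditive D] [Linear K D] [MonoidalCategory D] [MonoidalPreadditive D]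
  [MonoidalLinear K D] {F : C ⥤ D} [F.Monoidal] {n : ℕ} [NeZero n]

private theorem E2i_lop (Q : DeEq K F n) {S : SFrob C} (hS : IsSum K Q.th S) (M N : Bim S) (a : ZMod n) :
    (λ_ (F.obj (M.X ⊗ N.X))).inv ≫ (Q.t a).inv ▷ F.obj (M.X ⊗ N.X) ≫ μ F _ _ ≫
      F.map (hS.i a ▷ (M.X ⊗ N.X) ≫ (Bim.lt M N ≫ Bim.e M N)) =
      δ F M.X N.X ≫ Q.lop hS M a ▷ F.obj N.X ≫ μ F M.X N.X ≫ F.map (Bim.e M N) := by
  have h0 : hS.i a ▷ (M.X ⊗ N.X) ≫ (Bim.lt M N ≫ Bim.e M N) =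
      (α_ _ _ _).inv ≫ (hS.i a ▷ M.X ≫ M.l) ▷ N.X ≫ Bim.e M N := by
    rw [Bim.lt]
    simp only [Category.assoc, comp_whiskerRight, associator_inv_naturality_left_assoc]
  rw [h0, ← cancel_epi (μ F M.X N.X)]
  rw [Functor.Monoidal.μ_δ_assoc, leftUnitor_inv_naturality_assoc, whisker_exchange_assoc, F.map_comp, F.map_comp,
    Functor.LaxMonoidal.associativity_inv_assoc, ← μ_natural_left_assoc]
  simp only [DeEq.lop, comp_whiskerRight, Category.assoc]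
  monoidal

theorem DeEq.lop_ten (Q : DeEq K F n) {S : SFrob C} (hS : IsSum K Q.th S) (M N : Bim S) (a : ZMod n) :
    Q.lop hS (Bim.ten M N) a = δ F M.X N.X ≫ Q.lop hS M a ▷ F.obj N.X ≫ μ F M.X N.X ≫ F.map (Bim.e M N) :=
  E2i_lop Q hS M N a

private theorem E2i_rop (Q : DeEq K F n) {S : SFrob C} (hS : IsSum K Q.th S) (M N : Bim S) (a : ZMod n) :
    (ρ_ (F.obj (M.X ⊗ N.X))).inv ≫ F.obj (M.X ⊗ N.X) ◁ (Q.t a).inv ≫ μ F _ _ ≫
      F.map ((M.X ⊗ N.X) ◁ hS.i a ≫ (Bim.rt M N ≫ Bim.e M N)) =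
      δ F M.X N.X ≫ F.obj M.X ◁ Q.rop hS N a ≫ μ F M.X N.X ≫ F.map (Bim.e M N) := by
  have h0 : (M.X ⊗ N.X) ◁ hS.i a ≫ (Bim.rt M N ≫ Bim.e M N) =
      (α_ _ _ _).hom ≫ M.X ◁ (N.X ◁ hS.i a ≫ N.r) ≫ Bim.e M N := by
    rw [Bim.rt]
    simp only [Category.assoc, MonoidalCategory.whiskerLeft_comp, associator_naturality_right_assoc]
  rw [h0, ← cancel_epi (μ F M.X N.X)]
  rw [Functor.Monoidal.μ_δ_assoc, rightUnitor_inv_naturality_assoc, ← whisker_exchange_assoc, F.map_comp, F.map_comp,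
    Functor.LaxMonoidal.associativity_assoc, ← μ_natural_right_assoc]
  simp only [DeEq.rop, MonoidalCategory.whiskerLeft_comp, Category.assoc]
  monoidal

theorem DeEq.rop_ten (Q : DeEq K F n) {S : SFrob C} (hS : IsSum K Q.th S) (M N : Bim S) (a : ZMod n) :
    Q.rop hS (Bim.ten M N) a = δ F M.X N.X ≫ F.obj M.X ◁ Q.rop hS N a ≫ μ F M.X N.X ≫ F.map (Bim.e M N) :=
  E2i_rop Q hS M N a

theorem DeEq.bal_op (Q : DeEq K F n) {S : SFrob C} (hS : IsSum K Q.th S) (M N : Bim S) (a : ZMod n) :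
    Q.rop hS M a ▷ F.obj N.X ≫ μ F M.X N.X ≫ F.map (Bim.e M N) =
      F.obj M.X ◁ Q.lop hS N a ≫ μ F M.X N.X ≫ F.map (Bim.e M N) := by
  have h0 : (M.X ◁ hS.i a ≫ M.r) ▷ N.X ≫ Bim.e M N =
      (α_ _ _ _).hom ≫ M.X ◁ (hS.i a ▷ N.X ≫ N.l) ≫ Bim.e M N := by
    rw [comp_whiskerRight, Category.assoc, Bim.bal]
    simp only [MonoidalCategory.whiskerLeft_comp, Category.assoc, associator_naturality_middle_assoc]
  have h1 : Q.rop hS M a ▷ F.obj N.X ≫ μ F M.X N.X ≫ F.map (Bim.e M N) =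
      ((ρ_ _).inv ≫ F.obj M.X ◁ (Q.t a).inv) ▷ F.obj N.X ≫ μ F _ _ ▷ F.obj N.X ≫ μ F _ _ ≫
        F.map ((M.X ◁ hS.i a ≫ M.r) ▷ N.X ≫ Bim.e M N) := by
    rw [F.map_comp, ← μ_natural_left_assoc]
    simp only [DeEq.rop, comp_whiskerRight, Category.assoc]
  have h2 : F.obj M.X ◁ Q.lop hS N a ≫ μ F M.X N.X ≫ F.map (Bim.e M N) =
      F.obj M.X ◁ ((λ_ _).inv ≫ (Q.t a).inv ▷ F.obj N.X) ≫ F.obj M.X ◁ μ F _ _ ≫ μ F _ _ ≫
        F.map (M.X ◁ (hS.i a ▷ N.X ≫ N.l)) ≫ F.map (Bim.e M N) := by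
    rw [← μ_natural_right_assoc]
    simp only [DeEq.lop, MonoidalCategory.whiskerLeft_comp, Category.assoc]
  rw [h1, h2, h0, F.map_comp, F.map_comp, Functor.LaxMonoidal.associativity_assoc]
  simp only [MonoidalCategory.whiskerLeft_comp, comp_whiskerRight, Category.assoc,
    associator_naturality_middle_assoc, triangle_assoc_comp_right_inv_assoc]

private theorem E2i_p (Q : DeEq K F n) {S : SFrob C} (hS : IsSum K Q.th S) (P : Bim S) (a : ZMod n) :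
    F.map P.p ≫ Q.rop hS P a = Q.rop hS P a := by
  rw [← Q.rop_zero hS, Q.rop_rop, zero_add]

private theorem E2i_rho (Q : DeEq K F n) {S : SFrob C} (hS : IsSum K Q.th S) (M N : Bim S) (a : ZMod n)
    (A R : F.obj (M.X ⊗ N.X) ⟶ F.obj (M.X ⊗ N.X))
    (hA : A = δ F M.X N.X ≫ Q.lop hS M (-a) ▷ F.obj N.X ≫ μ F M.X N.X ≫ F.map (Bim.e M N))
    (hR : R = δ F M.X N.X ≫ F.obj M.X ◁ Q.rop hS N a ≫ μ F M.X N.X ≫ F.map (Bim.e M N))
    (h1 : F.map (Bim.e M N) ≫ R = R) :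
    A ≫ R = F.map ((Bim.e M N ≫ Bim.Hom.f (Q.rho hS M a) ▷ N.X) ≫
      (Bim.e M N ≫ M.X ◁ Bim.Hom.f (Q.rho hS N a))) := by
  have h3 : Q.lop hS N (-a) ≫ Q.rop hS N a ≫ Q.lop hS N a = Q.rop hS N a := by
    rw [← Q.lop_rop, ← Category.assoc, Q.lop_lop, neg_add_cancel, Q.lop_zero, E2i_p]
  have h4 : (Bim.e M N ≫ Bim.Hom.f (Q.rho hS M a) ▷ N.X) ≫ (Bim.e M N ≫ M.X ◁ Bim.Hom.f (Q.rho hS N a)) =
      Bim.Hom.f (Q.rho hS M a) ▷ N.X ≫ M.X ◁ Bim.Hom.f (Q.rho hS N a) ≫ Bim.e M N := by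
    rw [Bim.e_f, ← Bim.f_e, Category.assoc, ← Category.assoc (Bim.e M N), Bim.e_e]
  have h5 : F.map (Bim.Hom.f (Q.rho hS M a) ▷ N.X ≫ M.X ◁ Bim.Hom.f (Q.rho hS N a) ≫ Bim.e M N) =
      δ F _ _ ≫ F.map (Bim.Hom.f (Q.rho hS M a)) ▷ F.obj N.X ≫
        F.obj M.X ◁ F.map (Bim.Hom.f (Q.rho hS N a)) ≫ μ F _ _ ≫ F.map (Bim.e M N) := by
    rw [F.map_comp, F.map_comp, μ_natural_right_assoc, μ_natural_left_assoc, Functor.Monoidal.δ_μ_assoc]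
  rw [h4, hA]
  simp only [Category.assoc]
  rw [h1, hR, Functor.Monoidal.μ_δ_assoc, h5, Q.F_rho, Q.F_rho, comp_whiskerRight, Category.assoc,
    ← whisker_exchange_assoc (Q.rop hS M a), Q.bal_op, ← MonoidalCategory.whiskerLeft_comp_assoc, Category.assoc, h3]

theorem DeEq.rho_ten (Q : DeEq K F n) {S : SFrob C} (hS : IsSum K Q.th S) (M N : Bim S) (a : ZMod n) :
    Q.rho hS (Bim.ten M N) a = Bim.wR (Q.rho hS M a) N ≫ Bim.wL M (Q.rho hS N a) := by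
  refine Bim.hom_ext (Q.faithful ?_)
  refine (Q.F_rho hS (Bim.ten M N) a).trans ?_
  refine E2i_rho Q hS M N a _ _ (Q.lop_ten hS M N (-a)) (Q.rop_ten hS M N a) ?_
  have h := E2i_p Q hS (Bim.ten M N) a
  rw [Bim.ten_p] at h
  exact h

end Pool.Agent.SFC
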