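import Pool.Agent.SFC.E2g

/-!
# SFC/E2j: twisted bimodules

`aut := ∑ b, ζ ^ (d * b).val • (q b ≫ i b) : A ⟶ A` is an automorphism of the algebra `S.A` (`(aut ⊗ₘ aut) ≫ mul = mul ≫ aut`, `one ≫ aut = one`: see the private lemmas `A0c_a`, `A0c_mul`, `A0c_one` of SFC/A0c and copy what you need).
`M := ⟨A, l := mul, r := A ◁ aut ≫ mul⟩` is a bimodule with `p = 𝟙`.
`lop M a` and `rop M a`: on the summand `T b` of `A`, with `F (T b) ≅ 𝟙`: both `F (i b) ≫ lop M a` and `F (i b) ≫ rop M a` are multiples of `(t b).hom ≫ (t (a + b)).inv ≫ F (i (a + b))`, with the coefficients `1` and `ζ ^ (d * a).val`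
(`hS.mul`, `Q.t_mul`: `F.map (m a b c h).hom = δ F _ _ ≫ ((t a).hom ⊗ₘ (t b).hom) ≫ (λ_ (𝟙_ D)).hom ≫ (t c).inv`; `b + a = a + b`).  So `rop M a = ζ ^ (d * a).val • lop M a`, `F_rho`, `lop_lop`, `lop_zero`, `Q.faithful`.
-/

set_option autoImplicit false

noncomputable section

open CategoryTheory MonoidalCategory
open scoped BigOperators

namespace Pool.Agent.SFC

universe v u v' u' w

open Functor.LaxMonoidal Functor.OplaxMonoidal

variable {K : Type w} [Field K] {C : Type u} [Category.{v} C] [Preadditive C] [Linear K C] [MonoidalCategory C]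
  [MonoidalPreadditive C] [MonoidalLinear K C]
  {D : Type u'} [Category.{v'} D] [Preadditive D] [Linear K D] [MonoidalCategory D] [MonoidalPreadditive D]
  [MonoidalLinear K D] {F : C ⥤ D} [F.Monoidal] {n : ℕ} [NeZero n]

private theorem E2j_sum (Q : DeEq K F n) {x y : C} {α : Type} (s : Finset α) (f : α → (x ⟶ y)) :
    F.map (∑ a ∈ s, f a) = ∑ a ∈ s, F.map (f a) :=
  map_sum (AddMonoidHom.mk' (fun g : x ⟶ y => F.map g) (fun g h => Q.map_add g h)) f s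

private theorem E2j_ext (Q : DeEq K F n) {S : SFrob C} (hS : IsSum K Q.th S) {Z : D} {f g : F.obj S.A ⟶ Z}
    (h : ∀ b, (Q.t b).inv ≫ F.map (hS.i b) ≫ f = (Q.t b).inv ≫ F.map (hS.i b) ≫ g) : f = g := by
  have h1 : ∀ f : F.obj S.A ⟶ Z,
      f = ∑ b, F.map (hS.q b) ≫ (Q.t b).hom ≫ (Q.t b).inv ≫ F.map (hS.i b) ≫ f := by
    intro f
    conv_lhs => rw [← Category.id_comp f, ← F.map_id, ← hS.sum, E2j_sum Q, Preadditive.sum_comp]
    refine Finset.sum_congr rfl fun b _ => ?_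
    rw [Iso.hom_inv_id_assoc, F.map_comp, Category.assoc]
  rw [h1 f, h1 g]
  simp only [h]

private theorem E2j_t_inv_mul (Q : DeEq K F n) {a b c : ZMod n} (h : a + b = c) :
    (λ_ (𝟙_ D)).inv ≫ ((Q.t a).inv ⊗ₘ (Q.t b).inv) ≫ μ F _ _ = (Q.t c).inv ≫ F.map (Q.th.m a b c h).inv := by
  have h1 := Q.t_mul a b c h
  rw [← cancel_mono (F.map (Q.th.m a b c h).hom ≫ (Q.t c).hom)]
  have h2 : ((Q.t c).inv ≫ F.map (Q.th.m a b c h).inv) ≫ F.map (Q.th.m a b c h).hom ≫ (Q.t c).hom = 𝟙 _ := by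
    rw [Category.assoc, ← Category.assoc (F.map _), ← F.map_comp, Iso.inv_hom_id, F.map_id, Category.id_comp,
      Iso.inv_hom_id]
  rw [h2, h1]
  simp only [Category.assoc, Functor.Monoidal.μ_δ_assoc]
  rw [← Category.assoc ((Q.t a).inv ⊗ₘ (Q.t b).inv), MonoidalCategory.tensorHom_comp_tensorHom, Iso.inv_hom_id,
    Iso.inv_hom_id, MonoidalCategory.id_tensorHom_id, Category.id_comp, Iso.inv_hom_id]

private theorem E2j_tt (Q : DeEq K F n) {S : SFrob C} (hS : IsSum K Q.th S) {a b c : ZMod n} (h : a + b = c) :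
    (λ_ (𝟙_ D)).inv ≫ ((Q.t a).inv ⊗ₘ (Q.t b).inv) ≫ μ F _ _ ≫ F.map ((hS.i a ⊗ₘ hS.i b) ≫ S.mul) =
      (Q.t c).inv ≫ F.map (hS.i c) := by
  have h1 := E2j_t_inv_mul Q h
  rw [← Category.assoc ((Q.t a).inv ⊗ₘ (Q.t b).inv), ← Category.assoc, h1, hS.mul a b c h, Category.assoc,
    ← F.map_comp, Iso.inv_hom_id_assoc]

private theorem E2j_R (Q : DeEq K F n) {S : SFrob C} (hS : IsSum K Q.th S) (a b : ZMod n) :
    (Q.t b).inv ≫ F.map (hS.i b) ≫ (ρ_ _).inv ≫ F.obj S.A ◁ (Q.t a).inv ≫ μ F _ _ ≫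
      F.map (S.A ◁ hS.i a ≫ S.mul) = (Q.t (b + a)).inv ≫ F.map (hS.i (b + a)) := by
  rw [rightUnitor_inv_naturality_assoc, ← whisker_exchange_assoc, μ_natural_left_assoc, ← F.map_comp,
    ← E2j_tt Q hS rfl]
  have h1 : hS.i b ▷ Q.th.T a ≫ S.A ◁ hS.i a ≫ S.mul = (hS.i b ⊗ₘ hS.i a) ≫ S.mul := by
    rw [MonoidalCategory.tensorHom_def, Category.assoc]
  rw [h1, rightUnitor_inv_naturality_assoc, MonoidalCategory.tensorHom_def (Q.t b).inv (Q.t a).inv,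
    MonoidalCategory.unitors_inv_equal]
  simp only [Category.assoc]

private theorem E2j_L (Q : DeEq K F n) {S : SFrob C} (hS : IsSum K Q.th S) (a b : ZMod n) :
    (Q.t b).inv ≫ F.map (hS.i b) ≫ (λ_ _).inv ≫ (Q.t a).inv ▷ F.obj S.A ≫ μ F _ _ ≫
      F.map (hS.i a ▷ S.A ≫ S.mul) = (Q.t (a + b)).inv ≫ F.map (hS.i (a + b)) := by
  rw [leftUnitor_inv_naturality_assoc, whisker_exchange_assoc, μ_natural_right_assoc, ← F.map_comp,
    ← E2j_tt Q hS rfl]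
  have h1 : Q.th.T a ◁ hS.i b ≫ hS.i a ▷ S.A ≫ S.mul = (hS.i a ⊗ₘ hS.i b) ≫ S.mul := by
    rw [MonoidalCategory.tensorHom_def', Category.assoc]
  rw [h1, leftUnitor_inv_naturality_assoc, MonoidalCategory.tensorHom_def' (Q.t a).inv (Q.t b).inv]
  simp only [Category.assoc]

private theorem E2j_comm (Q : DeEq K F n) {S : SFrob C} (hS : IsSum K Q.th S) (a : ZMod n) :
    (ρ_ _).inv ≫ F.obj S.A ◁ (Q.t a).inv ≫ μ F _ _ ≫ F.map (S.A ◁ hS.i a ≫ S.mul) =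
      (λ_ _).inv ≫ (Q.t a).inv ▷ F.obj S.A ≫ μ F _ _ ≫ F.map (hS.i a ▷ S.A ≫ S.mul) := by
  refine E2j_ext Q hS fun b => ?_
  rw [E2j_R Q hS, E2j_L Q hS, add_comm]

/-! ### The automorphism of the algebra -/

private theorem E2j_pow {ζ : K} (h : ζ ^ n = 1) (x y : ZMod n) :
    ζ ^ (x + y).val = ζ ^ x.val * ζ ^ y.val := by
  rw [ZMod.val_add, ← pow_add]
  exact (pow_eq_pow_mod _ h).symm

private def E2j_a {th : Gl C n} {S : SFrob C} (ζ : K) (hS : IsSum K th S) (g : ZMod n) : S.A ⟶ S.A :=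
  ∑ b, ζ ^ (g * b).val • (hS.q b ≫ hS.i b)

private theorem E2j_ia {th : Gl C n} {S : SFrob C} (ζ : K) (hS : IsSum K th S) (g b : ZMod n) :
    hS.i b ≫ E2j_a ζ hS g = ζ ^ (g * b).val • hS.i b := by
  rw [E2j_a, Preadditive.comp_sum, Finset.sum_eq_single b]
  · rw [Linear.comp_smul, ← Category.assoc, hS.iq, Category.id_comp]
  · intro c _ hc
    rw [Linear.comp_smul, ← Category.assoc, hS.orth b c hc.symm, Limits.zero_comp, smul_zero]
  · intro h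
    exact absurd (Finset.mem_univ b) h

private theorem E2j_ext2 {th : Gl C n} {S : SFrob C} (hS : IsSum K th S) {X : C} {f g : S.A ⊗ S.A ⟶ X}
    (h : ∀ b c, (hS.i b ⊗ₘ hS.i c) ≫ f = (hS.i b ⊗ₘ hS.i c) ≫ g) : f = g := by
  have h1 : ∀ f : S.A ⊗ S.A ⟶ X,
      f = ∑ b, ∑ c, (hS.q b ⊗ₘ hS.q c) ≫ (hS.i b ⊗ₘ hS.i c) ≫ f := by
    intro f
    conv_lhs => rw [← Category.id_comp f, ← id_tensorHom_id, ← hS.sum, sum_tensor, Preadditive.sum_comp]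
    refine Finset.sum_congr rfl fun b _ => ?_
    rw [tensor_sum, Preadditive.sum_comp]
    refine Finset.sum_congr rfl fun c _ => ?_
    rw [← tensorHom_comp_tensorHom, Category.assoc]
  rw [h1 f, h1 g]
  simp only [h]

private theorem E2j_smul (r s : K) {W X Y Z : C} (f : W ⟶ X)
    (g : Y ⟶ Z) : (r • f) ⊗ₘ (s • g) = (r * s) • (f ⊗ₘ g) := by
  rw [MonoidalCategory.tensorHom_def, MonoidalCategory.tensorHom_def, MonoidalLinear.smul_whiskerRight, MonoidalLinear.whiskerLeft_smul,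
    Linear.smul_comp, Linear.comp_smul, smul_smul]

private theorem E2j_mul {th : Gl C n} {S : SFrob C} {ζ : K} (h : ζ ^ n = 1) (hS : IsSum K th S) (g : ZMod n) :
    (E2j_a ζ hS g ⊗ₘ E2j_a ζ hS g) ≫ S.mul = S.mul ≫ E2j_a ζ hS g := by
  refine E2j_ext2 hS fun b c => ?_
  rw [← Category.assoc, tensorHom_comp_tensorHom, E2j_ia, E2j_ia, ← Category.assoc, hS.mul b c _ rfl,
    Category.assoc, E2j_ia, mul_add, E2j_pow h, Linear.comp_smul, E2j_smul, Linear.smul_comp, hS.mul b c _ rfl]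

private theorem E2j_one {th : Gl C n} {S : SFrob C} (ζ : K) (hS : IsSum K th S) (g : ZMod n) :
    S.one ≫ E2j_a ζ hS g = S.one := by
  rw [hS.one, Category.assoc, E2j_ia, mul_zero, ZMod.val_zero, pow_zero, one_smul]

/-- the twisted bimodule -/
private def E2j_M {th : Gl C n} {S : SFrob C} {ζ : K} (h : ζ ^ n = 1) (hS : IsSum K th S) (g : ZMod n) : Bim S where
  X := S.A
  l := S.mul
  r := S.A ◁ E2j_a ζ hS g ≫ S.mul
  ll := S.assoc
  rr := by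
    have h1 : (S.A ◁ E2j_a ζ hS g ≫ S.mul) ▷ S.A ≫ S.A ◁ E2j_a ζ hS g ≫ S.mul =
        (S.A ◁ E2j_a ζ hS g) ▷ S.A ≫ (S.A ⊗ S.A) ◁ E2j_a ζ hS g ≫ (α_ _ _ _).hom ≫ S.A ◁ S.mul ≫ S.mul := by
      rw [comp_whiskerRight, Category.assoc, ← whisker_exchange_assoc, S.assoc]
    rw [h1]
    have h2 : (α_ S.A S.A S.A).inv ≫ (S.A ◁ E2j_a ζ hS g) ▷ S.A ≫ (S.A ⊗ S.A) ◁ E2j_a ζ hS g ≫
        (α_ _ _ _).hom = S.A ◁ (E2j_a ζ hS g ⊗ₘ E2j_a ζ hS g) := by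
      rw [MonoidalCategory.tensorHom_def]
      monoidal
    have h3 : (α_ S.A S.A S.A).inv ≫ (S.A ◁ E2j_a ζ hS g) ▷ S.A ≫ (S.A ⊗ S.A) ◁ E2j_a ζ hS g ≫
        (α_ _ _ _).hom ≫ S.A ◁ S.mul ≫ S.mul = S.A ◁ (E2j_a ζ hS g ⊗ₘ E2j_a ζ hS g) ≫ S.A ◁ S.mul ≫ S.mul := by
      rw [← h2]
      simp only [Category.assoc]
    rw [h3, ← MonoidalCategory.whiskerLeft_comp_assoc, ← E2j_mul h, MonoidalCategory.whiskerLeft_comp_assoc]
  lr := by
    rw [← whisker_exchange_assoc, S.assoc, MonoidalCategory.whiskerLeft_comp, Category.assoc]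
    monoidal
  uu := by
    rw [S.one_mul, ← MonoidalCategory.whiskerLeft_comp_assoc, E2j_one, S.mul_one, Iso.inv_hom_id, Iso.inv_hom_id]

private theorem E2j_rop (Q : DeEq K F n) {S : SFrob C} (hS : IsSum K Q.th S) {ζ : K} (h : ζ ^ n = 1)
    (g a : ZMod n) :
    Q.rop hS (E2j_M h hS g) a = ζ ^ (g * a).val • Q.lop hS (E2j_M h hS g) a := by
  have h1 : F.map (S.A ◁ hS.i a ≫ S.A ◁ E2j_a ζ hS g ≫ S.mul) =
      ζ ^ (g * a).val • F.map (S.A ◁ hS.i a ≫ S.mul) := by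
    rw [← MonoidalCategory.whiskerLeft_comp_assoc, E2j_ia, MonoidalLinear.whiskerLeft_smul, Linear.smul_comp,
      Q.map_smul]
  have h2 := E2j_comm Q hS a
  have h3 : Q.rop hS (E2j_M h hS g) a = (ρ_ _).inv ≫ F.obj S.A ◁ (Q.t a).inv ≫ μ F _ _ ≫
      F.map (S.A ◁ hS.i a ≫ S.A ◁ E2j_a ζ hS g ≫ S.mul) := rfl
  have h4 : Q.lop hS (E2j_M h hS g) a = (λ_ _).inv ≫ (Q.t a).inv ▷ F.obj S.A ≫ μ F _ _ ≫
      F.map (hS.i a ▷ S.A ≫ S.mul) := rfl
  rw [h3, h4, ← h2, h1]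
  simp only [Linear.comp_smul]
  rfl

theorem DeEq.exists_twist (Q : DeEq K F n) {S : SFrob C} (hS : IsSum K Q.th S) {ζ : K} (hζ : IsPrimitiveRoot ζ n)
    (h0 : 𝟙 S.A ≠ 0) (d : ZMod n) :
    ∃ M : Bim S, 𝟙 M ≠ 0 ∧ ∀ a, Q.rho hS M a = (ζ ^ (d * a).val) • 𝟙 M := by
  have hn := hζ.pow_eq_one
  refine ⟨E2j_M hn hS d, fun hM => h0 ?_, fun a => ?_⟩
  · have h1 : Bim.Hom.f (𝟙 (E2j_M hn hS d)) = 0 := by rw [hM, Bim.zero_f]
    rw [Bim.id_f, Bim.p] at h1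
    have h2 : (λ_ S.A).inv ≫ S.one ▷ S.A ≫ S.mul = 0 := h1
    rw [S.one_mul, Iso.inv_hom_id] at h2
    exact h2
  · refine Bim.hom_ext (Q.faithful ?_)
    rw [Q.F_rho, E2j_rop Q hS hn, Linear.comp_smul, Q.lop_lop, neg_add_cancel, Q.lop_zero, Bim.smul_f, Bim.id_f,
      Q.map_smul]

end Pool.Agent.SFC
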