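import Pool.Agent.SFC.E2h
import Pool.Agent.SFC.E2j
import Pool.Agent.NFG.SemA

/-!
# SFC/E2k: the grading of the category of bimodules

The monoidal structure of `Bim S` is a variable here; the only property used is `ht`: `ρ` is monoidal.
`exists_d`: for a simple bimodule `M`: `rho M a = c a • 𝟙` (`rho M a` is an endomorphism), `c (a + b) = c a * c b`, `c 0 = 1` (`rho_add`, `rho_zero`, `𝟙 M ≠ 0`), so `(c 1) ^ n = 1`, `c 1 = ζ ^ d` with `d < n` (`IsPrimitiveRoot.eq_pow_of_pow_eq_one`) and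
`c a = ζ ^ (d * a).val` (`a = a.val • 1`; `ζ ^ (x + y).val = ζ ^ x.val * ζ ^ y.val`).  `d_unique`: take `a = 1`.
`ext_of`: `deg j := Multiplicative.ofAdd (d j)`.  `full`: `Q.full` (a map of bimodules `φ.LB Z ⟶ φ.LB W` is left linear), `faithful`: `Q.faithfulR`, `map_add`, `map_smul`: `Q.map_add_R`, `Q.map_smul_R`.
`occ`: `f : S c ⟶ S a ⊗ S b`, `f ≠ 0`: `rho (S c) x ≫ f = f ≫ rho (S a ⊗ S b) x = f ≫ (rho (S a) x ⊗ₘ rho (S b) x)`, so the scalars satisfy `c_c x = c_a x * c_b x`, hence `d c = d a + d b`.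
`surj`: `M` from `exists_twist`; there is a nonzero `S j ⟶ M` (`exists_ne_zero`), by `rho_nat` `d j = d`.  (`𝟙 S.A ≠ 0`: `h0`.)
`one`: `rho (φ.LB y) a = 𝟙` (`rho_LB`), `rho_nat`.  `img`: `d j = 0` means `rho (S j) a = 𝟙` for all `a`; `Q.img`.
-/

set_option autoImplicit false

noncomputable section

open CategoryTheory MonoidalCategory
open scoped BigOperators

namespace Pool.Agent.SFC

open Pool.Agent.NFG

universe v u v' u' w

open Functor.LaxMonoidal Functor.OplaxMonoidal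

variable {K : Type w} [Field K] {C : Type u} [Category.{v} C] [Preadditive C] [Linear K C] [MonoidalCategory C]
  [MonoidalPreadditive C] [MonoidalLinear K C]
  {D : Type u'} [Category.{v'} D] [Preadditive D] [Linear K D] [MonoidalCategory D] [MonoidalPreadditive D]
  [MonoidalLinear K D] {F : C ⥤ D} [F.Monoidal] {n : ℕ} [NeZero n] {R : D ⥤ C} [R.LaxMonoidal]

private theorem E2k_pow_val_add {ζ : K} (h1 : ζ ^ n = 1) (x y : ZMod n) :
    ζ ^ (x + y).val = ζ ^ x.val * ζ ^ y.val := by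
  rw [ZMod.val_add, ← pow_eq_pow_mod _ h1, pow_add]

private theorem E2k_pow_val_mul {ζ : K} (h1 : ζ ^ n = 1) (x y : ZMod n) :
    ζ ^ (x * y).val = (ζ ^ x.val) ^ y.val := by
  rw [ZMod.val_mul, ← pow_eq_pow_mod _ h1, pow_mul]

private theorem E2k_inj {C' : Type u} [Category.{v} C'] [Preadditive C'] [Linear K C'] {X Y : C'} {f : X ⟶ Y}
    (hf : f ≠ 0) {c c' : K} (h : c • f = c' • f) : c = c' := by
  have h1 : (c - c') • f = 0 := by rw [sub_smul, h, sub_self]
  rcases smul_eq_zero.1 h1 with h2 | h2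
  · exact sub_eq_zero.1 h2
  · exact absurd h2 hf

theorem DeEq.exists_d (Q : DeEq K F n) {S : SFrob C} (hS : IsSum K Q.th S) {ζ : K} (hζ : IsPrimitiveRoot ζ n)
    (M : Bim S) (h0 : 𝟙 M ≠ 0) (h1 : ∀ f : M ⟶ M, ∃ c : K, f = c • 𝟙 M) :
    ∃ d : ZMod n, ∀ a, Q.rho hS M a = (ζ ^ (d * a).val) • 𝟙 M := by
  choose c hc using fun a => h1 (Q.rho hS M a)
  have hadd : ∀ a b, c (a + b) = c a * c b := by
    intro a b
    refine E2k_inj (K := K) h0 ?_
    rw [← hc (a + b), ← Q.rho_add hS M a b, hc a, hc b, Linear.smul_comp, Linear.comp_smul, Category.comp_id,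
      smul_smul]
  have hzero : c 0 = 1 := by
    refine E2k_inj (K := K) h0 ?_
    rw [← hc 0, Q.rho_zero hS M, one_smul]
  have hnat : ∀ k : ℕ, c (k : ZMod n) = c 1 ^ k := by
    intro k
    induction k with
    | zero => rw [Nat.cast_zero, hzero, pow_zero]
    | succ k ih => rw [Nat.cast_succ, hadd, ih, pow_succ]
  have hn : c 1 ^ n = 1 := by
    rw [← hnat n, ZMod.natCast_self, hzero]
  obtain ⟨i, hi, hi2⟩ := hζ.eq_pow_of_pow_eq_one hn
  refine ⟨(i : ZMod n), fun a => ?_⟩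
  rw [hc a]
  congr 1
  have h3 : c a = c 1 ^ a.val := by
    rw [← hnat, ZMod.natCast_zmod_val]
  rw [h3, E2k_pow_val_mul hζ.pow_eq_one, ZMod.val_natCast_of_lt hi, hi2]

theorem d_unique {ζ : K} (hζ : IsPrimitiveRoot ζ n) {d d' : ZMod n} (h : ∀ a, ζ ^ (d * a).val = ζ ^ (d' * a).val) :
    d = d' := by
  have h1 := h 1
  rw [mul_one, mul_one] at h1
  exact ZMod.val_injective n (hζ.pow_inj (ZMod.val_lt d) (ZMod.val_lt d') h1)

theorem DeEq.ext_of [IsIdempotentComplete D] (Q : DeEq K F n) {S : SFrob C} (hS : IsSum K Q.th S) (adj : F ⊣ R)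
    [adj.IsMonoidal] (φ : AlgTo S R) (hφ : F.map φ.f ≫ adj.counit.app (𝟙_ D) = Q.chi hS)
    [MonoidalCategory (Bim S)] [MonoidalPreadditive (Bim S)] [MonoidalLinear K (Bim S)] [φ.LBf.Monoidal]
    {ζ : K} (hζ : IsPrimitiveRoot ζ n) (h0 : 𝟙 S.A ≠ 0)
    (ht : ∀ (M N : Bim S) (a : ZMod n), Q.rho hS (M ⊗ N) a = Q.rho hS M a ⊗ₘ Q.rho hS N a)
    {ι : Type} [Fintype ι] [DecidableEq ι] (FN : Fus K (Bim S) ι) :
    ∃ deg : ι → Multiplicative (ZMod n), IsExt K φ.LBf FN (Multiplicative (ZMod n)) deg := by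
  choose d hd using fun j => Q.exists_d hS hζ (FN.S j) (FN.one_ne j) (FN.schur j)
  have hone : ∀ (M : Bim S) (i : ι) (f : FN.S i ⟶ M), f ≠ 0 → ∀ e : ZMod n,
      (∀ a, f ≫ Q.rho hS M a = (ζ ^ (e * a).val) • f) → d i = e := by
    intro M i f hf e he
    refine d_unique hζ fun a => ?_
    refine E2k_inj (K := K) hf ?_
    rw [← he a, ← Q.rho_nat hS f a, hd i a, Linear.smul_comp, Category.id_comp]
  refine ⟨fun j => Multiplicative.ofAdd (d j), ?_⟩
  refine ⟨⟨fun {Z W} h => ?_⟩, ⟨fun {Z W} f g hfg => ?_⟩, fun f g => ?_, fun c f => ?_, ?_, ?_, ?_, ?_⟩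
  · obtain ⟨f, hf⟩ := Q.full hS adj φ hφ (Bim.Hom.f h) (Bim.Hom.hl h)
    exact ⟨f, Bim.hom_ext hf⟩
  · exact Q.faithfulR adj (congrArg (fun z => Bim.Hom.f z) hfg)
  · exact Bim.hom_ext (Q.map_add_R adj f g)
  · exact Bim.hom_ext (Q.map_smul_R adj c f)
  · rintro i j k ⟨f, hf⟩
    have h1 : d k = d i + d j := by
      refine hone _ k f hf _ fun a => ?_
      rw [ht, hd i a, hd j a, MonoidalCategory.tensorHom_def, MonoidalLinear.smul_whiskerRight,
        MonoidalLinear.whiskerLeft_smul, id_whiskerRight, MonoidalCategory.whiskerLeft_id, Linear.smul_comp,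
        Category.id_comp, smul_smul, Linear.comp_smul, Category.comp_id, add_mul,
        E2k_pow_val_add hζ.pow_eq_one]
    show Multiplicative.ofAdd (d k) = Multiplicative.ofAdd (d i) * Multiplicative.ofAdd (d j)
    rw [h1, ofAdd_add]
  · intro q
    obtain ⟨M, hM0, hM⟩ := Q.exists_twist hS hζ h0 (Multiplicative.toAdd q)
    obtain ⟨j, f, hf⟩ := exists_ne_zero FN hM0
    have h1 : d j = Multiplicative.toAdd q := by
      refine hone M j f hf _ fun a => ?_
      rw [hM a, Linear.comp_smul, Category.comp_id]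
    refine ⟨j, ?_⟩
    show Multiplicative.ofAdd (d j) = q
    rw [h1, ofAdd_toAdd]
  · intro i hi
    have h1 : d i = 0 := hi
    refine Q.img hS adj φ hφ fun a => ?_
    rw [hd i a, h1, zero_mul, ZMod.val_zero, pow_zero, one_smul]
  · intro y i f hf
    have h1 : d i = 0 := by
      refine hone _ i f hf _ fun a => ?_
      have h2 : Q.rho hS (φ.LBf.obj y) a = 𝟙 (φ.LBf.obj y) := Q.rho_LB hS adj φ hφ y a
      rw [h2, zero_mul, ZMod.val_zero, pow_zero, one_smul, Category.comp_id]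
    show Multiplicative.ofAdd (d i) = 1
    rw [h1, ofAdd_zero]

end Pool.Agent.SFC
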