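import Pool.Agent.SFC.AMon
import Pool.Agent.SFC.E2f

/-!
# SFC/E2l: the functor `Z ↦ R Z` to bimodules is lax monoidal

`IsIm f g`: the morphism `f` of bimodules is `Bim.im g`.  All structure morphisms are of this form, with `g` the structure
morphisms of `C` and `R`.
-/

set_option autoImplicit false

noncomputable section

open CategoryTheory MonoidalCategory

namespace Pool.Agent.SFC

universe v u v' u'

open Functor.LaxMonoidal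

section

variable {C : Type u} [Category.{v} C] [MonoidalCategory C] {S : SFrob C}

/-- `f` is the morphism `Bim.im g` -/
def IsIm {M N : Bim S} (f : M ⟶ N) (g : M.X ⟶ N.X) : Prop :=
  ∃ (hl : S.A ◁ g ≫ N.l = M.l ≫ g) (hr : g ▷ S.A ≫ N.r = M.r ≫ g), f = Bim.im g hl hr

theorem IsIm.eq {M N : Bim S} {f f' : M ⟶ N} {g g' : M.X ⟶ N.X} (h : IsIm f g) (h' : IsIm f' g') (e : g = g') :
    f = f' := by
  subst e
  obtain ⟨_, _, rfl⟩ := h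
  obtain ⟨_, _, rfl⟩ := h'
  rfl

theorem isIm_hom {M N : Bim S} (f : M ⟶ N) : IsIm f (Bim.Hom.f f) := ⟨f.hl, f.hr, (Bim.im_hom f).symm⟩

theorem IsIm.comp {M N P : Bim S} {f : M ⟶ N} {f' : N ⟶ P} {g : M.X ⟶ N.X} {g' : N.X ⟶ P.X} (h : IsIm f g)
    (h' : IsIm f' g') : IsIm (f ≫ f') (g ≫ g') := by
  obtain ⟨h1, h2, rfl⟩ := h
  obtain ⟨h3, h4, rfl⟩ := h'
  rw [Bim.im_comp]
  exact ⟨_, _, rfl⟩

theorem IsIm.wR {M M' : Bim S} {f : M ⟶ M'} {g : M.X ⟶ M'.X} (h : IsIm f g) (N : Bim S) :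
    IsIm (f ▷ N) (g ▷ N.X) := by
  obtain ⟨h1, h2, rfl⟩ := h
  exact ⟨_, _, Bim.wR_im g h1 h2 N⟩

theorem IsIm.wL (M : Bim S) {N N' : Bim S} {f : N ⟶ N'} {g : N.X ⟶ N'.X} (h : IsIm f g) :
    IsIm (M ◁ f) (M.X ◁ g) := by
  obtain ⟨h1, h2, rfl⟩ := h
  exact ⟨_, _, Bim.wL_im M g h1 h2⟩

theorem isIm_al (M N P : Bim S) : IsIm (α_ M N P).hom (α_ M.X N.X P.X).hom :=
  ⟨Bim.al_hl M N P, Bim.al_hr M N P, rfl⟩

theorem isIm_ali (M N P : Bim S) : IsIm (α_ M N P).inv (α_ M.X N.X P.X).inv :=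
  ⟨Bim.ali_hl M N P, Bim.ali_hr M N P, rfl⟩

theorem isIm_la (M : Bim S) : IsIm (λ_ M).hom M.l := ⟨Bim.la_hl M, Bim.la_hr M, rfl⟩

theorem isIm_ra (M : Bim S) : IsIm (ρ_ M).hom M.r := ⟨Bim.ra_hl M, Bim.ra_hr M, rfl⟩

theorem isIm_lai (M : Bim S) : IsIm (λ_ M).inv M.sL := ⟨Bim.li_hl M, Bim.li_hr M, rfl⟩

theorem isIm_rai (M : Bim S) : IsIm (ρ_ M).inv M.sR := ⟨Bim.ri_hl M, Bim.ri_hr M, rfl⟩

end

variable {C : Type u} [Category.{v} C] [MonoidalCategory C] {D : Type u'} [Category.{v'} D] [MonoidalCategory D]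
  {R : D ⥤ C} [R.LaxMonoidal] {S : SFrob C}

theorem AlgTo.isIm_mu (φ : AlgTo S R) (Z W : D) : IsIm (φ.mu Z W) (μ R Z W) := isIm_hom (φ.mu Z W)

theorem AlgTo.isIm_ep (φ : AlgTo S R) : IsIm φ.ep φ.f := isIm_hom φ.ep

theorem AlgTo.isIm_map (φ : AlgTo S R) {Z W : D} (f : Z ⟶ W) : IsIm (φ.LBf.map f) (R.map f) := isIm_hom (φ.LBf.map f)

/-- the lax monoidal structure -/
@[instance_reducible]
def AlgTo.lax (φ : AlgTo S R) : φ.LBf.LaxMonoidal where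
  ε := φ.ep
  μ := φ.mu
  μ_natural_left f W := (((φ.isIm_map f).wR (φ.LB W)).comp (φ.isIm_mu _ W)).eq
    ((φ.isIm_mu _ W).comp (φ.isIm_map (f ▷ W))) (μ_natural_left R f W)
  μ_natural_right Z f := ((IsIm.wL (φ.LB Z) (φ.isIm_map f)).comp (φ.isIm_mu Z _)).eq
    ((φ.isIm_mu Z _).comp (φ.isIm_map (Z ◁ f))) (μ_natural_right R Z f)
  associativity X Y Z := (((φ.isIm_mu X Y).wR (φ.LB Z)).comp ((φ.isIm_mu (X ⊗ Y) Z).comp
    (φ.isIm_map (α_ X Y Z).hom))).eq ((isIm_al (φ.LB X) (φ.LB Y) (φ.LB Z)).comp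
      ((IsIm.wL (φ.LB X) (φ.isIm_mu Y Z)).comp (φ.isIm_mu X (Y ⊗ Z)))) (associativity R X Y Z)
  left_unitality X := (isIm_la (φ.LB X)).eq ((φ.isIm_ep.wR (φ.LB X)).comp ((φ.isIm_mu (𝟙_ D) X).comp
    (φ.isIm_map (λ_ X).hom))) rfl
  right_unitality X := (isIm_ra (φ.LB X)).eq ((IsIm.wL (φ.LB X) φ.isIm_ep).comp ((φ.isIm_mu X (𝟙_ D)).comp
    (φ.isIm_map (ρ_ X).hom))) rfl

/-- the monoidal structure -/
@[instance_reducible]
def AlgTo.mon (φ : AlgTo S R) (h1 : IsIso φ.f) (h2 : ∀ Z W, IsIso (φ.mu Z W)) : φ.LBf.Monoidal :=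
  letI := φ.lax
  haveI : IsIso (ε φ.LBf) := φ.ep_iso h1
  haveI : ∀ X Y, IsIso (μ φ.LBf X Y) := h2
  Functor.Monoidal.ofLaxMonoidal φ.LBf

end Pool.Agent.SFC
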