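import Pool.Agent.SFC.AMop
import Pool.Agent.SFC.E1i
import Pool.Agent.SFC.E2i
import Pool.Agent.SFC.E2k
import Pool.Agent.SFC.E2l
import Mathlib.RingTheory.RootsOfUnity.EnoughRootsOfUnity

/-!
# SFC/E2m: the category of bimodules over `A = ⨁ T a` is graded by `ZMod n` with trivial component `D`
-/

set_option autoImplicit false

noncomputable section

open CategoryTheory MonoidalCategory

namespace Pool.Agent.SFC

open Pool.Agent.NFG

universe v u v' u' w

/-- E2 -/
theorem deq_ext {K : Type w} [Field K] {C : Type u} [Category.{v} C] [Preadditive C] [Linear K C] [MonoidalCategory C]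
    [MonoidalPreadditive C] [MonoidalLinear K C] {D : Type u'} [Category.{v'} D] [Preadditive D] [Linear K D]
    [MonoidalCategory D] [MonoidalPreadditive D] [MonoidalLinear K D] [IsAlgClosed K] [CharZero K]
    [IsIdempotentComplete C] [IsIdempotentComplete D] {F : C ⥤ D} [F.Monoidal] {n : ℕ} [NeZero n]
    (Q : DeEq K F n) {S : SFrob C} (hS : IsSum K Q.th S) {ι : Type} [Fintype ι] [DecidableEq ι]
    (FN : Fus K (Bim S) ι) : ∃ (G' : D ⥤ Bim S) (_ : G'.Monoidal) (deg : ι → Multiplicative (ZMod n)),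
      IsExt K G' FN (Multiplicative (ZMod n)) deg := by
  obtain ⟨R, ⟨adj⟩⟩ := Q.exists_adj hS
  letI := adj.rightAdjointLaxMonoidal
  obtain ⟨φ, hφ, hiso⟩ := Q.exists_phi hS adj
  letI := φ.mon hiso (Q.mu_iso hS adj φ hφ)
  have hn : (n : K) ≠ 0 := Nat.cast_ne_zero.2 (NeZero.ne n)
  haveI : NeZero (n : K) := ⟨hn⟩
  obtain ⟨ζ, hζ⟩ := HasEnoughRootsOfUnity.exists_primitiveRoot K n
  have h0 : 𝟙 S.A ≠ 0 := by
    intro h
    apply fus_one_ne FN
    apply Bim.hom_ext
    exact (Bim.unt_p S).trans h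
  exact ⟨φ.LBf, inferInstance, Q.ext_of hS adj φ hφ hζ h0 (fun M N a => Q.rho_ten hS M N a) FN⟩

end Pool.Agent.SFC
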