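import Pool.Agent.SFC.E1b

/-!
# SFC/E2w: the weight decomposition of a de-equivariantization

`Q.kap a y := δ F _ _ ≫ (t a).hom ▷ F.obj y ≫ (λ_ _).hom : F (T a ⊗ y) ⟶ F y`, an isomorphism.  `Q.W a x y` is the space of the `F.map f ≫ kap a y`, `f : x ⟶ T a ⊗ y`.
`kap_zero`: `F.map f = F.map (f ≫ (λ_ y).inv ≫ u.hom ▷ y) ≫ kap 0 y` (`Q.t_one`, left unitality of `F`).
`kap_kap`: `kap a (T b ⊗ y) ≫ kap b y = F.map ((α_ _ _ _).inv ≫ (m a b c h).hom ▷ y) ≫ kap c y` (`Q.t_mul`, associativity of `F`).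
`kap_nat`: `kap a x ≫ F.map g = F.map (T a ◁ g) ≫ kap a y`.
`comp`: `F.map f ≫ kap a y ≫ F.map g ≫ kap b z = F.map (f ≫ T a ◁ g) ≫ kap a (T b ⊗ z) ≫ kap b z`; `kap_kap`.
`ten`: it is enough to treat `h ⊗ₘ 𝟙` and `𝟙 ⊗ₘ h'` (then `comp`): `δ ≫ (kap a y ▷ F y') ≫ μ = F.map (α_ _ _ _).hom ≫ kap a (y ⊗ y')`, and
`δ ≫ (F y ◁ kap b y') ≫ μ = F.map ((α_ _ _ _).inv ≫ (cen b y).hom ▷ y' ≫ (α_ _ _ _).hom) ≫ kap b (y ⊗ y')` (`Q.F_cen`).
`lift`: for `h = F.map f ≫ kap 0 y` take `f ≫ u.inv ▷ y ≫ (λ_ y).hom`; uniqueness: `F.map g = F.map (g ≫ (λ_ y).inv ≫ u.hom ▷ y) ≫ kap 0 y`, and the uniqueness in `Q.hom` (the family concentrated in `0`).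
`dec`: existence in `Q.hom`.  `uniq`: uniqueness in `Q.hom`, compared with the zero family.
`τ_mem`: `(t a).hom ≫ ε F = F.map (ρ_ (T a)).inv ≫ kap a (𝟙_ C)`.
-/

set_option autoImplicit false
set_option linter.unusedSectionVars false

noncomputable section

open CategoryTheory MonoidalCategory
open scoped BigOperators

namespace Pool.Agent.SFC

universe v u v' u' w

open Functor.LaxMonoidal Functor.OplaxMonoidal

variable {K : Type w} [Field K] {C : Type u} [Category.{v} C] [Preadditive C] [Linear K C] [MonoidalCategory C]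
  [MonoidalPreadditive C] [MonoidalLinear K C]
  {D : Type u'} [Category.{v'} D] [Preadditive D] [Linear K D] [MonoidalCategory D] [MonoidalPreadditive D]
  [MonoidalLinear K D] {F : C ⥤ D} [F.Monoidal] {n : ℕ} [NeZero n]

/-- `F (T a ⊗ y) ⟶ F y` -/
def DeEq.kap (Q : DeEq K F n) (a : ZMod n) (y : C) : F.obj (Q.th.T a ⊗ y) ⟶ F.obj y :=
  δ F _ _ ≫ (Q.t a).hom ▷ F.obj y ≫ (λ_ _).hom

private theorem E2w_c1 {D : Type u'} [Category.{v'} D] [MonoidalCategory D] {A B : D} (Y : D) (t : A ⟶ 𝟙_ D)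
    (s : B ⟶ 𝟙_ D) : t ▷ (B ⊗ Y) ≫ (λ_ (B ⊗ Y)).hom ≫ s ▷ Y =
      (α_ A B Y).inv ≫ ((t ⊗ₘ s) ≫ (λ_ _).hom) ▷ Y := by
  rw [MonoidalCategory.tensorHom_def]
  simp

private theorem E2w_c2 {D : Type u'} [Category.{v'} D] [MonoidalCategory D] {A : D} (Y Z : D) (t : A ⟶ 𝟙_ D) :
    (t ▷ Y) ▷ Z ≫ (λ_ Y).hom ▷ Z = (α_ _ _ _).hom ≫ t ▷ (Y ⊗ Z) ≫ (λ_ (Y ⊗ Z)).hom := by
  simp

private theorem E2w_c3 {D : Type u'} [Category.{v'} D] [MonoidalCategory D] {A : D} (Z Y : D) (t : A ⟶ 𝟙_ D) :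
    (Z ◁ t) ▷ Y ≫ (ρ_ Z).hom ▷ Y = (α_ _ _ _).hom ≫ Z ◁ (t ▷ Y ≫ (λ_ Y).hom) := by
  simp

theorem DeEq.kap_zero (Q : DeEq K F n) {x y : C} (f : x ⟶ y) :
    F.map f = F.map (f ≫ (λ_ y).inv ≫ Q.th.u.hom ▷ y) ≫ Q.kap 0 y := by
  have h1 : F.map (Q.th.u.hom ▷ y) ≫ Q.kap 0 y = F.map (λ_ y).hom := by
    unfold DeEq.kap
    rw [← δ_natural_left_assoc, ← comp_whiskerRight_assoc, Q.t_one, left_unitality_hom]
  rw [F.map_comp, F.map_comp, Category.assoc, Category.assoc, h1, ← F.map_comp, Iso.inv_hom_id, F.map_id,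
    Category.comp_id]

theorem DeEq.kap_kap (Q : DeEq K F n) {a b c : ZMod n} (h : a + b = c) (y : C) :
    Q.kap a (Q.th.T b ⊗ y) ≫ Q.kap b y = F.map ((α_ _ _ _).inv ≫ (Q.th.m a b c h).hom ▷ y) ≫ Q.kap c y := by
  have h1 : (Q.t a).hom ▷ F.obj (Q.th.T b ⊗ y) ≫ (λ_ _).hom ≫ δ F (Q.th.T b) y =
      F.obj (Q.th.T a) ◁ δ F (Q.th.T b) y ≫ (Q.t a).hom ▷ (F.obj (Q.th.T b) ⊗ F.obj y) ≫ (λ_ _).hom := by
    rw [← leftUnitor_naturality, ← whisker_exchange_assoc]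
  have h2 : (Q.t a).hom ▷ (F.obj (Q.th.T b) ⊗ F.obj y) ≫ (λ_ (F.obj (Q.th.T b) ⊗ F.obj y)).hom ≫
      (Q.t b).hom ▷ F.obj y = (α_ _ _ _).inv ≫ (((Q.t a).hom ⊗ₘ (Q.t b).hom) ≫ (λ_ _).hom) ▷ F.obj y :=
    E2w_c1 _ _ _
  unfold DeEq.kap
  simp only [Category.assoc]
  rw [reassoc_of% h1, reassoc_of% h2, Functor.OplaxMonoidal.associativity_inv_assoc, F.map_comp, Category.assoc,
    ← δ_natural_left_assoc, ← comp_whiskerRight_assoc, ← comp_whiskerRight_assoc, Q.t_mul]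

theorem DeEq.kap_nat (Q : DeEq K F n) (a : ZMod n) {x y : C} (g : x ⟶ y) :
    Q.kap a x ≫ F.map g = F.map (Q.th.T a ◁ g) ≫ Q.kap a y := by
  unfold DeEq.kap
  rw [Category.assoc, Category.assoc, ← leftUnitor_naturality, ← whisker_exchange_assoc, δ_natural_right_assoc]

/-- the morphisms of weight `a` -/
def DeEq.W (Q : DeEq K F n) (a : ZMod n) (x y : C) : Submodule K (F.obj x ⟶ F.obj y) where
  carrier := {h | ∃ f : x ⟶ Q.th.T a ⊗ y, h = F.map f ≫ Q.kap a y}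
  add_mem' := by
    rintro _ _ ⟨f, rfl⟩ ⟨g, rfl⟩
    exact ⟨f + g, by rw [Q.map_add, Preadditive.add_comp]⟩
  zero_mem' := ⟨0, by
    have h : F.map (0 : x ⟶ Q.th.T a ⊗ y) = 0 := by
      have := Q.map_smul (0 : K) (0 : x ⟶ Q.th.T a ⊗ y)
      rwa [zero_smul, zero_smul] at this
    rw [h, Limits.zero_comp]⟩
  smul_mem' := by
    rintro c _ ⟨f, rfl⟩
    exact ⟨c • f, by rw [Q.map_smul, Linear.smul_comp]⟩

theorem DeEq.W_comp (Q : DeEq K F n) {a b c : ZMod n} (e : a + b = c) {x y z : C} {f : F.obj x ⟶ F.obj y}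
    {g : F.obj y ⟶ F.obj z} (hf : f ∈ Q.W a x y) (hg : g ∈ Q.W b y z) : f ≫ g ∈ Q.W c x z := by
  obtain ⟨f0, rfl⟩ := hf
  obtain ⟨g0, rfl⟩ := hg
  refine ⟨f0 ≫ Q.th.T a ◁ g0 ≫ (α_ _ _ _).inv ≫ (Q.th.m a b c e).hom ▷ z, ?_⟩
  rw [Category.assoc, reassoc_of% (Q.kap_nat a g0), Q.kap_kap e]
  simp only [F.map_comp, Category.assoc]

private theorem E2w_left (Q : DeEq K F n) (a : ZMod n) (y z : C) :
    δ F (Q.th.T a ⊗ y) z ≫ Q.kap a y ▷ F.obj z ≫ μ F y z = F.map (α_ _ _ _).hom ≫ Q.kap a (y ⊗ z) := by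
  have h1 : (Q.t a).hom ▷ (F.obj y ⊗ F.obj z) ≫ (λ_ (F.obj y ⊗ F.obj z)).hom ≫ μ F y z =
      F.obj (Q.th.T a) ◁ μ F y z ≫ (Q.t a).hom ▷ F.obj (y ⊗ z) ≫ (λ_ _).hom := by
    rw [← leftUnitor_naturality, ← whisker_exchange_assoc]
  have h2 : ((Q.t a).hom ▷ F.obj y) ▷ F.obj z ≫ (λ_ (F.obj y)).hom ▷ F.obj z =
      (α_ _ _ _).hom ≫ (Q.t a).hom ▷ (F.obj y ⊗ F.obj z) ≫ (λ_ (F.obj y ⊗ F.obj z)).hom :=
    E2w_c2 _ _ _
  unfold DeEq.kap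
  rw [comp_whiskerRight, comp_whiskerRight, Category.assoc, Category.assoc, reassoc_of% h2, h1,
    Functor.OplaxMonoidal.associativity_assoc, Functor.Monoidal.whiskerLeft_δ_μ_assoc]

private theorem E2w_right (Q : DeEq K F n) (a : ZMod n) (z y : C) :
    δ F z (Q.th.T a ⊗ y) ≫ F.obj z ◁ Q.kap a y ≫ μ F z y =
      F.map ((α_ _ _ _).inv ≫ (Q.cen a z).hom ▷ y ≫ (α_ _ _ _).hom) ≫ Q.kap a (z ⊗ y) := by
  have h1 : F.map (Q.cen a z).hom ≫ Q.kap a z = δ F _ _ ≫ F.obj z ◁ (Q.t a).hom ≫ (ρ_ _).hom := by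
    unfold DeEq.kap
    rw [Q.F_cen]
    simp only [Category.assoc, Functor.Monoidal.μ_δ_assoc]
    rw [← comp_whiskerRight_assoc, Iso.inv_hom_id, id_whiskerRight, Category.id_comp, Iso.inv_hom_id,
      Category.comp_id]
  have h2 : (F.obj z ◁ (Q.t a).hom) ▷ F.obj y ≫ (ρ_ (F.obj z)).hom ▷ F.obj y =
      (α_ _ _ _).hom ≫ F.obj z ◁ ((Q.t a).hom ▷ F.obj y ≫ (λ_ _).hom) :=
    E2w_c3 _ _ _
  rw [F.map_comp, F.map_comp, Category.assoc, Category.assoc, ← E2w_left, ← δ_natural_left_assoc,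
    ← comp_whiskerRight_assoc, h1, comp_whiskerRight, comp_whiskerRight, Category.assoc, Category.assoc,
    reassoc_of% h2, ← Functor.OplaxMonoidal.associativity_inv_assoc, Iso.inv_hom_id_assoc, ← MonoidalCategory.whiskerLeft_comp_assoc]
  rfl

theorem DeEq.W_left (Q : DeEq K F n) {a : ZMod n} {x y : C} {f : F.obj x ⟶ F.obj y} (hf : f ∈ Q.W a x y) (z : C) :
    δ F x z ≫ f ▷ F.obj z ≫ μ F y z ∈ Q.W a (x ⊗ z) (y ⊗ z) := by
  obtain ⟨f0, rfl⟩ := hf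
  refine ⟨f0 ▷ z ≫ (α_ _ _ _).hom, ?_⟩
  rw [comp_whiskerRight, Category.assoc, δ_natural_left_assoc, E2w_left, F.map_comp, Category.assoc]

theorem DeEq.W_right (Q : DeEq K F n) {a : ZMod n} {x y : C} {f : F.obj x ⟶ F.obj y} (hf : f ∈ Q.W a x y) (z : C) :
    δ F z x ≫ F.obj z ◁ f ≫ μ F z y ∈ Q.W a (z ⊗ x) (z ⊗ y) := by
  obtain ⟨f0, rfl⟩ := hf
  refine ⟨z ◁ f0 ≫ (α_ _ _ _).inv ≫ (Q.cen a z).hom ▷ y ≫ (α_ _ _ _).hom, ?_⟩
  rw [MonoidalCategory.whiskerLeft_comp, Category.assoc, δ_natural_right_assoc, E2w_right]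
  simp only [F.map_comp, Category.assoc]

theorem DeEq.W_ten (Q : DeEq K F n) {a b c : ZMod n} (e : a + b = c) {x y x' y' : C} {f : F.obj x ⟶ F.obj y}
    {f' : F.obj x' ⟶ F.obj y'} (hf : f ∈ Q.W a x y) (hf' : f' ∈ Q.W b x' y') :
    δ F x x' ≫ (f ⊗ₘ f') ≫ μ F y y' ∈ Q.W c (x ⊗ x') (y ⊗ y') := by
  have h := Q.W_comp e (Q.W_left hf x') (Q.W_right hf' y)
  have h1 : (δ F x x' ≫ f ▷ F.obj x' ≫ μ F y x') ≫ δ F y x' ≫ F.obj y ◁ f' ≫ μ F y y' =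
      δ F x x' ≫ (f ⊗ₘ f') ≫ μ F y y' := by
    simp only [Category.assoc, Functor.Monoidal.μ_δ_assoc]
    rw [MonoidalCategory.tensorHom_def, Category.assoc]
  rwa [h1] at h

private theorem E2w_zero (Q : DeEq K F n) (x y : C) : F.map (0 : x ⟶ y) = 0 := by
  have := Q.map_smul (0 : K) (0 : x ⟶ y)
  rwa [zero_smul, zero_smul] at this

private theorem E2w_sum (Q : DeEq K F n) {x y : C} (a : ZMod n) (f : x ⟶ Q.th.T a ⊗ y) :
    F.map f ≫ Q.kap a y = ∑ b, F.map ((Pi.single a f : ∀ b, x ⟶ Q.th.T b ⊗ y) b) ≫ δ F _ _ ≫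
      (Q.t b).hom ▷ F.obj y ≫ (λ_ _).hom := by
  rw [Finset.sum_eq_single a]
  · rw [Pi.single_eq_same]
    rfl
  · intro b _ hb
    rw [Pi.single_eq_of_ne hb, E2w_zero Q, Limits.zero_comp]
  · intro h
    exact absurd (Finset.mem_univ a) h

private theorem E2w_inj (Q : DeEq K F n) {x y : C} {a : ZMod n} {f g : x ⟶ Q.th.T a ⊗ y}
    (h : F.map f ≫ Q.kap a y = F.map g ≫ Q.kap a y) : f = g := by
  obtain ⟨k, -, hk⟩ := Q.hom x y (F.map f ≫ Q.kap a y)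
  have h1 := hk (Pi.single a f) (E2w_sum Q a f)
  have h2 := hk (Pi.single a g) (by rw [h]; exact E2w_sum Q a g)
  exact Pi.single_injective a (h1.trans h2.symm)

theorem DeEq.W_lift (Q : DeEq K F n) {x y : C} (h : F.obj x ⟶ F.obj y) (hh : h ∈ Q.W 0 x y) :
    ∃! f : x ⟶ y, F.map f = h := by
  obtain ⟨f, rfl⟩ := hh
  refine ⟨f ≫ Q.th.u.inv ▷ y ≫ (λ_ y).hom, ?_, fun g hg => ?_⟩
  · show F.map (f ≫ Q.th.u.inv ▷ y ≫ (λ_ y).hom) = _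
    rw [Q.kap_zero]
    have h1 : (f ≫ Q.th.u.inv ▷ y ≫ (λ_ y).hom) ≫ (λ_ y).inv ≫ Q.th.u.hom ▷ y = f := by
      simp only [Category.assoc, Iso.hom_inv_id_assoc]
      rw [← comp_whiskerRight, Iso.inv_hom_id, id_whiskerRight, Category.comp_id]
    rw [h1]
  · have hg' : F.map g = F.map f ≫ Q.kap 0 y := hg
    rw [Q.kap_zero] at hg'
    rw [← E2w_inj Q hg']
    simp only [Category.assoc]
    rw [← comp_whiskerRight_assoc, Iso.hom_inv_id, id_whiskerRight, Category.id_comp, Iso.inv_hom_id,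
      Category.comp_id]

theorem DeEq.W_dec (Q : DeEq K F n) {x y : C} (h : F.obj x ⟶ F.obj y) :
    ∃ k : ZMod n → (F.obj x ⟶ F.obj y), (∀ a, k a ∈ Q.W a x y) ∧ ∑ a, k a = h := by
  obtain ⟨f, hf, -⟩ := Q.hom x y h
  exact ⟨fun a => F.map (f a) ≫ Q.kap a y, fun a => ⟨f a, rfl⟩, hf.symm⟩

theorem DeEq.W_uniq (Q : DeEq K F n) {x y : C} (k : ZMod n → (F.obj x ⟶ F.obj y)) (hk : ∀ a, k a ∈ Q.W a x y)
    (h : ∑ a, k a = 0) (a : ZMod n) : k a = 0 := by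
  choose f hf using hk
  obtain ⟨g, -, hg⟩ := Q.hom x y 0
  have h1 := hg f (by rw [← h]; exact Finset.sum_congr rfl fun b _ => hf b)
  have h2 := hg (fun _ => 0)
    (Finset.sum_eq_zero fun b _ => by rw [E2w_zero Q, Limits.zero_comp]).symm
  rw [hf a, h1, ← h2, E2w_zero Q, Limits.zero_comp]

theorem DeEq.τ_mem (Q : DeEq K F n) (a : ZMod n) : (Q.t a).hom ≫ ε F ∈ Q.W a (Q.th.T a) (𝟙_ C) := by
  refine ⟨(ρ_ (Q.th.T a)).inv, ?_⟩
  have h1 : F.map (ρ_ (Q.th.T a)).inv ≫ δ F (Q.th.T a) (𝟙_ C) =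
      (ρ_ (F.obj (Q.th.T a))).inv ≫ F.obj (Q.th.T a) ◁ ε F := by
    rw [Functor.OplaxMonoidal.right_unitality]
    simp only [Category.assoc]
    rw [← MonoidalCategory.whiskerLeft_comp, Functor.Monoidal.η_ε, MonoidalCategory.whiskerLeft_id,
      Category.comp_id]
  unfold DeEq.kap
  rw [reassoc_of% h1, whisker_exchange_assoc, leftUnitor_naturality, ← rightUnitor_inv_naturality_assoc,
    unitors_equal, Iso.inv_hom_id_assoc]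

/-- the weight decomposition of a de-equivariantization -/
def DeEq.wts (Q : DeEq K F n) : Wts K F n where
  map_add := Q.map_add
  map_smul := Q.map_smul
  W := Q.W
  comp := Q.W_comp
  ten := Q.W_ten
  map f := ⟨_, Q.kap_zero f⟩
  lift := Q.W_lift
  dec := Q.W_dec
  uniq := Q.W_uniq
  T := Q.th.T
  τ a := Q.t a ≪≫ Functor.Monoidal.εIso F
  τ_mem := Q.τ_mem
  dom := Q.dom

theorem DeEq.faithful (Q : DeEq K F n) {x y : C} {f g : x ⟶ y} (h : F.map f = F.map g) : f = g := Q.wts.faithful h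

end Pool.Agent.SFC
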