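import Pool.Agent.SFC.E1b

/-!
# SFC/E3a: cocycles, homogeneous isomorphisms

`cobound`: `k a := n⁻¹ * ∑ b, w a b`.  Sum the cocycle identity over `c`: `n * w a b + ∑ c, w (a + b) c = ∑ c, w b c + ∑ c, w a (b + c)`, and `∑ c, w a (b + c) = ∑ c, w a c` (`Equiv.addLeft`).
`homog`: `f.hom = ∑ a, k a` (`Wt.dec`); `k a ≫ f.inv = c a • 𝟙`, so `k a = c a • f.hom`.  If all `c a` are zero then `f.hom = 0` has weight `0`; otherwise `f.hom = (c a)⁻¹ • k a` has weight `a`.
`weight_unique`: `Wts.disj`, and `f.hom ≠ 0` because `𝟙 ≠ 0`.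
-/

set_option autoImplicit false

noncomputable section

open CategoryTheory MonoidalCategory
open scoped BigOperators

namespace Pool.Agent.SFC

universe v u v' u' w

theorem cobound {n p : ℕ} [NeZero n] (hn : IsUnit (n : ZMod p)) (w : ZMod n → ZMod n → ZMod p)
    (hw : ∀ a b c, w a b + w (a + b) c = w b c + w a (b + c)) :
    ∃ k : ZMod n → ZMod p, ∀ a b, w a b = k a + k b - k (a + b) := by
  obtain ⟨u, hu⟩ := hn
  refine ⟨fun a => (↑u⁻¹ : ZMod p) * ∑ b, w a b, fun a b => ?_⟩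
  have h1 : ∑ c, (w a b + w (a + b) c) = ∑ c, (w b c + w a (b + c)) :=
    Finset.sum_congr rfl fun c _ => hw a b c
  have h2 : ∑ c, w a (b + c) = ∑ c, w a c := Equiv.sum_comp (Equiv.addLeft b) (fun c => w a c)
  rw [Finset.sum_add_distrib, Finset.sum_add_distrib, h2, Finset.sum_const, Finset.card_univ, ZMod.card,
    nsmul_eq_mul, ← hu] at h1
  have h3 : w a b = (↑u⁻¹ : ZMod p) * ((u : ZMod p) * w a b) := by rw [Units.inv_mul_cancel_left]
  have h4 : (u : ZMod p) * w a b = ∑ c, w b c + ∑ c, w a c - ∑ c, w (a + b) c := by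
    rw [← h1]
    ring
  rw [h3, h4]
  ring

variable {K : Type w} [Field K] {C : Type u} [Category.{v} C] [Preadditive C] [Linear K C] [MonoidalCategory C]
  {D : Type u'} [Category.{v'} D] [Preadditive D] [Linear K D] [MonoidalCategory D] {F : C ⥤ D} [F.Monoidal] {p : ℕ}
  [NeZero p]

theorem Wts.homog (Wt : Wts K F p) {x y : C} (h : ∀ f : F.obj x ⟶ F.obj x, ∃ c : K, f = c • 𝟙 _)
    (f : F.obj x ≅ F.obj y) : ∃ a, f.hom ∈ Wt.W a x y := by
  obtain ⟨k, hk, hs⟩ := Wt.dec f.hom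
  have h1 : ∀ a, ∃ c : K, k a = c • f.hom := by
    intro a
    obtain ⟨c, hc⟩ := h (k a ≫ f.inv)
    refine ⟨c, ?_⟩
    rw [← cancel_mono f.inv, hc, Linear.smul_comp, Iso.hom_inv_id]
  choose c hc using h1
  by_cases h0 : ∃ a, c a ≠ 0
  · obtain ⟨a, ha⟩ := h0
    refine ⟨a, ?_⟩
    have h2 : f.hom = (c a)⁻¹ • k a := by
      rw [hc a, smul_smul, inv_mul_cancel₀ ha, one_smul]
    rw [h2]
    exact Submodule.smul_mem _ _ (hk a)
  · push Not at h0
    refine ⟨0, ?_⟩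
    have h2 : f.hom = 0 := by
      rw [← hs]
      refine Finset.sum_eq_zero fun a _ => ?_
      rw [hc a, h0 a, zero_smul]
    rw [h2]
    exact Submodule.zero_mem _

theorem Wts.weight_unique (Wt : Wts K F p) {x y : C} (h : 𝟙 (F.obj x) ≠ 0) (f : F.obj x ≅ F.obj y) {a b : ZMod p}
    (ha : f.hom ∈ Wt.W a x y) (hb : f.hom ∈ Wt.W b x y) : a = b := by
  by_contra hab
  apply h
  rw [← f.hom_inv_id, Wt.disj hab ha hb, Limits.zero_comp]

end Pool.Agent.SFC
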