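import Pool.Agent.SFC.E2w
import Pool.Agent.SFC.BGa

/-!
# SFC/E3b: group-like objects of `D` come from simple objects of `C`

`gl_end`: the objects `T a` have only scalar endomorphisms.  `gl_ne`: they are not zero.  `exists_s0`: each `T a` is
isomorphic to some `F (S k)`.
-/

set_option autoImplicit false

noncomputable section

open CategoryTheory MonoidalCategory
open scoped BigOperators

namespace Pool.Agent.SFC

open Pool.Agent.NFG

universe v u v' u' w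

variable {K : Type w} [Field K] {C : Type u} [Category.{v} C] [Preadditive C] [Linear K C] [MonoidalCategory C]
  [MonoidalPreadditive C] [MonoidalLinear K C] {D : Type u'} [Category.{v'} D] [Preadditive D] [Linear K D]
  [MonoidalCategory D] [MonoidalPreadditive D] [MonoidalLinear K D] {F : C ⥤ D} [F.Monoidal] {p : ℕ} [NeZero p]
  {n : ℕ} [NeZero n]

/-- the isomorphism `𝟙 ≅ T a ⊗ T b` for `a + b = 0` -/
private def E3b_e (th : Gl D n) (a b : ZMod n) (h : a + b = 0) : 𝟙_ D ≅ th.T a ⊗ th.T b :=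
  th.u ≪≫ (th.m a b 0 h).symm

omit [MonoidalCategory D] [MonoidalPreadditive D] [MonoidalLinear K D] in
private theorem E3b_conj {X Y : D} (e : X ≅ Y) (f : Y ⟶ Y) (c : K) (h : e.hom ≫ f ≫ e.inv = c • 𝟙 X) : f = c • 𝟙 Y := by
  have h1 : f = e.inv ≫ (e.hom ≫ f ≫ e.inv) ≫ e.hom := by simp
  rw [h1, h]
  simp

theorem gl_end (th : Gl D n) (h1 : ∀ f : 𝟙_ D ⟶ 𝟙_ D, ∃ c : K, f = c • 𝟙 _) (a : ZMod n) (f : th.T a ⟶ th.T a) :
    ∃ c : K, f = c • 𝟙 _ := by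
  have ha : a + -a = 0 := add_neg_cancel a
  have ha' : -a + a = 0 := neg_add_cancel a
  obtain ⟨c, hc⟩ := h1 ((E3b_e th a (-a) ha).hom ≫ f ▷ th.T (-a) ≫ (E3b_e th a (-a) ha).inv)
  refine ⟨c, ?_⟩
  have h2 : f ▷ th.T (-a) = c • 𝟙 (th.T a ⊗ th.T (-a)) := E3b_conj _ _ c hc
  have h3 : f ▷ (th.T (-a) ⊗ th.T a) = c • 𝟙 (th.T a ⊗ (th.T (-a) ⊗ th.T a)) := by
    refine E3b_conj (α_ (th.T a) (th.T (-a)) (th.T a)) _ c ?_
    rw [← associator_naturality_left_assoc, h2, MonoidalLinear.smul_whiskerRight]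
    simp
  have h4 : f ▷ (𝟙_ D) = c • 𝟙 (th.T a ⊗ 𝟙_ D) := by
    refine E3b_conj (whiskerLeftIso (th.T a) (E3b_e th (-a) a ha').symm) _ c ?_
    have h5 := whisker_exchange f (E3b_e th (-a) a ha').inv
    simp only [whiskerLeftIso_hom, whiskerLeftIso_inv, Iso.symm_hom, Iso.symm_inv]
    rw [reassoc_of% h5, h3, ← whiskerLeft_comp, Iso.inv_hom_id]
    simp
  refine E3b_conj (ρ_ (th.T a)) _ c ?_
  rw [← whiskerRight_id, h4]

theorem gl_ne (th : Gl D n) (h0 : 𝟙 (𝟙_ D) ≠ 0) (a : ZMod n) : 𝟙 (th.T a) ≠ 0 := by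
  intro h
  have ha : a + -a = 0 := add_neg_cancel a
  have h1 : 𝟙 (th.T a ⊗ th.T (-a)) = 0 := by
    rw [← id_whiskerRight, h, MonoidalPreadditive.zero_whiskerRight]
  apply h0
  rw [← (E3b_e th a (-a) ha).hom_inv_id, ← Category.comp_id (E3b_e th a (-a) ha).hom, h1]
  simp

theorem exists_s0 {ιC : Type} [Fintype ιC] [DecidableEq ιC] (FC : Fus K C ιC) (Q : DeEq K F p)
    (hF : ∀ i, Smp K (F.obj (FC.S i))) (th : Gl D n) (h1 : ∀ f : 𝟙_ D ⟶ 𝟙_ D, ∃ c : K, f = c • 𝟙 _)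
    (h0 : 𝟙 (𝟙_ D) ≠ 0) (a : ZMod n) : ∃ x : C, Nonempty (F.obj x ≅ th.T a) := by
  classical
  obtain ⟨y, i, q, hiq⟩ := Q.dom (th.T a)
  obtain ⟨m, k, r, j, -, -, hsum⟩ := FC.dec y
  have h2 : F.map (𝟙 y) = ∑ b, F.map (r b) ≫ F.map (j b) := by
    rw [← hsum]
    refine (map_sum (AddMonoidHom.mk' (fun g : y ⟶ y => F.map g) (fun g h => Q.map_add g h)) _ _).trans ?_
    exact Finset.sum_congr rfl fun b _ => F.map_comp _ _
  have h3 : 𝟙 (th.T a) = ∑ b, (i ≫ F.map (r b)) ≫ (F.map (j b) ≫ q) := by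
    rw [← hiq]
    conv_lhs => rw [← Category.id_comp q, ← F.map_id, h2, Preadditive.sum_comp, Preadditive.comp_sum]
    refine Finset.sum_congr rfl fun b _ => ?_
    simp only [Category.assoc]
  have h4 : ∃ b, (i ≫ F.map (r b)) ≫ (F.map (j b) ≫ q) ≠ 0 := by
    by_contra hcon
    push Not at hcon
    apply gl_ne th h0 a
    rw [h3]
    exact Finset.sum_eq_zero fun b _ => hcon b
  obtain ⟨b, hb⟩ := h4
  obtain ⟨c, hc⟩ := gl_end th h1 a ((i ≫ F.map (r b)) ≫ (F.map (j b) ≫ q))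
  have hc0 : c ≠ 0 := by
    rintro rfl
    apply hb
    rw [hc, zero_smul]
  have h5 : (i ≫ F.map (r b)) ≫ (c⁻¹ • (F.map (j b) ≫ q)) = 𝟙 (th.T a) := by
    rw [Linear.comp_smul, hc, smul_smul, inv_mul_cancel₀ hc0, one_smul]
  obtain ⟨d, hd⟩ := (hF (k b)).2 ((c⁻¹ • (F.map (j b) ≫ q)) ≫ (i ≫ F.map (r b)))
  have h6 : d • 𝟙 (th.T a) = 𝟙 (th.T a) := by
    have e1 : (i ≫ F.map (r b)) ≫ ((c⁻¹ • (F.map (j b) ≫ q)) ≫ (i ≫ F.map (r b))) ≫ (c⁻¹ • (F.map (j b) ≫ q)) =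
        𝟙 (th.T a) := by
      rw [Category.assoc (c⁻¹ • (F.map (j b) ≫ q)) (i ≫ F.map (r b)), h5, Category.comp_id, h5]
    rw [hd, Linear.smul_comp, Category.id_comp, Linear.comp_smul, h5] at e1
    exact e1
  have hd1 : d = 1 := by
    by_contra hne
    apply gl_ne th h0 a
    have h7 : (d - 1) • 𝟙 (th.T a) = 0 := by rw [sub_smul, h6, one_smul, sub_self]
    rw [← one_smul K (𝟙 (th.T a)), ← inv_mul_cancel₀ (sub_ne_zero.mpr hne), mul_smul, h7, smul_zero]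
  refine ⟨FC.S (k b), ⟨⟨c⁻¹ • (F.map (j b) ≫ q), i ≫ F.map (r b), ?_, h5⟩⟩⟩
  rw [hd, hd1, one_smul]

end Pool.Agent.SFC
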