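import Pool.Agent.SFC.E3a

/-!
# SFC/E3c: lifting group-like objects along a functor with a weight decomposition

`F : C ⥤ D` has weights in `ZMod p`, `n` is prime to `p`; `th : Gl D n`, `s a : F (x a) ≅ th.T a`.

`gis s a b c h : F (x a ⊗ x b) ≅ F (x c)` (`a + b = c`) is `δ ≫ (s a ⊗ₘ s b) ≫ th.m a b c h ≫ (s c).inv`.
`weights`: it is homogeneous (`Wt.homog`; the endomorphisms of `F (x a ⊗ x b) ≅ th.T (a + b)` are scalars), of a unique weight `w a b`.  Cocycle identity: by `th.assoc` and the monoidality of `F`,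
`(δ ≫ (g a b ⊗ₘ 𝟙) ≫ μ) ≫ g (a + b) c = F.map (α_ _ _ _).hom ≫ (δ ≫ (𝟙 ⊗ₘ g b c) ≫ μ) ≫ g a (b + c)`; the two sides have the weights `w a b + w (a + b) c` and `w b c + w a (b + c)` (`Wt.ten`, `Wt.id`, `Wt.map`, `Wt.comp`), and the
morphism is an isomorphism of nonzero objects (`Wt.weight_unique`).
`exists_s`: take `k` from `cobound`, `x' a := Wt.T (-k a) ⊗ x a`, `s' a := (δ ≫ (τ ⊗ₘ 𝟙) ≫ μ ≫ F.map (λ_ _).hom : F (x' a) ≅ F (x a)) ≫ s a`, of weight `-k a` before `s a`; so `gis s' a b c h` has the weight `-k a - k b + w a b + k c = 0`.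
`lift_gl`: `T a := x' a`, `m` with `F.map m.hom = gis s' a b c h` (`Wt.lift_iso`).  The unit: the isomorphism `v := η F ≫ th.u.hom ≫ (s' 0).inv : F 𝟙 ≅ F (x' 0)` is homogeneous of some weight `e`; `(δ ≫ (v ⊗ₘ 𝟙) ≫ μ) ≫ gis s' 0 0 0 _ = F.map (λ_ _).hom`
(`th.unitL`) shows `e = 0`.  `unitL`, `unitR`, `assoc` by `Wt.faithful` after composing with `s'`, from `th.unitL`, `th.unitR`, `th.assoc`.  `ne`: `F.map f ≫ s' a : F 𝟙 ≅ 𝟙 ⟶ th.T a` is zero by `th.ne`.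
-/

set_option autoImplicit false

noncomputable section

open CategoryTheory MonoidalCategory
open scoped BigOperators

namespace Pool.Agent.SFC

universe v u v' u' w

open Functor.LaxMonoidal Functor.OplaxMonoidal

variable {K : Type w} [Field K] {C : Type u} [Category.{v} C] [Preadditive C] [Linear K C] [MonoidalCategory C]
  {D : Type u'} [Category.{v'} D] [Preadditive D] [Linear K D] [MonoidalCategory D] [MonoidalPreadditive D]
  [MonoidalLinear K D] {F : C ⥤ D} [F.Monoidal] {p : ℕ} [NeZero p] {n : ℕ} [NeZero n]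

/-- `F (x a ⊗ x b) ≅ F (x c)` -/
def gis {th : Gl D n} {x : ZMod n → C} (s : ∀ a, F.obj (x a) ≅ th.T a) (a b c : ZMod n) (h : a + b = c) :
    F.obj (x a ⊗ x b) ≅ F.obj (x c) :=
  (Functor.Monoidal.μIso F _ _).symm ≪≫ (s a ⊗ᵢ s b) ≪≫ th.m a b c h ≪≫ (s c).symm

theorem gis_hom {th : Gl D n} {x : ZMod n → C} (s : ∀ a, F.obj (x a) ≅ th.T a) (a b c : ZMod n) (h : a + b = c) :
    (gis s a b c h).hom = δ F _ _ ≫ ((s a).hom ⊗ₘ (s b).hom) ≫ (th.m a b c h).hom ≫ (s c).inv := rfl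

section

omit [Preadditive D] [MonoidalPreadditive D] [Preadditive C]

/-- the tensor product of two morphisms between objects `F x` -/
private def E3c_P {C : Type u} [Category.{v} C] [MonoidalCategory C] {D : Type u'} [Category.{v'} D]
    [MonoidalCategory D] {F : C ⥤ D} [F.Monoidal] {x y x' y' : C} (f : F.obj x ⟶ F.obj y)
    (g : F.obj x' ⟶ F.obj y') : F.obj (x ⊗ x') ⟶ F.obj (y ⊗ y') := δ F x x' ≫ (f ⊗ₘ g) ≫ μ F y y'

private theorem E3c_P_comp {C : Type u} [Category.{v} C] [MonoidalCategory C] {D : Type u'} [Category.{v'} D]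
    [MonoidalCategory D] {F : C ⥤ D} [F.Monoidal] {x y z x' y' z' : C} (f : F.obj x ⟶ F.obj y)
    (f' : F.obj y ⟶ F.obj z) (g : F.obj x' ⟶ F.obj y') (g' : F.obj y' ⟶ F.obj z') :
    E3c_P (f ≫ f') (g ≫ g') = E3c_P f g ≫ E3c_P f' g' := by
  unfold E3c_P
  simp only [Category.assoc, Functor.Monoidal.μ_δ_assoc, tensorHom_comp_tensorHom_assoc]

private theorem E3c_P_map {C : Type u} [Category.{v} C] [MonoidalCategory C] {D : Type u'} [Category.{v'} D]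
    [MonoidalCategory D] {F : C ⥤ D} [F.Monoidal] {x y x' y' : C} (f : x ⟶ y) (g : x' ⟶ y') :
    F.map (f ⊗ₘ g) = E3c_P (F.map f) (F.map g) := by
  unfold E3c_P
  rw [Functor.Monoidal.map_tensor]

end

/-- `P g 𝟙 ≫ gis`, for arbitrary `g : F y ⟶ F (x a)` -/
private theorem E3c_left {th : Gl D n} {x : ZMod n → C} (s : ∀ a, F.obj (x a) ≅ th.T a) (a b c : ZMod n)
    (h : a + b = c) {y z : C} (g : F.obj y ⟶ F.obj (x a)) (g' : F.obj z ⟶ F.obj (x b)) :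
    E3c_P g g' ≫ (gis s a b c h).hom =
      δ F _ _ ≫ ((g ≫ (s a).hom) ⊗ₘ (g' ≫ (s b).hom)) ≫ (th.m a b c h).hom ≫ (s c).inv := by
  unfold E3c_P
  rw [gis_hom]
  simp only [Category.assoc, Functor.Monoidal.μ_δ_assoc, tensorHom_comp_tensorHom_assoc]

private theorem E3c_gis_s {th : Gl D n} {x : ZMod n → C} (s : ∀ a, F.obj (x a) ≅ th.T a) (a b c : ZMod n)
    (h : a + b = c) : (gis s a b c h).hom ≫ (s c).hom =
      δ F _ _ ≫ ((s a).hom ⊗ₘ (s b).hom) ≫ (th.m a b c h).hom := by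
  rw [gis_hom]
  simp

private theorem E3c_assoc {th : Gl D n} {x : ZMod n → C} (s : ∀ a, F.obj (x a) ≅ th.T a)
    (a b c ab bc abc : ZMod n) (h1 : a + b = ab) (h2 : ab + c = abc) (h3 : b + c = bc) (h4 : a + bc = abc) :
    E3c_P (gis s a b ab h1).hom (𝟙 (F.obj (x c))) ≫ (gis s ab c abc h2).hom =
      F.map (α_ (x a) (x b) (x c)).hom ≫ E3c_P (𝟙 (F.obj (x a))) (gis s b c bc h3).hom ≫
        (gis s a bc abc h4).hom := by
  rw [E3c_left, E3c_left, E3c_gis_s, E3c_gis_s, Category.id_comp, Category.id_comp]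
  have e1 : (δ F (x a) (x b) ≫ ((s a).hom ⊗ₘ (s b).hom) ≫ (th.m a b ab h1).hom) ⊗ₘ (s c).hom =
      δ F (x a) (x b) ▷ F.obj (x c) ≫ (((s a).hom ⊗ₘ (s b).hom) ⊗ₘ (s c).hom) ≫
        (th.m a b ab h1).hom ▷ th.T c := by
    rw [← tensorHom_id, ← tensorHom_id, tensorHom_comp_tensorHom, tensorHom_comp_tensorHom,
      Category.id_comp, Category.comp_id]
  have e2 : (s a).hom ⊗ₘ (δ F (x b) (x c) ≫ ((s b).hom ⊗ₘ (s c).hom) ≫ (th.m b c bc h3).hom) =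
      F.obj (x a) ◁ δ F (x b) (x c) ≫ ((s a).hom ⊗ₘ ((s b).hom ⊗ₘ (s c).hom)) ≫
        th.T a ◁ (th.m b c bc h3).hom := by
    rw [← id_tensorHom, ← id_tensorHom, tensorHom_comp_tensorHom, tensorHom_comp_tensorHom,
      Category.id_comp, Category.comp_id]
  have e3 : (((s a).hom ⊗ₘ (s b).hom) ⊗ₘ (s c).hom) ≫ (α_ _ _ _).hom =
      (α_ _ _ _).hom ≫ ((s a).hom ⊗ₘ ((s b).hom ⊗ₘ (s c).hom)) := associator_naturality _ _ _
  have e4 := th.assoc a b c ab bc abc h1 h2 h3 h4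
  have e5 : δ F (x a ⊗ x b) (x c) ≫ δ F (x a) (x b) ▷ F.obj (x c) ≫ (α_ _ _ _).hom =
      F.map (α_ (x a) (x b) (x c)).hom ≫ δ F (x a) (x b ⊗ x c) ≫ F.obj (x a) ◁ δ F (x b) (x c) := by
    rw [Functor.OplaxMonoidal.associativity]
  rw [e1, e2]
  simp only [Category.assoc]
  rw [reassoc_of% e4, reassoc_of% e3, reassoc_of% e5]

private theorem E3c_unitL {th : Gl D n} {x : ZMod n → C} (s : ∀ a, F.obj (x a) ≅ th.T a) (a : ZMod n)
    (h : 0 + a = a) : E3c_P (η F ≫ th.u.hom ≫ (s 0).inv) (𝟙 (F.obj (x a))) ≫ (gis s 0 a a h).hom =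
      F.map (λ_ (x a)).hom := by
  rw [E3c_left, Category.id_comp]
  simp only [Category.assoc, Iso.inv_hom_id, Category.comp_id]
  have e1 : (η F ≫ th.u.hom) ⊗ₘ (s a).hom = η F ▷ F.obj (x a) ≫ (𝟙_ D ◁ (s a).hom) ≫ th.u.hom ▷ th.T a := by
    rw [← tensorHom_id, ← tensorHom_id, ← id_tensorHom, tensorHom_comp_tensorHom, tensorHom_comp_tensorHom,
      Category.id_comp, Category.id_comp, Category.comp_id]
  have e2 := th.unitL a h
  rw [e1]
  simp only [Category.assoc]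
  rw [reassoc_of% e2, leftUnitor_naturality_assoc, Iso.hom_inv_id, Category.comp_id,
    Functor.OplaxMonoidal.left_unitality_hom]

private theorem E3c_unitR {th : Gl D n} {x : ZMod n → C} (s : ∀ a, F.obj (x a) ≅ th.T a) (a : ZMod n)
    (h : a + 0 = a) : E3c_P (𝟙 (F.obj (x a))) (η F ≫ th.u.hom ≫ (s 0).inv) ≫ (gis s a 0 a h).hom =
      F.map (ρ_ (x a)).hom := by
  rw [E3c_left, Category.id_comp]
  simp only [Category.assoc, Iso.inv_hom_id, Category.comp_id]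
  have e1 : (s a).hom ⊗ₘ (η F ≫ th.u.hom) = F.obj (x a) ◁ η F ≫ ((s a).hom ▷ 𝟙_ D) ≫ th.T a ◁ th.u.hom := by
    rw [← tensorHom_id, ← id_tensorHom, ← id_tensorHom, tensorHom_comp_tensorHom, tensorHom_comp_tensorHom,
      Category.id_comp, Category.id_comp, Category.comp_id]
  have e2 := th.unitR a h
  rw [e1]
  simp only [Category.assoc]
  rw [reassoc_of% e2, rightUnitor_naturality_assoc, Iso.hom_inv_id, Category.comp_id,
    Functor.OplaxMonoidal.right_unitality_hom]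

private theorem E3c_scal {x : C} {T : D} (i : F.obj x ≅ T) (h : ∀ f : T ⟶ T, ∃ c : K, f = c • 𝟙 _)
    (f : F.obj x ⟶ F.obj x) : ∃ c : K, f = c • 𝟙 _ := by
  obtain ⟨c, hc⟩ := h (i.inv ≫ f ≫ i.hom)
  refine ⟨c, ?_⟩
  have h1 : f = i.hom ≫ (i.inv ≫ f ≫ i.hom) ≫ i.inv := by simp
  rw [h1, hc, Linear.smul_comp, Linear.comp_smul, Category.id_comp, Iso.hom_inv_id]

private theorem E3c_ne {x : C} {T : D} (i : F.obj x ≅ T) (h : 𝟙 T ≠ 0) : 𝟙 (F.obj x) ≠ 0 := by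
  intro h1
  apply h
  have h2 : 𝟙 T = i.inv ≫ 𝟙 _ ≫ i.hom := by simp
  rw [h2, h1, Limits.zero_comp, Limits.comp_zero]

private theorem E3c_mem (Wt : Wts K F p) {a b c : ZMod p} (h : a + b = c) {x y x' y' : C}
    {f : F.obj x ⟶ F.obj y} {g : F.obj x' ⟶ F.obj y'} (hf : f ∈ Wt.W a x y) (hg : g ∈ Wt.W b x' y') :
    E3c_P f g ∈ Wt.W c (x ⊗ x') (y ⊗ y') := Wt.ten h hf hg

theorem Wts.weights (Wt : Wts K F p) {th : Gl D n} {x : ZMod n → C} (s : ∀ a, F.obj (x a) ≅ th.T a)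
    (h1 : ∀ a (f : th.T a ⟶ th.T a), ∃ c : K, f = c • 𝟙 _) (h0 : ∀ a, 𝟙 (th.T a) ≠ 0) :
    ∃ w : ZMod n → ZMod n → ZMod p, (∀ a b c (h : a + b = c), (gis s a b c h).hom ∈ Wt.W (w a b) (x a ⊗ x b) (x c)) ∧
      ∀ a b c, w a b + w (a + b) c = w b c + w a (b + c) := by
  have hw : ∀ a b, ∃ w : ZMod p, (gis s a b (a + b) rfl).hom ∈ Wt.W w (x a ⊗ x b) (x (a + b)) := fun a b =>
    Wt.homog (E3c_scal (gis s a b (a + b) rfl ≪≫ s (a + b)) (h1 (a + b))) _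
  choose w hw using hw
  have hw' : ∀ a b c (h : a + b = c), (gis s a b c h).hom ∈ Wt.W (w a b) (x a ⊗ x b) (x c) := by
    intro a b c h
    subst h
    exact hw a b
  refine ⟨w, hw', fun a b c => ?_⟩
  have e := E3c_assoc s a b c (a + b) (b + c) (a + b + c) rfl rfl rfl (by ring)
  set L : F.obj ((x a ⊗ x b) ⊗ x c) ⟶ F.obj (x (a + b + c)) :=
    E3c_P (gis s a b (a + b) rfl).hom (𝟙 (F.obj (x c))) ≫ (gis s (a + b) c (a + b + c) rfl).hom with hL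
  have m1 : L ∈ Wt.W (w a b + w (a + b) c) ((x a ⊗ x b) ⊗ x c) (x (a + b + c)) :=
    Wt.comp rfl (E3c_mem Wt (add_zero _) (hw' _ _ _ _) (Wt.id _)) (hw' _ _ _ _)
  have m2 : L ∈ Wt.W (w b c + w a (b + c)) ((x a ⊗ x b) ⊗ x c) (x (a + b + c)) := by
    rw [e]
    exact Wt.comp (zero_add _) (Wt.map _)
      (Wt.comp rfl (E3c_mem Wt (zero_add _) (Wt.id _) (hw' _ _ _ _)) (hw' _ _ _ _))
  have hP : IsIso (E3c_P (gis s a b (a + b) rfl).hom (𝟙 (F.obj (x c)))) := by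
    unfold E3c_P
    infer_instance
  have hiso : IsIso L := by
    rw [hL]
    infer_instance
  exact Wt.weight_unique (E3c_ne (asIso L ≪≫ s (a + b + c)) (h0 _)) (asIso L) m1 m2

theorem Wts.exists_s (Wt : Wts K F p) (hn : IsUnit (n : ZMod p)) {th : Gl D n} {x : ZMod n → C}
    (s : ∀ a, F.obj (x a) ≅ th.T a) (h1 : ∀ a (f : th.T a ⟶ th.T a), ∃ c : K, f = c • 𝟙 _)
    (h0 : ∀ a, 𝟙 (th.T a) ≠ 0) : ∃ (x' : ZMod n → C) (s' : ∀ a, F.obj (x' a) ≅ th.T a),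
      ∀ a b c (h : a + b = c), (gis s' a b c h).hom ∈ Wt.W 0 (x' a ⊗ x' b) (x' c) := by
  obtain ⟨w, hw, hc⟩ := Wt.weights s h1 h0
  obtain ⟨k, hk⟩ := cobound hn w hc
  let r : ∀ a : ZMod n, F.obj (Wt.T (-k a) ⊗ x a) ≅ F.obj (x a) := fun a =>
    (Functor.Monoidal.μIso F _ _).symm ≪≫ (Wt.τ (-k a) ⊗ᵢ Iso.refl _) ≪≫ Functor.Monoidal.μIso F _ _ ≪≫
      F.mapIso (λ_ (x a))
  have hr : ∀ a, (r a).hom ∈ Wt.W (-k a) _ _ := by
    intro a
    have e1 : (r a).hom = E3c_P (Wt.τ (-k a)).hom (𝟙 _) ≫ F.map (λ_ (x a)).hom := by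
      simp [r, E3c_P]
    rw [e1]
    exact Wt.comp (add_zero _) (E3c_mem Wt (add_zero _) (Wt.τ_mem _) (Wt.id _)) (Wt.map _)
  refine ⟨fun a => Wt.T (-k a) ⊗ x a, fun a => r a ≪≫ s a, fun a b c h => ?_⟩
  have e2 : (gis (fun a => r a ≪≫ s a) a b c h).hom =
      E3c_P (r a).hom (r b).hom ≫ (gis s a b c h).hom ≫ (r c).inv := by
    rw [← Category.assoc, E3c_left, gis_hom]
    simp
  rw [e2]
  have m3 : (r c).inv ∈ Wt.W (k c) _ _ := Wt.inv (neg_add_cancel _) (r c) (hr c)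
  refine Wt.comp (b := w a b + k c) ?_ (E3c_mem Wt rfl (hr a) (hr b)) (Wt.comp rfl (hw a b c h) m3)
  rw [hk a b, h]
  ring

theorem Wts.lift_gl (Wt : Wts K F p) (hn : IsUnit (n : ZMod p)) (th : Gl D n) {x : ZMod n → C}
    (s : ∀ a, F.obj (x a) ≅ th.T a) (h1 : ∀ a (f : th.T a ⟶ th.T a), ∃ c : K, f = c • 𝟙 _)
    (h0 : ∀ a, 𝟙 (th.T a) ≠ 0) : ∃ (th' : Gl C n) (s' : ∀ a, F.obj (th'.T a) ≅ th.T a),
      F.map th'.u.hom ≫ (s' 0).hom = η F ≫ th.u.hom ∧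
      ∀ a b c (h : a + b = c), F.map (th'.m a b c h).hom ≫ (s' c).hom =
        δ F _ _ ≫ ((s' a).hom ⊗ₘ (s' b).hom) ≫ (th.m a b c h).hom := by
  obtain ⟨x', s', hs'⟩ := Wt.exists_s hn s h1 h0
  have hm : ∀ a b c (h : a + b = c), ∃ e : x' a ⊗ x' b ≅ x' c,
      F.map e.hom = (gis s' a b c h).hom ∧ F.map e.inv = (gis s' a b c h).inv :=
    fun a b c h => Wt.lift_iso _ (hs' a b c h)
  choose m hm hm' using hm
  let v : F.obj (𝟙_ C) ≅ F.obj (x' 0) := (Functor.Monoidal.εIso F).symm ≪≫ th.u ≪≫ (s' 0).symm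
  have hv : v.hom = η F ≫ th.u.hom ≫ (s' 0).inv := by simp [v]
  obtain ⟨e, he⟩ := Wt.homog (E3c_scal (v ≪≫ s' 0) (h1 0)) v
  have he0 : e = 0 := by
    have e1 := E3c_unitL s' 0 (zero_add 0)
    rw [← hv] at e1
    have m1 : F.map (λ_ (x' 0)).hom ∈ Wt.W e _ _ := by
      rw [← e1]
      exact Wt.comp (add_zero _) (E3c_mem Wt (add_zero _) he (Wt.id _)) (hs' _ _ _ _)
    have m2 : F.map (λ_ (x' 0)).hom ∈ Wt.W 0 _ _ := Wt.map _
    have h2 : 𝟙 (F.obj (𝟙_ C ⊗ x' 0)) ≠ 0 := E3c_ne (F.mapIso (λ_ (x' 0)) ≪≫ s' 0) (h0 0)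
    exact Wt.weight_unique h2 (F.mapIso (λ_ (x' 0))) m1 m2
  rw [he0] at he
  obtain ⟨u, hu, hu'⟩ := Wt.lift_iso v he
  have hu2 : F.map u.hom = η F ≫ th.u.hom ≫ (s' 0).inv := by rw [hu, hv]
  refine ⟨{ T := x', u := u, m := m, unitL := ?_, unitR := ?_, assoc := ?_, ne := ?_ }, s', ?_, ?_⟩
  · intro a h
    apply Wt.faithful
    rw [F.map_comp, ← tensorHom_id, E3c_P_map, F.map_id, hu2, hm, E3c_unitL]
  · intro a h
    apply Wt.faithful
    rw [F.map_comp, ← id_tensorHom, E3c_P_map, F.map_id, hu2, hm, E3c_unitR]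
  · intro a b c ab bc abc g1 g2 g3 g4
    apply Wt.faithful
    rw [F.map_comp, F.map_comp, F.map_comp, ← tensorHom_id, ← id_tensorHom, E3c_P_map, E3c_P_map, F.map_id,
      F.map_id, hm, hm, hm, hm]
    exact E3c_assoc s' a b c ab bc abc g1 g2 g3 g4
  · intro a ha f
    apply Wt.faithful
    have h2 := th.ne a ha (ε F ≫ F.map f ≫ (s' a).hom)
    have h3 : F.map f = η F ≫ (ε F ≫ F.map f ≫ (s' a).hom) ≫ (s' a).inv := by simp
    have h4 : F.map (0 : 𝟙_ C ⟶ x' a) = 0 := by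
      have h5 := Wt.map_smul (0 : K) (0 : 𝟙_ C ⟶ x' a)
      rw [zero_smul, zero_smul] at h5
      exact h5
    rw [h3, h2, h4, Limits.zero_comp, Limits.comp_zero]
  · simp only [hu2]
    simp
  · intro a b c h
    simp only [hm]
    exact E3c_gis_s s' a b c h

end Pool.Agent.SFC
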