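import Pool.Agent.SFC.A0b
import Pool.Agent.SFC.ALin

/-!
# SFC/Fna: algebra isomorphisms `F A ≅ A'` and the functor on bimodules

`F : C ⥤ D` monoidal, `S : SFrob C`, `S' : SFrob D`, `φ : F A ≅ A'` compatible with all structure maps (`AlgIso`).
`FB φ M = ⟨F M.X, (φ⁻¹ ▷ _) ≫ μ ≫ F l, (_ ◁ φ⁻¹) ≫ μ ≫ F r⟩`.
-/

set_option autoImplicit false

noncomputable section

open CategoryTheory MonoidalCategory

namespace Pool.Agent.SFC

universe v u v' u' w

open Functor.LaxMonoidal Functor.OplaxMonoidal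

variable {C : Type u} [Category.{v} C] [MonoidalCategory C] {D : Type u'} [Category.{v'} D] [MonoidalCategory D]

/-- isomorphisms of special Frobenius algebras `F A ≅ A'` -/
structure AlgIso (F : C ⥤ D) [F.Monoidal] (S : SFrob C) (S' : SFrob D) where
  f : F.obj S.A ≅ S'.A
  mul : F.map S.mul ≫ f.hom = δ F _ _ ≫ (f.hom ⊗ₘ f.hom) ≫ S'.mul
  one : F.map S.one ≫ f.hom = η F ≫ S'.one
  cm : F.map S.cm ≫ δ F _ _ ≫ (f.hom ⊗ₘ f.hom) = f.hom ≫ S'.cm
  cn : F.map S.cn ≫ η F = f.hom ≫ S'.cn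

variable {F : C ⥤ D} [F.Monoidal] {S : SFrob C} {S' : SFrob D}

/-- the left action on `F M` -/
def AlgIso.l (φ : AlgIso F S S') (M : Bim S) : S'.A ⊗ F.obj M.X ⟶ F.obj M.X :=
  φ.f.inv ▷ F.obj M.X ≫ μ F _ _ ≫ F.map M.l

/-- the right action on `F M` -/
def AlgIso.r (φ : AlgIso F S S') (M : Bim S) : F.obj M.X ⊗ S'.A ⟶ F.obj M.X :=
  F.obj M.X ◁ φ.f.inv ≫ μ F _ _ ≫ F.map M.r

private theorem Fna_mul (φ : AlgIso F S S') :
    S'.mul ≫ φ.f.inv = φ.f.inv ▷ _ ≫ _ ◁ φ.f.inv ≫ μ F _ _ ≫ F.map S.mul := by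
  rw [← cancel_mono φ.f.hom]
  simp only [Category.assoc, Iso.inv_hom_id, Category.comp_id, φ.mul, Functor.Monoidal.μ_δ_assoc]
  rw [MonoidalCategory.tensorHom_def]
  simp only [Category.assoc]
  rw [MonoidalCategory.whisker_exchange_assoc, ← MonoidalCategory.comp_whiskerRight_assoc,
    φ.f.inv_hom_id, MonoidalCategory.id_whiskerRight, Category.id_comp,
    ← MonoidalCategory.whiskerLeft_comp_assoc, φ.f.inv_hom_id, MonoidalCategory.whiskerLeft_id,
    Category.id_comp]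

private theorem Fna_one (φ : AlgIso F S S') : S'.one ≫ φ.f.inv = ε F ≫ F.map S.one := by
  rw [← cancel_mono φ.f.hom]
  simp only [Category.assoc, Iso.inv_hom_id, Category.comp_id, φ.one, Functor.Monoidal.ε_η_assoc]

theorem AlgIso.ll (φ : AlgIso F S S') (M : Bim S) :
    S'.mul ▷ F.obj M.X ≫ φ.l M = (α_ _ _ _).hom ≫ S'.A ◁ φ.l M ≫ φ.l M := by
  have h := congrArg (fun t => F.map t) M.ll
  simp only [Functor.map_comp] at h
  have h1 : φ.f.inv ▷ S'.A ▷ F.obj M.X ≫ (F.obj S.A ◁ φ.f.inv) ▷ F.obj M.X ≫ (α_ _ _ _).hom =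
      (α_ _ _ _).hom ≫ S'.A ◁ (φ.f.inv ▷ F.obj M.X) ≫ φ.f.inv ▷ (F.obj S.A ⊗ F.obj M.X) := by
    rw [associator_naturality_middle, associator_naturality_left_assoc, whisker_exchange]
  unfold AlgIso.l
  rw [← comp_whiskerRight_assoc, Fna_mul]
  simp only [comp_whiskerRight, MonoidalCategory.whiskerLeft_comp, Category.assoc,
    μ_natural_left_assoc]
  rw [h, Functor.LaxMonoidal.associativity_assoc, ← μ_natural_right_assoc, reassoc_of% h1,
    ← whisker_exchange_assoc, ← whisker_exchange_assoc]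

theorem AlgIso.rr (φ : AlgIso F S S') (M : Bim S) :
    F.obj M.X ◁ S'.mul ≫ φ.r M = (α_ _ _ _).inv ≫ φ.r M ▷ S'.A ≫ φ.r M := by
  have h := congrArg (fun t => F.map t) M.rr
  simp only [Functor.map_comp] at h
  have h1 : F.obj M.X ◁ (φ.f.inv ▷ S'.A) ≫ F.obj M.X ◁ (F.obj S.A ◁ φ.f.inv) ≫ (α_ _ _ _).inv =
      (α_ _ _ _).inv ≫ (F.obj M.X ◁ φ.f.inv) ▷ S'.A ≫ (F.obj M.X ⊗ F.obj S.A) ◁ φ.f.inv := by
    simp
  unfold AlgIso.r
  rw [← MonoidalCategory.whiskerLeft_comp_assoc, Fna_mul]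
  simp only [comp_whiskerRight, MonoidalCategory.whiskerLeft_comp, Category.assoc,
    μ_natural_right_assoc]
  rw [h, Functor.LaxMonoidal.associativity_inv_assoc, ← μ_natural_left_assoc, reassoc_of% h1,
    whisker_exchange_assoc, whisker_exchange_assoc]

theorem AlgIso.lr (φ : AlgIso F S S') (M : Bim S) :
    φ.l M ▷ S'.A ≫ φ.r M = (α_ _ _ _).hom ≫ S'.A ◁ φ.r M ≫ φ.l M := by
  have h := congrArg (fun t => F.map t) M.lr
  simp only [Functor.map_comp] at h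
  have h1 : (φ.f.inv ▷ F.obj M.X) ▷ S'.A ≫ (F.obj S.A ⊗ F.obj M.X) ◁ φ.f.inv ≫ (α_ _ _ _).hom =
      (α_ _ _ _).hom ≫ S'.A ◁ (F.obj M.X ◁ φ.f.inv) ≫ φ.f.inv ▷ (F.obj M.X ⊗ F.obj S.A) := by
    rw [whisker_exchange]
    simp
  unfold AlgIso.l AlgIso.r
  simp only [comp_whiskerRight, MonoidalCategory.whiskerLeft_comp, Category.assoc]
  rw [← whisker_exchange_assoc, ← whisker_exchange_assoc, μ_natural_left_assoc, h,
    Functor.LaxMonoidal.associativity_assoc, reassoc_of% h1, ← μ_natural_right_assoc,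
    ← whisker_exchange_assoc, ← whisker_exchange_assoc]

theorem AlgIso.ul (φ : AlgIso F S S') (M : Bim S) :
    (λ_ (F.obj M.X)).inv ≫ S'.one ▷ F.obj M.X ≫ φ.l M = F.map M.p := by
  unfold AlgIso.l
  rw [← comp_whiskerRight_assoc, Fna_one, comp_whiskerRight_assoc, μ_natural_left_assoc,
    Functor.LaxMonoidal.left_unitality_inv_assoc, Bim.p]
  simp only [Functor.map_comp]

theorem AlgIso.ur (φ : AlgIso F S S') (M : Bim S) :
    (ρ_ (F.obj M.X)).inv ≫ F.obj M.X ◁ S'.one ≫ φ.r M = F.map M.p := by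
  unfold AlgIso.r
  rw [← MonoidalCategory.whiskerLeft_comp_assoc, Fna_one, MonoidalCategory.whiskerLeft_comp_assoc,
    μ_natural_right_assoc, Functor.LaxMonoidal.right_unitality_inv_assoc, Bim.p_r]
  simp only [Functor.map_comp]

/-- `F M` as a bimodule over `A'` -/
def AlgIso.FB (φ : AlgIso F S S') (M : Bim S) : Bim S' where
  X := F.obj M.X
  l := φ.l M
  r := φ.r M
  ll := φ.ll M
  rr := φ.rr M
  lr := φ.lr M
  uu := by rw [φ.ul, φ.ur]

theorem AlgIso.FB_p (φ : AlgIso F S S') (M : Bim S) : (φ.FB M).p = F.map M.p := φ.ul M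

theorem AlgIso.map_l (φ : AlgIso F S S') {M N : Bim S} (f : M ⟶ N) :
    S'.A ◁ F.map (Bim.Hom.f f) ≫ φ.l N = φ.l M ≫ F.map (Bim.Hom.f f) := by
  unfold AlgIso.l
  rw [whisker_exchange_assoc, μ_natural_right_assoc, ← F.map_comp, f.hl, F.map_comp]
  simp only [Category.assoc]

theorem AlgIso.map_r (φ : AlgIso F S S') {M N : Bim S} (f : M ⟶ N) :
    F.map (Bim.Hom.f f) ▷ S'.A ≫ φ.r N = φ.r M ≫ F.map (Bim.Hom.f f) := by
  unfold AlgIso.r
  rw [← whisker_exchange_assoc, μ_natural_left_assoc, ← F.map_comp, f.hr, F.map_comp]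
  simp only [Category.assoc]

theorem AlgIso.map_p (_ : AlgIso F S S') {M N : Bim S} (f : M ⟶ N) :
    F.map (Bim.Hom.f f) ≫ F.map N.p = F.map (Bim.Hom.f f) := by
  rw [← F.map_comp, f.hp]

/-- the functor on bimodules -/
def AlgIso.FBf (φ : AlgIso F S S') : Bim S ⥤ Bim S' where
  obj := φ.FB
  map {M N} f := (⟨F.map (Bim.Hom.f f), φ.map_l f, φ.map_r f,
    (congrArg (fun t => F.map (Bim.Hom.f f) ≫ t) (φ.FB_p N)).trans (φ.map_p f)⟩ : Bim.Hom (φ.FB M) (φ.FB N))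
  map_id M := Bim.hom_ext (φ.FB_p M).symm
  map_comp _ _ := Bim.hom_ext (F.map_comp _ _)

@[simp] theorem AlgIso.FBf_map_f (φ : AlgIso F S S') {M N : Bim S} (f : M ⟶ N) :
    Bim.Hom.f (φ.FBf.map f) = F.map (Bim.Hom.f f) := rfl

theorem AlgIso.faithful (φ : AlgIso F S S') (h : F.Faithful) : φ.FBf.Faithful :=
  ⟨fun {_ _ _ _} e => Bim.hom_ext (h.map_injective (congrArg Bim.Hom.f e))⟩

theorem AlgIso.exists_lift (φ : AlgIso F S S') (hF : ∀ {x y : C} {f g : x ⟶ y}, F.map f = F.map g → f = g)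
    {M N : Bim S} (h : φ.FBf.obj M ⟶ φ.FBf.obj N) (g : M.X ⟶ N.X) (hg : F.map g = Bim.Hom.f h) :
    ∃ f : M ⟶ N, φ.FBf.map f = h ∧ Bim.Hom.f f = g := by
  have h1 : S'.A ◁ F.map g ≫ φ.l N = φ.l M ≫ F.map g := by rw [hg]; exact h.hl
  have h2 : F.map g ▷ S'.A ≫ φ.r N = φ.r M ≫ F.map g := by rw [hg]; exact h.hr
  have h3 : F.map g ≫ F.map N.p = F.map g := by
    rw [hg, ← φ.FB_p N]
    exact h.hp
  have e1 : S.A ◁ g ≫ N.l = M.l ≫ g := by
    apply hF
    unfold AlgIso.l at h1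
    rw [whisker_exchange_assoc, μ_natural_right_assoc, ← F.map_comp] at h1
    simp only [Category.assoc] at h1
    have h4 := congrArg (fun t => δ F _ _ ≫ φ.f.hom ▷ F.obj M.X ≫ t) h1
    simp only [← comp_whiskerRight_assoc, φ.f.hom_inv_id, id_whiskerRight, Category.id_comp,
      Functor.Monoidal.δ_μ_assoc] at h4
    rw [h4, F.map_comp]
  have e2 : g ▷ S.A ≫ N.r = M.r ≫ g := by
    apply hF
    unfold AlgIso.r at h2
    rw [← whisker_exchange_assoc, μ_natural_left_assoc, ← F.map_comp] at h2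
    simp only [Category.assoc] at h2
    have h4 := congrArg (fun t => δ F _ _ ≫ F.obj M.X ◁ φ.f.hom ≫ t) h2
    simp only [← MonoidalCategory.whiskerLeft_comp_assoc, φ.f.hom_inv_id,
      MonoidalCategory.whiskerLeft_id, Category.id_comp, Functor.Monoidal.δ_μ_assoc] at h4
    rw [h4, F.map_comp]
  have e3 : g ≫ N.p = g := by
    apply hF
    rw [F.map_comp, h3]
  exact ⟨(⟨g, e1, e2, e3⟩ : Bim.Hom M N), Bim.hom_ext hg, rfl⟩

theorem AlgIso.full (φ : AlgIso F S S') (h : F.Faithful) (h' : F.Full) : φ.FBf.Full := by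
  refine ⟨fun {M N} f => ?_⟩
  obtain ⟨g, hg⟩ := h'.map_surjective (Bim.Hom.f f)
  obtain ⟨f', hf', -⟩ := φ.exists_lift (fun {_ _ _ _} e => h.map_injective e) f g hg
  exact ⟨f', hf'⟩

end Pool.Agent.SFC
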