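import Pool.Agent.SFC.E1b
import Pool.Agent.SFC.Fna

/-!
# SFC/E3e: weights of bimodule maps

`F : C ⥤ D` has a weight decomposition, `φ : F A ≅ A'`.  `lop`-free formulation: `h : F M.X ⟶ F N.X` is left linear iff `δ ≫ (F A ◁ h) ≫ μ ≫ F.map N.l = F.map M.l ≫ h` (`left_iff`; from the definition of `φ.l`, `φ.f.inv ▷ _`, `μ` are
isomorphisms).
`comp_lin`: `h = ∑ a, k a` with `k a` of weight `a` (`Wt.dec`); the components of weight `a` of the two sides of this equation are those with `k a` (`δ ≫ (𝟙 ⊗ₘ k a) ≫ μ` has weight `a` by `Wt.id`, `Wt.ten`; `F.map N.l`, `F.map M.l` have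
weight `0`), so by `Wt.uniq` each `k a` is left linear; the same for right linear; for `h ≫ F.map N.p = h`: `k a ≫ F.map N.p = k a`.
`bim_dec`: so `k a` is a map of bimodules.
`exists_transport`: `l' : S.A ⊗ X ⟶ X` with `F.map l' ≫ κ = (𝟙 ⊙ κ) ≫ F.map M.l`, of weight `0 + a + 0 - a = 0` (`Wt.ten`, `Wt.inv`, `Wt.comp`, `Wt.lift`), `r'` the same way (here `h ⊙ k = δ ≫ (h ⊗ₘ k) ≫ μ`).  The axioms of `Bim`
by `Wt.faithful` and conjugation with `κ`.  `κ` is left and right linear, so `κ.hom ≫ F.map M.p` and `κ.inv ≫ F.map M'.p` are inverse isomorphisms of bimodules.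
-/

set_option autoImplicit false

noncomputable section

open CategoryTheory MonoidalCategory
open scoped BigOperators

namespace Pool.Agent.SFC

universe v u v' u' w

open Functor.LaxMonoidal Functor.OplaxMonoidal

section

variable {C : Type u} [Category.{v} C] [MonoidalCategory C] {D : Type u'} [Category.{v'} D] [MonoidalCategory D]
  (F : C ⥤ D) [F.Monoidal]

/-- the tensor product of maps between objects `F x` -/
private def E3e_o {x y x' y' : C} (h : F.obj x ⟶ F.obj y) (k : F.obj x' ⟶ F.obj y') :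
    F.obj (x ⊗ x') ⟶ F.obj (y ⊗ y') :=
  δ F x x' ≫ (h ⊗ₘ k) ≫ μ F y y'

private theorem E3e_oo {x y z x' y' z' : C} (h : F.obj x ⟶ F.obj y) (k : F.obj x' ⟶ F.obj y')
    (h' : F.obj y ⟶ F.obj z) (k' : F.obj y' ⟶ F.obj z') :
    E3e_o F h k ≫ E3e_o F h' k' = E3e_o F (h ≫ h') (k ≫ k') := by
  unfold E3e_o
  simp

private theorem E3e_om {x y x' y' : C} (f : x ⟶ y) (g : x' ⟶ y') :
    E3e_o F (F.map f) (F.map g) = F.map (f ⊗ₘ g) := by
  unfold E3e_o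
  rw [δ_natural_assoc, Functor.Monoidal.δ_μ, Category.comp_id]

private theorem E3e_oa {x y x' y' x'' y'' : C} (h : F.obj x ⟶ F.obj y) (k : F.obj x' ⟶ F.obj y')
    (m : F.obj x'' ⟶ F.obj y'') :
    E3e_o F (E3e_o F h k) m ≫ F.map (α_ _ _ _).hom = F.map (α_ _ _ _).hom ≫ E3e_o F h (E3e_o F k m) := by
  unfold E3e_o
  have h1 : (δ F x x' ≫ (h ⊗ₘ k) ≫ μ F y y') ⊗ₘ m =
      δ F x x' ▷ F.obj x'' ≫ ((h ⊗ₘ k) ⊗ₘ m) ≫ μ F y y' ▷ F.obj y'' := by
    rw [← tensorHom_id, ← tensorHom_id, tensorHom_comp_tensorHom, tensorHom_comp_tensorHom, Category.id_comp,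
      Category.comp_id]
  have h2 : h ⊗ₘ (δ F x' x'' ≫ (k ⊗ₘ m) ≫ μ F y' y'') =
      F.obj x ◁ δ F x' x'' ≫ (h ⊗ₘ (k ⊗ₘ m)) ≫ F.obj y ◁ μ F y' y'' := by
    rw [← id_tensorHom, ← id_tensorHom, tensorHom_comp_tensorHom, tensorHom_comp_tensorHom, Category.id_comp,
      Category.comp_id]
  rw [h1, h2]
  simp only [Category.assoc]
  rw [Functor.LaxMonoidal.associativity, associator_naturality_assoc, Functor.OplaxMonoidal.associativity_assoc]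

private theorem E3e_ol {x y : C} (h : F.obj x ⟶ F.obj y) :
    F.map (λ_ x).inv ≫ E3e_o F (𝟙 (F.obj (𝟙_ C))) h = h ≫ F.map (λ_ y).inv := by
  unfold E3e_o
  rw [Functor.Monoidal.map_leftUnitor_inv, Functor.Monoidal.map_leftUnitor_inv, id_tensorHom]
  simp only [Category.assoc, Functor.Monoidal.μ_δ_assoc]
  rw [← whisker_exchange_assoc, leftUnitor_inv_naturality_assoc]

private theorem E3e_or {x y : C} (h : F.obj x ⟶ F.obj y) :
    F.map (ρ_ x).inv ≫ E3e_o F h (𝟙 (F.obj (𝟙_ C))) = h ≫ F.map (ρ_ y).inv := by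
  unfold E3e_o
  rw [Functor.Monoidal.map_rightUnitor_inv, Functor.Monoidal.map_rightUnitor_inv, tensorHom_id]
  simp only [Category.assoc, Functor.Monoidal.μ_δ_assoc]
  rw [whisker_exchange_assoc, rightUnitor_inv_naturality_assoc]

end

section

variable {D : Type u'} [Category.{v'} D] [MonoidalCategory D] {S' : SFrob D}

private theorem E3e_pl (M : Bim S') : S'.A ◁ M.p ≫ M.l = M.l := by
  have h := Bim.Hom.hl (𝟙 M : M ⟶ M)
  rw [Bim.id_f, M.p_l] at h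
  exact h

private theorem E3e_pr (M : Bim S') : M.p ▷ S'.A ≫ M.r = M.r := by
  have h := Bim.Hom.hr (𝟙 M : M ⟶ M)
  rw [Bim.id_f, M.p_r'] at h
  exact h

private theorem E3e_pk {P Q : Bim S'} (κ : P.X ⟶ Q.X) (hl : S'.A ◁ κ ≫ Q.l = P.l ≫ κ) :
    P.p ≫ κ = κ ≫ Q.p := by
  rw [Bim.p, Bim.p, Category.assoc, Category.assoc, ← hl, leftUnitor_inv_naturality_assoc,
    whisker_exchange_assoc]

private def E3e_hom {P Q : Bim S'} (κ : P.X ⟶ Q.X) (hl : S'.A ◁ κ ≫ Q.l = P.l ≫ κ)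
    (hr : κ ▷ S'.A ≫ Q.r = P.r ≫ κ) : P ⟶ Q where
  f := κ ≫ Q.p
  hl := by
    rw [MonoidalCategory.whiskerLeft_comp, Category.assoc, E3e_pl, hl, ← E3e_pk κ hl, ← Category.assoc, P.p_l]
  hr := by
    rw [comp_whiskerRight, Category.assoc, E3e_pr, hr, ← E3e_pk κ hl, ← Category.assoc, P.p_r']
  hp := by rw [Category.assoc, Q.pp]

private def E3e_iso {P Q : Bim S'} (κ : P.X ≅ Q.X) (hl : S'.A ◁ κ.hom ≫ Q.l = P.l ≫ κ.hom)
    (hr : κ.hom ▷ S'.A ≫ Q.r = P.r ≫ κ.hom) : P ≅ Q where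
  hom := E3e_hom κ.hom hl hr
  inv := E3e_hom κ.inv (by
      rw [← cancel_mono κ.hom, Category.assoc, Category.assoc, ← hl, Iso.inv_hom_id, Category.comp_id,
        ← MonoidalCategory.whiskerLeft_comp_assoc, Iso.inv_hom_id, MonoidalCategory.whiskerLeft_id, Category.id_comp])
    (by
      rw [← cancel_mono κ.hom, Category.assoc, Category.assoc, ← hr, Iso.inv_hom_id, Category.comp_id,
        ← comp_whiskerRight_assoc, Iso.inv_hom_id, id_whiskerRight, Category.id_comp])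
  hom_inv_id := by
    apply Bim.hom_ext
    rw [Bim.comp_f, Bim.id_f]
    show (κ.hom ≫ Q.p) ≫ κ.inv ≫ P.p = P.p
    rw [← E3e_pk κ.hom hl, Category.assoc, Iso.hom_inv_id_assoc, P.pp]
  inv_hom_id := by
    apply Bim.hom_ext
    rw [Bim.comp_f, Bim.id_f]
    show (κ.inv ≫ P.p) ≫ κ.hom ≫ Q.p = Q.p
    rw [← E3e_pk κ.hom hl, Category.assoc, ← Category.assoc P.p P.p, P.pp, E3e_pk κ.hom hl,
      Iso.inv_hom_id_assoc]

end

variable {K : Type w} [Field K] {C : Type u} [Category.{v} C] [Preadditive C] [Linear K C] [MonoidalCategory C]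
  [MonoidalPreadditive C] [MonoidalLinear K C]
  {D : Type u'} [Category.{v'} D] [Preadditive D] [Linear K D] [MonoidalCategory D] [MonoidalPreadditive D]
  [MonoidalLinear K D] {F : C ⥤ D} [F.Monoidal] {p : ℕ} [NeZero p] {S : SFrob C} {S' : SFrob D}

theorem AlgIso.left_iff (φ : AlgIso F S S') {M N : Bim S} (h : F.obj M.X ⟶ F.obj N.X) :
    S'.A ◁ h ≫ φ.l N = φ.l M ≫ h ↔ δ F S.A M.X ≫ F.obj S.A ◁ h ≫ μ F S.A N.X ≫ F.map N.l = F.map M.l ≫ h := by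
  have h1 : S'.A ◁ h ≫ φ.l N = φ.f.inv ▷ F.obj M.X ≫ F.obj S.A ◁ h ≫ μ F S.A N.X ≫ F.map N.l := by
    rw [AlgIso.l, whisker_exchange_assoc]
  have h2 : φ.l M ≫ h = φ.f.inv ▷ F.obj M.X ≫ μ F S.A M.X ≫ F.map M.l ≫ h := by
    rw [AlgIso.l]
    simp only [Category.assoc]
  rw [h1, h2, cancel_epi]
  constructor
  · intro h3
    rw [h3, Functor.Monoidal.δ_μ_assoc]
  · intro h3
    rw [← h3, Functor.Monoidal.μ_δ_assoc]

theorem AlgIso.right_iff (φ : AlgIso F S S') {M N : Bim S} (h : F.obj M.X ⟶ F.obj N.X) :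
    h ▷ S'.A ≫ φ.r N = φ.r M ≫ h ↔ δ F M.X S.A ≫ h ▷ F.obj S.A ≫ μ F N.X S.A ≫ F.map N.r = F.map M.r ≫ h := by
  have h1 : h ▷ S'.A ≫ φ.r N = F.obj M.X ◁ φ.f.inv ≫ h ▷ F.obj S.A ≫ μ F N.X S.A ≫ F.map N.r := by
    rw [AlgIso.r, ← whisker_exchange_assoc]
  have h2 : φ.r M ≫ h = F.obj M.X ◁ φ.f.inv ≫ μ F M.X S.A ≫ F.map M.r ≫ h := by
    rw [AlgIso.r]
    simp only [Category.assoc]
  rw [h1, h2, cancel_epi]
  constructor
  · intro h3
    rw [h3, Functor.Monoidal.δ_μ_assoc]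
  · intro h3
    rw [← h3, Functor.Monoidal.μ_δ_assoc]

private theorem E3e_fsum {P Q : Bim S'} {ι : Type} [Fintype ι] (k : ι → (P ⟶ Q)) :
    (Bim.fLin (K := K) P Q) (∑ a, k a) = ∑ a, Bim.Hom.f (k a) :=
  map_sum (Bim.fLin (K := K) P Q) _ _

private theorem E3e_l_mem (Wt : Wts K F p) {a : ZMod p} {x M : C} {k : F.obj x ⟶ F.obj M}
    (hk : k ∈ Wt.W a x M) (y : C) : δ F y x ≫ F.obj y ◁ k ≫ μ F y M ∈ Wt.W a (y ⊗ x) (y ⊗ M) := by
  have h := Wt.ten (zero_add a) (Wt.id y) hk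
  rwa [id_tensorHom] at h

private theorem E3e_r_mem (Wt : Wts K F p) {a : ZMod p} {x M : C} {k : F.obj x ⟶ F.obj M}
    (hk : k ∈ Wt.W a x M) (y : C) : δ F x y ≫ k ▷ F.obj y ≫ μ F M y ∈ Wt.W a (x ⊗ y) (M ⊗ y) := by
  have h := Wt.ten (add_zero a) hk (Wt.id y)
  rwa [tensorHom_id] at h

private theorem E3e_eq (Wt : Wts K F p) {x y : C} {k k' : ZMod p → (F.obj x ⟶ F.obj y)}
    (hk : ∀ a, k a ∈ Wt.W a x y) (hk' : ∀ a, k' a ∈ Wt.W a x y) (h : ∑ a, k a = ∑ a, k' a) (a : ZMod p) :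
    k a = k' a := by
  have h1 := Wt.uniq (fun a => k a - k' a) (fun a => Submodule.sub_mem _ (hk a) (hk' a))
    (by rw [Finset.sum_sub_distrib, h, sub_self]) a
  exact sub_eq_zero.mp h1

private theorem E3e_dec (φ : AlgIso F S S') (Wt : Wts K F p) {M N : Bim S} (h : F.obj M.X ⟶ F.obj N.X)
    (h1 : S'.A ◁ h ≫ φ.l N = φ.l M ≫ h) (h2 : h ▷ S'.A ≫ φ.r N = φ.r M ≫ h) (h3 : h ≫ F.map N.p = h) :
    ∃ k : ZMod p → (F.obj M.X ⟶ F.obj N.X), (∀ a, k a ∈ Wt.W a M.X N.X) ∧ (∀ a, S'.A ◁ k a ≫ φ.l N = φ.l M ≫ k a) ∧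
      (∀ a, k a ▷ S'.A ≫ φ.r N = φ.r M ≫ k a) ∧ (∀ a, k a ≫ F.map N.p = k a) ∧ ∑ a, k a = h := by
  obtain ⟨k, hk, hs⟩ := Wt.dec h
  have hl0 := (φ.left_iff h).1 h1
  have hr0 := (φ.right_iff h).1 h2
  refine ⟨k, hk, fun a => (φ.left_iff (k a)).2 ?_, fun a => (φ.right_iff (k a)).2 ?_, ?_, hs⟩
  · refine E3e_eq Wt (k := fun a => δ F S.A M.X ≫ F.obj S.A ◁ k a ≫ μ F S.A N.X ≫ F.map N.l)
      (k' := fun a => F.map M.l ≫ k a) (fun a => ?_) (fun a => Wt.comp (zero_add a) (Wt.map _) (hk a)) ?_ a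
    · have h4 := Wt.comp (add_zero a) (E3e_l_mem Wt (hk a) S.A) (Wt.map N.l)
      simpa only [Category.assoc] using h4
    · have e : ∑ a, δ F S.A M.X ≫ F.obj S.A ◁ k a ≫ μ F S.A N.X ≫ F.map N.l =
          δ F S.A M.X ≫ F.obj S.A ◁ (∑ a, k a) ≫ μ F S.A N.X ≫ F.map N.l := by
        rw [whiskerLeft_sum, Preadditive.sum_comp, Preadditive.comp_sum]
      rw [e, hs, hl0, ← hs, Preadditive.comp_sum]
  · refine E3e_eq Wt (k := fun a => δ F M.X S.A ≫ k a ▷ F.obj S.A ≫ μ F N.X S.A ≫ F.map N.r)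
      (k' := fun a => F.map M.r ≫ k a) (fun a => ?_) (fun a => Wt.comp (zero_add a) (Wt.map _) (hk a)) ?_ a
    · have h4 := Wt.comp (add_zero a) (E3e_r_mem Wt (hk a) S.A) (Wt.map N.r)
      simpa only [Category.assoc] using h4
    · have e : ∑ a, δ F M.X S.A ≫ k a ▷ F.obj S.A ≫ μ F N.X S.A ≫ F.map N.r =
          δ F M.X S.A ≫ (∑ a, k a) ▷ F.obj S.A ≫ μ F N.X S.A ≫ F.map N.r := by
        rw [sum_whiskerRight, Preadditive.sum_comp, Preadditive.comp_sum]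
      rw [e, hs, hr0, ← hs, Preadditive.comp_sum]
  · refine E3e_eq Wt (fun a => Wt.comp (add_zero a) (hk a) (Wt.map _)) hk ?_
    rw [← Preadditive.sum_comp, hs, h3]

theorem AlgIso.bim_dec (φ : AlgIso F S S') (Wt : Wts K F p) {M N : Bim S} (h : φ.FBf.obj M ⟶ φ.FBf.obj N) :
    ∃ k : ZMod p → (φ.FBf.obj M ⟶ φ.FBf.obj N), (∀ a, Bim.Hom.f (k a) ∈ Wt.W a M.X N.X) ∧ ∑ a, k a = h := by
  obtain ⟨k, hk, hl, hr, hp, hs⟩ := E3e_dec φ Wt (M := M) (N := N) (Bim.Hom.f h) h.hl h.hr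
    ((congrArg (fun t => Bim.Hom.f h ≫ t) (φ.FB_p N).symm).trans h.hp)
  refine ⟨fun a => (⟨k a, hl a, hr a, (congrArg (fun t => k a ≫ t) (φ.FB_p N)).trans (hp a)⟩ :
    Bim.Hom (φ.FB M) (φ.FB N)), hk, ?_⟩
  apply Bim.hom_ext
  exact (E3e_fsum (K := K) _).trans hs

theorem AlgIso.bim_uniq (φ : AlgIso F S S') (Wt : Wts K F p) {M N : Bim S}
    (k : ZMod p → (φ.FBf.obj M ⟶ φ.FBf.obj N)) (hk : ∀ a, Bim.Hom.f (k a) ∈ Wt.W a M.X N.X) (h : ∑ a, k a = 0)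
    (a : ZMod p) : k a = 0 := by
  apply Bim.hom_ext
  refine Wt.uniq (x := M.X) (y := N.X) (fun a => Bim.Hom.f (k a)) hk ?_ a
  have h1 := E3e_fsum (K := K) k
  rw [h, map_zero] at h1
  exact h1.symm

theorem AlgIso.bim_lift (φ : AlgIso F S S') (Wt : Wts K F p) {M N : Bim S} (h : φ.FBf.obj M ⟶ φ.FBf.obj N)
    (hh : Bim.Hom.f h ∈ Wt.W 0 M.X N.X) : ∃! f : M ⟶ N, φ.FBf.map f = h := by
  obtain ⟨g, hg, -⟩ := Wt.lift (x := M.X) (y := N.X) (Bim.Hom.f h) hh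
  obtain ⟨f, hf, -⟩ := φ.exists_lift (fun {_ _ _ _} e => Wt.faithful e) h g hg
  refine ⟨f, hf, fun f' hf' => ?_⟩
  have hf' : φ.FBf.map f' = h := hf'
  apply Bim.hom_ext
  apply Wt.faithful
  rw [← φ.FBf_map_f, ← φ.FBf_map_f, hf, hf']

theorem AlgIso.exists_transport (φ : AlgIso F S S') (Wt : Wts K F p) (M : Bim S) (X : C) {a : ZMod p}
    (κ : F.obj X ≅ F.obj M.X) (hκ : κ.hom ∈ Wt.W a X M.X) :
    ∃ (M' : Bim S) (e : φ.FBf.obj M' ≅ φ.FBf.obj M), Bim.Hom.f e.hom ∈ Wt.W a M'.X M.X := by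
  have hκi : κ.inv ∈ Wt.W (-a) M.X X := Wt.inv (add_neg_cancel a) κ hκ
  obtain ⟨l', hl', -⟩ := Wt.lift (E3e_o F (𝟙 (F.obj S.A)) κ.hom ≫ F.map M.l ≫ κ.inv)
    (Wt.comp (add_neg_cancel a) (Wt.ten (zero_add a) (Wt.id _) hκ) (Wt.comp (zero_add (-a)) (Wt.map _) hκi))
  obtain ⟨r', hr', -⟩ := Wt.lift (E3e_o F κ.hom (𝟙 (F.obj S.A)) ≫ F.map M.r ≫ κ.inv)
    (Wt.comp (add_neg_cancel a) (Wt.ten (add_zero a) hκ (Wt.id _)) (Wt.comp (zero_add (-a)) (Wt.map _) hκi))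
  have hl : F.map l' ≫ κ.hom = E3e_o F (𝟙 (F.obj S.A)) κ.hom ≫ F.map M.l := by
    have h1 : F.map l' = _ := hl'
    rw [h1, Category.assoc, Category.assoc, Iso.inv_hom_id, Category.comp_id]
  have hr : F.map r' ≫ κ.hom = E3e_o F κ.hom (𝟙 (F.obj S.A)) ≫ F.map M.r := by
    have h1 : F.map r' = _ := hr'
    rw [h1, Category.assoc, Category.assoc, Iso.inv_hom_id, Category.comp_id]
  have ewl : ∀ {x y z : C} (f : x ⟶ y), F.map (z ◁ f) = E3e_o F (𝟙 (F.obj z)) (F.map f) := by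
    intro x y z f
    rw [← F.map_id, E3e_om, id_tensorHom]
  have ewr : ∀ {x y z : C} (f : x ⟶ y), F.map (f ▷ z) = E3e_o F (F.map f) (𝟙 (F.obj z)) := by
    intro x y z f
    rw [← F.map_id, E3e_om, tensorHom_id]
  have e1 : ∀ {x y : C}, 𝟙 (F.obj (x ⊗ y)) = E3e_o F (𝟙 (F.obj x)) (𝟙 (F.obj y)) := by
    intro x y
    rw [← F.map_id, ← F.map_id, ← F.map_id, E3e_om, id_tensorHom_id]
  have ll : S.mul ▷ X ≫ l' = (α_ _ _ _).hom ≫ S.A ◁ l' ≫ l' := by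
    apply Wt.faithful
    rw [← cancel_mono κ.hom]
    simp only [F.map_comp, Category.assoc]
    rw [hl, ewr, ewl, ← Category.assoc, E3e_oo, Category.id_comp, Category.comp_id]
    conv_rhs => rw [← Category.assoc (E3e_o F _ _), E3e_oo, hl, Category.id_comp]
    have h1 : E3e_o F (F.map S.mul) κ.hom = E3e_o F (𝟙 _) κ.hom ≫ F.map (S.mul ▷ M.X) := by
      rw [ewr, E3e_oo, Category.id_comp, Category.comp_id]
    rw [h1, Category.assoc, ← F.map_comp, M.ll, F.map_comp, F.map_comp, e1, ← Category.assoc, E3e_oa,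
      Category.assoc, ewl]
    congr 1
    rw [← Category.assoc, E3e_oo, Category.id_comp]
  have rr : X ◁ S.mul ≫ r' = (α_ _ _ _).inv ≫ r' ▷ S.A ≫ r' := by
    apply Wt.faithful
    rw [← cancel_mono κ.hom]
    simp only [F.map_comp, Category.assoc]
    rw [hr, ewl, ewr, ← Category.assoc, E3e_oo, Category.id_comp, Category.comp_id]
    conv_rhs => rw [← Category.assoc (E3e_o F _ _), E3e_oo, hr, Category.id_comp]
    have h1 : E3e_o F κ.hom (F.map S.mul) = E3e_o F κ.hom (𝟙 _) ≫ F.map (M.X ◁ S.mul) := by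
      rw [ewl, E3e_oo, Category.id_comp, Category.comp_id]
    have h2 : E3e_o F κ.hom (E3e_o F (𝟙 (F.obj S.A)) (𝟙 (F.obj S.A))) ≫ F.map (α_ _ _ _).inv =
        F.map (α_ _ _ _).inv ≫ E3e_o F (E3e_o F κ.hom (𝟙 (F.obj S.A))) (𝟙 (F.obj S.A)) := by
      rw [← cancel_epi (F.map (α_ _ _ _).hom), ← Category.assoc, ← E3e_oa, Category.assoc, ← F.map_comp,
        Iso.hom_inv_id, F.map_id, Category.comp_id, ← Category.assoc, ← F.map_comp, Iso.hom_inv_id, F.map_id,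
        Category.id_comp]
    rw [h1, Category.assoc, ← F.map_comp, M.rr, F.map_comp, F.map_comp, e1, ← Category.assoc, h2,
      Category.assoc, ewr]
    congr 1
    rw [← Category.assoc, E3e_oo, Category.id_comp]
  have lr : l' ▷ S.A ≫ r' = (α_ _ _ _).hom ≫ S.A ◁ r' ≫ l' := by
    apply Wt.faithful
    rw [← cancel_mono κ.hom]
    simp only [F.map_comp, Category.assoc]
    rw [hl, hr, ewl, ewr, ← Category.assoc, E3e_oo, hl, Category.id_comp]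
    conv_rhs => rw [← Category.assoc (E3e_o F _ _), E3e_oo, hr, Category.id_comp]
    have h1 : E3e_o F (E3e_o F (𝟙 (F.obj S.A)) κ.hom ≫ F.map M.l) (𝟙 (F.obj S.A)) =
        E3e_o F (E3e_o F (𝟙 (F.obj S.A)) κ.hom) (𝟙 (F.obj S.A)) ≫ F.map (M.l ▷ S.A) := by
      rw [ewr, E3e_oo, Category.id_comp]
    rw [h1, Category.assoc, ← F.map_comp, M.lr, F.map_comp, F.map_comp, ← Category.assoc, E3e_oa,
      Category.assoc, ewl]
    congr 1
    rw [← Category.assoc, E3e_oo, Category.id_comp]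
  have ul : F.map ((λ_ X).inv ≫ S.one ▷ X ≫ l') ≫ κ.hom = κ.hom ≫ F.map M.p := by
    rw [Bim.p]
    simp only [F.map_comp, Category.assoc]
    rw [hl, ewr, ewr, ← Category.assoc (E3e_o F _ _) (E3e_o F _ _), E3e_oo, Category.id_comp, Category.comp_id,
      ← Category.assoc κ.hom, ← E3e_ol, Category.assoc, ← Category.assoc (E3e_o F _ _) (E3e_o F _ _), E3e_oo,
      Category.id_comp, Category.comp_id]
  have ur : F.map ((ρ_ X).inv ≫ X ◁ S.one ≫ r') ≫ κ.hom = κ.hom ≫ F.map M.p := by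
    rw [Bim.p_r]
    simp only [F.map_comp, Category.assoc]
    rw [hr, ewl, ewl, ← Category.assoc (E3e_o F _ _) (E3e_o F _ _), E3e_oo, Category.id_comp, Category.comp_id,
      ← Category.assoc κ.hom, ← E3e_or, Category.assoc, ← Category.assoc (E3e_o F _ _) (E3e_o F _ _), E3e_oo,
      Category.id_comp, Category.comp_id]
  have uu : (λ_ X).inv ≫ S.one ▷ X ≫ l' = (ρ_ X).inv ≫ X ◁ S.one ≫ r' := by
    apply Wt.faithful
    rw [← cancel_mono κ.hom, ul, ur]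
  have hL : S'.A ◁ κ.hom ≫ φ.l M = φ.l ⟨X, l', r', ll, rr, lr, uu⟩ ≫ κ.hom := by
    rw [φ.left_iff (M := ⟨X, l', r', ll, rr, lr, uu⟩)]
    show _ = F.map l' ≫ κ.hom
    rw [hl, E3e_o, id_tensorHom]
    simp only [Category.assoc]
  have hR : κ.hom ▷ S'.A ≫ φ.r M = φ.r ⟨X, l', r', ll, rr, lr, uu⟩ ≫ κ.hom := by
    rw [φ.right_iff (M := ⟨X, l', r', ll, rr, lr, uu⟩)]
    show _ = F.map r' ≫ κ.hom
    rw [hr, E3e_o, tensorHom_id]
    simp only [Category.assoc]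
  refine ⟨⟨X, l', r', ll, rr, lr, uu⟩, E3e_iso (P := φ.FB ⟨X, l', r', ll, rr, lr, uu⟩) (Q := φ.FB M) κ hL hR, ?_⟩
  show κ.hom ≫ (φ.FB M).p ∈ Wt.W a X M.X
  rw [φ.FB_p]
  exact Wt.comp (add_zero a) hκ (Wt.map _)

end Pool.Agent.SFC
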