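import Pool.Agent.SFC.Fnc
import Pool.Agent.SFC.E3e

/-!
# SFC/E3f: weights and the tensor product of bimodule maps
-/

set_option autoImplicit false

noncomputable section

open CategoryTheory MonoidalCategory
open scoped BigOperators

namespace Pool.Agent.SFC

universe v u v' u' w

open Functor.LaxMonoidal Functor.OplaxMonoidal

variable {K : Type w} [Field K] {C : Type u} [Category.{v} C] [Preadditive C] [Linear K C] [MonoidalCategory C]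
  [MonoidalPreadditive C] [MonoidalLinear K C]
  {D : Type u'} [Category.{v'} D] [Preadditive D] [Linear K D] [MonoidalCategory D] [MonoidalPreadditive D]
  [MonoidalLinear K D] {F : C ⥤ D} [F.Monoidal] {p : ℕ} [NeZero p] {S : SFrob C} {S' : SFrob D}

private theorem E3f_gen {D : Type u'} [Category.{v'} D] {Z P P' P'' R : D} (a : Z ⟶ P) (e1 : P ⟶ P) (fr : P ⟶ P')
    (e2 : P' ⟶ P') (gl : P' ⟶ P'') (e3 : P'' ⟶ P'') (mu : P'' ⟶ R) (E : R ⟶ R)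
    (h1 : (e1 ≫ fr) ≫ e2 ≫ gl = (fr ≫ gl) ≫ e3) (h2 : e3 ≫ mu = mu ≫ E) (h3 : E ≫ E = E) :
    a ≫ ((e1 ≫ fr) ≫ (e2 ≫ gl)) ≫ (mu ≫ E) = a ≫ ((fr ≫ gl) ≫ mu) ≫ E := by
  rw [h1, Category.assoc (fr ≫ gl), ← Category.assoc e3, h2, Category.assoc mu, h3, Category.assoc (fr ≫ gl)]

/-- the composite is a compression of `f ⊗ g` -/
private theorem E3f_eq {C : Type u} [Category.{v} C] [MonoidalCategory C] {D : Type u'} [Category.{v'} D]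
    [MonoidalCategory D] {F : C ⥤ D} [F.Monoidal] {S : SFrob C} {S' : SFrob D} (φ : AlgIso F S S')
    {M M' N N' : Bim S} (f : φ.FB M ⟶ φ.FB M') (g : φ.FB N ⟶ φ.FB N') :
    Bim.Hom.f (φ.de M N ≫ (Bim.wR f (φ.FB N) ≫ Bim.wL (φ.FB M') g) ≫ φ.mu M' N') =
      F.map (Bim.e M N) ≫ (δ F M.X N.X ≫ (Bim.Hom.f f ⊗ₘ Bim.Hom.f g) ≫ μ F M'.X N'.X) ≫ F.map (Bim.e M' N') := by
  have h1 : (Bim.e (φ.FB M) (φ.FB N) ≫ Bim.Hom.f f ▷ (φ.FB N).X) ≫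
      Bim.e (φ.FB M') (φ.FB N) ≫ (φ.FB M').X ◁ Bim.Hom.f g =
      (Bim.Hom.f f ▷ (φ.FB N).X ≫ (φ.FB M').X ◁ Bim.Hom.f g) ≫ Bim.e (φ.FB M') (φ.FB N') := by
    rw [← Bim.f_e, Category.assoc, Category.assoc, Bim.e_f, ← Category.assoc (Bim.e _ _) (Bim.e _ _), Bim.e_e]
  have h2 := φ.e_mu M' N'
  have h3 : F.map (Bim.e M' N') ≫ F.map (Bim.e M' N') = F.map (Bim.e M' N') := by
    rw [← F.map_comp, Bim.e_e]
  refine (E3f_gen (F.map (Bim.e M N) ≫ δ F M.X N.X) (Bim.e (φ.FB M) (φ.FB N)) (Bim.Hom.f f ▷ (φ.FB N).X)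
    (Bim.e (φ.FB M') (φ.FB N)) ((φ.FB M').X ◁ Bim.Hom.f g) (Bim.e (φ.FB M') (φ.FB N')) (μ F M'.X N'.X)
    (F.map (Bim.e M' N')) h1 h2 h3).trans ?_
  have h4 : (Bim.Hom.f f ⊗ₘ Bim.Hom.f g) = Bim.Hom.f f ▷ (φ.FB N).X ≫ (φ.FB M').X ◁ Bim.Hom.f g :=
    MonoidalCategory.tensorHom_def _ _
  have h5 : ∀ {Z P R R' : D} (a : Z ⟶ P) (d : P ⟶ R) (t : R ⟶ R') {R'' R3 : D} (m : R' ⟶ R'') (E : R'' ⟶ R3),
      (a ≫ d) ≫ (t ≫ m) ≫ E = a ≫ (d ≫ t ≫ m) ≫ E := by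
    intros
    simp only [Category.assoc]
  exact (h5 _ _ _ _ _).trans (congrArg (fun t => F.map (Bim.e M N) ≫ (δ F M.X N.X ≫ t ≫ μ F M'.X N'.X) ≫
    F.map (Bim.e M' N')) h4.symm)

theorem AlgIso.bim_ten (φ : AlgIso F S S') (Wt : Wts K F p) {a b c : ZMod p} (h : a + b = c) {M M' N N' : Bim S}
    (f : φ.FB M ⟶ φ.FB M') (g : φ.FB N ⟶ φ.FB N') (hf : Bim.Hom.f f ∈ Wt.W a M.X M'.X)
    (hg : Bim.Hom.f g ∈ Wt.W b N.X N'.X) :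
    Bim.Hom.f (φ.de M N ≫ (Bim.wR f (φ.FB N) ≫ Bim.wL (φ.FB M') g) ≫ φ.mu M' N') ∈
      Wt.W c (M.X ⊗ N.X) (M'.X ⊗ N'.X) := by
  rw [E3f_eq]
  exact Wt.comp (zero_add c) (Wt.map _) (Wt.comp (add_zero c) (Wt.ten h hf hg) (Wt.map _))

theorem AlgIso.exists_T (φ : AlgIso F S S') (Wt : Wts K F p) (a : ZMod p) :
    ∃ (M : Bim S) (e : φ.FBf.obj M ≅ φ.FBf.obj (Bim.unt S)), Bim.Hom.f e.hom ∈ Wt.W a M.X S.A := by
  let κ : F.obj (Wt.T a ⊗ S.A) ≅ F.obj S.A := (Functor.Monoidal.μIso F _ _).symm ≪≫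
    whiskerRightIso (Wt.τ a) (F.obj S.A) ≪≫ Functor.Monoidal.μIso F _ _ ≪≫ F.mapIso (λ_ S.A)
  have hκ : κ.hom ∈ Wt.W a (Wt.T a ⊗ S.A) S.A := by
    have h1 : κ.hom = (δ F _ _ ≫ ((Wt.τ a).hom ⊗ₘ 𝟙 (F.obj S.A)) ≫ μ F _ _) ≫ F.map (λ_ S.A).hom := by
      rw [tensorHom_id]
      simp [κ]
    rw [h1]
    exact Wt.comp (add_zero a) (Wt.ten (add_zero a) (Wt.τ_mem a) (Wt.id _)) (Wt.map _)
  exact φ.exists_transport Wt (Bim.unt S) (Wt.T a ⊗ S.A) κ hκ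

end Pool.Agent.SFC
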