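import Pool.Agent.SFC.Fna

/-!
# SFC/Fnb: images of group-like objects and of algebras; isomorphisms of algebras from isomorphisms of the summands

`SFrob.map F S`: `A = F A`, `mul = μ ≫ F mul`, `one = ε ≫ F one`, `cm = F cm ≫ δ`, `cn = F cn ≫ η`; all fields follow from the fields of `S` by `F.map` and the monoidality of `F` (`μ`, `δ` inverse to each other, `ε`, `η` inverse to
each other, associativity, unitality, naturality).  `Gl.map`, `IsSum.map` the same way (`F.map` is additive and linear).  `AlgIso.refl`: `φ = 𝟙`.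
`exists_algIso`: `th' : Gl C n`, `s a : F (th'.T a) ≅ th.T a` compatible with `u` and `m`; `S'.A = ⨁ th'.T a`, `S.A = ⨁ th.T a`.  `f := ∑ a, F (q a) ≫ s a ≫ i a`, inverse `∑ a, q a ≫ (s a).inv ≫ F (i a)`.  `mul`, `one`: on components, by
`hS'.mul`, `hS.mul`, `hS.one` and the hypotheses.  `cn`: the components with `a ≠ 0` of both sides are zero, the component `0` by `cn0` (`(s 0)` and `u` correspond).  `cm`: apply `cm_of_iso` (SFC/A0b) to the algebras `S'.map F` and `S`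
and the isomorphism `f`.
-/

set_option autoImplicit false

noncomputable section

open CategoryTheory MonoidalCategory
open scoped BigOperators

namespace Pool.Agent.SFC

universe v u v' u' w

open Functor.LaxMonoidal Functor.OplaxMonoidal

section

variable {C : Type u} [Category.{v} C] [MonoidalCategory C] {D : Type u'} [Category.{v'} D] [MonoidalCategory D]
  (F : C ⥤ D) [F.Monoidal]

/-- the image of a special Frobenius algebra -/
def SFrob.map (S : SFrob C) : SFrob D where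
  A := F.obj S.A
  mul := μ F _ _ ≫ F.map S.mul
  one := ε F ≫ F.map S.one
  cm := F.map S.cm ≫ δ F _ _
  cn := F.map S.cn ≫ η F
  one_mul := by
    rw [comp_whiskerRight, Category.assoc, μ_natural_left_assoc, ← F.map_comp, S.one_mul,
      ← Functor.LaxMonoidal.left_unitality]
  mul_one := by
    rw [MonoidalCategory.whiskerLeft_comp, Category.assoc, μ_natural_right_assoc, ← F.map_comp, S.mul_one,
      ← Functor.LaxMonoidal.right_unitality]
  assoc := by
    rw [comp_whiskerRight, MonoidalCategory.whiskerLeft_comp, Category.assoc, Category.assoc, μ_natural_left_assoc,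
      μ_natural_right_assoc, ← F.map_comp, ← F.map_comp, S.assoc, F.map_comp,
      Functor.LaxMonoidal.associativity_assoc]
  cn_cm := by
    rw [comp_whiskerRight, Category.assoc, δ_natural_left_assoc, ← F.map_comp_assoc, S.cn_cm,
      ← Functor.OplaxMonoidal.left_unitality]
  cm_cn := by
    rw [MonoidalCategory.whiskerLeft_comp, Category.assoc, δ_natural_right_assoc, ← F.map_comp_assoc, S.cm_cn,
      ← Functor.OplaxMonoidal.right_unitality]
  coassoc := by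
    rw [comp_whiskerRight, MonoidalCategory.whiskerLeft_comp, Category.assoc, Category.assoc, Category.assoc,
      δ_natural_left_assoc, δ_natural_right_assoc, ← F.map_comp_assoc, ← F.map_comp_assoc, ← S.coassoc,
      Functor.OplaxMonoidal.associativity, F.map_comp_assoc, F.map_comp_assoc, F.map_comp_assoc]
  frobL := by
    have h : F.obj S.A ◁ δ F S.A S.A ≫ (α_ _ _ _).inv ≫ μ F S.A S.A ▷ F.obj S.A =
        μ F _ _ ≫ F.map (α_ _ _ _).inv ≫ δ F _ _ := by
      rw [Functor.Monoidal.map_associator_inv, Category.assoc, Category.assoc, Category.assoc, Category.assoc,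
        Functor.Monoidal.μ_δ, Category.comp_id, Functor.Monoidal.μ_δ_assoc]
    rw [comp_whiskerRight, MonoidalCategory.whiskerLeft_comp, Category.assoc, Category.assoc, reassoc_of% h,
      ← F.map_comp_assoc, S.frobL, μ_natural_right_assoc, δ_natural_left, F.map_comp_assoc, F.map_comp_assoc]
  frobR := by
    have h : δ F S.A S.A ▷ F.obj S.A ≫ (α_ _ _ _).hom ≫ F.obj S.A ◁ μ F S.A S.A =
        μ F _ _ ≫ F.map (α_ _ _ _).hom ≫ δ F _ _ := by
      rw [Functor.Monoidal.map_associator, Category.assoc, Category.assoc, Category.assoc, Category.assoc,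
        Functor.Monoidal.μ_δ, Category.comp_id, Functor.Monoidal.μ_δ_assoc]
    rw [comp_whiskerRight, MonoidalCategory.whiskerLeft_comp, Category.assoc, Category.assoc, reassoc_of% h,
      ← F.map_comp_assoc, S.frobR, μ_natural_left_assoc, δ_natural_right, F.map_comp_assoc, F.map_comp_assoc]
  sep := by
    rw [Category.assoc, Functor.Monoidal.δ_μ_assoc, ← F.map_comp, S.sep, F.map_id]

/-- the identity of `F A` -/
def AlgIso.refl (S : SFrob C) : AlgIso F S (S.map F) where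
  f := Iso.refl _
  mul := by
    show F.map S.mul ≫ 𝟙 _ = δ F _ _ ≫ (𝟙 _ ⊗ₘ 𝟙 _) ≫ μ F _ _ ≫ F.map S.mul
    rw [id_tensorHom_id, Category.id_comp, Category.comp_id, Functor.Monoidal.δ_μ_assoc]
  one := by
    show F.map S.one ≫ 𝟙 _ = η F ≫ ε F ≫ F.map S.one
    rw [Category.comp_id, Functor.Monoidal.η_ε_assoc]
  cm := by
    show F.map S.cm ≫ δ F _ _ ≫ (𝟙 _ ⊗ₘ 𝟙 _) = 𝟙 _ ≫ F.map S.cm ≫ δ F _ _
    rw [id_tensorHom_id, Category.id_comp, Category.comp_id]
  cn := by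
    show F.map S.cn ≫ η F = 𝟙 _ ≫ F.map S.cn ≫ η F
    rw [Category.id_comp]

end

section

variable {K : Type w} [Field K] {C : Type u} [Category.{v} C] [Preadditive C] [Linear K C] [MonoidalCategory C]
  [MonoidalPreadditive C] [MonoidalLinear K C] {D : Type u'} [Category.{v'} D] [Preadditive D] [Linear K D]
  [MonoidalCategory D] [MonoidalPreadditive D] [MonoidalLinear K D] (F : C ⥤ D) [F.Monoidal] {n : ℕ} [NeZero n]

/-- the image of group-like objects -/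
def Gl.map (th : Gl C n) (hne : ∀ a : ZMod n, a ≠ 0 → ∀ f : 𝟙_ D ⟶ F.obj (th.T a), f = 0) : Gl D n where
  T a := F.obj (th.T a)
  u := Functor.Monoidal.εIso F ≪≫ F.mapIso th.u
  m a b c h := Functor.Monoidal.μIso F _ _ ≪≫ F.mapIso (th.m a b c h)
  unitL := by
    intro a h
    show (ε F ≫ F.map th.u.hom) ▷ F.obj (th.T a) ≫ μ F _ _ ≫ F.map (th.m 0 a a h).hom = (λ_ (F.obj (th.T a))).hom
    rw [comp_whiskerRight, Category.assoc, μ_natural_left_assoc, ← F.map_comp, th.unitL,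
      ← Functor.LaxMonoidal.left_unitality]
  unitR := by
    intro a h
    show F.obj (th.T a) ◁ (ε F ≫ F.map th.u.hom) ≫ μ F _ _ ≫ F.map (th.m a 0 a h).hom = (ρ_ (F.obj (th.T a))).hom
    rw [MonoidalCategory.whiskerLeft_comp, Category.assoc, μ_natural_right_assoc, ← F.map_comp, th.unitR,
      ← Functor.LaxMonoidal.right_unitality]
  assoc := by
    intro a b c ab bc abc h1 h2 h3 h4
    show (μ F _ _ ≫ F.map (th.m a b ab h1).hom) ▷ F.obj (th.T c) ≫ μ F _ _ ≫ F.map (th.m ab c abc h2).hom =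
      (α_ _ _ _).hom ≫ F.obj (th.T a) ◁ (μ F _ _ ≫ F.map (th.m b c bc h3).hom) ≫ μ F _ _ ≫
        F.map (th.m a bc abc h4).hom
    rw [comp_whiskerRight, MonoidalCategory.whiskerLeft_comp, Category.assoc, Category.assoc, μ_natural_left_assoc,
      μ_natural_right_assoc, ← F.map_comp, ← F.map_comp, th.assoc a b c ab bc abc h1 h2 h3 h4, F.map_comp,
      Functor.LaxMonoidal.associativity_assoc]
  ne := hne

private theorem Fnb_zero {F : C ⥤ D} (hadd : ∀ {x y : C} (f g : x ⟶ y), F.map (f + g) = F.map f + F.map g)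
    {x y : C} : F.map (0 : x ⟶ y) = 0 := by
  have h := hadd (0 : x ⟶ y) 0
  rw [add_zero] at h
  exact left_eq_add.1 h

private theorem Fnb_sum {F : C ⥤ D} (hadd : ∀ {x y : C} (f g : x ⟶ y), F.map (f + g) = F.map f + F.map g)
    {x y : C} {κ : Type*} (s : Finset κ) (f : κ → (x ⟶ y)) : F.map (∑ a ∈ s, f a) = ∑ a ∈ s, F.map (f a) := by
  classical
  induction s using Finset.induction_on with
  | empty => rw [Finset.sum_empty, Finset.sum_empty, Fnb_zero hadd]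
  | insert a s ha ih => rw [Finset.sum_insert ha, Finset.sum_insert ha, hadd, ih]

/-- the image of a direct sum -/
def IsSum.map {th : Gl C n} {S : SFrob C} (hS : IsSum K th S)
    (hne : ∀ a : ZMod n, a ≠ 0 → ∀ f : 𝟙_ D ⟶ F.obj (th.T a), f = 0)
    (hadd : ∀ {x y : C} (f g : x ⟶ y), F.map (f + g) = F.map f + F.map g)
    (hsmul : ∀ {x y : C} (c : K) (f : x ⟶ y), F.map (c • f) = c • F.map f) : IsSum K (th.map F hne) (S.map F) where
  i a := F.map (hS.i a)
  q a := F.map (hS.q a)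
  iq := by
    intro a
    show F.map (hS.i a) ≫ F.map (hS.q a) = 𝟙 (F.obj (th.T a))
    rw [← F.map_comp, hS.iq, F.map_id]
  orth := by
    intro a b h
    show F.map (hS.i a) ≫ F.map (hS.q b) = (0 : F.obj (th.T a) ⟶ F.obj (th.T b))
    rw [← F.map_comp, hS.orth a b h, Fnb_zero hadd]
  sum := by
    show ∑ a, F.map (hS.q a) ≫ F.map (hS.i a) = 𝟙 (F.obj S.A)
    rw [← F.map_id, ← hS.sum, Fnb_sum hadd]
    exact Finset.sum_congr rfl fun a _ => (F.map_comp _ _).symm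
  mul := by
    intro a b c h
    show (F.map (hS.i a) ⊗ₘ F.map (hS.i b)) ≫ μ F _ _ ≫ F.map S.mul =
      (μ F _ _ ≫ F.map (th.m a b c h).hom) ≫ F.map (hS.i c)
    rw [μ_natural_assoc, ← F.map_comp, hS.mul a b c h, F.map_comp, Category.assoc]
  one := by
    show ε F ≫ F.map S.one = (ε F ≫ F.map th.u.hom) ≫ F.map (hS.i 0)
    rw [hS.one, F.map_comp, Category.assoc]
  cn := by
    intro a h
    show F.map (hS.i a) ≫ F.map S.cn ≫ η F = 0
    rw [← F.map_comp_assoc, hS.cn a h, Fnb_zero hadd, Limits.zero_comp]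
  cn0 := by
    show (ε F ≫ F.map th.u.hom) ≫ F.map (hS.i 0) ≫ F.map S.cn ≫ η F = (n : K) • 𝟙 (𝟙_ D)
    rw [Category.assoc, ← F.map_comp_assoc, ← F.map_comp_assoc, Category.assoc, hS.cn0, hsmul, F.map_id,
      Linear.smul_comp, Linear.comp_smul, Category.id_comp, Functor.Monoidal.ε_η]

private theorem Fnb_pick {th : Gl D n} {S : SFrob D} (h : IsSum K th S) {Z : D} (X : ∀ b, th.T b ⟶ Z) (a : ZMod n) :
    h.i a ≫ ∑ b, h.q b ≫ X b = X a := by
  rw [Preadditive.comp_sum, Finset.sum_eq_single a]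
  · rw [← Category.assoc, h.iq, Category.id_comp]
  · intro b _ hb
    rw [← Category.assoc, h.orth a b hb.symm, Limits.zero_comp]
  · intro h
    exact absurd (Finset.mem_univ _) h

private theorem Fnb_ext {th : Gl D n} {S : SFrob D} (h : IsSum K th S) {Z : D} {f g : S.A ⟶ Z}
    (hfg : ∀ a, h.i a ≫ f = h.i a ≫ g) : f = g := by
  rw [← Category.id_comp f, ← Category.id_comp g, ← h.sum, Preadditive.sum_comp, Preadditive.sum_comp]
  refine Finset.sum_congr rfl fun a _ => ?_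
  rw [Category.assoc, Category.assoc, hfg]

private theorem Fnb_ext2 {th : Gl D n} {S : SFrob D} (h : IsSum K th S) {Z : D} {f g : S.A ⊗ S.A ⟶ Z}
    (hfg : ∀ a b, (h.i a ⊗ₘ h.i b) ≫ f = (h.i a ⊗ₘ h.i b) ≫ g) : f = g := by
  have h1 : ∀ t : S.A ⊗ S.A ⟶ Z, t = ∑ a, ∑ b, (h.q a ⊗ₘ h.q b) ≫ (h.i a ⊗ₘ h.i b) ≫ t := by
    intro t
    have h2 : t = (∑ a, h.q a ≫ h.i a) ▷ S.A ≫ S.A ◁ (∑ b, h.q b ≫ h.i b) ≫ t := by
      rw [h.sum, id_whiskerRight, whiskerLeft_id, Category.id_comp, Category.id_comp]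
    conv_lhs => rw [h2]
    rw [sum_whiskerRight, Preadditive.sum_comp]
    refine Finset.sum_congr rfl fun a _ => ?_
    rw [whiskerLeft_sum, Preadditive.sum_comp, Preadditive.comp_sum]
    refine Finset.sum_congr rfl fun b _ => ?_
    rw [← Category.assoc, ← MonoidalCategory.tensorHom_def, ← Category.assoc,
      MonoidalCategory.tensorHom_comp_tensorHom]
  rw [h1 f, h1 g]
  exact Finset.sum_congr rfl fun a _ => Finset.sum_congr rfl fun b _ => by rw [hfg]

private theorem Fnb_iso {th₁ th₂ : Gl D n} {S₁ S₂ : SFrob D} (h₁ : IsSum K th₁ S₁) (h₂ : IsSum K th₂ S₂)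
    (s : ∀ a, th₁.T a ≅ th₂.T a) (su : th₁.u.hom ≫ (s 0).hom = th₂.u.hom)
    (sm : ∀ a b c (h : a + b = c), (th₁.m a b c h).hom ≫ (s c).hom =
      ((s a).hom ⊗ₘ (s b).hom) ≫ (th₂.m a b c h).hom) :
    ∃ φ : S₁.A ≅ S₂.A, (φ.hom ⊗ₘ φ.hom) ≫ S₂.mul = S₁.mul ≫ φ.hom ∧ S₁.one ≫ φ.hom = S₂.one ∧
      φ.hom ≫ S₂.cn = S₁.cn := by
  obtain ⟨f, hf⟩ : ∃ f : S₁.A ⟶ S₂.A, ∀ a, h₁.i a ≫ f = (s a).hom ≫ h₂.i a :=
    ⟨∑ b, h₁.q b ≫ (s b).hom ≫ h₂.i b, fun a => Fnb_pick h₁ _ a⟩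
  obtain ⟨g, hg⟩ : ∃ g : S₂.A ⟶ S₁.A, ∀ a, h₂.i a ≫ g = (s a).inv ≫ h₁.i a :=
    ⟨∑ b, h₂.q b ≫ (s b).inv ≫ h₁.i b, fun a => Fnb_pick h₂ _ a⟩
  refine ⟨⟨f, g, ?_, ?_⟩, ?_, ?_, ?_⟩
  · refine Fnb_ext h₁ fun a => ?_
    rw [reassoc_of% (hf a), hg, Iso.hom_inv_id_assoc, Category.comp_id]
  · refine Fnb_ext h₂ fun a => ?_
    rw [reassoc_of% (hg a), hf, Iso.inv_hom_id_assoc, Category.comp_id]
  · refine Fnb_ext2 h₁ fun a b => ?_
    show (h₁.i a ⊗ₘ h₁.i b) ≫ (f ⊗ₘ f) ≫ S₂.mul = (h₁.i a ⊗ₘ h₁.i b) ≫ S₁.mul ≫ f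
    rw [← Category.assoc, MonoidalCategory.tensorHom_comp_tensorHom, hf, hf,
      ← MonoidalCategory.tensorHom_comp_tensorHom, Category.assoc, h₂.mul a b (a + b) rfl,
      reassoc_of% (h₁.mul a b (a + b) rfl), hf, reassoc_of% (sm a b (a + b) rfl)]
  · show S₁.one ≫ f = S₂.one
    rw [h₁.one, h₂.one, Category.assoc, hf, reassoc_of% su]
  · show f ≫ S₂.cn = S₁.cn
    refine Fnb_ext h₁ fun a => ?_
    rw [reassoc_of% (hf a)]
    by_cases ha : a = 0
    · subst ha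
      rw [← cancel_epi th₁.u.hom, reassoc_of% su, h₂.cn0, h₁.cn0]
    · rw [h₂.cn a ha, h₁.cn a ha, Limits.comp_zero]

variable {F}

theorem exists_algIso {th' : Gl C n} {S' : SFrob C} (hS' : IsSum K th' S') {th : Gl D n} {S : SFrob D}
    (hS : IsSum K th S) (hadd : ∀ {x y : C} (f g : x ⟶ y), F.map (f + g) = F.map f + F.map g)
    (hsmul : ∀ {x y : C} (c : K) (f : x ⟶ y), F.map (c • f) = c • F.map f) (s : ∀ a, F.obj (th'.T a) ≅ th.T a)
    (su : F.map th'.u.hom ≫ (s 0).hom = η F ≫ th.u.hom)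
    (sm : ∀ a b c (h : a + b = c), F.map (th'.m a b c h).hom ≫ (s c).hom =
      δ F _ _ ≫ ((s a).hom ⊗ₘ (s b).hom) ≫ (th.m a b c h).hom) : Nonempty (AlgIso F S' S) := by
  have hne : ∀ a : ZMod n, a ≠ 0 → ∀ f : 𝟙_ D ⟶ F.obj (th'.T a), f = 0 := by
    intro a ha f
    rw [← Category.comp_id f, ← (s a).hom_inv_id, ← Category.assoc, th.ne a ha (f ≫ (s a).hom), Limits.zero_comp]
  obtain ⟨φ, hm, h1, hc⟩ := Fnb_iso (hS'.map F hne hadd hsmul) hS s (by
      show (ε F ≫ F.map th'.u.hom) ≫ (s 0).hom = th.u.hom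
      rw [Category.assoc, su, Functor.Monoidal.ε_η_assoc]) (by
      intro a b c h
      show (μ F _ _ ≫ F.map (th'.m a b c h).hom) ≫ (s c).hom = ((s a).hom ⊗ₘ (s b).hom) ≫ (th.m a b c h).hom
      rw [Category.assoc, sm, Functor.Monoidal.μ_δ_assoc])
  have key : ∃ φ : F.obj S'.A ≅ S.A, F.map S'.mul ≫ φ.hom = δ F _ _ ≫ (φ.hom ⊗ₘ φ.hom) ≫ S.mul ∧
      F.map S'.one ≫ φ.hom = η F ≫ S.one ∧ F.map S'.cm ≫ δ F _ _ ≫ (φ.hom ⊗ₘ φ.hom) = φ.hom ≫ S.cm ∧
      F.map S'.cn ≫ η F = φ.hom ≫ S.cn := by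
    have h0 : ∀ φ : F.obj S'.A ≅ S.A, (φ.hom ⊗ₘ φ.hom) ≫ S.mul = (μ F _ _ ≫ F.map S'.mul) ≫ φ.hom →
        (ε F ≫ F.map S'.one) ≫ φ.hom = S.one → φ.hom ≫ S.cn = F.map S'.cn ≫ η F →
        (F.map S'.cm ≫ δ F _ _) ≫ (φ.hom ⊗ₘ φ.hom) = φ.hom ≫ S.cm →
        F.map S'.mul ≫ φ.hom = δ F _ _ ≫ (φ.hom ⊗ₘ φ.hom) ≫ S.mul ∧
        F.map S'.one ≫ φ.hom = η F ≫ S.one ∧ F.map S'.cm ≫ δ F _ _ ≫ (φ.hom ⊗ₘ φ.hom) = φ.hom ≫ S.cm ∧
        F.map S'.cn ≫ η F = φ.hom ≫ S.cn := by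
      intro φ e1 e2 e3 e4
      refine ⟨?_, ?_, ?_, e3.symm⟩
      · rw [e1, Category.assoc, Functor.Monoidal.δ_μ_assoc]
      · rw [← e2, Category.assoc, Functor.Monoidal.η_ε_assoc]
      · rw [← e4, Category.assoc]
    exact ⟨φ, h0 φ hm h1 hc (cm_of_iso φ hm h1 hc)⟩
  obtain ⟨ψ, k1, k2, k3, k4⟩ := key
  exact ⟨⟨ψ, k1, k2, k3, k4⟩⟩

end

end Pool.Agent.SFC
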