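import Pool.Agent.SFC.ATen
import Pool.Agent.SFC.Fna

/-!
# SFC/Fnc: `F M ⊗_A' F N ≅ F (M ⊗_A N)`

`cp_eq`: from `φ.one`, `φ.cm`.  `sL_eq`: `(φ.FB N).sL = F.map N.sL ≫ δ F _ _ ≫ φ.f.hom ▷ _`: by the definition of `Bim.sL`, `cp_eq`, naturality and associativity.  `e_mu`: `Bim.e M N = M.X ◁ N.sL ≫ (α_ _ _ _).inv ≫ M.r ▷ N.X`; use `sL_eq`.
`mu`, `de`: `hl`, `hr`, `hp` from `e_mu`, `Bim.lt_e`, `Bim.rt_e`, `Bim.e_e` and naturality of `μ` (`Bim.ten` has `l = Bim.lt M N ≫ Bim.e M N`; `F.map (Bim.lt M N)`, `F.map (Bim.rt M N)` correspond to `Bim.lt`, `Bim.rt` of `F M`, `F N` through `φ`, `μ`).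
`mu_de`, `de_mu`: `μ`, `δ` are inverse to each other and `Bim.e_e` (`Bim.ten_p`, `φ.FB_p`).
`ep`, `et`: `φ.mul`; `Bim.unt_p`.
-/

set_option autoImplicit false

noncomputable section

open CategoryTheory MonoidalCategory

namespace Pool.Agent.SFC

universe v u v' u' w

open Functor.LaxMonoidal Functor.OplaxMonoidal

variable {C : Type u} [Category.{v} C] [MonoidalCategory C] {D : Type u'} [Category.{v'} D] [MonoidalCategory D]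
  {F : C ⥤ D} [F.Monoidal] {S : SFrob C} {S' : SFrob D}

theorem AlgIso.cp_eq (φ : AlgIso F S S') : S'.cp = ε F ≫ F.map S.cp ≫ δ F _ _ ≫ (φ.f.hom ⊗ₘ φ.f.hom) := by
  have h1 : S'.one = ε F ≫ F.map S.one ≫ φ.f.hom := by
    rw [φ.one, Functor.Monoidal.ε_η_assoc]
  rw [SFrob.cp, SFrob.cp, h1, F.map_comp]
  simp only [Category.assoc]
  rw [φ.cm]

theorem AlgIso.sL_eq (φ : AlgIso F S S') (N : Bim S) :
    (φ.FB N).sL = F.map N.sL ≫ δ F S.A N.X ≫ φ.f.hom ▷ F.obj N.X := by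
  have hl : (φ.FB N).sL = (λ_ (F.obj N.X)).inv ≫ S'.cp ▷ F.obj N.X ≫ (α_ _ _ _).hom ≫
      S'.A ◁ (φ.f.inv ▷ F.obj N.X ≫ μ F _ _ ≫ F.map N.l) := rfl
  have h1 : (φ.f.hom ⊗ₘ φ.f.hom) ▷ F.obj N.X ≫ (α_ _ _ _).hom ≫ S'.A ◁ (φ.f.inv ▷ F.obj N.X) =
      (α_ _ _ _).hom ≫ φ.f.hom ▷ (F.obj S.A ⊗ F.obj N.X) := by
    rw [MonoidalCategory.tensorHom_def,
      ← associator_naturality_middle, ← comp_whiskerRight_assoc, Category.assoc,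
      ← MonoidalCategory.whiskerLeft_comp, φ.f.hom_inv_id, MonoidalCategory.whiskerLeft_id,
      Category.comp_id, associator_naturality_left]
  have h2 : F.map (λ_ N.X).inv ≫ δ F (𝟙_ C) N.X = (λ_ (F.obj N.X)).inv ≫ ε F ▷ F.obj N.X := by
    rw [Functor.OplaxMonoidal.left_unitality, Category.assoc, Category.assoc, ← comp_whiskerRight,
      Functor.Monoidal.η_ε, id_whiskerRight, Category.comp_id]
  have h3 : F.map (α_ S.A S.A N.X).hom ≫ δ F S.A (S.A ⊗ N.X) =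
      δ F (S.A ⊗ S.A) N.X ≫ δ F S.A S.A ▷ F.obj N.X ≫ (α_ _ _ _).hom ≫ F.obj S.A ◁ μ F S.A N.X := by
    rw [Functor.OplaxMonoidal.associativity_assoc, ← MonoidalCategory.whiskerLeft_comp,
      Functor.Monoidal.δ_μ, MonoidalCategory.whiskerLeft_id, Category.comp_id]
  rw [hl, φ.cp_eq, Bim.sL]
  simp only [comp_whiskerRight, MonoidalCategory.whiskerLeft_comp, Category.assoc, F.map_comp]
  rw [reassoc_of% h1, ← δ_natural_right_assoc, reassoc_of% h3, ← δ_natural_left_assoc,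
    reassoc_of% h2, whisker_exchange, whisker_exchange_assoc]

theorem AlgIso.sR_eq (φ : AlgIso F S S') (M : Bim S) :
    (φ.FB M).sR = F.map M.sR ≫ δ F M.X S.A ≫ F.obj M.X ◁ φ.f.hom := by
  have hl : (φ.FB M).sR = (ρ_ (F.obj M.X)).inv ≫ F.obj M.X ◁ S'.cp ≫ (α_ _ _ _).inv ≫
      (F.obj M.X ◁ φ.f.inv ≫ μ F _ _ ≫ F.map M.r) ▷ S'.A := rfl
  have h1 : F.obj M.X ◁ (φ.f.hom ⊗ₘ φ.f.hom) ≫ (α_ _ _ _).inv ≫ (F.obj M.X ◁ φ.f.inv) ▷ S'.A =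
      (α_ _ _ _).inv ≫ (F.obj M.X ⊗ F.obj S.A) ◁ φ.f.hom := by
    rw [MonoidalCategory.tensorHom_def',
      ← associator_inv_naturality_middle, ← MonoidalCategory.whiskerLeft_comp_assoc, Category.assoc,
      ← comp_whiskerRight, φ.f.hom_inv_id, id_whiskerRight, Category.comp_id,
      associator_inv_naturality_right]
  have h2 : F.map (ρ_ M.X).inv ≫ δ F M.X (𝟙_ C) = (ρ_ (F.obj M.X)).inv ≫ F.obj M.X ◁ ε F := by
    rw [Functor.OplaxMonoidal.right_unitality, Category.assoc, Category.assoc,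
      ← MonoidalCategory.whiskerLeft_comp, Functor.Monoidal.η_ε, MonoidalCategory.whiskerLeft_id,
      Category.comp_id]
  have h3 : F.map (α_ M.X S.A S.A).inv ≫ δ F (M.X ⊗ S.A) S.A =
      δ F M.X (S.A ⊗ S.A) ≫ F.obj M.X ◁ δ F S.A S.A ≫ (α_ _ _ _).inv ≫ μ F M.X S.A ▷ F.obj S.A := by
    rw [Functor.OplaxMonoidal.associativity_inv_assoc, ← comp_whiskerRight,
      Functor.Monoidal.δ_μ, id_whiskerRight, Category.comp_id]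
  rw [hl, φ.cp_eq, Bim.sR]
  simp only [comp_whiskerRight, MonoidalCategory.whiskerLeft_comp, Category.assoc, F.map_comp]
  rw [reassoc_of% h1, ← δ_natural_left_assoc, reassoc_of% h3, ← δ_natural_right_assoc,
    reassoc_of% h2, ← whisker_exchange, ← whisker_exchange_assoc]

private theorem Fnc_e (φ : AlgIso F S S') (M N : Bim S) :
    (Bim.e (φ.FB M) (φ.FB N) : F.obj M.X ⊗ F.obj N.X ⟶ F.obj M.X ⊗ F.obj N.X) =
      μ F M.X N.X ≫ F.map (Bim.e M N) ≫ δ F M.X N.X := by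
  have he : (Bim.e (φ.FB M) (φ.FB N) : F.obj M.X ⊗ F.obj N.X ⟶ F.obj M.X ⊗ F.obj N.X) =
      F.obj M.X ◁ (F.map N.sL ≫ δ F S.A N.X ≫ φ.f.hom ▷ F.obj N.X) ≫
      (α_ (F.obj M.X) S'.A (F.obj N.X)).inv ≫
      (F.obj M.X ◁ φ.f.inv ≫ μ F _ _ ≫ F.map M.r) ▷ F.obj N.X := by
    rw [← φ.sL_eq]
    rfl
  have h1 : F.obj M.X ◁ (φ.f.hom ▷ F.obj N.X) ≫ (α_ _ _ _).inv ≫ (F.obj M.X ◁ φ.f.inv) ▷ F.obj N.X =
      (α_ _ _ _).inv := by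
    rw [← associator_inv_naturality_middle, ← MonoidalCategory.whiskerLeft_comp_assoc, ← comp_whiskerRight,
      φ.f.hom_inv_id, id_whiskerRight, MonoidalCategory.whiskerLeft_id, Category.id_comp]
  have h2 : F.obj M.X ◁ δ F S.A N.X ≫ F.obj M.X ◁ μ F S.A N.X = 𝟙 _ := by
    rw [← MonoidalCategory.whiskerLeft_comp, Functor.Monoidal.δ_μ, MonoidalCategory.whiskerLeft_id]
  have key : F.obj M.X ◁ (F.map N.sL ≫ δ F S.A N.X ≫ φ.f.hom ▷ F.obj N.X) ≫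
      (α_ (F.obj M.X) S'.A (F.obj N.X)).inv ≫
      (F.obj M.X ◁ φ.f.inv ≫ μ F _ _ ≫ F.map M.r) ▷ F.obj N.X =
      μ F M.X N.X ≫ F.map (Bim.e M N) ≫ δ F M.X N.X := by
    rw [← cancel_mono (μ F M.X N.X), Bim.e]
    simp only [comp_whiskerRight, MonoidalCategory.whiskerLeft_comp, Category.assoc, F.map_comp]
    rw [reassoc_of% h1, μ_natural_left, ← Functor.LaxMonoidal.associativity_inv_assoc,
      Functor.Monoidal.δ_μ, Category.comp_id]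
    rw [reassoc_of% h2, μ_natural_right_assoc]
  exact he.trans key

theorem AlgIso.e_mu (φ : AlgIso F S S') (M N : Bim S) :
    Bim.e (φ.FB M) (φ.FB N) ≫ μ F M.X N.X = μ F M.X N.X ≫ F.map (Bim.e M N) := by
  refine (congrArg (fun t : F.obj M.X ⊗ F.obj N.X ⟶ F.obj M.X ⊗ F.obj N.X => t ≫ μ F M.X N.X)
    (Fnc_e φ M N)).trans ?_
  simp only [Category.assoc, Functor.Monoidal.δ_μ, Category.comp_id]

private theorem Fnc_lt (φ : AlgIso F S S') (M N : Bim S) :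
    (Bim.lt (φ.FB M) (φ.FB N) : S'.A ⊗ (F.obj M.X ⊗ F.obj N.X) ⟶ F.obj M.X ⊗ F.obj N.X) =
      S'.A ◁ μ F M.X N.X ≫ φ.f.inv ▷ F.obj (M.X ⊗ N.X) ≫ μ F _ _ ≫ F.map (Bim.lt M N) ≫ δ F M.X N.X := by
  have he : (Bim.lt (φ.FB M) (φ.FB N) : S'.A ⊗ (F.obj M.X ⊗ F.obj N.X) ⟶ F.obj M.X ⊗ F.obj N.X) =
      (α_ _ _ _).inv ≫ (φ.f.inv ▷ F.obj M.X ≫ μ F _ _ ≫ F.map M.l) ▷ F.obj N.X := rfl
  have key : (α_ _ _ _).inv ≫ (φ.f.inv ▷ F.obj M.X ≫ μ F _ _ ≫ F.map M.l) ▷ F.obj N.X =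
      S'.A ◁ μ F M.X N.X ≫ φ.f.inv ▷ F.obj (M.X ⊗ N.X) ≫ μ F _ _ ≫ F.map (Bim.lt M N) ≫ δ F M.X N.X := by
    rw [← cancel_mono (μ F M.X N.X), Bim.lt]
    simp only [comp_whiskerRight, Category.assoc, F.map_comp, Functor.Monoidal.δ_μ, Category.comp_id]
    rw [μ_natural_left, ← associator_inv_naturality_left_assoc,
      ← Functor.LaxMonoidal.associativity_inv_assoc, whisker_exchange_assoc]
  exact he.trans key

private theorem Fnc_rt (φ : AlgIso F S S') (M N : Bim S) :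
    (Bim.rt (φ.FB M) (φ.FB N) : (F.obj M.X ⊗ F.obj N.X) ⊗ S'.A ⟶ F.obj M.X ⊗ F.obj N.X) =
      μ F M.X N.X ▷ S'.A ≫ F.obj (M.X ⊗ N.X) ◁ φ.f.inv ≫ μ F _ _ ≫ F.map (Bim.rt M N) ≫ δ F M.X N.X := by
  have he : (Bim.rt (φ.FB M) (φ.FB N) : (F.obj M.X ⊗ F.obj N.X) ⊗ S'.A ⟶ F.obj M.X ⊗ F.obj N.X) =
      (α_ _ _ _).hom ≫ F.obj M.X ◁ (F.obj N.X ◁ φ.f.inv ≫ μ F _ _ ≫ F.map N.r) := rfl
  have key : (α_ _ _ _).hom ≫ F.obj M.X ◁ (F.obj N.X ◁ φ.f.inv ≫ μ F _ _ ≫ F.map N.r) =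
      μ F M.X N.X ▷ S'.A ≫ F.obj (M.X ⊗ N.X) ◁ φ.f.inv ≫ μ F _ _ ≫ F.map (Bim.rt M N) ≫ δ F M.X N.X := by
    rw [← cancel_mono (μ F M.X N.X), Bim.rt]
    simp only [MonoidalCategory.whiskerLeft_comp, Category.assoc, F.map_comp, Functor.Monoidal.δ_μ,
      Category.comp_id]
    rw [μ_natural_right, ← associator_naturality_right_assoc,
      ← Functor.LaxMonoidal.associativity_assoc, ← whisker_exchange_assoc]
  exact he.trans key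

private theorem Fnc_mul_l (φ : AlgIso F S S') (M N : Bim S)
    (LT : S'.A ⊗ (F.obj M.X ⊗ F.obj N.X) ⟶ F.obj M.X ⊗ F.obj N.X)
    (EE : F.obj M.X ⊗ F.obj N.X ⟶ F.obj M.X ⊗ F.obj N.X)
    (hL : LT = S'.A ◁ μ F M.X N.X ≫ φ.f.inv ▷ F.obj (M.X ⊗ N.X) ≫ μ F _ _ ≫ F.map (Bim.lt M N) ≫ δ F M.X N.X)
    (hE : EE = μ F M.X N.X ≫ F.map (Bim.e M N) ≫ δ F M.X N.X) :
    S'.A ◁ (μ F M.X N.X ≫ F.map (Bim.e M N)) ≫ φ.f.inv ▷ F.obj (M.X ⊗ N.X) ≫ μ F _ _ ≫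
      F.map (Bim.lt M N ≫ Bim.e M N) = (LT ≫ EE) ≫ μ F M.X N.X ≫ F.map (Bim.e M N) := by
  subst hL hE
  simp only [Category.assoc, Functor.Monoidal.δ_μ_assoc, MonoidalCategory.whiskerLeft_comp]
  rw [whisker_exchange_assoc, μ_natural_right_assoc]
  simp only [← F.map_comp, Bim.e_e]
  rw [← Category.assoc (S.A ◁ Bim.e M N), ← Bim.lt_e, Category.assoc, Bim.e_e]

private theorem Fnc_mul_r (φ : AlgIso F S S') (M N : Bim S)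
    (RT : (F.obj M.X ⊗ F.obj N.X) ⊗ S'.A ⟶ F.obj M.X ⊗ F.obj N.X)
    (EE : F.obj M.X ⊗ F.obj N.X ⟶ F.obj M.X ⊗ F.obj N.X)
    (hR : RT = μ F M.X N.X ▷ S'.A ≫ F.obj (M.X ⊗ N.X) ◁ φ.f.inv ≫ μ F _ _ ≫ F.map (Bim.rt M N) ≫ δ F M.X N.X)
    (hE : EE = μ F M.X N.X ≫ F.map (Bim.e M N) ≫ δ F M.X N.X) :
    (μ F M.X N.X ≫ F.map (Bim.e M N)) ▷ S'.A ≫ F.obj (M.X ⊗ N.X) ◁ φ.f.inv ≫ μ F _ _ ≫
      F.map (Bim.rt M N ≫ Bim.e M N) = (RT ≫ EE) ≫ μ F M.X N.X ≫ F.map (Bim.e M N) := by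
  subst hR hE
  simp only [Category.assoc, Functor.Monoidal.δ_μ_assoc, comp_whiskerRight]
  rw [← whisker_exchange_assoc, μ_natural_left_assoc]
  simp only [← F.map_comp, Bim.e_e]
  rw [← Category.assoc (Bim.e M N ▷ S.A), ← Bim.rt_e, Category.assoc, Bim.e_e]

private theorem Fnc_del_l (φ : AlgIso F S S') (M N : Bim S)
    (LT : S'.A ⊗ (F.obj M.X ⊗ F.obj N.X) ⟶ F.obj M.X ⊗ F.obj N.X)
    (EE : F.obj M.X ⊗ F.obj N.X ⟶ F.obj M.X ⊗ F.obj N.X)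
    (hL : LT = S'.A ◁ μ F M.X N.X ≫ φ.f.inv ▷ F.obj (M.X ⊗ N.X) ≫ μ F _ _ ≫ F.map (Bim.lt M N) ≫ δ F M.X N.X)
    (hE : EE = μ F M.X N.X ≫ F.map (Bim.e M N) ≫ δ F M.X N.X) :
    S'.A ◁ (F.map (Bim.e M N) ≫ δ F M.X N.X) ≫ LT ≫ EE =
      (φ.f.inv ▷ F.obj (M.X ⊗ N.X) ≫ μ F _ _ ≫ F.map (Bim.lt M N ≫ Bim.e M N)) ≫
        F.map (Bim.e M N) ≫ δ F M.X N.X := by
  subst hL hE
  have h2 : S'.A ◁ δ F M.X N.X ≫ S'.A ◁ μ F M.X N.X = 𝟙 _ := by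
    rw [← MonoidalCategory.whiskerLeft_comp, Functor.Monoidal.δ_μ, MonoidalCategory.whiskerLeft_id]
  simp only [Category.assoc, Functor.Monoidal.δ_μ_assoc, MonoidalCategory.whiskerLeft_comp]
  rw [reassoc_of% h2, whisker_exchange_assoc, μ_natural_right_assoc]
  simp only [← F.map_comp_assoc, Category.assoc, Bim.e_e]
  rw [← Category.assoc (S.A ◁ Bim.e M N), ← Bim.lt_e, Category.assoc, Bim.e_e]

private theorem Fnc_del_r (φ : AlgIso F S S') (M N : Bim S)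
    (RT : (F.obj M.X ⊗ F.obj N.X) ⊗ S'.A ⟶ F.obj M.X ⊗ F.obj N.X)
    (EE : F.obj M.X ⊗ F.obj N.X ⟶ F.obj M.X ⊗ F.obj N.X)
    (hR : RT = μ F M.X N.X ▷ S'.A ≫ F.obj (M.X ⊗ N.X) ◁ φ.f.inv ≫ μ F _ _ ≫ F.map (Bim.rt M N) ≫ δ F M.X N.X)
    (hE : EE = μ F M.X N.X ≫ F.map (Bim.e M N) ≫ δ F M.X N.X) :
    (F.map (Bim.e M N) ≫ δ F M.X N.X) ▷ S'.A ≫ RT ≫ EE =
      (F.obj (M.X ⊗ N.X) ◁ φ.f.inv ≫ μ F _ _ ≫ F.map (Bim.rt M N ≫ Bim.e M N)) ≫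
        F.map (Bim.e M N) ≫ δ F M.X N.X := by
  subst hR hE
  have h2 : δ F M.X N.X ▷ S'.A ≫ μ F M.X N.X ▷ S'.A = 𝟙 _ := by
    rw [← comp_whiskerRight, Functor.Monoidal.δ_μ, id_whiskerRight]
  simp only [Category.assoc, Functor.Monoidal.δ_μ_assoc, comp_whiskerRight]
  rw [reassoc_of% h2, ← whisker_exchange_assoc, μ_natural_left_assoc]
  simp only [← F.map_comp_assoc, Category.assoc, Bim.e_e]
  rw [← Category.assoc (Bim.e M N ▷ S.A), ← Bim.rt_e, Category.assoc, Bim.e_e]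

private theorem Fnc_mu_de (M N : Bim S) :
    (μ F M.X N.X ≫ F.map (Bim.e M N)) ≫ F.map (Bim.e M N) ≫ δ F M.X N.X =
      μ F M.X N.X ≫ F.map (Bim.e M N) ≫ δ F M.X N.X := by
  rw [Category.assoc, ← F.map_comp_assoc, Bim.e_e]

private theorem Fnc_de_mu (M N : Bim S) :
    (F.map (Bim.e M N) ≫ δ F M.X N.X) ≫ μ F M.X N.X ≫ F.map (Bim.e M N) = F.map (Bim.e M N) := by
  rw [Category.assoc, Functor.Monoidal.δ_μ_assoc, ← F.map_comp, Bim.e_e]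

private theorem Fnc_de_p (M N : Bim S) (EE : F.obj M.X ⊗ F.obj N.X ⟶ F.obj M.X ⊗ F.obj N.X)
    (hE : EE = μ F M.X N.X ≫ F.map (Bim.e M N) ≫ δ F M.X N.X) :
    (F.map (Bim.e M N) ≫ δ F M.X N.X) ≫ EE = F.map (Bim.e M N) ≫ δ F M.X N.X := by
  rw [hE, Category.assoc, Functor.Monoidal.δ_μ_assoc, ← F.map_comp_assoc, Bim.e_e]

private theorem Fnc_mu_p (M N : Bim S) :
    (μ F M.X N.X ≫ F.map (Bim.e M N)) ≫ F.map (Bim.e M N) = μ F M.X N.X ≫ F.map (Bim.e M N) := by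
  rw [Category.assoc, ← F.map_comp, Bim.e_e]

private theorem Fnc_p1 (φ : AlgIso F S S') (M N : Bim S) : (φ.FB (Bim.ten M N)).p = F.map (Bim.e M N) :=
  (φ.FB_p _).trans (congrArg (fun t : M.X ⊗ N.X ⟶ M.X ⊗ N.X => F.map t) (Bim.ten_p M N))

/-- `F M ⊗ F N ⟶ F (M ⊗ N)` -/
def AlgIso.mu (φ : AlgIso F S S') (M N : Bim S) : Bim.ten (φ.FB M) (φ.FB N) ⟶ φ.FB (Bim.ten M N) :=
  Bim.Hom.mk (M := Bim.ten (φ.FB M) (φ.FB N)) (N := φ.FB (Bim.ten M N)) (μ F M.X N.X ≫ F.map (Bim.e M N))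
    (Fnc_mul_l φ M N _ _ (Fnc_lt φ M N) (Fnc_e φ M N))
    (Fnc_mul_r φ M N _ _ (Fnc_rt φ M N) (Fnc_e φ M N))
    ((congrArg (fun t : F.obj (M.X ⊗ N.X) ⟶ F.obj (M.X ⊗ N.X) => (μ F M.X N.X ≫ F.map (Bim.e M N)) ≫ t)
      (Fnc_p1 φ M N)).trans (Fnc_mu_p M N))

@[simp] theorem AlgIso.mu_f (φ : AlgIso F S S') (M N : Bim S) :
    Bim.Hom.f (φ.mu M N) = μ F M.X N.X ≫ F.map (Bim.e M N) := rfl

/-- `F (M ⊗ N) ⟶ F M ⊗ F N` -/
def AlgIso.de (φ : AlgIso F S S') (M N : Bim S) : φ.FB (Bim.ten M N) ⟶ Bim.ten (φ.FB M) (φ.FB N) :=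
  Bim.Hom.mk (M := φ.FB (Bim.ten M N)) (N := Bim.ten (φ.FB M) (φ.FB N)) (F.map (Bim.e M N) ≫ δ F M.X N.X)
    (Fnc_del_l φ M N _ _ (Fnc_lt φ M N) (Fnc_e φ M N))
    (Fnc_del_r φ M N _ _ (Fnc_rt φ M N) (Fnc_e φ M N))
    (Fnc_de_p M N _ ((Bim.ten_p (φ.FB M) (φ.FB N)).trans (Fnc_e φ M N)))

@[simp] theorem AlgIso.de_f (φ : AlgIso F S S') (M N : Bim S) :
    Bim.Hom.f (φ.de M N) = F.map (Bim.e M N) ≫ δ F M.X N.X := rfl

theorem AlgIso.mu_de (φ : AlgIso F S S') (M N : Bim S) : φ.mu M N ≫ φ.de M N = 𝟙 _ :=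
  Bim.hom_ext ((Fnc_mu_de M N).trans ((Bim.ten_p (φ.FB M) (φ.FB N)).trans (Fnc_e φ M N)).symm)

theorem AlgIso.de_mu (φ : AlgIso F S S') (M N : Bim S) : φ.de M N ≫ φ.mu M N = 𝟙 _ :=
  Bim.hom_ext ((Fnc_de_mu M N).trans (Fnc_p1 φ M N).symm)

private theorem Fnc_mulL (φ : AlgIso F S S') : S'.A ◁ φ.f.hom ≫ S'.mul =
    (φ.f.inv ▷ F.obj S.A ≫ μ F _ _ ≫ F.map S.mul) ≫ φ.f.hom := by
  simp only [Category.assoc]
  rw [φ.mul, Functor.Monoidal.μ_δ_assoc, MonoidalCategory.tensorHom_def, Category.assoc,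
    ← comp_whiskerRight_assoc, φ.f.inv_hom_id, id_whiskerRight, Category.id_comp]

private theorem Fnc_mulR (φ : AlgIso F S S') : φ.f.hom ▷ S'.A ≫ S'.mul =
    (F.obj S.A ◁ φ.f.inv ≫ μ F _ _ ≫ F.map S.mul) ≫ φ.f.hom := by
  simp only [Category.assoc]
  rw [φ.mul, Functor.Monoidal.μ_δ_assoc, MonoidalCategory.tensorHom_def', Category.assoc,
    ← MonoidalCategory.whiskerLeft_comp_assoc, φ.f.inv_hom_id, MonoidalCategory.whiskerLeft_id,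
    Category.id_comp]

/-- `A' ⟶ F A` -/
def AlgIso.ep (φ : AlgIso F S S') : Bim.unt S' ⟶ φ.FB (Bim.unt S) :=
  Bim.Hom.mk (M := Bim.unt S') (N := φ.FB (Bim.unt S)) φ.f.inv
    (by
      show S'.A ◁ φ.f.inv ≫ φ.f.inv ▷ F.obj S.A ≫ μ F _ _ ≫ F.map S.mul = S'.mul ≫ φ.f.inv
      rw [← cancel_mono φ.f.hom]
      simp only [Category.assoc, Iso.inv_hom_id, Category.comp_id]
      have h := Fnc_mulL φ
      simp only [Category.assoc] at h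
      rw [← h, ← MonoidalCategory.whiskerLeft_comp_assoc, φ.f.inv_hom_id, MonoidalCategory.whiskerLeft_id,
        Category.id_comp])
    (by
      show φ.f.inv ▷ S'.A ≫ F.obj S.A ◁ φ.f.inv ≫ μ F _ _ ≫ F.map S.mul = S'.mul ≫ φ.f.inv
      rw [← cancel_mono φ.f.hom]
      simp only [Category.assoc, Iso.inv_hom_id, Category.comp_id]
      have h := Fnc_mulR φ
      simp only [Category.assoc] at h
      rw [← h, ← comp_whiskerRight_assoc, φ.f.inv_hom_id, id_whiskerRight, Category.id_comp])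
    (by
      rw [φ.FB_p, Bim.unt_p]
      exact (congrArg (fun t => φ.f.inv ≫ t) (F.map_id S.A)).trans (Category.comp_id _))

@[simp] theorem AlgIso.ep_f (φ : AlgIso F S S') : Bim.Hom.f φ.ep = φ.f.inv := rfl

/-- `F A ⟶ A'` -/
def AlgIso.et (φ : AlgIso F S S') : φ.FB (Bim.unt S) ⟶ Bim.unt S' :=
  Bim.Hom.mk (M := φ.FB (Bim.unt S)) (N := Bim.unt S') φ.f.hom (Fnc_mulL φ) (Fnc_mulR φ)
    (by
      rw [Bim.unt_p]
      exact Category.comp_id _)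

@[simp] theorem AlgIso.et_f (φ : AlgIso F S S') : Bim.Hom.f φ.et = φ.f.hom := rfl

theorem AlgIso.ep_et (φ : AlgIso F S S') : φ.ep ≫ φ.et = 𝟙 _ := by
  apply Bim.hom_ext
  rw [Bim.id_f, Bim.unt_p]
  exact φ.f.inv_hom_id

theorem AlgIso.et_ep (φ : AlgIso F S S') : φ.et ≫ φ.ep = 𝟙 _ := by
  apply Bim.hom_ext
  rw [Bim.id_f, φ.FB_p, Bim.unt_p]
  exact φ.f.hom_inv_id.trans (F.map_id S.A).symm

end Pool.Agent.SFC
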