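import Pool.Agent.SFC.E2l
import Pool.Agent.SFC.Fnc

/-!
# SFC/Fnd: the functor on bimodules is monoidal
-/

set_option autoImplicit false

noncomputable section

open CategoryTheory MonoidalCategory

namespace Pool.Agent.SFC

universe v u v' u'

open Functor.LaxMonoidal Functor.OplaxMonoidal

variable {C : Type u} [Category.{v} C] [MonoidalCategory C] {D : Type u'} [Category.{v'} D] [MonoidalCategory D]
  {F : C ⥤ D} [F.Monoidal] {S : SFrob C} {S' : SFrob D}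

theorem AlgIso.isIm_map (φ : AlgIso F S S') {M N : Bim S} {f : M ⟶ N} {g : M.X ⟶ N.X} (h : IsIm f g) :
    IsIm (φ.FBf.map f) (F.map g) := by
  obtain ⟨hl, hr, rfl⟩ := h
  have h1 : S'.A ◁ F.map g ≫ φ.l N = φ.l M ≫ F.map g := by
    rw [AlgIso.l, AlgIso.l, whisker_exchange_assoc, μ_natural_right_assoc, ← F.map_comp, hl, F.map_comp]
    simp only [Category.assoc]
  have h2 : F.map g ▷ S'.A ≫ φ.r N = φ.r M ≫ F.map g := by
    rw [AlgIso.r, AlgIso.r, ← whisker_exchange_assoc, μ_natural_left_assoc, ← F.map_comp, hr, F.map_comp]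
    simp only [Category.assoc]
  refine ⟨h1, h2, Bim.hom_ext ?_⟩
  rw [AlgIso.FBf_map_f, Bim.im_f, Bim.im_f, F.map_comp]
  exact congrArg (· ≫ F.map g) (φ.FB_p M).symm

theorem isIm_of {M P : Bim S} (m : M.X ⟶ P.X) (f : M ⟶ P) (h1 : Bim.Hom.f f = m ≫ P.p)
    (h2 : M.p ≫ m = m ≫ P.p) : IsIm f m := by
  have hl := f.hl
  have hr := f.hr
  rw [h1, MonoidalCategory.whiskerLeft_comp, Category.assoc, Bim.Ap_l, ← h2, ← Category.assoc M.l, Bim.p_l] at hl
  rw [h1, comp_whiskerRight, Category.assoc, Bim.pA_r, ← h2, ← Category.assoc M.r, Bim.p_r'] at hr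
  refine ⟨hl, hr, Bim.hom_ext ?_⟩
  rw [Bim.im_f, h1, h2]

theorem AlgIso.isIm_mu (φ : AlgIso F S S') (M N : Bim S) : IsIm (φ.mu M N) (μ F M.X N.X) := by
  have e0 : (φ.FB (Bim.ten M N)).p = F.map (Bim.e M N) := by rw [φ.FB_p, Bim.ten_p]
  refine isIm_of (M := Bim.ten (φ.FB M) (φ.FB N)) (P := φ.FB (Bim.ten M N)) (μ F M.X N.X) (φ.mu M N)
    (congrArg (fun t => μ F M.X N.X ≫ t) e0.symm) ?_
  rw [Bim.ten_p]
  exact (φ.e_mu M N).trans (congrArg (fun t => μ F M.X N.X ≫ t) e0.symm)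

theorem AlgIso.isIm_ep (φ : AlgIso F S S') : IsIm φ.ep φ.f.inv := isIm_hom φ.ep

/-- the monoidal structure -/
@[instance_reducible]
def AlgIso.mon (φ : AlgIso F S S') : φ.FBf.Monoidal :=
  Functor.CoreMonoidal.toMonoidal
    { εIso := (⟨φ.ep, φ.et, φ.ep_et, φ.et_ep⟩ : Bim.unt S' ≅ φ.FB (Bim.unt S))
      μIso := fun M N => (⟨φ.mu M N, φ.de M N, φ.mu_de M N, φ.de_mu M N⟩ :
        Bim.ten (φ.FB M) (φ.FB N) ≅ φ.FB (Bim.ten M N))
      μIso_hom_natural_left := fun f N => (((φ.isIm_map (isIm_hom f)).wR (φ.FB N)).comp (φ.isIm_mu _ N)).eq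
        ((φ.isIm_mu _ N).comp (φ.isIm_map ((isIm_hom f).wR N))) (μ_natural_left F _ _)
      μIso_hom_natural_right := fun M f => ((IsIm.wL (φ.FB M) (φ.isIm_map (isIm_hom f))).comp (φ.isIm_mu M _)).eq
        ((φ.isIm_mu M _).comp (φ.isIm_map (IsIm.wL M (isIm_hom f)))) (μ_natural_right F _ _)
      associativity := fun M N P => (((φ.isIm_mu M N).wR (φ.FB P)).comp ((φ.isIm_mu (M ⊗ N) P).comp
        (φ.isIm_map (isIm_al M N P)))).eq ((isIm_al (φ.FB M) (φ.FB N) (φ.FB P)).comp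
          ((IsIm.wL (φ.FB M) (φ.isIm_mu N P)).comp (φ.isIm_mu M (N ⊗ P)))) (associativity F M.X N.X P.X)
      left_unitality := fun M => (isIm_la (φ.FB M)).eq ((φ.isIm_ep.wR (φ.FB M)).comp
        ((φ.isIm_mu (Bim.unt S) M).comp (φ.isIm_map (isIm_la M)))) rfl
      right_unitality := fun M => (isIm_ra (φ.FB M)).eq ((IsIm.wL (φ.FB M) φ.isIm_ep).comp
        ((φ.isIm_mu M (Bim.unt S)).comp (φ.isIm_map (isIm_ra M)))) rfl }

end Pool.Agent.SFC
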