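import Pool.Agent.SFC.AVd
import Pool.Agent.SFC.Fnd

/-!
# SFC/Fne: the functor on bimodules and the functor `V`

`F (A x A) ≅ A' (F x) A'`.
-/

set_option autoImplicit false

noncomputable section

open CategoryTheory MonoidalCategory

namespace Pool.Agent.SFC

universe v u v' u'

open Functor.LaxMonoidal Functor.OplaxMonoidal

section

variable {C : Type u} [Category.{v} C] [MonoidalCategory C] {S : SFrob C}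

/-- isomorphisms of bimodules -/
def bimIso {M N : Bim S} (g : M.X ≅ N.X) (hl : S.A ◁ g.hom ≫ N.l = M.l ≫ g.hom)
    (hr : g.hom ▷ S.A ≫ N.r = M.r ≫ g.hom) : M ≅ N where
  hom := Bim.im g.hom hl hr
  inv := Bim.im g.inv
    (by rw [← cancel_mono g.hom, Category.assoc, ← hl, ← MonoidalCategory.whiskerLeft_comp_assoc, Category.assoc]
        simp)
    (by rw [← cancel_mono g.hom, Category.assoc, ← hr, ← comp_whiskerRight_assoc, Category.assoc]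
        simp)
  hom_inv_id := by
    rw [Bim.im_comp]
    apply Bim.hom_ext
    rw [Bim.im_f, Bim.id_f]
    simp
  inv_hom_id := by
    rw [Bim.im_comp]
    apply Bim.hom_ext
    rw [Bim.im_f, Bim.id_f]
    simp

end

variable {C : Type u} [Category.{v} C] [MonoidalCategory C] {D : Type u'} [Category.{v'} D] [MonoidalCategory D]
  {F : C ⥤ D} [F.Monoidal] {S : SFrob C} {S' : SFrob D}

theorem AlgIso.mul_inv (φ : AlgIso F S S') :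
    S'.mul ≫ φ.f.inv = (φ.f.inv ⊗ₘ φ.f.inv) ≫ μ F _ _ ≫ F.map S.mul := by
  rw [← cancel_mono φ.f.hom, Category.assoc, Iso.inv_hom_id, Category.comp_id, Category.assoc, Category.assoc, φ.mul,
    Functor.Monoidal.μ_δ_assoc, MonoidalCategory.tensorHom_comp_tensorHom_assoc]
  simp

/-- left -/
theorem AlgIso.wl (φ : AlgIso F S S') {P : D} {Q : C} (v : P ⟶ F.obj Q) :
    S'.A ◁ (φ.f.inv ▷ P ≫ F.obj S.A ◁ v ≫ μ F S.A Q) ≫ φ.f.inv ▷ F.obj (S.A ⊗ Q) ≫ μ F S.A (S.A ⊗ Q) ≫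
        F.map ((α_ S.A S.A Q).inv ≫ S.mul ▷ Q) =
      ((α_ S'.A S'.A P).inv ≫ S'.mul ▷ P) ≫ φ.f.inv ▷ P ≫ F.obj S.A ◁ v ≫ μ F S.A Q := by
  have h1 : F.obj S.A ◁ μ F S.A Q ≫ μ F S.A (S.A ⊗ Q) ≫ F.map (α_ S.A S.A Q).inv =
      (α_ _ _ _).inv ≫ μ F S.A S.A ▷ F.obj Q ≫ μ F (S.A ⊗ S.A) Q := by
    rw [← Functor.LaxMonoidal.associativity_inv]
  have h2 : (α_ S'.A S'.A P).inv ≫ S'.mul ▷ P ≫ φ.f.inv ▷ P = φ.f.inv ▷ (S'.A ⊗ P) ≫ F.obj S.A ◁ φ.f.inv ▷ P ≫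
      (α_ _ _ _).inv ≫ μ F _ _ ▷ P ≫ F.map S.mul ▷ P := by
    rw [← comp_whiskerRight, φ.mul_inv, comp_whiskerRight, comp_whiskerRight, MonoidalCategory.tensorHom_def,
      comp_whiskerRight]
    simp
  have h3 : S'.A ◁ (φ.f.inv ▷ P ≫ F.obj S.A ◁ v ≫ μ F S.A Q) ≫ φ.f.inv ▷ F.obj (S.A ⊗ Q) =
      φ.f.inv ▷ (S'.A ⊗ P) ≫ F.obj S.A ◁ (φ.f.inv ▷ P ≫ F.obj S.A ◁ v ≫ μ F S.A Q) := by
    rw [whisker_exchange]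
  rw [reassoc_of% h3, F.map_comp]
  simp only [MonoidalCategory.whiskerLeft_comp, Category.assoc]
  rw [reassoc_of% h1, reassoc_of% h2, ← μ_natural_left]
  have h4 : F.obj S.A ◁ F.obj S.A ◁ v ≫ (α_ (F.obj S.A) (F.obj S.A) (F.obj Q)).inv =
      (α_ _ _ _).inv ≫ (F.obj S.A ⊗ F.obj S.A) ◁ v := by
    simp
  rw [reassoc_of% h4, whisker_exchange_assoc, whisker_exchange_assoc]

/-- right -/
theorem AlgIso.wr (φ : AlgIso F S S') {P : D} {Q : C} (v : P ⟶ F.obj Q) :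
    (P ◁ φ.f.inv ≫ v ▷ F.obj S.A ≫ μ F Q S.A) ▷ S'.A ≫ F.obj (Q ⊗ S.A) ◁ φ.f.inv ≫ μ F (Q ⊗ S.A) S.A ≫
        F.map ((α_ Q S.A S.A).hom ≫ Q ◁ S.mul) =
      ((α_ P S'.A S'.A).hom ≫ P ◁ S'.mul) ≫ P ◁ φ.f.inv ≫ v ▷ F.obj S.A ≫ μ F Q S.A := by
  have h1 : μ F Q S.A ▷ F.obj S.A ≫ μ F (Q ⊗ S.A) S.A ≫ F.map (α_ Q S.A S.A).hom =
      (α_ _ _ _).hom ≫ F.obj Q ◁ μ F S.A S.A ≫ μ F Q (S.A ⊗ S.A) := by
    rw [← Functor.LaxMonoidal.associativity]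
  have h2 : (α_ P S'.A S'.A).hom ≫ P ◁ S'.mul ≫ P ◁ φ.f.inv = (P ⊗ S'.A) ◁ φ.f.inv ≫ (P ◁ φ.f.inv) ▷ F.obj S.A ≫
      (α_ _ _ _).hom ≫ P ◁ μ F _ _ ≫ P ◁ F.map S.mul := by
    rw [← MonoidalCategory.whiskerLeft_comp, φ.mul_inv, MonoidalCategory.whiskerLeft_comp,
      MonoidalCategory.whiskerLeft_comp, MonoidalCategory.tensorHom_def', MonoidalCategory.whiskerLeft_comp]
    simp
  have h3 : (P ◁ φ.f.inv ≫ v ▷ F.obj S.A ≫ μ F Q S.A) ▷ S'.A ≫ F.obj (Q ⊗ S.A) ◁ φ.f.inv =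
      (P ⊗ S'.A) ◁ φ.f.inv ≫ (P ◁ φ.f.inv ≫ v ▷ F.obj S.A ≫ μ F Q S.A) ▷ F.obj S.A := by
    rw [whisker_exchange]
  rw [reassoc_of% h3, F.map_comp]
  simp only [comp_whiskerRight, Category.assoc]
  rw [reassoc_of% h1, reassoc_of% h2, ← μ_natural_right]
  have h4 : v ▷ F.obj S.A ▷ F.obj S.A ≫ (α_ (F.obj Q) (F.obj S.A) (F.obj S.A)).hom =
      (α_ _ _ _).hom ≫ v ▷ (F.obj S.A ⊗ F.obj S.A) := by
    simp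
  rw [reassoc_of% h4, ← whisker_exchange_assoc, ← whisker_exchange_assoc]

/-- `F y ⊗ A' ≅ F (y ⊗ A)` -/
def AlgIso.v (φ : AlgIso F S S') (y : C) : F.obj y ⊗ S'.A ≅ F.obj (y ⊗ S.A) :=
  whiskerLeftIso (F.obj y) φ.f.symm ≪≫ Functor.Monoidal.μIso F y S.A

/-- `A' ⊗ (F y ⊗ A') ≅ F (A ⊗ (y ⊗ A))` -/
def AlgIso.w (φ : AlgIso F S S') (y : C) : S'.A ⊗ (F.obj y ⊗ S'.A) ≅ F.obj (S.A ⊗ (y ⊗ S.A)) :=
  whiskerRightIso φ.f.symm _ ≪≫ whiskerLeftIso (F.obj S.A) (φ.v y) ≪≫ Functor.Monoidal.μIso F S.A (y ⊗ S.A)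

theorem AlgIso.v_hom (φ : AlgIso F S S') (y : C) : (φ.v y).hom = F.obj y ◁ φ.f.inv ≫ μ F y S.A := rfl

theorem AlgIso.w_hom (φ : AlgIso F S S') (y : C) :
    (φ.w y).hom = φ.f.inv ▷ (F.obj y ⊗ S'.A) ≫ F.obj S.A ◁ (φ.v y).hom ≫ μ F S.A (y ⊗ S.A) := rfl

theorem AlgIso.v_r (φ : AlgIso F S S') (y : C) :
    (φ.v y).hom ▷ S'.A ≫ F.obj (y ⊗ S.A) ◁ φ.f.inv ≫ μ F (y ⊗ S.A) S.A ≫
      F.map ((α_ y S.A S.A).hom ≫ y ◁ S.mul) = ((α_ _ _ _).hom ≫ F.obj y ◁ S'.mul) ≫ (φ.v y).hom := by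
  have h := φ.wr (P := F.obj y) (Q := y) (𝟙 (F.obj y))
  rw [id_whiskerRight, Category.id_comp] at h
  exact h

theorem AlgIso.w_hl (φ : AlgIso F S S') (y : C) :
    S'.A ◁ (φ.w y).hom ≫ φ.l (vO S y) = (vO S' (F.obj y)).l ≫ (φ.w y).hom := φ.wl (φ.v y).hom

theorem AlgIso.w_hr (φ : AlgIso F S S') (y : C) :
    (φ.w y).hom ▷ S'.A ≫ φ.r (vO S y) = (vO S' (F.obj y)).r ≫ (φ.w y).hom := by
  show (φ.w y).hom ▷ S'.A ≫ F.obj (S.A ⊗ (y ⊗ S.A)) ◁ φ.f.inv ≫ μ F (S.A ⊗ (y ⊗ S.A)) S.A ≫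
      F.map ((α_ S.A (y ⊗ S.A) S.A).hom ≫ S.A ◁ ((α_ y S.A S.A).hom ≫ y ◁ S.mul)) =
    ((α_ S'.A (F.obj y ⊗ S'.A) S'.A).hom ≫ S'.A ◁ ((α_ (F.obj y) S'.A S'.A).hom ≫ F.obj y ◁ S'.mul)) ≫ (φ.w y).hom
  have h1 : μ F S.A (y ⊗ S.A) ▷ F.obj S.A ≫ μ F (S.A ⊗ (y ⊗ S.A)) S.A ≫ F.map (α_ S.A (y ⊗ S.A) S.A).hom =
      (α_ _ _ _).hom ≫ F.obj S.A ◁ μ F (y ⊗ S.A) S.A ≫ μ F S.A ((y ⊗ S.A) ⊗ S.A) := by
    rw [← Functor.LaxMonoidal.associativity]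
  rw [F.map_comp, ← whisker_exchange_assoc, w_hom]
  simp only [comp_whiskerRight, Category.assoc]
  rw [reassoc_of% h1, ← μ_natural_right, ← MonoidalCategory.whiskerLeft_comp_assoc]
  have h2 := φ.v_r y
  have h3 : (φ.f.inv ▷ (F.obj y ⊗ S'.A)) ▷ F.obj S.A ≫ (F.obj S.A ◁ (φ.v y).hom) ▷ F.obj S.A ≫
      (α_ (F.obj S.A) (F.obj (y ⊗ S.A)) (F.obj S.A)).hom = (α_ _ _ _).hom ≫ φ.f.inv ▷ ((F.obj y ⊗ S'.A) ⊗ F.obj S.A) ≫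
        F.obj S.A ◁ ((φ.v y).hom ▷ F.obj S.A) := by
    simp
  rw [reassoc_of% h3, ← MonoidalCategory.whiskerLeft_comp_assoc]
  have h4 : (S'.A ⊗ (F.obj y ⊗ S'.A)) ◁ φ.f.inv ≫ (α_ _ _ _).hom ≫ φ.f.inv ▷ ((F.obj y ⊗ S'.A) ⊗ F.obj S.A) =
      (α_ _ _ _).hom ≫ φ.f.inv ▷ ((F.obj y ⊗ S'.A) ⊗ S'.A) ≫ F.obj S.A ◁ ((F.obj y ⊗ S'.A) ◁ φ.f.inv) := by
    rw [← whisker_exchange]
    simp
  rw [reassoc_of% h4, ← MonoidalCategory.whiskerLeft_comp_assoc, whisker_exchange_assoc, h2, whisker_exchange_assoc]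
  simp only [MonoidalCategory.whiskerLeft_comp, Category.assoc]

/-- `F (V y) ≅ V (F y)` -/
def AlgIso.VV (φ : AlgIso F S S') (y : C) : (VF S').obj (F.obj y) ≅ φ.FBf.obj ((VF S).obj y) :=
  bimIso (M := vO S' (F.obj y)) (N := φ.FB (vO S y)) (φ.w y) (φ.w_hl y) (φ.w_hr y)

end Pool.Agent.SFC
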