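import Pool.Agent.SFC.AMop
import Pool.Agent.SFC.Fnb
import Pool.Agent.SFC.Fne

/-!
# SFC/Fnf: extensions of the categories of bimodules
-/

set_option autoImplicit false

noncomputable section

open CategoryTheory MonoidalCategory

namespace Pool.Agent.SFC

open Pool.Agent.NFG

universe v u v' u' w

open Functor.LaxMonoidal Functor.OplaxMonoidal

variable {K : Type w} [Field K] {C : Type u} [Category.{v} C] [Preadditive C] [Linear K C] [MonoidalCategory C]
  [MonoidalPreadditive C] [MonoidalLinear K C] {D : Type u'} [Category.{v'} D] [Preadditive D] [Linear K D]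
  [MonoidalCategory D] [MonoidalPreadditive D] [MonoidalLinear K D]

theorem ext_ne {G : D ⥤ C} [G.Monoidal] (hfull : G.Full) (hz : ∀ x y : D, G.map (0 : x ⟶ y) = 0) {x : D}
    (hx : ∀ f : 𝟙_ D ⟶ x, f = 0) (f : 𝟙_ C ⟶ G.obj x) : f = 0 := by
  obtain ⟨g, hg⟩ := hfull.map_surjective (η G ≫ f)
  rw [hx g, hz] at hg
  have h1 : f = ε G ≫ η G ≫ f := by simp
  rw [h1, ← hg, Limits.comp_zero]

/-- Fn for extensions -/
theorem ext_fn {G : D ⥤ C} [G.Monoidal] {ι : Type} [Fintype ι] [DecidableEq ι] {FC : Fus K C ι} {Q : Type} [Group Q]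
    {deg : ι → Q} (h : IsExt K G FC Q deg) {n : ℕ} [NeZero n] {th : Gl D n} {S : SFrob D} (hS : IsSum K th S) :
    ∃ (th' : Gl C n) (S' : SFrob C) (_ : IsSum K th' S') (G' : Bim S ⥤ Bim S') (_ : G'.Monoidal), G'.Full ∧
      G'.Faithful ∧ (∀ {x y : Bim S} (f g : x ⟶ y), G'.map (f + g) = G'.map f + G'.map g) ∧
      (∀ {x y : Bim S} (c : K) (f : x ⟶ y), G'.map (c • f) = c • G'.map f) ∧
      (∀ y : D, Nonempty (G'.obj ((VF S).obj y) ≅ (VF S').obj (G.obj y))) ∧ Nonempty (S'.A ≅ G.obj S.A) := by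
  have hne : ∀ a : ZMod n, a ≠ 0 → ∀ f : 𝟙_ C ⟶ G.obj (th.T a), f = 0 := fun a ha f =>
    ext_ne h.full (fun x y => by
      have := h.map_smul (0 : K) (0 : x ⟶ y)
      rwa [zero_smul, zero_smul] at this) (fun g => th.ne a ha g) f
  exact ⟨th.map G hne, S.map G, hS.map G hne h.map_add h.map_smul, (AlgIso.refl G S).FBf, (AlgIso.refl G S).mon,
    (AlgIso.refl G S).full h.faithful h.full, (AlgIso.refl G S).faithful h.faithful,
    fun f g => Bim.hom_ext (h.map_add _ _), fun c f => Bim.hom_ext (h.map_smul _ _),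
    fun y => ⟨((AlgIso.refl G S).VV y).symm⟩, ⟨Iso.refl _⟩⟩

end Pool.Agent.SFC
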