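import Pool.Agent.SFC.A0a
import Pool.Agent.SFC.AGa
import Pool.Agent.SFC.E1i
import Pool.Agent.SFC.E3b
import Pool.Agent.SFC.E3c
import Pool.Agent.SFC.E3f
import Pool.Agent.SFC.Fnf

/-!
# SFC/E3h: lifting a group-like algebra along a de-equivariantization
-/

set_option autoImplicit false

noncomputable section

open CategoryTheory MonoidalCategory
open scoped BigOperators

namespace Pool.Agent.SFC

open Pool.Agent.NFG

universe v u v' u' w

open Functor.LaxMonoidal Functor.OplaxMonoidal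

variable {K : Type w} [Field K] {C : Type u} [Category.{v} C] [Preadditive C] [Linear K C] [MonoidalCategory C]
  [MonoidalPreadditive C] [MonoidalLinear K C] {D : Type u'} [Category.{v'} D] [Preadditive D] [Linear K D]
  [MonoidalCategory D] [MonoidalPreadditive D] [MonoidalLinear K D]

/-- the endomorphisms of the unit bimodule are scalars -/
theorem bim_end1S {n : ℕ} [NeZero n] {th : Gl C n} {S : SFrob C} (hS : IsSum K th S)
    (h1 : ∀ f : 𝟙_ C ⟶ 𝟙_ C, ∃ c : K, f = c • 𝟙 _) (f : 𝟙_ (Bim S) ⟶ 𝟙_ (Bim S)) :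
    ∃ c : K, f = c • 𝟙 (𝟙_ (Bim S)) := by
  obtain ⟨g, hg⟩ : ∃ g : S.A ⟶ S.A, g = Bim.Hom.f f := ⟨_, rfl⟩
  have hl : S.A ◁ g ≫ S.mul = S.mul ≫ g := by
    rw [hg]
    exact f.hl
  obtain ⟨c, hc⟩ : ∃ c : K, S.one ≫ g = c • S.one := by
    have h2 : S.one ≫ g = (S.one ≫ g) ≫ hS.q 0 ≫ hS.i 0 := by
      conv_lhs => rw [← Category.comp_id (S.one ≫ g), ← hS.sum]
      rw [Preadditive.comp_sum, Finset.sum_eq_single 0]
      · intro a _ ha
        rw [← Category.assoc, th.ne a ha ((S.one ≫ g) ≫ hS.q a), Limits.zero_comp]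
      · intro h
        exact absurd (Finset.mem_univ _) h
    obtain ⟨c, hc⟩ := h1 ((S.one ≫ g) ≫ hS.q 0 ≫ th.u.inv)
    refine ⟨c, ?_⟩
    have h3 : (S.one ≫ g) ≫ hS.q 0 = c • th.u.hom := by
      have h4 : (S.one ≫ g) ≫ hS.q 0 = ((S.one ≫ g) ≫ hS.q 0 ≫ th.u.inv) ≫ th.u.hom := by
        simp only [Category.assoc, Iso.inv_hom_id, Category.comp_id]
      rw [h4, hc, Linear.smul_comp, Category.id_comp]
    rw [h2, ← Category.assoc, h3, Linear.smul_comp, ← hS.one]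
  refine ⟨c, Bim.hom_ext ?_⟩
  have h5 : g = (ρ_ S.A).inv ≫ S.A ◁ (S.one ≫ g) ≫ S.mul := by
    rw [MonoidalCategory.whiskerLeft_comp, Category.assoc, hl, ← Category.assoc (S.A ◁ S.one), S.mul_one,
      Iso.inv_hom_id_assoc]
  have h6 : g = c • 𝟙 S.A := by
    rw [h5, hc, MonoidalLinear.whiskerLeft_smul, Linear.smul_comp, Linear.comp_smul, S.mul_one, Iso.inv_hom_id]
  have h7 : Bim.Hom.f (c • 𝟙 (𝟙_ (Bim S))) = c • 𝟙 S.A := congrArg (fun t => c • t) (Bim.unt_p S)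
  exact hg.symm.trans (h6.trans h7.symm)

variable {F : C ⥤ D} [F.Monoidal] {p : ℕ} [NeZero p]

/-- the weight decomposition for the functor on bimodules -/
theorem AlgIso.exists_wts {S : SFrob C} {S' : SFrob D} (φ : AlgIso F S S') (Wt : Wts K F p)
    (hdom : ∀ Z : Bim S', ∃ (M : Bim S) (i : Z ⟶ φ.FBf.obj M) (q : φ.FBf.obj M ⟶ Z), i ≫ q = 𝟙 Z) :
    letI := φ.mon
    Nonempty (Wts K φ.FBf p) := by
  letI := φ.mon
  choose T e he using φ.exists_T Wt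
  exact ⟨{
    map_add := fun f g => Bim.hom_ext (Wt.map_add _ _)
    map_smul := fun c f => Bim.hom_ext (Wt.map_smul _ _)
    W := fun a M N => (Wt.W a M.X N.X).comap (Bim.fLin (φ.FBf.obj M) (φ.FBf.obj N))
    comp := fun {_ _ _} h {_ _ _ _ _} hf hg => Wt.comp h hf hg
    ten := fun {_ _ _} h {_ _ _ _ f f'} hf hf' => φ.bim_ten Wt h f f' hf hf'
    map := fun f => Wt.map _
    lift := fun h hh => φ.bim_lift Wt h hh
    dec := fun h => φ.bim_dec Wt h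
    uniq := fun k hk h => φ.bim_uniq Wt k hk h
    T := T
    τ := e
    τ_mem := he
    dom := hdom }⟩

/-- each bimodule is a retract of the image of a bimodule -/
theorem AlgIso.dom {S : SFrob C} {S' : SFrob D} (φ : AlgIso F S S')
    (hdom : ∀ Z : D, ∃ (x : C) (i : Z ⟶ F.obj x) (p : F.obj x ⟶ Z), i ≫ p = 𝟙 Z) (Z : Bim S') :
    ∃ (M : Bim S) (i : Z ⟶ φ.FBf.obj M) (q : φ.FBf.obj M ⟶ Z), i ≫ q = 𝟙 Z := by
  obtain ⟨x, i, p, hip⟩ : ∃ (x : D) (i : Z ⟶ (VF S').obj x) (p : (VF S').obj x ⟶ Z), i ≫ p = 𝟙 Z := bim_retr Z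
  obtain ⟨y, j, q, hjq⟩ := hdom x
  refine ⟨(VF S).obj y, i ≫ (VF S').map j ≫ (φ.VV y).hom, (φ.VV y).inv ≫ (VF S').map q ≫ p, ?_⟩
  have h1 : (VF S').map j ≫ (VF S').map q = 𝟙 _ := by
    rw [← (VF S').map_comp, hjq, (VF S').map_id]
  have h2 : (i ≫ (VF S').map j ≫ (φ.VV y).hom) ≫ (φ.VV y).inv ≫ (VF S').map q ≫ p = i ≫ ((VF S').map j ≫ (VF S').map q) ≫ p := by
    simp only [Category.assoc, Iso.hom_inv_id_assoc]
  rw [h2, h1, Category.id_comp, hip]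

/-- E3 -/
theorem deq_step [IsAlgClosed K] [CharZero K] [Limits.HasFiniteBiproducts C] {ιC : Type} [Fintype ιC]
    [DecidableEq ιC] (FC : Fus K C ιC) {ιD : Type} [Fintype ιD] [DecidableEq ιD] (FD : Fus K D ιD) (Q : DeEq K F p)
    (hp : p.Prime) (hF : ∀ i, Smp K (F.obj (FC.S i))) {n : ℕ} [NeZero n] (hn : n.Prime) (hnp : n ≠ p) {th : Gl D n}
    {S : SFrob D} (hS : IsSum K th S) :
    ∃ (th' : Gl C n) (S' : SFrob C) (_ : IsSum K th' S') (F' : Bim S' ⥤ Bim S) (_ : F'.Monoidal),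
      Nonempty (DeEq K F' p) := by
  have h1 := fus_end1 FD
  have h0 := fus_one_ne FD
  choose x s using exists_s0 FC Q hF th h1 h0
  have hn' : IsUnit (n : ZMod p) := (ZMod.isUnit_iff_coprime n p).2 ((Nat.coprime_primes hn hp).2 hnp)
  obtain ⟨th', s', su, sm⟩ := Q.wts.lift_gl hn' th (fun a => (s a).some) (gl_end th h1) (gl_ne th h0)
  obtain ⟨S', ⟨hS'⟩⟩ := exists_sum (K := K) (Nat.cast_ne_zero.2 (NeZero.ne n)) th'
  obtain ⟨φ⟩ := exists_algIso hS' hS Q.map_add Q.map_smul s' su sm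
  letI := φ.mon
  obtain ⟨Wt⟩ := φ.exists_wts Q.wts (φ.dom Q.dom)
  exact ⟨th', S', hS', φ.FBf, inferInstance, wts_deeq Wt (bim_end1S hS h1)⟩

end Pool.Agent.SFC
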