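import Pool.Agent.SFC.BFb
import Pool.Agent.SFC.BGa

/-!
# SFC/GA: basic properties of a de-equivariantization

`deq_faith`: `F` is faithful.  `deq_finrank`: `dim Hom (F x, F y) = ∑ a, dim Hom (x, T a ⊗ y)`.  `deq_psi`: the objects `T a` are
simple and pairwise not isomorphic.
-/

set_option autoImplicit false

noncomputable section

open CategoryTheory MonoidalCategory
open Functor.LaxMonoidal Functor.OplaxMonoidal

namespace Pool.Agent.SFC

open Pool.Agent.NFG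

universe v u v' u' w

/-! ### Simple objects -/

section

variable {K : Type w} [Field K] {C : Type u} [Category.{v} C] [Preadditive C] [Linear K C] [MonoidalCategory C]
  {ι : Type} [Fintype ι] [DecidableEq ι]

theorem smp_S (F : Fus K C ι) (i : ι) : Smp K (F.S i) := ⟨F.one_ne i, F.schur i⟩

theorem S_eq (F : Fus K C ι) {i j : ι} (e : F.S i ≅ F.S j) : i = j := by
  by_contra hij
  have h1 : e.hom = 0 := F.hom_zero i j hij _
  apply F.one_ne i
  rw [← e.hom_inv_id, h1, Limits.zero_comp]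

theorem S_eq' (F : Fus K C ι) {i j : ι} (f : F.S i ⟶ F.S j) (hf : f ≠ 0) : i = j := by
  by_contra hij
  exact hf (F.hom_zero i j hij f)

theorem smp_ex (F : Fus K C ι) {Z : C} (h : Smp K Z) : ∃ m, Nonempty (F.S m ≅ Z) := by
  obtain ⟨m, f, hf⟩ := exists_ne_zero F h.1
  obtain ⟨g, hg⟩ := exists_retract F hf
  obtain ⟨c, hc⟩ := h.2 (g ≫ f)
  have h3 : f ≫ (g ≫ f) = f := by rw [← Category.assoc, hg, Category.id_comp]
  have h4 : c • f = f := by
    rw [hc, Linear.comp_smul, Category.comp_id] at h3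
    exact h3
  have h5 : (c - 1) • f = 0 := by rw [sub_smul, h4, one_smul, sub_self]
  have h6 : c = 1 := by
    rcases smul_eq_zero.1 h5 with h | h
    · exact sub_eq_zero.1 h
    · exact absurd h hf
  refine ⟨m, ⟨⟨f, g, hg, ?_⟩⟩⟩
  rw [hc, h6, one_smul]

theorem finrank_S (F : Fus K C ι) (i j : ι) : Module.finrank K (F.S i ⟶ F.S j) = if i = j then 1 else 0 := by
  split_ifs with h
  · subst h
    refine finrank_eq_one (𝟙 (F.S i)) (F.one_ne i) fun f => ?_
    obtain ⟨c, hc⟩ := F.schur i f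
    exact ⟨c, hc.symm⟩
  · have : Subsingleton (F.S i ⟶ F.S j) :=
      ⟨fun f g => (F.hom_zero i j h f).trans (F.hom_zero i j h g).symm⟩
    exact Module.finrank_zero_of_subsingleton

theorem fus_unit (F : Fus K C ι) : Smp K (𝟙_ C) := by
  constructor
  · intro h
    apply F.one_ne F.o
    have h4 : 𝟙 (F.S F.o) = F.u.hom ≫ 𝟙 (𝟙_ C) ≫ F.u.inv := by
      rw [Category.id_comp, Iso.hom_inv_id]
    rw [h4, h, Limits.zero_comp, Limits.comp_zero]
  · intro f
    obtain ⟨c, hc⟩ := F.schur F.o (F.u.hom ≫ f ≫ F.u.inv)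
    refine ⟨c, ?_⟩
    have h1 : f = F.u.inv ≫ (F.u.hom ≫ f ≫ F.u.inv) ≫ F.u.hom := by simp
    rw [h1, hc, Linear.smul_comp, Linear.comp_smul, Category.id_comp, F.u.inv_hom_id]

omit [MonoidalCategory C] in
theorem Smp.iso {Z W : C} (h : Smp K Z) (e : Z ≅ W) : Smp K W := by
  constructor
  · intro h0
    apply h.1
    rw [← e.hom_inv_id, ← Category.id_comp e.inv, h0, Limits.zero_comp, Limits.comp_zero]
  · intro f
    obtain ⟨c, hc⟩ := h.2 (e.hom ≫ f ≫ e.inv)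
    refine ⟨c, ?_⟩
    have h1 : f = e.inv ≫ (e.hom ≫ f ≫ e.inv) ≫ e.hom := by simp
    rw [h1, hc, Linear.smul_comp, Linear.comp_smul, Category.id_comp, e.inv_hom_id]

omit [MonoidalCategory C] in
theorem iso_finrank {Z Z' W W' : C} (e : Z ≅ Z') (e' : W ≅ W') :
    Module.finrank K (Z ⟶ W) = Module.finrank K (Z' ⟶ W') :=
  (Linear.homCongr K e e').finrank_eq

end

/-! ### The functor `F` -/

section

variable {K : Type w} [Field K] {C : Type u} [Category.{v} C] [Preadditive C] [Linear K C] [MonoidalCategory C]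
  {D : Type u'} [Category.{v'} D] [Preadditive D] [Linear K D] [MonoidalCategory D] {F : C ⥤ D} [F.Monoidal] {n : ℕ}
  [NeZero n]

theorem deq_zero (Q : DeEq K F n) (x y : C) : F.map (0 : x ⟶ y) = 0 :=
  map_zero (AddMonoidHom.mk' (fun g : x ⟶ y => F.map g) (fun g h => Q.map_add g h))

theorem deq_sum (Q : DeEq K F n) {x y : C} {κ : Type*} [Fintype κ] (f : κ → (x ⟶ y)) :
    F.map (∑ a, f a) = ∑ a, F.map (f a) :=
  map_sum (AddMonoidHom.mk' (fun g : x ⟶ y => F.map g) (fun g h => Q.map_add g h)) f Finset.univ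

/-- the decomposition of the morphisms `F x ⟶ F y` -/
def DeEq.ev (Q : DeEq K F n) (x y : C) : (∀ a : ZMod n, x ⟶ Q.th.T a ⊗ y) →ₗ[K] (F.obj x ⟶ F.obj y) where
  toFun f := ∑ a, F.map (f a) ≫ δ F _ _ ≫ (Q.t a).hom ▷ F.obj y ≫ (λ_ _).hom
  map_add' f g := by
    rw [← Finset.sum_add_distrib]
    exact Finset.sum_congr rfl fun a _ => by rw [Pi.add_apply, Q.map_add, Preadditive.add_comp]
  map_smul' c f := by
    rw [RingHom.id_apply, Finset.smul_sum]
    exact Finset.sum_congr rfl fun a _ => by rw [Pi.smul_apply, Q.map_smul, Linear.smul_comp]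

theorem DeEq.ev_bij (Q : DeEq K F n) (x y : C) : Function.Bijective (Q.ev x y) := by
  constructor
  · intro f g hfg
    obtain ⟨k, -, hk⟩ := Q.hom x y (Q.ev x y f)
    rw [hk f rfl, hk g hfg]
  · intro h
    obtain ⟨k, hk, -⟩ := Q.hom x y h
    exact ⟨k, hk.symm⟩

theorem DeEq.ev_single (Q : DeEq K F n) {x y : C} (f : x ⟶ y) :
    Q.ev x y (Pi.single 0 (f ≫ (λ_ y).inv ≫ Q.th.u.hom ▷ y)) = F.map f := by
  have h1 : ∀ g : x ⟶ Q.th.T 0 ⊗ y, Q.ev x y (Pi.single 0 g) =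
      F.map g ≫ δ F _ _ ≫ (Q.t 0).hom ▷ F.obj y ≫ (λ_ _).hom := by
    intro g
    change ∑ a, F.map ((Pi.single 0 g : ∀ a : ZMod n, x ⟶ Q.th.T a ⊗ y) a) ≫ δ F _ _ ≫ (Q.t a).hom ▷ F.obj y ≫
      (λ_ _).hom = _
    rw [Finset.sum_eq_single 0]
    · rw [Pi.single_eq_same]
    · intro b _ hb
      rw [Pi.single_eq_of_ne hb, deq_zero Q, Limits.zero_comp]
    · intro h
      exact absurd (Finset.mem_univ _) h
  rw [h1, F.map_comp, F.map_comp, Category.assoc, Category.assoc]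
  have h2 : F.map (Q.th.u.hom ▷ y) ≫ δ F (Q.th.T 0) y ≫ (Q.t 0).hom ▷ F.obj y ≫ (λ_ _).hom =
      δ F (𝟙_ C) y ≫ η F ▷ F.obj y ≫ (λ_ _).hom := by
    rw [← Q.t_one, comp_whiskerRight, Category.assoc, ← δ_natural_left_assoc]
  rw [h2, Functor.OplaxMonoidal.left_unitality_hom, ← F.map_comp, Iso.inv_hom_id, F.map_id, Category.comp_id]

theorem deq_faith (Q : DeEq K F n) : F.Faithful := by
  refine ⟨fun {x y} f g hfg => ?_⟩
  have h1 := (Q.ev_bij x y).1 ((Q.ev_single f).trans (hfg.trans (Q.ev_single g).symm))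
  have h2 := congrFun h1 0
  rw [Pi.single_eq_same, Pi.single_eq_same] at h2
  have h3 : ∀ f : x ⟶ y, f = (f ≫ (λ_ y).inv ≫ Q.th.u.hom ▷ y) ≫ Q.th.u.inv ▷ y ≫ (λ_ y).hom := by
    intro f
    rw [Category.assoc, Category.assoc, ← comp_whiskerRight_assoc, Iso.hom_inv_id, id_whiskerRight,
      Category.id_comp, Iso.inv_hom_id, Category.comp_id]
  rw [h3 f, h2, ← h3 g]

theorem deq_smp (Q : DeEq K F n) {x : C} (h : Smp K (F.obj x)) : Smp K x := by
  have := deq_faith Q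
  constructor
  · intro h0
    apply h.1
    rw [← F.map_id, h0, deq_zero Q]
  · intro f
    obtain ⟨c, hc⟩ := h.2 (F.map f)
    refine ⟨c, F.map_injective ?_⟩
    rw [hc, Q.map_smul, F.map_id]

end

section

variable {K : Type w} [Field K] {C : Type u} [Category.{v} C] [Preadditive C] [Linear K C] [MonoidalCategory C]
  [MonoidalPreadditive C] [MonoidalLinear K C] {D : Type u'} [Category.{v'} D] [Preadditive D] [Linear K D]
  [MonoidalCategory D] [MonoidalPreadditive D] [MonoidalLinear K D] {F : C ⥤ D} [F.Monoidal] {n : ℕ}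
  [NeZero n] {ιC ιD : Type} [Fintype ιC] [DecidableEq ιC] [Fintype ιD] [DecidableEq ιD]

omit [MonoidalPreadditive D] [MonoidalLinear K D] in
theorem deq_finrank (Q : DeEq K F n) (FC : Fus K C ιC) (x y : C) :
    Module.finrank K (F.obj x ⟶ F.obj y) = ∑ a, Module.finrank K (x ⟶ Q.th.T a ⊗ y) := by
  have : ∀ a, FiniteDimensional K (x ⟶ Q.th.T a ⊗ y) := fun a => fus_fd FC _ _
  rw [← (LinearEquiv.ofBijective (Q.ev x y) (Q.ev_bij x y)).finrank_eq, Module.finrank_pi_fintype]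

omit [MonoidalPreadditive C] [Linear K C] [MonoidalLinear K C] [NeZero n] in
theorem gl_inj (th : Gl C n) (h1 : 𝟙 (𝟙_ C) ≠ 0) {a b : ZMod n} (e : th.T a ≅ th.T b) : a = b := by
  by_contra hab
  have e1 : 𝟙_ C ≅ th.T (a - b) := th.u ≪≫ (th.m b (-b) 0 (add_neg_cancel b)).symm ≪≫
    whiskerRightIso e.symm (th.T (-b)) ≪≫ th.m a (-b) (a - b) (sub_eq_add_neg a b).symm
  have h2 : e1.hom = 0 := th.ne _ (sub_ne_zero.2 hab) _
  apply h1
  rw [← e1.hom_inv_id, h2, Limits.zero_comp]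

omit [MonoidalPreadditive C] [MonoidalLinear K C] [MonoidalPreadditive D] [MonoidalLinear K D] in
theorem deq_T (Q : DeEq K F n) (FD : Fus K D ιD) (a : ZMod n) : Smp K (Q.th.T a) :=
  deq_smp Q ((fus_unit FD).iso (Q.t a).symm)

omit [MonoidalPreadditive C] [MonoidalLinear K C] [MonoidalPreadditive D] [MonoidalLinear K D] in
theorem deq_psi (Q : DeEq K F n) (FC : Fus K C ιC) (FD : Fus K D ιD) : ∃ ψ : ZMod n → ιC,
    (∀ a, Nonempty (FC.S (ψ a) ≅ Q.th.T a)) ∧ Function.Injective ψ ∧ ψ 0 = FC.o := by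
  choose ψ hψ using fun a => smp_ex FC (deq_T Q FD a)
  refine ⟨ψ, hψ, fun a b hab => ?_, ?_⟩
  · obtain ⟨e1⟩ := hψ a
    obtain ⟨e2⟩ := hψ b
    exact gl_inj Q.th (fus_unit FC).1 (e1.symm ≪≫ eqToIso (by rw [hab]) ≪≫ e2)
  · obtain ⟨e⟩ := hψ 0
    exact S_eq FC (e ≪≫ Q.th.u.symm ≪≫ FC.u.symm)

end

/-! ### Exact pairings -/

section

variable {C : Type u} [Category.{v} C] [MonoidalCategory C] {D : Type u'} [Category.{v'} D] [MonoidalCategory D]

private theorem GA_frob1 (V : C ⥤ D) [V.Monoidal] (x y z : C) : δ V x y ▷ V.obj z ≫ (α_ _ _ _).hom ≫ V.obj x ◁ μ V y z =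
    μ V (x ⊗ y) z ≫ V.map (α_ x y z).hom ≫ δ V x (y ⊗ z) := by
  have h1 := Functor.LaxMonoidal.associativity V x y z
  have h2 : V.obj x ◁ μ V y z = (α_ _ _ _).inv ≫ μ V x y ▷ V.obj z ≫ μ V (x ⊗ y) z ≫ V.map (α_ x y z).hom ≫
      δ V x (y ⊗ z) := by
    have h3 := congrArg (fun t => (α_ _ _ _).inv ≫ t ≫ δ V x (y ⊗ z)) h1
    simp only [Category.assoc, Iso.inv_hom_id_assoc, Functor.Monoidal.μ_δ, Category.comp_id] at h3
    exact h3.symm
  rw [h2, Iso.hom_inv_id_assoc, ← comp_whiskerRight_assoc, Functor.Monoidal.δ_μ, id_whiskerRight,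
    Category.id_comp]

private theorem GA_frob2 (V : C ⥤ D) [V.Monoidal] (x y z : C) : V.obj x ◁ δ V y z ≫ (α_ _ _ _).inv ≫ μ V x y ▷ V.obj z =
    μ V x (y ⊗ z) ≫ V.map (α_ x y z).inv ≫ δ V (x ⊗ y) z := by
  have h1 := Functor.LaxMonoidal.associativity_inv V x y z
  have h2 : μ V x y ▷ V.obj z = (α_ _ _ _).hom ≫ V.obj x ◁ μ V y z ≫ μ V x (y ⊗ z) ≫ V.map (α_ x y z).inv ≫
      δ V (x ⊗ y) z := by
    have h3 := congrArg (fun t => (α_ _ _ _).hom ≫ t ≫ δ V (x ⊗ y) z) h1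
    simp only [Category.assoc, Iso.hom_inv_id_assoc, Functor.Monoidal.μ_δ, Category.comp_id] at h3
    exact h3.symm
  rw [h2, Iso.inv_hom_id_assoc, ← MonoidalCategory.whiskerLeft_comp_assoc, Functor.Monoidal.δ_μ,
    MonoidalCategory.whiskerLeft_id, Category.id_comp]

private theorem GA_two (V : C ⥤ D) [V.Monoidal] {x y : C} (e : ExactPairing x y) :
    (ε V ≫ V.map e.coevaluation' ≫ δ V x y) ▷ V.obj x ≫ (α_ _ _ _).hom ≫
      V.obj x ◁ (μ V y x ≫ V.map e.evaluation' ≫ η V) = (λ_ (V.obj x)).hom ≫ (ρ_ (V.obj x)).inv := by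
  have h1 := GA_frob1 V x y x
  have h2 := congrArg V.map e.evaluation_coevaluation'
  rw [V.map_comp, V.map_comp, V.map_comp] at h2
  calc (ε V ≫ V.map e.coevaluation' ≫ δ V x y) ▷ V.obj x ≫ (α_ _ _ _).hom ≫
      V.obj x ◁ (μ V y x ≫ V.map e.evaluation' ≫ η V)
      = ε V ▷ V.obj x ≫ V.map e.coevaluation' ▷ V.obj x ≫
          (δ V x y ▷ V.obj x ≫ (α_ _ _ _).hom ≫ V.obj x ◁ μ V y x) ≫
            V.obj x ◁ V.map e.evaluation' ≫ V.obj x ◁ η V := by
        simp only [comp_whiskerRight, MonoidalCategory.whiskerLeft_comp, Category.assoc]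
    _ = ε V ▷ V.obj x ≫ (V.map e.coevaluation' ▷ V.obj x ≫ μ V (x ⊗ y) x) ≫ V.map (α_ x y x).hom ≫
          (δ V x (y ⊗ x) ≫ V.obj x ◁ V.map e.evaluation') ≫ V.obj x ◁ η V := by
        rw [h1]
        simp only [Category.assoc]
    _ = ε V ▷ V.obj x ≫ μ V (𝟙_ C) x ≫
          (V.map (e.coevaluation' ▷ x) ≫ V.map (α_ x y x).hom ≫ V.map (x ◁ e.evaluation')) ≫
            δ V x (𝟙_ C) ≫ V.obj x ◁ η V := by
        rw [μ_natural_left, δ_natural_right]
        simp only [Category.assoc]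
    _ = (ε V ▷ V.obj x ≫ μ V (𝟙_ C) x ≫ V.map (λ_ x).hom) ≫
          (V.map (ρ_ x).inv ≫ δ V x (𝟙_ C) ≫ V.obj x ◁ η V) := by
        rw [h2]
        simp only [Category.assoc]
    _ = (λ_ (V.obj x)).hom ≫ (ρ_ (V.obj x)).inv := by
        rw [← Functor.LaxMonoidal.left_unitality, ← Functor.OplaxMonoidal.right_unitality]

private theorem GA_one (V : C ⥤ D) [V.Monoidal] {x y : C} (e : ExactPairing x y) :
    V.obj y ◁ (ε V ≫ V.map e.coevaluation' ≫ δ V x y) ≫ (α_ _ _ _).inv ≫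
      (μ V y x ≫ V.map e.evaluation' ≫ η V) ▷ V.obj y = (ρ_ (V.obj y)).hom ≫ (λ_ (V.obj y)).inv := by
  have h1 := GA_frob2 V y x y
  have h2 := congrArg V.map e.coevaluation_evaluation'
  rw [V.map_comp, V.map_comp, V.map_comp] at h2
  calc V.obj y ◁ (ε V ≫ V.map e.coevaluation' ≫ δ V x y) ≫ (α_ _ _ _).inv ≫
      (μ V y x ≫ V.map e.evaluation' ≫ η V) ▷ V.obj y
      = V.obj y ◁ ε V ≫ V.obj y ◁ V.map e.coevaluation' ≫
          (V.obj y ◁ δ V x y ≫ (α_ _ _ _).inv ≫ μ V y x ▷ V.obj y) ≫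
            V.map e.evaluation' ▷ V.obj y ≫ η V ▷ V.obj y := by
        simp only [comp_whiskerRight, MonoidalCategory.whiskerLeft_comp, Category.assoc]
    _ = V.obj y ◁ ε V ≫ (V.obj y ◁ V.map e.coevaluation' ≫ μ V y (x ⊗ y)) ≫ V.map (α_ y x y).inv ≫
          (δ V (y ⊗ x) y ≫ V.map e.evaluation' ▷ V.obj y) ≫ η V ▷ V.obj y := by
        rw [h1]
        simp only [Category.assoc]
    _ = V.obj y ◁ ε V ≫ μ V y (𝟙_ C) ≫
          (V.map (y ◁ e.coevaluation') ≫ V.map (α_ y x y).inv ≫ V.map (e.evaluation' ▷ y)) ≫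
            δ V (𝟙_ C) y ≫ η V ▷ V.obj y := by
        rw [μ_natural_right, δ_natural_left]
        simp only [Category.assoc]
    _ = (V.obj y ◁ ε V ≫ μ V y (𝟙_ C) ≫ V.map (ρ_ y).hom) ≫
          (V.map (λ_ y).inv ≫ δ V (𝟙_ C) y ≫ η V ▷ V.obj y) := by
        rw [h2]
        simp only [Category.assoc]
    _ = (ρ_ (V.obj y)).hom ≫ (λ_ (V.obj y)).inv := by
        rw [← Functor.LaxMonoidal.right_unitality, ← Functor.OplaxMonoidal.left_unitality]

/-- strong monoidal functors preserve exact pairings -/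
theorem pair_mon (V : C ⥤ D) [V.Monoidal] {x y : C} (e : ExactPairing x y) :
    Nonempty (ExactPairing (V.obj x) (V.obj y)) :=
  ⟨{ coevaluation' := ε V ≫ V.map e.coevaluation' ≫ δ V x y
     evaluation' := μ V y x ≫ V.map e.evaluation' ≫ η V
     coevaluation_evaluation' := GA_one V e
     evaluation_coevaluation' := GA_two V e }⟩

end

end Pool.Agent.SFC
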