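import Pool.Agent.SFC.GA

/-!
# SFC/GB: if the de-equivariantization is nilpotent and `F` preserves simple objects, `C` is nilpotent
-/

set_option autoImplicit false

noncomputable section

open CategoryTheory MonoidalCategory
open Functor.LaxMonoidal Functor.OplaxMonoidal

namespace Pool.Agent.SFC

open Pool.Agent.NFG

universe v u v' u' w

variable {K : Type w} [Field K] {C : Type u} [Category.{v} C] [Preadditive C] [Linear K C] [MonoidalCategory C]
  [MonoidalPreadditive C] [MonoidalLinear K C] {D : Type u'} [Category.{v'} D] [Preadditive D] [Linear K D]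
  [MonoidalCategory D] [MonoidalPreadditive D] [MonoidalLinear K D] {F : C ⥤ D} [F.Monoidal] {n : ℕ}
  [NeZero n] {ιC ιD : Type} [Fintype ιC] [DecidableEq ιC] [Fintype ιD] [DecidableEq ιD]

omit [MonoidalPreadditive C] [MonoidalLinear K C] [MonoidalPreadditive D] [MonoidalLinear K D] in
/-- each nonzero object has nonzero morphisms to some `F (S k)` -/
theorem deq_ne (Q : DeEq K F n) (FC : Fus K C ιC) {Z : D} (h : 𝟙 Z ≠ 0) : ∃ (k : ιC) (f : Z ⟶ F.obj (FC.S k)), f ≠ 0 := by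
  obtain ⟨x, i, p, hip⟩ := Q.dom Z
  obtain ⟨m, k, q, j, -, -, hs⟩ := FC.dec x
  by_contra hne
  push Not at hne
  apply h
  have h1 : 𝟙 (F.obj x) = ∑ a, F.map (q a) ≫ F.map (j a) := by
    rw [← F.map_id, ← hs, deq_sum Q]
    exact Finset.sum_congr rfl fun a _ => F.map_comp _ _
  rw [← hip, ← Category.comp_id i, h1, Preadditive.comp_sum]
  have h2 : ∀ a, i ≫ F.map (q a) ≫ F.map (j a) = 0 := by
    intro a
    rw [← Category.assoc, hne (k a) (i ≫ F.map (q a)), Limits.zero_comp]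
  rw [Finset.sum_eq_zero fun a _ => h2 a, Limits.zero_comp]

omit [MonoidalPreadditive C] [MonoidalLinear K C] [MonoidalPreadditive D] [MonoidalLinear K D] in
theorem deq_ne' (Q : DeEq K F n) (FC : Fus K C ιC) {Z : D} (h : 𝟙 Z ≠ 0) : ∃ (k : ιC) (f : F.obj (FC.S k) ⟶ Z), f ≠ 0 := by
  obtain ⟨x, i, p, hip⟩ := Q.dom Z
  obtain ⟨m, k, q, j, -, -, hs⟩ := FC.dec x
  by_contra hne
  push Not at hne
  apply h
  have h1 : 𝟙 (F.obj x) = ∑ a, F.map (q a) ≫ F.map (j a) := by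
    rw [← F.map_id, ← hs, deq_sum Q]
    exact Finset.sum_congr rfl fun a _ => F.map_comp _ _
  rw [← hip, ← Category.id_comp p, h1, Preadditive.sum_comp, Preadditive.comp_sum]
  refine Finset.sum_eq_zero fun a _ => ?_
  rw [Category.assoc, hne (k a) (F.map (j a) ≫ p), Limits.comp_zero, Limits.comp_zero]

/-- the map on simple objects -/
structure PhiD (FC : Fus K C ιC) (FD : Fus K D ιD) (F : C ⥤ D) (φ : ιC → ιD) : Prop where
  iso : ∀ i, Nonempty (FD.S (φ i) ≅ F.obj (FC.S i))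
  surj : Function.Surjective φ
  one : φ FC.o = FD.o
  occ : ∀ i j k, FC.Occ i j k → FD.Occ (φ i) (φ j) (φ k)

omit [MonoidalPreadditive C] [MonoidalLinear K C] [MonoidalPreadditive D] [MonoidalLinear K D] in
theorem deq_phi (Q : DeEq K F n) (FC : Fus K C ιC) (FD : Fus K D ιD) (hF : ∀ i, Smp K (F.obj (FC.S i))) :
    ∃ φ : ιC → ιD, PhiD FC FD F φ := by
  have hfaith := deq_faith Q
  choose φ hφ using fun i => smp_ex FD (hF i)
  refine ⟨φ, hφ, fun j => ?_, ?_, fun i j k hocc => ?_⟩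
  · obtain ⟨k, f, hf⟩ := deq_ne Q FC (FD.one_ne j)
    obtain ⟨e⟩ := hφ k
    refine ⟨k, (S_eq' FD (f ≫ e.inv) fun h0 => hf ?_).symm⟩
    rw [← Category.comp_id f, ← e.inv_hom_id, ← Category.assoc, h0, Limits.zero_comp]
  · obtain ⟨e⟩ := hφ FC.o
    exact S_eq FD (e ≪≫ F.mapIso FC.u ≪≫ (Functor.Monoidal.εIso F).symm ≪≫ FD.u.symm)
  · obtain ⟨f, hf⟩ := hocc
    obtain ⟨e1⟩ := hφ i
    obtain ⟨e2⟩ := hφ j
    obtain ⟨e3⟩ := hφ k
    let s : FD.S (φ i) ⊗ FD.S (φ j) ≅ F.obj (FC.S i ⊗ FC.S j) := (e1 ⊗ᵢ e2) ≪≫ Functor.Monoidal.μIso F _ _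
    refine ⟨e3.hom ≫ F.map f ≫ s.inv, fun h0 => hf ?_⟩
    apply F.map_injective
    rw [deq_zero Q]
    have h1 : F.map f = e3.inv ≫ (e3.hom ≫ F.map f ≫ s.inv) ≫ s.hom := by simp
    rw [h1, h0, Limits.zero_comp, Limits.comp_zero]

/-- E4 -/
theorem deq_nil {ιC : Type} [Fintype ιC] [DecidableEq ιC] (FC : Fus K C ιC)
    {ιD : Type} [Fintype ιD] [DecidableEq ιD] (FD : Fus K D ιD) {F : C ⥤ D} [F.Monoidal] {p : ℕ} [NeZero p]
    (Q : DeEq K F p) (_hp : p.Prime) (hF : ∀ i, Smp K (F.obj (FC.S i))) (hD : FD.Nlp Set.univ) :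
    FC.Nlp Set.univ := by
  obtain ⟨φ, hφ⟩ := deq_phi Q FC FD hF
  obtain ⟨ψ, hψ, hinj, h0⟩ := deq_psi Q FC FD
  have hmem : ∀ i, φ i = FD.o ↔ ∃ a, ψ a = i := by
    intro i
    constructor
    · intro hi
      obtain ⟨e⟩ := hφ.iso i
      let s : F.obj (FC.S i) ≅ F.obj (𝟙_ C) := e.symm ≪≫ eqToIso (by rw [hi]) ≪≫ FD.u ≪≫ Functor.Monoidal.εIso F
      have h1 : Module.finrank K (F.obj (FC.S i) ⟶ F.obj (𝟙_ C)) ≠ 0 := by
        rw [iso_finrank (K := K) (e.symm : F.obj (FC.S i) ≅ FD.S (φ i))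
          ((Functor.Monoidal.εIso F).symm ≪≫ FD.u.symm : F.obj (𝟙_ C) ≅ FD.S FD.o), finrank_S, if_pos hi]
        exact one_ne_zero
      rw [deq_finrank Q FC] at h1
      obtain ⟨a, -, ha⟩ := Finset.exists_ne_zero_of_sum_ne_zero h1
      obtain ⟨t⟩ := hψ a
      rw [iso_finrank (K := K) (Iso.refl (FC.S i)) ((ρ_ (Q.th.T a)) ≪≫ t.symm), finrank_S] at ha
      refine ⟨a, ?_⟩
      by_contra hne
      exact ha (if_neg fun h => hne h.symm)
    · rintro ⟨a, rfl⟩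
      obtain ⟨e⟩ := hφ.iso (ψ a)
      obtain ⟨t⟩ := hψ a
      exact S_eq FD (e ≪≫ F.mapIso t ≪≫ Q.t a ≪≫ FD.u.symm)
  have key : ∀ E : Set ιD, FD.Nlp E → FC.Nlp (φ ⁻¹' E) := by
    intro E hE
    induction hE with
    | vec =>
      have hx : ∀ a, Function.extend ψ (Multiplicative.ofAdd : ZMod p → Multiplicative (ZMod p)) 1 (ψ a) =
          Multiplicative.ofAdd a := fun a => hinj.extend_apply _ _ _
      refine Fus.Nlp.ext {FC.o} (φ ⁻¹' {FD.o}) (Multiplicative (ZMod p)) inferInstance inferInstance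
        (Function.extend ψ (Multiplicative.ofAdd : ZMod p → Multiplicative (ZMod p)) 1) Fus.Nlp.vec ⟨?_, ?_, ?_, ?_⟩
      · exact hφ.one
      · intro i hi j hj k hk
        obtain ⟨a, rfl⟩ := (hmem i).1 hi
        obtain ⟨b, rfl⟩ := (hmem j).1 hj
        obtain ⟨f, hf⟩ := hk
        obtain ⟨t1⟩ := hψ a
        obtain ⟨t2⟩ := hψ b
        obtain ⟨t3⟩ := hψ (a + b)
        let s : FC.S (ψ a) ⊗ FC.S (ψ b) ≅ FC.S (ψ (a + b)) := (t1 ⊗ᵢ t2) ≪≫ Q.th.m a b (a + b) rfl ≪≫ t3.symm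
        have h1 : k = ψ (a + b) := by
          refine S_eq' FC (f ≫ s.hom) fun h0 => hf ?_
          rw [← Category.comp_id f, ← s.hom_inv_id, ← Category.assoc, h0, Limits.zero_comp]
        subst h1
        refine ⟨(hmem _).2 ⟨_, rfl⟩, ?_⟩
        rw [hx, hx, hx, ofAdd_add]
      · intro i
        constructor
        · rintro rfl
          refine ⟨hφ.one, ?_⟩
          rw [← h0, hx, ofAdd_zero]
        · rintro ⟨hi, h5⟩
          obtain ⟨a, rfl⟩ := (hmem i).1 hi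
          rw [hx] at h5
          have h6 : a = 0 := h5
          rw [h6]
          exact h0
      · intro q
        exact ⟨ψ (Multiplicative.toAdd q), (hmem _).2 ⟨_, rfl⟩, by rw [hx]; rfl⟩
    | ext E E' Q' iG iF deg' _ hg ih =>
      obtain ⟨h1, h2, h3, h4⟩ := hg
      refine Fus.Nlp.ext (φ ⁻¹' E) (φ ⁻¹' E') Q' iG iF (fun i => deg' (φ i)) ih ⟨?_, ?_, ?_, ?_⟩
      · change φ FC.o ∈ E'
        rw [hφ.one]
        exact h1
      · intro i hi j hj k hk
        exact h2 (φ i) hi (φ j) hj (φ k) (hφ.occ i j k hk)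
      · intro i
        exact h3 (φ i)
      · intro q
        obtain ⟨j, hj, h5⟩ := h4 q
        obtain ⟨i, rfl⟩ := hφ.surj j
        exact ⟨i, hj, h5⟩
  exact key _ hD

end Pool.Agent.SFC
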