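import Pool.Agent.SFC.GB

/-!
# SFC/GC: Frobenius-Perron dimensions of a de-equivariantization

`fD FC F p f Z = (1/p) ∑ k, f k * dim Hom (F (S k), Z)`.
-/

set_option autoImplicit false

noncomputable section

open CategoryTheory MonoidalCategory
open Functor.LaxMonoidal Functor.OplaxMonoidal

namespace Pool.Agent.SFC

open Pool.Agent.NFG

universe v u v' u' w

variable {K : Type w} [Field K] {C : Type u} [Category.{v} C] [Preadditive C] [Linear K C] [MonoidalCategory C]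
  [MonoidalPreadditive C] [MonoidalLinear K C] {D : Type u'} [Category.{v'} D] [Preadditive D] [Linear K D]
  [MonoidalCategory D] [MonoidalPreadditive D] [MonoidalLinear K D] {F : C ⥤ D} [F.Monoidal] {p : ℕ}
  [NeZero p] {ιC ιD : Type} [Fintype ιC] [DecidableEq ιC] [Fintype ιD] [DecidableEq ιD]

/-- the dimension of an object of `D` -/
def fD (FC : Fus K C ιC) (F : C ⥤ D) (p : ℕ) (f : ιC → ℝ) (Z : D) : ℝ :=
  (p : ℝ)⁻¹ * ∑ k, f k * (Module.finrank K (F.obj (FC.S k) ⟶ Z) : ℝ)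

omit [MonoidalPreadditive D] [MonoidalLinear K D] in
theorem fD_F (Q : DeEq K F p) {FC : Fus K C ιC} {f : ιC → ℝ} (hf : IsFPdim FC f) (x : C) :
    fD FC F p f (F.obj x) = fo FC f x := by
  have hp : (p : ℝ) ≠ 0 := Nat.cast_ne_zero.2 (NeZero.ne p)
  have h1 : ∑ k, f k * (Module.finrank K (F.obj (FC.S k) ⟶ F.obj x) : ℝ) = ∑ a, fo FC f (Q.th.T a ⊗ x) := by
    simp only [fo]
    rw [Finset.sum_comm]
    refine Finset.sum_congr rfl fun k _ => ?_
    rw [deq_finrank Q FC, Nat.cast_sum, Finset.mul_sum]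
  rw [fD, h1]
  have h2 : ∀ a, fo FC f (Q.th.T a ⊗ x) = fo FC f x := fun a => by
    rw [fo_tensor hf, fo_gl hf, one_mul]
  rw [Finset.sum_congr rfl fun a _ => h2 a, Finset.sum_const, Finset.card_univ, ZMod.card, nsmul_eq_mul,
    inv_mul_cancel_left₀ hp]

omit [MonoidalPreadditive C] [MonoidalLinear K C] in
theorem hom_F (Q : DeEq K F p) (FC : Fus K C ιC) (FD : Fus K D ιD) (y : C) (Z : D) :
    Module.finrank K (F.obj y ⟶ Z) =
      ∑ l, Module.finrank K (FC.S l ⟶ y) * Module.finrank K (F.obj (FC.S l) ⟶ Z) := by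
  have hfin : ∀ m, FiniteDimensional K (FC.S m ⟶ y) := fun m => fin_hom FC y m
  obtain ⟨g, hg1, hg2⟩ := dual_basis FC y (fun m => Module.finrank K (FC.S m ⟶ y))
    (fun m => Module.finBasis K (FC.S m ⟶ y))
  set b : ∀ m, Module.Basis (Fin (Module.finrank K (FC.S m ⟶ y))) K (FC.S m ⟶ y) :=
    fun m => Module.finBasis K (FC.S m ⟶ y) with hb
  have hfin2 : ∀ m, FiniteDimensional K (F.obj (FC.S m) ⟶ Z) := fun m => fus_fd FD _ _
  have hV : ∑ m, ∑ i, F.map (g m i) ≫ F.map (b m i) = 𝟙 (F.obj y) := by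
    rw [← F.map_id, ← hg2, deq_sum Q]
    refine Finset.sum_congr rfl fun m _ => ?_
    rw [deq_sum Q]
    exact Finset.sum_congr rfl fun i _ => (F.map_comp _ _).symm
  let e : (F.obj y ⟶ Z) ≃ₗ[K] (∀ m, Fin (Module.finrank K (FC.S m ⟶ y)) → (F.obj (FC.S m) ⟶ Z)) :=
    { toFun := fun f m i => F.map (b m i) ≫ f
      map_add' := fun f f' => funext fun m => funext fun i => Preadditive.comp_add _ _ _ _ _ _
      map_smul' := fun c f => funext fun m => funext fun i => Linear.comp_smul _ _ _ _ _ _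
      invFun := fun h => ∑ m, ∑ i, F.map (g m i) ≫ h m i
      left_inv := fun f => by
        change ∑ m, ∑ i, F.map (g m i) ≫ F.map (b m i) ≫ f = f
        conv_rhs => rw [← Category.id_comp f, ← hV, Preadditive.sum_comp]
        refine Finset.sum_congr rfl fun m _ => ?_
        rw [Preadditive.sum_comp]
        exact Finset.sum_congr rfl fun i _ => (Category.assoc _ _ _).symm
      right_inv := fun h => by
        funext m i
        change F.map (b m i) ≫ (∑ m', ∑ i', F.map (g m' i') ≫ h m' i') = h m i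
        rw [Preadditive.comp_sum, Finset.sum_eq_single m]
        · rw [Preadditive.comp_sum, Finset.sum_eq_single i]
          · rw [← Category.assoc, ← F.map_comp, hg1, if_pos rfl, F.map_id, Category.id_comp]
          · intro i' _ hi
            rw [← Category.assoc, ← F.map_comp, hg1, if_neg (fun h => hi h.symm), deq_zero Q, Limits.zero_comp]
          · intro hi
            exact absurd (Finset.mem_univ i) hi
        · intro m' _ hm
          rw [Preadditive.comp_sum]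
          refine Finset.sum_eq_zero fun i' _ => ?_
          rw [← Category.assoc, ← F.map_comp, FC.hom_zero m m' (fun h => hm h.symm) (b m i ≫ g m' i'), deq_zero Q,
            Limits.zero_comp]
        · intro hm
          exact absurd (Finset.mem_univ m) hm }
  rw [e.finrank_eq, Module.finrank_pi_fintype]
  refine Finset.sum_congr rfl fun m _ => ?_
  rw [Module.finrank_pi_fintype, Finset.sum_const, Finset.card_univ, Fintype.card_fin, smul_eq_mul]

/-- the adjunction of an exact pairing, as a linear isomorphism -/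
private theorem GC_adj {M : Type u'} [Category.{v'} M] [Preadditive M] [Linear K M] [MonoidalCategory M]
    [MonoidalPreadditive M] [MonoidalLinear K M] {Y Y' : M} (e : ExactPairing Y Y') (X Z : M) :
    Module.finrank K (Y' ⊗ X ⟶ Z) = Module.finrank K (X ⟶ Y ⊗ Z) := by
  let _ := e
  let Φ : (Y' ⊗ X ⟶ Z) ≃ₗ[K] (X ⟶ Y ⊗ Z) :=
    { tensorLeftHomEquiv X Y Y' Z with
      map_add' := fun f g => by
        change (λ_ _).inv ≫ η_ _ _ ▷ _ ≫ (α_ _ _ _).hom ≫ _ ◁ (f + g) =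
          ((λ_ _).inv ≫ η_ _ _ ▷ _ ≫ (α_ _ _ _).hom ≫ _ ◁ f) + ((λ_ _).inv ≫ η_ _ _ ▷ _ ≫ (α_ _ _ _).hom ≫ _ ◁ g)
        rw [MonoidalPreadditive.whiskerLeft_add]
        simp only [Preadditive.comp_add]
      map_smul' := fun c f => by
        change (λ_ _).inv ≫ η_ _ _ ▷ _ ≫ (α_ _ _ _).hom ≫ _ ◁ (c • f) =
          c • ((λ_ _).inv ≫ η_ _ _ ▷ _ ≫ (α_ _ _ _).hom ≫ _ ◁ f)
        rw [MonoidalLinear.whiskerLeft_smul]
        simp only [Linear.comp_smul] }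
  exact Φ.finrank_eq

theorem fD_FZ (Q : DeEq K F p) (hC : Rig C) {FC : Fus K C ιC} (FD : Fus K D ιD) {f : ιC → ℝ} (hf : IsFPdim FC f)
    (x : C) (Z : D) : fD FC F p f (F.obj x ⊗ Z) = fo FC f x * fD FC F p f Z := by
  obtain ⟨x', ⟨e1⟩⟩ := (hC x).1
  obtain ⟨x'', ⟨e2⟩⟩ := (hC x').1
  obtain ⟨eV⟩ := pair_mon F e1
  have h1 : ∀ k, Module.finrank K (F.obj (FC.S k) ⟶ F.obj x ⊗ Z) =
      ∑ l, Module.finrank K (FC.S k ⟶ x'' ⊗ FC.S l) * Module.finrank K (F.obj (FC.S l) ⟶ Z) := by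
    intro k
    rw [← GC_adj eV, iso_finrank (K := K) (Functor.Monoidal.μIso F x' (FC.S k)) (Iso.refl Z), hom_F Q FC FD]
    refine Finset.sum_congr rfl fun l _ => ?_
    rw [← GC_adj e2, fus_symm FC]
  have h2 : ∀ l, ∑ k, f k * (Module.finrank K (FC.S k ⟶ x'' ⊗ FC.S l) : ℝ) = fo FC f x * f l := by
    intro l
    have h3 : ∑ k, f k * (Module.finrank K (FC.S k ⟶ x'' ⊗ FC.S l) : ℝ) = fo FC f (x'' ⊗ FC.S l) := rfl
    rw [h3, fo_tensor hf, fo_S, fo_dual hf e2, fo_dual hf e1]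
  have h4 : ∑ k, f k * (Module.finrank K (F.obj (FC.S k) ⟶ F.obj x ⊗ Z) : ℝ) =
      fo FC f x * ∑ l, f l * (Module.finrank K (F.obj (FC.S l) ⟶ Z) : ℝ) := by
    calc ∑ k, f k * (Module.finrank K (F.obj (FC.S k) ⟶ F.obj x ⊗ Z) : ℝ)
        = ∑ k, ∑ l, f k * (Module.finrank K (FC.S k ⟶ x'' ⊗ FC.S l) : ℝ) *
            (Module.finrank K (F.obj (FC.S l) ⟶ Z) : ℝ) := by
          refine Finset.sum_congr rfl fun k _ => ?_
          rw [h1 k]
          push_cast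
          rw [Finset.mul_sum]
          exact Finset.sum_congr rfl fun l _ => by ring
      _ = ∑ l, (∑ k, f k * (Module.finrank K (FC.S k ⟶ x'' ⊗ FC.S l) : ℝ)) *
            (Module.finrank K (F.obj (FC.S l) ⟶ Z) : ℝ) := by
          rw [Finset.sum_comm]
          exact Finset.sum_congr rfl fun l _ => (Finset.sum_mul _ _ _).symm
      _ = fo FC f x * ∑ l, f l * (Module.finrank K (F.obj (FC.S l) ⟶ Z) : ℝ) := by
          rw [Finset.mul_sum]
          refine Finset.sum_congr rfl fun l _ => ?_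
          rw [h2 l]
          ring
  rw [fD, h4, fD]
  ring

omit [MonoidalPreadditive C] [MonoidalLinear K C] in
/-- additivity -/
theorem fD_sum (FC : Fus K C ιC) (F : C ⥤ D) (p : ℕ) (f : ιC → ℝ) (FD : Fus K D ιD) (Z : D) :
    fD FC F p f Z = fo FD (fun j => fD FC F p f (FD.S j)) Z := by
  have h1 : ∀ k, (Module.finrank K (F.obj (FC.S k) ⟶ Z) : ℝ) = ∑ j,
      (Module.finrank K (F.obj (FC.S k) ⟶ FD.S j) : ℝ) * (Module.finrank K (FD.S j ⟶ Z) : ℝ) := by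
    intro k
    rw [fus_finrank FD]
    push_cast
    rfl
  calc fD FC F p f Z = (p : ℝ)⁻¹ * ∑ k, ∑ j, f k * ((Module.finrank K (F.obj (FC.S k) ⟶ FD.S j) : ℝ) *
        (Module.finrank K (FD.S j ⟶ Z) : ℝ)) := by
        rw [fD]
        congr 1
        refine Finset.sum_congr rfl fun k _ => ?_
        rw [h1 k, Finset.mul_sum]
    _ = fo FD (fun j => fD FC F p f (FD.S j)) Z := by
        rw [fo, Finset.sum_comm, Finset.mul_sum]
        refine Finset.sum_congr rfl fun j _ => ?_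
        rw [fD, Finset.mul_sum, Finset.mul_sum, Finset.sum_mul]
        refine Finset.sum_congr rfl fun k _ => ?_
        ring

omit [MonoidalPreadditive C] [MonoidalLinear K C] [MonoidalCategory D] [MonoidalPreadditive D]
  [MonoidalLinear K D] in
theorem fD_iso (FC : Fus K C ιC) (F : C ⥤ D) (p : ℕ) (f : ιC → ℝ) {Z W : D} (e : Z ≅ W) :
    fD FC F p f Z = fD FC F p f W := by
  rw [fD, fD]
  congr 1
  refine Finset.sum_congr rfl fun k _ => ?_
  rw [iso_finrank (K := K) (Iso.refl (F.obj (FC.S k))) e]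

omit [MonoidalPreadditive C] [MonoidalLinear K C] in
theorem fD_pos (Q : DeEq K F p) {FC : Fus K C ιC} (FD : Fus K D ιD) {f : ιC → ℝ} (hf : IsFPdim FC f) {Z : D}
    (hZ : 𝟙 Z ≠ 0) : 0 < fD FC F p f Z := by
  have hp : (0 : ℝ) < p := Nat.cast_pos.2 (Nat.pos_of_ne_zero (NeZero.ne p))
  obtain ⟨k, g, hg⟩ := deq_ne' Q FC hZ
  have hfd : FiniteDimensional K (F.obj (FC.S k) ⟶ Z) := fus_fd FD _ _
  have hnt : Nontrivial (F.obj (FC.S k) ⟶ Z) := ⟨⟨g, 0, hg⟩⟩
  have hpos : 0 < Module.finrank K (F.obj (FC.S k) ⟶ Z) := Module.finrank_pos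
  rw [fD]
  refine mul_pos (inv_pos.2 hp) ?_
  refine Finset.sum_pos' (fun k _ => mul_nonneg (hf.1 k).le (Nat.cast_nonneg _)) ⟨k, Finset.mem_univ k, ?_⟩
  exact mul_pos (hf.1 k) (Nat.cast_pos.2 hpos)

private theorem GC_ten (FC : Fus K C ιC) (F : C ⥤ D) (p : ℕ) (f : ιC → ℝ) (FD : Fus K D ιD) (Z Y : D) :
    fD FC F p f (Z ⊗ Y) = fo FD (fun j => fD FC F p f (FD.S j ⊗ Y)) Z := by
  obtain ⟨m, k, p', j, h1, h2, h3⟩ := FD.dec Z
  have e1 : fD FC F p f (Z ⊗ Y) = ∑ a, fD FC F p f (FD.S (k a) ⊗ Y) := by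
    rw [fD_sum FC F p f FD (Z ⊗ Y)]
    rw [fo_add FD (fun j => fD FC F p f (FD.S j)) (fun a => FD.S (k a) ⊗ Y) (fun a => p' a ▷ Y)
      (fun a => j a ▷ Y)]
    · exact Finset.sum_congr rfl fun a _ => (fD_sum FC F p f FD _).symm
    · intro a
      rw [← comp_whiskerRight, h1, id_whiskerRight]
    · intro a b hab
      rw [← comp_whiskerRight, h2 a b hab, MonoidalPreadditive.zero_whiskerRight]
    · have e : ∀ a, p' a ▷ Y ≫ j a ▷ Y = (p' a ≫ j a) ▷ Y := fun a => (comp_whiskerRight _ _ _).symm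
      rw [Finset.sum_congr rfl fun a _ => e a, ← sum_whiskerRight, h3, id_whiskerRight]
  rw [e1, fo_add FD (fun j => fD FC F p f (FD.S j ⊗ Y)) (fun a => FD.S (k a)) p' j h1 h2 h3]
  exact Finset.sum_congr rfl fun a _ => (fo_S FD (fun j => fD FC F p f (FD.S j ⊗ Y)) (k a)).symm

omit [MonoidalLinear K D] in
/-- tensoring with a dual of a nonzero object is faithful on objects -/
private theorem GC_nz (FD : Fus K D ιD) {Z W : D} (e : ExactPairing W Z) (hZ : 𝟙 Z ≠ 0) (j : ιD) :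
    𝟙 (FD.S j ⊗ W) ≠ 0 := by
  intro h0
  have hc : η_ W Z ≠ 0 := by
    intro hc
    apply hZ
    have h1 := ExactPairing.coevaluation_evaluation W Z
    rw [hc, MonoidalPreadditive.whiskerLeft_zero, Limits.zero_comp] at h1
    have h2 : 𝟙 Z = (ρ_ Z).inv ≫ ((ρ_ Z).hom ≫ (λ_ Z).inv) ≫ (λ_ Z).hom := by simp
    rw [h2, ← h1, Limits.zero_comp, Limits.comp_zero]
  have hu : FD.u.hom ≫ η_ W Z ≠ 0 := by
    intro hu
    apply hc
    have h2 : η_ W Z = FD.u.inv ≫ FD.u.hom ≫ η_ W Z := by rw [Iso.inv_hom_id_assoc]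
    rw [h2, hu, Limits.comp_zero]
  obtain ⟨g, hg⟩ := exists_retract FD hu
  have hr : η_ W Z ≫ (g ≫ FD.u.hom) = 𝟙 (𝟙_ D) := by
    have h3 : FD.u.inv ≫ ((FD.u.hom ≫ η_ W Z) ≫ g) ≫ FD.u.hom = 𝟙 (𝟙_ D) := by
      rw [hg, Category.id_comp, Iso.inv_hom_id]
    rw [← h3]
    simp only [Category.assoc, Iso.inv_hom_id_assoc]
  have h5 : 𝟙 (FD.S j ⊗ (W ⊗ Z)) = 0 := by
    have h6 : 𝟙 (FD.S j ⊗ (W ⊗ Z)) = (α_ _ _ _).inv ≫ (𝟙 (FD.S j ⊗ W) ▷ Z) ≫ (α_ _ _ _).hom := by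
      rw [id_whiskerRight, Category.id_comp, Iso.inv_hom_id]
    rw [h6, h0, MonoidalPreadditive.zero_whiskerRight, Limits.zero_comp, Limits.comp_zero]
  have h7 : 𝟙 (FD.S j ⊗ 𝟙_ D) = 0 := by
    have h8 : 𝟙 (FD.S j ⊗ 𝟙_ D) = FD.S j ◁ η_ W Z ≫ 𝟙 (FD.S j ⊗ (W ⊗ Z)) ≫ FD.S j ◁ (g ≫ FD.u.hom) := by
      rw [Category.id_comp, ← MonoidalCategory.whiskerLeft_comp, hr, MonoidalCategory.whiskerLeft_id]
    rw [h8, h5, Limits.zero_comp, Limits.comp_zero]
  apply FD.one_ne j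
  have h9 : 𝟙 (FD.S j) = (ρ_ _).inv ≫ 𝟙 (FD.S j ⊗ 𝟙_ D) ≫ (ρ_ _).hom := by
    rw [Category.id_comp, Iso.inv_hom_id]
  rw [h9, h7, Limits.zero_comp, Limits.comp_zero]

omit [MonoidalPreadditive C] [MonoidalLinear K C] in
private theorem GC_conn (Q : DeEq K F p) (hD : Rig D) (FC : Fus K C ιC) (FD : Fus K D ιD) (m j : ιD) :
    ∃ k : ιC, (Module.finrank K (FD.S j ⟶ F.obj (FC.S k) ⊗ FD.S m) : ℝ) ≠ 0 := by
  obtain ⟨-, W, ⟨e⟩⟩ := hD (FD.S m)
  obtain ⟨k, f, hf⟩ := deq_ne Q FC (GC_nz FD e (FD.one_ne m) j)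
  refine ⟨k, fun h0 => hf ?_⟩
  have h1 : Module.finrank K (FD.S j ⟶ F.obj (FC.S k) ⊗ FD.S m) = 0 := by exact_mod_cast h0
  have := fin_hom FD (F.obj (FC.S k) ⊗ FD.S m) j
  have : Subsingleton (FD.S j ⟶ F.obj (FC.S k) ⊗ FD.S m) := Module.finrank_zero_iff.1 h1
  have : Subsingleton (FD.S j ⊗ W ⟶ F.obj (FC.S k)) :=
    (tensorRightHomEquiv (FD.S j) W (FD.S m) (F.obj (FC.S k))).subsingleton
  exact Subsingleton.elim _ _

theorem fD_one (Q : DeEq K F p) {FC : Fus K C ιC} {f : ιC → ℝ} (hf : IsFPdim FC f) : fD FC F p f (𝟙_ D) = 1 := by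
  rw [fD_iso FC F p f (Functor.Monoidal.εIso F), fD_F Q hf, fo_one hf]

theorem fD_mul (Q : DeEq K F p) (hC : Rig C) (hD : Rig D) {FC : Fus K C ιC} {f : ιC → ℝ} (hf : IsFPdim FC f)
    (FD : Fus K D ιD) (Z Y : D) : fD FC F p f (Z ⊗ Y) = fD FC F p f Z * fD FC F p f Y := by
  have : Nonempty ιD := ⟨FD.o⟩
  have hφ : ∀ j, 0 < fD FC F p f (FD.S j) := fun j => fD_pos Q FD hf (FD.one_ne j)
  obtain ⟨m, hm⟩ := Finite.exists_min (fun j => fD FC F p f (FD.S j ⊗ Y) / fD FC F p f (FD.S j))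
  set c : ℝ := fD FC F p f (FD.S m ⊗ Y) / fD FC F p f (FD.S m) with hc
  have hcm : fD FC F p f (FD.S m ⊗ Y) = c * fD FC F p f (FD.S m) := by
    rw [hc, div_mul_cancel₀ _ (hφ m).ne']
  have hle : ∀ j, c * fD FC F p f (FD.S j) ≤ fD FC F p f (FD.S j ⊗ Y) := by
    intro j
    have h1 := hm j
    rwa [le_div_iff₀ (hφ j)] at h1
  have heq : ∀ j, fD FC F p f (FD.S j ⊗ Y) = c * fD FC F p f (FD.S j) := by
    intro j
    obtain ⟨k, hk⟩ := GC_conn Q hD FC FD m j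
    have e1 : fD FC F p f (F.obj (FC.S k) ⊗ FD.S m) = f k * fD FC F p f (FD.S m) := by
      rw [fD_FZ Q hC FD hf, fo_S]
    have e2 : fD FC F p f ((F.obj (FC.S k) ⊗ FD.S m) ⊗ Y) = f k * fD FC F p f (FD.S m ⊗ Y) := by
      rw [fD_iso FC F p f (α_ _ _ _), fD_FZ Q hC FD hf, fo_S]
    have e3 : ∑ i, (fD FC F p f (FD.S i ⊗ Y) - c * fD FC F p f (FD.S i)) *
        (Module.finrank K (FD.S i ⟶ F.obj (FC.S k) ⊗ FD.S m) : ℝ) = 0 := by
      have e4 := GC_ten FC F p f FD (F.obj (FC.S k) ⊗ FD.S m) Y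
      have e5 := fD_sum FC F p f FD (F.obj (FC.S k) ⊗ FD.S m)
      rw [fo] at e4 e5
      simp only [sub_mul, Finset.sum_sub_distrib, mul_assoc c]
      rw [← Finset.mul_sum, ← e4, ← e5, e2, e1, hcm]
      ring
    have e6 := (Finset.sum_eq_zero_iff_of_nonneg (fun i _ =>
      mul_nonneg (sub_nonneg.2 (hle i)) (Nat.cast_nonneg _))).1 e3 j (Finset.mem_univ j)
    rcases mul_eq_zero.1 e6 with h | h
    · linarith
    · exact absurd h hk
  have hall : ∀ Z : D, fD FC F p f (Z ⊗ Y) = c * fD FC F p f Z := by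
    intro Z
    rw [GC_ten FC F p f FD Z Y, fD_sum FC F p f FD Z, fo, fo, Finset.mul_sum]
    refine Finset.sum_congr rfl fun j _ => ?_
    rw [heq j]
    ring
  have h1 : fD FC F p f Y = c := by
    rw [← fD_iso FC F p f (λ_ Y), hall, fD_one Q hf, mul_one]
  rw [hall Z, h1]
  ring

theorem fD_fp (Q : DeEq K F p) (hC : Rig C) (hD : Rig D) {FC : Fus K C ιC} {f : ιC → ℝ} (hf : IsFPdim FC f)
    (FD : Fus K D ιD) : IsFPdim FD (fun j => fD FC F p f (FD.S j)) := by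
  refine ⟨fun j => fD_pos Q FD hf (FD.one_ne j), fun i j => ?_⟩
  change fD FC F p f (FD.S i) * fD FC F p f (FD.S j) = _
  rw [← fD_mul Q hC hD hf FD, fD_sum FC F p f FD, fo]
  exact Finset.sum_congr rfl fun k _ => mul_comm _ _

end Pool.Agent.SFC
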