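import Pool.Agent.SFC.GC
import Pool.Agent.SFC.BNum

/-!
# SFC/GD: if the Frobenius-Perron dimensions of `C` are prime to `p`, then `F` preserves simple objects

If `T a ⊗ S i ≅ S i` for some `a ≠ 0`, then for all `a`, and `End (F (S i))` has dimension `p = ∑ j, m j ^ 2`.  For `m j ≠ 0` the only
`F (S k)` with nonzero morphisms to `S j` is `F (S i)`, so `p * dim (S j) = f i * m j`.  Since `m j < p` this contradicts `RelP p (f i)`.
-/

set_option autoImplicit false

noncomputable section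

open CategoryTheory MonoidalCategory
open Functor.LaxMonoidal Functor.OplaxMonoidal

namespace Pool.Agent.SFC

open Pool.Agent.NFG

universe v u v' u' w

theorem dvd_of_int {p m : ℕ} (hp : p ≠ 0) {x : ℝ} (hx : IsIntegral ℤ x) (h : x * p = m) : p ∣ m := by
  have hp' : (p : ℝ) ≠ 0 := Nat.cast_ne_zero.2 hp
  have hpq : (p : ℚ) ≠ 0 := Nat.cast_ne_zero.2 hp
  have h1 : x = algebraMap ℚ ℝ ((m : ℚ) / (p : ℚ)) := by
    rw [eq_ratCast, Rat.cast_div, Rat.cast_natCast, Rat.cast_natCast, eq_div_iff hp']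
    exact h
  rw [h1] at hx
  have h2 : IsIntegral ℤ ((m : ℚ) / (p : ℚ)) := (isIntegral_algebraMap_iff (algebraMap ℚ ℝ).injective).1 hx
  obtain ⟨z, hz⟩ := IsIntegrallyClosed.isIntegral_iff.1 h2
  rw [eq_div_iff hpq] at hz
  have h3 : (z : ℤ) * (p : ℤ) = (m : ℤ) := by
    have h4 : ((z * (p : ℤ) : ℤ) : ℚ) = ((m : ℤ) : ℚ) := by
      push_cast
      exact hz
    exact_mod_cast h4
  exact Int.natCast_dvd_natCast.1 ⟨z, by rw [← h3, mul_comm]⟩

section

variable {K : Type w} [Field K] {C : Type u} [Category.{v} C] [Preadditive C] [Linear K C] [MonoidalCategory C]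
  [MonoidalPreadditive C] [MonoidalLinear K C] {n : ℕ} [NeZero n]

private def GD_e (th : Gl C n) (a : ZMod n) (W : C) : th.T (-a) ⊗ (th.T a ⊗ W) ≅ W :=
  (α_ _ _ _).symm ≪≫ whiskerRightIso (th.m (-a) a 0 (neg_add_cancel a) ≪≫ th.u.symm) W ≪≫ λ_ W

omit [Linear K C] [MonoidalLinear K C] [NeZero n] in
theorem gl_faith (th : Gl C n) (a : ZMod n) {W W' : C} (g : W ⟶ W') (h : th.T a ◁ g = 0) : g = 0 := by
  have h1 : th.T (-a) ◁ (th.T a ◁ g) ≫ (GD_e th a W').hom = (GD_e th a W).hom ≫ g := by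
    simp only [GD_e, Iso.trans_hom, Iso.symm_hom, whiskerRightIso_hom, comp_whiskerRight, Category.assoc]
    rw [associator_inv_naturality_right_assoc, whisker_exchange_assoc, whisker_exchange_assoc, leftUnitor_naturality]
  rw [h, MonoidalPreadditive.whiskerLeft_zero, Limits.zero_comp] at h1
  rw [← cancel_epi (GD_e th a W).hom, ← h1, Limits.comp_zero]

omit [NeZero n] in
theorem gl_smp (th : Gl C n) (a : ZMod n) {Z : C} (h : Smp K Z) : Smp K (th.T a ⊗ Z) := by
  constructor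
  · intro h0
    apply h.1
    apply gl_faith th a
    rw [MonoidalCategory.whiskerLeft_id, h0]
  · intro f
    have h1 : Smp K (th.T (-a) ⊗ (th.T a ⊗ Z)) := h.iso (GD_e th a Z).symm
    obtain ⟨c, hc⟩ := h1.2 (th.T (-a) ◁ f)
    refine ⟨c, ?_⟩
    have h2 : th.T (-a) ◁ (f + (-c) • 𝟙 _) = 0 := by
      rw [MonoidalPreadditive.whiskerLeft_add, MonoidalLinear.whiskerLeft_smul, MonoidalCategory.whiskerLeft_id, hc,
        neg_smul, add_neg_cancel]
    have h3 := gl_faith th (-a) _ h2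
    rw [neg_smul] at h3
    exact eq_of_sub_eq_zero (by rw [sub_eq_add_neg]; exact h3)

omit [MonoidalPreadditive C] [MonoidalLinear K C] [Linear K C] in
theorem gl_stab {p : ℕ} [NeZero p] (th : Gl C p) (hp : p.Prime) {Z : C} {a : ZMod p} (ha : a ≠ 0)
    (e : Nonempty (Z ≅ th.T a ⊗ Z)) (b : ZMod p) : Nonempty (Z ≅ th.T b ⊗ Z) := by
  obtain ⟨e⟩ := e
  have key : ∀ m : ℕ, Nonempty (Z ≅ th.T (m • a) ⊗ Z) := by
    intro m
    induction m with
    | zero =>
      rw [zero_nsmul]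
      exact ⟨(λ_ Z).symm ≪≫ whiskerRightIso th.u Z⟩
    | succ m ih =>
      obtain ⟨s⟩ := ih
      rw [succ_nsmul]
      exact ⟨s ≪≫ whiskerLeftIso _ e ≪≫ (α_ _ _ _).symm ≪≫ whiskerRightIso (th.m (m • a) a (m • a + a) rfl) Z⟩
  have : Fact p.Prime := ⟨hp⟩
  have h1 : (b * a⁻¹).val • a = b := by
    rw [nsmul_eq_mul, ZMod.natCast_zmod_val, mul_assoc, inv_mul_cancel₀ ha, mul_one]
  rw [← h1]
  exact key _

end

variable {K : Type w} [Field K] {C : Type u} [Category.{v} C] [Preadditive C] [Linear K C] [MonoidalCategory C]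
  [MonoidalPreadditive C] [MonoidalLinear K C] {D : Type u'} [Category.{v'} D] [Preadditive D] [Linear K D]
  [MonoidalCategory D] [MonoidalPreadditive D] [MonoidalLinear K D]

theorem deq_simple {ιC : Type} [Fintype ιC] [DecidableEq ιC] (FC : Fus K C ιC)
    {ιD : Type} [Fintype ιD] [DecidableEq ιD] (FD : Fus K D ιD) {F : C ⥤ D} [F.Monoidal] {p : ℕ} [NeZero p]
    (Q : DeEq K F p) (hp : p.Prime) (hC : Rig C) (hD : Rig D) {f : ιC → ℝ} (hf : IsFPdim FC f) (i : ιC)
    (hi : RelP p (f i)) : Smp K (F.obj (FC.S i)) := by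
  have hp0 : (p : ℝ) ≠ 0 := Nat.cast_ne_zero.2 hp.ne_zero
  have hT : ∀ a, ∃ m, Nonempty (FC.S m ≅ Q.th.T a ⊗ FC.S i) := fun a => smp_ex FC (gl_smp Q.th a (smp_S FC i))
  choose τ hτ using hT
  have hdim : ∀ a k, Module.finrank K (FC.S k ⟶ Q.th.T a ⊗ FC.S i) = if k = τ a then 1 else 0 := by
    intro a k
    obtain ⟨e⟩ := hτ a
    rw [iso_finrank (K := K) (Iso.refl (FC.S k)) e.symm, finrank_S]
  by_cases hst : ∀ a, a ≠ 0 → i ≠ τ a
  · have h1 : Module.finrank K (F.obj (FC.S i) ⟶ F.obj (FC.S i)) = 1 := by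
      rw [deq_finrank Q FC, Finset.sum_eq_single 0]
      · obtain ⟨e⟩ := hτ 0
        rw [hdim, if_pos (S_eq FC ((λ_ (FC.S i)).symm ≪≫ whiskerRightIso Q.th.u _ ≪≫ e.symm))]
      · intro a _ ha
        rw [hdim, if_neg (hst a ha)]
      · intro h
        exact absurd (Finset.mem_univ _) h
    have hne : 𝟙 (F.obj (FC.S i)) ≠ 0 := by
      intro h0
      have := deq_faith Q
      exact FC.one_ne i (F.map_injective (by rw [F.map_id, h0, deq_zero Q]))
    refine ⟨hne, fun g => ?_⟩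
    obtain ⟨c, hc⟩ := (finrank_eq_one_iff_of_nonzero' (𝟙 _) hne).1 h1 g
    exact ⟨c, hc.symm⟩
  · exfalso
    push Not at hst
    obtain ⟨a, ha, hia⟩ := hst
    have hall : ∀ b, i = τ b := by
      intro b
      have h1 : Nonempty (FC.S i ≅ Q.th.T a ⊗ FC.S i) := by
        obtain ⟨e⟩ := hτ a
        exact ⟨eqToIso (by rw [← hia]) ≪≫ e⟩
      obtain ⟨s⟩ := gl_stab Q.th hp ha h1 b
      obtain ⟨e⟩ := hτ b
      exact S_eq FC (s ≪≫ e.symm)
    have h1 : ∀ k, Module.finrank K (F.obj (FC.S k) ⟶ F.obj (FC.S i)) = if k = i then p else 0 := by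
      intro k
      rw [deq_finrank Q FC, Finset.sum_congr rfl fun b _ => hdim b k]
      have h2 : ∀ b ∈ (Finset.univ : Finset (ZMod p)), (if k = τ b then 1 else 0 : ℕ) = if k = i then 1 else 0 := by
        intro b _
        rw [← hall b]
      rw [Finset.sum_congr rfl h2, Finset.sum_const, Finset.card_univ, ZMod.card, smul_eq_mul]
      split_ifs
      · rw [mul_one]
      · rw [mul_zero]
    obtain ⟨m, hm⟩ : ∃ m : ιD → ℕ, ∀ j, m j = Module.finrank K (FD.S j ⟶ F.obj (FC.S i)) := ⟨_, fun _ => rfl⟩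
    have h2 : p = ∑ j, m j * m j := by
      have h3 := h1 i
      rw [if_pos rfl, fus_finrank FD] at h3
      rw [← h3]
      refine Finset.sum_congr rfl fun j _ => ?_
      rw [fus_symm FD, ← hm]
    obtain ⟨j, hj⟩ : ∃ j, m j ≠ 0 := by
      by_contra hcon
      push Not at hcon
      apply hp.ne_zero
      rw [h2]
      exact Finset.sum_eq_zero fun j _ => by rw [hcon j, mul_zero]
    have h3 : m j * m j ≤ p := by
      conv_rhs => rw [h2]
      exact Finset.single_le_sum (f := fun j => m j * m j) (fun _ _ => Nat.zero_le _) (Finset.mem_univ j)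
    have hlt : m j < p := by
      by_contra hcon
      push Not at hcon
      have h4 : p * p ≤ p := (Nat.mul_le_mul hcon hcon).trans h3
      have h5 := hp.two_le
      nlinarith
    have h4 : ∀ k, k ≠ i → Module.finrank K (F.obj (FC.S k) ⟶ FD.S j) = 0 := by
      intro k hk
      have hfd : FiniteDimensional K (F.obj (FC.S k) ⟶ F.obj (FC.S i)) := fus_fd FD _ _
      have hsub : Subsingleton (F.obj (FC.S k) ⟶ F.obj (FC.S i)) :=
        Module.finrank_zero_iff.1 ((h1 k).trans (if_neg hk))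
      obtain ⟨q, hq⟩ : ∃ q : FD.S j ⟶ F.obj (FC.S i), q ≠ 0 := by
        by_contra hcon
        push Not at hcon
        have : Subsingleton (FD.S j ⟶ F.obj (FC.S i)) := ⟨fun x y => by rw [hcon x, hcon y]⟩
        exact hj ((hm j).trans Module.finrank_zero_of_subsingleton)
      obtain ⟨r, hr⟩ := exists_retract FD hq
      have : Subsingleton (F.obj (FC.S k) ⟶ FD.S j) := by
        refine ⟨fun x y => ?_⟩
        rw [← Category.comp_id x, ← Category.comp_id y, ← hr, ← Category.assoc, ← Category.assoc,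
          Subsingleton.elim (x ≫ q) (y ≫ q)]
      exact Module.finrank_zero_of_subsingleton
    have h5 : fD FC F p f (FD.S j) * (p : ℝ) = f i * (m j : ℝ) := by
      rw [fD, mul_comm, mul_inv_cancel_left₀ hp0, Finset.sum_eq_single i]
      · rw [fus_symm FD, ← hm]
      · intro k _ hk
        rw [h4 k hk, Nat.cast_zero, mul_zero]
      · intro h
        exact absurd (Finset.mem_univ _) h
    obtain ⟨α, β, hα, hβ, h6⟩ := hi
    have hg : IsIntegral ℤ (fD FC F p f (FD.S j)) := fp_int (fD_fp Q hC hD hf FD) j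
    have hmi : IsIntegral ℤ (m j : ℝ) := isIntegral_algebraMap (R := ℤ) (x := (m j : ℤ)) |> fun h => by simpa using h
    have h7 : IsIntegral ℤ (α * (m j : ℝ) + β * fD FC F p f (FD.S j)) := (hα.mul hmi).add (hβ.mul hg)
    have h8 : (α * (m j : ℝ) + β * fD FC F p f (FD.S j)) * (p : ℝ) = (m j : ℝ) := by
      calc (α * (m j : ℝ) + β * fD FC F p f (FD.S j)) * (p : ℝ)
          = α * (m j : ℝ) * p + β * (fD FC F p f (FD.S j) * (p : ℝ)) := by ring
        _ = (α * p + β * f i) * (m j : ℝ) := by rw [h5]; ring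
        _ = (m j : ℝ) := by rw [h6, one_mul]
    have h9 : p ∣ m j := dvd_of_int hp.ne_zero h7 h8
    exact absurd (Nat.le_of_dvd (Nat.pos_of_ne_zero hj) h9) (not_le.2 hlt)

/-- E5 -/
theorem deq_pd {ιC : Type} [Fintype ιC] [DecidableEq ιC] (FC : Fus K C ιC)
    {ιD : Type} [Fintype ιD] [DecidableEq ιD] (FD : Fus K D ιD) {F : C ⥤ D} [F.Monoidal] {p : ℕ} [NeZero p]
    (Q : DeEq K F p) (hp : p.Prime) (hC : Rig C) (hD : Rig D) {f : ιC → ℝ} (hf : IsFPdim FC f) (h : ∀ i, RelP p (f i)) :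
    (∀ i, Smp K (F.obj (FC.S i))) ∧ ∃ g : ιD → ℝ, IsFPdim FD g ∧ ∀ j, RelP p (g j) := by
  have hS : ∀ i, Smp K (F.obj (FC.S i)) := fun i => deq_simple FC FD Q hp hC hD hf i (h i)
  obtain ⟨φ, hφ⟩ := deq_phi Q FC FD hS
  refine ⟨hS, fun j => fD FC F p f (FD.S j), fD_fp Q hC hD hf FD, fun j => ?_⟩
  obtain ⟨i, rfl⟩ := hφ.surj j
  obtain ⟨e⟩ := hφ.iso i
  have h1 : fD FC F p f (FD.S (φ i)) = f i := by rw [fD_iso FC F p f e, fD_F Q hf, fo_S]
  change RelP p (fD FC F p f (FD.S (φ i)))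
  rw [h1]
  exact h i

end Pool.Agent.SFC
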