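import Pool.Agent.SFC.E2e

/-!
# SFC/HA: functors `F : C ⥤ D` with `Hom (F x, F y) ≅ Hom (x, A ⊗ y)`

The common part of the theory of de-equivariantizations (by `ZMod n` or by any finite group): an algebra `A` in `C` and a
map of algebras `χ : F A ⟶ 𝟙` such that each `h : F x ⟶ F y` is `F k ≫ act y` for a unique `k : x ⟶ A ⊗ y`.
-/

set_option autoImplicit false

noncomputable section

open CategoryTheory MonoidalCategory
open scoped BigOperators

namespace Pool.Agent.SFC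

universe v u v' u' w

open Functor.LaxMonoidal Functor.OplaxMonoidal

/-- `Hom (F x, F y) ≅ Hom (x, A ⊗ y)` -/
structure Dq (K : Type w) [Field K] {C : Type u} [Category.{v} C] [Preadditive C] [Linear K C] [MonoidalCategory C]
    {D : Type u'} [Category.{v'} D] [Preadditive D] [Linear K D] [MonoidalCategory D] (F : C ⥤ D) [F.Monoidal]
    (S : SFrob C) where
  map_add : ∀ {x y : C} (f g : x ⟶ y), F.map (f + g) = F.map f + F.map g
  map_smul : ∀ {x y : C} (c : K) (f : x ⟶ y), F.map (c • f) = c • F.map f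
  chi : F.obj S.A ⟶ 𝟙_ D
  one_chi : F.map S.one ≫ chi = η F
  mul_chi : F.map S.mul ≫ chi = δ F _ _ ≫ (chi ⊗ₘ chi) ≫ (λ_ (𝟙_ D)).hom
  univ : ∀ {x y : C} (h : F.obj x ⟶ F.obj y), ∃! k : x ⟶ S.A ⊗ y,
    F.map k ≫ δ F _ _ ≫ chi ▷ F.obj y ≫ (λ_ _).hom = h
  dom : ∀ Z : D, ∃ (x : C) (i : Z ⟶ F.obj x) (p : F.obj x ⟶ Z), i ≫ p = 𝟙 Z

variable {K : Type w} [Field K] {C : Type u} [Category.{v} C] [Preadditive C] [Linear K C] [MonoidalCategory C]
  {D : Type u'} [Category.{v'} D] [Preadditive D] [Linear K D] [MonoidalCategory D] {F : C ⥤ D} [F.Monoidal]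
  {S : SFrob C}

/-- `F (A ⊗ y) ⟶ F y` -/
def Dq.act (Q : Dq K F S) (y : C) : F.obj (S.A ⊗ y) ⟶ F.obj y :=
  δ F _ _ ≫ Q.chi ▷ F.obj y ≫ (λ_ _).hom

theorem Dq.act_univ (Q : Dq K F S) {x y : C} (h : F.obj x ⟶ F.obj y) :
    ∃! k : x ⟶ S.A ⊗ y, F.map k ≫ Q.act y = h := Q.univ h

theorem Dq.exists_univ [IsIdempotentComplete C] (Q : Dq K F S) (Z : D) :
    ∃ (r : C) (c : F.obj r ⟶ Z), ∀ (x : C) (h : F.obj x ⟶ Z), ∃! k : x ⟶ r, F.map k ≫ c = h := by
  obtain ⟨y, i, p, hip⟩ := Q.dom Z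
  obtain ⟨k, hk, -⟩ := Q.act_univ (x := S.A ⊗ y) (Q.act y ≫ p ≫ i)
  have hk' : F.map k ≫ Q.act y = Q.act y ≫ p ≫ i := hk
  have hkk : k ≫ k = k := by
    refine (Q.act_univ (Q.act y ≫ p ≫ i)).unique ?_ hk'
    change F.map (k ≫ k) ≫ Q.act y = _
    rw [F.map_comp, Category.assoc, hk', ← Category.assoc, hk', Category.assoc, Category.assoc,
      ← Category.assoc i, hip, Category.id_comp]
  obtain ⟨r, ι, π, h1, h2⟩ := IsIdempotentComplete.idempotents_split _ k hkk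
  refine ⟨r, F.map ι ≫ Q.act y ≫ p, fun x h => ?_⟩
  obtain ⟨m, hm, hmu⟩ := Q.act_univ (h ≫ i)
  have hm' : F.map m ≫ Q.act y = h ≫ i := hm
  refine ⟨m ≫ π, ?_, ?_⟩
  · change F.map (m ≫ π) ≫ F.map ι ≫ Q.act y ≫ p = h
    rw [← Category.assoc, ← F.map_comp, Category.assoc, h2, F.map_comp, Category.assoc,
      ← Category.assoc (F.map k), hk']
    rw [Category.assoc, Category.assoc, hip, Category.comp_id, ← Category.assoc, hm', Category.assoc,
      hip, Category.comp_id]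
  · intro m' hm1
    change F.map m' ≫ F.map ι ≫ Q.act y ≫ p = h at hm1
    have h3 : m' ≫ ι = m := by
      apply hmu
      change F.map (m' ≫ ι) ≫ Q.act y = h ≫ i
      have h4 : ι = ι ≫ k := by rw [← h2, ← Category.assoc, h1, Category.id_comp]
      rw [h4, ← Category.assoc, F.map_comp, Category.assoc, hk', F.map_comp, ← hm1]
      simp only [Category.assoc]
    rw [← h3, Category.assoc, h1, Category.comp_id]

theorem Dq.exists_adj [IsIdempotentComplete C] (Q : Dq K F S) :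
    ∃ R : D ⥤ C, Nonempty (F ⊣ R) := by
  choose r c hc using fun Z : D => Q.exists_univ Z
  let e : ∀ (x : C) (Z : D), (F.obj x ⟶ Z) ≃ (x ⟶ r Z) := fun x Z =>
    { toFun := fun h => (hc Z x h).choose
      invFun := fun k => F.map k ≫ c Z
      left_inv := fun h => (hc Z x h).choose_spec.1
      right_inv := fun k => ((hc Z x (F.map k ≫ c Z)).choose_spec.2 k rfl).symm }
  have he : ∀ (x' x : C) (Z : D) (f : x' ⟶ x) (g : F.obj x ⟶ Z), e x' Z (F.map f ≫ g) = f ≫ e x Z g := by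
    intro x' x Z f g
    rw [← Equiv.eq_symm_apply]
    change F.map f ≫ g = F.map (f ≫ (hc Z x g).choose) ≫ c Z
    have h1 : F.map (hc Z x g).choose ≫ c Z = g := (hc Z x g).choose_spec.1
    rw [F.map_comp, Category.assoc, h1]
  exact ⟨Adjunction.rightAdjointOfEquiv e he, ⟨Adjunction.adjunctionOfEquivRight e he⟩⟩

end Pool.Agent.SFC
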