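import Pool.Agent.SFC.HA

/-!
# SFC/HC: the right adjoint

The same statements and proofs as in `E2c`, for `Dq`.
-/

set_option autoImplicit false
set_option linter.unusedSectionVars false

noncomputable section

open CategoryTheory MonoidalCategory
open scoped BigOperators

namespace Pool.Agent.SFC

universe v u v' u' w

open Functor.LaxMonoidal Functor.OplaxMonoidal

variable {K : Type w} [Field K] {C : Type u} [Category.{v} C] [Preadditive C] [Linear K C] [MonoidalCategory C]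
  [MonoidalPreadditive C] [MonoidalLinear K C]
  {D : Type u'} [Category.{v'} D] [Preadditive D] [Linear K D] [MonoidalCategory D] [MonoidalPreadditive D]
  [MonoidalLinear K D] {F : C ⥤ D} [F.Monoidal] {S : SFrob C} {R : D ⥤ C} [R.LaxMonoidal]

private theorem HC_hom (adj : F ⊣ R) {x : C} {Z : D} (h : F.obj x ⟶ Z) :
    F.map (adj.homEquiv x Z h) ≫ adj.counit.app Z = h := by
  have h1 := (adj.homEquiv x Z).symm_apply_apply h
  rwa [adj.homEquiv_counit] at h1

private theorem HC_nat (adj : F ⊣ R) {Z W : D} (f : Z ⟶ W) :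
    F.map (R.map f) ≫ adj.counit.app W = adj.counit.app Z ≫ f :=
  adj.counit.naturality f

private theorem HC_act (Q : Dq K F S) :
    Q.act (𝟙_ C) = F.map (ρ_ S.A).hom ≫ Q.chi ≫ ε F := by
  rw [Dq.act, Functor.Monoidal.map_rightUnitor]
  simp only [Category.assoc]
  rw [← rightUnitor_naturality_assoc, whisker_exchange_assoc, ← MonoidalCategory.unitors_equal,
    leftUnitor_naturality_assoc]
  simp

private theorem HC_univ (Q : Dq K F S) {x : C} (h : F.obj x ⟶ 𝟙_ D) :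
    ∃ k : x ⟶ S.A, F.map k ≫ Q.chi = h := by
  obtain ⟨k, hk, -⟩ := Q.act_univ (y := 𝟙_ C) (h ≫ ε F)
  have hk : F.map k ≫ Q.act (𝟙_ C) = h ≫ ε F := hk
  refine ⟨k ≫ (ρ_ S.A).hom, ?_⟩
  rw [HC_act] at hk
  have h2 : (F.map (k ≫ (ρ_ S.A).hom) ≫ Q.chi) ≫ ε F = h ≫ ε F := by
    rw [F.map_comp]
    simpa only [Category.assoc] using hk
  exact (cancel_mono (ε F)).1 h2

private theorem HC_cancel (Q : Dq K F S) {x : C} {k k' : x ⟶ S.A}
    (h : F.map k ≫ Q.chi = F.map k' ≫ Q.chi) : k = k' := by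
  obtain ⟨k0, -, hu⟩ := Q.act_univ (y := 𝟙_ C) (F.map k ≫ Q.chi ≫ ε F)
  have key : ∀ q : x ⟶ S.A, F.map (q ≫ (ρ_ S.A).inv) ≫ Q.act (𝟙_ C) = F.map q ≫ Q.chi ≫ ε F := by
    intro q
    rw [HC_act, ← F.map_comp_assoc, Category.assoc, Iso.inv_hom_id, Category.comp_id]
  have h1 := hu (k ≫ (ρ_ S.A).inv) (key k)
  have h2 := hu (k' ≫ (ρ_ S.A).inv) (by
    show F.map (k' ≫ (ρ_ S.A).inv) ≫ Q.act (𝟙_ C) = _
    rw [key k', ← Category.assoc, ← h, Category.assoc])
  exact (cancel_mono (ρ_ S.A).inv).1 (h1.trans h2.symm)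

theorem Dq.exists_phi (Q : Dq K F S) (adj : F ⊣ R) [adj.IsMonoidal] :
    ∃ φ : AlgTo S R, F.map φ.f ≫ adj.counit.app (𝟙_ D) = Q.chi ∧ IsIso φ.f := by
  have h0 := HC_hom adj (Q.chi)
  set f := adj.homEquiv S.A (𝟙_ D) (Q.chi) with hf
  refine ⟨⟨f, ?_, ?_⟩, h0, ?_⟩
  · apply hext adj
    rw [F.map_comp, Category.assoc, h0, Q.one_chi, adj.map_ε_comp_counit_app_unit]
  · apply hext adj
    rw [F.map_comp, Category.assoc, h0, Q.mul_chi, F.map_comp, F.map_comp]
    simp only [Category.assoc]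
    rw [HC_nat adj, adj.map_μ_comp_counit_app_tensor_assoc, ← δ_natural_assoc, tensorHom_comp_tensorHom_assoc, h0]
  · obtain ⟨j, hj⟩ := HC_univ Q (adj.counit.app (𝟙_ D))
    refine ⟨j, ?_, ?_⟩
    · apply HC_cancel Q
      rw [F.map_comp, Category.assoc, hj, F.map_id, Category.id_comp]
      exact h0
    · apply hext adj
      rw [F.map_comp, Category.assoc, F.map_id, Category.id_comp]
      exact (congrArg (F.map j ≫ ·) h0).trans hj

theorem Dq.map_add_R (Q : Dq K F S) (adj : F ⊣ R) {Z W : D} (f g : Z ⟶ W) :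
    R.map (f + g) = R.map f + R.map g := by
  apply hext adj
  rw [HC_nat adj, Q.map_add, Preadditive.add_comp, HC_nat adj, HC_nat adj, Preadditive.comp_add]

theorem Dq.map_smul_R (Q : Dq K F S) (adj : F ⊣ R) {Z W : D} (c : K) (f : Z ⟶ W) :
    R.map (c • f) = c • R.map f := by
  apply hext adj
  rw [HC_nat adj, Q.map_smul, Linear.smul_comp, HC_nat adj, Linear.comp_smul]

theorem Dq.c_epi (Q : Dq K F S) (adj : F ⊣ R) (Z : D) : ∃ s : Z ⟶ F.obj (R.obj Z), s ≫ adj.counit.app Z = 𝟙 Z := by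
  obtain ⟨x, i, p, hip⟩ := Q.dom Z
  exact ⟨i ≫ F.map (adj.homEquiv x Z p), by rw [Category.assoc, HC_hom adj, hip]⟩

theorem Dq.faithfulR (Q : Dq K F S) (adj : F ⊣ R) {Z W : D} {f g : Z ⟶ W} (h : R.map f = R.map g) : f = g := by
  obtain ⟨s, hs⟩ := Q.c_epi adj Z
  rw [← Category.id_comp f, ← Category.id_comp g, ← hs, Category.assoc, Category.assoc, ← HC_nat adj, ← HC_nat adj, h]

theorem Dq.thet_c (Q : Dq K F S) (adj : F ⊣ R) [adj.IsMonoidal]
    (φ : AlgTo S R) (hφ : F.map φ.f ≫ adj.counit.app (𝟙_ D) = Q.chi) (y : C) :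
    F.map (thet φ adj y) ≫ adj.counit.app (F.obj y) = Q.act y := by
  have e1 : F.map (S.A ◁ adj.unit.app y) ≫ δ F S.A (R.obj (F.obj y)) =
      δ F S.A y ≫ F.obj S.A ◁ F.map (adj.unit.app y) := (δ_natural_right F S.A (adj.unit.app y)).symm
  have e2 : F.map (adj.unit.app y) ≫ adj.counit.app (F.obj y) = 𝟙 (F.obj y) := adj.left_triangle_components y
  have e3 : F.obj S.A ◁ F.map (adj.unit.app y) ≫ (Q.chi ⊗ₘ adj.counit.app (F.obj y)) =
      Q.chi ▷ F.obj y := by
    refine (whiskerLeft_comp_tensorHom _ _ _).trans ?_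
    refine (congrArg (fun g => Q.chi ⊗ₘ g) e2).trans ?_
    exact tensorHom_id _ _
  rw [thet, F.map_comp, Category.assoc, l_c φ adj, hφ, reassoc_of% e1]
  exact congrArg (fun g => δ F S.A y ≫ g) ((Category.assoc _ _ _).symm.trans (congrArg (· ≫ (λ_ (F.obj y)).hom) e3))

theorem Dq.thet_iso (Q : Dq K F S) (adj : F ⊣ R) [adj.IsMonoidal]
    (φ : AlgTo S R) (hφ : F.map φ.f ≫ adj.counit.app (𝟙_ D) = Q.chi) (y : C) : IsIso (thet φ adj y) := by
  have h0 := Q.thet_c adj φ hφ y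
  obtain ⟨k, hk, -⟩ := Q.act_univ (y := y) (adj.counit.app (F.obj y))
  have hk : F.map k ≫ Q.act y = adj.counit.app (F.obj y) := hk
  refine ⟨k, ?_, ?_⟩
  · obtain ⟨k0, -, hu⟩ := Q.act_univ (y := y) (Q.act y)
    have h1 := hu (thet φ adj y ≫ k) (by
      show F.map (thet φ adj y ≫ k) ≫ Q.act y = _
      rw [F.map_comp, Category.assoc, hk, h0])
    have h2 := hu (𝟙 _) (by
      show F.map (𝟙 _) ≫ Q.act y = _
      rw [F.map_id, Category.id_comp])
    exact h1.trans h2.symm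
  · apply hext adj
    rw [F.map_comp, Category.assoc, h0, hk, F.map_id, Category.id_comp]

end Pool.Agent.SFC
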