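import Pool.Agent.SFC.HE
import Pool.Agent.SFC.DefsG
import Pool.Agent.SFC.ALin

/-!
# SFC/HG: de-equivariantizations by a finite group; the projections `pr k` of a bimodule

`DqH K F S Γ`: the algebra `S` in `C` has an action of `Γ` (`gal`), the group acts on the spaces `Hom (F x, F y)` by `th g`, with invariants `F (Hom (x, y))`; `s g : 𝟙 ⟶ F A` are the idempotents of `F A ≅ ⨁ 𝟙`,
`F (a (-g)) ≫ χ` the projections.

Bimodules are described by the operators `L M g, R M g : F M.X ⟶ F M.X`, the actions of the idempotent `s g` from the left and from the right.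
`L_L`: from `F.map M.ll` and `s_mul`.  `L_sum`: `s_one`, definition of `M.p`.  `L_R`: `F.map M.lr` and the exchange law.  `th_L`: `L M g = F.map (λ_ _).inv ≫ (δ ≫ ((η F ≫ s g) ⊗ₘ 𝟙) ≫ μ) ≫ F.map M.l`, `th_comp`, `th_map`, `th_ten`, `th_s`
(`Q.th g (𝟙 _) = 𝟙 _` is `th_map` for `𝟙`).
`hom_L`, `hom_R`: naturality, `f.hl`, `f.hr`.  `left_of_L`: `𝟙 (F A) = ∑ g, F (a (-g)) ≫ χ ≫ s g` (`Q.sum`), so `F.map M.l` is determined by the operators `L M g`; `Q.faithful`.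
`exists_pr`: `E k := ∑ g, L M g ≫ R M (g + k)`.  `th h (E k) = ∑ g, L M (h + g) ≫ R M (h + g + k) = E k` (reindex), so `E k = F.map r` (`th_fix`); `E k` commutes with all `L`, `R` (`L_L`, `R_R`, `L_R`), so `r` is a map of bimodules
(`left_of_L`, `right_of_R`), `r ≫ M.p = r` (`R_sum`: `R M g ≫ F.map M.p = R M g`).
`pr_nat`: `hom_L`, `hom_R`.  `pr_pr`: `E k ≫ E l = ∑ g, L g ≫ R (g + k) ≫ R (g + l)`.  `pr_sum`: `∑ k, E k = (∑ g, L g) ≫ (∑ h, R h) = F.map M.p`.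
-/

set_option autoImplicit false

noncomputable section

open CategoryTheory MonoidalCategory
open scoped BigOperators

namespace Pool.Agent.SFC

universe v u v' u' w

open Functor.LaxMonoidal Functor.OplaxMonoidal

/-- de-equivariantization by the finite group `Γ` -/
structure DqH (K : Type w) [Field K] {C : Type u} [Category.{v} C] [Preadditive C] [Linear K C] [MonoidalCategory C]
    {D : Type u'} [Category.{v'} D] [Preadditive D] [Linear K D] [MonoidalCategory D] (F : C ⥤ D) [F.Monoidal]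
    (S : SFrob C) (Γ : Type) [AddGroup Γ] [Fintype Γ] [DecidableEq Γ] extends Dq K F S where
  gal : GalH K S Γ
  th : Γ → ∀ {x y : C}, (F.obj x ⟶ F.obj y) → (F.obj x ⟶ F.obj y)
  th_comp : ∀ (g : Γ) {x y z : C} (h : F.obj x ⟶ F.obj y) (k : F.obj y ⟶ F.obj z), th g (h ≫ k) = th g h ≫ th g k
  th_add : ∀ (g : Γ) {x y : C} (h k : F.obj x ⟶ F.obj y), th g (h + k) = th g h + th g k
  th_map : ∀ (g : Γ) {x y : C} (f : x ⟶ y), th g (F.map f) = F.map f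
  th_zero : ∀ {x y : C} (h : F.obj x ⟶ F.obj y), th 0 h = h
  th_th : ∀ (g g' : Γ) {x y : C} (h : F.obj x ⟶ F.obj y), th (g + g') h = th g (th g' h)
  th_ten : ∀ (g : Γ) {x y x' y' : C} (h : F.obj x ⟶ F.obj y) (k : F.obj x' ⟶ F.obj y'),
    th g (δ F x x' ≫ (h ⊗ₘ k) ≫ μ F y y') = δ F x x' ≫ (th g h ⊗ₘ th g k) ≫ μ F y y'
  th_fix : ∀ {x y : C} (h : F.obj x ⟶ F.obj y), (∀ g, th g h = h) → ∃! f : x ⟶ y, F.map f = h
  s : Γ → (𝟙_ D ⟶ F.obj S.A)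
  th_s : ∀ g h, th g (η F ≫ s h) = η F ≫ s (g + h)
  s_a : ∀ g h, s g ≫ F.map (gal.a h) = s (g + h)
  s_chi : ∀ g, s g ≫ chi = if g = 0 then 𝟙 (𝟙_ D) else 0
  s_mul : ∀ g h, (s g ⊗ₘ s h) ≫ μ F _ _ ≫ F.map S.mul = if g = h then (λ_ (𝟙_ D)).hom ≫ s g else 0
  s_one : ∑ g, s g = ε F ≫ F.map S.one
  sum : ∑ g, F.map (gal.a (-g)) ≫ chi ≫ s g = 𝟙 (F.obj S.A)

variable {K : Type w} [Field K] {C : Type u} [Category.{v} C] [Preadditive C] [Linear K C] [MonoidalCategory C]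
  [MonoidalPreadditive C] [MonoidalLinear K C] {D : Type u'} [Category.{v'} D] [Preadditive D] [Linear K D]
  [MonoidalCategory D] [MonoidalPreadditive D] [MonoidalLinear K D] {F : C ⥤ D} [F.Monoidal] {S : SFrob C} {Γ : Type}
  [AddGroup Γ] [Fintype Γ] [DecidableEq Γ]

theorem DqH.faithful (Q : DqH K F S Γ) {x y : C} {f g : x ⟶ y} (h : F.map f = F.map g) : f = g := by
  obtain ⟨k, -, hk⟩ := Q.th_fix (F.map g) (fun a => Q.th_map a g)
  rw [hk f h, hk g rfl]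

/-- the left action of `s g` -/
def DqH.L (Q : DqH K F S Γ) (M : Bim S) (g : Γ) : F.obj M.X ⟶ F.obj M.X :=
  (λ_ _).inv ≫ Q.s g ▷ F.obj M.X ≫ μ F _ _ ≫ F.map M.l

/-- the right action of `s g` -/
def DqH.R (Q : DqH K F S Γ) (M : Bim S) (g : Γ) : F.obj M.X ⟶ F.obj M.X :=
  (ρ_ _).inv ≫ F.obj M.X ◁ Q.s g ≫ μ F _ _ ≫ F.map M.r


/-! ### Operators of elements `e : 𝟙 ⟶ F A` -/

private def HG_l (F : C ⥤ D) [F.Monoidal] {S : SFrob C} (M : Bim S) (e : 𝟙_ D ⟶ F.obj S.A) :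
    F.obj M.X ⟶ F.obj M.X :=
  (λ_ _).inv ≫ e ▷ F.obj M.X ≫ μ F _ _ ≫ F.map M.l

private def HG_r (F : C ⥤ D) [F.Monoidal] {S : SFrob C} (M : Bim S) (e : 𝟙_ D ⟶ F.obj S.A) :
    F.obj M.X ⟶ F.obj M.X :=
  (ρ_ _).inv ≫ F.obj M.X ◁ e ≫ μ F _ _ ≫ F.map M.r

private theorem HG_l_comp (M : Bim S) (e e' : 𝟙_ D ⟶ F.obj S.A) :
    HG_l F M e ≫ HG_l F M e' = HG_l F M ((λ_ (𝟙_ D)).inv ≫ (e' ⊗ₘ e) ≫ μ F _ _ ≫ F.map S.mul) := by
  have h1 : S.A ◁ M.l ≫ M.l = (α_ _ _ _).inv ≫ S.mul ▷ M.X ≫ M.l := by rw [M.ll, Iso.inv_hom_id_assoc]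
  have h2 : HG_l F M e ≫ HG_l F M e' = (λ_ _).inv ≫ e ▷ F.obj M.X ≫ (λ_ _).inv ≫
      e' ▷ (F.obj S.A ⊗ F.obj M.X) ≫ F.obj S.A ◁ μ F _ _ ≫ μ F _ _ ≫ F.map (S.A ◁ M.l ≫ M.l) := by
    simp only [HG_l, Category.assoc]
    rw [leftUnitor_inv_naturality_assoc (F.map M.l), whisker_exchange_assoc, leftUnitor_inv_naturality_assoc (μ F _ _),
      whisker_exchange_assoc, F.map_comp, μ_natural_right_assoc]
  rw [h2, h1, F.map_comp, F.map_comp, Functor.LaxMonoidal.associativity_inv_assoc]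
  simp only [HG_l, comp_whiskerRight, Category.assoc]
  rw [μ_natural_left_assoc]
  have h3 : e ▷ F.obj M.X ≫ (λ_ (F.obj S.A ⊗ F.obj M.X)).inv ≫ e' ▷ (F.obj S.A ⊗ F.obj M.X) ≫ (α_ _ _ _).inv =
      (λ_ (𝟙_ D)).inv ▷ F.obj M.X ≫ (e' ⊗ₘ e) ▷ F.obj M.X := by
    rw [MonoidalCategory.tensorHom_def']
    monoidal
  have h4 := congrArg (fun z => (λ_ (F.obj M.X)).inv ≫ z ≫ μ F S.A S.A ▷ F.obj M.X ≫ μ F (S.A ⊗ S.A) M.X ≫
    F.map (S.mul ▷ M.X) ≫ F.map M.l) h3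
  simp only [Category.assoc] at h4
  exact h4

private theorem HG_r_comp (M : Bim S) (e e' : 𝟙_ D ⟶ F.obj S.A) :
    HG_r F M e ≫ HG_r F M e' = HG_r F M ((λ_ (𝟙_ D)).inv ≫ (e ⊗ₘ e') ≫ μ F _ _ ≫ F.map S.mul) := by
  have h1 : M.r ▷ S.A ≫ M.r = (α_ _ _ _).hom ≫ M.X ◁ S.mul ≫ M.r := by rw [M.rr, Iso.hom_inv_id_assoc]
  have h2 : HG_r F M e ≫ HG_r F M e' = (ρ_ _).inv ≫ F.obj M.X ◁ e ≫ (ρ_ _).inv ≫
      (F.obj M.X ⊗ F.obj S.A) ◁ e' ≫ μ F _ _ ▷ F.obj S.A ≫ μ F _ _ ≫ F.map (M.r ▷ S.A ≫ M.r) := by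
    simp only [HG_r, Category.assoc]
    rw [rightUnitor_inv_naturality_assoc (F.map M.r), ← whisker_exchange_assoc,
      rightUnitor_inv_naturality_assoc (μ F _ _), ← whisker_exchange_assoc, F.map_comp, μ_natural_left_assoc]
  rw [h2, h1, F.map_comp, F.map_comp, Functor.LaxMonoidal.associativity_assoc]
  simp only [HG_r, MonoidalCategory.whiskerLeft_comp, Category.assoc]
  rw [μ_natural_right_assoc]
  have h3 : F.obj M.X ◁ e ≫ (ρ_ (F.obj M.X ⊗ F.obj S.A)).inv ≫ (F.obj M.X ⊗ F.obj S.A) ◁ e' ≫ (α_ _ _ _).hom =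
      F.obj M.X ◁ (λ_ (𝟙_ D)).inv ≫ F.obj M.X ◁ (e ⊗ₘ e') := by
    rw [MonoidalCategory.tensorHom_def]
    monoidal
  have h4 := congrArg (fun z => (ρ_ (F.obj M.X)).inv ≫ z ≫ F.obj M.X ◁ μ F S.A S.A ≫ μ F M.X (S.A ⊗ S.A) ≫
    F.map (M.X ◁ S.mul) ≫ F.map M.r) h3
  simp only [Category.assoc] at h4
  exact h4

private theorem HG_l_r (M : Bim S) (e e' : 𝟙_ D ⟶ F.obj S.A) :
    HG_l F M e ≫ HG_r F M e' = HG_r F M e' ≫ HG_l F M e := by
  have h1 : HG_l F M e ≫ HG_r F M e' = (λ_ _).inv ≫ e ▷ F.obj M.X ≫ (ρ_ _).inv ≫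
      (F.obj S.A ⊗ F.obj M.X) ◁ e' ≫ μ F _ _ ▷ F.obj S.A ≫ μ F _ _ ≫ F.map (M.l ▷ S.A ≫ M.r) := by
    simp only [HG_l, HG_r, Category.assoc]
    rw [rightUnitor_inv_naturality_assoc (F.map M.l), ← whisker_exchange_assoc,
      rightUnitor_inv_naturality_assoc (μ F _ _), ← whisker_exchange_assoc, F.map_comp, μ_natural_left_assoc]
  have h2 : HG_r F M e' ≫ HG_l F M e = (ρ_ _).inv ≫ F.obj M.X ◁ e' ≫ (λ_ _).inv ≫
      e ▷ (F.obj M.X ⊗ F.obj S.A) ≫ F.obj S.A ◁ μ F _ _ ≫ μ F _ _ ≫ F.map (S.A ◁ M.r ≫ M.l) := by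
    simp only [HG_l, HG_r, Category.assoc]
    rw [leftUnitor_inv_naturality_assoc (F.map M.r), whisker_exchange_assoc, leftUnitor_inv_naturality_assoc (μ F _ _),
      whisker_exchange_assoc, F.map_comp, μ_natural_right_assoc]
  rw [h1, h2, M.lr, F.map_comp, Functor.LaxMonoidal.associativity_assoc]
  have h3 : (λ_ (F.obj M.X)).inv ≫ e ▷ F.obj M.X ≫ (ρ_ _).inv ≫ (F.obj S.A ⊗ F.obj M.X) ◁ e' ≫ (α_ _ _ _).hom =
      (ρ_ (F.obj M.X)).inv ≫ F.obj M.X ◁ e' ≫ (λ_ _).inv ≫ e ▷ (F.obj M.X ⊗ F.obj S.A) := by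
    have h4 : (λ_ (F.obj M.X ⊗ F.obj S.A)).inv ≫ e ▷ (F.obj M.X ⊗ F.obj S.A) =
        ((λ_ (F.obj M.X)).inv ≫ e ▷ F.obj M.X) ▷ F.obj S.A ≫ (α_ _ _ _).hom := by
      monoidal
    rw [h4, whisker_exchange_assoc, rightUnitor_inv_naturality_assoc, rightUnitor_inv_naturality_assoc,
      comp_whiskerRight, Category.assoc]
  have h5 := congrArg (fun z => z ≫ F.obj S.A ◁ μ F M.X S.A ≫ μ F S.A (M.X ⊗ S.A) ≫ F.map (S.A ◁ M.r ≫ M.l)) h3
  simp only [Category.assoc] at h5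
  exact h5

private theorem HG_l_one (M : Bim S) : HG_l F M (ε F ≫ F.map S.one) = F.map M.p := by
  rw [HG_l, comp_whiskerRight, Category.assoc, μ_natural_left_assoc, Bim.p, F.map_comp, F.map_comp]
  simp

private theorem HG_r_one (M : Bim S) : HG_r F M (ε F ≫ F.map S.one) = F.map M.p := by
  rw [HG_r, MonoidalCategory.whiskerLeft_comp, Category.assoc, μ_natural_right_assoc, Bim.p_r, F.map_comp, F.map_comp]
  simp

private theorem HG_l_zero (M : Bim S) : HG_l F M (0 : 𝟙_ D ⟶ F.obj S.A) = 0 := by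
  simp [HG_l]

private theorem HG_r_zero (M : Bim S) : HG_r F M (0 : 𝟙_ D ⟶ F.obj S.A) = 0 := by
  simp [HG_r]

private theorem HG_l_sum (M : Bim S) (e : Γ → (𝟙_ D ⟶ F.obj S.A)) : HG_l F M (∑ g, e g) = ∑ g, HG_l F M (e g) := by
  simp only [HG_l]
  rw [sum_whiskerRight, Preadditive.sum_comp, Preadditive.comp_sum]

private theorem HG_r_sum (M : Bim S) (e : Γ → (𝟙_ D ⟶ F.obj S.A)) : HG_r F M (∑ g, e g) = ∑ g, HG_r F M (e g) := by
  simp only [HG_r]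
  rw [whiskerLeft_sum, Preadditive.sum_comp, Preadditive.comp_sum]

private theorem HG_mul (Q : DqH K F S Γ) (g h : Γ) :
    (λ_ (𝟙_ D)).inv ≫ (Q.s g ⊗ₘ Q.s h) ≫ μ F _ _ ≫ F.map S.mul = if g = h then Q.s g else 0 := by
  rw [Q.s_mul]
  split_ifs
  · rw [Iso.inv_hom_id_assoc]
  · rw [Limits.comp_zero]

private theorem HG_L (Q : DqH K F S Γ) (M : Bim S) (g : Γ) : Q.L M g = HG_l F M (Q.s g) := rfl

private theorem HG_R (Q : DqH K F S Γ) (M : Bim S) (g : Γ) : Q.R M g = HG_r F M (Q.s g) := rfl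

private theorem HG_L_p (Q : DqH K F S Γ) (M : Bim S) (g : Γ) : Q.L M g ≫ F.map M.p = Q.L M g := by
  rw [DqH.L, Category.assoc, Category.assoc, Category.assoc, ← F.map_comp, M.p_l]

private theorem HG_R_p (Q : DqH K F S Γ) (M : Bim S) (g : Γ) : Q.R M g ≫ F.map M.p = Q.R M g := by
  rw [DqH.R, Category.assoc, Category.assoc, Category.assoc, ← F.map_comp, M.p_r']

private theorem HG_th_zero (Q : DqH K F S Γ) (g : Γ) {x y : C} : Q.th g (0 : F.obj x ⟶ F.obj y) = 0 := by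
  have h := Q.th_add g (0 : F.obj x ⟶ F.obj y) 0
  rw [add_zero] at h
  exact left_eq_add.mp h

private theorem HG_th_sum (Q : DqH K F S Γ) (g : Γ) {x y : C} (h : Γ → (F.obj x ⟶ F.obj y)) :
    Q.th g (∑ k, h k) = ∑ k, Q.th g (h k) := by
  exact map_sum (AddMonoidHom.mk' (fun z : F.obj x ⟶ F.obj y => Q.th g z) (Q.th_add g)) h Finset.univ

private theorem HG_map_sum (Q : DqH K F S Γ) {x y : C} (h : Γ → (x ⟶ y)) :
    F.map (∑ k, h k) = ∑ k, F.map (h k) := by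
  exact map_sum (AddMonoidHom.mk' (fun z : x ⟶ y => F.map z) Q.map_add) h Finset.univ

private theorem HG_map_zero (Q : DqH K F S Γ) {x y : C} : F.map (0 : x ⟶ y) = 0 :=
  (AddMonoidHom.mk' (fun z : x ⟶ y => F.map z) Q.map_add).map_zero

theorem DqH.L_L (Q : DqH K F S Γ) (M : Bim S) (g h : Γ) : Q.L M g ≫ Q.L M h = if g = h then Q.L M g else 0 := by
  rw [HG_L, HG_L, HG_l_comp, HG_mul]
  by_cases hgh : g = h
  · subst hgh
    simp
  · rw [if_neg hgh, if_neg (Ne.symm hgh), HG_l_zero]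

theorem DqH.R_R (Q : DqH K F S Γ) (M : Bim S) (g h : Γ) : Q.R M g ≫ Q.R M h = if g = h then Q.R M g else 0 := by
  rw [HG_R, HG_R, HG_r_comp, HG_mul]
  by_cases hgh : g = h
  · subst hgh
    simp
  · rw [if_neg hgh, if_neg hgh, HG_r_zero]

theorem DqH.L_R (Q : DqH K F S Γ) (M : Bim S) (g h : Γ) : Q.L M g ≫ Q.R M h = Q.R M h ≫ Q.L M g := by
  exact HG_l_r M _ _

theorem DqH.L_sum (Q : DqH K F S Γ) (M : Bim S) : ∑ g, Q.L M g = F.map M.p := by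
  rw [← HG_l_one, ← Q.s_one, HG_l_sum]
  rfl

theorem DqH.R_sum (Q : DqH K F S Γ) (M : Bim S) : ∑ g, Q.R M g = F.map M.p := by
  rw [← HG_r_one, ← Q.s_one, HG_r_sum]
  rfl

theorem DqH.th_L (Q : DqH K F S Γ) (M : Bim S) (g h : Γ) : Q.th g (Q.L M h) = Q.L M (g + h) := by
  have h1 : ∀ k : Γ, Q.L M k = F.map (λ_ M.X).inv ≫ (δ F (𝟙_ C) M.X ≫ ((η F ≫ Q.s k) ⊗ₘ 𝟙 (F.obj M.X)) ≫
      μ F S.A M.X) ≫ F.map M.l := by
    intro k
    rw [DqH.L, Functor.OplaxMonoidal.left_unitality, MonoidalCategory.tensorHom_id]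
    simp only [Category.assoc, comp_whiskerRight]
  have h2 : Q.th g (𝟙 (F.obj M.X)) = 𝟙 (F.obj M.X) := by
    rw [← F.map_id, Q.th_map]
  rw [h1, h1, Q.th_comp, Q.th_map, Q.th_comp, Q.th_map, Q.th_ten, Q.th_s, h2]

theorem DqH.th_R (Q : DqH K F S Γ) (M : Bim S) (g h : Γ) : Q.th g (Q.R M h) = Q.R M (g + h) := by
  have h1 : ∀ k : Γ, Q.R M k = F.map (ρ_ M.X).inv ≫ (δ F M.X (𝟙_ C) ≫ (𝟙 (F.obj M.X) ⊗ₘ (η F ≫ Q.s k)) ≫
      μ F M.X S.A) ≫ F.map M.r := by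
    intro k
    rw [DqH.R, Functor.OplaxMonoidal.right_unitality, MonoidalCategory.id_tensorHom]
    simp only [Category.assoc, MonoidalCategory.whiskerLeft_comp]
  have h2 : Q.th g (𝟙 (F.obj M.X)) = 𝟙 (F.obj M.X) := by
    rw [← F.map_id, Q.th_map]
  rw [h1, h1, Q.th_comp, Q.th_map, Q.th_comp, Q.th_map, Q.th_ten, Q.th_s, h2]

theorem DqH.left_L (Q : DqH K F S Γ) {M N : Bim S} (f : M.X ⟶ N.X) (hf : S.A ◁ f ≫ N.l = M.l ≫ f) (g : Γ) :
    Q.L M g ≫ F.map f = F.map f ≫ Q.L N g := by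
  rw [DqH.L, DqH.L, leftUnitor_inv_naturality_assoc, whisker_exchange_assoc, μ_natural_right_assoc, ← F.map_comp, hf,
    F.map_comp]
  simp only [Category.assoc]

theorem DqH.right_R (Q : DqH K F S Γ) {M N : Bim S} (f : M.X ⟶ N.X) (hf : f ▷ S.A ≫ N.r = M.r ≫ f) (g : Γ) :
    Q.R M g ≫ F.map f = F.map f ≫ Q.R N g := by
  rw [DqH.R, DqH.R, rightUnitor_inv_naturality_assoc, ← whisker_exchange_assoc, μ_natural_left_assoc, ← F.map_comp, hf,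
    F.map_comp]
  simp only [Category.assoc]

theorem DqH.left_of_L (Q : DqH K F S Γ) {M N : Bim S} (f : M.X ⟶ N.X)
    (h : ∀ g, Q.L M g ≫ F.map f = F.map f ≫ Q.L N g) : S.A ◁ f ≫ N.l = M.l ≫ f := by
  refine Q.faithful ?_
  rw [← cancel_epi (μ F S.A M.X)]
  have h1 : ∀ z : F.obj S.A ⊗ F.obj M.X ⟶ F.obj N.X,
      z = ∑ g, (F.map (Q.gal.a (-g)) ≫ Q.chi) ▷ F.obj M.X ≫ Q.s g ▷ F.obj M.X ≫ z := by
    intro z
    have h3 : (𝟙 (F.obj S.A ⊗ F.obj M.X)) =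
        ∑ g, (F.map (Q.gal.a (-g)) ≫ Q.chi) ▷ F.obj M.X ≫ Q.s g ▷ F.obj M.X := by
      rw [← id_whiskerRight, ← Q.sum, sum_whiskerRight]
      refine Finset.sum_congr rfl fun g _ => ?_
      rw [← comp_whiskerRight, Category.assoc]
    calc z = 𝟙 (F.obj S.A ⊗ F.obj M.X) ≫ z := (Category.id_comp _).symm
      _ = _ := by
        rw [h3, Preadditive.sum_comp]
        exact Finset.sum_congr rfl fun a _ => Category.assoc _ _ _
  rw [h1 (μ F S.A M.X ≫ F.map (S.A ◁ f ≫ N.l)), h1 (μ F S.A M.X ≫ F.map (M.l ≫ f))]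
  refine Finset.sum_congr rfl fun g _ => ?_
  congr 1
  have h2 := h g
  rw [← cancel_epi (λ_ (F.obj M.X)).inv]
  rw [DqH.L, DqH.L, leftUnitor_inv_naturality_assoc, whisker_exchange_assoc, μ_natural_right_assoc] at h2
  simp only [Category.assoc] at h2
  rw [F.map_comp, F.map_comp, ← h2]

theorem DqH.right_of_R (Q : DqH K F S Γ) {M N : Bim S} (f : M.X ⟶ N.X)
    (h : ∀ g, Q.R M g ≫ F.map f = F.map f ≫ Q.R N g) : f ▷ S.A ≫ N.r = M.r ≫ f := by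
  refine Q.faithful ?_
  rw [← cancel_epi (μ F M.X S.A)]
  have h1 : ∀ z : F.obj M.X ⊗ F.obj S.A ⟶ F.obj N.X,
      z = ∑ g, F.obj M.X ◁ (F.map (Q.gal.a (-g)) ≫ Q.chi) ≫ F.obj M.X ◁ Q.s g ≫ z := by
    intro z
    have h3 : (𝟙 (F.obj M.X ⊗ F.obj S.A)) =
        ∑ g, F.obj M.X ◁ (F.map (Q.gal.a (-g)) ≫ Q.chi) ≫ F.obj M.X ◁ Q.s g := by
      rw [← MonoidalCategory.whiskerLeft_id, ← Q.sum, whiskerLeft_sum]
      refine Finset.sum_congr rfl fun g _ => ?_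
      rw [← MonoidalCategory.whiskerLeft_comp, Category.assoc]
    calc z = 𝟙 (F.obj M.X ⊗ F.obj S.A) ≫ z := (Category.id_comp _).symm
      _ = _ := by
        rw [h3, Preadditive.sum_comp]
        exact Finset.sum_congr rfl fun a _ => Category.assoc _ _ _
  rw [h1 (μ F M.X S.A ≫ F.map (f ▷ S.A ≫ N.r)), h1 (μ F M.X S.A ≫ F.map (M.r ≫ f))]
  refine Finset.sum_congr rfl fun g _ => ?_
  congr 1
  have h2 := h g
  rw [← cancel_epi (ρ_ (F.obj M.X)).inv]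
  rw [DqH.R, DqH.R, rightUnitor_inv_naturality_assoc, ← whisker_exchange_assoc, μ_natural_left_assoc] at h2
  simp only [Category.assoc] at h2
  rw [F.map_comp, F.map_comp, ← h2]

theorem DqH.exists_pr (Q : DqH K F S Γ) (M : Bim S) (k : Γ) :
    ∃ r : M ⟶ M, F.map (Bim.Hom.f r) = ∑ g, Q.L M g ≫ Q.R M (g + k) := by
  have h1 : ∀ h : Γ, Q.th h (∑ g, Q.L M g ≫ Q.R M (g + k)) = ∑ g, Q.L M g ≫ Q.R M (g + k) := by
    intro h
    rw [HG_th_sum]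
    refine Fintype.sum_equiv (Equiv.addLeft h) _ _ fun g => ?_
    rw [Q.th_comp, Q.th_L, Q.th_R, Equiv.coe_addLeft, add_assoc]
  obtain ⟨r, hr, -⟩ := Q.th_fix _ h1
  have hr : F.map r = ∑ g, Q.L M g ≫ Q.R M (g + k) := hr
  refine ⟨⟨r, ?_, ?_, ?_⟩, hr⟩
  · refine Q.left_of_L r fun h => ?_
    rw [hr, Preadditive.comp_sum, Preadditive.sum_comp]
    refine Finset.sum_congr rfl fun g _ => ?_
    rw [Category.assoc, ← Q.L_R, ← Category.assoc, ← Category.assoc, Q.L_L, Q.L_L]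
    by_cases hgh : h = g
    · subst hgh
      rfl
    · rw [if_neg hgh, if_neg (Ne.symm hgh)]
  · refine Q.right_of_R r fun h => ?_
    rw [hr, Preadditive.comp_sum, Preadditive.sum_comp]
    refine Finset.sum_congr rfl fun g _ => ?_
    rw [← Category.assoc, ← Q.L_R, Category.assoc, Category.assoc, Q.R_R, Q.R_R]
    by_cases hgh : h = g + k
    · subst hgh
      rfl
    · rw [if_neg hgh, if_neg (Ne.symm hgh)]
  · refine Q.faithful ?_
    rw [F.map_comp, hr, Preadditive.sum_comp]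
    refine Finset.sum_congr rfl fun g _ => ?_
    rw [Category.assoc, HG_R_p]

/-- the projection to the component of degree `k` -/
def DqH.pr (Q : DqH K F S Γ) (M : Bim S) (k : Γ) : M ⟶ M := (Q.exists_pr M k).choose

theorem DqH.F_pr (Q : DqH K F S Γ) (M : Bim S) (k : Γ) :
    F.map (Bim.Hom.f (Q.pr M k)) = ∑ g, Q.L M g ≫ Q.R M (g + k) := (Q.exists_pr M k).choose_spec

theorem DqH.pr_nat (Q : DqH K F S Γ) {M N : Bim S} (f : M ⟶ N) (k : Γ) : Q.pr M k ≫ f = f ≫ Q.pr N k := by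
  refine Bim.hom_ext (Q.faithful ?_)
  rw [Bim.comp_f, Bim.comp_f, F.map_comp, F.map_comp, Q.F_pr, Q.F_pr, Preadditive.comp_sum, Preadditive.sum_comp]
  refine Finset.sum_congr rfl fun g _ => ?_
  rw [Category.assoc, Q.right_R _ (Bim.Hom.hr f), ← Category.assoc, Q.left_L _ (Bim.Hom.hl f), Category.assoc]

theorem DqH.pr_pr (Q : DqH K F S Γ) (M : Bim S) (k l : Γ) :
    Q.pr M k ≫ Q.pr M l = if k = l then Q.pr M k else 0 := by
  refine Bim.hom_ext (Q.faithful ?_)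
  have h1 : F.map (Bim.Hom.f (Q.pr M k ≫ Q.pr M l)) = ∑ g, Q.L M g ≫ Q.R M (g + k) ≫ Q.R M (g + l) := by
    rw [Bim.comp_f, F.map_comp, Q.F_pr, Q.F_pr, Preadditive.sum_comp]
    refine Finset.sum_congr rfl fun g _ => ?_
    rw [Preadditive.comp_sum, Finset.sum_eq_single g]
    · rw [Category.assoc, ← Category.assoc (Q.R M (g + k)), ← Q.L_R, Category.assoc, ← Category.assoc (Q.L M g), Q.L_L,
        if_pos rfl]
    · intro h _ hne
      rw [Category.assoc, ← Category.assoc (Q.R M (g + k)), ← Q.L_R, Category.assoc, ← Category.assoc (Q.L M g), Q.L_L,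
        if_neg (Ne.symm hne), Limits.zero_comp]
    · intro hg
      exact absurd (Finset.mem_univ g) hg
  rw [h1]
  by_cases hkl : k = l
  · subst hkl
    rw [if_pos rfl, Q.F_pr]
    refine Finset.sum_congr rfl fun g _ => ?_
    rw [Q.R_R, if_pos rfl]
  · rw [if_neg hkl, Bim.zero_f, HG_map_zero Q]
    refine Finset.sum_eq_zero fun g _ => ?_
    rw [Q.R_R, if_neg (fun h => hkl (add_left_cancel h)), Limits.comp_zero]

theorem DqH.pr_sum (Q : DqH K F S Γ) (M : Bim S) : ∑ k, Q.pr M k = 𝟙 M := by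
  refine Bim.hom_ext (Q.faithful ?_)
  have h1 : Bim.Hom.f (∑ k, Q.pr M k : M ⟶ M) = ∑ k, Bim.Hom.f (Q.pr M k) :=
    map_sum (Bim.fLin (K := K) M M) (fun k => Q.pr M k) Finset.univ
  rw [h1, HG_map_sum Q, Bim.id_f]
  simp only [Q.F_pr]
  rw [Finset.sum_comm, ← Q.L_sum]
  refine Finset.sum_congr rfl fun g _ => ?_
  rw [← Preadditive.comp_sum]
  have h2 : ∑ k, Q.R M (g + k) = F.map M.p := by
    rw [← Q.R_sum]
    exact Fintype.sum_equiv (Equiv.addLeft g) _ _ fun k => rfl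
  rw [h2, HG_L_p]

end Pool.Agent.SFC
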