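import Pool.Agent.SFC.HG
import Pool.Agent.SFC.ATm

/-!
# SFC/HH: bimodules of degree `0` come from `D`

(Compare SFC/E2h, the same theorems for `ZMod n`.)  `pr_LB`: the bimodules `φ.LB Z` have degree `0`.  `central`: on a bimodule
of degree `0` the left and right operators agree, so left linear maps are right linear (`right_of_left`).  `retract`, `img`: a
bimodule of degree `0` is a retract of some `φ.LB (F x)` and so comes from an object of `D`.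
-/

set_option autoImplicit false

noncomputable section

open CategoryTheory MonoidalCategory
open scoped BigOperators

namespace Pool.Agent.SFC

universe v u v' u' w

open Functor.LaxMonoidal Functor.OplaxMonoidal

variable {K : Type w} [Field K] {C : Type u} [Category.{v} C] [Preadditive C] [Linear K C] [MonoidalCategory C]
  [MonoidalPreadditive C] [MonoidalLinear K C] {D : Type u'} [Category.{v'} D] [Preadditive D] [Linear K D]
  [MonoidalCategory D] [MonoidalPreadditive D] [MonoidalLinear K D] {F : C ⥤ D} [F.Monoidal] {S : SFrob C} {Γ : Type}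
  [AddGroup Γ] [Fintype Γ] [DecidableEq Γ] {R : D ⥤ C} [R.LaxMonoidal]

private theorem HH_L_c (Q : DqH K F S Γ) (adj : F ⊣ R) [adj.IsMonoidal] (φ : AlgTo S R)
    (hφ : F.map φ.f ≫ adj.counit.app (𝟙_ D) = Q.chi) (Z : D) (g : Γ) :
    Q.L (φ.LB Z) g ≫ adj.counit.app Z = if g = 0 then adj.counit.app Z else 0 := by
  have h1 := l_c φ adj Z
  rw [hφ] at h1
  have key : Q.L (φ.LB Z) g ≫ adj.counit.app Z =
      (λ_ (F.obj (R.obj Z))).inv ≫ (Q.s g ≫ Q.chi) ▷ F.obj (R.obj Z) ≫ (𝟙_ D) ◁ adj.counit.app Z ≫ (λ_ Z).hom := by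
    show ((λ_ _).inv ≫ Q.s g ▷ F.obj (R.obj Z) ≫ μ F _ _ ≫ F.map (φ.l Z)) ≫ _ = _
    simp only [Category.assoc]
    rw [h1, Functor.Monoidal.μ_δ_assoc, MonoidalCategory.tensorHom_def, comp_whiskerRight]
    simp only [Category.assoc]
    rfl
  rw [key, Q.s_chi]
  split_ifs with h
  · have h3 : (𝟙_ D) ◁ adj.counit.app Z ≫ (λ_ Z).hom = (λ_ (F.obj (R.obj Z))).hom ≫ adj.counit.app Z :=
      leftUnitor_naturality _
    rw [id_whiskerRight, h3, Category.id_comp, Iso.inv_hom_id_assoc]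
  · rw [MonoidalPreadditive.zero_whiskerRight, Limits.zero_comp, Limits.comp_zero]

private theorem HH_R_c (Q : DqH K F S Γ) (adj : F ⊣ R) [adj.IsMonoidal] (φ : AlgTo S R)
    (hφ : F.map φ.f ≫ adj.counit.app (𝟙_ D) = Q.chi) (Z : D) (g : Γ) :
    Q.R (φ.LB Z) g ≫ adj.counit.app Z = if g = 0 then adj.counit.app Z else 0 := by
  have h1 := r_c φ adj Z
  rw [hφ] at h1
  have key : Q.R (φ.LB Z) g ≫ adj.counit.app Z =
      (ρ_ (F.obj (R.obj Z))).inv ≫ F.obj (R.obj Z) ◁ (Q.s g ≫ Q.chi) ≫ adj.counit.app Z ▷ (𝟙_ D) ≫ (ρ_ Z).hom := by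
    show ((ρ_ _).inv ≫ F.obj (R.obj Z) ◁ Q.s g ≫ μ F _ _ ≫ F.map (φ.r Z)) ≫ _ = _
    simp only [Category.assoc]
    rw [h1, Functor.Monoidal.μ_δ_assoc, MonoidalCategory.tensorHom_def', MonoidalCategory.whiskerLeft_comp]
    simp only [Category.assoc]
    rfl
  rw [key, Q.s_chi]
  split_ifs with h
  · have h3 : adj.counit.app Z ▷ (𝟙_ D) ≫ (ρ_ Z).hom = (ρ_ (F.obj (R.obj Z))).hom ≫ adj.counit.app Z :=
      rightUnitor_naturality _
    rw [MonoidalCategory.whiskerLeft_id, h3, Category.id_comp, Iso.inv_hom_id_assoc]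
  · rw [MonoidalPreadditive.whiskerLeft_zero, Limits.zero_comp, Limits.comp_zero]

theorem DqH.pr_LB (Q : DqH K F S Γ) (adj : F ⊣ R) [adj.IsMonoidal] (φ : AlgTo S R)
    (hφ : F.map φ.f ≫ adj.counit.app (𝟙_ D) = Q.chi) (Z : D) : Q.pr (φ.LB Z) 0 = 𝟙 (φ.LB Z) := by
  apply Bim.hom_ext
  rw [Bim.id_f, φ.LB_p]
  have h1 : F.map (Bim.Hom.f (Q.pr (φ.LB Z) 0)) ≫ adj.counit.app Z = F.map (𝟙 (R.obj Z)) ≫ adj.counit.app Z := by
    rw [Q.F_pr, Preadditive.sum_comp, Finset.sum_eq_single 0]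
    · rw [Category.assoc, HH_R_c Q adj φ hφ, if_pos (add_zero 0), HH_L_c Q adj φ hφ, if_pos rfl, F.map_id]
      exact (Category.id_comp _).symm
    · intro g _ hg
      rw [Category.assoc, HH_R_c Q adj φ hφ, if_neg (by rwa [add_zero])]
      exact Limits.comp_zero
    · intro h
      exact absurd (Finset.mem_univ _) h
  exact hext adj h1

theorem DqH.central (Q : DqH K F S Γ) {M : Bim S} (h : Q.pr M 0 = 𝟙 M) (g : Γ) : Q.R M g = Q.L M g := by
  have h1 := Q.F_pr M 0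
  rw [h, Bim.id_f] at h1
  have h2 : Q.L M g ≫ F.map M.p = Q.L M g := by
    rw [← Q.L_sum, Preadditive.comp_sum, Finset.sum_eq_single g]
    · rw [Q.L_L, if_pos rfl]
    · intro b _ hb
      rw [Q.L_L, if_neg (Ne.symm hb)]
    · intro h
      exact absurd (Finset.mem_univ _) h
  have h3 : F.map M.p ≫ Q.R M g = Q.R M g := by
    rw [← Q.R_sum, Preadditive.sum_comp, Finset.sum_eq_single g]
    · rw [Q.R_R, if_pos rfl]
    · intro b _ hb
      rw [Q.R_R, if_neg hb]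
    · intro h
      exact absurd (Finset.mem_univ _) h
  have h4 : Q.L M g ≫ F.map M.p = Q.L M g ≫ Q.R M g := by
    rw [h1, Preadditive.comp_sum, Finset.sum_eq_single g]
    · rw [add_zero, ← Category.assoc, Q.L_L, if_pos rfl]
    · intro b _ hb
      rw [← Category.assoc, Q.L_L, if_neg (Ne.symm hb), Limits.zero_comp]
    · intro h
      exact absurd (Finset.mem_univ _) h
  have h5 : F.map M.p ≫ Q.R M g = Q.L M g ≫ Q.R M g := by
    rw [h1, Preadditive.sum_comp, Finset.sum_eq_single g]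
    · rw [add_zero, Category.assoc, Q.R_R, if_pos rfl]
    · intro b _ hb
      rw [add_zero, Category.assoc, Q.R_R, if_neg hb, Limits.comp_zero]
    · intro h
      exact absurd (Finset.mem_univ _) h
  rw [← h3, h5, ← h4, h2]

theorem DqH.right_of_left (Q : DqH K F S Γ) {M N : Bim S} (hM : ∀ g, Q.R M g = Q.L M g)
    (hN : ∀ g, Q.R N g = Q.L N g) (f : M.X ⟶ N.X) (hf : S.A ◁ f ≫ N.l = M.l ≫ f) :
    f ▷ S.A ≫ N.r = M.r ≫ f := by
  apply Q.right_of_R f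
  intro g
  rw [hM, hN, Q.left_L f hf]

theorem DqH.retract (Q : DqH K F S Γ) (adj : F ⊣ R) [adj.IsMonoidal] (φ : AlgTo S R)
    (hφ : F.map φ.f ≫ adj.counit.app (𝟙_ D) = Q.chi) {M : Bim S} (hM : ∀ g, Q.R M g = Q.L M g) :
    ∃ (i : M ⟶ φ.LB (F.obj M.X)) (p : φ.LB (F.obj M.X) ⟶ M), i ≫ p = 𝟙 M := by
  have hL : ∀ g, Q.R (φ.LB (F.obj M.X)) g = Q.L (φ.LB (F.obj M.X)) g := Q.central (Q.pr_LB adj φ hφ (F.obj M.X))
  obtain ⟨ti, ht1, ht2⟩ := (Q.toDq.thet_iso adj φ hφ M.X).out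
  have hθ : S.A ◁ thet φ adj M.X ≫ φ.l (F.obj M.X) = (α_ _ _ _).inv ≫ S.mul ▷ M.X ≫ thet φ adj M.X := by
    have key : ∀ u : M.X ⟶ R.obj (F.obj M.X), S.A ◁ (S.A ◁ u ≫ φ.l (F.obj M.X)) ≫ φ.l (F.obj M.X) =
        (α_ _ _ _).inv ≫ S.mul ▷ M.X ≫ S.A ◁ u ≫ φ.l (F.obj M.X) := by
      intro u
      have h1 := φ.ll (F.obj M.X)
      have h2 : S.A ◁ φ.l (F.obj M.X) ≫ φ.l (F.obj M.X) = (α_ _ _ _).inv ≫ S.mul ▷ R.obj (F.obj M.X) ≫
          φ.l (F.obj M.X) := by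
        rw [h1, Iso.inv_hom_id_assoc]
      rw [MonoidalCategory.whiskerLeft_comp, Category.assoc, h2, associator_inv_naturality_right_assoc,
        whisker_exchange_assoc]
    exact key _
  have hl1 : S.A ◁ (M.sL ≫ thet φ adj M.X) ≫ (φ.LB (F.obj M.X)).l = M.l ≫ M.sL ≫ thet φ adj M.X := by
    show S.A ◁ (M.sL ≫ thet φ adj M.X) ≫ φ.l (F.obj M.X) = M.l ≫ M.sL ≫ thet φ adj M.X
    rw [MonoidalCategory.whiskerLeft_comp, Category.assoc, hθ]
    have h1 := M.l_sL'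
    rw [← Category.assoc M.l, h1]
    simp only [Category.assoc]
  have hl2 : S.A ◁ (ti ≫ M.l) ≫ M.l = (φ.LB (F.obj M.X)).l ≫ ti ≫ M.l := by
    show S.A ◁ (ti ≫ M.l) ≫ M.l = φ.l (F.obj M.X) ≫ ti ≫ M.l
    calc S.A ◁ (ti ≫ M.l) ≫ M.l = S.A ◁ ti ≫ (α_ _ _ _).inv ≫ S.mul ▷ M.X ≫ M.l := by
          rw [MonoidalCategory.whiskerLeft_comp, Category.assoc, M.ll, Iso.inv_hom_id_assoc]
      _ = S.A ◁ ti ≫ (α_ _ _ _).inv ≫ S.mul ▷ M.X ≫ (thet φ adj M.X ≫ ti) ≫ M.l := by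
          rw [ht1, Category.id_comp]
      _ = S.A ◁ ti ≫ (S.A ◁ thet φ adj M.X ≫ φ.l (F.obj M.X)) ≫ ti ≫ M.l := by
          rw [hθ]
          simp only [Category.assoc]
      _ = S.A ◁ (ti ≫ thet φ adj M.X) ≫ φ.l (F.obj M.X) ≫ ti ≫ M.l := by
          rw [MonoidalCategory.whiskerLeft_comp]
          simp only [Category.assoc]
      _ = φ.l (F.obj M.X) ≫ ti ≫ M.l := by
          rw [ht2, MonoidalCategory.whiskerLeft_id, Category.id_comp]
  refine ⟨(⟨M.sL ≫ thet φ adj M.X, hl1, Q.right_of_left hM hL _ hl1, ?_⟩ : Bim.Hom M (φ.LB (F.obj M.X))),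
    (⟨ti ≫ M.l, hl2, Q.right_of_left hL hM _ hl2, ?_⟩ : Bim.Hom (φ.LB (F.obj M.X)) M), ?_⟩
  · rw [φ.LB_p]
    exact Category.comp_id _
  · rw [Category.assoc, M.p_l]
  · apply Bim.hom_ext
    show (M.sL ≫ thet φ adj M.X) ≫ ti ≫ M.l = M.p
    rw [Category.assoc, reassoc_of% ht1, M.sL_l]

theorem DqH.img [IsIdempotentComplete D] (Q : DqH K F S Γ) (adj : F ⊣ R) [adj.IsMonoidal] (φ : AlgTo S R)
    (hφ : F.map φ.f ≫ adj.counit.app (𝟙_ D) = Q.chi) {M : Bim S} (hM : Q.pr M 0 = 𝟙 M) :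
    ∃ y : D, Nonempty (M ≅ φ.LBf.obj y) := by
  obtain ⟨i, p, hip⟩ : ∃ (i : M ⟶ φ.LBf.obj (F.obj M.X)) (p : φ.LBf.obj (F.obj M.X) ⟶ M), i ≫ p = 𝟙 M :=
    Q.retract adj φ hφ (Q.central hM)
  obtain ⟨e, he⟩ := Q.toDq.full adj φ hφ (Bim.Hom.f (p ≫ i)) (Bim.Hom.hl (p ≫ i))
  have he1 : φ.LBf.map e = p ≫ i := Bim.hom_ext he
  have he2 : e ≫ e = e := by
    apply Q.toDq.faithfulR adj
    have h5 : Bim.Hom.f (p ≫ i) ≫ Bim.Hom.f (p ≫ i) = Bim.Hom.f (p ≫ i) := by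
      show Bim.Hom.f ((p ≫ i) ≫ p ≫ i) = Bim.Hom.f (p ≫ i)
      rw [Category.assoc, reassoc_of% hip]
    rw [R.map_comp, he]
    exact h5
  obtain ⟨y, ι, π, h1, h2⟩ := IsIdempotentComplete.idempotents_split (F.obj M.X) e he2
  refine ⟨y, ⟨⟨i ≫ φ.LBf.map π, φ.LBf.map ι ≫ p, ?_, ?_⟩⟩⟩
  · have h3 : φ.LBf.map π ≫ φ.LBf.map ι = p ≫ i := by rw [← Functor.map_comp, h2, he1]
    rw [Category.assoc, reassoc_of% h3, hip, Category.comp_id, hip]
  · have h3 : φ.LBf.map ι ≫ p ≫ i ≫ φ.LBf.map π = φ.LBf.map (ι ≫ e ≫ π) := by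
      rw [Functor.map_comp, Functor.map_comp, he1, Category.assoc]
    rw [Category.assoc, h3, ← h2, Category.assoc, h1, Category.comp_id, h1, CategoryTheory.Functor.map_id]

end Pool.Agent.SFC
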