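import Pool.Agent.SFC.ATen
import Pool.Agent.SFC.HG

/-!
# SFC/HI: the degree of a tensor product

(Compare SFC/E2i.)  `Bim.ten M N` has `X = M.X ⊗ N.X`, `l = (α_ _ _ _).inv ≫ M.l ▷ _ ≫ e`, `r = (α_ _ _ _).hom ≫ _ ◁ N.r ≫ e`, `e = Bim.e M N` (SFC/ATen).
`L_ten`, `R_ten`: by the definitions of `L`, `R` and the monoidality of `F`.  `bal_LR`: from `Bim.bal` (compose with `s g`).
`pr_ten`: apply `F` (`Q.faithful`), `F_pr`.  LHS: `∑ g, δ ≫ (L M g ⊗ₘ R N (g + k)) ≫ μ ≫ F.map e` (`L_ten`, `R_ten`, `e` is `(Bim.ten M N).p`, `Bim.e_e`).  Insert `F.map N.p = ∑ c, L N c = ∑ c, L N c ≫ L N c` (`Bim.e_pR`, `L_sum`, `L_L`) before `e` and move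
one factor `L N c` to `R M c` on the other side (`bal_LR`): `∑ g c, δ ≫ ((L M g ≫ R M c) ⊗ₘ (L N c ≫ R N (g + k))) ≫ μ ≫ F.map e`; substitute `c = g + l`: `g + k = c + (-l + k)`.  This is the RHS (`Hom.f` of
`Bim.wR (pr M l) N ≫ Bim.wL M (pr N (-l + k))` is `e ≫ f ▷ _ ≫ e ≫ _ ◁ f'`, and `Bim.f_e`, `Bim.e_f`, `Bim.e_e`).
-/

set_option autoImplicit false

noncomputable section

open CategoryTheory MonoidalCategory
open scoped BigOperators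

namespace Pool.Agent.SFC

universe v u v' u' w

open Functor.LaxMonoidal Functor.OplaxMonoidal

variable {K : Type w} [Field K] {C : Type u} [Category.{v} C] [Preadditive C] [Linear K C] [MonoidalCategory C]
  [MonoidalPreadditive C] [MonoidalLinear K C] {D : Type u'} [Category.{v'} D] [Preadditive D] [Linear K D]
  [MonoidalCategory D] [MonoidalPreadditive D] [MonoidalLinear K D] {F : C ⥤ D} [F.Monoidal] {S : SFrob C} {Γ : Type}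
  [AddGroup Γ] [Fintype Γ] [DecidableEq Γ]

private theorem HI_lop (Q : DqH K F S Γ) (M N : Bim S) (g : Γ) :
    (λ_ (F.obj (M.X ⊗ N.X))).inv ≫ Q.s g ▷ F.obj (M.X ⊗ N.X) ≫ μ F _ _ ≫
      F.map (Bim.lt M N ≫ Bim.e M N) =
      δ F M.X N.X ≫ Q.L M g ▷ F.obj N.X ≫ μ F M.X N.X ≫ F.map (Bim.e M N) := by
  rw [Bim.lt, ← cancel_epi (μ F M.X N.X)]
  simp only [Category.assoc]
  rw [Functor.Monoidal.μ_δ_assoc, leftUnitor_inv_naturality_assoc, whisker_exchange_assoc, F.map_comp, F.map_comp,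
    Functor.LaxMonoidal.associativity_inv_assoc, ← μ_natural_left_assoc]
  simp only [DqH.L, comp_whiskerRight, Category.assoc]
  monoidal

private theorem HI_rop (Q : DqH K F S Γ) (M N : Bim S) (g : Γ) :
    (ρ_ (F.obj (M.X ⊗ N.X))).inv ≫ F.obj (M.X ⊗ N.X) ◁ Q.s g ≫ μ F _ _ ≫
      F.map (Bim.rt M N ≫ Bim.e M N) =
      δ F M.X N.X ≫ F.obj M.X ◁ Q.R N g ≫ μ F M.X N.X ≫ F.map (Bim.e M N) := by
  rw [Bim.rt, ← cancel_epi (μ F M.X N.X)]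
  simp only [Category.assoc]
  rw [Functor.Monoidal.μ_δ_assoc, rightUnitor_inv_naturality_assoc, ← whisker_exchange_assoc, F.map_comp, F.map_comp,
    Functor.LaxMonoidal.associativity_assoc, ← μ_natural_right_assoc]
  simp only [DqH.R, MonoidalCategory.whiskerLeft_comp, Category.assoc]
  monoidal

private theorem HI_p (Q : DqH K F S Γ) (P : Bim S) (a : Γ) : F.map P.p ≫ Q.R P a = Q.R P a := by
  rw [← Q.R_sum P, Preadditive.sum_comp, Finset.sum_eq_single a]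
  · rw [Q.R_R, if_pos rfl]
  · intro b _ hb
    rw [Q.R_R, if_neg hb]
  · intro h
    exact absurd (Finset.mem_univ a) h

theorem DqH.L_ten (Q : DqH K F S Γ) (M N : Bim S) (g : Γ) :
    Q.L (Bim.ten M N) g = δ F M.X N.X ≫ Q.L M g ▷ F.obj N.X ≫ μ F M.X N.X ≫ F.map (Bim.e M N) := by
  exact HI_lop Q M N g

theorem DqH.R_ten (Q : DqH K F S Γ) (M N : Bim S) (g : Γ) :
    Q.R (Bim.ten M N) g = δ F M.X N.X ≫ F.obj M.X ◁ Q.R N g ≫ μ F M.X N.X ≫ F.map (Bim.e M N) := by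
  exact HI_rop Q M N g

theorem DqH.bal_LR (Q : DqH K F S Γ) (M N : Bim S) (g : Γ) :
    Q.R M g ▷ F.obj N.X ≫ μ F M.X N.X ≫ F.map (Bim.e M N) =
      F.obj M.X ◁ Q.L N g ≫ μ F M.X N.X ≫ F.map (Bim.e M N) := by
  have h1 : Q.R M g ▷ F.obj N.X ≫ μ F M.X N.X ≫ F.map (Bim.e M N) =
      ((ρ_ _).inv ≫ F.obj M.X ◁ Q.s g) ▷ F.obj N.X ≫ μ F _ _ ▷ F.obj N.X ≫ μ F _ _ ≫
        F.map (M.r ▷ N.X ≫ Bim.e M N) := by
    rw [F.map_comp, ← μ_natural_left_assoc]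
    simp only [DqH.R, comp_whiskerRight, Category.assoc]
  have h2 : F.obj M.X ◁ Q.L N g ≫ μ F M.X N.X ≫ F.map (Bim.e M N) =
      F.obj M.X ◁ ((λ_ _).inv ≫ Q.s g ▷ F.obj N.X) ≫ F.obj M.X ◁ μ F _ _ ≫ μ F _ _ ≫
        F.map (M.X ◁ N.l) ≫ F.map (Bim.e M N) := by
    rw [← μ_natural_right_assoc]
    simp only [DqH.L, MonoidalCategory.whiskerLeft_comp, Category.assoc]
  rw [h1, h2, Bim.bal, F.map_comp, F.map_comp, Functor.LaxMonoidal.associativity_assoc]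
  simp only [MonoidalCategory.whiskerLeft_comp, comp_whiskerRight, Category.assoc,
    associator_naturality_middle_assoc, triangle_assoc_comp_right_inv_assoc]

private theorem HI_term (Q : DqH K F S Γ) (M N : Bim S) (g l k : Γ) :
    (Q.L M g ≫ Q.R M (g + l)) ▷ F.obj N.X ≫ F.obj M.X ◁ (∑ c, Q.L N c ≫ Q.R N (c + (-l + k))) ≫ μ F M.X N.X ≫
      F.map (Bim.e M N) =
      Q.L M g ▷ F.obj N.X ≫ F.obj M.X ◁ (Q.L N (g + l) ≫ Q.R N (g + k)) ≫ μ F M.X N.X ≫ F.map (Bim.e M N) := by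
  have h1 : (∑ c, Q.L N c ≫ Q.R N (c + (-l + k))) ≫ Q.L N (g + l) = Q.L N (g + l) ≫ Q.R N (g + k) := by
    rw [Preadditive.sum_comp, Finset.sum_eq_single (g + l)]
    · rw [Category.assoc, ← Q.L_R, ← Category.assoc, Q.L_L, if_pos rfl, add_assoc, add_neg_cancel_left]
    · intro c _ hc
      rw [Category.assoc, ← Q.L_R, ← Category.assoc, Q.L_L, if_neg hc, Limits.zero_comp]
    · intro h
      exact absurd (Finset.mem_univ _) h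
  rw [comp_whiskerRight, Category.assoc, ← whisker_exchange_assoc (Q.R M (g + l)), Q.bal_LR,
    ← MonoidalCategory.whiskerLeft_comp_assoc, h1]

private theorem HI_rhs (Q : DqH K F S Γ) (M N : Bim S) (k l : Γ) :
    F.map ((Bim.e M N ≫ Bim.Hom.f (Q.pr M l) ▷ N.X) ≫ (Bim.e M N ≫ M.X ◁ Bim.Hom.f (Q.pr N (-l + k)))) =
      ∑ g, δ F M.X N.X ≫ Q.L M g ▷ F.obj N.X ≫ F.obj M.X ◁ (Q.L N (g + l) ≫ Q.R N (g + k)) ≫ μ F M.X N.X ≫
        F.map (Bim.e M N) := by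
  have h4 : (Bim.e M N ≫ Bim.Hom.f (Q.pr M l) ▷ N.X) ≫ (Bim.e M N ≫ M.X ◁ Bim.Hom.f (Q.pr N (-l + k))) =
      Bim.Hom.f (Q.pr M l) ▷ N.X ≫ M.X ◁ Bim.Hom.f (Q.pr N (-l + k)) ≫ Bim.e M N := by
    rw [Bim.e_f, ← Bim.f_e, Category.assoc, ← Category.assoc (Bim.e M N), Bim.e_e]
  have h5 : F.map (Bim.Hom.f (Q.pr M l) ▷ N.X ≫ M.X ◁ Bim.Hom.f (Q.pr N (-l + k)) ≫ Bim.e M N) =
      δ F _ _ ≫ F.map (Bim.Hom.f (Q.pr M l)) ▷ F.obj N.X ≫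
        F.obj M.X ◁ F.map (Bim.Hom.f (Q.pr N (-l + k))) ≫ μ F _ _ ≫ F.map (Bim.e M N) := by
    rw [F.map_comp, F.map_comp, μ_natural_right_assoc, μ_natural_left_assoc, Functor.Monoidal.δ_μ_assoc]
  have h6 : (∑ g, Q.L M g ≫ Q.R M (g + l)) ▷ F.obj N.X = ∑ g, (Q.L M g ≫ Q.R M (g + l)) ▷ F.obj N.X :=
    sum_whiskerRight _ _ _
  rw [h4, h5, Q.F_pr, Q.F_pr, h6, Preadditive.sum_comp, Preadditive.comp_sum]
  exact Finset.sum_congr rfl fun g _ => congrArg (fun z => δ F M.X N.X ≫ z) (HI_term Q M N g l k)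

private theorem HI_sum (Q : DqH K F S Γ) (N : Bim S) (g k : Γ) :
    ∑ l, Q.L N (g + l) ≫ Q.R N (g + k) = Q.R N (g + k) := by
  rw [← Preadditive.sum_comp, Fintype.sum_equiv (Equiv.addLeft g) (fun l => Q.L N (g + l)) (fun l => Q.L N l)
    (fun l => rfl), Q.L_sum, HI_p]

private theorem HI_lhs (Q : DqH K F S Γ) (M N : Bim S) (g k : Γ)
    (A R : F.obj (M.X ⊗ N.X) ⟶ F.obj (M.X ⊗ N.X))
    (hA : A = δ F M.X N.X ≫ Q.L M g ▷ F.obj N.X ≫ μ F M.X N.X ≫ F.map (Bim.e M N))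
    (hR : R = δ F M.X N.X ≫ F.obj M.X ◁ Q.R N (g + k) ≫ μ F M.X N.X ≫ F.map (Bim.e M N))
    (h1 : F.map (Bim.e M N) ≫ R = R) :
    A ≫ R = ∑ l, δ F M.X N.X ≫ Q.L M g ▷ F.obj N.X ≫ F.obj M.X ◁ (Q.L N (g + l) ≫ Q.R N (g + k)) ≫ μ F M.X N.X ≫
        F.map (Bim.e M N) := by
  have h2 : F.obj M.X ◁ Q.R N (g + k) = ∑ l, F.obj M.X ◁ (Q.L N (g + l) ≫ Q.R N (g + k)) := by
    conv_lhs => rw [← HI_sum Q N g k]
    exact whiskerLeft_sum _ _ _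
  rw [hA]
  simp only [Category.assoc]
  rw [h1, hR, Functor.Monoidal.μ_δ_assoc, h2, Preadditive.sum_comp, Preadditive.comp_sum, Preadditive.comp_sum]

theorem DqH.pr_ten (Q : DqH K F S Γ) (M N : Bim S) (k : Γ) :
    Q.pr (Bim.ten M N) k = ∑ l, Bim.wR (Q.pr M l) N ≫ Bim.wL M (Q.pr N (-l + k)) := by
  have hadd : F.Additive := ⟨fun {_ _} {f g} => Q.map_add f g⟩
  refine Bim.hom_ext (Q.faithful ?_)
  have e1 : Bim.Hom.f (∑ l, Bim.wR (Q.pr M l) N ≫ Bim.wL M (Q.pr N (-l + k)) : Bim.ten M N ⟶ Bim.ten M N) =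
      ∑ l, (Bim.e M N ≫ Bim.Hom.f (Q.pr M l) ▷ N.X) ≫ (Bim.e M N ≫ M.X ◁ Bim.Hom.f (Q.pr N (-l + k))) :=
    map_sum (Bim.fLin (K := K) (Bim.ten M N) (Bim.ten M N)) _ _
  have e2 : F.map (∑ l, (Bim.e M N ≫ Bim.Hom.f (Q.pr M l) ▷ N.X) ≫
      (Bim.e M N ≫ M.X ◁ Bim.Hom.f (Q.pr N (-l + k)))) =
      ∑ g, ∑ l, δ F M.X N.X ≫ Q.L M g ▷ F.obj N.X ≫ F.obj M.X ◁ (Q.L N (g + l) ≫ Q.R N (g + k)) ≫ μ F M.X N.X ≫
        F.map (Bim.e M N) := by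
    rw [F.map_sum, Finset.sum_comm]
    exact Finset.sum_congr rfl fun l _ => HI_rhs Q M N k l
  rw [e1]
  refine (Q.F_pr (Bim.ten M N) k).trans ?_
  refine Eq.trans ?_ e2.symm
  refine Finset.sum_congr rfl fun g _ => ?_
  refine HI_lhs Q M N g k _ _ (Q.L_ten M N g) (Q.R_ten M N (g + k)) ?_
  have h := HI_p Q (Bim.ten M N) (g + k)
  rw [Bim.ten_p] at h
  exact h

end Pool.Agent.SFC
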