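import Pool.Agent.SFC.HG

/-!
# SFC/HJ: twisted bimodules

`M := ⟨A, l := mul, r := A ◁ a (-k) ≫ mul⟩`, where `a = Q.gal.a` (automorphisms of the algebra `A`), a bimodule with `p = 𝟙`.
Let `e g := F.map (a (-g)) ≫ χ ≫ s g : F A ⟶ F A`, so `∑ g, e g = 𝟙` (`Q.sum`).  By `s_mul`: `s h ≫ L M g = if g = h then s g else 0`, and `s h ≫ R M g` is the product of `s h` and `s g ≫ F.map (a (-k)) = s (g - k)`, so it is `s h` if `h = g - k` and `0`
otherwise (`Q.s_a`, `sub_eq_add_neg`).  So `L M g = e g` (compose with `𝟙 = ∑ h, e h`), `L M g ≫ R M (g + k) = e g` and `pr M k = 𝟙` (`F_pr`, `Q.faithful`, `Bim.id_f`).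
-/

set_option autoImplicit false

noncomputable section

open CategoryTheory MonoidalCategory
open scoped BigOperators

namespace Pool.Agent.SFC

universe v u v' u' w

open Functor.LaxMonoidal Functor.OplaxMonoidal

section

variable {C : Type u} [Category.{v} C] [MonoidalCategory C]

/-- the bimodule twisted by an automorphism of the algebra -/
private def HJ_M (S : SFrob C) (t : S.A ⟶ S.A) (hm : (t ⊗ₘ t) ≫ S.mul = S.mul ≫ t) (ho : S.one ≫ t = S.one) :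
    Bim S where
  X := S.A
  l := S.mul
  r := S.A ◁ t ≫ S.mul
  ll := S.assoc
  rr := by
    have h1 : (S.A ◁ t ≫ S.mul) ▷ S.A ≫ S.A ◁ t ≫ S.mul =
        (S.A ◁ t) ▷ S.A ≫ (S.A ⊗ S.A) ◁ t ≫ (α_ _ _ _).hom ≫ S.A ◁ S.mul ≫ S.mul := by
      rw [comp_whiskerRight, Category.assoc, ← whisker_exchange_assoc, S.assoc]
    rw [h1]
    have h2 : (α_ S.A S.A S.A).inv ≫ (S.A ◁ t) ▷ S.A ≫ (S.A ⊗ S.A) ◁ t ≫
        (α_ _ _ _).hom = S.A ◁ (t ⊗ₘ t) := by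
      rw [MonoidalCategory.tensorHom_def]
      monoidal
    have h3 : (α_ S.A S.A S.A).inv ≫ (S.A ◁ t) ▷ S.A ≫ (S.A ⊗ S.A) ◁ t ≫
        (α_ _ _ _).hom ≫ S.A ◁ S.mul ≫ S.mul = S.A ◁ (t ⊗ₘ t) ≫ S.A ◁ S.mul ≫ S.mul := by
      rw [← h2]
      simp only [Category.assoc]
    rw [h3, ← MonoidalCategory.whiskerLeft_comp_assoc, ← hm, MonoidalCategory.whiskerLeft_comp_assoc]
  lr := by
    rw [← whisker_exchange_assoc, S.assoc, MonoidalCategory.whiskerLeft_comp, Category.assoc]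
    monoidal
  uu := by
    rw [S.one_mul, ← MonoidalCategory.whiskerLeft_comp_assoc, ho, S.mul_one, Iso.inv_hom_id, Iso.inv_hom_id]

private theorem HJ_p (S : SFrob C) (t : S.A ⟶ S.A) (hm : (t ⊗ₘ t) ≫ S.mul = S.mul ≫ t) (ho : S.one ≫ t = S.one) :
    (HJ_M S t hm ho).p = 𝟙 S.A := by
  have h : (HJ_M S t hm ho).p = (λ_ S.A).inv ≫ S.one ▷ S.A ≫ S.mul := rfl
  rw [h, S.one_mul, Iso.inv_hom_id]

end

variable {K : Type w} [Field K] {C : Type u} [Category.{v} C] [Preadditive C] [Linear K C] [MonoidalCategory C]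
  [MonoidalPreadditive C] [MonoidalLinear K C] {D : Type u'} [Category.{v'} D] [Preadditive D] [Linear K D]
  [MonoidalCategory D] [MonoidalPreadditive D] [MonoidalLinear K D] {F : C ⥤ D} [F.Monoidal] {S : SFrob C} {Γ : Type}
  [AddGroup Γ] [Fintype Γ] [DecidableEq Γ]

private theorem HJ_sL (Q : DqH K F S Γ) (g h : Γ) :
    Q.s h ≫ (λ_ _).inv ≫ Q.s g ▷ F.obj S.A ≫ μ F _ _ ≫ F.map S.mul = if g = h then Q.s g else 0 := by
  have h1 : Q.s h ≫ (λ_ _).inv ≫ Q.s g ▷ F.obj S.A ≫ μ F _ _ ≫ F.map S.mul =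
      (λ_ (𝟙_ D)).inv ≫ (Q.s g ⊗ₘ Q.s h) ≫ μ F _ _ ≫ F.map S.mul := by
    rw [leftUnitor_inv_naturality_assoc, MonoidalCategory.tensorHom_def', Category.assoc]
  rw [h1, Q.s_mul]
  split_ifs
  · rw [Iso.inv_hom_id_assoc]
  · rw [Limits.comp_zero]

private theorem HJ_sR (Q : DqH K F S Γ) (k g h : Γ) :
    Q.s h ≫ (ρ_ _).inv ≫ F.obj S.A ◁ Q.s g ≫ μ F _ _ ≫ F.map (S.A ◁ Q.gal.a (-k) ≫ S.mul) =
      if h = g - k then Q.s h else 0 := by
  have h1 : Q.s h ≫ (ρ_ _).inv ≫ F.obj S.A ◁ Q.s g ≫ μ F _ _ ≫ F.map (S.A ◁ Q.gal.a (-k) ≫ S.mul) =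
      (λ_ (𝟙_ D)).inv ≫ (Q.s h ⊗ₘ Q.s (g - k)) ≫ μ F _ _ ≫ F.map S.mul := by
    rw [F.map_comp, ← μ_natural_right_assoc, ← MonoidalCategory.whiskerLeft_comp_assoc, Q.s_a, ← sub_eq_add_neg,
      rightUnitor_inv_naturality_assoc, MonoidalCategory.tensorHom_def, Category.assoc,
      MonoidalCategory.unitors_inv_equal]
  rw [h1, Q.s_mul]
  split_ifs
  · rw [Iso.inv_hom_id_assoc]
  · rw [Limits.comp_zero]

theorem DqH.exists_twist (Q : DqH K F S Γ) (h0 : 𝟙 S.A ≠ 0) (k : Γ) :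
    ∃ M : Bim S, 𝟙 M ≠ 0 ∧ Q.pr M k = 𝟙 M := by
  refine ⟨HJ_M S (Q.gal.a (-k)) (Q.gal.mul _) (Q.gal.one _), fun hM => h0 ?_, ?_⟩
  · have h1 : Bim.Hom.f (𝟙 (HJ_M S (Q.gal.a (-k)) (Q.gal.mul _) (Q.gal.one _))) = 0 := by rw [hM, Bim.zero_f]
    rw [Bim.id_f, HJ_p] at h1
    exact h1
  · apply Bim.hom_ext
    apply Q.faithful
    rw [Q.F_pr, Bim.id_f, HJ_p]
    refine Eq.trans (Finset.sum_congr rfl fun g _ => ?_) (Q.sum.trans (F.map_id S.A).symm)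
    have hL : Q.L (HJ_M S (Q.gal.a (-k)) (Q.gal.mul _) (Q.gal.one _)) g =
        F.map (Q.gal.a (-g)) ≫ Q.chi ≫ Q.s g := by
      have h1 : Q.L (HJ_M S (Q.gal.a (-k)) (Q.gal.mul _) (Q.gal.one _)) g =
          (∑ h, F.map (Q.gal.a (-h)) ≫ Q.chi ≫ Q.s h) ≫
            (λ_ _).inv ≫ Q.s g ▷ F.obj S.A ≫ μ F _ _ ≫ F.map S.mul := by
        rw [Q.sum, Category.id_comp]
        rfl
      rw [h1, Preadditive.sum_comp, Finset.sum_eq_single g]
      · rw [Category.assoc, Category.assoc, HJ_sL, if_pos rfl]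
      · intro h _ hh
        rw [Category.assoc, Category.assoc, HJ_sL, if_neg hh.symm, Limits.comp_zero, Limits.comp_zero]
      · intro h
        exact absurd (Finset.mem_univ _) h
    have hR : Q.s g ≫ Q.R (HJ_M S (Q.gal.a (-k)) (Q.gal.mul _) (Q.gal.one _)) (g + k) = Q.s g := by
      refine (HJ_sR Q k (g + k) g).trans ?_
      rw [if_pos (by rw [add_sub_cancel_right])]
    refine (congrArg (fun t => t ≫ Q.R (HJ_M S (Q.gal.a (-k)) (Q.gal.mul _) (Q.gal.one _)) (g + k)) hL).trans ?_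
    refine (Category.assoc _ _ _).trans ?_
    refine congrArg (fun t => F.map (Q.gal.a (-g)) ≫ t) ?_
    refine (Category.assoc _ _ _).trans ?_
    exact congrArg (fun t => Q.chi ≫ t) hR

end Pool.Agent.SFC
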