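import Pool.Agent.SFC.HH
import Pool.Agent.SFC.HJ
import Pool.Agent.NFG.SemA

/-!
# SFC/HK: the grading of the category of bimodules by `Γ`

(Compare SFC/E2k.)  The monoidal structure of `Bim S` is a variable here; the only property used is `ht`.
`exists_deg`: `pr M k = c k • 𝟙`, `(c k) ^ 2 = c k` (`pr_pr`), `∑ k, c k = 1` (`pr_sum`, `𝟙 M ≠ 0`), so some `c d` is not zero, `c d = 1`; `pr M k = pr M k ≫ pr M d = 0` for `k ≠ d`.
`ext_of`: `deg j := Multiplicative.ofAdd (d j)`.  `full`: `Q.toDq.full`, `faithful`: `Q.toDq.faithfulR`, `map_add`, `map_smul`: `Q.toDq.map_add_R`, `Q.toDq.map_smul_R`.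
`occ`: `f : S c ⟶ S a ⊗ S b`, `f ≠ 0`.  `pr (S a) l = 0` for `l ≠ d a`, `pr (S b) m = 0` for `m ≠ d b`, so by `ht` `pr (S a ⊗ S b) k = 0` for `k ≠ d a + d b`; `f = pr (S c) (d c) ≫ f = f ≫ pr (S a ⊗ S b) (d c)` (`pr_nat`), so `d c = d a + d b`.
`surj`: `M` from `exists_twist` for `k`; a nonzero `f : S j ⟶ M` (`exists_ne_zero`): `f = f ≫ pr M k = pr (S j) k ≫ f`, so `k = d j`.
`one`: `pr (φ.LB y) 0 = 𝟙` (`pr_LB`), `pr_nat`.  `img`: `d j = 0`, `Q.img`.
-/

set_option autoImplicit false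

noncomputable section

open CategoryTheory MonoidalCategory
open scoped BigOperators

namespace Pool.Agent.SFC

open Pool.Agent.NFG

universe v u v' u' w

open Functor.LaxMonoidal Functor.OplaxMonoidal

variable {K : Type w} [Field K] {C : Type u} [Category.{v} C] [Preadditive C] [Linear K C] [MonoidalCategory C]
  [MonoidalPreadditive C] [MonoidalLinear K C] {D : Type u'} [Category.{v'} D] [Preadditive D] [Linear K D]
  [MonoidalCategory D] [MonoidalPreadditive D] [MonoidalLinear K D] {F : C ⥤ D} [F.Monoidal] {S : SFrob C} {Γ : Type}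
  [AddGroup Γ] [Fintype Γ] [DecidableEq Γ] {R : D ⥤ C} [R.LaxMonoidal]

private theorem HK_inj {C' : Type u} [Category.{v} C'] [Preadditive C'] [Linear K C'] {X Y : C'} {f : X ⟶ Y}
    (hf : f ≠ 0) {c c' : K} (h : c • f = c' • f) : c = c' := by
  have h1 : (c - c') • f = 0 := by rw [sub_smul, h, sub_self]
  rcases smul_eq_zero.1 h1 with h2 | h2
  · exact sub_eq_zero.1 h2
  · exact absurd h2 hf

theorem DqH.exists_deg (Q : DqH K F S Γ) (M : Bim S) (h0 : 𝟙 M ≠ 0) (h1 : ∀ f : M ⟶ M, ∃ c : K, f = c • 𝟙 M) :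
    ∃ d : Γ, Q.pr M d = 𝟙 M ∧ ∀ k, k ≠ d → Q.pr M k = 0 := by
  choose c hc using fun k => h1 (Q.pr M k)
  have hsq : ∀ k, c k * c k = c k := by
    intro k
    refine HK_inj (K := K) h0 ?_
    have h2 := Q.pr_pr M k k
    rw [if_pos rfl] at h2
    calc (c k * c k) • 𝟙 M = Q.pr M k ≫ Q.pr M k := by
          rw [hc k, Linear.smul_comp, Linear.comp_smul, Category.comp_id, smul_smul]
      _ = c k • 𝟙 M := by rw [h2]; exact hc k
  have hsum : ∑ k, c k = 1 := by
    refine HK_inj (K := K) h0 ?_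
    rw [Finset.sum_smul, one_smul, ← Q.pr_sum M]
    exact Finset.sum_congr rfl fun k _ => by rw [Q.pr_sum M]; exact (hc k).symm
  obtain ⟨d, -, hd⟩ := Finset.exists_ne_zero_of_sum_ne_zero (s := Finset.univ) (f := c) (by rw [hsum]; exact one_ne_zero)
  have hd1 : c d = 1 := by
    have h2 := hsq d
    have h3 : c d * (c d - 1) = 0 := by rw [mul_sub, h2, mul_one, sub_self]
    rcases mul_eq_zero.1 h3 with h4 | h4
    · exact absurd h4 hd
    · exact sub_eq_zero.1 h4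
  have hd2 : Q.pr M d = 𝟙 M := by rw [hc d, hd1, one_smul]
  refine ⟨d, hd2, fun k hk => ?_⟩
  have h2 := Q.pr_pr M k d
  rw [if_neg hk, hd2, Category.comp_id] at h2
  exact h2

theorem DqH.ext_of [IsIdempotentComplete D] (Q : DqH K F S Γ) (adj : F ⊣ R) [adj.IsMonoidal] (φ : AlgTo S R)
    (hφ : F.map φ.f ≫ adj.counit.app (𝟙_ D) = Q.chi) [MonoidalCategory (Bim S)] [MonoidalPreadditive (Bim S)]
    [MonoidalLinear K (Bim S)] [φ.LBf.Monoidal] (h0 : 𝟙 S.A ≠ 0)
    (ht : ∀ (M N : Bim S) (k : Γ), Q.pr (M ⊗ N) k = ∑ l, (Q.pr M l ⊗ₘ Q.pr N (-l + k)))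
    {ι : Type} [Fintype ι] [DecidableEq ι] (FN : Fus K (Bim S) ι) :
    ∃ deg : ι → Multiplicative Γ, IsExt K φ.LBf FN (Multiplicative Γ) deg := by
  choose d hd1 hd2 using fun j => Q.exists_deg (FN.S j) (FN.one_ne j) (FN.schur j)
  have hone : ∀ (M : Bim S) (i : ι) (f : FN.S i ⟶ M), f ≠ 0 → ∀ e : Γ, f ≫ Q.pr M e = f → d i = e := by
    intro M i f hf e he
    by_contra hne
    apply hf
    rw [← he, ← Q.pr_nat f e, hd2 i e (fun h => hne h.symm), Limits.zero_comp]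
  refine ⟨fun j => Multiplicative.ofAdd (d j), ?_⟩
  refine ⟨⟨fun {Z W} h => ?_⟩, ⟨fun {Z W} f g hfg => ?_⟩, fun f g => ?_, fun c f => ?_, ?_, ?_, ?_, ?_⟩
  · obtain ⟨f, hf⟩ := Q.toDq.full adj φ hφ (Bim.Hom.f h) (Bim.Hom.hl h)
    exact ⟨f, Bim.hom_ext hf⟩
  · exact Q.toDq.faithfulR adj (congrArg (fun z => Bim.Hom.f z) hfg)
  · exact Bim.hom_ext (Q.toDq.map_add_R adj f g)
  · exact Bim.hom_ext (Q.toDq.map_smul_R adj c f)
  · rintro i j k ⟨f, hf⟩
    have h2 : Q.pr (FN.S i ⊗ FN.S j) (d i + d j) = 𝟙 (FN.S i ⊗ FN.S j) := by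
      rw [ht, Finset.sum_eq_single (d i)]
      · rw [neg_add_cancel_left, hd1 i, hd1 j, MonoidalCategory.id_tensorHom_id]
      · intro l _ hl
        rw [hd2 i l hl, MonoidalCategory.tensorHom_def, MonoidalPreadditive.zero_whiskerRight, Limits.zero_comp]
      · intro h
        exact absurd (Finset.mem_univ _) h
    have h1 : d k = d i + d j := hone _ k f hf _ (by rw [h2, Category.comp_id])
    show Multiplicative.ofAdd (d k) = Multiplicative.ofAdd (d i) * Multiplicative.ofAdd (d j)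
    rw [h1, ofAdd_add]
  · intro q
    obtain ⟨M, hM0, hM⟩ := Q.exists_twist h0 (Multiplicative.toAdd q)
    obtain ⟨j, f, hf⟩ := exists_ne_zero FN hM0
    have h1 : d j = Multiplicative.toAdd q := hone M j f hf _ (by rw [hM, Category.comp_id])
    refine ⟨j, ?_⟩
    show Multiplicative.ofAdd (d j) = q
    rw [h1, ofAdd_toAdd]
  · intro i hi
    have h1 : d i = 0 := hi
    have h2 := hd1 i
    rw [h1] at h2
    exact Q.img adj φ hφ h2
  · intro y i f hf
    have h1 : d i = 0 := by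
      refine hone _ i f hf _ ?_
      have h2 : Q.pr (φ.LBf.obj y) 0 = 𝟙 (φ.LBf.obj y) := Q.pr_LB adj φ hφ y
      rw [h2, Category.comp_id]
    show Multiplicative.ofAdd (d i) = 1
    rw [h1, ofAdd_zero]

end Pool.Agent.SFC
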