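import Pool.Agent.SFC.HMf

/-!
# SFC/HMg: equivariantization by a finite group as a de-equivariantization `DqH`

Data: `T : ThH K F Γ`, an object `x`, `s`, `q` (`F x = ⨁ 𝟙`) with `T.th g (η F ≫ s h) = η F ≫ s (g + h)`, `T.th g (q h ≫ ε F) = q (g + h) ≫ ε F` (from `Eqv.exists_fun`).
`dqH`: `chi := q 0`.  `one_chi`, `mul_chi` from `exists_slift` (`FunO.s_mul`).  `univ`: for `h : F x ⟶ F y`: `k' := ∑ g, T.th g h ≫ (λ_ _).inv ≫ s g ▷ F y ≫ μ : F x ⟶ F (A ⊗ y)` is invariant (`th_comp`, `th_ten`, `P.th_s`, `T.th_th`), `k' = F.map k`, and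
`k' ≫ δ ≫ q 0 ▷ _ ≫ λ = T.th 0 h = h`.  Uniqueness: `F.map k ≫ δ ≫ q g ▷ _ ≫ λ = T.th g (F.map k ≫ δ ≫ q 0 ▷ _ ≫ λ)` (`th_comp`, `th_ten`, `P.th_q`), and these determine `F.map k` (`∑ g, q g ≫ s g = 𝟙`).
`s_chi`, `s_a`, `s_mul`, `s_one`, `sum`: by the definitions (`FunT.F_a`, `F.map (a (-g)) ≫ q 0 = q g`).
-/

set_option autoImplicit false

noncomputable section

open CategoryTheory MonoidalCategory
open scoped BigOperators

namespace Pool.Agent.SFC

universe v u v' u' w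

open Functor.LaxMonoidal Functor.OplaxMonoidal

variable {K : Type w} [Field K] {C : Type u} [Category.{v} C] [Preadditive C] [Linear K C] [MonoidalCategory C]
  [MonoidalPreadditive C] [MonoidalLinear K C] {D : Type u'} [Category.{v'} D] [Preadditive D] [Linear K D]
  [MonoidalCategory D] [MonoidalPreadditive D] [MonoidalLinear K D] {F : C ⥤ D} [F.Monoidal] {Γ : Type}
  [AddGroup Γ] [Fintype Γ] [DecidableEq Γ]

private theorem HMg_mul {T : ThH K F Γ} (P : FunT T) : F.map P.L.S.mul = δ F P.x P.x ≫ P.W.mul :=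
  P.exists_slift.choose_spec.choose_spec.choose_spec.choose_spec.1

private theorem HMg_one {T : ThH K F Γ} (P : FunT T) : F.map P.L.S.one = η F ≫ P.W.one :=
  P.exists_slift.choose_spec.choose_spec.choose_spec.choose_spec.2.1

private theorem HMg_one_q {T : ThH K F Γ} (P : FunT T) (g : Γ) : P.W.one ≫ P.q g = 𝟙 (𝟙_ D) := by
  change (∑ k, P.s k) ≫ P.q g = _
  rw [Preadditive.sum_comp, Finset.sum_eq_single g]
  · rw [P.sq, if_pos rfl]
  · intro k _ hk
    rw [P.sq, if_neg hk]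
  · intro h
    exact absurd (Finset.mem_univ _) h

private theorem HMg_mul_q {T : ThH K F Γ} (P : FunT T) (g : Γ) :
    P.W.mul ≫ P.q g = (P.q g ⊗ₘ P.q g) ≫ (λ_ (𝟙_ D)).hom := by
  change (∑ k, (P.q k ⊗ₘ P.q k) ≫ (λ_ (𝟙_ D)).hom ≫ P.s k) ≫ P.q g = _
  rw [Preadditive.sum_comp, Finset.sum_eq_single g]
  · rw [Category.assoc, Category.assoc, P.sq, if_pos rfl, Category.comp_id]
  · intro k _ hk
    rw [Category.assoc, Category.assoc, P.sq, if_neg hk, Limits.comp_zero, Limits.comp_zero]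
  · intro h
    exact absurd (Finset.mem_univ _) h

private theorem HMg_one_chi {T : ThH K F Γ} (P : FunT T) : (η F ≫ ∑ k, P.s k) ≫ P.q 0 = η F := by
  have h1 : (∑ k, P.s k) ≫ P.q 0 = 𝟙 (𝟙_ D) := HMg_one_q P 0
  rw [Category.assoc, h1, Category.comp_id]

private theorem HMg_mul_chi {T : ThH K F Γ} (P : FunT T) :
    (δ F P.x P.x ≫ ∑ k, (P.q k ⊗ₘ P.q k) ≫ (λ_ (𝟙_ D)).hom ≫ P.s k) ≫ P.q 0 =
      δ F P.x P.x ≫ (P.q 0 ⊗ₘ P.q 0) ≫ (λ_ (𝟙_ D)).hom := by
  have h1 : (∑ k, (P.q k ⊗ₘ P.q k) ≫ (λ_ (𝟙_ D)).hom ≫ P.s k) ≫ P.q 0 =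
      (P.q 0 ⊗ₘ P.q 0) ≫ (λ_ (𝟙_ D)).hom := HMg_mul_q P 0
  rw [Category.assoc, h1]

private theorem HMg_md {x : C} (a b : 𝟙_ D ⟶ F.obj x) (X : F.obj x ⊗ F.obj x ⟶ F.obj x) :
    (a ⊗ₘ b) ≫ μ F x x ≫ δ F x x ≫ X = (a ⊗ₘ b) ≫ X := by
  rw [Functor.Monoidal.μ_δ_assoc]

private theorem HMg_eo {x : C} (X : 𝟙_ D ⟶ F.obj x) : ε F ≫ η F ≫ X = X := by
  rw [← Category.assoc, Functor.Monoidal.ε_η, Category.id_comp]

/-- the inclusion of the component `g` of `F (A ⊗ y)` -/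
private def HMg_in {T : ThH K F Γ} (P : FunT T) (g : Γ) (y : C) : F.obj y ⟶ F.obj (P.x ⊗ y) :=
  (λ_ _).inv ≫ P.s g ▷ F.obj y ≫ μ F P.x y

/-- the projection to the component `g` of `F (A ⊗ y)` -/
private def HMg_out {T : ThH K F Γ} (P : FunT T) (g : Γ) (y : C) : F.obj (P.x ⊗ y) ⟶ F.obj y :=
  δ F P.x y ≫ P.q g ▷ F.obj y ≫ (λ_ _).hom

private theorem HMg_in_out {T : ThH K F Γ} (P : FunT T) (g h : Γ) (y : C) :
    HMg_in P g y ≫ HMg_out P h y = if g = h then 𝟙 (F.obj y) else 0 := by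
  have h1 : HMg_in P g y ≫ HMg_out P h y = (λ_ _).inv ≫ (P.s g ≫ P.q h) ▷ F.obj y ≫ (λ_ _).hom := by
    rw [HMg_in, HMg_out, comp_whiskerRight]
    simp only [Category.assoc, Functor.Monoidal.μ_δ_assoc]
  rw [h1, P.sq]
  split_ifs
  · rw [id_whiskerRight, Category.id_comp, Iso.inv_hom_id]
  · rw [MonoidalPreadditive.zero_whiskerRight, Limits.zero_comp, Limits.comp_zero]

private theorem HMg_out_in {T : ThH K F Γ} (P : FunT T) (y : C) :
    ∑ g, HMg_out P g y ≫ HMg_in P g y = 𝟙 (F.obj (P.x ⊗ y)) := by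
  have h1 : ∀ g, HMg_out P g y ≫ HMg_in P g y = δ F P.x y ≫ (P.q g ≫ P.s g) ▷ F.obj y ≫ μ F P.x y := by
    intro g
    rw [HMg_in, HMg_out, comp_whiskerRight]
    simp only [Category.assoc, Iso.hom_inv_id_assoc]
  simp only [h1]
  rw [← Preadditive.comp_sum, ← Preadditive.sum_comp, ← sum_whiskerRight, P.sum, id_whiskerRight,
    Category.id_comp, Functor.Monoidal.δ_μ]

private theorem HMg_th_id {T : ThH K F Γ} (g : Γ) (y : C) : T.th g (𝟙 (F.obj y)) = 𝟙 (F.obj y) := by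
  rw [← F.map_id, T.th_map]

private theorem HMg_in_eq {T : ThH K F Γ} (P : FunT T) (g : Γ) (y : C) :
    HMg_in P g y = F.map (λ_ y).inv ≫ (δ F (𝟙_ C) y ≫ ((η F ≫ P.s g) ⊗ₘ 𝟙 (F.obj y)) ≫ μ F P.x y) := by
  rw [HMg_in, tensorHom_id, ← Functor.LaxMonoidal.left_unitality_inv, comp_whiskerRight]
  simp only [Category.assoc, Functor.Monoidal.μ_δ_assoc]
  rw [← comp_whiskerRight_assoc, Functor.Monoidal.ε_η, id_whiskerRight, Category.id_comp]

private theorem HMg_out_eq {T : ThH K F Γ} (P : FunT T) (g : Γ) (y : C) :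
    HMg_out P g y = (δ F P.x y ≫ ((P.q g ≫ ε F) ⊗ₘ 𝟙 (F.obj y)) ≫ μ F (𝟙_ C) y) ≫ F.map (λ_ y).hom := by
  rw [HMg_out, tensorHom_id, Functor.LaxMonoidal.left_unitality, comp_whiskerRight]
  simp only [Category.assoc]

private theorem HMg_th_in {T : ThH K F Γ} (P : FunT T) (g h : Γ) (y : C) :
    T.th g (HMg_in P h y) = HMg_in P (g + h) y := by
  rw [HMg_in_eq, HMg_in_eq, T.th_comp, T.th_map, T.th_ten, P.th_s, HMg_th_id]

private theorem HMg_th_out {T : ThH K F Γ} (P : FunT T) (g h : Γ) (y : C) :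
    T.th g (HMg_out P h y) = HMg_out P (g + h) y := by
  rw [HMg_out_eq, HMg_out_eq, T.th_comp, T.th_map, T.th_ten, P.th_q, HMg_th_id]

private theorem HMg_th_zero' {T : ThH K F Γ} (g : Γ) {x y : C} : T.th g (0 : F.obj x ⟶ F.obj y) = 0 := by
  have h := T.th_add g (0 : F.obj x ⟶ F.obj y) 0
  rw [add_zero] at h
  exact left_eq_add.1 h

private theorem HMg_th_sum {T : ThH K F Γ} (g : Γ) {x y : C} {κ : Type*} (t : Finset κ)
    (f : κ → (F.obj x ⟶ F.obj y)) : T.th g (∑ k ∈ t, f k) = ∑ k ∈ t, T.th g (f k) := by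
  classical
  induction t using Finset.induction_on with
  | empty => rw [Finset.sum_empty, Finset.sum_empty, HMg_th_zero']
  | insert a t ha ih => rw [Finset.sum_insert ha, Finset.sum_insert ha, T.th_add, ih]

private theorem HMg_univ {T : ThH K F Γ} (P : FunT T) {x y : C} (h : F.obj x ⟶ F.obj y) :
    ∃! k : x ⟶ P.x ⊗ y, F.map k ≫ HMg_out P 0 y = h := by
  obtain ⟨k, hk, hu⟩ := T.th_fix (∑ g, T.th g h ≫ HMg_in P g y) (by
    intro g
    rw [HMg_th_sum]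
    rw [← Equiv.sum_comp (Equiv.addLeft g) (fun g' => T.th g' h ≫ HMg_in P g' y)]
    refine Finset.sum_congr rfl fun g' _ => ?_
    rw [T.th_comp, HMg_th_in, ← T.th_th]
    rfl)
  refine ⟨k, ?_, fun k2 hk2 => hu k2 ?_⟩
  · change F.map k ≫ HMg_out P 0 y = h
    rw [hk, Preadditive.sum_comp, Finset.sum_eq_single 0]
    · rw [Category.assoc, HMg_in_out, if_pos rfl, Category.comp_id, T.th_zero]
    · intro g _ hg
      rw [Category.assoc, HMg_in_out, if_neg hg, Limits.comp_zero]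
    · intro h0
      exact absurd (Finset.mem_univ _) h0
  · change F.map k2 = _
    have h1 : ∀ g, F.map k2 ≫ HMg_out P g y = T.th g h := by
      intro g
      have h2 : F.map k2 ≫ HMg_out P 0 y = h := hk2
      rw [← h2, T.th_comp, T.th_map, HMg_th_out, add_zero]
    calc F.map k2 = F.map k2 ≫ ∑ g, HMg_out P g y ≫ HMg_in P g y := by rw [HMg_out_in, Category.comp_id]
      _ = _ := by
        rw [Preadditive.comp_sum]
        refine Finset.sum_congr rfl fun g _ => ?_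
        rw [← Category.assoc, h1]

private theorem HMg_s_a {T : ThH K F Γ} (P : FunT T) (g h : Γ) : P.s g ≫ F.map (P.a h) = P.s (g + h) := by
  rw [P.F_a, Preadditive.comp_sum, Finset.sum_eq_single g]
  · rw [← Category.assoc, P.sq, if_pos rfl, Category.id_comp]
  · intro k _ hk
    rw [← Category.assoc, P.sq, if_neg hk.symm, Limits.zero_comp]
  · intro h0
    exact absurd (Finset.mem_univ _) h0

private theorem HMg_a_q {T : ThH K F Γ} (P : FunT T) (g : Γ) : F.map (P.a (-g)) ≫ P.q 0 = P.q g := by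
  rw [P.F_a, Preadditive.sum_comp, Finset.sum_eq_single g]
  · rw [Category.assoc, P.sq, if_pos (add_neg_cancel g), Category.comp_id]
  · intro k _ hk
    rw [Category.assoc, P.sq, if_neg, Limits.comp_zero]
    intro h0
    exact hk (by rwa [← sub_eq_add_neg, sub_eq_zero] at h0)
  · intro h0
    exact absurd (Finset.mem_univ _) h0

/-- the de-equivariantization -/
def FunT.dqH {T : ThH K F Γ} (P : FunT T) (h1 : ∀ f : 𝟙_ D ⟶ 𝟙_ D, ∃ c : K, f = c • 𝟙 _) :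
    DqH K F P.L.S Γ where
  map_add := T.map_add
  map_smul := T.map_smul
  chi := P.q 0
  one_chi :=
    (congrArg (fun t : F.obj (𝟙_ C) ⟶ F.obj P.x => t ≫ P.q 0) (HMg_one P)).trans (HMg_one_chi P)
  mul_chi :=
    (congrArg (fun t : F.obj (P.x ⊗ P.x) ⟶ F.obj P.x => t ≫ P.q 0) (HMg_mul P)).trans (HMg_mul_chi P)
  univ h := HMg_univ P h
  dom := T.dom
  gal := P.gal h1
  th := T.th
  th_comp := T.th_comp
  th_add := T.th_add
  th_map := T.th_map
  th_zero := T.th_zero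
  th_th := T.th_th
  th_ten := T.th_ten
  th_fix := T.th_fix
  s := P.s
  th_s := P.th_s
  s_a := HMg_s_a P
  s_chi g := P.sq g 0
  s_mul g h :=
    (congrArg (fun t : F.obj (P.x ⊗ P.x) ⟶ F.obj P.x => (P.s g ⊗ₘ P.s h) ≫ μ F P.x P.x ≫ t) (HMg_mul P)).trans
      ((HMg_md (P.s g) (P.s h) P.W.mul).trans (P.W.s_mul g h))
  s_one :=
    (HMg_eo (x := P.x) P.W.one).symm.trans
      (congrArg (fun t : F.obj (𝟙_ C) ⟶ F.obj P.x => ε F ≫ t) (HMg_one P).symm)
  sum := by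
    have h1 : ∀ g, F.map (P.a (-g)) ≫ P.q 0 ≫ P.s g = P.q g ≫ P.s g := by
      intro g
      rw [← Category.assoc, HMg_a_q]
    exact (Finset.sum_congr rfl fun g _ => h1 g).trans P.sum

theorem Eqv.exists_dqH {H : Type} [Group H] [Fintype H] [DecidableEq H] {A : Act K H D}
    [Limits.HasFiniteBiproducts D] (E : Eqv K A F) (h1 : ∀ f : 𝟙_ D ⟶ 𝟙_ D, ∃ c : K, f = c • 𝟙 _) :
    ∃ S : SFrob C, Nonempty (DqH K F S (Additive H)) := by
  obtain ⟨x, s, q, sq, sum, th_s, th_q⟩ := E.exists_fun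
  exact ⟨_, ⟨(FunT.mk (T := E.thH) x s q sq sum th_s th_q).dqH h1⟩⟩

end Pool.Agent.SFC
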