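import Pool.Agent.SFC.AMop
import Pool.Agent.SFC.E1i
import Pool.Agent.SFC.E2l
import Pool.Agent.SFC.HF
import Pool.Agent.SFC.HI
import Pool.Agent.SFC.HK
import Pool.Agent.SFC.HMg
import Pool.Agent.SFC.Fnf
import Pool.Agent.SFH.Defs

/-!
# SFC/HL: equivariantization by a finite group: the bimodules over the algebra of functions are an extension
-/

set_option autoImplicit false

noncomputable section

open CategoryTheory MonoidalCategory
open scoped BigOperators

namespace Pool.Agent.SFC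

open Pool.Agent.NFG

universe v u v' u' w

section

variable {K : Type w} [Field K] {C : Type u} [Category.{v} C] [Preadditive C] [Linear K C] [MonoidalCategory C]

/-- multiplicative notation: `a' g = a (-g)` -/
def GalH.toMulG {S : SFrob C} {H : Type} [Group H] [Fintype H] (G : GalH K S (Additive H)) : GalG K S H where
  a g := G.a (-Additive.ofMul g)
  a_one := by
    show G.a (-(0 : Additive H)) = _
    rw [neg_zero, G.zero]
  a_mul g h := by
    show G.a (-(Additive.ofMul g + Additive.ofMul h)) = _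
    rw [neg_add_rev, G.add]
  mul g := G.mul _
  one g := G.one _
  cm g := G.cm _
  cn g := G.cn _
  sum := by
    rw [← G.sum]
    exact Fintype.sum_equiv (Additive.ofMul.trans (Equiv.neg (Additive H))) _ _ fun g => rfl
  orth g h := G.orth _ (fun h' => h (by
    have h2 : Additive.ofMul g = 0 := neg_eq_zero.1 h'
    rw [← toMul_ofMul g, h2]; rfl))
  conn := G.conn
  dim := by rw [Fintype.card_congr (Additive.ofMul : H ≃ Additive H)]; exact G.dim

end

variable {K : Type w} [Field K] {C : Type u} [Category.{v} C] [Preadditive C] [Linear K C] [MonoidalCategory C]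
  [MonoidalPreadditive C] [MonoidalLinear K C] {D : Type u'} [Category.{v'} D] [Preadditive D] [Linear K D]
  [MonoidalCategory D] [MonoidalPreadditive D] [MonoidalLinear K D]

theorem DqH.exists_ext [IsIdempotentComplete C] [IsIdempotentComplete D] {F : C ⥤ D} [F.Monoidal] {S : SFrob C}
    {Γ : Type} [AddGroup Γ] [Fintype Γ] [DecidableEq Γ] (Q : DqH K F S Γ) {ι : Type} [Fintype ι] [DecidableEq ι]
    (FN : Fus K (Bim S) ι) : ∃ (G' : D ⥤ Bim S) (_ : G'.Monoidal) (deg : ι → Multiplicative Γ),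
      IsExt K G' FN (Multiplicative Γ) deg := by
  obtain ⟨R, ⟨adj⟩⟩ := Q.toDq.exists_adj
  letI := adj.rightAdjointLaxMonoidal
  obtain ⟨φ, hφ, hiso⟩ := Q.toDq.exists_phi adj
  letI := φ.mon hiso (Q.toDq.mu_iso adj φ hφ)
  have h0 : 𝟙 S.A ≠ 0 := by
    intro h
    apply fus_one_ne FN
    apply Bim.hom_ext
    exact (Bim.unt_p S).trans h
  exact ⟨φ.LBf, inferInstance, Q.ext_of adj φ hφ h0 (fun M N k => Q.pr_ten M N k) FN⟩

/-- the core: an action of `Γ` on the spaces `Hom (F x, F y)` and the algebra of functions -/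
theorem FunT.exists_ext [IsIdempotentComplete C] [IsIdempotentComplete D] {F : C ⥤ D} [F.Monoidal] {Γ : Type}
    [AddGroup Γ] [Fintype Γ] [DecidableEq Γ] {T : ThH K F Γ} (P : FunT T)
    (h1 : ∀ f : 𝟙_ D ⟶ 𝟙_ D, ∃ c : K, f = c • 𝟙 _) : ∃ (S : SFrob C) (_ : GalH K S Γ),
      ∀ {ι : Type} [Fintype ι] [DecidableEq ι] (FN : Fus K (Bim S) ι), ∃ (G' : D ⥤ Bim S) (_ : G'.Monoidal)
        (deg : ι → Multiplicative Γ), IsExt K G' FN (Multiplicative Γ) deg :=
  ⟨_, (P.dqH h1).gal, fun {ι} _ _ FN => (P.dqH h1).exists_ext FN⟩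

/-- E1 and E2 for a finite group -/
theorem eqv_extG [Limits.HasFiniteBiproducts D] [IsIdempotentComplete C] [IsIdempotentComplete D] {H : Type}
    [Group H] [Fintype H] {A : Act K H D} {F : C ⥤ D} [F.Monoidal] (E : Eqv K A F) {ιD : Type} [Fintype ιD]
    [DecidableEq ιD] (FD : Fus K D ιD) : ∃ (S : SFrob C) (_ : GalG K S H), ∀ {ι : Type} [Fintype ι] [DecidableEq ι]
      (FN : Fus K (Bim S) ι), ∃ (G' : D ⥤ Bim S) (_ : G'.Monoidal) (deg : ι → H), IsExt K G' FN H deg := by
  classical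
  obtain ⟨S, ⟨Q⟩⟩ := E.exists_dqH (fus_end1 FD)
  refine ⟨S, Q.gal.toMulG, fun {ι} _ _ FN => ?_⟩
  obtain ⟨G', hG', deg, h⟩ := Q.exists_ext FN
  exact ⟨G', hG', fun j => (deg j).toAdd.toMul,
    { full := h.full
      faithful := h.faithful
      map_add := h.map_add
      map_smul := h.map_smul
      occ := fun i j k hk => congrArg (fun t : Multiplicative (Additive H) => t.toAdd.toMul) (h.occ i j k hk)
      surj := fun q => by
        obtain ⟨i, hi⟩ := h.surj (Multiplicative.ofAdd (Additive.ofMul q))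
        exact ⟨i, congrArg (fun t : Multiplicative (Additive H) => t.toAdd.toMul) hi⟩
      img := fun i hi => h.img i (congrArg (fun t : H => Multiplicative.ofAdd (Additive.ofMul t)) hi)
      one := fun y i f hf => congrArg (fun t : Multiplicative (Additive H) => t.toAdd.toMul) (h.one y i f hf) }⟩

open Functor.LaxMonoidal Functor.OplaxMonoidal

variable (F : D ⥤ C) [F.Monoidal]

/-- the image of a Galois algebra -/
def GalG.map {S : SFrob D} {H : Type} [Group H] [Fintype H] (Ga : GalG K S H) (hfull : F.Full)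
    (hadd : ∀ {x y : D} (f g : x ⟶ y), F.map (f + g) = F.map f + F.map g)
    (hsmul : ∀ {x y : D} (c : K) (f : x ⟶ y), F.map (c • f) = c • F.map f) : GalG K (S.map F) H where
  a g := F.map (Ga.a g)
  a_one := (congrArg (fun t => F.map t) Ga.a_one).trans (F.map_id _)
  a_mul g h := (congrArg (fun t => F.map t) (Ga.a_mul g h)).trans (F.map_comp _ _)
  mul g := by
    show (F.map (Ga.a g) ⊗ₘ F.map (Ga.a g)) ≫ μ F _ _ ≫ F.map S.mul = (μ F _ _ ≫ F.map S.mul) ≫ F.map (Ga.a g)
    rw [μ_natural_assoc, ← F.map_comp, Ga.mul, F.map_comp, Category.assoc]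
  one g := by
    show (ε F ≫ F.map S.one) ≫ F.map (Ga.a g) = ε F ≫ F.map S.one
    rw [Category.assoc, ← F.map_comp, Ga.one]
  cm g := by
    show (F.map S.cm ≫ δ F _ _) ≫ (F.map (Ga.a g) ⊗ₘ F.map (Ga.a g)) = F.map (Ga.a g) ≫ F.map S.cm ≫ δ F _ _
    rw [Category.assoc, δ_natural, ← F.map_comp_assoc, Ga.cm, F.map_comp, Category.assoc]
  cn g := by
    show F.map (Ga.a g) ≫ F.map S.cn ≫ η F = F.map S.cn ≫ η F
    rw [← F.map_comp_assoc, Ga.cn]
  sum := by
    show ∑ g, F.map (Ga.a g) = (F.map S.cn ≫ η F) ≫ ε F ≫ F.map S.one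
    have h1 : ∑ g, F.map (Ga.a g) = F.map (∑ g, Ga.a g) :=
      (map_sum (AddMonoidHom.mk' (fun f : S.A ⟶ S.A => F.map f) (fun f g => hadd f g)) Ga.a Finset.univ).symm
    rw [h1, Ga.sum]
    simp
  orth g h := by
    show (F.map S.cm ≫ δ F _ _) ≫ F.obj S.A ◁ F.map (Ga.a g) ≫ μ F _ _ ≫ F.map S.mul = 0
    have h1 : (F.map S.cm ≫ δ F _ _) ≫ F.obj S.A ◁ F.map (Ga.a g) ≫ μ F _ _ ≫ F.map S.mul =
        F.map (S.cm ≫ S.A ◁ Ga.a g ≫ S.mul) := by
      rw [μ_natural_right_assoc, Category.assoc, Functor.Monoidal.δ_μ_assoc, F.map_comp, F.map_comp]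
    rw [h1, Ga.orth g h]
    have := hsmul (0 : K) (0 : S.A ⟶ S.A)
    rwa [zero_smul, zero_smul] at this
  conn t := by
    obtain ⟨g, hg⟩ := hfull.map_surjective (η F ≫ t)
    obtain ⟨c, hc⟩ := Ga.conn g
    refine ⟨c, ?_⟩
    have h1 : t = ε F ≫ η F ≫ t := by simp
    have h2 : F.map g = c • F.map S.one := by rw [hc]; exact hsmul c _
    have h3 : ε F ≫ F.map g = c • (ε F ≫ F.map S.one) := by rw [h2, Linear.comp_smul]
    exact h1.trans ((congrArg (fun x => ε F ≫ x) hg.symm).trans h3)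
  dim := by
    show (ε F ≫ F.map S.one) ≫ F.map S.cn ≫ η F = _
    rw [Category.assoc, ← F.map_comp_assoc, Ga.dim, hsmul, F.map_id, Linear.smul_comp, Linear.comp_smul,
      Category.id_comp, Functor.Monoidal.ε_η]

/-- Fn for extensions and Galois algebras -/
theorem ext_fnG {G : D ⥤ C} [G.Monoidal] {ι : Type} [Fintype ι] [DecidableEq ι] {FC : Fus K C ι} {Q : Type} [Group Q]
    {deg : ι → Q} (h : IsExt K G FC Q deg) {S : SFrob D} {H : Type} [Group H] [Fintype H] (Ga : GalG K S H) :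
    ∃ (S' : SFrob C) (_ : GalG K S' H) (G' : Bim S ⥤ Bim S') (_ : G'.Monoidal), G'.Full ∧
      G'.Faithful ∧ (∀ {x y : Bim S} (f g : x ⟶ y), G'.map (f + g) = G'.map f + G'.map g) ∧
      (∀ {x y : Bim S} (c : K) (f : x ⟶ y), G'.map (c • f) = c • G'.map f) ∧
      (∀ y : D, Nonempty (G'.obj ((VF S).obj y) ≅ (VF S').obj (G.obj y))) ∧ Nonempty (S'.A ≅ G.obj S.A) :=
  ⟨S.map G, Ga.map G h.full h.map_add h.map_smul, (AlgIso.refl G S).FBf, (AlgIso.refl G S).mon,
    (AlgIso.refl G S).full h.faithful h.full, (AlgIso.refl G S).faithful h.faithful,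
    fun f g => Bim.hom_ext (h.map_add _ _), fun c f => Bim.hom_ext (h.map_smul _ _),
    fun y => ⟨((AlgIso.refl G S).VV y).symm⟩, ⟨Iso.refl _⟩⟩

end Pool.Agent.SFC
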