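import Pool.Agent.SFC.E1f
import Pool.Agent.SFC.E1g
import Pool.Agent.SFC.HG

/-!
# SFC/HMa: group actions on `Hom (F x, F y)`

`ThH K F Γ`: the group `Γ` acts on the spaces `Hom (F x, F y)`, compatibly with composition and tensor product, with invariants `F (Hom (x, y))`.  For an equivariantization by `H` this is `E.th` (SFC/E1e), `Γ = Additive H`.
`exists_fun`: the object `W := ⨁ fun _ : H => 𝟙_ D` with `z g := ∑ h, (A.T g).map (biproduct.π _ h) ≫ η (A.T g) ≫ biproduct.ι _ (g * h) : T g W ⟶ W` satisfies the hypotheses of `E.ess` (`Act.one_unit`, `Act.comp_unit` of SFC/E1f; compare SFC/E1g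
for the computation with the biproduct).  So there are `x` and `i : F x ≅ W` with `(A.T g).map i.hom ≫ z g = (u g).hom.app x ≫ i.hom`; `s h := ι h ≫ i.inv`, `q h := i.hom ≫ π h`.
`th_q`: `E.th g (q h ≫ ε F) = (u g)⁻¹ ≫ (A.T g).map (i.hom ≫ π h) ≫ (A.T g).map (ε F) ≫ (u g)_𝟙 = (u g)⁻¹ ≫ (A.T g).map i.hom ≫ (A.T g).map (π h) ≫ η (A.T g) ≫ ε F` (`Eqv.u_unit` of SFC/E1f) and
`(A.T g).map (π h) ≫ η (A.T g) = z g ≫ π (g * h)`.  `th_s`: apply `th_comp` to `(q h' ≫ ε F) ≫ (η F ≫ s h)`, or directly.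
-/

set_option autoImplicit false

noncomputable section

open CategoryTheory MonoidalCategory
open scoped BigOperators

namespace Pool.Agent.SFC

universe v u v' u' w

open Functor.LaxMonoidal Functor.OplaxMonoidal

/-- an action of `Γ` on the spaces `Hom (F x, F y)` with invariants `F (Hom (x, y))` -/
structure ThH (K : Type w) [Field K] {C : Type u} [Category.{v} C] [Preadditive C] [Linear K C] [MonoidalCategory C]
    {D : Type u'} [Category.{v'} D] [Preadditive D] [Linear K D] [MonoidalCategory D] (F : C ⥤ D) [F.Monoidal]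
    (Γ : Type) [AddGroup Γ] where
  map_add : ∀ {x y : C} (f g : x ⟶ y), F.map (f + g) = F.map f + F.map g
  map_smul : ∀ {x y : C} (c : K) (f : x ⟶ y), F.map (c • f) = c • F.map f
  th : Γ → ∀ {x y : C}, (F.obj x ⟶ F.obj y) → (F.obj x ⟶ F.obj y)
  th_comp : ∀ (g : Γ) {x y z : C} (h : F.obj x ⟶ F.obj y) (k : F.obj y ⟶ F.obj z), th g (h ≫ k) = th g h ≫ th g k
  th_add : ∀ (g : Γ) {x y : C} (h k : F.obj x ⟶ F.obj y), th g (h + k) = th g h + th g k
  th_smul : ∀ (g : Γ) {x y : C} (c : K) (h : F.obj x ⟶ F.obj y), th g (c • h) = c • th g h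
  th_map : ∀ (g : Γ) {x y : C} (f : x ⟶ y), th g (F.map f) = F.map f
  th_zero : ∀ {x y : C} (h : F.obj x ⟶ F.obj y), th 0 h = h
  th_th : ∀ (g g' : Γ) {x y : C} (h : F.obj x ⟶ F.obj y), th (g + g') h = th g (th g' h)
  th_ten : ∀ (g : Γ) {x y x' y' : C} (h : F.obj x ⟶ F.obj y) (k : F.obj x' ⟶ F.obj y'),
    th g (δ F x x' ≫ (h ⊗ₘ k) ≫ μ F y y') = δ F x x' ≫ (th g h ⊗ₘ th g k) ≫ μ F y y'
  th_fix : ∀ {x y : C} (h : F.obj x ⟶ F.obj y), (∀ g, th g h = h) → ∃! f : x ⟶ y, F.map f = h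
  dom : ∀ Z : D, ∃ (x : C) (i : Z ⟶ F.obj x) (p : F.obj x ⟶ Z), i ≫ p = 𝟙 Z

variable {K : Type w} [Field K] {C : Type u} [Category.{v} C] [Preadditive C] [Linear K C] [MonoidalCategory C]
  {D : Type u'} [Category.{v'} D] [Preadditive D] [Linear K D] [MonoidalCategory D] {F : C ⥤ D} [F.Monoidal]

theorem ThH.faithful {Γ : Type} [AddGroup Γ] (T : ThH K F Γ) {x y : C} {f g : x ⟶ y} (h : F.map f = F.map g) :
    f = g := by
  obtain ⟨k, -, hk⟩ := T.th_fix (F.map g) (fun a => T.th_map a g)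
  rw [hk f h, hk g rfl]

variable {H : Type} [Group H] [Fintype H] [DecidableEq H] {A : Act K H D} [Limits.HasFiniteBiproducts D]

/-- the action for an equivariantization -/
def Eqv.thH (E : Eqv K A F) : ThH K F (Additive H) where
  map_add := E.map_add
  map_smul := E.map_smul
  th g _ _ h := E.th g.toMul h
  th_comp g _ _ _ h k := E.th_comp g.toMul h k
  th_add g _ _ h k := E.th_add g.toMul h k
  th_smul g _ _ c h := E.th_smul g.toMul c h
  th_map g _ _ f := E.th_map g.toMul f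
  th_zero h := E.th_one h
  th_th g g' _ _ h := E.th_mul g.toMul g'.toMul h
  th_ten g _ _ _ _ h k := E.th_ten g.toMul h k
  th_fix h hh := E.th_fix h (fun g => hh (Additive.ofMul g))
  dom := E.dom

section HMaAux

variable (D) in
/-- the functions on `H` -/
private def HMa_W (H : Type) [Fintype H] : D := ⨁ fun _ : H => 𝟙_ D

variable (D) in
private def HMa_p (h : H) : HMa_W D H ⟶ 𝟙_ D := Limits.biproduct.π (fun _ : H => 𝟙_ D) h

variable (D) in
private def HMa_j (h : H) : 𝟙_ D ⟶ HMa_W D H := Limits.biproduct.ι (fun _ : H => 𝟙_ D) h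

private theorem HMa_ext {W : D} {f f' : W ⟶ HMa_W D H}
    (h : ∀ g, f ≫ HMa_p D g = f' ≫ HMa_p D g) : f = f' :=
  Limits.biproduct.hom_ext _ _ h

variable (A) in
private def HMa_z (g : H) : (A.T g).obj (HMa_W D H) ⟶ HMa_W D H :=
  Limits.biproduct.lift fun k => (A.T g).map (HMa_p D (g⁻¹ * k)) ≫ η (A.T g)

private theorem HMa_zπ (g h k : H) (e : g * h = k) :
    HMa_z A g ≫ HMa_p D k = (A.T g).map (HMa_p D h) ≫ η (A.T g) := by
  obtain rfl : h = g⁻¹ * k := by rw [← e, inv_mul_cancel_left]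
  exact Limits.biproduct.lift_π _ _

private theorem HMa_one : A.one.hom.app (HMa_W D H) ≫ HMa_z A 1 = 𝟙 _ := by
  apply HMa_ext
  intro k
  have h1 := A.one.hom.naturality (HMa_p D k)
  rw [Functor.id_map] at h1
  have h2 := A.one_unit
  rw [Category.assoc, HMa_zπ 1 k k (one_mul k)]
  rw [← reassoc_of% h1, Category.id_comp]
  erw [h2]
  exact Category.comp_id _

private theorem HMa_mul (g h gh : H) (e : g * h = gh) :
    (A.T g).map (HMa_z A h) ≫ HMa_z A g = (A.comp g h gh e).hom.app (HMa_W D H) ≫ HMa_z A gh := by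
  apply HMa_ext
  intro k
  obtain ⟨m, hm⟩ : ∃ m, g * m = k := ⟨g⁻¹ * k, mul_inv_cancel_left g k⟩
  obtain ⟨l, hl⟩ : ∃ l, h * l = m := ⟨h⁻¹ * m, mul_inv_cancel_left h m⟩
  have hk : gh * l = k := by rw [← e, mul_assoc, hl, hm]
  have h1 := (A.comp g h gh e).hom.naturality (HMa_p D l)
  have h2 := A.comp_unit g h gh e
  rw [Functor.comp_map] at h1
  rw [Category.assoc, Category.assoc, HMa_zπ g m k hm, HMa_zπ gh l k hk, ← Functor.map_comp_assoc,
    HMa_zπ h l m hl, Functor.map_comp, Category.assoc, h2, reassoc_of% h1]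

end HMaAux

theorem Eqv.exists_fun [MonoidalPreadditive D] [MonoidalLinear K D] (E : Eqv K A F) :
    ∃ (x : C) (s : Additive H → (𝟙_ D ⟶ F.obj x)) (q : Additive H → (F.obj x ⟶ 𝟙_ D)),
      (∀ g h, s g ≫ q h = if g = h then 𝟙 (𝟙_ D) else 0) ∧ ∑ g, q g ≫ s g = 𝟙 (F.obj x) ∧
      (∀ g h, E.thH.th g (η F ≫ s h) = η F ≫ s (g + h)) ∧ ∀ g h, E.thH.th g (q h ≫ ε F) = q (g + h) ≫ ε F := by
  obtain ⟨x, i, hi⟩ := E.ess (HMa_W D H) (HMa_z A) HMa_one HMa_mul
  let p : H → (HMa_W D H ⟶ 𝟙_ D) := HMa_p D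
  let j : H → (𝟙_ D ⟶ HMa_W D H) := HMa_j D
  have hjp : ∀ g h, j g ≫ p h = if g = h then 𝟙 (𝟙_ D) else 0 := by
    intro g h
    by_cases hgh : g = h
    · subst hgh
      rw [if_pos rfl]
      exact Limits.biproduct.ι_π_self _ _
    · rw [if_neg hgh]
      exact Limits.biproduct.ι_π_ne _ hgh
  have hsum : ∑ g, p g ≫ j g = 𝟙 (HMa_W D H) := by
    exact Limits.biproduct.total
  have hsq : ∀ g h : H, (j g ≫ i.inv) ≫ (i.hom ≫ p h) = if g = h then 𝟙 (𝟙_ D) else 0 := by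
    intro g h
    rw [Category.assoc, Iso.inv_hom_id_assoc, hjp]
  have hqs : ∑ g : H, (i.hom ≫ p g) ≫ (j g ≫ i.inv) = 𝟙 (F.obj x) := by
    have : ∀ g : H, (i.hom ≫ p g) ≫ (j g ≫ i.inv) = i.hom ≫ (p g ≫ j g) ≫ i.inv := by
      intro g
      simp only [Category.assoc]
    rw [Finset.sum_congr rfl fun g _ => this g, ← Preadditive.comp_sum, ← Preadditive.sum_comp, hsum,
      Category.id_comp, Iso.hom_inv_id]
  have hq : ∀ g h : H, E.th g ((i.hom ≫ p h) ≫ ε F) = (i.hom ≫ p (g * h)) ≫ ε F := by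
    intro g h
    have h1 := HMa_zπ (A := A) g h (g * h) rfl
    have h2 := hi g
    rw [Eqv.th, Functor.map_comp, Functor.map_comp, Category.assoc, Category.assoc, E.u_unit g]
    have h3 : (A.T g).map (p h) ≫ η (A.T g) ≫ ε F = HMa_z A g ≫ p (g * h) ≫ ε F := by
      rw [← Category.assoc, ← Category.assoc]
      exact congrArg (· ≫ ε F) h1.symm
    rw [h3, reassoc_of% h2, Iso.inv_hom_id_app_assoc, Category.assoc]
  have hs : ∀ g h : H, E.th g (η F ≫ (j h ≫ i.inv)) = η F ≫ (j (g * h) ≫ i.inv) := by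
    intro g h
    have h1 : ∀ k : H, E.th g (η F ≫ (j h ≫ i.inv)) ≫ (i.hom ≫ p (g * k)) =
        (η F ≫ (j (g * h) ≫ i.inv)) ≫ (i.hom ≫ p (g * k)) := by
      intro k
      have h2 := E.th_comp g (η F ≫ (j h ≫ i.inv)) ((i.hom ≫ p k) ≫ ε F)
      rw [hq g k] at h2
      have h3 : (η F ≫ (j h ≫ i.inv)) ≫ ((i.hom ≫ p k) ≫ ε F) = if h = k then 𝟙 _ else 0 := by
        have h4 : (η F ≫ (j h ≫ i.inv)) ≫ ((i.hom ≫ p k) ≫ ε F) =
            η F ≫ ((j h ≫ i.inv) ≫ (i.hom ≫ p k)) ≫ ε F := by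
          simp only [Category.assoc]
        rw [h4, hsq]
        by_cases hk : h = k
        · rw [if_pos hk, if_pos hk, Category.id_comp, Functor.Monoidal.η_ε]
        · rw [if_neg hk, if_neg hk, Limits.zero_comp, Limits.comp_zero]
      have h5 : (η F ≫ (j (g * h) ≫ i.inv)) ≫ ((i.hom ≫ p (g * k)) ≫ ε F) = if h = k then 𝟙 _ else 0 := by
        have h4 : (η F ≫ (j (g * h) ≫ i.inv)) ≫ ((i.hom ≫ p (g * k)) ≫ ε F) =
            η F ≫ ((j (g * h) ≫ i.inv) ≫ (i.hom ≫ p (g * k))) ≫ ε F := by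
          simp only [Category.assoc]
        rw [h4, hsq]
        by_cases hk : h = k
        · rw [if_pos (by rw [hk]), if_pos hk, Category.id_comp, Functor.Monoidal.η_ε]
        · rw [if_neg (fun hh => hk (mul_left_cancel hh)), if_neg hk, Limits.zero_comp, Limits.comp_zero]
      have h6 : E.th g (if h = k then 𝟙 (F.obj (𝟙_ C)) else 0) = if h = k then 𝟙 (F.obj (𝟙_ C)) else 0 := by
        by_cases hk : h = k
        · rw [if_pos hk, ← F.map_id, E.th_map]
        · rw [if_neg hk]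
          have h7 := E.th_smul g (0 : K) (0 : F.obj (𝟙_ C) ⟶ F.obj (𝟙_ C))
          rwa [zero_smul, zero_smul] at h7
      rw [h3, h6, ← h5, ← Category.assoc, ← Category.assoc] at h2
      have h8 := congrArg (· ≫ η F) h2
      simp only [Category.assoc, Functor.Monoidal.ε_η, Category.comp_id] at h8
      simp only [Category.assoc]
      exact h8.symm
    have h9 : ∀ f : F.obj (𝟙_ C) ⟶ F.obj x, f = ∑ k : H, (f ≫ (i.hom ≫ p k)) ≫ (j k ≫ i.inv) := by
      intro f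
      have : ∀ k : H, (f ≫ (i.hom ≫ p k)) ≫ (j k ≫ i.inv) = f ≫ ((i.hom ≫ p k) ≫ (j k ≫ i.inv)) := by
        intro k
        rw [Category.assoc]
      rw [Finset.sum_congr rfl fun k _ => this k, ← Preadditive.comp_sum, hqs, Category.comp_id]
    rw [h9 (E.th g (η F ≫ (j h ≫ i.inv))), h9 (η F ≫ (j (g * h) ≫ i.inv))]
    refine Finset.sum_congr rfl fun k _ => ?_
    obtain ⟨m, rfl⟩ : ∃ m, g * m = k := ⟨g⁻¹ * k, mul_inv_cancel_left g k⟩
    rw [h1 m]
  refine ⟨x, fun h => j h.toMul ≫ i.inv, fun h => i.hom ≫ p h.toMul, fun g h => ?_, ?_, fun g h => ?_, fun g h => ?_⟩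
  · have := hsq g.toMul h.toMul
    refine this.trans ?_
    by_cases hgh : g = h
    · rw [if_pos (by rw [hgh]), if_pos hgh]
    · rw [if_neg (fun hh => hgh (Additive.toMul.injective hh)), if_neg hgh]
  · exact (Fintype.sum_equiv (Additive.toMul (α := H)) _ _ (fun _ => rfl)).trans hqs
  · exact hs g.toMul h.toMul
  · exact hq g.toMul h.toMul

end Pool.Agent.SFC
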