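import Pool.Agent.SFC.Fnb
import Pool.Agent.SFC.DefsG

/-!
# SFC/HMc: the algebra of functions; lifting of algebras

`B = ⨁ 𝟙` with inclusions `s g` and projections `q g`: the special Frobenius algebra `funS` with `mul = ∑ g, (q g ⊗ₘ q g) ≫ λ ≫ s g`, `one = ∑ g, s g`, `cm = ∑ g, q g ≫ λ⁻¹ ≫ (s g ⊗ₘ s g)`, `cn = ∑ g, q g`.
Principle for the axioms: maps from `B`, `B ⊗ B`, `(B ⊗ B) ⊗ B` are equal if they agree after `s g`, `s g ⊗ₘ s h`, `(s g ⊗ₘ s h) ⊗ₘ s k` (`∑ g, q g ≫ s g = 𝟙`), and `(s g ⊗ₘ s h) ≫ mul = if g = h then λ ≫ s g else 0`,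
`s g ≫ cm = λ⁻¹ ≫ (s g ⊗ₘ s g)`, `s g ≫ cn = 𝟙`; coherence in `𝟙 ⊗ 𝟙 ⊗ 𝟙` (`monoidal` or `simp`).
`SFrob.lift`: `F` faithful and monoidal, `S' : SFrob D`, `i : F x ≅ S'.A`, and the structure maps of `S'` correspond to `F mul`, .. for maps of `C`.  Then the axioms hold in `C` (apply `F.map`, and conjugate with `i`).
-/

set_option autoImplicit false

noncomputable section

open CategoryTheory MonoidalCategory
open scoped BigOperators

namespace Pool.Agent.SFC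

universe v u v' u' w

open Functor.LaxMonoidal Functor.OplaxMonoidal

/-- a direct sum of copies of `𝟙` -/
structure FunO (D : Type u') [Category.{v'} D] [Preadditive D] [MonoidalCategory D] (Γ : Type) [Fintype Γ]
    [DecidableEq Γ] where
  B : D
  s : Γ → (𝟙_ D ⟶ B)
  q : Γ → (B ⟶ 𝟙_ D)
  sq : ∀ g h, s g ≫ q h = if g = h then 𝟙 (𝟙_ D) else 0
  sum : ∑ g, q g ≫ s g = 𝟙 B

section

variable {D : Type u'} [Category.{v'} D] [Preadditive D] [MonoidalCategory D] [MonoidalPreadditive D] {Γ : Type}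
  [Fintype Γ] [DecidableEq Γ] (W : FunO D Γ)

/-- multiplication -/
def FunO.mul : W.B ⊗ W.B ⟶ W.B := ∑ g, (W.q g ⊗ₘ W.q g) ≫ (λ_ (𝟙_ D)).hom ≫ W.s g

/-- unit -/
def FunO.one : 𝟙_ D ⟶ W.B := ∑ g, W.s g

/-- comultiplication -/
def FunO.cm : W.B ⟶ W.B ⊗ W.B := ∑ g, W.q g ≫ (λ_ (𝟙_ D)).inv ≫ (W.s g ⊗ₘ W.s g)

/-- counit -/
def FunO.cn : W.B ⟶ 𝟙_ D := ∑ g, W.q g

theorem FunO.s_mul (g h : Γ) : (W.s g ⊗ₘ W.s h) ≫ W.mul = if g = h then (λ_ (𝟙_ D)).hom ≫ W.s g else 0 := by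
  rw [FunO.mul, Preadditive.comp_sum, Finset.sum_eq_single g]
  · rw [MonoidalCategory.tensorHom_comp_tensorHom_assoc, W.sq, W.sq, if_pos rfl]
    by_cases hg : g = h
    · rw [if_pos hg.symm, if_pos hg, id_tensorHom_id, Category.id_comp]
    · rw [if_neg (fun e => hg e.symm), if_neg hg, MonoidalCategory.tensorHom_def, MonoidalPreadditive.whiskerLeft_zero,
        Limits.comp_zero, Limits.zero_comp]
  · intro k _ hk
    rw [MonoidalCategory.tensorHom_comp_tensorHom_assoc, W.sq, if_neg (fun e => hk e.symm),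
      MonoidalCategory.tensorHom_def, MonoidalPreadditive.zero_whiskerRight, Limits.zero_comp, Limits.zero_comp]
  · intro hg
    exact absurd (Finset.mem_univ _) hg

theorem FunO.s_cm (g : Γ) : W.s g ≫ W.cm = (λ_ (𝟙_ D)).inv ≫ (W.s g ⊗ₘ W.s g) := by
  rw [FunO.cm, Preadditive.comp_sum, Finset.sum_eq_single g]
  · rw [← Category.assoc, W.sq, if_pos rfl, Category.id_comp]
  · intro k _ hk
    rw [← Category.assoc, W.sq, if_neg (fun e => hk e.symm), Limits.zero_comp]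
  · intro hg
    exact absurd (Finset.mem_univ _) hg

theorem FunO.s_cn (g : Γ) : W.s g ≫ W.cn = 𝟙 _ := by
  rw [FunO.cn, Preadditive.comp_sum, Finset.sum_eq_single g]
  · rw [W.sq, if_pos rfl]
  · intro k _ hk
    rw [W.sq, if_neg (fun e => hk e.symm)]
  · intro hg
    exact absurd (Finset.mem_univ _) hg

private theorem HMc_ext {Z : D} {f f' : W.B ⟶ Z} (h : ∀ g, W.s g ≫ f = W.s g ≫ f') : f = f' := by
  rw [← Category.id_comp f, ← Category.id_comp f', ← W.sum, Preadditive.sum_comp, Preadditive.sum_comp]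
  exact Finset.sum_congr rfl fun g _ => by rw [Category.assoc, Category.assoc, h g]

private theorem HMc_extL (X : D) {Z : D} {f f' : X ⊗ W.B ⟶ Z} (h : ∀ g, X ◁ W.s g ≫ f = X ◁ W.s g ≫ f') :
    f = f' := by
  rw [← Category.id_comp f, ← Category.id_comp f', ← whiskerLeft_id, ← W.sum, whiskerLeft_sum,
    Preadditive.sum_comp, Preadditive.sum_comp]
  exact Finset.sum_congr rfl fun g _ => by
    rw [MonoidalCategory.whiskerLeft_comp, Category.assoc, Category.assoc, h g]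

private theorem HMc_extR (X : D) {Z : D} {f f' : W.B ⊗ X ⟶ Z} (h : ∀ g, W.s g ▷ X ≫ f = W.s g ▷ X ≫ f') :
    f = f' := by
  rw [← Category.id_comp f, ← Category.id_comp f', ← id_whiskerRight, ← W.sum, sum_whiskerRight,
    Preadditive.sum_comp, Preadditive.sum_comp]
  exact Finset.sum_congr rfl fun g _ => by
    rw [comp_whiskerRight, Category.assoc, Category.assoc, h g]

private theorem HMc_ext2 {Z : D} {f f' : W.B ⊗ W.B ⟶ Z} (h : ∀ g k, (W.s g ⊗ₘ W.s k) ≫ f = (W.s g ⊗ₘ W.s k) ≫ f') :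
    f = f' := by
  refine HMc_extR W _ fun g => HMc_extL W _ fun k => ?_
  rw [← Category.assoc, ← Category.assoc, ← MonoidalCategory.tensorHom_def', h g k]

private theorem HMc_ext3 {Z : D} {f f' : (W.B ⊗ W.B) ⊗ W.B ⟶ Z}
    (h : ∀ g k l, ((W.s g ⊗ₘ W.s k) ⊗ₘ W.s l) ≫ f = ((W.s g ⊗ₘ W.s k) ⊗ₘ W.s l) ≫ f') : f = f' := by
  refine HMc_extL W _ fun l => ?_
  have h1 : ∀ f : (W.B ⊗ W.B) ⊗ W.B ⟶ Z, (W.B ⊗ W.B) ◁ W.s l ≫ f =
      (ρ_ _).hom ≫ ((ρ_ _).inv ≫ (W.B ⊗ W.B) ◁ W.s l ≫ f) := by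
    intro f
    rw [Iso.hom_inv_id_assoc]
  rw [h1 f, h1 f']
  congr 1
  refine HMc_ext2 W fun g k => ?_
  have h2 : ∀ f : (W.B ⊗ W.B) ⊗ W.B ⟶ Z, (W.s g ⊗ₘ W.s k) ≫ (ρ_ _).inv ≫ (W.B ⊗ W.B) ◁ W.s l ≫ f =
      (ρ_ _).inv ≫ ((W.s g ⊗ₘ W.s k) ⊗ₘ W.s l) ≫ f := by
    intro f
    rw [rightUnitor_inv_naturality_assoc, MonoidalCategory.tensorHom_def (W.s g ⊗ₘ W.s k) (W.s l), Category.assoc]
  rw [h2 f, h2 f', h g k l]

private theorem HMc_s_one : W.one = ∑ g, W.s g := rfl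

/-- the algebra of functions -/
def FunO.S : SFrob D where
  A := W.B
  mul := W.mul
  one := W.one
  cm := W.cm
  cn := W.cn
  one_mul := by
    refine HMc_extL W _ fun h => ?_
    rw [HMc_s_one, sum_whiskerRight, Preadditive.sum_comp, Preadditive.comp_sum, Finset.sum_eq_single h]
    · rw [← Category.assoc, ← MonoidalCategory.tensorHom_def', W.s_mul, if_pos rfl, leftUnitor_naturality]
    · intro k _ hk
      rw [← Category.assoc, ← MonoidalCategory.tensorHom_def', W.s_mul, if_neg hk]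
    · intro hg
      exact absurd (Finset.mem_univ _) hg
  mul_one := by
    refine HMc_extR W _ fun h => ?_
    rw [HMc_s_one, whiskerLeft_sum, Preadditive.sum_comp, Preadditive.comp_sum, Finset.sum_eq_single h]
    · rw [← Category.assoc, ← MonoidalCategory.tensorHom_def, W.s_mul, if_pos rfl, rightUnitor_naturality,
        unitors_equal]
    · intro k _ hk
      rw [← Category.assoc, ← MonoidalCategory.tensorHom_def, W.s_mul, if_neg (fun e => hk e.symm)]
    · intro hg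
      exact absurd (Finset.mem_univ _) hg
  assoc := by
    refine HMc_ext3 W fun g h k => ?_
    have h1 : ((W.s g ⊗ₘ W.s h) ⊗ₘ W.s k) ≫ W.mul ▷ W.B ≫ W.mul =
        (((W.s g ⊗ₘ W.s h) ≫ W.mul) ⊗ₘ W.s k) ≫ W.mul := by
      rw [← tensorHom_id, MonoidalCategory.tensorHom_comp_tensorHom_assoc, Category.comp_id]
    have h2 : ((W.s g ⊗ₘ W.s h) ⊗ₘ W.s k) ≫ (α_ _ _ _).hom ≫ W.B ◁ W.mul ≫ W.mul =
        (α_ _ _ _).hom ≫ (W.s g ⊗ₘ ((W.s h ⊗ₘ W.s k) ≫ W.mul)) ≫ W.mul := by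
      rw [associator_naturality_assoc, ← id_tensorHom, MonoidalCategory.tensorHom_comp_tensorHom_assoc,
        Category.comp_id]
    rw [h1, h2, W.s_mul, W.s_mul]
    by_cases e1 : g = h
    · subst e1
      by_cases e2 : g = k
      · subst e2
        have h3 : (((λ_ (𝟙_ D)).hom ≫ W.s g) ⊗ₘ W.s g) = (λ_ (𝟙_ D)).hom ▷ 𝟙_ D ≫ (W.s g ⊗ₘ W.s g) := by
          rw [← tensorHom_id, MonoidalCategory.tensorHom_comp_tensorHom, Category.id_comp]
        have h4 : (W.s g ⊗ₘ ((λ_ (𝟙_ D)).hom ≫ W.s g)) = 𝟙_ D ◁ (λ_ (𝟙_ D)).hom ≫ (W.s g ⊗ₘ W.s g) := by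
          rw [← id_tensorHom, MonoidalCategory.tensorHom_comp_tensorHom, Category.id_comp]
        rw [if_pos rfl, h3, h4, Category.assoc, Category.assoc, W.s_mul, if_pos rfl]
        monoidal
      · rw [if_pos rfl, if_neg e2]
        have h3 : (((λ_ (𝟙_ D)).hom ≫ W.s g) ⊗ₘ W.s k) = (λ_ (𝟙_ D)).hom ▷ 𝟙_ D ≫ (W.s g ⊗ₘ W.s k) := by
          rw [← tensorHom_id, MonoidalCategory.tensorHom_comp_tensorHom, Category.id_comp]
        rw [h3, Category.assoc, W.s_mul, if_neg e2, Limits.comp_zero, MonoidalCategory.tensorHom_def,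
          MonoidalPreadditive.whiskerLeft_zero, Limits.comp_zero, Limits.zero_comp, Limits.comp_zero]
    · rw [if_neg e1, MonoidalCategory.tensorHom_def (0 : _ ⟶ W.B), MonoidalPreadditive.zero_whiskerRight,
        Limits.zero_comp, Limits.zero_comp]
      by_cases e2 : h = k
      · subst e2
        have h4 : (W.s g ⊗ₘ ((λ_ (𝟙_ D)).hom ≫ W.s h)) = 𝟙_ D ◁ (λ_ (𝟙_ D)).hom ≫ (W.s g ⊗ₘ W.s h) := by
          rw [← id_tensorHom, MonoidalCategory.tensorHom_comp_tensorHom, Category.id_comp]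
        rw [if_pos rfl, h4, Category.assoc, W.s_mul, if_neg e1, Limits.comp_zero, Limits.comp_zero]
      · rw [if_neg e2, MonoidalCategory.tensorHom_def, MonoidalPreadditive.whiskerLeft_zero, Limits.comp_zero,
          Limits.zero_comp, Limits.comp_zero]
  cn_cm := by
    refine HMc_ext W fun g => ?_
    rw [← Category.assoc, W.s_cm, Category.assoc, ← tensorHom_id, MonoidalCategory.tensorHom_comp_tensorHom, W.s_cn,
      Category.comp_id, id_tensorHom, leftUnitor_inv_naturality]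
  cm_cn := by
    refine HMc_ext W fun g => ?_
    rw [← Category.assoc, W.s_cm, Category.assoc, ← id_tensorHom, MonoidalCategory.tensorHom_comp_tensorHom, W.s_cn,
      Category.comp_id, tensorHom_id, rightUnitor_inv_naturality, unitors_inv_equal]
  coassoc := by
    refine HMc_ext W fun g => ?_
    have h1 : (W.s g ⊗ₘ W.s g) ≫ W.cm ▷ W.B = (λ_ (𝟙_ D)).inv ▷ 𝟙_ D ≫ ((W.s g ⊗ₘ W.s g) ⊗ₘ W.s g) := by
      rw [← tensorHom_id, MonoidalCategory.tensorHom_comp_tensorHom, W.s_cm, Category.comp_id, ← tensorHom_id,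
        MonoidalCategory.tensorHom_comp_tensorHom, Category.id_comp]
    have h2 : (W.s g ⊗ₘ W.s g) ≫ W.B ◁ W.cm = 𝟙_ D ◁ (λ_ (𝟙_ D)).inv ≫ (W.s g ⊗ₘ (W.s g ⊗ₘ W.s g)) := by
      rw [← id_tensorHom, MonoidalCategory.tensorHom_comp_tensorHom, W.s_cm, Category.comp_id, ← id_tensorHom,
        MonoidalCategory.tensorHom_comp_tensorHom, Category.id_comp]
    rw [← Category.assoc, ← Category.assoc (W.s g) W.cm, W.s_cm, Category.assoc, Category.assoc, h2,
      reassoc_of% h1, associator_naturality]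
    have h3 : (λ_ (𝟙_ D)).inv ▷ 𝟙_ D ≫ (α_ (𝟙_ D) (𝟙_ D) (𝟙_ D)).hom = 𝟙_ D ◁ (λ_ (𝟙_ D)).inv := by monoidal
    rw [reassoc_of% h3]
  frobL := by
    refine HMc_ext2 W fun g h => ?_
    have h2 : (W.s g ⊗ₘ W.s h) ≫ W.B ◁ W.cm = 𝟙_ D ◁ (λ_ (𝟙_ D)).inv ≫ (W.s g ⊗ₘ (W.s h ⊗ₘ W.s h)) := by
      rw [← id_tensorHom, MonoidalCategory.tensorHom_comp_tensorHom, W.s_cm, Category.comp_id, ← id_tensorHom,
        MonoidalCategory.tensorHom_comp_tensorHom, Category.id_comp]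
    have h3 : ((W.s g ⊗ₘ W.s h) ⊗ₘ W.s h) ≫ W.mul ▷ W.B = (((W.s g ⊗ₘ W.s h) ≫ W.mul) ⊗ₘ W.s h) := by
      rw [← tensorHom_id, MonoidalCategory.tensorHom_comp_tensorHom, Category.comp_id]
    rw [← Category.assoc, W.s_mul, reassoc_of% h2, associator_inv_naturality_assoc, h3, W.s_mul]
    by_cases e : g = h
    · subst e
      have h4 : (((λ_ (𝟙_ D)).hom ≫ W.s g) ⊗ₘ W.s g) = (λ_ (𝟙_ D)).hom ▷ 𝟙_ D ≫ (W.s g ⊗ₘ W.s g) := by
        rw [← tensorHom_id, MonoidalCategory.tensorHom_comp_tensorHom, Category.id_comp]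
      rw [if_pos rfl, Category.assoc, W.s_cm, h4]
      monoidal
    · rw [if_neg e, MonoidalCategory.tensorHom_def (0 : _ ⟶ W.B), MonoidalPreadditive.zero_whiskerRight,
        Limits.zero_comp, Limits.zero_comp, Limits.comp_zero, Limits.comp_zero]
  frobR := by
    refine HMc_ext2 W fun g h => ?_
    have h2 : (W.s g ⊗ₘ W.s h) ≫ W.cm ▷ W.B = (λ_ (𝟙_ D)).inv ▷ 𝟙_ D ≫ ((W.s g ⊗ₘ W.s g) ⊗ₘ W.s h) := by
      rw [← tensorHom_id, MonoidalCategory.tensorHom_comp_tensorHom, W.s_cm, Category.comp_id, ← tensorHom_id,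
        MonoidalCategory.tensorHom_comp_tensorHom, Category.id_comp]
    have h3 : (W.s g ⊗ₘ (W.s g ⊗ₘ W.s h)) ≫ W.B ◁ W.mul = (W.s g ⊗ₘ ((W.s g ⊗ₘ W.s h) ≫ W.mul)) := by
      rw [← id_tensorHom, MonoidalCategory.tensorHom_comp_tensorHom, Category.comp_id]
    rw [← Category.assoc, W.s_mul, reassoc_of% h2, associator_naturality_assoc, h3, W.s_mul]
    by_cases e : g = h
    · subst e
      have h4 : (W.s g ⊗ₘ ((λ_ (𝟙_ D)).hom ≫ W.s g)) = 𝟙_ D ◁ (λ_ (𝟙_ D)).hom ≫ (W.s g ⊗ₘ W.s g) := by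
        rw [← id_tensorHom, MonoidalCategory.tensorHom_comp_tensorHom, Category.id_comp]
      rw [if_pos rfl, Category.assoc, W.s_cm, h4]
      monoidal
    · rw [if_neg e, MonoidalCategory.tensorHom_def _ (0 : _ ⟶ W.B), MonoidalPreadditive.whiskerLeft_zero,
        Limits.zero_comp, Limits.comp_zero, Limits.comp_zero, Limits.comp_zero]
  sep := by
    refine HMc_ext W fun g => ?_
    rw [← Category.assoc, W.s_cm, Category.assoc, W.s_mul, if_pos rfl, Iso.inv_hom_id_assoc, Category.comp_id]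

end

section

variable {C : Type u} [Category.{v} C] [MonoidalCategory C] {D : Type u'} [Category.{v'} D] [MonoidalCategory D]
  (F : C ⥤ D) [F.Monoidal]

/-- the structure maps of `S'` come from `C` -/
structure SLift (S' : SFrob D) where
  hF : ∀ {x y : C} {f g : x ⟶ y}, F.map f = F.map g → f = g
  x : C
  i : F.obj x ≅ S'.A
  mul : x ⊗ x ⟶ x
  one : 𝟙_ C ⟶ x
  cm : x ⟶ x ⊗ x
  cn : x ⟶ 𝟙_ C
  hmul : F.map mul ≫ i.hom = δ F _ _ ≫ (i.hom ⊗ₘ i.hom) ≫ S'.mul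
  hone : F.map one ≫ i.hom = η F ≫ S'.one
  hcm : F.map cm ≫ δ F _ _ ≫ (i.hom ⊗ₘ i.hom) = i.hom ≫ S'.cm
  hcn : F.map cn ≫ η F = i.hom ≫ S'.cn

variable {F} {S' : SFrob D}

/-- transport along an isomorphism -/
private def HMc_tr (S' : SFrob D) {X : D} (i : X ≅ S'.A) : SFrob D where
  A := X
  mul := (i.hom ⊗ₘ i.hom) ≫ S'.mul ≫ i.inv
  one := S'.one ≫ i.inv
  cm := i.hom ≫ S'.cm ≫ (i.inv ⊗ₘ i.inv)
  cn := i.hom ≫ S'.cn
  one_mul := by
    rw [comp_whiskerRight, MonoidalCategory.tensorHom_def, Category.assoc, Category.assoc,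
      inv_hom_whiskerRight_assoc, ← whisker_exchange_assoc, ← Category.assoc (S'.one ▷ S'.A), S'.one_mul,
      leftUnitor_naturality_assoc, Iso.hom_inv_id, Category.comp_id]
  mul_one := by
    rw [MonoidalCategory.whiskerLeft_comp, MonoidalCategory.tensorHom_def', Category.assoc, Category.assoc,
      whiskerLeft_inv_hom_assoc, whisker_exchange_assoc, ← Category.assoc (S'.A ◁ S'.one), S'.mul_one,
      rightUnitor_naturality_assoc, Iso.hom_inv_id, Category.comp_id]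
  assoc := by
    have h1 : ((i.hom ⊗ₘ i.hom) ≫ S'.mul ≫ i.inv) ▷ X ≫ (i.hom ⊗ₘ i.hom) ≫ S'.mul ≫ i.inv =
        ((i.hom ⊗ₘ i.hom) ⊗ₘ i.hom) ≫ S'.mul ▷ S'.A ≫ S'.mul ≫ i.inv := by
      rw [← tensorHom_id, MonoidalCategory.tensorHom_comp_tensorHom_assoc, ← tensorHom_id,
        MonoidalCategory.tensorHom_comp_tensorHom_assoc, Category.assoc, Category.assoc, Iso.inv_hom_id,
        Category.comp_id, Category.comp_id, Category.id_comp]
    have h2 : X ◁ ((i.hom ⊗ₘ i.hom) ≫ S'.mul ≫ i.inv) ≫ (i.hom ⊗ₘ i.hom) ≫ S'.mul ≫ i.inv =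
        (i.hom ⊗ₘ (i.hom ⊗ₘ i.hom)) ≫ S'.A ◁ S'.mul ≫ S'.mul ≫ i.inv := by
      rw [← id_tensorHom, MonoidalCategory.tensorHom_comp_tensorHom_assoc, ← id_tensorHom,
        MonoidalCategory.tensorHom_comp_tensorHom_assoc, Category.assoc, Category.assoc, Iso.inv_hom_id,
        Category.comp_id, Category.comp_id, Category.id_comp]
    have h3 := S'.assoc
    rw [h1, h2, ← Category.assoc (S'.mul ▷ S'.A), h3]
    simp only [Category.assoc]
    rw [associator_naturality_assoc]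
  cn_cm := by
    rw [Category.assoc, Category.assoc, ← tensorHom_id, MonoidalCategory.tensorHom_comp_tensorHom,
      Iso.inv_hom_id_assoc, Category.comp_id]
    have h1 : (S'.cn ⊗ₘ i.inv) = S'.cn ▷ S'.A ≫ 𝟙_ D ◁ i.inv := MonoidalCategory.tensorHom_def _ _
    rw [h1, ← Category.assoc S'.cm, S'.cn_cm, ← leftUnitor_inv_naturality, Iso.hom_inv_id_assoc]
  cm_cn := by
    rw [Category.assoc, Category.assoc, ← id_tensorHom, MonoidalCategory.tensorHom_comp_tensorHom,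
      Iso.inv_hom_id_assoc, Category.comp_id]
    have h1 : (i.inv ⊗ₘ S'.cn) = S'.A ◁ S'.cn ≫ i.inv ▷ 𝟙_ D := MonoidalCategory.tensorHom_def' _ _
    rw [h1, ← Category.assoc S'.cm, S'.cm_cn, ← rightUnitor_inv_naturality, Iso.hom_inv_id_assoc]
  coassoc := by
    have h1 : (i.inv ⊗ₘ i.inv) ≫ (i.hom ≫ S'.cm ≫ (i.inv ⊗ₘ i.inv)) ▷ X =
        S'.cm ▷ S'.A ≫ ((i.inv ⊗ₘ i.inv) ⊗ₘ i.inv) := by
      rw [← tensorHom_id, MonoidalCategory.tensorHom_comp_tensorHom, Iso.inv_hom_id_assoc, Category.comp_id,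
        ← tensorHom_id, MonoidalCategory.tensorHom_comp_tensorHom, Category.id_comp]
    have h2 : (i.inv ⊗ₘ i.inv) ≫ X ◁ (i.hom ≫ S'.cm ≫ (i.inv ⊗ₘ i.inv)) =
        S'.A ◁ S'.cm ≫ (i.inv ⊗ₘ (i.inv ⊗ₘ i.inv)) := by
      rw [← id_tensorHom, MonoidalCategory.tensorHom_comp_tensorHom, Iso.inv_hom_id_assoc, Category.comp_id,
        ← id_tensorHom, MonoidalCategory.tensorHom_comp_tensorHom, Category.id_comp]
    have h3 := S'.coassoc
    rw [Category.assoc, Category.assoc, Category.assoc, Category.assoc, h2, reassoc_of% h1, associator_naturality,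
      reassoc_of% h3]
  frobL := by
    have h1 : (i.hom ⊗ₘ i.hom) ≫ S'.A ◁ S'.cm ≫ (i.inv ⊗ₘ (i.inv ⊗ₘ i.inv)) =
        X ◁ (i.hom ≫ S'.cm ≫ (i.inv ⊗ₘ i.inv)) := by
      rw [← id_tensorHom, MonoidalCategory.tensorHom_comp_tensorHom_assoc,
        MonoidalCategory.tensorHom_comp_tensorHom, Category.comp_id, Iso.hom_inv_id, Category.assoc, id_tensorHom]
    have h2 : ((i.inv ⊗ₘ i.inv) ⊗ₘ i.inv) ≫ ((i.hom ⊗ₘ i.hom) ≫ S'.mul ≫ i.inv) ▷ X =
        S'.mul ▷ S'.A ≫ (i.inv ⊗ₘ i.inv) := by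
      rw [← tensorHom_id, MonoidalCategory.tensorHom_comp_tensorHom, Category.comp_id,
        MonoidalCategory.tensorHom_comp_tensorHom_assoc, Iso.inv_hom_id, id_tensorHom_id, Category.id_comp,
        ← tensorHom_id, MonoidalCategory.tensorHom_comp_tensorHom, Category.id_comp]
    rw [← h1]
    simp only [Category.assoc, Iso.inv_hom_id_assoc]
    rw [associator_inv_naturality_assoc, h2]
    have h3 := S'.frobL
    rw [reassoc_of% h3]
  frobR := by
    have h1 : (i.hom ⊗ₘ i.hom) ≫ S'.cm ▷ S'.A ≫ ((i.inv ⊗ₘ i.inv) ⊗ₘ i.inv) =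
        (i.hom ≫ S'.cm ≫ (i.inv ⊗ₘ i.inv)) ▷ X := by
      rw [← tensorHom_id, MonoidalCategory.tensorHom_comp_tensorHom_assoc,
        MonoidalCategory.tensorHom_comp_tensorHom, Category.comp_id, Iso.hom_inv_id, Category.assoc, tensorHom_id]
    have h2 : (i.inv ⊗ₘ (i.inv ⊗ₘ i.inv)) ≫ X ◁ ((i.hom ⊗ₘ i.hom) ≫ S'.mul ≫ i.inv) =
        S'.A ◁ S'.mul ≫ (i.inv ⊗ₘ i.inv) := by
      rw [← id_tensorHom, MonoidalCategory.tensorHom_comp_tensorHom, Category.comp_id,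
        MonoidalCategory.tensorHom_comp_tensorHom_assoc, Iso.inv_hom_id, id_tensorHom_id, Category.id_comp,
        ← id_tensorHom, MonoidalCategory.tensorHom_comp_tensorHom, Category.id_comp]
    rw [← h1]
    simp only [Category.assoc, Iso.inv_hom_id_assoc]
    rw [associator_naturality_assoc, h2]
    have h3 := S'.frobR
    rw [reassoc_of% h3]
  sep := by
    have h3 := S'.sep
    rw [Category.assoc, Category.assoc, MonoidalCategory.tensorHom_comp_tensorHom_assoc, Iso.inv_hom_id,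
      id_tensorHom_id, Category.id_comp, reassoc_of% h3, Iso.hom_inv_id]

private def HMc_m (L : SLift F S') : F.obj L.x ⊗ F.obj L.x ⟶ F.obj L.x := (HMc_tr S' L.i).mul

private def HMc_e (L : SLift F S') : 𝟙_ D ⟶ F.obj L.x := (HMc_tr S' L.i).one

private def HMc_d (L : SLift F S') : F.obj L.x ⟶ F.obj L.x ⊗ F.obj L.x := (HMc_tr S' L.i).cm

private def HMc_c (L : SLift F S') : F.obj L.x ⟶ 𝟙_ D := (HMc_tr S' L.i).cn

private theorem HMc_mul (L : SLift F S') : F.map L.mul = δ F _ _ ≫ HMc_m L := by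
  rw [← cancel_mono L.i.hom, L.hmul]
  simp [HMc_m, HMc_tr]

private theorem HMc_one (L : SLift F S') : F.map L.one = η F ≫ HMc_e L := by
  rw [← cancel_mono L.i.hom, L.hone]
  simp [HMc_e, HMc_tr]

private theorem HMc_cm (L : SLift F S') : F.map L.cm = HMc_d L ≫ μ F _ _ := by
  have h := L.hcm
  have h1 : F.map L.cm ≫ δ F _ _ = L.i.hom ≫ S'.cm ≫ (L.i.inv ⊗ₘ L.i.inv) := by
    rw [← Category.assoc, ← h, Category.assoc, Category.assoc, MonoidalCategory.tensorHom_comp_tensorHom,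
      Iso.hom_inv_id, id_tensorHom_id, Category.comp_id]
  have h2 : F.map L.cm = (F.map L.cm ≫ δ F _ _) ≫ μ F _ _ := by
    rw [Category.assoc, Functor.Monoidal.δ_μ, Category.comp_id]
  rw [h2, h1]
  rfl

private theorem HMc_cn (L : SLift F S') : F.map L.cn = HMc_c L ≫ ε F := by
  have h := L.hcn
  have h2 : F.map L.cn = (F.map L.cn ≫ η F) ≫ ε F := by
    rw [Category.assoc, Functor.Monoidal.η_ε, Category.comp_id]
  rw [h2, h]
  rfl

/-- the algebra in `C` -/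
def SLift.S (L : SLift F S') : SFrob C where
  A := L.x
  mul := L.mul
  one := L.one
  cm := L.cm
  cn := L.cn
  one_mul := by
    refine L.hF ?_
    have h' : HMc_e L ▷ F.obj L.x ≫ HMc_m L = (λ_ (F.obj L.x)).hom := (HMc_tr S' L.i).one_mul
    rw [F.map_comp, Functor.Monoidal.map_whiskerRight, HMc_mul, HMc_one, comp_whiskerRight]
    simp only [Category.assoc, Functor.Monoidal.μ_δ_assoc]
    rw [h', Functor.OplaxMonoidal.left_unitality_hom]
  mul_one := by
    refine L.hF ?_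
    have h' : F.obj L.x ◁ HMc_e L ≫ HMc_m L = (ρ_ (F.obj L.x)).hom := (HMc_tr S' L.i).mul_one
    rw [F.map_comp, Functor.Monoidal.map_whiskerLeft, HMc_mul, HMc_one, MonoidalCategory.whiskerLeft_comp]
    simp only [Category.assoc, Functor.Monoidal.μ_δ_assoc]
    rw [h', Functor.OplaxMonoidal.right_unitality_hom]
  assoc := by
    refine L.hF ?_
    have h' : HMc_m L ▷ F.obj L.x ≫ HMc_m L = (α_ _ _ _).hom ≫ F.obj L.x ◁ HMc_m L ≫ HMc_m L :=
      (HMc_tr S' L.i).assoc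
    rw [F.map_comp, F.map_comp, F.map_comp, Functor.Monoidal.map_whiskerRight, Functor.Monoidal.map_whiskerLeft,
      HMc_mul, comp_whiskerRight, MonoidalCategory.whiskerLeft_comp]
    simp only [Category.assoc, Functor.Monoidal.μ_δ_assoc]
    rw [h', Functor.OplaxMonoidal.associativity_assoc]
  cn_cm := by
    refine L.hF ?_
    have h' : HMc_d L ≫ HMc_c L ▷ F.obj L.x = (λ_ (F.obj L.x)).inv := (HMc_tr S' L.i).cn_cm
    rw [F.map_comp, Functor.Monoidal.map_whiskerRight, HMc_cm, HMc_cn, comp_whiskerRight]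
    simp only [Category.assoc, Functor.Monoidal.μ_δ_assoc]
    rw [reassoc_of% h', Functor.LaxMonoidal.left_unitality_inv]
  cm_cn := by
    refine L.hF ?_
    have h' : HMc_d L ≫ F.obj L.x ◁ HMc_c L = (ρ_ (F.obj L.x)).inv := (HMc_tr S' L.i).cm_cn
    rw [F.map_comp, Functor.Monoidal.map_whiskerLeft, HMc_cm, HMc_cn, MonoidalCategory.whiskerLeft_comp]
    simp only [Category.assoc, Functor.Monoidal.μ_δ_assoc]
    rw [reassoc_of% h', Functor.LaxMonoidal.right_unitality_inv]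
  coassoc := by
    refine L.hF ?_
    have h' : HMc_d L ≫ HMc_d L ▷ F.obj L.x ≫ (α_ _ _ _).hom = HMc_d L ≫ F.obj L.x ◁ HMc_d L :=
      (HMc_tr S' L.i).coassoc
    rw [F.map_comp, F.map_comp, F.map_comp, Functor.Monoidal.map_whiskerRight, Functor.Monoidal.map_whiskerLeft,
      HMc_cm, comp_whiskerRight, MonoidalCategory.whiskerLeft_comp]
    simp only [Category.assoc, Functor.Monoidal.μ_δ_assoc]
    rw [Functor.LaxMonoidal.associativity, reassoc_of% h']
  frobL := by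
    refine L.hF ?_
    have h' : HMc_m L ≫ HMc_d L = F.obj L.x ◁ HMc_d L ≫ (α_ _ _ _).inv ≫ HMc_m L ▷ F.obj L.x :=
      (HMc_tr S' L.i).frobL
    rw [F.map_comp, F.map_comp, F.map_comp, Functor.Monoidal.map_whiskerRight, Functor.Monoidal.map_whiskerLeft,
      HMc_cm, HMc_mul, comp_whiskerRight, MonoidalCategory.whiskerLeft_comp]
    simp only [Category.assoc, Functor.LaxMonoidal.associativity_inv_assoc, Functor.Monoidal.μ_δ_assoc,
      Functor.Monoidal.whiskerRight_μ_δ_assoc]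
    rw [reassoc_of% h']
  frobR := by
    refine L.hF ?_
    have h' : HMc_m L ≫ HMc_d L = HMc_d L ▷ F.obj L.x ≫ (α_ _ _ _).hom ≫ F.obj L.x ◁ HMc_m L :=
      (HMc_tr S' L.i).frobR
    rw [F.map_comp, F.map_comp, F.map_comp, Functor.Monoidal.map_whiskerRight, Functor.Monoidal.map_whiskerLeft,
      HMc_cm, HMc_mul, comp_whiskerRight, MonoidalCategory.whiskerLeft_comp]
    simp only [Category.assoc, Functor.LaxMonoidal.associativity_assoc, Functor.Monoidal.μ_δ_assoc,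
      Functor.Monoidal.whiskerLeft_μ_δ_assoc]
    rw [reassoc_of% h']
  sep := by
    refine L.hF ?_
    have h' : HMc_d L ≫ HMc_m L = 𝟙 (F.obj L.x) := (HMc_tr S' L.i).sep
    rw [F.map_comp, HMc_cm, HMc_mul, Category.assoc, Functor.Monoidal.μ_δ_assoc, h', F.map_id]

/-- `F` of it -/
def SLift.iso (L : SLift F S') : AlgIso F L.S S' where
  f := L.i
  mul := L.hmul
  one := L.hone
  cm := L.hcm
  cn := L.hcn

end

end Pool.Agent.SFC
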