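import Pool.Agent.SFC.HMa
import Pool.Agent.SFC.HMc

/-!
# SFC/HMe: the algebra of functions on `Γ`, as an algebra in `C`

Data: `T : ThH K F Γ`, an object `x`, `s`, `q` (`F x = ⨁ 𝟙`) with `T.th g (η F ≫ s h) = η F ≫ s (g + h)`, `T.th g (q h ≫ ε F) = q (g + h) ≫ ε F` (from `Eqv.exists_fun`).
`W : FunO D Γ` := `⟨F x, s, q, ..⟩`; `S' := W.S`.  `exists_slift`: the maps `δ ≫ W.mul`, `η F ≫ W.one`, `W.cm ≫ μ`, `W.cn ≫ ε F` are invariant under `T.th` (they are sums over `g` of terms which are permuted: write them with `q g ≫ ε F`,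
`η F ≫ s g`, `th_comp`, `th_ten`, `th_add`, `th_map` for the unitors), so they are `F` of maps of `C` (`T.th_fix`).  `L`: `SLift F W.S` with `i = Iso.refl _` (`P.W.S` is `FunO.S`, its `mul` is `P.W.mul`, ..).
-/

set_option autoImplicit false
set_option linter.unusedSectionVars false

noncomputable section

open CategoryTheory MonoidalCategory
open scoped BigOperators

namespace Pool.Agent.SFC

universe v u v' u' w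

open Functor.LaxMonoidal Functor.OplaxMonoidal

variable {K : Type w} [Field K] {C : Type u} [Category.{v} C] [Preadditive C] [Linear K C] [MonoidalCategory C]
  [MonoidalPreadditive C] [MonoidalLinear K C] {D : Type u'} [Category.{v'} D] [Preadditive D] [Linear K D]
  [MonoidalCategory D] [MonoidalPreadditive D] [MonoidalLinear K D] {F : C ⥤ D} [F.Monoidal] {Γ : Type}
  [AddGroup Γ] [Fintype Γ] [DecidableEq Γ]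

/-- `F x = ⨁ 𝟙` with the regular action of `Γ` -/
structure FunT (T : ThH K F Γ) where
  x : C
  s : Γ → (𝟙_ D ⟶ F.obj x)
  q : Γ → (F.obj x ⟶ 𝟙_ D)
  sq : ∀ g h, s g ≫ q h = if g = h then 𝟙 (𝟙_ D) else 0
  sum : ∑ g, q g ≫ s g = 𝟙 (F.obj x)
  th_s : ∀ g h, T.th g (η F ≫ s h) = η F ≫ s (g + h)
  th_q : ∀ g h, T.th g (q h ≫ ε F) = q (g + h) ≫ ε F

/-- the object `F x` of `D` -/
def FunT.W {T : ThH K F Γ} (P : FunT T) : FunO D Γ := ⟨F.obj P.x, P.s, P.q, P.sq, P.sum⟩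

private theorem HMe_sum (T : ThH K F Γ) (k : Γ) {x y : C} {κ : Type} (t : Finset κ) (f : κ → (F.obj x ⟶ F.obj y)) :
    T.th k (∑ j ∈ t, f j) = ∑ j ∈ t, T.th k (f j) :=
  map_sum (AddMonoidHom.mk' (fun h : F.obj x ⟶ F.obj y => T.th k h) (fun a b => T.th_add k a b)) f t

private theorem HMe_u : (ε F ⊗ₘ ε F) ≫ μ F (𝟙_ C) (𝟙_ C) ≫ F.map (λ_ (𝟙_ C)).hom ≫ η F = (λ_ (𝟙_ D)).hom := by
  have h1 := Functor.LaxMonoidal.left_unitality F (𝟙_ C)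
  have h2 : (ε F ⊗ₘ ε F) ≫ μ F (𝟙_ C) (𝟙_ C) ≫ F.map (λ_ (𝟙_ C)).hom = (λ_ (𝟙_ D)).hom ≫ ε F := by
    rw [MonoidalCategory.tensorHom_def', Category.assoc, ← h1, leftUnitor_naturality]
  rw [← Category.assoc (μ F (𝟙_ C) (𝟙_ C)), ← Category.assoc, h2, Category.assoc, Functor.Monoidal.ε_η,
    Category.comp_id]

private theorem HMe_v : ε F ≫ F.map (λ_ (𝟙_ C)).inv ≫ δ F (𝟙_ C) (𝟙_ C) ≫ (η F ⊗ₘ η F) = (λ_ (𝟙_ D)).inv := by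
  have h1 := Functor.OplaxMonoidal.left_unitality F (𝟙_ C)
  rw [MonoidalCategory.tensorHom_def]
  have h2 : F.map (λ_ (𝟙_ C)).inv ≫ δ F (𝟙_ C) (𝟙_ C) ≫ η F ▷ F.obj (𝟙_ C) ≫ 𝟙_ D ◁ η F =
      η F ≫ (λ_ (𝟙_ D)).inv := by
    rw [leftUnitor_inv_naturality, h1]
    simp only [Category.assoc]
  rw [h2, Functor.Monoidal.ε_η_assoc]

private theorem HMe_mul {T : ThH K F Γ} (P : FunT T) (g : Γ) :
    δ F P.x P.x ≫ (P.q g ⊗ₘ P.q g) ≫ (λ_ (𝟙_ D)).hom ≫ P.s g =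
      (δ F P.x P.x ≫ ((P.q g ≫ ε F) ⊗ₘ (P.q g ≫ ε F)) ≫ μ F (𝟙_ C) (𝟙_ C)) ≫ F.map (λ_ (𝟙_ C)).hom ≫
        (η F ≫ P.s g) := by
  rw [← HMe_u (F := F), ← MonoidalCategory.tensorHom_comp_tensorHom]
  simp only [Category.assoc]

private theorem HMe_cm {T : ThH K F Γ} (P : FunT T) (g : Γ) :
    (P.q g ≫ (λ_ (𝟙_ D)).inv ≫ (P.s g ⊗ₘ P.s g)) ≫ μ F P.x P.x =
      (P.q g ≫ ε F) ≫ F.map (λ_ (𝟙_ C)).inv ≫
        (δ F (𝟙_ C) (𝟙_ C) ≫ ((η F ≫ P.s g) ⊗ₘ (η F ≫ P.s g)) ≫ μ F P.x P.x) := by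
  rw [← HMe_v (F := F), ← MonoidalCategory.tensorHom_comp_tensorHom]
  simp only [Category.assoc]

private theorem HMe_shift {M : Type*} [AddCommMonoid M] (k : Γ) (f : Γ → M) : ∑ g, f (k + g) = ∑ g, f g :=
  Equiv.sum_comp (Equiv.addLeft k) f

private theorem HMe_exmul {T : ThH K F Γ} (P : FunT T) : ∃ mul : P.x ⊗ P.x ⟶ P.x,
    F.map mul = δ F P.x P.x ≫ ∑ g, (P.q g ⊗ₘ P.q g) ≫ (λ_ (𝟙_ D)).hom ≫ P.s g := by
  have e1 : δ F P.x P.x ≫ (∑ g, (P.q g ⊗ₘ P.q g) ≫ (λ_ (𝟙_ D)).hom ≫ P.s g) =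
      ∑ g, (δ F P.x P.x ≫ ((P.q g ≫ ε F) ⊗ₘ (P.q g ≫ ε F)) ≫ μ F (𝟙_ C) (𝟙_ C)) ≫
      F.map (λ_ (𝟙_ C)).hom ≫ (η F ≫ P.s g) := by
    rw [Preadditive.comp_sum]
    exact Finset.sum_congr rfl fun g _ => HMe_mul P g
  have hk : ∀ k, T.th k (∑ g, (δ F P.x P.x ≫ ((P.q g ≫ ε F) ⊗ₘ (P.q g ≫ ε F)) ≫ μ F (𝟙_ C) (𝟙_ C)) ≫
      F.map (λ_ (𝟙_ C)).hom ≫ (η F ≫ P.s g)) =
      ∑ g, (δ F P.x P.x ≫ ((P.q g ≫ ε F) ⊗ₘ (P.q g ≫ ε F)) ≫ μ F (𝟙_ C) (𝟙_ C)) ≫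
      F.map (λ_ (𝟙_ C)).hom ≫ (η F ≫ P.s g) := by
    intro k
    rw [HMe_sum, ← HMe_shift k fun g => (δ F P.x P.x ≫ ((P.q g ≫ ε F) ⊗ₘ (P.q g ≫ ε F)) ≫ μ F (𝟙_ C) (𝟙_ C)) ≫
      F.map (λ_ (𝟙_ C)).hom ≫ (η F ≫ P.s g)]
    refine Finset.sum_congr rfl fun g _ => ?_
    rw [T.th_comp, T.th_comp, T.th_ten, T.th_map, P.th_q, P.th_s]
  obtain ⟨mul, hmul, -⟩ := T.th_fix _ hk
  exact ⟨mul, hmul.trans e1.symm⟩

private theorem HMe_exone {T : ThH K F Γ} (P : FunT T) : ∃ one : 𝟙_ C ⟶ P.x,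
    F.map one = η F ≫ ∑ g, P.s g := by
  have hk : ∀ k, T.th k (∑ g, η F ≫ P.s g) = ∑ g, η F ≫ P.s g := by
    intro k
    rw [HMe_sum, ← HMe_shift k fun g => η F ≫ P.s g]
    exact Finset.sum_congr rfl fun g _ => P.th_s k g
  obtain ⟨one, hone, -⟩ := T.th_fix _ hk
  exact ⟨one, hone.trans (Preadditive.comp_sum _ _ _).symm⟩

private theorem HMe_excm {T : ThH K F Γ} (P : FunT T) : ∃ cm : P.x ⟶ P.x ⊗ P.x,
    F.map cm ≫ δ F P.x P.x = ∑ g, P.q g ≫ (λ_ (𝟙_ D)).inv ≫ (P.s g ⊗ₘ P.s g) := by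
  have e3 : (∑ g, P.q g ≫ (λ_ (𝟙_ D)).inv ≫ (P.s g ⊗ₘ P.s g)) ≫ μ F P.x P.x =
      ∑ g, (P.q g ≫ ε F) ≫ F.map (λ_ (𝟙_ C)).inv ≫
        (δ F (𝟙_ C) (𝟙_ C) ≫ ((η F ≫ P.s g) ⊗ₘ (η F ≫ P.s g)) ≫ μ F P.x P.x) := by
    rw [Preadditive.sum_comp]
    exact Finset.sum_congr rfl fun g _ => HMe_cm P g
  have hk : ∀ k, T.th k (∑ g, (P.q g ≫ ε F) ≫ F.map (λ_ (𝟙_ C)).inv ≫
        (δ F (𝟙_ C) (𝟙_ C) ≫ ((η F ≫ P.s g) ⊗ₘ (η F ≫ P.s g)) ≫ μ F P.x P.x)) =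
      ∑ g, (P.q g ≫ ε F) ≫ F.map (λ_ (𝟙_ C)).inv ≫
        (δ F (𝟙_ C) (𝟙_ C) ≫ ((η F ≫ P.s g) ⊗ₘ (η F ≫ P.s g)) ≫ μ F P.x P.x) := by
    intro k
    rw [HMe_sum, ← HMe_shift k fun g => (P.q g ≫ ε F) ≫ F.map (λ_ (𝟙_ C)).inv ≫
        (δ F (𝟙_ C) (𝟙_ C) ≫ ((η F ≫ P.s g) ⊗ₘ (η F ≫ P.s g)) ≫ μ F P.x P.x)]
    refine Finset.sum_congr rfl fun g _ => ?_
    rw [T.th_comp, T.th_comp, T.th_ten, T.th_map, P.th_q, P.th_s]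
  obtain ⟨cm, hcm, -⟩ := T.th_fix _ hk
  refine ⟨cm, ?_⟩
  rw [hcm, ← e3, Category.assoc, Functor.Monoidal.μ_δ, Category.comp_id]

private theorem HMe_excn {T : ThH K F Γ} (P : FunT T) : ∃ cn : P.x ⟶ 𝟙_ C,
    F.map cn ≫ η F = ∑ g, P.q g := by
  have hk : ∀ k, T.th k (∑ g, P.q g ≫ ε F) = ∑ g, P.q g ≫ ε F := by
    intro k
    rw [HMe_sum, ← HMe_shift k fun g => P.q g ≫ ε F]
    exact Finset.sum_congr rfl fun g _ => P.th_q k g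
  obtain ⟨cn, hcn, -⟩ := T.th_fix _ hk
  refine ⟨cn, ?_⟩
  rw [hcn, ← Preadditive.sum_comp, Category.assoc, Functor.Monoidal.ε_η, Category.comp_id]

theorem FunT.exists_slift {T : ThH K F Γ} (P : FunT T) :
    ∃ (mul : P.x ⊗ P.x ⟶ P.x) (one : 𝟙_ C ⟶ P.x) (cm : P.x ⟶ P.x ⊗ P.x) (cn : P.x ⟶ 𝟙_ C),
      F.map mul = δ F _ _ ≫ P.W.mul ∧ F.map one = η F ≫ P.W.one ∧ F.map cm ≫ δ F _ _ = P.W.cm ∧
      F.map cn ≫ η F = P.W.cn := by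
  obtain ⟨mul, hmul⟩ := HMe_exmul P
  obtain ⟨one, hone⟩ := HMe_exone P
  obtain ⟨cm, hcm⟩ := HMe_excm P
  obtain ⟨cn, hcn⟩ := HMe_excn P
  exact ⟨mul, one, cm, cn, hmul, hone, hcm, hcn⟩

private theorem HMe_lmul {x : C} (f : x ⊗ x ⟶ x) (m : F.obj x ⊗ F.obj x ⟶ F.obj x) (h : F.map f = δ F x x ≫ m) :
    F.map f ≫ 𝟙 (F.obj x) = δ F x x ≫ (𝟙 (F.obj x) ⊗ₘ 𝟙 (F.obj x)) ≫ m := by
  rw [MonoidalCategory.id_tensorHom_id, Category.id_comp, Category.comp_id, h]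

private theorem HMe_lcm {x : C} (f : x ⟶ x ⊗ x) (m : F.obj x ⟶ F.obj x ⊗ F.obj x) (h : F.map f ≫ δ F x x = m) :
    F.map f ≫ δ F x x ≫ (𝟙 (F.obj x) ⊗ₘ 𝟙 (F.obj x)) = 𝟙 (F.obj x) ≫ m := by
  rw [MonoidalCategory.id_tensorHom_id, Category.id_comp, Category.comp_id, h]

/-- the structure maps lift -/
def FunT.L {T : ThH K F Γ} (P : FunT T) : SLift F P.W.S where
  hF := T.faithful
  x := P.x
  i := Iso.refl _
  mul := P.exists_slift.choose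
  one := P.exists_slift.choose_spec.choose
  cm := P.exists_slift.choose_spec.choose_spec.choose
  cn := P.exists_slift.choose_spec.choose_spec.choose_spec.choose
  hmul := HMe_lmul _ _ P.exists_slift.choose_spec.choose_spec.choose_spec.choose_spec.1
  hone := by
    have h := P.exists_slift.choose_spec.choose_spec.choose_spec.choose_spec.2.1
    exact (Category.comp_id _).trans h
  hcm := HMe_lcm _ _ P.exists_slift.choose_spec.choose_spec.choose_spec.choose_spec.2.2.1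
  hcn := by
    have h := P.exists_slift.choose_spec.choose_spec.choose_spec.choose_spec.2.2.2
    exact h.trans (Category.id_comp _).symm

end Pool.Agent.SFC
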