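import Pool.Agent.SFC.HMe

/-!
# SFC/HMf: the Galois algebra of functions on `Γ`
-/

set_option autoImplicit false
set_option linter.unusedSectionVars false

noncomputable section

open CategoryTheory MonoidalCategory
open scoped BigOperators

namespace Pool.Agent.SFC

universe v u v' u' w

open Functor.LaxMonoidal Functor.OplaxMonoidal

variable {K : Type w} [Field K] {C : Type u} [Category.{v} C] [Preadditive C] [Linear K C] [MonoidalCategory C]
  [MonoidalPreadditive C] [MonoidalLinear K C] {D : Type u'} [Category.{v'} D] [Preadditive D] [Linear K D]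
  [MonoidalCategory D] [MonoidalPreadditive D] [MonoidalLinear K D] {F : C ⥤ D} [F.Monoidal] {Γ : Type}
  [AddGroup Γ] [Fintype Γ] [DecidableEq Γ]

private theorem HMf_th_sum (T : ThH K F Γ) (g : Γ) {x y : C} (f : Γ → (F.obj x ⟶ F.obj y)) :
    T.th g (∑ h, f h) = ∑ h, T.th g (f h) :=
  map_sum (AddMonoidHom.mk' (fun z : F.obj x ⟶ F.obj y => T.th g z) (fun a b => T.th_add g a b)) f Finset.univ

private theorem HMf_map_sum (T : ThH K F Γ) {x y : C} (f : Γ → (x ⟶ y)) :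
    F.map (∑ h, f h) = ∑ h, F.map (f h) :=
  map_sum (AddMonoidHom.mk' (fun z : x ⟶ y => F.map z) (fun a b => T.map_add a b)) f Finset.univ

private theorem HMf_map_zero (T : ThH K F Γ) (x y : C) : F.map (0 : x ⟶ y) = 0 :=
  map_zero (AddMonoidHom.mk' (fun z : x ⟶ y => F.map z) (fun a b => T.map_add a b))

theorem FunT.exists_a {T : ThH K F Γ} (P : FunT T) (g : Γ) :
    ∃ a : P.x ⟶ P.x, F.map a = ∑ h, P.q h ≫ P.s (h + g) := by
  obtain ⟨f, hf, -⟩ := T.th_fix (∑ h, P.q h ≫ P.s (h + g)) (by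
    intro k
    rw [HMf_th_sum]
    have h1 : ∀ h, T.th k (P.q h ≫ P.s (h + g)) = P.q (k + h) ≫ P.s (k + h + g) := by
      intro h
      have h2 : P.q h ≫ P.s (h + g) = (P.q h ≫ ε F) ≫ η F ≫ P.s (h + g) := by
        rw [Category.assoc, ← Category.assoc (ε F), Functor.Monoidal.ε_η, Category.id_comp]
      rw [h2, T.th_comp, P.th_q, P.th_s, Category.assoc, ← Category.assoc (ε F), Functor.Monoidal.ε_η,
        Category.id_comp, add_assoc]
    rw [Finset.sum_congr rfl fun h _ => h1 h]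
    exact Fintype.sum_equiv (Equiv.addLeft k) _ _ fun h => rfl)
  exact ⟨f, hf⟩

/-- the automorphisms -/
def FunT.a {T : ThH K F Γ} (P : FunT T) (g : Γ) : P.x ⟶ P.x := (P.exists_a g).choose

theorem FunT.F_a {T : ThH K F Γ} (P : FunT T) (g : Γ) : F.map (P.a g) = ∑ h, P.q h ≫ P.s (h + g) :=
  (P.exists_a g).choose_spec

private theorem HMf_ext {T : ThH K F Γ} (P : FunT T) {Y : D} {f f' : F.obj P.x ⟶ Y}
    (h : ∀ k, P.s k ≫ f = P.s k ≫ f') : f = f' := by
  rw [← Category.id_comp f, ← Category.id_comp f', ← P.sum, Preadditive.sum_comp, Preadditive.sum_comp]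
  exact Finset.sum_congr rfl fun k _ => by rw [Category.assoc, Category.assoc, h]

private theorem HMf_ext2 {T : ThH K F Γ} (P : FunT T) {Y : D} {f f' : F.obj P.x ⊗ F.obj P.x ⟶ Y}
    (h : ∀ k l, (P.s k ⊗ₘ P.s l) ≫ f = (P.s k ⊗ₘ P.s l) ≫ f') : f = f' := by
  have h1 : 𝟙 (F.obj P.x ⊗ F.obj P.x) = ∑ k, ∑ l, (P.q k ⊗ₘ P.q l) ≫ (P.s k ⊗ₘ P.s l) := by
    have h2 : 𝟙 (F.obj P.x ⊗ F.obj P.x) = (∑ k, P.q k ≫ P.s k) ⊗ₘ (∑ l, P.q l ≫ P.s l) := by
      rw [P.sum, MonoidalCategory.id_tensorHom_id]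
    rw [h2, sum_tensor]
    refine Finset.sum_congr rfl fun k _ => ?_
    rw [tensor_sum]
    refine Finset.sum_congr rfl fun l _ => ?_
    rw [MonoidalCategory.tensorHom_comp_tensorHom]
  rw [← Category.id_comp f, ← Category.id_comp f', h1, Preadditive.sum_comp, Preadditive.sum_comp]
  refine Finset.sum_congr rfl fun k _ => ?_
  rw [Preadditive.sum_comp, Preadditive.sum_comp]
  exact Finset.sum_congr rfl fun l _ => by rw [Category.assoc, Category.assoc, h]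

private theorem HMf_sa {T : ThH K F Γ} (P : FunT T) (k g : Γ) : P.s k ≫ F.map (P.a g) = P.s (k + g) := by
  rw [P.F_a, Preadditive.comp_sum, Finset.sum_eq_single k]
  · rw [← Category.assoc, P.sq, if_pos rfl, Category.id_comp]
  · intro b _ hb
    rw [← Category.assoc, P.sq, if_neg (Ne.symm hb), Limits.zero_comp]
  · intro h
    exact absurd (Finset.mem_univ _) h

private theorem HMf_s_mul {T : ThH K F Γ} (P : FunT T) (g h : Γ) :
    (P.s g ⊗ₘ P.s h) ≫ P.W.mul = if g = h then (λ_ (𝟙_ D)).hom ≫ P.s g else 0 := P.W.s_mul g h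

private theorem HMf_s_cm {T : ThH K F Γ} (P : FunT T) (g : Γ) :
    P.s g ≫ P.W.cm = (λ_ (𝟙_ D)).inv ≫ (P.s g ⊗ₘ P.s g) := P.W.s_cm g

private theorem HMf_s_cn {T : ThH K F Γ} (P : FunT T) (g : Γ) : P.s g ≫ P.W.cn = 𝟙 _ := P.W.s_cn g

private theorem HMf_zero {T : ThH K F Γ} (P : FunT T) : P.a 0 = 𝟙 P.x := by
  apply T.faithful
  apply HMf_ext P
  intro k
  rw [HMf_sa, add_zero, F.map_id, Category.comp_id]

private theorem HMf_add {T : ThH K F Γ} (P : FunT T) (g h : Γ) : P.a (g + h) = P.a g ≫ P.a h := by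
  apply T.faithful
  apply HMf_ext P
  intro k
  rw [HMf_sa, F.map_comp, ← Category.assoc, HMf_sa, HMf_sa, add_assoc]

private theorem HMf_mul {T : ThH K F Γ} (P : FunT T) (m : P.x ⊗ P.x ⟶ P.x) (hm : F.map m = δ F _ _ ≫ P.W.mul)
    (g : Γ) : (P.a g ⊗ₘ P.a g) ≫ m = m ≫ P.a g := by
  apply T.faithful
  have h1 : (F.map (P.a g) ⊗ₘ F.map (P.a g)) ≫ P.W.mul = P.W.mul ≫ F.map (P.a g) := by
    apply HMf_ext2 P
    intro k l
    have h2 : (P.s k ⊗ₘ P.s l) ≫ (F.map (P.a g) ⊗ₘ F.map (P.a g)) = (P.s (k + g) ⊗ₘ P.s (l + g)) := by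
      rw [MonoidalCategory.tensorHom_comp_tensorHom, HMf_sa, HMf_sa]
    have h3 := HMf_s_mul P (k + g) (l + g)
    have h4 := HMf_s_mul P k l
    refine (Category.assoc _ _ _).symm.trans ?_
    refine (congrArg (· ≫ P.W.mul) h2).trans ?_
    refine h3.trans ?_
    refine Eq.trans ?_ (Category.assoc _ _ _)
    refine Eq.trans ?_ (congrArg (· ≫ F.map (P.a g)) h4.symm)
    by_cases hkl : k = l
    · rw [if_pos (by rw [hkl]), if_pos hkl]
      exact ((Category.assoc _ _ _).trans (congrArg ((λ_ (𝟙_ D)).hom ≫ ·) (HMf_sa P k g))).symm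
    · rw [if_neg (by rwa [add_left_inj]), if_neg hkl]
      exact Limits.zero_comp.symm
  rw [F.map_comp, F.map_comp, hm]
  have h2 := δ_natural F (P.a g) (P.a g)
  refine (Category.assoc _ _ _).symm.trans ?_
  refine (congrArg (· ≫ P.W.mul) h2.symm).trans ?_
  refine (Category.assoc _ _ _).trans ?_
  refine (congrArg (δ F _ _ ≫ ·) h1).trans ?_
  exact (Category.assoc _ _ _).symm

private theorem HMf_one' {T : ThH K F Γ} (P : FunT T) (g : Γ) : P.W.one ≫ F.map (P.a g) = P.W.one := by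
  show (∑ k, P.s k) ≫ F.map (P.a g) = ∑ k, P.s k
  rw [Preadditive.sum_comp, Finset.sum_congr rfl fun k _ => HMf_sa P k g]
  exact Fintype.sum_equiv (Equiv.addRight g) _ _ fun h => rfl

private theorem HMf_one {T : ThH K F Γ} (P : FunT T) (e : 𝟙_ C ⟶ P.x) (he : F.map e = η F ≫ P.W.one) (g : Γ) :
    e ≫ P.a g = e := by
  apply T.faithful
  rw [F.map_comp, he]
  exact (Category.assoc _ _ _).trans (congrArg (η F ≫ ·) (HMf_one' P g))

private theorem HMf_cm {T : ThH K F Γ} (P : FunT T) (m : P.x ⟶ P.x ⊗ P.x) (hm : F.map m ≫ δ F _ _ = P.W.cm)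
    (g : Γ) : m ≫ (P.a g ⊗ₘ P.a g) = P.a g ≫ m := by
  apply T.faithful
  rw [← cancel_mono (δ F P.x P.x), F.map_comp, F.map_comp, Category.assoc, Category.assoc, ← δ_natural,
    ← Category.assoc, hm]
  apply HMf_ext P
  intro k
  have h1 := HMf_s_cm P k
  have h2 := HMf_s_cm P (k + g)
  have h3 : (P.s k ⊗ₘ P.s k) ≫ (F.map (P.a g) ⊗ₘ F.map (P.a g)) = (P.s (k + g) ⊗ₘ P.s (k + g)) := by
    rw [MonoidalCategory.tensorHom_comp_tensorHom, HMf_sa]
  refine (Category.assoc _ _ _).symm.trans ?_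
  refine (congrArg (· ≫ (F.map (P.a g) ⊗ₘ F.map (P.a g))) h1).trans ?_
  refine (Category.assoc _ _ _).trans ?_
  refine (congrArg ((λ_ (𝟙_ D)).inv ≫ ·) h3).trans ?_
  refine h2.symm.trans ?_
  refine (congrArg (· ≫ P.W.cm) (HMf_sa P k g).symm).trans ?_
  exact Category.assoc _ _ _

private theorem HMf_cn' {T : ThH K F Γ} (P : FunT T) (g : Γ) : F.map (P.a g) ≫ P.W.cn = P.W.cn := by
  apply HMf_ext P
  intro k
  refine (Category.assoc _ _ _).symm.trans ?_
  refine (congrArg (· ≫ P.W.cn) (HMf_sa P k g)).trans ?_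
  exact (HMf_s_cn P (k + g)).trans (HMf_s_cn P k).symm

private theorem HMf_cn {T : ThH K F Γ} (P : FunT T) (n : P.x ⟶ 𝟙_ C) (hn : F.map n ≫ η F = P.W.cn) (g : Γ) :
    P.a g ≫ n = n := by
  apply T.faithful
  rw [← cancel_mono (η F), F.map_comp, Category.assoc, hn]
  exact HMf_cn' P g

private theorem HMf_sum {T : ThH K F Γ} (P : FunT T) (e : 𝟙_ C ⟶ P.x) (he : F.map e = η F ≫ P.W.one)
    (n : P.x ⟶ 𝟙_ C) (hn : F.map n ≫ η F = P.W.cn) : ∑ g, P.a g = n ≫ e := by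
  have he' : F.map e = η F ≫ (∑ k, P.s k : 𝟙_ D ⟶ F.obj P.x) := he
  have hn' : F.map n ≫ η F = (∑ k, P.q k : F.obj P.x ⟶ 𝟙_ D) := hn
  apply T.faithful
  rw [HMf_map_sum T, F.map_comp, he', ← Category.assoc, hn']
  apply HMf_ext P
  intro k
  rw [Preadditive.comp_sum, Finset.sum_congr rfl fun g _ => HMf_sa P k g, ← Category.assoc]
  have hk : P.s k ≫ (∑ g, P.q g) = 𝟙 _ := HMf_s_cn P k
  rw [hk, Category.id_comp]
  exact Fintype.sum_equiv (Equiv.addLeft k) _ _ fun h => rfl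

private theorem HMf_orth {T : ThH K F Γ} (P : FunT T) (m : P.x ⊗ P.x ⟶ P.x) (hm : F.map m = δ F _ _ ≫ P.W.mul)
    (c : P.x ⟶ P.x ⊗ P.x) (hc : F.map c ≫ δ F _ _ = P.W.cm) (g : Γ) (hg : g ≠ 0) : c ≫ P.x ◁ P.a g ≫ m = 0 := by
  apply T.faithful
  rw [HMf_map_zero T, F.map_comp, F.map_comp, hm]
  have h0 : F.map (P.x ◁ P.a g) ≫ δ F P.x P.x = δ F P.x P.x ≫ F.obj P.x ◁ F.map (P.a g) :=
    (δ_natural_right F P.x (P.a g)).symm
  have h1 : F.map c ≫ F.map (P.x ◁ P.a g) ≫ δ F P.x P.x ≫ P.W.mul =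
      P.W.cm ≫ F.obj P.x ◁ F.map (P.a g) ≫ P.W.mul := by
    refine (congrArg (F.map c ≫ ·) ((Category.assoc _ _ _).symm.trans ((congrArg (· ≫ P.W.mul) h0).trans
      (Category.assoc _ _ _)))).trans ?_
    exact (Category.assoc _ _ _).symm.trans (congrArg (· ≫ F.obj P.x ◁ F.map (P.a g) ≫ P.W.mul) hc)
  refine h1.trans ?_
  apply HMf_ext P
  intro k
  have h2 : (P.s k ⊗ₘ P.s k) ≫ F.obj P.x ◁ F.map (P.a g) = (P.s k ⊗ₘ P.s (k + g)) := by
    rw [← MonoidalCategory.id_tensorHom, MonoidalCategory.tensorHom_comp_tensorHom, HMf_sa, Category.comp_id]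
  have h3 := HMf_s_mul P k (k + g)
  rw [if_neg (by
    intro h
    exact hg (by rwa [left_eq_add] at h))] at h3
  refine (Category.assoc _ _ _).symm.trans ?_
  refine (congrArg (· ≫ F.obj P.x ◁ F.map (P.a g) ≫ P.W.mul) (HMf_s_cm P k)).trans ?_
  refine (Category.assoc _ _ _).trans ?_
  have h4 : (P.s k ⊗ₘ P.s k) ≫ F.obj P.x ◁ F.map (P.a g) ≫ P.W.mul = 0 :=
    (Category.assoc _ _ _).symm.trans ((congrArg (· ≫ P.W.mul) h2).trans h3)
  refine (congrArg ((λ_ (𝟙_ D)).inv ≫ ·) h4).trans ?_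
  exact Limits.comp_zero.trans Limits.comp_zero.symm

private theorem HMf_conn {T : ThH K F Γ} (P : FunT T) (h1 : ∀ f : 𝟙_ D ⟶ 𝟙_ D, ∃ c : K, f = c • 𝟙 _)
    (e : 𝟙_ C ⟶ P.x) (he : F.map e = η F ≫ P.W.one) (t : 𝟙_ C ⟶ P.x) : ∃ c : K, t = c • e := by
  have h2 : ∀ g, F.map t ≫ P.q g = F.map t ≫ P.q 0 := by
    intro g
    obtain ⟨c, hc⟩ := h1 (ε F ≫ F.map t ≫ P.q 0)
    have h3 : F.map t ≫ P.q 0 ≫ ε F = c • F.map (𝟙 (𝟙_ C)) := by
      have h4 : F.map t ≫ P.q 0 ≫ ε F = η F ≫ (ε F ≫ F.map t ≫ P.q 0) ≫ ε F := by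
        simp only [Category.assoc, Functor.Monoidal.η_ε_assoc]
      rw [h4, hc, F.map_id, Linear.smul_comp, Linear.comp_smul, Category.id_comp, Functor.Monoidal.η_ε]
    have h5 : T.th g (F.map t ≫ P.q 0 ≫ ε F) = F.map t ≫ P.q g ≫ ε F := by
      rw [T.th_comp, T.th_map, P.th_q, add_zero]
    rw [h3, T.th_smul, T.th_map, ← h3] at h5
    rw [← cancel_mono (ε F), Category.assoc, Category.assoc, ← h5]
  obtain ⟨c, hc⟩ := h1 (ε F ≫ F.map t ≫ P.q 0)
  refine ⟨c, T.faithful ?_⟩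
  have h3 : F.map t = (F.map t ≫ P.q 0) ≫ ∑ g, P.s g := by
    rw [Preadditive.comp_sum]
    conv_lhs => rw [← Category.comp_id (F.map t), ← P.sum, Preadditive.comp_sum]
    exact Finset.sum_congr rfl fun g _ => by rw [← Category.assoc, h2]
  have h4 : F.map t ≫ P.q 0 = c • η F := by
    have h5 : F.map t ≫ P.q 0 = η F ≫ ε F ≫ F.map t ≫ P.q 0 := by
      rw [Functor.Monoidal.η_ε_assoc]
    rw [h5, hc, Linear.comp_smul, Category.comp_id]
  rw [T.map_smul, he, h3, h4, Linear.smul_comp]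
  rfl

private theorem HMf_dim {T : ThH K F Γ} (P : FunT T) (e : 𝟙_ C ⟶ P.x) (he : F.map e = η F ≫ P.W.one)
    (n : P.x ⟶ 𝟙_ C) (hn : F.map n ≫ η F = P.W.cn) : e ≫ n = (Fintype.card Γ : K) • 𝟙 (𝟙_ C) := by
  have he' : F.map e = η F ≫ (∑ k, P.s k : 𝟙_ D ⟶ F.obj P.x) := he
  have hn' : F.map n ≫ η F = (∑ k, P.q k : F.obj P.x ⟶ 𝟙_ D) := hn
  apply T.faithful
  have h1 : (∑ g, P.s g) ≫ (∑ g, P.q g) = (Fintype.card Γ : K) • 𝟙 (𝟙_ D) := by
    have hk : ∀ k, P.s k ≫ (∑ g, P.q g) = 𝟙 _ := fun k => HMf_s_cn P k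
    rw [Preadditive.sum_comp, Finset.sum_congr rfl fun g _ => hk g, Finset.sum_const, Finset.card_univ,
      Nat.cast_smul_eq_nsmul]
  rw [← cancel_mono (η F), F.map_comp, Category.assoc, hn', he', T.map_smul, F.map_id, Linear.smul_comp,
    Category.id_comp, Category.assoc, h1, Linear.comp_smul, Category.comp_id]

/-- the Galois algebra -/
def FunT.gal {T : ThH K F Γ} (P : FunT T) (h1 : ∀ f : 𝟙_ D ⟶ 𝟙_ D, ∃ c : K, f = c • 𝟙 _) : GalH K P.L.S Γ where
  a := P.a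
  zero := HMf_zero P
  add := HMf_add P
  mul := HMf_mul P _ P.exists_slift.choose_spec.choose_spec.choose_spec.choose_spec.1
  one := HMf_one P _ P.exists_slift.choose_spec.choose_spec.choose_spec.choose_spec.2.1
  cm := HMf_cm P _ P.exists_slift.choose_spec.choose_spec.choose_spec.choose_spec.2.2.1
  cn := HMf_cn P _ P.exists_slift.choose_spec.choose_spec.choose_spec.choose_spec.2.2.2
  sum := HMf_sum P _ P.exists_slift.choose_spec.choose_spec.choose_spec.choose_spec.2.1 _ P.exists_slift.choose_spec.choose_spec.choose_spec.choose_spec.2.2.2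
  orth := HMf_orth P _ P.exists_slift.choose_spec.choose_spec.choose_spec.choose_spec.1 _ P.exists_slift.choose_spec.choose_spec.choose_spec.choose_spec.2.2.1
  conn := HMf_conn P h1 _ P.exists_slift.choose_spec.choose_spec.choose_spec.choose_spec.2.1
  dim := HMf_dim P _ P.exists_slift.choose_spec.choose_spec.choose_spec.choose_spec.2.1 _ P.exists_slift.choose_spec.choose_spec.choose_spec.choose_spec.2.2.2

end Pool.Agent.SFC
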