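import Pool.Agent.SFC.HL
import Pool.Agent.SFC.E1a
import Pool.Agent.SFC.E1d

/-!
# SFC/HN: weights from an action on `Hom (F x, F y)` of a group with characters
-/

set_option autoImplicit false
set_option linter.unusedSectionVars false

noncomputable section

open CategoryTheory MonoidalCategory
open scoped BigOperators

namespace Pool.Agent.SFC

universe v u v' u' w

open Functor.LaxMonoidal Functor.OplaxMonoidal

variable {K : Type w} [Field K] {C : Type u} [Category.{v} C] [Preadditive C] [Linear K C] [MonoidalCategory C]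
  {D : Type u'} [Category.{v'} D] [Preadditive D] [Linear K D] [MonoidalCategory D] {F : C ⥤ D} [F.Monoidal]
  {Γ : Type} [AddGroup Γ]

/-- `T.th g` as a linear map -/
private def HN_L (T : ThH K F Γ) (g : Γ) (x y : C) : (F.obj x ⟶ F.obj y) →ₗ[K] (F.obj x ⟶ F.obj y) where
  toFun h := T.th g h
  map_add' h k := T.th_add g h k
  map_smul' c h := T.th_smul g c h

private theorem HN_L_apply (T : ThH K F Γ) (g : Γ) {x y : C} (h : F.obj x ⟶ F.obj y) :
    HN_L T g x y h = T.th g h := rfl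

section

variable [MonoidalPreadditive C] [MonoidalLinear K C] [MonoidalPreadditive D] [MonoidalLinear K D]
  [Fintype Γ] [DecidableEq Γ]

/-- the projection with weight `χ` -/
private def HN_Q {T : ThH K F Γ} (P : FunT T) (χ : Γ → K) : F.obj P.x ⟶ 𝟙_ D := ∑ h, χ (-h) • P.q h

/-- the inclusion with weight `χ` -/
private def HN_S {T : ThH K F Γ} (P : FunT T) (χ : Γ → K) : 𝟙_ D ⟶ F.obj P.x := ∑ h, χ h • P.s h

private theorem HN_SQ {T : ThH K F Γ} (P : FunT T) (χ : Γ → K) (h1 : χ 0 = 1)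
    (hm : ∀ g h, χ (g + h) = χ g * χ h) : HN_S P χ ≫ HN_Q P χ = (Fintype.card Γ : K) • 𝟙 (𝟙_ D) := by
  rw [HN_S, HN_Q, Preadditive.sum_comp]
  have h2 : ∀ g, (χ g • P.s g) ≫ ∑ h, χ (-h) • P.q h = 𝟙 (𝟙_ D) := by
    intro g
    rw [Preadditive.comp_sum, Finset.sum_eq_single g]
    · rw [Linear.smul_comp, Linear.comp_smul, P.sq, if_pos rfl, smul_smul, ← hm, add_neg_cancel, h1, one_smul]
    · intro h _ hh
      rw [Linear.smul_comp, Linear.comp_smul, P.sq, if_neg (Ne.symm hh), smul_zero, smul_zero]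
    · intro h
      exact absurd (Finset.mem_univ _) h
  rw [Finset.sum_congr rfl fun g _ => h2 g, Finset.sum_const, Finset.card_univ, Nat.cast_smul_eq_nsmul]

private theorem HN_thQ {T : ThH K F Γ} (P : FunT T) (χ : Γ → K) (hm : ∀ g h, χ (g + h) = χ g * χ h) (g : Γ) :
    T.th g (HN_Q P χ ≫ ε F) = χ g • (HN_Q P χ ≫ ε F) := by
  have h0 : HN_Q P χ ≫ ε F = ∑ h, χ (-h) • (P.q h ≫ ε F) := by
    rw [HN_Q, Preadditive.sum_comp]
    exact Finset.sum_congr rfl fun h _ => Linear.smul_comp _ _ _ _ _ _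
  rw [h0, ← HN_L_apply, map_sum, Finset.smul_sum,
    ← Equiv.sum_comp (Equiv.addLeft g) (fun h => χ g • χ (-h) • (P.q h ≫ ε F))]
  refine Finset.sum_congr rfl fun h _ => ?_
  rw [map_smul, HN_L_apply, P.th_q, Equiv.coe_addLeft, smul_smul, mul_comm, ← hm, neg_add_rev, neg_add_cancel_right]

private theorem HN_thS {T : ThH K F Γ} (P : FunT T) (χ : Γ → K) (hm : ∀ g h, χ (g + h) = χ g * χ h) (g : Γ) :
    T.th g (η F ≫ HN_S P χ) = χ (-g) • (η F ≫ HN_S P χ) := by
  have h0 : η F ≫ HN_S P χ = ∑ h, χ h • (η F ≫ P.s h) := by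
    rw [HN_S, Preadditive.comp_sum]
    exact Finset.sum_congr rfl fun h _ => Linear.comp_smul _ _ _ _ _ _
  rw [h0, ← HN_L_apply, map_sum, Finset.smul_sum,
    ← Equiv.sum_comp (Equiv.addLeft g) (fun h => χ (-g) • χ h • (η F ≫ P.s h))]
  refine Finset.sum_congr rfl fun h _ => ?_
  rw [map_smul, HN_L_apply, P.th_s, Equiv.coe_addLeft, smul_smul, ← hm, neg_add_cancel_left]

theorem FunT.exists_ch [IsIdempotentComplete C] {T : ThH K F Γ} (P : FunT T) (hn : (Fintype.card Γ : K) ≠ 0)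
    (χ : Γ → K) (h1 : χ 0 = 1) (hm : ∀ g h, χ (g + h) = χ g * χ h) :
    ∃ (x : C) (τ : F.obj x ≅ F.obj (𝟙_ C)), ∀ g, T.th g τ.hom = χ g • τ.hom := by
  obtain ⟨e, he, -⟩ := T.th_fix ((Fintype.card Γ : K)⁻¹ • (HN_Q P χ ≫ HN_S P χ)) (by
    intro g
    have h2 : HN_Q P χ ≫ HN_S P χ = (HN_Q P χ ≫ ε F) ≫ (η F ≫ HN_S P χ) := by
      rw [Category.assoc, Functor.Monoidal.ε_η_assoc]
    rw [T.th_smul, h2, T.th_comp, HN_thQ P χ hm, HN_thS P χ hm, Linear.smul_comp, Linear.comp_smul, smul_smul (χ g),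
      ← hm, add_neg_cancel, h1, one_smul])
  have he : F.map e = (Fintype.card Γ : K)⁻¹ • (HN_Q P χ ≫ HN_S P χ) := he
  have hSQ := HN_SQ P χ h1 hm
  have hee : e ≫ e = e := by
    apply T.faithful
    rw [F.map_comp, he, Linear.smul_comp, Linear.comp_smul, Category.assoc, ← Category.assoc (HN_S P χ), hSQ,
      Linear.smul_comp, Linear.comp_smul, Category.id_comp, smul_smul (Fintype.card Γ : K)⁻¹ (Fintype.card Γ : K),
      inv_mul_cancel₀ hn, one_smul]
  obtain ⟨x, i, p, hip, hpi⟩ := IsIdempotentComplete.idempotents_split P.x e hee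
  refine ⟨x, ⟨F.map i ≫ HN_Q P χ ≫ ε F, η F ≫ ((Fintype.card Γ : K)⁻¹ • HN_S P χ) ≫ F.map p, ?_, ?_⟩, ?_⟩
  · have h2 : (F.map i ≫ HN_Q P χ ≫ ε F) ≫ η F ≫ ((Fintype.card Γ : K)⁻¹ • HN_S P χ) ≫ F.map p =
        F.map i ≫ F.map e ≫ F.map p := by
      rw [he]
      simp only [Category.assoc, Functor.Monoidal.ε_η_assoc, Linear.smul_comp, Linear.comp_smul]
    rw [h2, ← hpi, F.map_comp, Category.assoc, ← F.map_comp i p, hip, F.map_id, Category.comp_id, ← F.map_comp, hip,
      F.map_id]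
  · have h2 : (η F ≫ ((Fintype.card Γ : K)⁻¹ • HN_S P χ) ≫ F.map p) ≫ F.map i ≫ HN_Q P χ ≫ ε F =
        η F ≫ ((Fintype.card Γ : K)⁻¹ • HN_S P χ) ≫ F.map e ≫ HN_Q P χ ≫ ε F := by
      rw [← hpi, F.map_comp]
      simp only [Category.assoc]
    rw [h2, he]
    have h3 : ((Fintype.card Γ : K)⁻¹ • HN_S P χ) ≫ ((Fintype.card Γ : K)⁻¹ • (HN_Q P χ ≫ HN_S P χ)) ≫
        HN_Q P χ ≫ ε F = ε F := by
      rw [Linear.smul_comp, Linear.smul_comp, Linear.comp_smul, Category.assoc, ← Category.assoc (HN_S P χ) (HN_Q P χ),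
        ← Category.assoc (HN_S P χ) (HN_Q P χ), hSQ, Linear.smul_comp, Category.id_comp, Linear.smul_comp,
        Category.id_comp, smul_smul, smul_smul, smul_smul]
      rw [inv_mul_cancel_right₀ hn, inv_mul_cancel₀ hn, one_smul]
    rw [h3, Functor.Monoidal.η_ε]
  · intro g
    show T.th g (F.map i ≫ HN_Q P χ ≫ ε F) = χ g • (F.map i ≫ HN_Q P χ ≫ ε F)
    rw [T.th_comp, T.th_map, HN_thQ P χ hm, Linear.comp_smul]

end

section

variable [Fintype Γ] [DecidableEq Γ] {n : ℕ} [NeZero n]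

/-- the space of weight `a` -/
private def HN_W (T : ThH K F Γ) (X : Chars K (Multiplicative Γ) n) (a : ZMod n) (x y : C) :
    Submodule K (F.obj x ⟶ F.obj y) where
  carrier := {h | ∀ g : Multiplicative Γ, T.th g.toAdd h = X.X a g • h}
  add_mem' := by
    intro h k hh hk g
    rw [T.th_add, hh g, hk g, smul_add]
  zero_mem' := by
    intro g
    rw [← HN_L_apply, map_zero, smul_zero]
  smul_mem' := by
    intro c h hh g
    rw [T.th_smul, hh g, smul_comm]

private theorem HN_mem (T : ThH K F Γ) (X : Chars K (Multiplicative Γ) n) (a : ZMod n) {x y : C}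
    (h : F.obj x ⟶ F.obj y) : h ∈ HN_W T X a x y ↔ ∀ g : Multiplicative Γ, T.th g.toAdd h = X.X a g • h := Iff.rfl

/-- the projection to the space of weight `a`, times `n` -/
private def HN_P (T : ThH K F Γ) (X : Chars K (Multiplicative Γ) n) (a : ZMod n) (x y : C) :
    (F.obj x ⟶ F.obj y) →ₗ[K] (F.obj x ⟶ F.obj y) := ∑ g : Multiplicative Γ, X.X (-a) g • HN_L T g.toAdd x y

private theorem HN_P_apply (T : ThH K F Γ) (X : Chars K (Multiplicative Γ) n) (a : ZMod n) {x y : C}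
    (h : F.obj x ⟶ F.obj y) : HN_P T X a x y h = ∑ g : Multiplicative Γ, X.X (-a) g • T.th g.toAdd h := by
  unfold HN_P
  rw [LinearMap.sum_apply]
  rfl

private theorem HN_Xneg (X : Chars K (Multiplicative Γ) n) (a : ZMod n) (g : Multiplicative Γ) :
    X.X a g * X.X (-a) g = 1 := by
  rw [← X.add, add_neg_cancel, X.zero]

private theorem HN_P_mem (T : ThH K F Γ) (X : Chars K (Multiplicative Γ) n) (a : ZMod n) {x y : C}
    (h : F.obj x ⟶ F.obj y) : HN_P T X a x y h ∈ HN_W T X a x y := by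
  rw [HN_mem]
  intro g'
  rw [← HN_L_apply, HN_P_apply, map_sum, Finset.smul_sum]
  rw [← Equiv.sum_comp (Equiv.mulLeft g') (fun g : Multiplicative Γ => X.X a g' • X.X (-a) g • T.th g.toAdd h)]
  refine Finset.sum_congr rfl fun g _ => ?_
  rw [map_smul, HN_L_apply, Equiv.coe_mulLeft, ← T.th_th, smul_smul, X.mul, ← mul_assoc, HN_Xneg, one_mul]
  rfl

private theorem HN_P_sum (T : ThH K F Γ) (X : Chars K (Multiplicative Γ) n) {x y : C} (h : F.obj x ⟶ F.obj y) :
    ∑ a, HN_P T X a x y h = (n : K) • h := by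
  have h1 : ∀ a, HN_P T X a x y h = ∑ g : Multiplicative Γ, X.X (-a) g • T.th g.toAdd h :=
    fun a => HN_P_apply T X a h
  rw [Finset.sum_congr rfl (fun a _ => h1 a), Finset.sum_comm]
  have h2 : ∀ g : Multiplicative Γ, ∑ a : ZMod n, X.X (-a) g • T.th g.toAdd h =
      (if g = 1 then (n : K) else 0) • T.th g.toAdd h := by
    intro g
    rw [← Finset.sum_smul, ← X.sum_a g, ← Equiv.sum_comp (Equiv.neg (ZMod n)) (fun a => X.X a g)]
    rfl
  rw [Finset.sum_congr rfl (fun g _ => h2 g), Finset.sum_eq_single (1 : Multiplicative Γ)]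
  · rw [if_pos rfl, toAdd_one, T.th_zero]
  · intro g _ hg
    rw [if_neg hg, zero_smul]
  · intro hg
    exact absurd (Finset.mem_univ _) hg

private theorem HN_P_of_mem (T : ThH K F Γ) (X : Chars K (Multiplicative Γ) n) (a b : ZMod n) {x y : C}
    {h : F.obj x ⟶ F.obj y} (hh : h ∈ HN_W T X b x y) :
    HN_P T X a x y h = (if b = a then (n : K) else 0) • h := by
  rw [HN_P_apply]
  have h1 : ∀ g : Multiplicative Γ, X.X (-a) g • T.th g.toAdd h = X.X (b - a) g • h := by
    intro g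
    rw [(HN_mem T X b h).1 hh g, smul_smul, ← X.add, sub_eq_add_neg, add_comm]
  rw [Finset.sum_congr rfl (fun g _ => h1 g), ← Finset.sum_smul, X.sum_g]
  by_cases hab : b = a
  · rw [if_pos hab, if_pos (sub_eq_zero.2 hab)]
  · rw [if_neg hab, if_neg (fun h => hab (sub_eq_zero.1 h))]

variable [MonoidalPreadditive C] [MonoidalLinear K C] [MonoidalPreadditive D] [MonoidalLinear K D]

/-- the weight decomposition -/
theorem FunT.exists_wts [IsIdempotentComplete C] {T : ThH K F Γ} (P : FunT T) (X : Chars K (Multiplicative Γ) n)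
    (hn : (n : K) ≠ 0) (hc : Fintype.card Γ = n) : Nonempty (Wts K F n) := by
  choose O τ hτ using fun a : ZMod n => P.exists_ch (by rwa [hc]) (fun g => X.X a (Multiplicative.ofAdd g)) (X.one a)
    (fun g h => X.mul a (Multiplicative.ofAdd g) (Multiplicative.ofAdd h))
  refine ⟨{
    map_add := T.map_add
    map_smul := T.map_smul
    W := HN_W T X
    comp := ?_
    ten := ?_
    map := ?_
    lift := ?_
    dec := ?_
    uniq := ?_
    T := O
    τ := τ
    τ_mem := fun a g => hτ a g.toAdd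
    dom := T.dom }⟩
  · intro a b c hc x y z f k hf hk
    rw [HN_mem]
    intro g
    rw [T.th_comp, (HN_mem T X a f).1 hf g, (HN_mem T X b k).1 hk g, Linear.smul_comp,
      Linear.comp_smul, smul_smul, ← hc, X.add]
  · intro a b c hc x y x' y' f f' hf hf'
    rw [HN_mem]
    intro g
    rw [T.th_ten, (HN_mem T X a f).1 hf g, (HN_mem T X b f').1 hf' g, MonoidalCategory.tensorHom_def,
      MonoidalLinear.smul_whiskerRight, MonoidalLinear.whiskerLeft_smul, Linear.smul_comp,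
      Linear.comp_smul, smul_smul, Linear.smul_comp, Linear.comp_smul, ← MonoidalCategory.tensorHom_def, ← hc, X.add]
  · intro x y f
    rw [HN_mem]
    intro g
    rw [T.th_map, X.zero, one_smul]
  · intro x y h hh
    refine T.th_fix h fun g => ?_
    have h2 := (HN_mem T X 0 h).1 hh (Multiplicative.ofAdd g)
    rw [X.zero, one_smul] at h2
    exact h2
  · intro x y h
    refine ⟨fun a => (n : K)⁻¹ • HN_P T X a x y h, fun a => Submodule.smul_mem _ _ (HN_P_mem T X a h), ?_⟩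
    rw [← Finset.smul_sum, HN_P_sum, smul_smul, inv_mul_cancel₀ hn, one_smul]
  · intro x y k hk h0 a
    have h1 : HN_P T X a x y (∑ b, k b) = (n : K) • k a := by
      rw [map_sum, Finset.sum_eq_single a]
      · rw [HN_P_of_mem T X a a (hk a), if_pos rfl]
      · intro b _ hb
        rw [HN_P_of_mem T X a b (hk b), if_neg hb, zero_smul]
      · intro h
        exact absurd (Finset.mem_univ _) h
    rw [h0, map_zero] at h1
    exact (smul_eq_zero.1 h1.symm).resolve_left hn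

/-- `Γ` of prime order -/
theorem FunT.exists_deeq [IsAlgClosed K] [CharZero K] [IsIdempotentComplete C] {T : ThH K F Γ} (P : FunT T)
    (hn : n.Prime) (hc : Fintype.card Γ = n) (h1 : ∀ f : 𝟙_ D ⟶ 𝟙_ D, ∃ c : K, f = c • 𝟙 _) :
    Nonempty (DeEq K F n) := by
  obtain ⟨X⟩ := exists_chars K (Multiplicative Γ) n hn (by rw [← hc]; exact Fintype.card_congr Multiplicative.toAdd)
  obtain ⟨Wt⟩ := P.exists_wts X (Nat.cast_ne_zero.2 (NeZero.ne n)) hc
  exact wts_deeq Wt h1

end

end Pool.Agent.SFC
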