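import Pool.Agent.SFC.ZTmp

/-!
# SFC/Red: the class `Red`

`Red p X`: `X` is nilpotent, or the category of bimodules over a group-like algebra of prime order `n ≠ p` in `X` is in
`Red p`.
-/

set_option autoImplicit false

noncomputable section

open CategoryTheory MonoidalCategory

namespace Pool.Agent.SFC

open Pool.Agent.NFG

universe v u w

variable {K : Type w} [Field K]

/-- bimodules as a fusion category -/
abbrev bimFC (X : FC.{v, u} K) (S : SFrob X.C) (hR : Rig (Bim S)) {ι' : Type} [Fintype ι'] [DecidableEq ι']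
    (FN : Fus K (Bim S) ι') : FC.{v, u} K where
  C := Bim S
  rig := hR
  ι := ι'
  F := FN

inductive Red (p : ℕ) : FC.{v, u} K → Prop
  | nil (X : FC.{v, u} K) (h : X.F.Nlp Set.univ) : Red p X
  | step (X : FC.{v, u} K) (n : ℕ) [NeZero n] (hn : n.Prime) (hnp : n ≠ p) (th : Gl X.C n) (S : SFrob X.C)
      (hS : IsSum K th S) (hR : Rig (Bim S)) (ι' : Type) [Fintype ι'] [DecidableEq ι'] (FN : Fus K (Bim S) ι')
      (h : Red p (bimFC X S hR FN)) : Red p X

/-- dimensions prime to `p` -/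
def PD (p : ℕ) (X : FC.{v, u} K) : Prop := ∃ f : X.ι → ℝ, IsFPdim X.F f ∧ ∀ i, RelP p (f i)

theorem end1_of {C : Type u} [Category.{v} C] [Preadditive C] [Linear K C] [MonoidalCategory C] {ι : Type} [Fintype ι]
    [DecidableEq ι] (F : Fus K C ι) (f : 𝟙_ C ⟶ 𝟙_ C) : ∃ c : K, f = c • 𝟙 (𝟙_ C) := by
  obtain ⟨c, hc⟩ := F.schur F.o (F.u.hom ≫ f ≫ F.u.inv)
  refine ⟨c, ?_⟩
  have h1 : f = F.u.inv ≫ (F.u.hom ≫ f ≫ F.u.inv) ≫ F.u.hom := by simp
  rw [h1, hc, Linear.smul_comp, Linear.comp_smul]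
  simp

variable [IsAlgClosed K] [CharZero K]

/-- the functor `V` for a group-like algebra -/
theorem step_gal (X : FC.{v, u} K) {n : ℕ} [NeZero n] (th : Gl X.C n) (S : SFrob X.C) (hS : IsSum K th S) :
    Nonempty (GalF K (VF S) n) := by
  have hn : (n : K) ≠ 0 := Nat.cast_ne_zero.2 (NeZero.ne n)
  haveI : NeZero (n : K) := ⟨hn⟩
  obtain ⟨ζ, hζ⟩ := HasEnoughRootsOfUnity.exists_primitiveRoot K n
  obtain ⟨Ga⟩ := exists_gal (K := K) hn hζ (end1_of X.F) hS
  obtain ⟨G, -⟩ := exists_galF X.F hS Ga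
  exact ⟨G⟩

theorem step_galA (X : FC.{v, u} K) {n : ℕ} [NeZero n] (th : Gl X.C n) (S : SFrob X.C) (hS : IsSum K th S) :
    ∃ G : GalF K (VF S) n, Nonempty (G.A ≅ S.A) := by
  have hn : (n : K) ≠ 0 := Nat.cast_ne_zero.2 (NeZero.ne n)
  haveI : NeZero (n : K) := ⟨hn⟩
  obtain ⟨ζ, hζ⟩ := HasEnoughRootsOfUnity.exists_primitiveRoot K n
  obtain ⟨Ga⟩ := exists_gal (K := K) hn hζ (end1_of X.F) hS
  exact exists_galF X.F hS Ga

theorem rigid_of_rig {C : Type*} [Category* C] [MonoidalCategory C] (h : Rig C) : Nonempty (RigidCategory C) := by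
  choose y hy using fun x => (h x).1
  choose z hz using fun x => (h x).2
  exact ⟨{ rightDual := fun X => { rightDual := y X, exact := (hy X).some }
           leftDual := fun X => { leftDual := z X, exact := (hz X).some } }⟩

theorem not_dvd_of_relP {p : ℕ} (hp : p.Prime) {x : ℝ} (h : RelP p x) {n : ℕ} (hn : x ^ 2 = (n : ℝ)) :
    ¬ p ∣ n := by
  rintro ⟨m, rfl⟩
  obtain ⟨a, b, ha, hb, hab⟩ := h
  have hp0 : (p : ℝ) ≠ 0 := by exact_mod_cast hp.ne_zero
  have h1 : (p : ℝ) * (b ^ 2 * m + 2 * a - a ^ 2 * p) = 1 := by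
    have h2 : b * x = 1 - a * p := by linarith
    have h3 : b ^ 2 * x ^ 2 = (1 - a * p) ^ 2 := by rw [← mul_pow, h2]
    rw [hn] at h3
    push_cast at h3
    linear_combination h3
  have hint : IsIntegral ℤ (b ^ 2 * m + 2 * a - a ^ 2 * p : ℝ) := by
    have hm : IsIntegral ℤ (m : ℝ) := by
      have := isIntegral_algebraMap (R := ℤ) (A := ℝ) (x := (m : ℤ))
      simpa using this
    have hpp : IsIntegral ℤ (p : ℝ) := by
      have := isIntegral_algebraMap (R := ℤ) (A := ℝ) (x := (p : ℤ))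
      simpa using this
    have h2 : IsIntegral ℤ (2 : ℝ) := by
      have := isIntegral_algebraMap (R := ℤ) (A := ℝ) (x := (2 : ℤ))
      simpa using this
    exact (((hb.pow 2).mul hm).add (h2.mul ha)).sub ((ha.pow 2).mul hpp)
  have hq : (b ^ 2 * m + 2 * a - a ^ 2 * p : ℝ) = algebraMap ℚ ℝ ((p : ℚ)⁻¹) := by
    rw [eq_ratCast, Rat.cast_inv, Rat.cast_natCast]
    field_simp
    linarith
  rw [hq] at hint
  have hint2 : IsIntegral ℤ ((p : ℚ)⁻¹) := (isIntegral_algebraMap_iff (algebraMap ℚ ℝ).injective).1 hint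
  obtain ⟨z, hz⟩ := IsIntegrallyClosed.isIntegral_iff.1 hint2
  have hpq : (p : ℚ) ≠ 0 := by exact_mod_cast hp.ne_zero
  have hz2 : (z * p : ℤ) = 1 := by
    have : (z : ℚ) * p = 1 := by
      have h5 : (z : ℚ) = (p : ℚ)⁻¹ := by simpa using hz
      rw [h5]
      field_simp
    exact_mod_cast this
  have h6 : (p : ℤ) ∣ 1 := ⟨z, by rw [mul_comm]; exact hz2.symm⟩
  have h7 : p ∣ 1 := by exact_mod_cast h6
  exact hp.one_lt.ne' (Nat.dvd_one.1 h7)

/-- the category of bimodules over a group-like algebra is fusion, with dimensions prime to `p` -/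
theorem step_bim (X : FC.{v, u} K) {n : ℕ} [NeZero n] (th : Gl X.C n) (S : SFrob X.C) (hS : IsSum K th S) :
    ∃ (_ : Rig (Bim S)) (ι' : Type) (_ : Fintype ι') (_ : DecidableEq ι'), Nonempty (Fus K (Bim S) ι') := by
  obtain ⟨G⟩ := step_gal X th S hS
  refine ⟨rig_gal G X.rig, ?_⟩
  exact gal_fus G X.F

theorem step_pd (X : FC.{v, u} K) {p : ℕ} (hp : p.Prime) (hX : PD p X) {n : ℕ} [NeZero n] (hn : n.Prime) (hnp : n ≠ p)
    (th : Gl X.C n) (S : SFrob X.C) (hS : IsSum K th S) (hR : Rig (Bim S)) {ι' : Type} [Fintype ι'] [DecidableEq ι']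
    (FN : Fus K (Bim S) ι') : PD p (bimFC X S hR FN) := by
  obtain ⟨G⟩ := step_gal X th S hS
  obtain ⟨f, hf, h⟩ := hX
  exact ⟨_, fN_fp G X.rig hf FN, fun j => gal_relP G X.rig hf FN hp hn hnp h j⟩

end Pool.Agent.SFC
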