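import Pool.Agent.SFC.Red

/-! # SFC/RedA: forms for `Red`; closure of `Red` -/

set_option autoImplicit false

noncomputable section

open CategoryTheory MonoidalCategory

namespace Pool.Agent.SFC

open Pool.Agent.NFG

universe v u w

variable {K : Type w} [Field K] [IsAlgClosed K] [CharZero K]

theorem prime_unit {O : Subring K} (hO : Val O) {p : ℕ} (hp : p.Prime) (hpO : ((p : K))⁻¹ ∉ O) {n : ℕ} (hn : n.Prime)
    (hnp : n ≠ p) : IsU O (n : K) :=
  unit_of_coprime hO hp hpO fun h => hnp ((Nat.prime_dvd_prime_iff_eq hp hn).1 h).symm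

/-- a category in `Red p` with dimensions prime to `p` has an `O`-form -/
theorem red_form {O : Subring K} (hO : Val O) {p : ℕ} (hp : p.Prime) (hpO : ((p : K))⁻¹ ∉ O) (X : FC.{v, u} K)
    (hX : Red p X) (hd : PD p X) : ∃ L : X.F.Sy, X.F.IsForm O L := by
  induction hX with
  | nil X h =>
    obtain ⟨f, hf, hr⟩ := hd
    obtain ⟨hrig⟩ := rigid_of_rig X.rig
    obtain ⟨L, hL, -⟩ := main_rigid hO hp hpO X.F h hf (fun i _ hn => not_dvd_of_relP hp (hr i) hn)
    exact ⟨L, hL⟩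
  | step X n hn hnp th S hS hR ι' FN h ih =>
    obtain ⟨L, hL⟩ := ih (step_pd X hp hd hn hnp th S hS hR FN)
    obtain ⟨G⟩ := step_gal X th S hS
    obtain ⟨f, hf, hr⟩ := hd
    exact transfer G hO (prime_unit hO hp hpO hn hnp) X.F FN X.rig
      (fun i j u q huq => gal_sc G X.rig hf FN hO hp hpO hn hnp hr i j u q huq) L hL

/-- `Red` is closed under extensions -/
theorem red_ext {p : ℕ} (D : FC.{v, u} K) (hD : Red p D) : ∀ (X : FC.{v, u} K) (Q : Type) [Group Q] [Finite Q]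
    (deg : X.ι → Q) (G : D.C ⥤ X.C) [G.Monoidal], IsExt K G X.F Q deg → Red p X := by
  induction hD with
  | nil D h =>
    intro X Q _ _ deg G _ hG
    exact Red.nil X (nlp_ext D.F hG h)
  | step D n hn hnp th S hS hR ι' FN h ih =>
    intro X Q _ _ deg G _ hG
    obtain ⟨th', S', hS', G', _, h1, h2, h3, h4, h5, h6⟩ := ext_fn hG hS
    obtain ⟨GD⟩ := step_gal D th S hS
    obtain ⟨GC, ⟨eA⟩⟩ := step_galA X th' S' hS'
    obtain ⟨e6⟩ := h6
    obtain ⟨hR', ι'', _, _, ⟨FN'⟩⟩ := step_bim X th' S' hS'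
    obtain ⟨deg', hdeg'⟩ := ext_gal hG GD GC ⟨S.A, ⟨eA ≪≫ e6⟩⟩ h1 h2 h3 h4 h5 FN'
    exact Red.step X n hn hnp th' S' hS' hR' ι'' FN' (ih (bimFC X S' hR' FN') Q deg' G' hdeg')

/-- `Red` is closed under equivariantizations by `ZMod p` with dimensions prime to `p` -/
theorem red_deq {p : ℕ} [NeZero p] (hp : p.Prime) (D : FC.{v, u} K) (hD : Red p D) : ∀ (X : FC.{v, u} K) (F : X.C ⥤ D.C)
    [F.Monoidal], DeEq K F p → PD p X → Red p X := by
  induction hD with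
  | nil D h =>
    intro X F _ Q hX
    obtain ⟨f, hf, hr⟩ := hX
    obtain ⟨h1, -⟩ := deq_pd X.F D.F Q hp X.rig D.rig hf hr
    exact Red.nil X (deq_nil X.F D.F Q hp h1 h)
  | step D n hn hnp th S hS hR ι' FN h ih =>
    intro X F _ Q hX
    obtain ⟨f, hf, hr⟩ := id hX
    obtain ⟨h1, -⟩ := deq_pd X.F D.F Q hp X.rig D.rig hf hr
    obtain ⟨th', S', hS', F', _, ⟨Q'⟩⟩ := deq_step X.F D.F Q hp h1 hn hnp hS
    obtain ⟨hR', ι'', _, _, ⟨FN'⟩⟩ := step_bim X th' S' hS'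
    exact Red.step X n hn hnp th' S' hS' hR' ι'' FN'
      (ih (bimFC X S' hR' FN') F' Q' (step_pd X hp hX hn hnp th' S' hS' hR' FN'))

/-- a chain of extensions and equivariantizations by groups of prime order -/
theorem chain_red {p : ℕ} (hp : p.Prime) (X : FC.{v, u} K) (hX : Chain K X) : PD p X → Red p X := by
  haveI : NeZero p := ⟨hp.ne_zero⟩
  induction hX with
  | nil X h =>
    intro _
    exact Red.nil X h
  | ext D X Q deg G h hD ih =>
    intro hX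
    obtain ⟨f, hf, hr⟩ := hX
    obtain ⟨φ, hφ⟩ := exists_phi D.F h
    exact red_ext D (ih ⟨_, ext_fp hφ hf, fun a => hr (φ a)⟩) X Q deg G h
  | eqv D X G hG A F E hD ih =>
    intro hX
    haveI : NeZero (Nat.card G) := ⟨hG.ne_zero⟩
    obtain ⟨Q⟩ := eqv_deq E D.F hG rfl
    by_cases hnp : Nat.card G = p
    · subst hnp
      obtain ⟨f, hf, hr⟩ := id hX
      obtain ⟨-, h2⟩ := deq_pd X.F D.F Q hG X.rig D.rig hf hr
      exact red_deq hG D (ih h2) X F Q hX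
    · obtain ⟨S, ⟨hS⟩⟩ := exists_sum (K := K) (Nat.cast_ne_zero.2 hG.ne_zero) Q.th
      obtain ⟨hR, ι', _, _, ⟨FN⟩⟩ := step_bim X Q.th S hS
      haveI := fus_idem D.F
      haveI := fus_idem X.F
      obtain ⟨G', _, deg, hE⟩ := deq_ext Q hS FN
      obtain ⟨f, hf, hr⟩ := step_pd X hp hX hG hnp Q.th S hS hR FN
      obtain ⟨φ, hφ⟩ := exists_phi D.F hE
      exact Red.step X _ hG hnp Q.th S hS hR ι' FN
        (red_ext D (ih ⟨_, ext_fp hφ hf, fun a => hr (φ a)⟩) (bimFC X S hR FN) _ deg G' hE)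

theorem main {O : Subring K} (hO : Val O) {p : ℕ} (hp : p.Prime) (hpO : ((p : K))⁻¹ ∉ O) (X : FC.{v, u} K)
    (hX : Chain K X) (f : X.ι → ℝ) (hf : IsFPdim X.F f) (h : ∀ i, RelP p (f i)) :
    ∃ L : X.F.Sy, X.F.IsForm O L :=
  red_form hO hp hpO X (chain_red hp X hX ⟨f, hf, h⟩) ⟨f, hf, h⟩

end Pool.Agent.SFC
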