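import Pool.Agent.SFC.DefsB
import Pool.Agent.NFG.SemB

/-!
# SFC/TDefs: families of lattices and their maps (definitions of layer T)

`N` is a fusion category with an `O`-form `L`.  A family `n : F.Fam O W` on the object `W` is a collection of
`O`-submodules `n m` of `Hom (S m, W)`.
* `Mp n n' f`: `f : W ⟶ W'` maps the family `n` to the family `n'`;
* `LF n`: all `n m` are lattices;
* `tens L n n'`: the tensor product, a family on `W ⊗ W'`;
* `gen f`: the family generated by `f : S i ⟶ W`;  `un O F`: the family on the unit object;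
* `push t n`: the image of `n` under `t : W ⟶ W'`;  `sclF c n`: the multiple of `n`;
* `OF O F L`: `L` is an `O`-form (with submodules instead of sets).

For `V : C ⥤ N`:
* `EOk V L e`: `e` makes `V 1` a Frobenius algebra over `O`;
* `Stb V L e n`: the family `n` on `V x` is a lattice stable under both actions of `V 1`;
* `pr V L n n'`: the product, a family on `V (x ⊗ y)`.
-/

set_option autoImplicit false

noncomputable section

open CategoryTheory MonoidalCategory
open scoped BigOperators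

namespace Pool.Agent.SFC

open Pool.Agent.NFG

universe v u v' u' w

section Fam

variable {K : Type w} [Field K] {N : Type u'} [Category.{v'} N] [Preadditive N] [Linear K N] [MonoidalCategory N]
  {ι : Type} [Fintype ι] [DecidableEq ι] {O : Subring K} {F : Fus K N ι}

/-- `f` maps the family `n` to the family `n'`. -/
def Mp {W W' : N} (n : F.Fam O W) (n' : F.Fam O W') (f : W ⟶ W') : Prop := ∀ m, ∀ g ∈ n m, g ≫ f ∈ n' m

/-- The members of the family are lattices. -/
def LF {W : N} (n : F.Fam O W) : Prop := ∀ m, IsLat O (n m)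

/-- The tensor product of two families. -/
def tens (L : F.Sys O) {W W' : N} (n : F.Fam O W) (n' : F.Fam O W') : F.Fam O (W ⊗ W') := fun m =>
  Submodule.span O {h | ∃ (i j : ι) (z : F.S m ⟶ F.S i ⊗ F.S j) (f : F.S i ⟶ W) (g : F.S j ⟶ W'),
    z ∈ L i j m ∧ f ∈ n i ∧ g ∈ n' j ∧ h = z ≫ (f ⊗ₘ g)}

/-- The family generated by one morphism. -/
def gen {W : N} {i : ι} (f : F.S i ⟶ W) : F.Fam O W := fun m =>
  Submodule.span O {g | ∃ h : m = i, g = eqToHom (congrArg F.S h) ≫ f}

variable (O F) in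
/-- The family on the unit object. -/
def un : F.Fam O (𝟙_ N) := gen F.u.hom

/-- The image of a family. -/
def push {W W' : N} (t : W ⟶ W') (n : F.Fam O W) : F.Fam O W' := fun m =>
  { carrier := {h | ∃ f ∈ n m, h = f ≫ t}
    add_mem' := by
      rintro _ _ ⟨f, hf, rfl⟩ ⟨g, hg, rfl⟩
      exact ⟨f + g, (n m).add_mem hf hg, (Preadditive.add_comp _ _ _ _ _ _).symm⟩
    zero_mem' := ⟨0, (n m).zero_mem, Limits.zero_comp.symm⟩
    smul_mem' := by
      rintro c _ ⟨f, hf, rfl⟩
      exact ⟨c • f, (n m).smul_mem c hf, (Linear.smul_comp _ _ _ (c : K) f t).symm⟩ }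

/-- The multiple of a family. -/
def sclF {W : N} (c : K) (n : F.Fam O W) : F.Fam O W := fun m => scl c (n m)

variable (O F) in
/-- `L` is an `O`-form of `N`. -/
structure OF (L : F.Sys O) : Prop where
  val : Val O
  lat : ∀ i j k, IsLat O (L i j k)
  unitL : ∀ v, L F.o v v = Submodule.span O {F.lam v}
  unitR : ∀ v, L v F.o v = Submodule.span O {F.rho v}
  assoc : ∀ i j v, F.N1 L i j (fun k => L k v) = F.N2 L i (L j v)
  rigid : ∀ i, ∃ (j : ι) (e : ExactPairing (F.S i) (F.S j)), F.u.hom ≫ e.coevaluation' ∈ L i j F.o ∧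
    e.evaluation' ≫ F.u.inv ∈ F.dl (L j i F.o)

/-! ### First properties -/

theorem smul_mem_K {A B : N} {P : Submodule O (A ⟶ B)} {c : K} (hc : c ∈ O) {h : A ⟶ B} (hh : h ∈ P) : c • h ∈ P :=
  P.smul_mem ⟨c, hc⟩ hh

theorem mp_id {W : N} (n : F.Fam O W) : Mp n n (𝟙 W) := fun m g hg => by rwa [Category.comp_id]

theorem mp_comp {W W' W'' : N} {n : F.Fam O W} {n' : F.Fam O W'} {n'' : F.Fam O W''} {f : W ⟶ W'} {g : W' ⟶ W''}
    (hf : Mp n n' f) (hg : Mp n' n'' g) : Mp n n'' (f ≫ g) := fun m h hh => by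
  rw [← Category.assoc]
  exact hg m _ (hf m h hh)

theorem mp_add {W W' : N} {n : F.Fam O W} {n' : F.Fam O W'} {f g : W ⟶ W'} (hf : Mp n n' f) (hg : Mp n n' g) :
    Mp n n' (f + g) := fun m h hh => by
  rw [Preadditive.comp_add]
  exact (n' m).add_mem (hf m h hh) (hg m h hh)

theorem mp_zero {W W' : N} {n : F.Fam O W} {n' : F.Fam O W'} : Mp n n' (0 : W ⟶ W') := fun m h _ => by
  rw [Limits.comp_zero]
  exact (n' m).zero_mem

theorem mp_smul {W W' : N} {n : F.Fam O W} {n' : F.Fam O W'} {f : W ⟶ W'} {c : K} (hc : c ∈ O) (hf : Mp n n' f) :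
    Mp n n' (c • f) := fun m h hh => by
  rw [Linear.comp_smul]
  exact smul_mem_K hc (hf m h hh)

theorem mp_sum {W W' : N} {n : F.Fam O W} {n' : F.Fam O W'} {κ : Type*} (s : Finset κ) {f : κ → (W ⟶ W')}
    (hf : ∀ k ∈ s, Mp n n' (f k)) : Mp n n' (∑ k ∈ s, f k) := fun m h hh => by
  rw [Preadditive.comp_sum]
  exact Submodule.sum_mem _ fun k hk => hf k hk m h hh

theorem mem_gen {W : N} {i : ι} (f : F.S i ⟶ W) : f ∈ gen (O := O) f i :=
  Submodule.subset_span ⟨rfl, by simp⟩

theorem mp_gen {W W' : N} {i : ι} {f : F.S i ⟶ W} {n' : F.Fam O W'} {g : W ⟶ W'} :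
    Mp (gen f) n' g ↔ f ≫ g ∈ n' i := by
  constructor
  · intro h
    exact h i f (mem_gen f)
  · intro h m x hx
    induction hx using Submodule.span_induction with
    | mem x hx =>
      obtain ⟨rfl, rfl⟩ := hx
      simpa using h
    | zero =>
      rw [Limits.zero_comp]
      exact (n' m).zero_mem
    | add x y _ _ h1 h2 =>
      rw [Preadditive.add_comp]
      exact (n' m).add_mem h1 h2
    | smul c x _ h1 =>
      have h2 : (c • x : F.S m ⟶ W) = (c : K) • x := rfl
      rw [h2, Linear.smul_comp]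
      exact smul_mem_K c.2 h1

theorem mp_push {W W' : N} (t : W ⟶ W') (n : F.Fam O W) : Mp n (push t n) t := fun _ g hg => ⟨g, hg, rfl⟩

theorem mp_push_iff {W W' W'' : N} {t : W ⟶ W'} {n : F.Fam O W} {n' : F.Fam O W''} {f : W' ⟶ W''} :
    Mp (push t n) n' f ↔ Mp n n' (t ≫ f) := by
  constructor
  · intro h
    exact mp_comp (mp_push t n) h
  · rintro h m _ ⟨g, hg, rfl⟩
    rw [Category.assoc]
    exact h m g hg

theorem mp_sclL {W W' : N} {n : F.Fam O W} {n' : F.Fam O W'} {f : W ⟶ W'} {c : K} :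
    Mp (sclF c n) n' f ↔ Mp n n' (c • f) := by
  constructor
  · intro h m g hg
    rw [Linear.comp_smul, ← Linear.smul_comp]
    exact h m _ ⟨g, hg, rfl⟩
  · rintro h m _ ⟨g, hg, rfl⟩
    rw [Linear.smul_comp, ← Linear.comp_smul]
    exact h m g hg

theorem mp_sclR {W W' : N} {n : F.Fam O W} {n' : F.Fam O W'} {f : W ⟶ W'} {c : K} (hc : c ≠ 0) :
    Mp n (sclF c n') f ↔ Mp n n' (c⁻¹ • f) := by
  constructor
  · intro h m g hg
    obtain ⟨y, hy, h1⟩ := h m g hg
    rw [Linear.comp_smul, h1, smul_smul, inv_mul_cancel₀ hc, one_smul]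
    exact hy
  · intro h m g hg
    refine ⟨g ≫ (c⁻¹ • f), h m g hg, ?_⟩
    rw [Linear.comp_smul, smul_smul, mul_inv_cancel₀ hc, one_smul]

end Fam

section V

variable {K : Type w} [Field K] {C : Type u} [Category.{v} C] [MonoidalCategory C]
  {N : Type u'} [Category.{v'} N] [Preadditive N] [Linear K N] [MonoidalCategory N]
  {ι' : Type} [Fintype ι'] [DecidableEq ι'] {O : Subring K} {FN : Fus K N ι'}

open Functor.LaxMonoidal Functor.OplaxMonoidal

/-- `e` makes `V 1` a Frobenius algebra over `O`. -/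
structure EOk (V : C ⥤ N) [V.LaxMonoidal] [V.OplaxMonoidal] (L : FN.Sys O) (e : FN.Fam O (V.obj (𝟙_ C))) : Prop where
  lat : LF e
  mul : Mp (tens L e e) e (aL V (𝟙_ C))
  one : Mp (un O FN) e (ε V)
  cn : Mp e (un O FN) (η V)
  sg : Mp (un O FN) (tens L e e) (ε V ≫ cL V (𝟙_ C))

/-- `n` is a lattice on `V x`, stable under `V 1`. -/
structure Stb (V : C ⥤ N) [V.LaxMonoidal] (L : FN.Sys O) (e : FN.Fam O (V.obj (𝟙_ C))) {x : C}
    (n : FN.Fam O (V.obj x)) : Prop where
  lat : LF n
  aL : Mp (tens L e n) n (aL V x)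
  aR : Mp (tens L n e) n (aR V x)

/-- The product of two families. -/
def pr (V : C ⥤ N) [V.LaxMonoidal] (L : FN.Sys O) {x y : C} (n : FN.Fam O (V.obj x)) (n' : FN.Fam O (V.obj y)) :
    FN.Fam O (V.obj (x ⊗ y)) := push (μ V x y) (tens L n n')

end V

end Pool.Agent.SFC
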