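import Mathlib

/-!
# SFC/TeA: 2-cocycles of a cyclic group with values in a divisible commutative group

A 2-cocycle `c : ZMod n → ZMod n → G` with values in a commutative group in which every element is an `n`-th power is a
coboundary.  Proof: choose `y ^ n = ∏ i < n, c i 1` and put `t k = c 0 0 * y ^ k / ∏ i < k, c i 1`; `t` is `n`-periodic and
`c k l = t k * t l / t (k + l)` by induction on `l`.
-/

set_option autoImplicit false

namespace Pool.Agent.SFC

private theorem TeA_zero {n : ℕ} {G : Type*} [CommGroup G] (c : ZMod n → ZMod n → G)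
    (hc : ∀ a b d, c a b * c (a + b) d = c b d * c a (b + d)) (a : ZMod n) : c a 0 = c 0 0 := by
  have h := hc a 0 0
  rw [add_zero, add_zero] at h
  exact mul_right_cancel h

theorem te_cobound {n : ℕ} [NeZero n] {G : Type*} [CommGroup G] (hr : ∀ x : G, ∃ y : G, y ^ n = x)
    (c : ZMod n → ZMod n → G) (hc : ∀ a b d, c a b * c (a + b) d = c b d * c a (b + d)) :
    ∃ t : ZMod n → G, ∀ a b, c a b = t a * t b / t (a + b) := by
  obtain ⟨y, hy⟩ := hr (∏ i ∈ Finset.range n, c (i : ZMod n) 1)
  obtain ⟨P, hP⟩ : ∃ P : ℕ → G, P = fun k => ∏ i ∈ Finset.range k, c (i : ZMod n) 1 := ⟨_, rfl⟩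
  have hPs : ∀ k, P (k + 1) = P k * c (k : ZMod n) 1 := fun k => by
    rw [hP]
    exact Finset.prod_range_succ _ _
  have hP0 : P 0 = 1 := by
    rw [hP]
    exact Finset.prod_range_zero _
  have hPn : ∀ k, P (k + n) = P k * P n := by
    intro k
    induction k with
    | zero => rw [zero_add, hP0, one_mul]
    | succ k ih =>
      have h1 : k + 1 + n = k + n + 1 := by omega
      rw [h1, hPs, hPs, ih, Nat.cast_add, ZMod.natCast_self, add_zero]
      exact mul_right_comm _ _ _
  have hyn : y ^ n = P n := by rw [hy, hP]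
  obtain ⟨T, hT⟩ : ∃ T : ℕ → G, T = fun k => c 0 0 * y ^ k / P k := ⟨_, rfl⟩
  have hT0 : T 0 = c 0 0 := by rw [hT]; simp [hP0]
  have hTs : ∀ k, T (k + 1) = T k * y / c (k : ZMod n) 1 := by
    intro k
    rw [hT]
    show c 0 0 * y ^ (k + 1) / P (k + 1) = c 0 0 * y ^ k / P k * y / c (k : ZMod n) 1
    rw [hPs, pow_succ, ← mul_assoc, div_mul_eq_div_div, div_mul_eq_mul_div]
  have hTn : ∀ k, T (k + n) = T k := by
    intro k
    rw [hT]
    show c 0 0 * y ^ (k + n) / P (k + n) = c 0 0 * y ^ k / P k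
    rw [hPn, pow_add, hyn, ← mul_assoc, mul_div_mul_right_eq_div]
  have hTm : ∀ q k, T (k + n * q) = T k := by
    intro q k
    induction q with
    | zero => rw [mul_zero, add_zero]
    | succ q ih => rw [Nat.mul_succ, ← add_assoc, hTn, ih]
  have hTmod : ∀ k, T (k % n) = T k := by
    intro k
    conv_rhs => rw [← Nat.mod_add_div k n]
    rw [hTm]
  have hmain : ∀ k l : ℕ, c (k : ZMod n) (l : ZMod n) = T k * T l / T (k + l) := by
    intro k l
    induction l with
    | zero => rw [Nat.cast_zero, TeA_zero c hc, add_zero, hT0, mul_div_cancel_left]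
    | succ l ih =>
      have h := hc (k : ZMod n) (l : ZMod n) 1
      have h2 : c (k : ZMod n) ((l + 1 : ℕ) : ZMod n) =
          c (k : ZMod n) (l : ZMod n) * c ((k : ZMod n) + l) 1 / c (l : ZMod n) 1 := by
        rw [h, Nat.cast_succ, mul_div_cancel_left]
      rw [h2, ih, ← add_assoc, hTs, hTs, Nat.cast_add]
      generalize c ((k : ZMod n) + (l : ZMod n)) 1 = x
      generalize c (l : ZMod n) 1 = z
      simp only [div_eq_mul_inv, mul_inv, inv_inv]
      have h3 : T k * (T l * y * z⁻¹) * ((T (k + l))⁻¹ * y⁻¹ * x) =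
          T k * T l * (T (k + l))⁻¹ * x * z⁻¹ * (y * y⁻¹) := by
        simp only [mul_assoc, mul_comm, mul_left_comm]
      rw [h3, mul_inv_cancel, mul_one]
  refine ⟨fun a => T a.val, fun a b => ?_⟩
  have h := hmain a.val b.val
  rw [ZMod.natCast_zmod_val, ZMod.natCast_zmod_val] at h
  rw [h]
  show _ = T a.val * T b.val / T (a + b).val
  rw [ZMod.val_add, hTmod]

end Pool.Agent.SFC
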