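import Mathlib

/-!
# SFC/TeAH: 2-cocycles of a finite group with values in a uniquely divisible commutative group

If every element of the commutative group `G` has exactly one `n`-th root, `n = card Γ`, then every 2-cocycle
`c : Γ → Γ → G` (trivial action) is a coboundary: with `T a = ∏ d, c a d` the product of the cocycle identities over `d`
is `(c a b) ^ n * T (a + b) = T b * T a`; take `n`-th roots.
-/

set_option autoImplicit false

namespace Pool.Agent.SFC.G

theorem te_cobound {Γ : Type} [AddGroup Γ] [Fintype Γ] {G : Type*} [CommGroup G]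
    (hr : ∀ x : G, ∃ y : G, y ^ (Fintype.card Γ) = x) (hu : ∀ x : G, x ^ (Fintype.card Γ) = 1 → x = 1)
    (c : Γ → Γ → G) (hc : ∀ a b d, c a b * c (a + b) d = c b d * c a (b + d)) :
    ∃ t : Γ → G, ∀ a b, c a b = t a * t b / t (a + b) := by
  have hT : ∀ a b, c a b ^ (Fintype.card Γ) * ∏ d, c (a + b) d = (∏ d, c b d) * ∏ d, c a d := by
    intro a b
    have h1 : ∏ d, (c a b * c (a + b) d) = ∏ d, (c b d * c a (b + d)) :=
      Finset.prod_congr rfl fun d _ => hc a b d
    rw [Finset.prod_mul_distrib, Finset.prod_mul_distrib, Finset.prod_const, Finset.card_univ] at h1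
    rw [h1]
    congr 1
    exact Fintype.prod_equiv (Equiv.addLeft b) _ _ fun d => rfl
  choose t ht using fun a => hr (∏ d, c a d)
  refine ⟨t, fun a b => ?_⟩
  have h1 : (c a b / (t a * t b / t (a + b))) ^ (Fintype.card Γ) = 1 := by
    rw [div_pow, div_pow, mul_pow, ht, ht, ht, div_eq_one, eq_div_iff_mul_eq', hT, mul_comm]
  exact div_eq_one.1 (hu _ h1)

end Pool.Agent.SFC.G
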