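import Pool.Agent.SFC.TmA

/-!
# SFC/TeB: simple objects

`simple_of_end`: `exists_ne_zero`, `exists_retract`: `f : S k ⟶ W`, `g : W ⟶ S k`, `f ≫ g = 𝟙`; `g ≫ f = c • 𝟙` and `f ≫ g ≫ f = f` gives `c • f = f`, `c = 1`.
`gl_simple`: for `f : T g ⟶ T g` the endomorphism `m⁻¹ ≫ f ▷ T (-g) ≫ m` of `T 0 ≅ 𝟙 ≅ S o` is `c • 𝟙` (`schur`), so `f ▷ T (-g) = c • 𝟙`; then
`(f ▷ T (-g)) ▷ T g = c • 𝟙`, and by naturality of the isomorphism `T g ≅ T g ⊗ 𝟙 ≅ T g ⊗ T 0 ≅ T g ⊗ (T (-g) ⊗ T g) ≅ (T g ⊗ T (-g)) ⊗ T g`, `f = c • 𝟙`.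
`𝟙 (T g) ≠ 0`: otherwise `𝟙 (T g ⊗ T (-g)) = 0`, but this object is isomorphic to `S o`.
`dual_simple`: if `(S i, y)` is an exact pairing, `f ↦` (mate) is injective and additive from `End y` to `End (S i)`: for `f : y ⟶ y` let
`f' = (c ≫ S i ◁ f) ▷ S i ≫ α ≫ S i ◁ e`, (with unitors) an endomorphism of `S i`, so `f' = t • 𝟙` (`schur`), and `c ≫ S i ◁ f = t • c`, then `f = t • 𝟙` (zigzag).  `𝟙 y ≠ 0` since otherwise
`𝟙 (S i) = 0` by the zigzag identity.  So `simple_of_end` gives `S j ≅ y`, and transport the pairing.  `dual_simple'` in the same way.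
-/

set_option autoImplicit false

noncomputable section

open CategoryTheory MonoidalCategory
open scoped BigOperators

namespace Pool.Agent.SFC

open Pool.Agent.NFG

universe v' u' w

variable {K : Type w} [Field K] {N : Type u'} [Category.{v'} N] [Preadditive N] [Linear K N] [MonoidalCategory N]
  [MonoidalPreadditive N] [MonoidalLinear K N] {ι : Type} [Fintype ι] [DecidableEq ι] {O : Subring K}

theorem simple_of_end (F : Fus K N ι) {W : N} (h : ∀ f : W ⟶ W, ∃ c : K, f = c • 𝟙 W) (h0 : 𝟙 W ≠ 0) :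
    ∃ k, Nonempty (F.S k ≅ W) := by
  obtain ⟨k, f, hf⟩ := exists_ne_zero F h0
  obtain ⟨g, hg⟩ := exists_retract F hf
  obtain ⟨c, hc⟩ := h (g ≫ f)
  have h1 : f ≫ g ≫ f = f := by rw [← Category.assoc, hg, Category.id_comp]
  rw [hc, Linear.comp_smul, Category.comp_id] at h1
  have h2 : c = 1 := by
    have h3 : (c - 1) • f = 0 := by rw [sub_smul, h1, one_smul, sub_self]
    rcases smul_eq_zero.1 h3 with h4 | h4
    · exact sub_eq_zero.1 h4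
    · exact absurd h4 hf
  rw [h2, one_smul] at hc
  exact ⟨k, ⟨⟨f, g, hg, hc⟩⟩⟩

/-- an object with a one-sided inverse isomorphic to the unit is simple -/
private theorem TeB_inv (F : Fus K N ι) {X Y : N} (E : 𝟙_ N ≅ X ⊗ Y) (E' : 𝟙_ N ≅ Y ⊗ X) :
    ∃ k, Nonempty (F.S k ≅ X) := by
  have hne : 𝟙 X ≠ 0 := by
    intro h
    have h1 : 𝟙 (X ⊗ Y) = 0 := by
      rw [← id_whiskerRight, h, MonoidalPreadditive.zero_whiskerRight]
    apply F.one_ne F.o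
    have h2 : 𝟙 (F.S F.o) = (F.u.hom ≫ E.hom) ≫ 𝟙 (X ⊗ Y) ≫ E.inv ≫ F.u.inv := by simp
    rw [h2, h1, Limits.zero_comp, Limits.comp_zero]
  refine simple_of_end F (fun f => ?_) hne
  obtain ⟨c, hc⟩ := F.schur F.o (F.u.hom ≫ E.hom ≫ f ▷ Y ≫ E.inv ≫ F.u.inv)
  have h1 : f ▷ Y = c • 𝟙 (X ⊗ Y) := by
    calc f ▷ Y = (E.inv ≫ F.u.inv) ≫ (F.u.hom ≫ E.hom ≫ f ▷ Y ≫ E.inv ≫ F.u.inv) ≫ F.u.hom ≫ E.hom := by simp
      _ = _ := by
        rw [hc, Linear.smul_comp, Linear.comp_smul]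
        simp
  refine ⟨c, ?_⟩
  have h2 : f ≫ (ρ_ X).inv ≫ X ◁ E'.hom ≫ (α_ _ _ _).inv = (ρ_ X).inv ≫ X ◁ E'.hom ≫ (α_ _ _ _).inv ≫
      (f ▷ Y) ▷ X := by
    rw [rightUnitor_inv_naturality_assoc, ← whisker_exchange_assoc, associator_inv_naturality_left]
  rw [h1, MonoidalLinear.smul_whiskerRight, id_whiskerRight, Linear.comp_smul, Linear.comp_smul, Linear.comp_smul,
    Category.comp_id] at h2
  calc f = (f ≫ (ρ_ X).inv ≫ X ◁ E'.hom ≫ (α_ _ _ _).inv) ≫ (α_ _ _ _).hom ≫ X ◁ E'.inv ≫ (ρ_ X).hom := by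
        simp only [Category.assoc, Iso.inv_hom_id_assoc, whiskerLeft_hom_inv_assoc, Iso.inv_hom_id, Category.comp_id]
    _ = _ := by
        rw [h2, Linear.smul_comp]
        simp only [Category.assoc, Iso.inv_hom_id_assoc, whiskerLeft_hom_inv_assoc, Iso.inv_hom_id]

theorem gl_simple (F : Fus K N ι) {n : ℕ} [NeZero n] (th : Gl N n) (g : ZMod n) :
    ∃ k, Nonempty (F.S k ≅ th.T g) :=
  TeB_inv F (th.u ≪≫ (th.m g (-g) 0 (add_neg_cancel g)).symm) (th.u ≪≫ (th.m (-g) g 0 (neg_add_cancel g)).symm)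

/-- an object whose endomorphisms correspond to the endomorphisms of a simple object is simple -/
private theorem TeB_equiv (F : Fus K N ι) {i : ι} {y : N} (φ : (y ⟶ y) ≃ (F.S i ⟶ F.S i))
    (hs : ∀ (c : K) (f : y ⟶ y), φ (c • f) = c • φ f) : ∃ k, Nonempty (F.S k ≅ y) := by
  have h0 : φ 0 = 0 := by
    have h := hs 0 0
    rwa [zero_smul, zero_smul] at h
  have hne : 𝟙 y ≠ 0 := by
    intro h
    apply F.one_ne i
    have h1 : ∀ f : y ⟶ y, f = 0 := fun f => by rw [← Category.id_comp f, h, Limits.zero_comp]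
    rw [← φ.apply_symm_apply (𝟙 (F.S i)), h1 (φ.symm _), h0]
  refine simple_of_end F (fun f => ?_) hne
  obtain ⟨c, hc⟩ := F.schur i (φ f)
  obtain ⟨d, hd⟩ := F.schur i (φ (𝟙 y))
  have hd0 : d ≠ 0 := by
    rintro rfl
    apply hne
    apply φ.injective
    rw [hd, h0, zero_smul]
  refine ⟨c / d, ?_⟩
  apply φ.injective
  rw [hs, hd, hc, smul_smul, div_mul_cancel₀ _ hd0]

theorem dual_simple (F : Fus K N ι) {i : ι} {y : N} (e : ExactPairing (F.S i) y) :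
    ∃ j, Nonempty (ExactPairing (F.S i) (F.S j)) := by
  letI := e
  obtain ⟨φ, hφ⟩ : ∃ φ : (y ⟶ y) ≃ (F.S i ⟶ F.S i), ∀ (c : K) (f : y ⟶ y), φ (c • f) = c • φ f := by
    refine ⟨(((ρ_ y).symm.homCongr (Iso.refl y)).trans (tensorLeftHomEquiv (𝟙_ N) (F.S i) y y)).trans
      ((tensorRightHomEquiv (𝟙_ N) (F.S i) y (F.S i)).symm.trans ((λ_ (F.S i)).homCongr (Iso.refl (F.S i)))), ?_⟩
    intro c f
    simp [tensorLeftHomEquiv, tensorRightHomEquiv]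
  obtain ⟨j, ⟨E⟩⟩ := TeB_equiv F φ hφ
  exact ⟨j, ⟨exactPairingCongrRight E⟩⟩

theorem dual_simple' (F : Fus K N ι) {i : ι} {y : N} (e : ExactPairing y (F.S i)) :
    ∃ j, Nonempty (ExactPairing (F.S j) (F.S i)) := by
  letI := e
  obtain ⟨φ, hφ⟩ : ∃ φ : (y ⟶ y) ≃ (F.S i ⟶ F.S i), ∀ (c : K) (f : y ⟶ y), φ (c • f) = c • φ f := by
    refine ⟨(((λ_ y).symm.homCongr (Iso.refl y)).trans (tensorRightHomEquiv (𝟙_ N) y (F.S i) y)).trans
      ((tensorLeftHomEquiv (𝟙_ N) y (F.S i) (F.S i)).symm.trans ((ρ_ (F.S i)).homCongr (Iso.refl (F.S i)))), ?_⟩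
    intro c f
    simp [tensorLeftHomEquiv, tensorRightHomEquiv]
  obtain ⟨j, ⟨E⟩⟩ := TeB_equiv F φ hφ
  exact ⟨j, ⟨exactPairingCongrLeft E⟩⟩

end Pool.Agent.SFC
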