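import Pool.Agent.SFC.DefsG
import Pool.Agent.SFC.TeB

/-!
# SFC/TeBH (general finite group): group-like objects are simple
-/

set_option autoImplicit false

noncomputable section

open CategoryTheory MonoidalCategory
open scoped BigOperators

namespace Pool.Agent.SFC.G

open Pool.Agent.NFG

universe v' u' w

variable {K : Type w} [Field K] {N : Type u'} [Category.{v'} N] [Preadditive N] [Linear K N] [MonoidalCategory N]
  [MonoidalPreadditive N] [MonoidalLinear K N] {ι : Type} [Fintype ι] [DecidableEq ι] {O : Subring K}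

/-- an object with a one-sided inverse isomorphic to the unit is simple -/
private theorem TeBH_inv (F : Fus K N ι) {X Y : N} (E : 𝟙_ N ≅ X ⊗ Y) (E' : 𝟙_ N ≅ Y ⊗ X) :
    ∃ k, Nonempty (F.S k ≅ X) := by
  have hne : 𝟙 X ≠ 0 := by
    intro h
    have h1 : 𝟙 (X ⊗ Y) = 0 := by
      rw [← id_whiskerRight, h, MonoidalPreadditive.zero_whiskerRight]
    apply F.one_ne F.o
    have h2 : 𝟙 (F.S F.o) = (F.u.hom ≫ E.hom) ≫ 𝟙 (X ⊗ Y) ≫ E.inv ≫ F.u.inv := by simp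
    rw [h2, h1, Limits.zero_comp, Limits.comp_zero]
  refine simple_of_end F (fun f => ?_) hne
  obtain ⟨c, hc⟩ := F.schur F.o (F.u.hom ≫ E.hom ≫ f ▷ Y ≫ E.inv ≫ F.u.inv)
  have h1 : f ▷ Y = c • 𝟙 (X ⊗ Y) := by
    calc f ▷ Y = (E.inv ≫ F.u.inv) ≫ (F.u.hom ≫ E.hom ≫ f ▷ Y ≫ E.inv ≫ F.u.inv) ≫ F.u.hom ≫ E.hom := by simp
      _ = _ := by
        rw [hc, Linear.smul_comp, Linear.comp_smul]
        simp
  refine ⟨c, ?_⟩
  have h2 : f ≫ (ρ_ X).inv ≫ X ◁ E'.hom ≫ (α_ _ _ _).inv = (ρ_ X).inv ≫ X ◁ E'.hom ≫ (α_ _ _ _).inv ≫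
      (f ▷ Y) ▷ X := by
    rw [rightUnitor_inv_naturality_assoc, ← whisker_exchange_assoc, associator_inv_naturality_left]
  rw [h1, MonoidalLinear.smul_whiskerRight, id_whiskerRight, Linear.comp_smul, Linear.comp_smul, Linear.comp_smul,
    Category.comp_id] at h2
  calc f = (f ≫ (ρ_ X).inv ≫ X ◁ E'.hom ≫ (α_ _ _ _).inv) ≫ (α_ _ _ _).hom ≫ X ◁ E'.inv ≫ (ρ_ X).hom := by
        simp only [Category.assoc, Iso.inv_hom_id_assoc, whiskerLeft_hom_inv_assoc, Iso.inv_hom_id, Category.comp_id]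
    _ = _ := by
        rw [h2, Linear.smul_comp]
        simp only [Category.assoc, Iso.inv_hom_id_assoc, whiskerLeft_hom_inv_assoc, Iso.inv_hom_id]

theorem gl_simple (F : Fus K N ι) {Γ : Type} [AddGroup Γ] (th : GlH N Γ) (g : Γ) :
    ∃ k, Nonempty (F.S k ≅ th.T g) :=
  TeBH_inv F (th.u ≪≫ (th.m g (-g) 0 (add_neg_cancel g)).symm) (th.u ≪≫ (th.m (-g) g 0 (neg_add_cancel g)).symm)

end Pool.Agent.SFC.G
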