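import Pool.Agent.SFC.TmA

/-!
# SFC/TmB: the associator maps the families to each other
-/

set_option autoImplicit false

noncomputable section

open CategoryTheory MonoidalCategory
open scoped BigOperators

namespace Pool.Agent.SFC

open Pool.Agent.NFG

universe v' u' w

variable {K : Type w} [Field K] {N : Type u'} [Category.{v'} N] [Preadditive N] [Linear K N] [MonoidalCategory N]
  [MonoidalPreadditive N] [MonoidalLinear K N] {ι : Type} [Fintype ι] [DecidableEq ι] {O : Subring K} {F : Fus K N ι}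

omit [MonoidalPreadditive N] [MonoidalLinear K N] in
/-- composition with `t` maps a span to a submodule when it maps the generators to it -/
private theorem TmB_span {A B D : N} (S : Set (A ⟶ B)) (P : Submodule O (A ⟶ D)) (t : B ⟶ D)
    (h : ∀ y ∈ S, y ≫ t ∈ P) {y : A ⟶ B} (hy : y ∈ Submodule.span O S) : y ≫ t ∈ P := by
  induction hy using Submodule.span_induction with
  | mem x hx => exact h x hx
  | zero =>
    rw [Limits.zero_comp]
    exact P.zero_mem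
  | add x y _ _ h1 h2 =>
    rw [Preadditive.add_comp]
    exact P.add_mem h1 h2
  | smul c x _ h1 =>
    have h2 : (c • x : A ⟶ B) = (c : K) • x := rfl
    rw [h2, Linear.smul_comp]
    exact smul_mem_K c.2 h1

theorem mp_assoc {L : F.Sys O} (h : OF O F L) {W₁ W₂ W₃ : N} (n₁ : F.Fam O W₁) (n₂ : F.Fam O W₂) (n₃ : F.Fam O W₃) :
    Mp (tens L (tens L n₁ n₂) n₃) (tens L n₁ (tens L n₂ n₃)) (α_ W₁ W₂ W₃).hom := by
  refine mp_tens_of3 fun m i j k l z z' a b c hz hz' ha hb hc => ?_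
  have h1 : z ≫ z' ▷ F.S k ≫ ((a ⊗ₘ b) ⊗ₘ c) ≫ (α_ W₁ W₂ W₃).hom =
      (z ≫ hat z' (F.S k)) ≫ (a ⊗ₘ (b ⊗ₘ c)) := by
    rw [MonoidalCategory.associator_naturality, hat]
    simp only [Category.assoc]
  have h2 : z ≫ hat z' (F.S k) ∈ F.N2 L i (L j k) m := by
    rw [← h.assoc]
    exact Submodule.subset_span ⟨l, z', z, hz', hz, rfl⟩
  rw [h1]
  refine TmB_span _ _ _ ?_ h2
  rintro _ ⟨m', f, x, hf, hx, rfl⟩
  have h3 : (f ≫ F.S i ◁ x) ≫ (a ⊗ₘ (b ⊗ₘ c)) = f ≫ (a ⊗ₘ (x ≫ (b ⊗ₘ c))) := by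
    rw [Category.assoc, ← id_tensorHom, MonoidalCategory.tensorHom_comp_tensorHom, Category.id_comp]
  rw [h3]
  exact mem_tens hf ha (mem_tens hx hb hc)

theorem mp_assoc_inv {L : F.Sys O} (h : OF O F L) {W₁ W₂ W₃ : N} (n₁ : F.Fam O W₁) (n₂ : F.Fam O W₂)
    (n₃ : F.Fam O W₃) : Mp (tens L n₁ (tens L n₂ n₃)) (tens L (tens L n₁ n₂) n₃) (α_ W₁ W₂ W₃).inv := by
  refine mp_tens_of3' fun m i j k l z z' a b c hz hz' ha hb hc => ?_
  have h1 : z ≫ F.S i ◁ z' ≫ (a ⊗ₘ (b ⊗ₘ c)) ≫ (α_ W₁ W₂ W₃).inv =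
      (z ≫ F.S i ◁ z') ≫ ((a ⊗ₘ (b ⊗ₘ c)) ≫ (α_ W₁ W₂ W₃).inv) := by
    rw [Category.assoc]
  have h2 : z ≫ F.S i ◁ z' ∈ F.N1 L i j (fun l => L l k) m := by
    rw [h.assoc]
    exact Submodule.subset_span ⟨l, z, z', hz, hz', rfl⟩
  rw [h1]
  refine TmB_span _ _ _ ?_ h2
  rintro _ ⟨a', x, f, hx, hf, rfl⟩
  have h3 : (f ≫ hat x (F.S k)) ≫ ((a ⊗ₘ (b ⊗ₘ c)) ≫ (α_ W₁ W₂ W₃).inv) =
      f ≫ ((x ≫ (a ⊗ₘ b)) ⊗ₘ c) := by
    rw [MonoidalCategory.associator_inv_naturality, hat]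
    have h4 : (x ≫ (a ⊗ₘ b)) ⊗ₘ c = x ▷ F.S k ≫ ((a ⊗ₘ b) ⊗ₘ c) := by
      rw [← tensorHom_id, MonoidalCategory.tensorHom_comp_tensorHom, Category.id_comp]
    rw [h4]
    simp only [Category.assoc, Iso.hom_inv_id_assoc]
  rw [h3]
  exact mem_tens hf (mem_tens hx ha hb) hc

end Pool.Agent.SFC
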