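import Pool.Agent.SFC.TmA

/-!
# SFC/TmC: the unit isomorphisms map the families to each other

`mp_lam`: by `mp_tens_of` a generator is `z ≫ (a ⊗ g)` with `z ∈ L i v m`, `a ∈ un i`, `g ∈ n v`; by linearity in `a` (`Submodule.span_induction`,
`un = gen F.u.hom`) enough for `i = o`, `a = F.u.hom`.  `z ≫ (F.u.hom ⊗ g) ≫ λ = (z ≫ F.u.hom ▷ _ ≫ λ) ≫ g`.  If `m ≠ v` then `z ≫ F.u.hom ▷ _ ≫ λ : S m ⟶ S v` is `0`
(`F.hom_zero`); if `m = v`, `z = c • lam v` with `c ∈ O` (`h.unitL`, `Submodule.mem_span_singleton`) and `lam v ≫ F.u.hom ▷ _ ≫ λ = 𝟙`, so the value is `c • g`.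
`mp_lam_inv`: `g ≫ λ⁻¹ = lam m ≫ (F.u.hom ⊗ g)` for `g ∈ n m` (`leftUnitor_inv_naturality`), `mem_tens`, `mem_gen`.  `mp_rho`, `mp_rho_inv` in the same way.
-/

set_option autoImplicit false

noncomputable section

open CategoryTheory MonoidalCategory
open scoped BigOperators

namespace Pool.Agent.SFC

open Pool.Agent.NFG

universe v' u' w

variable {K : Type w} [Field K] {N : Type u'} [Category.{v'} N] [Preadditive N] [Linear K N] [MonoidalCategory N]
  [MonoidalPreadditive N] [MonoidalLinear K N] {ι : Type} [Fintype ι] [DecidableEq ι] {O : Subring K} {F : Fus K N ι}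

private theorem TmC_lam_mem {L : F.Sys O} (h : OF O F L) (v : ι) : F.lam v ∈ L F.o v v := by
  rw [h.unitL]
  exact Submodule.mem_span_singleton_self _

private theorem TmC_rho_mem {L : F.Sys O} (h : OF O F L) (v : ι) : F.rho v ∈ L v F.o v := by
  rw [h.unitR]
  exact Submodule.mem_span_singleton_self _

theorem mp_lam {L : F.Sys O} (h : OF O F L) {W : N} (n : F.Fam O W) : Mp (tens L (un O F) n) n (λ_ W).hom := by
  refine mp_tens_of fun m i j z a g hz ha hg => ?_
  induction ha using Submodule.span_induction with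
  | mem x hx =>
    obtain ⟨hi, rfl⟩ := hx
    subst hi
    rw [eqToHom_refl, Category.id_comp, MonoidalCategory.tensorHom_def, Category.assoc,
      leftUnitor_naturality]
    by_cases hm : m = j
    · subst hm
      rw [h.unitL] at hz
      obtain ⟨c, rfl⟩ := Submodule.mem_span_singleton.1 hz
      have h1 : (c • F.lam m : F.S m ⟶ F.S F.o ⊗ F.S m) = (c : K) • F.lam m := rfl
      have h2 : F.lam m ≫ F.u.hom ▷ F.S m ≫ (λ_ (F.S m)).hom ≫ g = g := by
        rw [Fus.lam, Category.assoc, inv_hom_whiskerRight_assoc, Iso.inv_hom_id_assoc]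
      rw [h1, Linear.smul_comp, h2]
      exact smul_mem_K c.2 hg
    · have h1 := F.hom_zero m j hm (z ≫ F.u.hom ▷ F.S j ≫ (λ_ (F.S j)).hom)
      have h2 : z ≫ F.u.hom ▷ F.S j ≫ (λ_ (F.S j)).hom ≫ g =
          (z ≫ F.u.hom ▷ F.S j ≫ (λ_ (F.S j)).hom) ≫ g := by
        simp only [Category.assoc]
      rw [h2, h1, Limits.zero_comp]
      exact (n m).zero_mem
  | zero =>
    rw [th_zeroL, Limits.zero_comp, Limits.comp_zero]
    exact (n m).zero_mem
  | add x y _ _ h1 h2 =>
    rw [th_addL, Preadditive.add_comp, Preadditive.comp_add]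
    exact (n m).add_mem h1 h2
  | smul o x _ h1 =>
    have h2 : (o • x : F.S i ⟶ 𝟙_ N) = (o : K) • x := rfl
    rw [h2, th_smulL, Linear.smul_comp, Linear.comp_smul]
    exact smul_mem_K o.2 h1

theorem mp_lam_inv {L : F.Sys O} (h : OF O F L) {W : N} (n : F.Fam O W) :
    Mp n (tens L (un O F) n) (λ_ W).inv := by
  intro m g hg
  have h1 : g ≫ (λ_ W).inv = F.lam m ≫ (F.u.hom ⊗ₘ g) := by
    rw [leftUnitor_inv_naturality, Fus.lam, MonoidalCategory.tensorHom_def, Category.assoc,
      inv_hom_whiskerRight_assoc]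
  rw [h1]
  exact mem_tens (TmC_lam_mem h m) (mem_gen _) hg

theorem mp_rho {L : F.Sys O} (h : OF O F L) {W : N} (n : F.Fam O W) : Mp (tens L n (un O F)) n (ρ_ W).hom := by
  refine mp_tens_of fun m j i z g a hz hg ha => ?_
  induction ha using Submodule.span_induction with
  | mem x hx =>
    obtain ⟨hi, rfl⟩ := hx
    subst hi
    rw [eqToHom_refl, Category.id_comp, MonoidalCategory.tensorHom_def', Category.assoc,
      rightUnitor_naturality]
    by_cases hm : m = j
    · subst hm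
      rw [h.unitR] at hz
      obtain ⟨c, rfl⟩ := Submodule.mem_span_singleton.1 hz
      have h1 : (c • F.rho m : F.S m ⟶ F.S m ⊗ F.S F.o) = (c : K) • F.rho m := rfl
      have h2 : F.rho m ≫ F.S m ◁ F.u.hom ≫ (ρ_ (F.S m)).hom ≫ g = g := by
        rw [Fus.rho, Category.assoc, whiskerLeft_inv_hom_assoc, Iso.inv_hom_id_assoc]
      rw [h1, Linear.smul_comp, h2]
      exact smul_mem_K c.2 hg
    · have h1 := F.hom_zero m j hm (z ≫ F.S j ◁ F.u.hom ≫ (ρ_ (F.S j)).hom)
      have h2 : z ≫ F.S j ◁ F.u.hom ≫ (ρ_ (F.S j)).hom ≫ g =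
          (z ≫ F.S j ◁ F.u.hom ≫ (ρ_ (F.S j)).hom) ≫ g := by
        simp only [Category.assoc]
      rw [h2, h1, Limits.zero_comp]
      exact (n m).zero_mem
  | zero =>
    rw [th_zeroR, Limits.zero_comp, Limits.comp_zero]
    exact (n m).zero_mem
  | add x y _ _ h1 h2 =>
    rw [th_addR, Preadditive.add_comp, Preadditive.comp_add]
    exact (n m).add_mem h1 h2
  | smul o x _ h1 =>
    have h2 : (o • x : F.S i ⟶ 𝟙_ N) = (o : K) • x := rfl
    rw [h2, th_smulR, Linear.smul_comp, Linear.comp_smul]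
    exact smul_mem_K o.2 h1

theorem mp_rho_inv {L : F.Sys O} (h : OF O F L) {W : N} (n : F.Fam O W) :
    Mp n (tens L n (un O F)) (ρ_ W).inv := by
  intro m g hg
  have h1 : g ≫ (ρ_ W).inv = F.rho m ≫ (g ⊗ₘ F.u.hom) := by
    rw [rightUnitor_inv_naturality, Fus.rho, MonoidalCategory.tensorHom_def', Category.assoc,
      whiskerLeft_inv_hom_assoc]
  rw [h1]
  exact mem_tens (TmC_rho_mem h m) hg (mem_gen _)

end Pool.Agent.SFC
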