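import Pool.Agent.SFC.TmL

/-!
# SFC/TmH: the lattice of maps between two lattice families

`mpS n n'`: the `O`-module of all `T` with `Mp n n' T`.
`mpS_lat`: with `latdec` for `n` (`b m i`, `g m i`) and `n'` (`b' m i`, `g' m i`): `T = ∑ (g m i) ≫ (b m i ≫ T ≫ g' m j) ≫ b' m j` where `b m i ≫ T ≫ g' m j = t • 𝟙`
(`schur`; for different simple objects `0`), and `t ∈ O` if `Mp n n' T`.  The `g m i ≫ b' m j` are in `mpS n n'` (`f ≫ g m i ∈ O` for `f ∈ n m`) and span `Hom (W, W')` over `K`; so `mpS` is the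
`O`-span of the finite set of the `g m i ≫ b' m j`: `lat_of_fg`.
`prim`: let `t m i j` be the scalar of `b m i ≫ T ≫ g' m j`; as `T ≠ 0` some `t m i j ≠ 0`; choose one, `t₀ = t m i j`, such that all `t / t₀ ∈ O` (`Val O`, finite set; as in
`NFG.LatA`, `NFG.Unt`: by `Finset` induction).  Then `Mp n n' (t₀⁻¹ • T)`, so `t₀⁻¹ ∈ O` by `hT`.  Take `u = b m i`, `h = t₀⁻¹ • g' m j`.
`rank_one`: `n i` is a lattice in the line `K e.hom` (`lat_rank_one`); for `m ≠ i` the spaces are `0` (`eq_of_zero`).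
`scl_fam_inj`: `scl_inj`.
-/

set_option autoImplicit false
set_option linter.unusedSectionVars false

noncomputable section

open CategoryTheory MonoidalCategory
open scoped BigOperators

namespace Pool.Agent.SFC

open Pool.Agent.NFG

universe v' u' w

variable {K : Type w} [Field K] {N : Type u'} [Category.{v'} N] [Preadditive N] [Linear K N] [MonoidalCategory N]
  [MonoidalPreadditive N] [MonoidalLinear K N] {ι : Type} [Fintype ι] [DecidableEq ι] {O : Subring K} {F : Fus K N ι}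

/-- the module of maps between two families -/
def mpS {W W' : N} (n : F.Fam O W) (n' : F.Fam O W') : Submodule O (W ⟶ W') where
  carrier := {f | Mp n n' f}
  add_mem' := fun hf hg => mp_add hf hg
  zero_mem' := mp_zero
  smul_mem' := fun c _ hf => mp_smul (c := (c : K)) c.2 hf

theorem mem_mpS {W W' : N} {n : F.Fam O W} {n' : F.Fam O W'} {f : W ⟶ W'} : f ∈ mpS n n' ↔ Mp n n' f := Iff.rfl

/-- the largest element -/
private theorem TmH_max (hO : Val O) {κ : Type*} (c : κ → K) (s : Finset κ) (h : ∃ i ∈ s, c i ≠ 0) :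
    ∃ j ∈ s, c j ≠ 0 ∧ ∀ i ∈ s, c i / c j ∈ O := by
  classical
  induction s using Finset.induction_on with
  | empty =>
    obtain ⟨i, hi, -⟩ := h
    exact absurd hi (Finset.notMem_empty i)
  | insert a s ha ih =>
    by_cases h1 : ∃ i ∈ s, c i ≠ 0
    · obtain ⟨j, hj, hj0, hj1⟩ := ih h1
      rcases hO (c a / c j) with h2 | h2
      · refine ⟨j, Finset.mem_insert_of_mem hj, hj0, fun i hi => ?_⟩
        rcases Finset.mem_insert.1 hi with rfl | hi
        · exact h2
        · exact hj1 i hi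
      · by_cases h3 : c a = 0
        · refine ⟨j, Finset.mem_insert_of_mem hj, hj0, fun i hi => ?_⟩
          rcases Finset.mem_insert.1 hi with rfl | hi
          · rw [h3, zero_div]
            exact O.zero_mem
          · exact hj1 i hi
        · refine ⟨a, Finset.mem_insert_self a s, h3, fun i hi => ?_⟩
          rcases Finset.mem_insert.1 hi with rfl | hi
          · rw [div_self h3]
            exact O.one_mem
          · have h4 := O.mul_mem (hj1 i hi) h2
            have e : c i / c j * (c a / c j)⁻¹ = c i / c a := by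
              field_simp
            rwa [e] at h4
    · push Not at h1
      obtain ⟨i, hi, hi0⟩ := h
      have h2 : c a ≠ 0 := by
        rcases Finset.mem_insert.1 hi with rfl | hi
        · exact hi0
        · exact absurd (h1 i hi) hi0
      refine ⟨a, Finset.mem_insert_self a s, h2, fun i hi => ?_⟩
      rcases Finset.mem_insert.1 hi with rfl | hi
      · rw [div_self h2]
        exact O.one_mem
      · rw [h1 i hi, zero_div]
        exact O.zero_mem

private theorem TmH_dec (F : Fus K N ι) {W W' : N} {a a' : ι → ℕ} (b : ∀ m, Fin (a m) → (F.S m ⟶ W))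
    (g : ∀ m, Fin (a m) → (W ⟶ F.S m)) (b' : ∀ m, Fin (a' m) → (F.S m ⟶ W')) (g' : ∀ m, Fin (a' m) → (W' ⟶ F.S m))
    (h : ∑ m, ∑ i, g m i ≫ b m i = 𝟙 W) (h' : ∑ m, ∑ i, g' m i ≫ b' m i = 𝟙 W') (T : W ⟶ W') :
    ∃ t : (Σ m, Fin (a m) × Fin (a' m)) → K,
      (∀ p, b p.1 p.2.1 ≫ T ≫ g' p.1 p.2.2 = t p • 𝟙 (F.S p.1)) ∧
      T = ∑ p, t p • (g p.1 p.2.1 ≫ b' p.1 p.2.2) := by
  have h1 : ∀ p : (Σ m, Fin (a m) × Fin (a' m)), ∃ c : K, b p.1 p.2.1 ≫ T ≫ g' p.1 p.2.2 = c • 𝟙 (F.S p.1) :=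
    fun p => F.schur _ _
  choose t ht using h1
  refine ⟨t, ht, ?_⟩
  have h2 : T = ∑ m, ∑ i, ∑ m', ∑ j, g m i ≫ (b m i ≫ T ≫ g' m' j) ≫ b' m' j := by
    have k1 : T = (∑ m, ∑ i, g m i ≫ b m i) ≫ T ≫ (∑ m, ∑ i, g' m i ≫ b' m i) := by
      rw [h, h', Category.comp_id, Category.id_comp]
    conv_lhs => rw [k1]
    rw [Preadditive.sum_comp]
    refine Finset.sum_congr rfl fun m _ => ?_
    rw [Preadditive.sum_comp]
    refine Finset.sum_congr rfl fun i _ => ?_
    simp only [Preadditive.comp_sum, Category.assoc]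
  have h3 : ∀ m i, ∑ m', ∑ j, g m i ≫ (b m i ≫ T ≫ g' m' j) ≫ b' m' j = ∑ j, t ⟨m, i, j⟩ • (g m i ≫ b' m j) := by
    intro m i
    rw [Finset.sum_eq_single m]
    · refine Finset.sum_congr rfl fun j _ => ?_
      have := ht ⟨m, i, j⟩
      simp only at this
      rw [this, Linear.smul_comp, Category.id_comp, Linear.comp_smul]
    · intro m' _ hm
      refine Finset.sum_eq_zero fun j _ => ?_
      rw [F.hom_zero m m' hm.symm (b m i ≫ T ≫ g' m' j), Limits.zero_comp, Limits.comp_zero]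
    · intro h
      exact absurd (Finset.mem_univ _) h
  rw [Fintype.sum_sigma]
  conv_lhs => rw [h2]
  refine Finset.sum_congr rfl fun m _ => ?_
  rw [Fintype.sum_prod_type]
  exact Finset.sum_congr rfl fun i _ => h3 m i

/-- `q ≫ u` maps `n` to `n'` if `q` is in the dual of `n` and `u ∈ n'` -/
theorem mp_dl {W W' : N} {n : F.Fam O W} {n' : F.Fam O W'} {j : ι} {q : W ⟶ F.S j} (hq : q ∈ F.dl (n j))
    {u : F.S j ⟶ W'} (hu : u ∈ n' j) : Mp n n' (q ≫ u) := by
  intro m f hf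
  by_cases h : m = j
  · subst h
    obtain ⟨c, hc, h1⟩ := hq f hf
    rw [← Category.assoc, h1, Linear.smul_comp, Category.id_comp]
    exact smul_mem_K hc hu
  · rw [← Category.assoc, comp_zero' F h f q, Limits.zero_comp]
    exact (n' m).zero_mem

theorem mpS_lat (hO : Val O) {W W' : N} {n : F.Fam O W} {n' : F.Fam O W'} (hn : LF n) (hn' : LF n') :
    IsLat O (mpS n n') := by
  obtain ⟨a, b, g, hb, hg, hbg, hs⟩ := latdec F n hn
  obtain ⟨a', b', g', hb', hg', hbg', hs'⟩ := latdec F n' hn'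
  have hmem : ∀ p : (Σ m, Fin (a m) × Fin (a' m)), g p.1 p.2.1 ≫ b' p.1 p.2.2 ∈ mpS n n' := fun p =>
    mp_dl (hg _ _) (hb' _ _)
  have h1 : mpS n n' = Submodule.span O
      (Set.range fun p : (Σ m, Fin (a m) × Fin (a' m)) => g p.1 p.2.1 ≫ b' p.1 p.2.2) := by
    apply le_antisymm
    · intro T hT
      obtain ⟨t, ht, hT2⟩ := TmH_dec F b g b' g' hs hs' T
      rw [hT2]
      refine Submodule.sum_mem _ fun p _ => ?_
      have h2 : t p ∈ O := by
        obtain ⟨c, hc, h3⟩ := hg' p.1 p.2.2 _ (hT p.1 _ (hb p.1 p.2.1))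
        rw [Category.assoc, ht p] at h3
        rw [smul_one_inj F h3]
        exact hc
      exact smul_mem_K h2 (Submodule.subset_span ⟨p, rfl⟩)
    · rw [Submodule.span_le]
      rintro _ ⟨p, rfl⟩
      exact hmem p
  refine lat_of_fg hO _ ?_ ?_
  · rw [h1]
    exact Submodule.fg_span (Set.finite_range _)
  · rw [eq_top_iff]
    intro T _
    obtain ⟨t, ht, hT2⟩ := TmH_dec F b g b' g' hs hs' T
    rw [hT2]
    exact Submodule.sum_mem _ fun p _ => Submodule.smul_mem _ _ (Submodule.subset_span (hmem p))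

theorem prim (hO : Val O) {W W' : N} {n : F.Fam O W} {n' : F.Fam O W'} (hn : LF n) (hn' : LF n') {T : W ⟶ W'}
    (hT0 : T ≠ 0) (hT : ∀ c : K, Mp n n' (c • T) → c ∈ O) :
    ∃ (j : ι), ∃ u ∈ n j, ∃ h ∈ F.dl (n' j), (u ≫ T) ≫ h = 𝟙 (F.S j) := by
  obtain ⟨a, b, g, hb, hg, hbg, hs⟩ := latdec F n hn
  obtain ⟨a', b', g', hb', hg', hbg', hs'⟩ := latdec F n' hn'
  have hmem : ∀ p : (Σ m, Fin (a m) × Fin (a' m)), g p.1 p.2.1 ≫ b' p.1 p.2.2 ∈ mpS n n' := fun p =>
    mp_dl (hg _ _) (hb' _ _)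
  obtain ⟨t, ht, hT2⟩ := TmH_dec F b g b' g' hs hs' T
  obtain ⟨p, -, hp0, hp⟩ := TmH_max hO t Finset.univ (by
    by_contra hcon
    push Not at hcon
    apply hT0
    rw [hT2]
    refine Finset.sum_eq_zero fun p hp => ?_
    rw [hcon p hp, zero_smul])
  have h1 : (t p)⁻¹ • T ∈ mpS n n' := by
    rw [hT2, Finset.smul_sum]
    refine Submodule.sum_mem _ fun q hq => ?_
    rw [smul_smul]
    refine smul_mem_K ?_ (hmem q)
    have := hp q hq
    rwa [div_eq_inv_mul] at this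
  have h2 : (t p)⁻¹ ∈ O := hT _ h1
  refine ⟨p.1, b p.1 p.2.1, hb _ _, (t p)⁻¹ • g' p.1 p.2.2, smul_mem_K h2 (hg' _ _), ?_⟩
  rw [Linear.comp_smul, Category.assoc, ht p, smul_smul, inv_mul_cancel₀ hp0, one_smul]

private theorem TmH_ne {W : N} {i : ι} (F : Fus K N ι) (e : F.S i ≅ W) : e.hom ≠ 0 := by
  intro h
  apply F.one_ne i
  rw [← e.hom_inv_id, h, Limits.zero_comp]

private theorem TmH_gen {W : N} {i : ι} (f : F.S i ⟶ W) : gen (O := O) f i = Submodule.span O {f} := by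
  rw [gen]
  congr 1
  ext g
  simp

theorem rank_one (hO : Val O) {W : N} {i : ι} (e : F.S i ≅ W) {n : F.Fam O W} (hn : LF n) :
    ∃ c : K, c ≠ 0 ∧ n = sclF c (gen e.hom) := by
  obtain ⟨c, hc, h⟩ := lat_rank_one (hn i) (TmH_ne F e) (fun x => by
    obtain ⟨c, hc⟩ := F.schur i (x ≫ e.inv)
    refine ⟨c, ?_⟩
    have h1 : x = (x ≫ e.inv) ≫ e.hom := by rw [Category.assoc, Iso.inv_hom_id, Category.comp_id]
    rw [h1, hc, Linear.smul_comp, Category.id_comp])
  refine ⟨c, hc, ?_⟩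
  funext m
  by_cases hm : m = i
  · subst hm
    rw [h, sclF, TmH_gen, scl_span_singleton]
  · refine eq_of_zero (fun x => ?_) _ _
    have h1 : x = (x ≫ e.inv) ≫ e.hom := by rw [Category.assoc, Iso.inv_hom_id, Category.comp_id]
    rw [h1, F.hom_zero m i hm (x ≫ e.inv), Limits.zero_comp]

theorem scl_fam_inj {W : N} {i : ι} (e : F.S i ≅ W) {c c' : K} (hc : c ≠ 0) (hc' : c' ≠ 0)
    (h : sclF (O := O) c (gen e.hom) = sclF c' (gen e.hom)) : IsU O (c / c') :=
  scl_inj (lf_gen e i) (TmH_ne F e) hc hc' (congrFun h i)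

end Pool.Agent.SFC
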