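import Pool.Agent.SFC.TeAH
import Pool.Agent.SFC.TeBH
import Pool.Agent.SFC.TmB
import Pool.Agent.SFC.TmC
import Pool.Agent.SFC.TmH
import Pool.Agent.NFG.Unt

/-!
# SFC/TeCH (general finite group): families on the group-like objects, compatible with the multiplication

Let `e g : S (x g) ≅ T g` (`gl_simple`) and `τ₀ g = gen (e g).hom` (a lattice, `lf_gen`).  For `g + h = gh` the family `push (m g h gh).hom (tens L (τ₀ g) (τ₀ h))` is a lattice on
`T gh` (`lf_tens`, `lf_push`), so it is `sclF (c g h) (τ₀ gh)`, `c g h ≠ 0` (`rank_one`).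
Cocycle identity: `c g h * c (g + h) k / (c h k * c g (h + k))` is a unit: both `sclF _ (τ₀ (g + h + k))` are equal to the image of `tens (tens (τ₀ g) (τ₀ h)) (τ₀ k)` under
`m ▷ _ ≫ m = α ≫ _ ◁ m ≫ m` (`th.assoc`; `mp_assoc`, `mp_assoc_inv`: `push α` of the triple product is the triple product; `push` of `tens (push ..)`: `mp_tens_push`); `scl_fam_inj`.
(It is convenient to show equality of families by two `Mp .. (𝟙 _)`.)
In `G = Kˣ ⧸ U`, `U = {c | IsU O c}` a subgroup, every element is an `n`-th power (`exists_rt`), `n = card Γ`, in a unique way (`isU_of_pow`), so `te_cobound` gives `t g : K`, `t g ≠ 0`, with `t g * t h * c g h / t (g + h)` a unit.  `τ g = sclF (t g) (τ₀ g)`: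
`push m (tens (τ g) (τ h)) = sclF (t g * t h * c g h) (τ₀ gh) = τ gh`.
Unit: `push u.hom un = sclF s (τ 0)` for some `s ≠ 0` (`rank_one`); `u.hom ▷ T 0 ≫ m 0 0 0 = λ` (`th.unitL`) and `mp_lam`, `mp_lam_inv`: `sclF s (τ 0) = push λ (tens un (τ 0)) = τ 0`,
so `s` is a unit (`scl_fam_inj`).
-/

set_option autoImplicit false

noncomputable section

open CategoryTheory MonoidalCategory
open scoped BigOperators

namespace Pool.Agent.SFC.G

open Pool.Agent.NFG

universe v' u' w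

variable {K : Type w} [Field K] {N : Type u'} [Category.{v'} N] [Preadditive N] [Linear K N] [MonoidalCategory N]
  [MonoidalPreadditive N] [MonoidalLinear K N] {ι : Type} [Fintype ι] [DecidableEq ι] {O : Subring K} {F : Fus K N ι}

private theorem TeC_int {W : N} {i : ι} (e : F.S i ≅ W) {t : K}
    (h : Mp (gen (O := O) e.hom) (gen e.hom) (t • 𝟙 W)) : t ∈ O := by
  have h1 := mp_gen.1 h
  rw [Linear.comp_smul, Category.comp_id] at h1
  have h2 : gen (O := O) e.hom i = Submodule.span O {e.hom} := by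
    rw [gen]
    congr 1
    ext g
    simp
  rw [h2] at h1
  obtain ⟨s, hs⟩ := Submodule.mem_span_singleton.1 h1
  have h3 : (s : K) • 𝟙 (F.S i) = t • 𝟙 (F.S i) := by
    rw [← e.hom_inv_id, ← Linear.smul_comp, ← Linear.smul_comp, ← hs]
    rfl
  rw [← smul_one_inj F h3]
  exact s.2

private theorem TeC_H {L : F.Sys O} (hL : OF O F L) {Γ : Type} [AddGroup Γ] (th : GlH N Γ) {x : Γ → ι}
    (e : ∀ g, F.S (x g) ≅ th.T g) :
    ∃ c : Γ → Γ → K, (∀ g h, c g h ≠ 0) ∧ ∀ g h gh (q : g + h = gh),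
      Mp (tens L (gen (e g).hom) (gen (e h).hom)) (gen (e gh).hom) ((c g h)⁻¹ • (th.m g h gh q).hom) ∧
      Mp (gen (e gh).hom) (tens L (gen (e g).hom) (gen (e h).hom)) (c g h • (th.m g h gh q).inv) := by
  have h1 : ∀ g h, ∃ c : K, c ≠ 0 ∧ push (th.m g h (g + h) rfl).hom (tens L (gen (e g).hom) (gen (e h).hom)) =
      sclF c (gen (e (g + h)).hom) := fun g h =>
    rank_one hL.val (e (g + h)) (lf_push hL.val (lf_tens hL (lf_gen _) (lf_gen _)) _
      (th.m g h (g + h) rfl).inv (Iso.inv_hom_id _))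
  choose c hc h2 using h1
  refine ⟨c, hc, ?_⟩
  rintro g h _ rfl
  constructor
  · rw [← mp_sclR (hc g h), ← h2]
    exact mp_push _ _
  · rw [← mp_sclL, ← h2, mp_push_iff, Iso.hom_inv_id]
    exact mp_id _

private theorem TeC_coc {L : F.Sys O} (hL : OF O F L) {Γ : Type} [AddGroup Γ] (th : GlH N Γ) {x : Γ → ι}
    (e : ∀ g, F.S (x g) ≅ th.T g) {c : Γ → Γ → K} (hc : ∀ g h, c g h ≠ 0)
    (H : ∀ g h gh (q : g + h = gh),
      Mp (tens L (gen (e g).hom) (gen (e h).hom)) (gen (e gh).hom) ((c g h)⁻¹ • (th.m g h gh q).hom) ∧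
      Mp (gen (e gh).hom) (tens L (gen (e g).hom) (gen (e h).hom)) (c g h • (th.m g h gh q).inv))
    (a b d : Γ) : IsU O (c a b * c (a + b) d / (c b d * c a (b + d))) := by
  have hA := th.assoc a b d (a + b) (b + d) (a + (b + d)) rfl (add_assoc a b d) rfl rfl
  have hne : c a b * c (a + b) d / (c b d * c a (b + d)) ≠ 0 :=
    div_ne_zero (mul_ne_zero (hc _ _) (hc _ _)) (mul_ne_zero (hc _ _) (hc _ _))
  refine ⟨hne, TeC_int (e (a + (b + d))) ?_, TeC_int (e (a + (b + d))) ?_⟩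
  · have h1 := mp_comp (H (a + b) d (a + (b + d)) (add_assoc a b d)).2
      (mp_comp (mp_wr (gen (e d).hom) (H a b (a + b) rfl).2)
      (mp_comp (mp_assoc hL (gen (e a).hom) (gen (e b).hom) (gen (e d).hom))
      (mp_comp (mp_wl (gen (e a).hom) (H b d (b + d) rfl).1) (H a (b + d) (a + (b + d)) rfl).1)))
    have h2 : (c (a + b) d • (th.m (a + b) d (a + (b + d)) (add_assoc a b d)).inv) ≫
        (c a b • (th.m a b (a + b) rfl).inv) ▷ th.T d ≫ (α_ _ _ _).hom ≫
        th.T a ◁ ((c b d)⁻¹ • (th.m b d (b + d) rfl).hom) ≫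
        ((c a (b + d))⁻¹ • (th.m a (b + d) (a + (b + d)) rfl).hom) =
        (c a b * c (a + b) d / (c b d * c a (b + d))) • 𝟙 _ := by
      simp only [Linear.smul_comp, Linear.comp_smul, MonoidalLinear.smul_whiskerRight,
        MonoidalLinear.whiskerLeft_smul, smul_smul]
      rw [← hA]
      simp only [inv_hom_whiskerRight_assoc, Iso.inv_hom_id]
      congr 1
      field_simp
    rwa [h2] at h1
  · have h1 := mp_comp (H a (b + d) (a + (b + d)) rfl).2 (mp_comp (mp_wl (gen (e a).hom) (H b d (b + d) rfl).2)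
      (mp_comp (mp_assoc_inv hL (gen (e a).hom) (gen (e b).hom) (gen (e d).hom))
      (mp_comp (mp_wr (gen (e d).hom) (H a b (a + b) rfl).1)
        (H (a + b) d (a + (b + d)) (add_assoc a b d)).1)))
    have h2 : (c a (b + d) • (th.m a (b + d) (a + (b + d)) rfl).inv) ≫
        th.T a ◁ (c b d • (th.m b d (b + d) rfl).inv) ≫ (α_ _ _ _).inv ≫
        ((c a b)⁻¹ • (th.m a b (a + b) rfl).hom) ▷ th.T d ≫
        ((c (a + b) d)⁻¹ • (th.m (a + b) d (a + (b + d)) (add_assoc a b d)).hom) =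
        (c a b * c (a + b) d / (c b d * c a (b + d)))⁻¹ • 𝟙 _ := by
      simp only [Linear.smul_comp, Linear.comp_smul, MonoidalLinear.smul_whiskerRight,
        MonoidalLinear.whiskerLeft_smul, smul_smul]
      rw [hA, Iso.inv_hom_id_assoc, whiskerLeft_inv_hom_assoc, Iso.inv_hom_id]
      congr 1
      field_simp
    rwa [h2] at h1

private theorem TeC_s [IsAlgClosed K] (hO : Val O) {Γ : Type} [AddGroup Γ] [Fintype Γ] {c : Γ → Γ → K} (hc : ∀ g h, c g h ≠ 0)
    (H : ∀ a b d, IsU O (c a b * c (a + b) d / (c b d * c a (b + d)))) :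
    ∃ s : Γ → K, (∀ g, s g ≠ 0) ∧ ∀ g h, IsU O (s g * s h * c g h / s (g + h)) := by
  let U : Subgroup Kˣ :=
    { carrier := {u | IsU O (u : K)}
      mul_mem' := fun {a b} ha hb => by
        show IsU O ((a * b : Kˣ) : K)
        rw [Units.val_mul]
        exact IsU.mul ha hb
      one_mem' := isU_one
      inv_mem' := fun {a} ha => by
        show IsU O ((a⁻¹ : Kˣ) : K)
        rw [Units.val_inv_eq_inv_val]
        exact IsU.inv ha }
  have hU : ∀ u : Kˣ, u ∈ U ↔ IsU O (u : K) := fun _ => Iff.rfl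
  obtain ⟨t, ht⟩ := te_cobound (Γ := Γ) (G := Kˣ ⧸ U) (fun x => by
      obtain ⟨u, rfl⟩ := QuotientGroup.mk_surjective x
      obtain ⟨y, hy0, hy⟩ := exists_rt (n := Fintype.card Γ) Fintype.card_pos u.ne_zero
      refine ⟨((Units.mk0 y hy0 : Kˣ) : Kˣ ⧸ U), ?_⟩
      rw [← QuotientGroup.mk_pow]
      congr 1
      ext
      rw [Units.val_pow_eq_pow_val, Units.val_mk0, hy])
    (fun x hx => by
      obtain ⟨u, rfl⟩ := QuotientGroup.mk_surjective x
      rw [← QuotientGroup.mk_pow, QuotientGroup.eq_one_iff, hU, Units.val_pow_eq_pow_val] at hx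
      rw [QuotientGroup.eq_one_iff, hU]
      exact isU_of_pow hO Fintype.card_pos hx)
    (fun a b => ((Units.mk0 (c a b) (hc a b) : Kˣ) : Kˣ ⧸ U)) (fun a b d => by
      rw [← QuotientGroup.mk_mul, ← QuotientGroup.mk_mul, QuotientGroup.eq_iff_div_mem, hU]
      simpa using H a b d)
  have hv : ∀ g, ∃ v : Kˣ, (v : Kˣ ⧸ U) = t g := fun g => QuotientGroup.mk_surjective (t g)
  choose v hv using hv
  refine ⟨fun g => ((v g)⁻¹ : Kˣ), fun g => Units.ne_zero _, fun g h => ?_⟩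
  have h1 := ht g h
  rw [← hv g, ← hv h, ← hv (g + h), ← QuotientGroup.mk_mul, ← QuotientGroup.mk_div, QuotientGroup.eq_iff_div_mem,
    hU] at h1
  have h2 : (((v g)⁻¹ : Kˣ) : K) * (((v h)⁻¹ : Kˣ) : K) * c g h / (((v (g + h))⁻¹ : Kˣ) : K) =
      ((Units.mk0 (c g h) (hc g h) / (v g * v h / v (g + h)) : Kˣ) : K) := by
    rw [Units.val_div_eq_div_val, Units.val_div_eq_div_val, Units.val_mul, Units.val_mk0,
      Units.val_inv_eq_inv_val, Units.val_inv_eq_inv_val, Units.val_inv_eq_inv_val]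
    have e1 := (v g).ne_zero
    have e2 := (v h).ne_zero
    have e3 := (v (g + h)).ne_zero
    field_simp
  show IsU O ((((v g)⁻¹ : Kˣ) : K) * (((v h)⁻¹ : Kˣ) : K) * c g h / (((v (g + h))⁻¹ : Kˣ) : K))
  rw [h2]
  exact h1

theorem exists_tau [IsAlgClosed K] {L : F.Sys O} (hL : OF O F L) {Γ : Type} [AddGroup Γ] [Fintype Γ] (th : GlH N Γ) :
    ∃ τ : ∀ g, F.Fam O (th.T g), (∀ g, LF (τ g)) ∧
      (∀ g h gh (e : g + h = gh), Mp (tens L (τ g) (τ h)) (τ gh) (th.m g h gh e).hom ∧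
        Mp (τ gh) (tens L (τ g) (τ h)) (th.m g h gh e).inv) ∧
      Mp (un O F) (τ 0) th.u.hom ∧ Mp (τ 0) (un O F) th.u.inv := by
  have hx := fun g => gl_simple F th g
  choose x e using hx
  replace e := fun g => (e g).some
  obtain ⟨c, hc, H⟩ := TeC_H hL th e
  obtain ⟨s, hs, hsc⟩ := TeC_s hL.val hc (TeC_coc hL th e hc H)
  have hlf : ∀ g, LF (push (s g • 𝟙 (th.T g)) (gen (O := O) (e g).hom)) := fun g =>
    lf_push hL.val (lf_gen (e g)) _ ((s g)⁻¹ • 𝟙 _) (by
      rw [Linear.smul_comp, Linear.comp_smul, Category.comp_id, smul_smul, inv_mul_cancel₀ (hs g), one_smul])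
  have hm : ∀ g h gh (q : g + h = gh),
      Mp (tens L (push (s g • 𝟙 (th.T g)) (gen (O := O) (e g).hom)) (push (s h • 𝟙 (th.T h)) (gen (e h).hom)))
        (push (s gh • 𝟙 (th.T gh)) (gen (e gh).hom)) (th.m g h gh q).hom ∧
      Mp (push (s gh • 𝟙 (th.T gh)) (gen (O := O) (e gh).hom))
        (tens L (push (s g • 𝟙 (th.T g)) (gen (e g).hom)) (push (s h • 𝟙 (th.T h)) (gen (e h).hom)))
        (th.m g h gh q).inv := by
    rintro g h gh q
    have hu := hsc g h
    rw [q] at hu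
    constructor
    · rw [mp_tens_push]
      have h1 := mp_smul hu.2.1 (mp_comp (H g h gh q).1 (mp_push (s gh • 𝟙 (th.T gh)) (gen (e gh).hom)))
      have h2 : (s g * s h * c g h / s gh) • ((c g h)⁻¹ • (th.m g h gh q).hom) ≫ (s gh • 𝟙 (th.T gh)) =
          (s g • 𝟙 (th.T g) ⊗ₘ s h • 𝟙 (th.T h)) ≫ (th.m g h gh q).hom := by
        rw [Linear.smul_comp, Linear.comp_smul, Category.comp_id, smul_smul, smul_smul, th_smulL, th_smulR,
          id_tensorHom_id, smul_smul, Linear.smul_comp, Category.id_comp]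
        congr 1
        have e1 := hc g h
        have e2 := hs gh
        field_simp
      rwa [h2] at h1
    · rw [mp_push_iff]
      have h1 := mp_smul hu.2.2 (mp_comp (H g h gh q).2 (mp_tens (mp_push (s g • 𝟙 (th.T g)) (gen (e g).hom))
        (mp_push (s h • 𝟙 (th.T h)) (gen (e h).hom))))
      have h2 : (s g * s h * c g h / s gh)⁻¹ • (c g h • (th.m g h gh q).inv) ≫
          (s g • 𝟙 (th.T g) ⊗ₘ s h • 𝟙 (th.T h)) = (s gh • 𝟙 (th.T gh)) ≫ (th.m g h gh q).inv := by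
        rw [Linear.smul_comp, th_smulL, th_smulR, id_tensorHom_id, smul_smul, Linear.comp_smul, Linear.comp_smul,
          Category.comp_id, smul_smul, smul_smul, Linear.smul_comp, Category.id_comp]
        congr 1
        have e1 := hc g h
        have e2 := hs gh
        have e3 := hs g
        have e4 := hs h
        field_simp
      rwa [h2] at h1
  obtain ⟨r, hr, hr1⟩ := rank_one hL.val (e 0) (lf_push hL.val (lf_un (O := O) (F := F)) th.u.hom th.u.inv
    (Iso.inv_hom_id _))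
  have hr0 : r * (s 0)⁻¹ ≠ 0 := mul_ne_zero hr (inv_ne_zero (hs 0))
  have hi : Mp (un O F) (push (s 0 • 𝟙 (th.T 0)) (gen (O := O) (e 0).hom)) ((r * (s 0)⁻¹)⁻¹ • th.u.hom) := by
    have h1 : Mp (un O F) (gen (O := O) (e 0).hom) (r⁻¹ • th.u.hom) := by
      rw [← mp_sclR hr, ← hr1]
      exact mp_push _ _
    have h2 := mp_comp h1 (mp_push (s 0 • 𝟙 (th.T 0)) (gen (e 0).hom))
    rw [Linear.smul_comp, Linear.comp_smul, Category.comp_id, smul_smul] at h2
    rwa [mul_inv, inv_inv]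
  have hii : Mp (push (s 0 • 𝟙 (th.T 0)) (gen (O := O) (e 0).hom)) (un O F) ((r * (s 0)⁻¹) • th.u.inv) := by
    have h1 : Mp (gen (O := O) (e 0).hom) (un O F) (r • th.u.inv) := by
      rw [← mp_sclL, ← hr1, mp_push_iff, Iso.hom_inv_id]
      exact mp_id _
    rw [mp_push_iff, Linear.smul_comp, Category.id_comp, smul_smul, mul_comm r, ← mul_assoc, mul_inv_cancel₀ (hs 0),
      one_mul]
    exact h1
  have hint : ∀ t : K, Mp (push (s 0 • 𝟙 (th.T 0)) (gen (O := O) (e 0).hom))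
      (push (s 0 • 𝟙 (th.T 0)) (gen (O := O) (e 0).hom)) (t • 𝟙 _) → t ∈ O := by
    intro t ht
    refine TeC_int (e 0) ?_
    have h1 : Mp (push (s 0 • 𝟙 (th.T 0)) (gen (O := O) (e 0).hom)) (gen (O := O) (e 0).hom)
        ((s 0)⁻¹ • 𝟙 (th.T 0)) := by
      rw [mp_push_iff, Linear.smul_comp, Category.id_comp, smul_smul, mul_inv_cancel₀ (hs 0), one_smul]
      exact mp_id _
    have h2 := mp_comp (mp_push (s 0 • 𝟙 (th.T 0)) (gen (O := O) (e 0).hom)) (mp_comp ht h1)
    rwa [Linear.smul_comp, Linear.smul_comp, Category.id_comp, Category.id_comp, smul_smul, smul_smul,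
      mul_comm (s 0), mul_assoc, mul_inv_cancel₀ (hs 0), mul_one] at h2
  have hm0 := hm 0 0 0 (zero_add 0)
  have hU0 := th.unitL 0 (zero_add 0)
  have hrU : r * (s 0)⁻¹ ∈ O := by
    refine hint _ ?_
    have h1 := mp_comp hm0.2 (mp_comp (mp_wr _ hii) (mp_lam hL _))
    have h2 : (th.m 0 0 0 (zero_add 0)).inv ≫ ((r * (s 0)⁻¹) • th.u.inv) ▷ th.T 0 ≫ (λ_ (th.T 0)).hom =
        (r * (s 0)⁻¹) • 𝟙 (th.T 0) := by
      rw [MonoidalLinear.smul_whiskerRight, Linear.smul_comp, Linear.comp_smul, ← hU0,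
        inv_hom_whiskerRight_assoc, Iso.inv_hom_id]
    rwa [h2] at h1
  have hrU' : (r * (s 0)⁻¹)⁻¹ ∈ O := by
    refine hint _ ?_
    have h1 := mp_comp (mp_lam_inv hL _) (mp_comp (mp_wr _ hi) hm0.1)
    have h2 : (λ_ (th.T 0)).inv ≫ ((r * (s 0)⁻¹)⁻¹ • th.u.hom) ▷ th.T 0 ≫ (th.m 0 0 0 (zero_add 0)).hom =
        (r * (s 0)⁻¹)⁻¹ • 𝟙 (th.T 0) := by
      rw [MonoidalLinear.smul_whiskerRight, Linear.smul_comp, Linear.comp_smul, hU0, Iso.inv_hom_id]
    rwa [h2] at h1
  refine ⟨fun g => push (s g • 𝟙 (th.T g)) (gen (e g).hom), hlf, hm, ?_, ?_⟩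
  · have h1 := mp_smul hrU hi
    rwa [smul_smul, mul_inv_cancel₀ hr0, one_smul] at h1
  · have h1 := mp_smul hrU' hii
    rwa [smul_smul, inv_mul_cancel₀ hr0, one_smul] at h1

end Pool.Agent.SFC.G
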