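import Pool.Agent.SFC.TeCH
import Pool.Agent.SFC.BSigH

/-!
# SFC/TeDH (general finite group): the algebra `V 1` is defined over `O`

`e m = ⨆ g, push (k g) (τ g) m` with `τ` from `exists_tau` for `G.th`.  `Mp (τ g) e (k g)`: clear; `Mp e n' f ↔ ∀ g, Mp (τ g) n' (k g ≫ f)` (supremum of submodules: `Submodule.iSup_induction` or the
submodule `{x | x ≫ f ∈ n' m}`); in particular `Mp e (τ g) (j g)` (`kj`, `orth`).  Lattice: finitely generated (`fg_iSup'`), spanning: `x = ∑ g, (x ≫ j g) ≫ k g` (`G.sum`), `x ≫ j g` in the `K`-span of `τ g m`;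
`lat_of_fg`.
mul: `aL V 1 = ∑ g h, (j g ⊗ j h) ≫ (k g ⊗ k h) ≫ aL V 1 = ∑ g h, (j g ⊗ j h) ≫ (m g h _).hom ≫ k (g + h)` (`k_mul`).  one: `ε = u.hom ≫ k 0` (`k_one`).  cn: `η = ∑ g, j g ≫ k g ≫ η = j 0 ≫ k 0 ≫ η` (`kη`)
and `k 0 ≫ η = u.inv ≫ (u.hom ≫ k 0 ≫ η) = u.inv ≫ ε ≫ η = u.inv` (`k_one`, `sep`).  sg: `sig_eq` (`sig V = ε V ≫ cL V (𝟙_ C)` by definition).
-/

set_option autoImplicit false

noncomputable section

open CategoryTheory MonoidalCategory
open scoped BigOperators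

namespace Pool.Agent.SFC.G

open Pool.Agent.NFG

universe v u v' u' w

variable {K : Type w} [Field K] {C : Type u} [Category.{v} C] [Preadditive C] [Linear K C] [MonoidalCategory C]
  [MonoidalPreadditive C] [MonoidalLinear K C] {N : Type u'} [Category.{v'} N] [Preadditive N] [Linear K N]
  [MonoidalCategory N] [MonoidalPreadditive N] [MonoidalLinear K N] {V : C ⥤ N} [V.LaxMonoidal] [V.OplaxMonoidal]
  {Γ : Type} [AddGroup Γ] [Fintype Γ] {ι' : Type} [Fintype ι'] [DecidableEq ι'] {O : Subring K} {FN : Fus K N ι'}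

private theorem TeD_iff {W W' : N} {κ : Type*} {ν : κ → FN.Fam O W} {n' : FN.Fam O W'} {f : W ⟶ W'} :
    Mp (fun m => ⨆ g, ν g m) n' f ↔ ∀ g, Mp (ν g) n' f := by
  constructor
  · intro h g m x hx
    exact h m x (Submodule.mem_iSup_of_mem g hx)
  · intro h m x hx
    refine Submodule.iSup_induction (fun g => ν g m) (motive := fun x => x ≫ f ∈ n' m) hx
      (fun g x hx => h g m x hx) ?_ ?_
    · rw [Limits.zero_comp]
      exact Submodule.zero_mem _
    · intro x y hx hy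
      rw [Preadditive.add_comp]
      exact Submodule.add_mem _ hx hy

private theorem TeD_fg {W W' : N} (t : W ⟶ W') {n : FN.Fam O W} {m : ι'} (h : (n m).FG) :
    (push t n m).FG := by
  have h1 : push t n m = Submodule.map ((Linear.rightComp K (FN.S m) t).restrictScalars O) (n m) := by
    ext x
    constructor
    · rintro ⟨f, hf, rfl⟩
      exact ⟨f, hf, rfl⟩
    · rintro ⟨f, hf, rfl⟩
      exact ⟨f, hf, rfl⟩
  rw [h1]
  exact h.map _

private theorem TeD_lat (hO : Val O) {W : N} {κ : Type} [Fintype κ] {T : κ → N} (k : ∀ g, T g ⟶ W) (j : ∀ g, W ⟶ T g)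
    (hs : ∑ g, j g ≫ k g = 𝟙 W) {τ : ∀ g, FN.Fam O (T g)} (hτ : ∀ g, LF (τ g)) :
    LF (fun m => ⨆ g, push (k g) (τ g) m) := by
  intro m
  refine lat_of_fg hO _ (fg_iSup' _ fun g => TeD_fg (k g) (hτ g m).fg) ?_
  rw [eq_top_iff]
  intro x _
  have h1 : x = ∑ g, (x ≫ j g) ≫ k g := by
    simp only [Category.assoc]
    rw [← Preadditive.comp_sum, hs, Category.comp_id]
  rw [h1]
  refine Submodule.sum_mem _ fun g _ => ?_
  have h2 : x ≫ j g ∈ Submodule.span K ((τ g m : Submodule O (FN.S m ⟶ T g)) : Set (FN.S m ⟶ T g)) := by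
    rw [(hτ g m).span]
    exact Submodule.mem_top
  generalize x ≫ j g = z at h2
  induction h2 using Submodule.span_induction with
  | mem y hy => exact Submodule.subset_span (Submodule.mem_iSup_of_mem g ⟨y, hy, rfl⟩)
  | zero =>
    rw [Limits.zero_comp]
    exact Submodule.zero_mem _
  | add y y' _ _ h3 h4 =>
    rw [Preadditive.add_comp]
    exact Submodule.add_mem _ h3 h4
  | smul c y _ h3 =>
    rw [Linear.smul_comp]
    exact Submodule.smul_mem _ _ h3

theorem exists_e [IsAlgClosed K] (G : GalFH K V Γ) {L : FN.Sys O} (hL : OF O FN L) :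
    ∃ e : FN.Fam O (V.obj (𝟙_ C)), EOk V L e := by
  obtain ⟨τ, hτ, hm, hu, hu'⟩ := exists_tau hL G.th
  obtain ⟨e, he⟩ : ∃ e : FN.Fam O (V.obj (𝟙_ C)), e = fun m => ⨆ g, push (G.k g) (τ g) m := ⟨_, rfl⟩
  have hk : ∀ g, Mp (τ g) e (G.k g) := by
    intro g
    rw [he]
    intro m x hx
    exact Submodule.mem_iSup_of_mem g ⟨x, hx, rfl⟩
  have hiff : ∀ {W : N} {n' : FN.Fam O W} {f : V.obj (𝟙_ C) ⟶ W}, (∀ g, Mp (τ g) n' (G.k g ≫ f)) → Mp e n' f := by
    intro W n' f h
    rw [he, TeD_iff]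
    intro g
    rw [mp_push_iff]
    exact h g
  have hj : ∀ g, Mp e (τ g) (G.j g) := by
    intro g
    refine hiff fun h => ?_
    by_cases hgh : h = g
    · subst hgh
      rw [G.kj]
      exact mp_id _
    · rw [G.orth h g hgh]
      exact mp_zero
  refine ⟨e, ⟨?_, ?_, ?_, ?_, ?_⟩⟩
  · rw [he]
    exact TeD_lat hL.val G.k G.j G.sum hτ
  · have h1 : aL V (𝟙_ C) = ∑ g, ∑ h, (G.j g ⊗ₘ G.j h) ≫ (G.th.m g h (g + h) rfl).hom ≫ G.k (g + h) := by
      have h2 : aL V (𝟙_ C) = (∑ g, G.j g ≫ G.k g) ▷ V.obj (𝟙_ C) ≫ V.obj (𝟙_ C) ◁ (∑ h, G.j h ≫ G.k h) ≫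
          aL V (𝟙_ C) := by
        rw [G.sum, id_whiskerRight, whiskerLeft_id, Category.id_comp, Category.id_comp]
      conv_lhs => rw [h2]
      rw [sum_whiskerRight, Preadditive.sum_comp]
      refine Finset.sum_congr rfl fun g _ => ?_
      rw [whiskerLeft_sum, Preadditive.sum_comp, Preadditive.comp_sum]
      refine Finset.sum_congr rfl fun h _ => ?_
      rw [← G.k_mul g h (g + h) rfl, ← Category.assoc, ← MonoidalCategory.tensorHom_def, ← Category.assoc,
        MonoidalCategory.tensorHom_comp_tensorHom]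
    rw [h1]
    refine mp_sum _ fun g _ => mp_sum _ fun h _ => ?_
    exact mp_comp (mp_tens (hj g) (hj h)) (mp_comp (hm g h (g + h) rfl).1 (hk _))
  · rw [G.k_one]
    exact mp_comp hu (hk 0)
  · refine hiff fun g => ?_
    by_cases hg : g = 0
    · subst hg
      have h1 : G.k 0 ≫ Functor.OplaxMonoidal.η V = G.th.u.inv := by
        have h2 := G.sep
        rw [G.k_one, Category.assoc] at h2
        rw [← cancel_epi G.th.u.hom, h2, Iso.hom_inv_id]
      rw [h1]
      exact hu'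
    · rw [G.kη g hg]
      exact mp_zero
  · show Mp (un O FN) (tens L e e) (sig V)
    rw [sig_eq G]
    refine mp_sum _ fun g _ => ?_
    exact mp_comp hu (mp_comp (hm g (-g) 0 (add_neg_cancel g)).2 (mp_tens (hk g) (hk (-g))))

end Pool.Agent.SFC.G
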