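import Pool.Agent.SFC.TsA

/-!
# SFC/TsB: existence of stable families
-/

set_option autoImplicit false

noncomputable section

open CategoryTheory MonoidalCategory
open Functor.LaxMonoidal Functor.OplaxMonoidal
open scoped BigOperators

namespace Pool.Agent.SFC

open Pool.Agent.NFG

universe v u v' u' w

variable {K : Type w} [Field K] {C : Type u} [Category.{v} C] [Preadditive C] [Linear K C] [MonoidalCategory C]
  [MonoidalPreadditive C] [MonoidalLinear K C] {N : Type u'} [Category.{v'} N] [Preadditive N] [Linear K N]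
  [MonoidalCategory N] [MonoidalPreadditive N] [MonoidalLinear K N] {V : C ⥤ N} [V.LaxMonoidal] [V.OplaxMonoidal]
  {n : ℕ} [NeZero n] {ι' : Type} [Fintype ι'] [DecidableEq ι'] {O : Subring K} {FN : Fus K N ι'} {L : FN.Sys O}
  {e : FN.Fam O (V.obj (𝟙_ C))}

theorem cL_aL (G : GalF K V n) (x : C) : cL V x ≫ aL V x = (n : K) • 𝟙 _ := by
  rw [cL, aL, Category.assoc, reassoc_of% (G.card (𝟙_ C) x), Linear.smul_comp, Linear.comp_smul, Category.id_comp,
    ← V.map_comp, Iso.inv_hom_id, V.map_id]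

theorem cR_aR (G : GalF K V n) (x : C) : cR V x ≫ aR V x = (n : K) • 𝟙 _ := by
  rw [cR, aR, Category.assoc, reassoc_of% (G.card x (𝟙_ C)), Linear.smul_comp, Linear.comp_smul, Category.id_comp,
    ← V.map_comp, Iso.inv_hom_id, V.map_id]

/-- the section of the two-sided action -/
private theorem TsB_sec (G : GalF K V n) (hn : (n : K) ≠ 0) (x : C) :
    (((n : K)⁻¹ * (n : K)⁻¹) • (cR V x ≫ cL V x ▷ V.obj (𝟙_ C))) ≫ (aL V x ▷ V.obj (𝟙_ C) ≫ aR V x) = 𝟙 _ := by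
  rw [Linear.smul_comp, Category.assoc, ← comp_whiskerRight_assoc, cL_aL G, MonoidalLinear.smul_whiskerRight,
    id_whiskerRight, Linear.smul_comp, Category.id_comp, Linear.comp_smul, cR_aR G, smul_smul, smul_smul]
  have h : (n : K)⁻¹ * (n : K)⁻¹ * ((n : K) * (n : K)) = 1 := by
    field_simp
  rw [mul_assoc] at h ⊢
  rw [mul_assoc, h, one_smul]

omit [Preadditive C] [Linear K C] [MonoidalPreadditive C] [MonoidalLinear K C] [Preadditive N] [Linear K N]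
  [MonoidalPreadditive N] [MonoidalLinear K N] [V.OplaxMonoidal] in
private theorem TsB_left (x : C) : V.obj (𝟙_ C) ◁ (aL V x ▷ V.obj (𝟙_ C) ≫ aR V x) ≫ aL V x =
    (α_ _ _ _).inv ≫ ((α_ _ _ _).inv ≫ aL V (𝟙_ C) ▷ V.obj x) ▷ V.obj (𝟙_ C) ≫
      (aL V x ▷ V.obj (𝟙_ C) ≫ aR V x) := by
  have h1 : V.obj (𝟙_ C) ◁ aR V x ≫ aL V x = (α_ _ _ _).inv ≫ aL V x ▷ V.obj (𝟙_ C) ≫ aR V x := by
    rw [aL_aR, Iso.inv_hom_id_assoc]
  have h2 : V.obj (𝟙_ C) ◁ aL V x ≫ aL V x = (α_ _ _ _).inv ≫ aL V (𝟙_ C) ▷ V.obj x ≫ aL V x := by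
    rw [aL_assoc, Iso.inv_hom_id_assoc]
  rw [MonoidalCategory.whiskerLeft_comp, Category.assoc, h1, associator_inv_naturality_middle_assoc,
    ← comp_whiskerRight_assoc, h2]
  simp only [comp_whiskerRight, Category.assoc]

omit [Preadditive C] [Linear K C] [MonoidalPreadditive C] [MonoidalLinear K C] [Preadditive N] [Linear K N]
  [MonoidalPreadditive N] [MonoidalLinear K N] [V.OplaxMonoidal] in
private theorem TsB_right (x : C) : (aL V x ▷ V.obj (𝟙_ C) ≫ aR V x) ▷ V.obj (𝟙_ C) ≫ aR V x =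
    (α_ _ _ _).hom ≫ (V.obj (𝟙_ C) ⊗ V.obj x) ◁ aL V (𝟙_ C) ≫ (aL V x ▷ V.obj (𝟙_ C) ≫ aR V x) := by
  have h1 : aR V x ▷ V.obj (𝟙_ C) ≫ aR V x = (α_ _ _ _).hom ≫ V.obj x ◁ aL V (𝟙_ C) ≫ aR V x := by
    rw [aR_assoc, Iso.hom_inv_id_assoc]
  rw [comp_whiskerRight, Category.assoc, h1, associator_naturality_left_assoc, ← whisker_exchange_assoc]

theorem exists_stb (G : GalF K V n) (hn : IsU O (n : K)) (hL : OF O FN L) (he : EOk V L e) (x : C) :
    ∃ m : FN.Fam O (V.obj x), Stb V L e m := by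
  obtain ⟨n0, hn0⟩ := exists_lat_fam FN O (V.obj x)
  have hl0 : LF n0 := hn0
  refine ⟨push (aL V x ▷ V.obj (𝟙_ C) ≫ aR V x) (tens L (tens L e n0) e), ?_, ?_, ?_⟩
  · exact lf_push hL.val (lf_tens hL (lf_tens hL he.lat hl0) he.lat) _ _ (TsB_sec G hn.1 x)
  · rw [mp_tens_pushR, TsB_left]
    exact mp_comp (mp_assoc_inv hL _ _ _) (mp_comp (mp_wr e (mp_comp (mp_assoc_inv hL _ _ _) (mp_wr n0 he.mul)))
      (mp_push _ _))
  · rw [mp_tens_pushL, TsB_right]
    exact mp_comp (mp_assoc hL _ _ _) (mp_comp (mp_wl _ he.mul) (mp_push _ _))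

end Pool.Agent.SFC
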