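import Pool.Agent.SFC.TrB
import Pool.Agent.SFC.TsB
import Pool.Agent.SFC.TsC

/-!
# SFC/TfA: the form of `C`: lattices and unit isomorphisms

`LL G L nn i j k = {f : S k ⟶ S i ⊗ S j | V f maps nn k to the product of nn i and nn j}`.
`exists_nn`: `exists_stb` for `i ≠ o`, and `push (V u⁻¹) e` for `i = o` (`stb_one`, `stb_push`; `Function.update`).
`LL_unitL`: `lam v = λ⁻¹ ≫ u⁻¹ ▷ S v` is in `LL` (`pr_lam_inv`, `mp_pr` with `u2` and `V (𝟙) = 𝟙`); conversely, `f : S v ⟶ S o ⊗ S v` in `LL`: `f = c • lam v` (`f ≫ u ▷ _ ≫ λ : S v ⟶ S v` is `c • 𝟙`, `schur`), and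
`V (f ≫ u ▷ _ ≫ λ) = c • 𝟙` maps `nn v` to `nn v` (`mp_pr` with `u1`, `pr_lam`), so `c ∈ O` (`self_O`, `𝟙 (V (S v)) ≠ 0` by `V_ne` and `FC.one_ne`).
-/

set_option autoImplicit false

noncomputable section

open CategoryTheory MonoidalCategory
open Functor.LaxMonoidal Functor.OplaxMonoidal
open scoped BigOperators

namespace Pool.Agent.SFC

open Pool.Agent.NFG

universe v u v' u' w

variable {K : Type w} [Field K] {C : Type u} [Category.{v} C] [Preadditive C] [Linear K C] [MonoidalCategory C]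
  [MonoidalPreadditive C] [MonoidalLinear K C] {N : Type u'} [Category.{v'} N] [Preadditive N] [Linear K N]
  [MonoidalCategory N] [MonoidalPreadditive N] [MonoidalLinear K N] {V : C ⥤ N} [V.LaxMonoidal] [V.OplaxMonoidal]
  {n : ℕ} [NeZero n] {ι' : Type} [Fintype ι'] [DecidableEq ι'] {O : Subring K} {FN : Fus K N ι'} {L : FN.Sys O}
  {e : FN.Fam O (V.obj (𝟙_ C))} {ι : Type} [Fintype ι] [DecidableEq ι] {FC : Fus K C ι}

/-- stable families on the simple objects, normalised on the unit object -/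
structure Nn (V : C ⥤ N) [V.LaxMonoidal] [V.OplaxMonoidal] (L : FN.Sys O) (e : FN.Fam O (V.obj (𝟙_ C)))
    (FC : Fus K C ι) (nn : ∀ i, FN.Fam O (V.obj (FC.S i))) : Prop where
  stb : ∀ i, Stb V L e (nn i)
  u1 : Mp (nn FC.o) e (V.map FC.u.hom)
  u2 : Mp e (nn FC.o) (V.map FC.u.inv)

theorem exists_nn (G : GalF K V n) (hn : IsU O (n : K)) (hL : OF O FN L) (he : EOk V L e) (FC : Fus K C ι) :
    ∃ nn, Nn V L e FC nn := by
  choose m hm using fun i => exists_stb G hn hL he (FC.S i)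
  refine ⟨Function.update m FC.o (push (V.map FC.u.inv) e), ⟨fun i => ?_, ?_, ?_⟩⟩
  · by_cases h : i = FC.o
    · subst h
      rw [Function.update_self]
      exact stb_push hL.val FC.u.symm (stb_one he)
    · rw [Function.update_of_ne h]
      exact hm i
  · rw [Function.update_self, mp_push_iff, ← V.map_comp, Iso.inv_hom_id, V.map_id]
    exact mp_id e
  · rw [Function.update_self]
    exact mp_push _ _

private theorem TfA_id {i : ι} {nn : ∀ i, FN.Fam O (V.obj (FC.S i))} : Mp (nn i) (nn i) (V.map (𝟙 (FC.S i))) := by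
  rw [V.map_id]
  exact mp_id _

private theorem TfA_sc (G : GalF K V n) {nn : ∀ i, FN.Fam O (V.obj (FC.S i))}
    (h : Nn V L e FC nn) (v : ι) {c : K} (hc : Mp (nn v) (nn v) (V.map (c • 𝟙 (FC.S v)))) : c ∈ O := by
  rw [G.map_smul, V.map_id] at hc
  refine self_O ?_ (h.stb v).lat hc
  rw [← V.map_id]
  exact V_ne G (FC.one_ne v)

/-- the form of `C` -/
def LL (G : GalF K V n) (L : FN.Sys O) (nn : ∀ i, FN.Fam O (V.obj (FC.S i))) : FC.Sys O := fun i j k =>
  vS G (nn k) (pr V L (nn i) (nn j))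

theorem LL_lat (G : GalF K V n) (hn : IsU O (n : K)) (hL : OF O FN L) {nn : ∀ i, FN.Fam O (V.obj (FC.S i))}
    (h : Nn V L e FC nn) (i j k : ι) : IsLat O (LL G L nn i j k) :=
  vS_lat G hL.val (h.stb k).lat (stb_pr G hn hL (h.stb i) (h.stb j)).lat

theorem LL_unitL (G : GalF K V n) (hL : OF O FN L) (he : EOk V L e) {nn : ∀ i, FN.Fam O (V.obj (FC.S i))}
    (h : Nn V L e FC nn) (v : ι) : LL G L nn FC.o v v = Submodule.span O {FC.lam v} := by
  apply le_antisymm
  · intro f hf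
    have hf' : Mp (nn v) (pr V L (nn FC.o) (nn v)) (V.map f) := hf
    obtain ⟨c, hc⟩ := FC.schur v (f ≫ FC.u.hom ▷ FC.S v ≫ (λ_ (FC.S v)).hom)
    have h1 : Mp (pr V L (nn FC.o) (nn v)) (pr V L e (nn v)) (V.map (FC.u.hom ▷ FC.S v)) := by
      rw [← tensorHom_id]
      exact mp_pr h.u1 TfA_id
    have h2 : Mp (nn v) (nn v) (V.map (c • 𝟙 (FC.S v))) := by
      rw [← hc, V.map_comp, V.map_comp]
      exact mp_comp hf' (mp_comp h1 (pr_lam (h.stb v)))
    have h3 : c ∈ O := TfA_sc G h v h2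
    have h4 : f = c • FC.lam v := by
      have h5 : f = (f ≫ FC.u.hom ▷ FC.S v ≫ (λ_ (FC.S v)).hom) ≫ FC.lam v := by
        rw [Fus.lam]
        simp
      rw [h5, hc, Linear.smul_comp, Category.id_comp]
    rw [h4]
    exact smul_mem_K h3 (Submodule.mem_span_singleton_self _)
  · rw [Submodule.span_singleton_le_iff_mem]
    show Mp (nn v) (pr V L (nn FC.o) (nn v)) (V.map (FC.lam v))
    rw [Fus.lam, V.map_comp, ← tensorHom_id]
    exact mp_comp (pr_lam_inv hL he (nn v)) (mp_pr h.u2 TfA_id)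

theorem LL_unitR (G : GalF K V n) (hL : OF O FN L) (he : EOk V L e) {nn : ∀ i, FN.Fam O (V.obj (FC.S i))}
    (h : Nn V L e FC nn) (v : ι) : LL G L nn v FC.o v = Submodule.span O {FC.rho v} := by
  apply le_antisymm
  · intro f hf
    have hf' : Mp (nn v) (pr V L (nn v) (nn FC.o)) (V.map f) := hf
    obtain ⟨c, hc⟩ := FC.schur v (f ≫ FC.S v ◁ FC.u.hom ≫ (ρ_ (FC.S v)).hom)
    have h1 : Mp (pr V L (nn v) (nn FC.o)) (pr V L (nn v) e) (V.map (FC.S v ◁ FC.u.hom)) := by
      rw [← id_tensorHom]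
      exact mp_pr TfA_id h.u1
    have h2 : Mp (nn v) (nn v) (V.map (c • 𝟙 (FC.S v))) := by
      rw [← hc, V.map_comp, V.map_comp]
      exact mp_comp hf' (mp_comp h1 (pr_rho (h.stb v)))
    have h3 : c ∈ O := TfA_sc G h v h2
    have h4 : f = c • FC.rho v := by
      have h5 : f = (f ≫ FC.S v ◁ FC.u.hom ≫ (ρ_ (FC.S v)).hom) ≫ FC.rho v := by
        rw [Fus.rho]
        simp
      rw [h5, hc, Linear.smul_comp, Category.id_comp]
    rw [h4]
    exact smul_mem_K h3 (Submodule.mem_span_singleton_self _)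
  · rw [Submodule.span_singleton_le_iff_mem]
    show Mp (nn v) (pr V L (nn v) (nn FC.o)) (V.map (FC.rho v))
    rw [Fus.rho, V.map_comp, ← id_tensorHom]
    exact mp_comp (pr_rho_inv hL he (nn v)) (mp_pr TfA_id h.u2)

end Pool.Agent.SFC
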