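import Pool.Agent.SFC.TsAH

/-!
# SFC/TsCH (general finite group): products of stable families

`pr V L m m' = push (μ V x y) (tens L m m')`.
`stb_pr`: lattice: `lf_tens`, `lf_push` with the section `(Fintype.card Γ : K)⁻¹ • δ V x y` (`G.card`); `aL`: `mp_tens_pushR`, `mu_aL`; `aR`: `mp_tens_pushL`, `mu_aR`.
`pr_delta`: `mp_push_iff`, `mu_delta`, `stb_cL`, `hm.aR`, `mp_assoc_inv`.
`mp_pr`: `mp_push_iff`, naturality of `μ` (`μ_natural`), `mp_tens`, `mp_push`.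
`pr_assoc`: `mp_push_iff`, `mp_tens_pushL`, associativity of `μ` (`Functor.LaxMonoidal.associativity`), `mp_assoc`, `mp_push`.  `pr_assoc_inv`: `mp_tens_pushR`, `associativity_inv`.
`pr_lam`: `mp_push_iff`, `μ ≫ V λ = aL` by definition.  `pr_lam_inv`: `V λ⁻¹ = λ⁻¹ ≫ ε ▷ V x ≫ μ` (`left_unitality_inv`), `mp_lam_inv`, `he.one`.
-/

set_option autoImplicit false

noncomputable section

open CategoryTheory MonoidalCategory
open Functor.LaxMonoidal Functor.OplaxMonoidal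
open scoped BigOperators

namespace Pool.Agent.SFC.G

open Pool.Agent.NFG

universe v u v' u' w

variable {K : Type w} [Field K] {C : Type u} [Category.{v} C] [Preadditive C] [Linear K C] [MonoidalCategory C]
  [MonoidalPreadditive C] [MonoidalLinear K C] {N : Type u'} [Category.{v'} N] [Preadditive N] [Linear K N]
  [MonoidalCategory N] [MonoidalPreadditive N] [MonoidalLinear K N] {V : C ⥤ N} [V.LaxMonoidal] [V.OplaxMonoidal]
  {Γ : Type} [AddGroup Γ] [Fintype Γ] {ι' : Type} [Fintype ι'] [DecidableEq ι'] {O : Subring K} {FN : Fus K N ι'} {L : FN.Sys O}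
  {e : FN.Fam O (V.obj (𝟙_ C))}

theorem stb_pr (G : GalFH K V Γ) (hn : IsU O (Fintype.card Γ : K)) (hL : OF O FN L) {x y : C} {m : FN.Fam O (V.obj x)}
    {m' : FN.Fam O (V.obj y)} (hm : Stb V L e m) (hm' : Stb V L e m') : Stb V L e (pr V L m m') := by
  refine ⟨?_, ?_, ?_⟩
  · refine lf_push hL.val (lf_tens hL hm.lat hm'.lat) (μ V x y) ((Fintype.card Γ : K)⁻¹ • δ V x y) ?_
    rw [Linear.smul_comp, G.card, smul_smul, inv_mul_cancel₀ hn.1, one_smul]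
  · refine mp_tens_pushR.2 ?_
    rw [mu_aL]
    exact mp_comp (mp_assoc_inv hL e m m') (mp_comp (mp_wr m' hm.aL) (mp_push _ _))
  · refine mp_tens_pushL.2 ?_
    rw [mu_aR]
    exact mp_comp (mp_assoc hL m m' e) (mp_comp (mp_wl m hm'.aR) (mp_push _ _))

theorem pr_delta (G : GalFH K V Γ) (hL : OF O FN L) (he : EOk V L e) {x y : C} {m : FN.Fam O (V.obj x)}
    {m' : FN.Fam O (V.obj y)} (hm : Stb V L e m) (hm' : Stb V L e m') :
    Mp (pr V L m m') (tens L m m') (δ V x y) := by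
  refine mp_push_iff.2 ?_
  rw [mu_delta G]
  exact mp_comp (mp_wl m (stb_cL G hL he hm')) (mp_comp (mp_assoc_inv hL m e m') (mp_wr m' hm.aR))

theorem mp_pr {x₁ x₂ y₁ y₂ : C} {m₁ : FN.Fam O (V.obj x₁)} {m₂ : FN.Fam O (V.obj x₂)} {m₁' : FN.Fam O (V.obj y₁)}
    {m₂' : FN.Fam O (V.obj y₂)} {f : x₁ ⟶ y₁} {g : x₂ ⟶ y₂} (hf : Mp m₁ m₁' (V.map f)) (hg : Mp m₂ m₂' (V.map g)) :
    Mp (pr V L m₁ m₂) (pr V L m₁' m₂') (V.map (f ⊗ₘ g)) := by
  refine mp_push_iff.2 ?_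
  rw [← μ_natural]
  exact mp_comp (mp_tens hf hg) (mp_push _ _)

theorem pr_assoc (hL : OF O FN L) {x₁ x₂ x₃ : C} (m₁ : FN.Fam O (V.obj x₁)) (m₂ : FN.Fam O (V.obj x₂))
    (m₃ : FN.Fam O (V.obj x₃)) :
    Mp (pr V L (pr V L m₁ m₂) m₃) (pr V L m₁ (pr V L m₂ m₃)) (V.map (α_ x₁ x₂ x₃).hom) := by
  refine mp_push_iff.2 (mp_tens_pushL.2 ?_)
  rw [Functor.LaxMonoidal.associativity]
  exact mp_comp (mp_assoc hL m₁ m₂ m₃) (mp_comp (mp_wl m₁ (mp_push _ _)) (mp_push _ _))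

theorem pr_assoc_inv (hL : OF O FN L) {x₁ x₂ x₃ : C} (m₁ : FN.Fam O (V.obj x₁)) (m₂ : FN.Fam O (V.obj x₂))
    (m₃ : FN.Fam O (V.obj x₃)) :
    Mp (pr V L m₁ (pr V L m₂ m₃)) (pr V L (pr V L m₁ m₂) m₃) (V.map (α_ x₁ x₂ x₃).inv) := by
  refine mp_push_iff.2 (mp_tens_pushR.2 ?_)
  rw [Functor.LaxMonoidal.associativity_inv]
  exact mp_comp (mp_assoc_inv hL m₁ m₂ m₃) (mp_comp (mp_wr m₃ (mp_push _ _)) (mp_push _ _))

theorem pr_lam {x : C} {m : FN.Fam O (V.obj x)} (hm : Stb V L e m) : Mp (pr V L e m) m (V.map (λ_ x).hom) := by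
  exact mp_push_iff.2 hm.aL

theorem pr_lam_inv (hL : OF O FN L) (he : EOk V L e) {x : C} (m : FN.Fam O (V.obj x)) :
    Mp m (pr V L e m) (V.map (λ_ x).inv) := by
  rw [← Functor.LaxMonoidal.left_unitality_inv]
  exact mp_comp (mp_lam_inv hL m) (mp_comp (mp_wr m he.one) (mp_push _ _))

theorem pr_rho {x : C} {m : FN.Fam O (V.obj x)} (hm : Stb V L e m) : Mp (pr V L m e) m (V.map (ρ_ x).hom) := by
  exact mp_push_iff.2 hm.aR

theorem pr_rho_inv (hL : OF O FN L) (he : EOk V L e) {x : C} (m : FN.Fam O (V.obj x)) :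
    Mp m (pr V L m e) (V.map (ρ_ x).inv) := by
  rw [← Functor.LaxMonoidal.right_unitality_inv]
  exact mp_comp (mp_rho_inv hL m) (mp_comp (mp_wl m he.one) (mp_push _ _))

end Pool.Agent.SFC.G
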