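import Pool.Agent.SFC.TfAH

/-!
# SFC/TfBH (general finite group): the form of `C`: associativity

Both `N1 L' i j (fun k => L' k v) m` and `N2 L' i (L' j v) m` (`L' = LL G L nn`) are equal to `vS G (nn m) (pr (nn i) (pr (nn j) (nn v)))`.
`N2 ≤`: a generator `z ≫ S i ◁ f` with `z ∈ L' i k m`, `f ∈ L' j v k`: `V z` maps `nn m` to `pr (nn i) (nn k)`, and `S i ◁ f = 𝟙 ⊗ₘ f`: `mp_pr`.  `≤ N2`: `red` for `pr (nn j) (nn v)` (`stb_pr`):
`f = ∑ k a, (f ≫ S i ◁ g k a) ≫ S i ◁ b k a` with `f ≫ S i ◁ g k a ∈ L' i k m` and `b k a ∈ L' j v k`.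
`N1 ≤`: `f ≫ hat x (S v)` = `f ≫ x ▷ _ ≫ α`: `mp_pr`, `pr_assoc`.  `≤ N1`: `f ≫ α⁻¹` and `red` for `pr (nn i) (nn j)`.
-/

set_option autoImplicit false

noncomputable section

open CategoryTheory MonoidalCategory
open Functor.LaxMonoidal Functor.OplaxMonoidal
open scoped BigOperators

namespace Pool.Agent.SFC.G

open Pool.Agent.NFG

universe v u v' u' w

variable {K : Type w} [Field K] {C : Type u} [Category.{v} C] [Preadditive C] [Linear K C] [MonoidalCategory C]
  [MonoidalPreadditive C] [MonoidalLinear K C] {N : Type u'} [Category.{v'} N] [Preadditive N] [Linear K N]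
  [MonoidalCategory N] [MonoidalPreadditive N] [MonoidalLinear K N] {V : C ⥤ N} [V.LaxMonoidal] [V.OplaxMonoidal]
  {Γ : Type} [AddGroup Γ] [Fintype Γ] {ι' : Type} [Fintype ι'] [DecidableEq ι'] {O : Subring K} {FN : Fus K N ι'} {L : FN.Sys O}
  {e : FN.Fam O (V.obj (𝟙_ C))} {ι : Type} [Fintype ι] [DecidableEq ι] {FC : Fus K C ι}

theorem LL_assoc (G : GalFH K V Γ) (hn : IsU O (Fintype.card Γ : K)) (hL : OF O FN L) (he : EOk V L e)
    {nn : ∀ i, FN.Fam O (V.obj (FC.S i))} (h : Nn V L e FC nn)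
    (hsc : ∀ i j (u : FN.S j ⟶ V.obj (FC.S i)) (q : V.obj (FC.S i) ⟶ FN.S j), u ≫ q = 𝟙 _ →
      ∃ c : K, IsU O c ∧ av V (q ≫ u) = c • 𝟙 _) (i j v : ι) :
    FC.N1 (LL G L nn) i j (fun k => LL G L nn k v) = FC.N2 (LL G L nn) i (LL G L nn j v) := by
  have hid : ∀ k, Mp (nn k) (nn k) (V.map (𝟙 (FC.S k))) := fun k => by
    rw [V.map_id]
    exact mp_id _
  have hR2 : ∀ m, FC.N2 (LL G L nn) i (LL G L nn j v) m =
      vS G (nn m) (pr V L (nn i) (pr V L (nn j) (nn v))) := by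
    intro m
    refine le_antisymm (Submodule.span_le.2 ?_) fun f hf => ?_
    · rintro _ ⟨m', z, f, hz, hf, rfl⟩
      have hz' : Mp (nn m) (pr V L (nn i) (nn m')) (V.map z) := hz
      have hf' : Mp (nn m') (pr V L (nn j) (nn v)) (V.map f) := hf
      show Mp (nn m) (pr V L (nn i) (pr V L (nn j) (nn v))) (V.map (z ≫ FC.S i ◁ f))
      rw [V.map_comp, ← id_tensorHom]
      exact mp_comp hz' (mp_pr (hid i) hf')
    · have hf : Mp (nn m) (pr V L (nn i) (pr V L (nn j) (nn v))) (V.map f) := hf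
      obtain ⟨M, b, g, hb, hg, hs⟩ := red G hL he h.stb hsc (stb_pr G hn hL (h.stb j) (h.stb v))
      have h1 : f = ∑ k, ∑ a, (f ≫ FC.S i ◁ g k a) ≫ FC.S i ◁ b k a := by
        calc f = f ≫ FC.S i ◁ 𝟙 (FC.S j ⊗ FC.S v) := by rw [MonoidalCategory.whiskerLeft_id, Category.comp_id]
          _ = _ := by
            rw [← hs, whiskerLeft_sum, Preadditive.comp_sum]
            refine Finset.sum_congr rfl fun k _ => ?_
            rw [whiskerLeft_sum, Preadditive.comp_sum]
            refine Finset.sum_congr rfl fun a _ => ?_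
            rw [MonoidalCategory.whiskerLeft_comp, Category.assoc]
      rw [h1]
      refine Submodule.sum_mem _ fun k _ => Submodule.sum_mem _ fun a _ => Submodule.subset_span ?_
      refine ⟨k, f ≫ FC.S i ◁ g k a, b k a, ?_, hb k a, rfl⟩
      show Mp (nn m) (pr V L (nn i) (nn k)) (V.map (f ≫ FC.S i ◁ g k a))
      rw [V.map_comp, ← id_tensorHom]
      exact mp_comp hf (mp_pr (hid i) (hg k a))
  have hR1 : ∀ m, FC.N1 (LL G L nn) i j (fun k => LL G L nn k v) m =
      vS G (nn m) (pr V L (nn i) (pr V L (nn j) (nn v))) := by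
    intro m
    refine le_antisymm (Submodule.span_le.2 ?_) fun f hf => ?_
    · rintro _ ⟨m', x, f, hx, hf, rfl⟩
      have hx' : Mp (nn m') (pr V L (nn i) (nn j)) (V.map x) := hx
      have hf' : Mp (nn m) (pr V L (nn m') (nn v)) (V.map f) := hf
      show Mp (nn m) (pr V L (nn i) (pr V L (nn j) (nn v))) (V.map (f ≫ x ▷ FC.S v ≫ (α_ _ _ _).hom))
      rw [V.map_comp, V.map_comp, ← tensorHom_id]
      exact mp_comp hf' (mp_comp (mp_pr hx' (hid v)) (pr_assoc hL _ _ _))
    · have hf : Mp (nn m) (pr V L (nn i) (pr V L (nn j) (nn v))) (V.map f) := hf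
      obtain ⟨M, b, g, hb, hg, hs⟩ := red G hL he h.stb hsc (stb_pr G hn hL (h.stb i) (h.stb j))
      have h1 : f = ∑ k, ∑ a, (f ≫ (α_ _ _ _).inv ≫ g k a ▷ FC.S v) ≫ hat (b k a) (FC.S v) := by
        calc f = f ≫ (α_ _ _ _).inv ≫ (𝟙 (FC.S i ⊗ FC.S j)) ▷ FC.S v ≫ (α_ _ _ _).hom := by
              rw [MonoidalCategory.id_whiskerRight, Category.id_comp, Iso.inv_hom_id, Category.comp_id]
          _ = _ := by
            rw [← hs, sum_whiskerRight, Preadditive.sum_comp, Preadditive.comp_sum, Preadditive.comp_sum]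
            refine Finset.sum_congr rfl fun k _ => ?_
            rw [sum_whiskerRight, Preadditive.sum_comp, Preadditive.comp_sum, Preadditive.comp_sum]
            refine Finset.sum_congr rfl fun a _ => ?_
            rw [MonoidalCategory.comp_whiskerRight, hat]
            simp only [Category.assoc]
      rw [h1]
      refine Submodule.sum_mem _ fun k _ => Submodule.sum_mem _ fun a _ => Submodule.subset_span ?_
      refine ⟨k, b k a, f ≫ (α_ _ _ _).inv ≫ g k a ▷ FC.S v, hb k a, ?_, rfl⟩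
      show Mp (nn m) (pr V L (nn k) (nn v)) (V.map (f ≫ (α_ _ _ _).inv ≫ g k a ▷ FC.S v))
      rw [V.map_comp, V.map_comp, ← tensorHom_id]
      exact mp_comp hf (mp_comp (pr_assoc_inv hL _ _ _) (mp_pr (hg k a) (hid v)))
  funext m
  rw [hR1, hR2]

end Pool.Agent.SFC.G
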