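import Pool.Agent.SFC.TmA

/-!
# SFC/TmL: the families are lattices

`lf_tens`: `lat_of_fg`.  Finitely generated: by `latdec` for `n`, `n'` (`b i a ∈ n i`, `g i a ∈ dl`) and generators of the `L i j m` (`IsLat.fg`): `tens L n n' m` is the span of
`z ≫ (b i a ⊗ b' j a')` with `z` in `L i j m` (`f = ∑ (f ≫ g i a) ≫ b i a` with `f ≫ g i a ∈ O`), i.e. the supremum over the finitely many `(i, j, a, a')` of the images of `L i j m` under
the `K`-linear maps `z ↦ z ≫ (b i a ⊗ b' j a')` (`fg_iSup'`, `Submodule.FG.map`).  Spanning over `K`: `x : S m ⟶ W ⊗ W'` is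
`∑ (x ≫ (g i a ⊗ g' j a')) ≫ (b i a ⊗ b' j a')` and `x ≫ (g i a ⊗ g' j a')` is in the `K`-span of `L i j m` (`IsLat.span`); use `Submodule.map_span` for the `K`-linear map.
`lf_push`: image of a lattice under the surjective `K`-linear map `f ↦ f ≫ t` (`x = (x ≫ s) ≫ t`): `lat_of_fg`, `Submodule.FG.map`.
`lf_gen`: `Hom (S m, W) = K θ` for `m = i` (`schur`) and `0` otherwise: `lat_span_singleton`, `lat_zero`.  `lf_scl`: `IsLat.scl`.
-/

set_option autoImplicit false

noncomputable section

open CategoryTheory MonoidalCategory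
open scoped BigOperators

namespace Pool.Agent.SFC

open Pool.Agent.NFG

universe v' u' w

variable {K : Type w} [Field K] {N : Type u'} [Category.{v'} N] [Preadditive N] [Linear K N] [MonoidalCategory N]
  [MonoidalPreadditive N] [MonoidalLinear K N] {ι : Type} [Fintype ι] [DecidableEq ι] {O : Subring K} {F : Fus K N ι}

/-- the generators of the tensor product may be restricted to generators of the factors -/
private theorem TmL_tri {i j m : ι} {W W' : N} (P : Submodule O (F.S m ⟶ W ⊗ W')) {s1 : Set (F.S i ⟶ W)}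
    {s2 : Set (F.S j ⟶ W')} {s3 : Set (F.S m ⟶ F.S i ⊗ F.S j)}
    (h : ∀ z ∈ s3, ∀ f ∈ s1, ∀ g ∈ s2, z ≫ (f ⊗ₘ g) ∈ P) {z : F.S m ⟶ F.S i ⊗ F.S j} {f : F.S i ⟶ W}
    {g : F.S j ⟶ W'} (hz : z ∈ Submodule.span O s3) (hf : f ∈ Submodule.span O s1)
    (hg : g ∈ Submodule.span O s2) : z ≫ (f ⊗ₘ g) ∈ P := by
  induction hz using Submodule.span_induction with
  | mem z hz =>
    induction hf using Submodule.span_induction with
    | mem f hf =>
      induction hg using Submodule.span_induction with
      | mem g hg => exact h z hz f hf g hg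
      | zero =>
        rw [th_zeroR, Limits.comp_zero]
        exact P.zero_mem
      | add x y _ _ h1 h2 =>
        rw [th_addR, Preadditive.comp_add]
        exact P.add_mem h1 h2
      | smul o x _ h1 =>
        have h2 : (o • x : F.S j ⟶ W') = (o : K) • x := rfl
        rw [h2, th_smulR, Linear.comp_smul]
        exact smul_mem_K o.2 h1
    | zero =>
      rw [th_zeroL, Limits.comp_zero]
      exact P.zero_mem
    | add x y _ _ h1 h2 =>
      rw [th_addL, Preadditive.comp_add]
      exact P.add_mem h1 h2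
    | smul o x _ h1 =>
      have h2 : (o • x : F.S i ⟶ W) = (o : K) • x := rfl
      rw [h2, th_smulL, Linear.comp_smul]
      exact smul_mem_K o.2 h1
  | zero =>
    rw [Limits.zero_comp]
    exact P.zero_mem
  | add x y _ _ h1 h2 =>
    rw [Preadditive.add_comp]
    exact P.add_mem h1 h2
  | smul o x _ h1 =>
    have h2 : (o • x : F.S m ⟶ F.S i ⊗ F.S j) = (o : K) • x := rfl
    rw [h2, Linear.smul_comp]
    exact smul_mem_K o.2 h1

private theorem TmL_fg {L : F.Sys O} (h : OF O F L) {W W' : N} {n : F.Fam O W} {n' : F.Fam O W'} (hn : LF n)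
    (hn' : LF n') (m : ι) : (tens L n n' m).FG := by
  have e1 : ∀ i, ∃ (k : ℕ) (b : Module.Basis (Fin k) K (F.S i ⟶ W)), n i = Submodule.span O (Set.range b) := hn
  have e2 : ∀ i, ∃ (k : ℕ) (b : Module.Basis (Fin k) K (F.S i ⟶ W')), n' i = Submodule.span O (Set.range b) := hn'
  have e3 : ∀ q : ι × ι, ∃ (k : ℕ) (b : Module.Basis (Fin k) K (F.S m ⟶ F.S q.1 ⊗ F.S q.2)),
      L q.1 q.2 m = Submodule.span O (Set.range b) := fun q => h.lat q.1 q.2 m
  choose k1 b1 h1 using e1
  choose k2 b2 h2 using e2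
  choose k3 b3 h3 using e3
  have key : tens L n n' m = Submodule.span O (Set.range
      fun q : (Σ q : ι × ι, Fin (k3 q) × Fin (k1 q.1) × Fin (k2 q.2)) =>
        b3 q.1 q.2.1 ≫ (b1 q.1.1 q.2.2.1 ⊗ₘ b2 q.1.2 q.2.2.2)) := by
    refine le_antisymm (Submodule.span_le.2 ?_) (Submodule.span_le.2 ?_)
    · rintro _ ⟨i, j, z, f, g, hz, hf, hg, rfl⟩
      rw [h1] at hf
      rw [h2] at hg
      rw [h3 (i, j)] at hz
      refine TmL_tri _ ?_ hz hf hg
      rintro _ ⟨a, rfl⟩ _ ⟨a', rfl⟩ _ ⟨a'', rfl⟩
      exact Submodule.subset_span ⟨⟨(i, j), a, a', a''⟩, rfl⟩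
    · rintro _ ⟨⟨⟨i, j⟩, a, a', a''⟩, rfl⟩
      refine mem_tens ?_ ?_ ?_
      · rw [h3 (i, j)]
        exact Submodule.subset_span ⟨a, rfl⟩
      · rw [h1]
        exact Submodule.subset_span ⟨a', rfl⟩
      · rw [h2]
        exact Submodule.subset_span ⟨a'', rfl⟩
  rw [key]
  exact Submodule.fg_span (Set.finite_range _)

private theorem TmL_span {L : F.Sys O} (h : OF O F L) {W W' : N} {n : F.Fam O W} {n' : F.Fam O W'} (hn : LF n)
    (hn' : LF n') (m : ι) : Submodule.span K ((tens L n n' m : Submodule O _) : Set (F.S m ⟶ W ⊗ W')) = ⊤ := by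
  obtain ⟨k1, b, g, hb, -, -, hs⟩ := latdec F n hn
  obtain ⟨k2, b', g', hb', -, -, hs'⟩ := latdec F n' hn'
  rw [eq_top_iff]
  intro x _
  have hx : x = ∑ i, ∑ a, ∑ j, ∑ a', (x ≫ (g i a ⊗ₘ g' j a')) ≫ (b i a ⊗ₘ b' j a') := by
    calc x = x ≫ (𝟙 W ⊗ₘ 𝟙 W') := by rw [MonoidalCategory.id_tensorHom_id, Category.comp_id]
      _ = x ≫ ((∑ i, ∑ a, g i a ≫ b i a) ⊗ₘ (∑ j, ∑ a', g' j a' ≫ b' j a')) := by rw [hs, hs']
      _ = _ := by
        rw [MonoidalCategory.tensorHom_def, sum_whiskerRight, Preadditive.sum_comp, Preadditive.comp_sum]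
        refine Finset.sum_congr rfl fun i _ => ?_
        rw [sum_whiskerRight, Preadditive.sum_comp, Preadditive.comp_sum]
        refine Finset.sum_congr rfl fun a _ => ?_
        rw [whiskerLeft_sum, Preadditive.comp_sum, Preadditive.comp_sum]
        refine Finset.sum_congr rfl fun j _ => ?_
        rw [whiskerLeft_sum, Preadditive.comp_sum, Preadditive.comp_sum]
        refine Finset.sum_congr rfl fun a' _ => ?_
        rw [← MonoidalCategory.tensorHom_def, ← MonoidalCategory.tensorHom_comp_tensorHom, Category.assoc]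
  rw [hx]
  refine Submodule.sum_mem _ fun i _ => Submodule.sum_mem _ fun a _ => Submodule.sum_mem _ fun j _ =>
    Submodule.sum_mem _ fun a' _ => ?_
  have hy : x ≫ (g i a ⊗ₘ g' j a') ∈ Submodule.span K ((L i j m : Submodule O _) : Set (F.S m ⟶ F.S i ⊗ F.S j)) := by
    rw [(h.lat i j m).span]
    exact Submodule.mem_top
  generalize x ≫ (g i a ⊗ₘ g' j a') = y at hy
  induction hy using Submodule.span_induction with
  | mem y hy => exact Submodule.subset_span (mem_tens hy (hb i a) (hb' j a'))
  | zero =>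
    rw [Limits.zero_comp]
    exact Submodule.zero_mem _
  | add x y _ _ h1 h2 =>
    rw [Preadditive.add_comp]
    exact Submodule.add_mem _ h1 h2
  | smul c x _ h1 =>
    rw [Linear.smul_comp]
    exact Submodule.smul_mem _ c h1

theorem lf_tens {L : F.Sys O} (h : OF O F L) {W W' : N} {n : F.Fam O W} {n' : F.Fam O W'} (hn : LF n) (hn' : LF n') :
    LF (tens L n n') := fun m => lat_of_fg h.val _ (TmL_fg h hn hn' m) (TmL_span h hn hn' m)

theorem lf_push (hO : Val O) {W W' : N} {n : F.Fam O W} (hn : LF n) (t : W ⟶ W') (s : W' ⟶ W) (h : s ≫ t = 𝟙 W') :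
    LF (push t n) := by
  intro m
  obtain ⟨k, b, hb⟩ := hn m
  have hmem : ∀ f, f ∈ push t n m ↔ ∃ g ∈ n m, f = g ≫ t := fun f => Iff.rfl
  refine lat_of_fg hO _ ?_ ?_
  · have key : push t n m = Submodule.span O (Set.range fun a => b a ≫ t) := by
      refine le_antisymm ?_ (Submodule.span_le.2 ?_)
      · intro f hf
        obtain ⟨g, hg, rfl⟩ := (hmem f).1 hf
        rw [hb] at hg
        induction hg using Submodule.span_induction with
        | mem g hg =>
          obtain ⟨a, rfl⟩ := hg
          exact Submodule.subset_span ⟨a, rfl⟩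
        | zero =>
          rw [Limits.zero_comp]
          exact Submodule.zero_mem _
        | add x y hx hy h1 h2 =>
          rw [Preadditive.add_comp]
          refine Submodule.add_mem _ (h1 ?_) (h2 ?_)
          · exact (hmem _).2 ⟨x, by rw [hb]; exact hx, rfl⟩
          · exact (hmem _).2 ⟨y, by rw [hb]; exact hy, rfl⟩
        | smul c x hx h1 =>
          have h2 : (c • x : F.S m ⟶ W) = (c : K) • x := rfl
          rw [h2, Linear.smul_comp]
          refine smul_mem_K c.2 (h1 ?_)
          exact (hmem _).2 ⟨x, by rw [hb]; exact hx, rfl⟩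
      · rintro _ ⟨a, rfl⟩
        refine (hmem _).2 ⟨b a, ?_, rfl⟩
        rw [hb]
        exact Submodule.subset_span ⟨a, rfl⟩
    rw [key]
    exact Submodule.fg_span (Set.finite_range _)
  · rw [eq_top_iff]
    intro x _
    have hx : x ≫ s ∈ Submodule.span K ((n m : Submodule O _) : Set (F.S m ⟶ W)) := by
      rw [(hn m).span]
      exact Submodule.mem_top
    have hx' : x = (x ≫ s) ≫ t := by rw [Category.assoc, h, Category.comp_id]
    rw [hx']
    generalize x ≫ s = y at hx
    induction hx using Submodule.span_induction with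
    | mem y hy => exact Submodule.subset_span ((hmem _).2 ⟨y, hy, rfl⟩)
    | zero =>
      rw [Limits.zero_comp]
      exact Submodule.zero_mem _
    | add x y _ _ h1 h2 =>
      rw [Preadditive.add_comp]
      exact Submodule.add_mem _ h1 h2
    | smul c x _ h1 =>
      rw [Linear.smul_comp]
      exact Submodule.smul_mem _ c h1

theorem lf_gen {W : N} {i : ι} (e : F.S i ≅ W) : LF (gen (O := O) e.hom) := by
  intro m
  by_cases hm : m = i
  · subst hm
    have h1 : gen (O := O) e.hom m = Submodule.span O ({e.hom} : Set (F.S m ⟶ W)) := by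
      unfold gen
      congr 1
      ext g
      constructor
      · rintro ⟨_, rfl⟩
        simp
      · intro hg
        rw [Set.mem_singleton_iff] at hg
        exact ⟨rfl, by simp [hg]⟩
    rw [h1]
    refine lat_span_singleton ?_ ?_
    · intro h0
      apply F.one_ne m
      rw [← e.hom_inv_id, h0, Limits.zero_comp]
    · intro x
      obtain ⟨c, hc⟩ := F.schur m (x ≫ e.inv)
      refine ⟨c, ?_⟩
      have h2 : x = (x ≫ e.inv) ≫ e.hom := by rw [Category.assoc, e.inv_hom_id, Category.comp_id]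
      rw [h2, hc, Linear.smul_comp, Category.id_comp]
  · refine lat_zero ?_ _
    intro x
    have h2 : x = (x ≫ e.inv) ≫ e.hom := by rw [Category.assoc, e.inv_hom_id, Category.comp_id]
    rw [h2, F.hom_zero m i hm (x ≫ e.inv), Limits.zero_comp]

theorem lf_un : LF (un O F) := lf_gen F.u

theorem lf_scl {W : N} {n : F.Fam O W} (hn : LF n) {c : K} (hc : c ≠ 0) : LF (sclF c n) := fun m => (hn m).scl hc

end Pool.Agent.SFC
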