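import Pool.Agent.SFC.TmB
import Pool.Agent.SFC.TmC
import Pool.Agent.SFC.TmL
import Pool.Agent.NFG.Unt

/-!
# SFC/TmD: dual families

`dual_le`: `𝟙 Y = (ρ_ Y).inv ≫ Y ◁ c ≫ (α_ _ _ _).inv ≫ e ▷ Y ≫ (λ_ Y).hom` (`c = coevaluation'`, `e = evaluation'`, from `p.coevaluation_evaluation'`), and each factor maps the
families: `n'' → n'' ⊗ un → n'' ⊗ (n ⊗ n') → (n'' ⊗ n) ⊗ n' → un ⊗ n' → n'` (`mp_rho_inv`, `mp_wl`, `mp_assoc_inv`, `mp_wr`, `mp_lam`).

`exists_dual`: `latdec` for `n`: `b m i : S m ⟶ W`, `g m i : W ⟶ S m` with `∑ g m i ≫ b m i = 𝟙 W`.  For each `m` let `(m', e m)` be the pairing over `O` of `h.rigid m`,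
with `c m : 𝟙 ⟶ S m ⊗ S m'`, `v m : S m' ⊗ S m ⟶ 𝟙`; `Mp un (gen 𝟙 ⊗ gen 𝟙) (c m)` (`mp_gen`: `F.u.hom ≫ c m ∈ L m m' o`) and `Mp (gen 𝟙 ⊗ gen 𝟙) un (v m)` (from
`v m ≫ F.u.inv ∈ dl (L m' m o)`: for `z ∈ L m' m l`: `l = o` and `z ≫ v m = t • F.u.hom` with `t ∈ O`; for `l ≠ o` it is `0`).  Put `y m i : S m' ⟶ Y`,
`y m i = (ρ_ _).inv ≫ S m' ◁ c_p ≫ S m' ◁ (g m i ▷ Y) ≫ (α_ _ _ _).inv ≫ v m ▷ Y ≫ (λ_ _).hom` (`c_p = p.coevaluation'`) and
`n' k = ⨆ (m) (i), gen (y m i) k`.  (1) `c_p ≫ g m i ▷ Y = c m ≫ S m ◁ y m i` (zigzag for `e m`), so `c_p = ∑ c m ≫ (b m i ⊗ y m i)`: `Mp un (tens n n')`.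
(2) `y m i ▷ W ≫ e_p = S m' ◁ g m i ≫ v m` (zigzag for `p`), and `Mp n (gen 𝟙) (g m i)`: `Mp (tens n' n) un e_p` (by linearity enough on the generators `y m i` of `n'`).
(3) lattice: finitely generated (`fg_iSup'`), and spanning: for `f : S k ⟶ Y`, `f = (f ▷) ..` insert (1) in the identity of `dual_le`:
`f = ∑ (ρ⁻¹ ≫ S k ◁ c m ≫ α⁻¹ ≫ ((f ⊗ b m i) ≫ e_p) ▷ S m' ≫ λ) ≫ y m i`, a sum of `(S k ⟶ S m') ≫ y m i`: `K`-multiples of the `y m i` with `m' = k`.  `lat_of_fg`.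
-/

set_option autoImplicit false

noncomputable section

open CategoryTheory MonoidalCategory
open scoped BigOperators

namespace Pool.Agent.SFC

open Pool.Agent.NFG

universe v' u' w

variable {K : Type w} [Field K] {N : Type u'} [Category.{v'} N] [Preadditive N] [Linear K N] [MonoidalCategory N]
  [MonoidalPreadditive N] [MonoidalLinear K N] {ι : Type} [Fintype ι] [DecidableEq ι] {O : Subring K} {F : Fus K N ι}

private theorem TmD_zig {W Y X : N} (p : ExactPairing W Y) (f : X ⟶ Y) : f = (ρ_ X).inv ≫ X ◁ p.coevaluation' ≫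
    (α_ _ _ _).inv ≫ (f ▷ W ≫ p.evaluation') ▷ Y ≫ (λ_ Y).hom := by
  have h := p.coevaluation_evaluation'
  rw [comp_whiskerRight, Category.assoc, ← associator_inv_naturality_left_assoc, whisker_exchange_assoc,
    ← rightUnitor_inv_naturality_assoc]
  have h2 : Y ◁ p.coevaluation' ≫ (α_ Y W Y).inv ≫ p.evaluation' ▷ Y ≫ (λ_ Y).hom = (ρ_ Y).hom := by
    have h3 := congrArg (fun t => t ≫ (λ_ Y).hom) h
    simpa using h3
  rw [h2, Iso.inv_hom_id, Category.comp_id]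

theorem dual_le {L : F.Sys O} (h : OF O F L) {W Y : N} (p : ExactPairing W Y) {n : F.Fam O W} {n' n'' : F.Fam O Y}
    (h1 : Mp (un O F) (tens L n n') p.coevaluation') (h2 : Mp (tens L n'' n) (un O F) p.evaluation') :
    Mp n'' n' (𝟙 Y) := by
  have h3 := TmD_zig p (𝟙 Y)
  rw [id_whiskerRight, Category.id_comp] at h3
  rw [h3]
  exact mp_comp (mp_rho_inv h n'') (mp_comp (mp_wl n'' h1) (mp_comp (mp_assoc_inv h _ _ _)
    (mp_comp (mp_wr n' h2) (mp_lam h n'))))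

/-- the mate of `c' : 𝟙 ⟶ A ⊗ Y` -/
private def TmD_y {A B Y : N} (e : ExactPairing A B) (c' : 𝟙_ N ⟶ A ⊗ Y) : B ⟶ Y :=
  (ρ_ B).inv ≫ B ◁ c' ≫ (α_ B A Y).inv ≫ e.evaluation' ▷ Y ≫ (λ_ Y).hom

private theorem TmD_I1 {A B Y : N} (e : ExactPairing A B) (c' : 𝟙_ N ⟶ A ⊗ Y) :
    e.coevaluation' ≫ A ◁ TmD_y e c' = c' := by
  let _ := e
  have h := (tensorLeftHomEquiv (𝟙_ N) A B Y).apply_symm_apply c'
  have h1 : (λ_ (𝟙_ N)).inv ≫ e.coevaluation' ▷ (𝟙_ N) ≫ (α_ A B (𝟙_ N)).hom ≫ A ◁ (B ◁ c' ≫ (α_ B A Y).inv ≫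
    e.evaluation' ▷ Y ≫ (λ_ Y).hom) = c' := h
  rw [TmD_y, MonoidalCategory.whiskerLeft_comp]
  have h2 : e.coevaluation' ≫ A ◁ (ρ_ B).inv = (λ_ (𝟙_ N)).inv ≫ e.coevaluation' ▷ (𝟙_ N) ≫
      (α_ A B (𝟙_ N)).hom := by
    have h3 : A ◁ (ρ_ B).inv = (ρ_ (A ⊗ B)).inv ≫ (α_ A B (𝟙_ N)).hom := by
      rw [rightUnitor_tensor_inv, Category.assoc, Iso.inv_hom_id, Category.comp_id]
    rw [h3, rightUnitor_inv_naturality_assoc, unitors_inv_equal]
  rw [reassoc_of% h2]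
  exact h1

private theorem TmD_mate {B W Y : N} (p : ExactPairing W Y) (s : B ⊗ W ⟶ 𝟙_ N) :
    ((ρ_ B).inv ≫ B ◁ p.coevaluation' ≫ (α_ B W Y).inv ≫ s ▷ Y ≫ (λ_ Y).hom) ▷ W ≫ p.evaluation' = s := by
  let _ := p
  have h := (tensorRightHomEquiv B W Y (𝟙_ N)).symm_apply_apply s
  have h1 : ((ρ_ B).inv ≫ B ◁ p.coevaluation' ≫ (α_ B W Y).inv ≫ s ▷ Y) ▷ W ≫ (α_ (𝟙_ N) Y W).hom ≫
    (𝟙_ N) ◁ p.evaluation' ≫ (ρ_ (𝟙_ N)).hom = s := h
  have h2 : (λ_ Y).hom ▷ W ≫ p.evaluation' = (α_ (𝟙_ N) Y W).hom ≫ (𝟙_ N) ◁ p.evaluation' ≫ (ρ_ (𝟙_ N)).hom := by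
    rw [← unitors_equal, leftUnitor_naturality, leftUnitor_tensor_hom, Category.assoc, Iso.hom_inv_id_assoc]
  conv_rhs => rw [← h1, ← h2]
  simp only [comp_whiskerRight, Category.assoc]

private theorem TmD_I2 {A B W Y : N} (e : ExactPairing A B) (p : ExactPairing W Y) (g : W ⟶ A) :
    TmD_y e (p.coevaluation' ≫ g ▷ Y) ▷ W ≫ p.evaluation' = B ◁ g ≫ e.evaluation' := by
  have h : TmD_y e (p.coevaluation' ≫ g ▷ Y) = (ρ_ B).inv ≫ B ◁ p.coevaluation' ≫ (α_ B W Y).inv ≫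
      (B ◁ g ≫ e.evaluation') ▷ Y ≫ (λ_ Y).hom := by
    rw [TmD_y, MonoidalCategory.whiskerLeft_comp, comp_whiskerRight, Category.assoc, Category.assoc,
      associator_inv_naturality_middle_assoc]
  rw [h, TmD_mate]

/-- the coevaluation as a sum -/
private theorem TmD_sum (F : Fus K N ι) {W Y : N} (p : ExactPairing W Y) {st : ι → ι}
    (e : ∀ m, ExactPairing (F.S m) (F.S (st m))) {a : ι → ℕ} (b : ∀ m, Fin (a m) → (F.S m ⟶ W))
    (g : ∀ m, Fin (a m) → (W ⟶ F.S m)) (hs : ∑ m, ∑ i, g m i ≫ b m i = 𝟙 W) :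
    p.coevaluation' = ∑ m, ∑ i, (e m).coevaluation' ≫ (b m i ⊗ₘ TmD_y (e m) (p.coevaluation' ≫ g m i ▷ Y)) := by
  have h1 : ∀ m i, (e m).coevaluation' ≫ (b m i ⊗ₘ TmD_y (e m) (p.coevaluation' ≫ g m i ▷ Y)) =
      p.coevaluation' ≫ (g m i ≫ b m i) ▷ Y := by
    intro m i
    rw [MonoidalCategory.tensorHom_def', ← Category.assoc, TmD_I1, Category.assoc, comp_whiskerRight]
  simp only [h1]
  conv_lhs => rw [← Category.comp_id p.coevaluation', ← id_whiskerRight, ← hs]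
  rw [sum_whiskerRight, Preadditive.comp_sum]
  refine Finset.sum_congr rfl fun m _ => ?_
  rw [sum_whiskerRight, Preadditive.comp_sum]

/-- inserting a tensor into the zigzag identity -/
private theorem TmD_ins {W Y X A B : N} (s : X ⊗ W ⟶ 𝟙_ N) (c : 𝟙_ N ⟶ A ⊗ B) (b : A ⟶ W) (y : B ⟶ Y) :
    (ρ_ X).inv ≫ X ◁ (c ≫ (b ⊗ₘ y)) ≫ (α_ _ _ _).inv ≫ s ▷ Y ≫ (λ_ Y).hom =
      ((ρ_ X).inv ≫ X ◁ c ≫ (α_ _ _ _).inv ≫ (X ◁ b ≫ s) ▷ B ≫ (λ_ B).hom) ≫ y := by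
  rw [MonoidalCategory.tensorHom_def, MonoidalCategory.whiskerLeft_comp, MonoidalCategory.whiskerLeft_comp]
  simp only [Category.assoc, comp_whiskerRight]
  rw [← leftUnitor_naturality, ← associator_inv_naturality_middle_assoc, associator_inv_naturality_right_assoc,
    whisker_exchange_assoc]

private theorem TmD_un (F : Fus K N ι) {m k j : ι} (P : F.Fam O (F.S k ⊗ F.S j)) {z : F.S m ⟶ F.S k ⊗ F.S j}
    (hz : z ∈ P m) {v : F.S k ⊗ F.S j ⟶ 𝟙_ N} (hv : v ≫ F.u.inv ∈ F.dl (P F.o)) : z ≫ v ∈ un O F m := by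
  have h3 : z ≫ v = (z ≫ v ≫ F.u.inv) ≫ F.u.hom := by simp
  by_cases hm : m = F.o
  · subst hm
    obtain ⟨c, hc, h1⟩ := hv z hz
    rw [h3, h1, Linear.smul_comp, Category.id_comp]
    exact smul_mem_K hc (mem_gen _)
  · rw [h3, F.hom_zero m F.o hm (z ≫ v ≫ F.u.inv), Limits.zero_comp]
    exact Submodule.zero_mem _

private theorem TmD_top (F : Fus K N ι) {Y : N} {k : ι} {Q : Submodule O (F.S k ⟶ Y)} {κ : Type*} (s : Finset κ)
    (j : κ → ι) (r : ∀ q, F.S k ⟶ F.S (j q)) (y : ∀ q, F.S (j q) ⟶ Y)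
    (hy : ∀ (q : κ) (h : k = j q), eqToHom (congrArg F.S h) ≫ y q ∈ Q) :
    ∑ q ∈ s, r q ≫ y q ∈ Submodule.span K (Q : Set (F.S k ⟶ Y)) := by
  refine Submodule.sum_mem _ fun q _ => ?_
  by_cases h : k = j q
  · obtain ⟨t, ht⟩ : ∃ t : K, r q = t • eqToHom (congrArg F.S h) := by
      obtain ⟨t, ht⟩ := F.schur k (r q ≫ eqToHom (congrArg F.S h.symm))
      refine ⟨t, ?_⟩
      have h1 : r q = (r q ≫ eqToHom (congrArg F.S h.symm)) ≫ eqToHom (congrArg F.S h) := by simp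
      rw [h1, ht, Linear.smul_comp, Category.id_comp]
    rw [ht, Linear.smul_comp]
    exact Submodule.smul_mem _ _ (Submodule.subset_span (hy q h))
  · rw [F.hom_zero k (j q) h (r q), Limits.zero_comp]
    exact Submodule.zero_mem _

theorem exists_dual {L : F.Sys O} (h : OF O F L) {W Y : N} (p : ExactPairing W Y) {n : F.Fam O W} (hn : LF n) :
    ∃ n' : F.Fam O Y, LF n' ∧ Mp (un O F) (tens L n n') p.coevaluation' ∧
      Mp (tens L n' n) (un O F) p.evaluation' := by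
  obtain ⟨a, b, g, hb, hg, -, hs⟩ := latdec F n hn
  choose st e hc hv using h.rigid
  obtain ⟨y, hy⟩ : ∃ y : ∀ m, Fin (a m) → (F.S (st m) ⟶ Y),
      y = fun m i => TmD_y (e m) (p.coevaluation' ≫ g m i ▷ Y) := ⟨_, rfl⟩
  have hsum := TmD_sum F p e b g hs
  have hI2 : ∀ m i, y m i ▷ W ≫ p.evaluation' = F.S (st m) ◁ g m i ≫ (e m).evaluation' := by
    intro m i
    rw [hy]
    exact TmD_I2 (e m) p (g m i)
  have hsum' : p.coevaluation' = ∑ m, ∑ i, (e m).coevaluation' ≫ (b m i ⊗ₘ y m i) := by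
    rw [hy]
    exact hsum
  obtain ⟨n', hn'⟩ : ∃ n' : F.Fam O Y, n' = fun k => Submodule.span O {f | ∃ (m : ι) (i : Fin (a m))
      (hh : k = st m), f = eqToHom (congrArg F.S hh) ≫ y m i} := ⟨_, rfl⟩
  have hmem' : ∀ k m i (hh : k = st m), eqToHom (congrArg F.S hh) ≫ y m i ∈ n' k := fun k m i hh => by
    rw [hn']
    exact Submodule.subset_span ⟨m, i, hh, rfl⟩
  have hmem : ∀ m i, y m i ∈ n' (st m) := fun m i => by
    have := hmem' (st m) m i rfl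
    rwa [eqToHom_refl, Category.id_comp] at this
  refine ⟨n', fun k => lat_of_fg h.val _ ?_ ?_, ?_, ?_⟩
  · rw [hn']
    refine Submodule.fg_span (Set.Finite.subset (Set.finite_range fun q : (Σ m, Fin (a m)) =>
      if hh : k = st q.1 then eqToHom (congrArg F.S hh) ≫ y q.1 q.2 else 0) ?_)
    rintro _ ⟨m, i, hh, rfl⟩
    exact ⟨⟨m, i⟩, dif_pos hh⟩
  · rw [eq_top_iff]
    intro f _
    have h1 := TmD_zig p f
    have h2 : f = ∑ q : (Σ m, Fin (a m)), ((ρ_ (F.S k)).inv ≫ F.S k ◁ (e q.1).coevaluation' ≫ (α_ _ _ _).inv ≫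
        (F.S k ◁ b q.1 q.2 ≫ f ▷ W ≫ p.evaluation') ▷ F.S (st q.1) ≫ (λ_ (F.S (st q.1))).hom) ≫ y q.1 q.2 := by
      rw [Fintype.sum_sigma]
      conv_lhs => rw [h1, hsum']
      rw [whiskerLeft_sum, Preadditive.sum_comp, Preadditive.comp_sum]
      refine Finset.sum_congr rfl fun m _ => ?_
      rw [whiskerLeft_sum, Preadditive.sum_comp, Preadditive.comp_sum]
      refine Finset.sum_congr rfl fun i _ => ?_
      exact TmD_ins (f ▷ W ≫ p.evaluation') (e m).coevaluation' (b m i) (y m i)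
    rw [h2]
    exact TmD_top F Finset.univ (fun q : (Σ m, Fin (a m)) => st q.1) _ (fun q => y q.1 q.2)
      (fun q hh => hmem' k q.1 q.2 hh)
  · refine mp_gen.2 ?_
    rw [hsum', Preadditive.comp_sum]
    refine Submodule.sum_mem _ fun m _ => ?_
    rw [Preadditive.comp_sum]
    refine Submodule.sum_mem _ fun i _ => ?_
    rw [← Category.assoc]
    exact mem_tens (hc m) (hb m i) (hmem m i)
  · refine mp_tens_of fun m₀ k j z f g' hz hf hg' => ?_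
    rw [hn'] at hf
    induction hf using Submodule.span_induction with
    | mem x hx =>
      obtain ⟨m, i, hh, rfl⟩ := hx
      subst hh
      rw [eqToHom_refl, Category.id_comp]
      have h3 : (y m i ⊗ₘ g') ≫ p.evaluation' = F.S (st m) ◁ (g' ≫ g m i) ≫ (e m).evaluation' := by
        rw [MonoidalCategory.tensorHom_def', Category.assoc, hI2, MonoidalCategory.whiskerLeft_comp, Category.assoc]
      rw [h3]
      by_cases hj : j = m
      · subst hj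
        obtain ⟨c, hcO, h4⟩ := hg j i g' hg'
        rw [h4, MonoidalLinear.whiskerLeft_smul, Linear.smul_comp, Linear.comp_smul, whiskerLeft_id,
          Category.id_comp]
        exact smul_mem_K hcO (TmD_un F (L (st j) j) hz (hv j))
      · rw [comp_zero' F hj g' (g m i), MonoidalPreadditive.whiskerLeft_zero, Limits.zero_comp, Limits.comp_zero]
        exact Submodule.zero_mem _
    | zero =>
      rw [th_zeroL, Limits.zero_comp, Limits.comp_zero]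
      exact Submodule.zero_mem _
    | add x y _ _ h1 h2 =>
      rw [th_addL, Preadditive.add_comp, Preadditive.comp_add]
      exact Submodule.add_mem _ h1 h2
    | smul c x _ h1 =>
      have h2 : (c • x : F.S k ⟶ Y) = (c : K) • x := rfl
      rw [h2, th_smulL, Linear.smul_comp, Linear.comp_smul]
      exact smul_mem_K c.2 h1

end Pool.Agent.SFC
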