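import Pool.Agent.SFC.TvBH

/-!
# SFC/TvCH (general finite group): `V` preserves exact pairings, with explicit evaluation and coevaluation
-/

set_option autoImplicit false

noncomputable section

open CategoryTheory MonoidalCategory
open Functor.LaxMonoidal Functor.OplaxMonoidal

namespace Pool.Agent.SFC.G

universe v u v' u' w

variable {K : Type w} [Field K] {C : Type u} [Category.{v} C] [Preadditive C] [Linear K C] [MonoidalCategory C]
  {N : Type u'} [Category.{v'} N] [Preadditive N] [Linear K N]
  [MonoidalCategory N] {V : C ⥤ N} [V.LaxMonoidal] [V.OplaxMonoidal]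
  {Γ : Type} [AddGroup Γ] [Fintype Γ]

theorem pair_V' (G : GalFH K V Γ) {x y : C} (e : ExactPairing x y) :
    ∃ f : ExactPairing (V.obj x) (V.obj y), f.coevaluation' = ε V ≫ V.map e.coevaluation' ≫ δ V x y ∧
      f.evaluation' = μ V y x ≫ V.map e.evaluation' ≫ η V := by
  refine ⟨⟨ε V ≫ V.map e.coevaluation' ≫ δ V x y, μ V y x ≫ V.map e.evaluation' ≫ η V, ?_, ?_⟩, rfl, rfl⟩
  · have h := G.frob2 y x y
    have h1 := e.coevaluation_evaluation'
    simp only [MonoidalCategory.whiskerLeft_comp, comp_whiskerRight, Category.assoc]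
    rw [reassoc_of% h, μ_natural_right_assoc, δ_natural_left_assoc, ← V.map_comp_assoc, ← V.map_comp_assoc,
      Category.assoc, h1]
    rw [V.map_comp, Category.assoc, ← Functor.LaxMonoidal.right_unitality_assoc]
    have h2 := cL_cn (V := V) y
    rw [cL, Category.assoc] at h2
    rw [← cancel_mono (λ_ (V.obj y)).hom]
    simp only [Category.assoc]
    rw [h2, Iso.inv_hom_id]
  · have h := G.frob1 x y x
    have h1 := e.evaluation_coevaluation'
    simp only [MonoidalCategory.whiskerLeft_comp, comp_whiskerRight, Category.assoc]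
    rw [reassoc_of% h, μ_natural_left_assoc, δ_natural_right_assoc, ← V.map_comp_assoc, ← V.map_comp_assoc,
      Category.assoc, h1]
    rw [V.map_comp, Category.assoc, ← Functor.LaxMonoidal.left_unitality_assoc]
    have h2 := cR_cn (V := V) x
    rw [cR, Category.assoc] at h2
    rw [← cancel_mono (ρ_ (V.obj x)).hom]
    simp only [Category.assoc]
    rw [h2, Iso.inv_hom_id]

end Pool.Agent.SFC.G
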