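import Pool.Agent.SFC.TfAH
import Pool.Agent.SFC.TmD
import Pool.Agent.SFC.TvCH

/-!
# SFC/TfCH (general finite group): the dual of a stable family is stable

`mp_rec_ev`: from `rec_ev`: `m' ⊗ m → (m' ⊗ m) ⊗ un → (m' ⊗ m) ⊗ (e ⊗ e) → ((m' ⊗ m) ⊗ e) ⊗ e → un ⊗ e → e`, where `(m' ⊗ m) ⊗ e → m' ⊗ (m ⊗ e) → m' ⊗ m → un` (`hm.aR`, the hypothesis).
`mp_rec_cv`: from `rec_cv`: `n • V c` maps `e → e ⊗ un → e ⊗ (m ⊗ m') → e ⊗ pr m m' → pr m m'` (`stb_pr`), and `V c = n⁻¹ • (n • V c)`.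
`dual_stb`: `b = p.evaluation'`.  `aL`: let `n'' = push (aL V y) (tens L e m')`; `dual_le` with `n''` gives the claim (`mp_push_iff`), and its hypothesis is by `mp_tens_pushL`:
`aL V y ▷ V x ≫ μ ≫ V b ≫ η = α ≫ V 1 ◁ (μ ≫ V b) ≫ aL V 1 ≫ η` (`mu_aL`, `aL_nat`), with `mp_rec_ev`, `he.mul`, `he.cn`.
`aR`: `aR V y ▷ V x ≫ μ ≫ V b ≫ η = α ≫ V y ◁ aL V x ≫ μ ≫ V b ≫ η` (`mu_mid`), with `hm.aL`.
-/

set_option autoImplicit false

noncomputable section

open CategoryTheory MonoidalCategory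
open Functor.LaxMonoidal Functor.OplaxMonoidal
open scoped BigOperators

namespace Pool.Agent.SFC.G

open Pool.Agent.NFG

universe v u v' u' w

variable {K : Type w} [Field K] {C : Type u} [Category.{v} C] [Preadditive C] [Linear K C] [MonoidalCategory C]
  [MonoidalPreadditive C] [MonoidalLinear K C] {N : Type u'} [Category.{v'} N] [Preadditive N] [Linear K N]
  [MonoidalCategory N] [MonoidalPreadditive N] [MonoidalLinear K N] {V : C ⥤ N} [V.LaxMonoidal] [V.OplaxMonoidal]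
  {Γ : Type} [AddGroup Γ] [Fintype Γ] {ι' : Type} [Fintype ι'] [DecidableEq ι'] {O : Subring K} {FN : Fus K N ι'} {L : FN.Sys O}
  {e : FN.Fam O (V.obj (𝟙_ C))} {ι : Type} [Fintype ι] [DecidableEq ι] {FC : Fus K C ι}

theorem mp_rec_ev (G : GalFH K V Γ) (hL : OF O FN L) (he : EOk V L e) {x y : C} {m : FN.Fam O (V.obj x)}
    {m' : FN.Fam O (V.obj y)} (hm : Stb V L e m) {b : y ⊗ x ⟶ 𝟙_ C}
    (h : Mp (tens L m' m) (un O FN) (μ V y x ≫ V.map b ≫ η V)) : Mp (tens L m' m) e (μ V y x ≫ V.map b) := by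
  rw [rec_ev G b]
  refine mp_comp (mp_rho_inv hL _) (mp_comp (mp_wl _ he.sg) (mp_comp (mp_assoc_inv hL _ _ _) (mp_comp (mp_wr _ ?_)
    (mp_lam hL _))))
  exact mp_comp (mp_assoc hL _ _ _) (mp_comp (mp_wl _ hm.aR) h)

theorem mp_rec_cv (G : GalFH K V Γ) (hn : IsU O (Fintype.card Γ : K)) (hL : OF O FN L) (he : EOk V L e) {x y : C}
    {m : FN.Fam O (V.obj x)} {m' : FN.Fam O (V.obj y)} (hm : Stb V L e m) (hm' : Stb V L e m') {c : 𝟙_ C ⟶ x ⊗ y}
    (h : Mp (un O FN) (tens L m m') (ε V ≫ V.map c ≫ δ V x y)) : Mp e (pr V L m m') (V.map c) := by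
  have h1 : V.map c = (Fintype.card Γ : K)⁻¹ • ((Fintype.card Γ : K) • V.map c) := by
    rw [smul_smul, inv_mul_cancel₀ hn.1, one_smul]
  rw [h1, ← rec_cv G c]
  refine mp_smul hn.2.2 (mp_comp (mp_rho_inv hL _) (mp_comp (mp_wl _ h) (mp_comp (mp_wl _ (mp_push _ _)) ?_)))
  exact (stb_pr G hn hL hm hm').aL

theorem dual_stb (G : GalFH K V Γ) (hL : OF O FN L) (he : EOk V L e) {x y : C} (p : ExactPairing x y)
    (f : ExactPairing (V.obj x) (V.obj y)) (hf : f.evaluation' = μ V y x ≫ V.map p.evaluation' ≫ η V)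
    {m : FN.Fam O (V.obj x)} (hm : Stb V L e m) {m' : FN.Fam O (V.obj y)} (h0 : LF m')
    (h1 : Mp (un O FN) (tens L m m') f.coevaluation') (h2 : Mp (tens L m' m) (un O FN) f.evaluation') :
    Stb V L e m' := by
  have h3 : Mp (tens L m' m) (un O FN) (μ V y x ≫ V.map p.evaluation' ≫ η V) := by
    rw [← hf]
    exact h2
  refine ⟨h0, ?_, ?_⟩
  · have h4 : Mp (push (aL V y) (tens L e m')) m' (𝟙 _) := by
      refine dual_le hL f h1 ?_
      rw [mp_tens_pushL, hf]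
      have h5 : aL V y ▷ V.obj x ≫ μ V y x ≫ V.map p.evaluation' ≫ η V = (α_ _ _ _).hom ≫
          V.obj (𝟙_ C) ◁ (μ V y x ≫ V.map p.evaluation') ≫ aL V (𝟙_ C) ≫ η V := by
        have h6 := mu_aL (V := V) y x
        rw [MonoidalCategory.whiskerLeft_comp, Category.assoc, ← Category.assoc (V.obj (𝟙_ C) ◁ V.map _), aL_nat,
          Category.assoc, reassoc_of% h6, Iso.hom_inv_id_assoc]
      rw [h5]
      exact mp_comp (mp_assoc hL _ _ _) (mp_comp (mp_wl _ (mp_rec_ev G hL he hm h3)) (mp_comp he.mul he.cn))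
    rw [mp_push_iff, Category.comp_id] at h4
    exact h4
  · have h4 : Mp (push (aR V y) (tens L m' e)) m' (𝟙 _) := by
      refine dual_le hL f h1 ?_
      rw [mp_tens_pushL, hf]
      have h5 : aR V y ▷ V.obj x ≫ μ V y x ≫ V.map p.evaluation' ≫ η V = (α_ _ _ _).hom ≫
          V.obj y ◁ aL V x ≫ μ V y x ≫ V.map p.evaluation' ≫ η V := by
        have h6 := mu_mid (V := V) y x
        rw [reassoc_of% h6]
      rw [h5]
      exact mp_comp (mp_assoc hL _ _ _) (mp_comp (mp_wl _ hm.aL) h3)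
    rw [mp_push_iff, Category.comp_id] at h4
    exact h4

end Pool.Agent.SFC.G
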