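import Pool.Agent.SFC.TfC

/-!
# SFC/TfD: the form of `C`: duals

Let `f` be the pairing of `V (S i)` and `V (S j)` from `pair_V'`, `m'` the dual of `nn i` (`exists_dual`), stable by `dual_stb`, and `s` with `Mp (nn j) m' (s • 𝟙)`, `Mp m' (nn j) (s⁻¹ • 𝟙)`
(`stb_unique`).  Then `Mp un (tens (nn i) (nn j)) (s⁻¹ • f.coevaluation')` (compose with `_ ◁ (s⁻¹ • 𝟙)`) and `Mp (tens (nn j) (nn i)) un (s • f.evaluation')`.
The new pairing has coevaluation `s⁻¹ • c` and evaluation `s • b` (`c`, `b` of `p`); `s⁻¹ • f.coevaluation' = ε ≫ V (s⁻¹ • c) ≫ δ`, so `Mp e (pr (nn i) (nn j)) (V (s⁻¹ • c))` (`mp_rec_cv`) and with `u1`: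
`u.hom ≫ s⁻¹ • c ∈ LL i j o`.  `s • f.evaluation' = μ ≫ V (s • b) ≫ η`: `Mp (pr (nn j) (nn i)) e (V (s • b))` (`mp_rec_ev`, `mp_push_iff`), so for `g ∈ LL j i o`:
`V (g ≫ s • b ≫ u.inv)` maps `nn o` to `nn o` (`u2`) and `g ≫ s • b ≫ u.inv = c • 𝟙` (`schur`), `c ∈ O` by `self_O`.
-/

set_option autoImplicit false

noncomputable section

open CategoryTheory MonoidalCategory
open Functor.LaxMonoidal Functor.OplaxMonoidal
open scoped BigOperators

namespace Pool.Agent.SFC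

open Pool.Agent.NFG

universe v u v' u' w

variable {K : Type w} [Field K] {C : Type u} [Category.{v} C] [Preadditive C] [Linear K C] [MonoidalCategory C]
  [MonoidalPreadditive C] [MonoidalLinear K C] {N : Type u'} [Category.{v'} N] [Preadditive N] [Linear K N]
  [MonoidalCategory N] [MonoidalPreadditive N] [MonoidalLinear K N] {V : C ⥤ N} [V.LaxMonoidal] [V.OplaxMonoidal]
  {n : ℕ} [NeZero n] {ι' : Type} [Fintype ι'] [DecidableEq ι'] {O : Subring K} {FN : Fus K N ι'} {L : FN.Sys O}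
  {e : FN.Fam O (V.obj (𝟙_ C))} {ι : Type} [Fintype ι] [DecidableEq ι] {FC : Fus K C ι}

private theorem TfD_z1 {X Y : C} {c : 𝟙_ C ⟶ X ⊗ Y} {b : Y ⊗ X ⟶ 𝟙_ C}
    (h : Y ◁ c ≫ (α_ _ _ _).inv ≫ b ▷ Y = (ρ_ Y).hom ≫ (λ_ Y).inv) {t s : K} (ht : t * s = 1) :
    Y ◁ (t • c) ≫ (α_ _ _ _).inv ≫ (s • b) ▷ Y = (ρ_ Y).hom ≫ (λ_ Y).inv := by
  rw [MonoidalLinear.whiskerLeft_smul, MonoidalLinear.smul_whiskerRight, Linear.smul_comp, Linear.comp_smul,
    Linear.comp_smul, smul_smul, ht, one_smul, h]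

private theorem TfD_z2 {X Y : C} {c : 𝟙_ C ⟶ X ⊗ Y} {b : Y ⊗ X ⟶ 𝟙_ C}
    (h : c ▷ X ≫ (α_ _ _ _).hom ≫ X ◁ b = (λ_ X).hom ≫ (ρ_ X).inv) {t s : K} (ht : t * s = 1) :
    (t • c) ▷ X ≫ (α_ _ _ _).hom ≫ X ◁ (s • b) = (λ_ X).hom ≫ (ρ_ X).inv := by
  rw [MonoidalLinear.whiskerLeft_smul, MonoidalLinear.smul_whiskerRight, Linear.smul_comp, Linear.comp_smul,
    Linear.comp_smul, smul_smul, ht, one_smul, h]

theorem LL_rigid (G : GalF K V n) (hn : IsU O (n : K)) (hL : OF O FN L) (he : EOk V L e)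
    {nn : ∀ i, FN.Fam O (V.obj (FC.S i))} (h : Nn V L e FC nn)
    (hsc : ∀ i j (u : FN.S j ⟶ V.obj (FC.S i)) (q : V.obj (FC.S i) ⟶ FN.S j), u ≫ q = 𝟙 _ →
      ∃ c : K, IsU O c ∧ av V (q ≫ u) = c • 𝟙 _) {i j : ι} (p : ExactPairing (FC.S i) (FC.S j)) :
    ∃ q : ExactPairing (FC.S i) (FC.S j), FC.u.hom ≫ q.coevaluation' ∈ LL G L nn i j FC.o ∧
      q.evaluation' ≫ FC.u.inv ∈ FC.dl (LL G L nn j i FC.o) := by
  obtain ⟨f, hf1, hf2⟩ := pair_V' G p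
  obtain ⟨m', hm', h1, h2⟩ := exists_dual hL f (h.stb i).lat
  have hst : Stb V L e m' := dual_stb G hL he p f hf2 (h.stb i) hm' h1 h2
  obtain ⟨s, hs, h3, h4⟩ := stb_unique G hL he (h.stb j) hst (hsc j)
  have h5 : Mp e (pr V L (nn i) (nn j)) (V.map (s⁻¹ • p.coevaluation')) := by
    refine mp_rec_cv G hn hL he (h.stb i) (h.stb j) ?_
    have h6 := mp_comp h1 (mp_wl (L := L) (nn i) h4)
    rw [hf1, MonoidalLinear.whiskerLeft_smul, MonoidalCategory.whiskerLeft_id, Linear.comp_smul, Category.comp_id] at h6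
    rw [G.map_smul, Linear.smul_comp, Linear.comp_smul]
    exact h6
  have h6 : Mp (pr V L (nn j) (nn i)) e (V.map (s • p.evaluation')) := by
    rw [pr, mp_push_iff]
    refine mp_rec_ev G hL he (h.stb i) ?_
    have h7 := mp_comp (mp_wr (L := L) (nn i) h3) h2
    rw [hf2, MonoidalLinear.smul_whiskerRight, MonoidalCategory.id_whiskerRight, Linear.smul_comp,
      Category.id_comp] at h7
    rw [G.map_smul, Linear.smul_comp, Linear.comp_smul]
    exact h7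
  refine ⟨⟨s⁻¹ • p.coevaluation', s • p.evaluation', TfD_z1 p.coevaluation_evaluation' (inv_mul_cancel₀ hs),
    TfD_z2 p.evaluation_coevaluation' (inv_mul_cancel₀ hs)⟩, ?_, ?_⟩
  · show Mp (nn FC.o) (pr V L (nn i) (nn j)) (V.map (FC.u.hom ≫ (s⁻¹ • p.coevaluation')))
    rw [V.map_comp]
    exact mp_comp h.u1 h5
  · intro g hg
    have hg' : Mp (nn FC.o) (pr V L (nn j) (nn i)) (V.map g) := hg
    obtain ⟨c, hc⟩ := FC.schur FC.o (g ≫ (s • p.evaluation') ≫ FC.u.inv)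
    refine ⟨c, ?_, hc⟩
    refine self_O (m := nn FC.o) ?_ (h.stb FC.o).lat ?_
    · rw [← V.map_id]
      exact V_ne G (FC.one_ne FC.o)
    · have h7 := mp_comp hg' (mp_comp h6 h.u2)
      rw [← V.map_comp, ← V.map_comp] at h7
      have h8 : V.map (g ≫ (s • p.evaluation') ≫ FC.u.inv) = c • 𝟙 _ := by
        rw [hc, G.map_smul, V.map_id]
      rw [← h8]
      exact h7

end Pool.Agent.SFC
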