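import Pool.Agent.NFG.LatC

/-!
# SFC/TlA: the intersection of a lattice with a subspace is a lattice

`lat_comap`: let `R = LinearMap.range T`, a `K`-subspace of `M'`, and `q : M' → M' ⧸ R`.  The image `Lb` of `L'` under `q` (`Submodule.map (q.restrictScalars O) L'`) is finitely
generated and spans over `K`, so it is a lattice (`lat_of_fg`): `Lb = span O (range b)` for a `K`-basis `b : Fin r`.  Choose `c a ∈ L'` with `q (c a) = b a`, and let
`P x = x - ∑ a, b.repr (q x) a • c a`, a `K`-linear map `M' → M'` with values in `R` (`q (P x) = 0`), `P x = x` for `x ∈ R`, and `P L' ⊆ L'` (the coordinates of an element of `Lb` are in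
`O`).  Composing with `T⁻¹ : R ≃ M` (`LinearEquiv.ofInjective`) we get a `K`-linear `Q : M' → M` with `T (Q x) = P x`, `Q (T y) = y`.  So `L = Q (L')` (as `y ∈ L` gives `y = Q (T y)`, and
`x ∈ L'` gives `T (Q x) = P x ∈ L'`), which is finitely generated and spans `M` over `K` (`Q` is surjective): `lat_of_fg`.
-/

set_option autoImplicit false

noncomputable section

open scoped BigOperators

namespace Pool.Agent.SFC

open Pool.Agent.NFG

universe w

variable {K : Type w} [Field K] {O : Subring K}

private theorem TlA_map {M M' : Type*} [AddCommGroup M] [Module K M] [AddCommGroup M'] [Module K M']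
    (q : M →ₗ[K] M') (hq : Function.Surjective q) {L : Submodule O M} (h : IsLat O L) :
    (Submodule.map (q.restrictScalars O) L).FG ∧
      Submodule.span K ((Submodule.map (q.restrictScalars O) L : Submodule O M') : Set M') = ⊤ := by
  refine ⟨h.fg.map _, ?_⟩
  have h1 : ((Submodule.map (q.restrictScalars O) L : Submodule O M') : Set M') = q '' (L : Set M) := rfl
  rw [h1, Submodule.span_image, h.span, Submodule.map_top, LinearMap.range_eq_top.2 hq]

private theorem TlA_coord {M : Type*} [AddCommGroup M] [Module K M] {n : ℕ} (b : Module.Basis (Fin n) K M) {y : M}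
    (hy : y ∈ Submodule.span O (Set.range b)) (i : Fin n) : b.repr y i ∈ O := by
  induction hy using Submodule.span_induction with
  | mem y hy =>
    obtain ⟨j, rfl⟩ := hy
    rw [b.repr_self, Finsupp.single_apply]
    split_ifs
    · exact O.one_mem
    · exact O.zero_mem
  | zero =>
    rw [map_zero]
    exact O.zero_mem
  | add y y' _ _ ih ih' =>
    rw [map_add, Finsupp.add_apply]
    exact O.add_mem ih ih'
  | smul c y _ ih =>
    have h1 : (c • y : M) = (c : K) • y := rfl
    rw [h1, map_smul, Finsupp.smul_apply, smul_eq_mul]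
    exact O.mul_mem c.2 ih

private theorem TlA_aux (hO : Val O) {M M' N : Type*} [AddCommGroup M] [Module K M] [AddCommGroup M'] [Module K M']
    [AddCommGroup N] [Module K N] (T : M →ₗ[K] M') (hT : Function.Injective T) (q : M' →ₗ[K] N)
    (hq : Function.Surjective q) (hqT : ∀ x, q x = 0 ↔ x ∈ LinearMap.range T) {L' : Submodule O M'}
    (h : IsLat O L') (L : Submodule O M) (hL : ∀ x, x ∈ L ↔ T x ∈ L') : IsLat O L := by
  obtain ⟨hf, hs⟩ := TlA_map q hq h
  obtain ⟨r, b, hb⟩ := lat_of_fg hO _ hf hs
  have hc : ∀ a, ∃ c ∈ L', q c = b a := by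
    intro a
    have h1 : b a ∈ Submodule.map (q.restrictScalars O) L' := by
      rw [hb]
      exact Submodule.subset_span ⟨a, rfl⟩
    obtain ⟨c, hc, hcb⟩ := h1
    exact ⟨c, hc, hcb⟩
  choose c hc hcb using hc
  let P : M' →ₗ[K] M' := LinearMap.id - ∑ a, (b.coord a ∘ₗ q).smulRight (c a)
  have hP : ∀ x, P x = x - ∑ a, b.repr (q x) a • c a := by
    intro x
    simp [P]
  have hqP : ∀ x, P x ∈ LinearMap.range T := by
    intro x
    rw [← hqT, hP, map_sub, map_sum]
    have h1 : ∑ a, q (b.repr (q x) a • c a) = q x := by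
      conv_rhs => rw [← b.sum_repr (q x)]
      exact Finset.sum_congr rfl fun a _ => by rw [map_smul, hcb]
    rw [h1, sub_self]
  have hPT : ∀ y, P (T y) = T y := by
    intro y
    rw [hP, (hqT (T y)).2 ⟨y, rfl⟩, map_zero]
    simp
  have hPL : ∀ x ∈ L', P x ∈ L' := by
    intro x hx
    rw [hP]
    refine L'.sub_mem hx (L'.sum_mem fun a _ => ?_)
    refine smul_mem_of (TlA_coord b ?_ a) (hc a)
    rw [← hb]
    exact ⟨x, hx, rfl⟩
  let e := LinearEquiv.ofInjective T hT
  let Q : M' →ₗ[K] M := e.symm.toLinearMap ∘ₗ P.codRestrict (LinearMap.range T) hqP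
  have hTQ : ∀ x, T (Q x) = P x := by
    intro x
    have h1 : e (e.symm (P.codRestrict (LinearMap.range T) hqP x)) = P.codRestrict (LinearMap.range T) hqP x :=
      e.apply_symm_apply _
    have h2 := congrArg Subtype.val h1
    exact h2
  have hQT : ∀ y, Q (T y) = y := by
    intro y
    apply hT
    rw [hTQ, hPT]
  have hQs : Function.Surjective Q := fun y => ⟨T y, hQT y⟩
  have hLQ : L = Submodule.map (Q.restrictScalars O) L' := by
    ext y
    rw [hL]
    constructor
    · intro hy
      exact ⟨T y, hy, hQT y⟩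
    · rintro ⟨x, hx, rfl⟩
      show T (Q x) ∈ L'
      rw [hTQ]
      exact hPL x hx
  obtain ⟨hf', hs'⟩ := TlA_map Q hQs h
  rw [hLQ]
  exact lat_of_fg hO _ hf' hs'

theorem lat_comap (hO : Val O) {M M' : Type*} [AddCommGroup M] [Module K M] [AddCommGroup M'] [Module K M']
    (T : M →ₗ[K] M') (hT : Function.Injective T) {L' : Submodule O M'} (h : IsLat O L') (L : Submodule O M)
    (hL : ∀ x, x ∈ L ↔ T x ∈ L') : IsLat O L := by
  refine TlA_aux hO T hT (LinearMap.range T).mkQ (Submodule.mkQ_surjective _) (fun x => ?_) h L hL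
  rw [Submodule.mkQ_apply, Submodule.Quotient.mk_eq_zero]

end Pool.Agent.SFC
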