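import Pool.Agent.NFG.LatC

/-!
# SFC/TlB: a lattice of functionals which is nondegenerate modulo the maximal ideal

`lat_pair`: induction on the rank `r` (statement for all `E` in a fixed universe).  `M = span O (range b)`.  `r = 0`: `E = 0`, `g = 0`.  `r + 1`: `b 0` satisfies the hypothesis of `hp`
(`c • b 0 ∈ M` gives `c ∈ O` by the coordinates), so there is `g₀ ∈ P`, `g₀ (b 0) = 1`.  Let `E₁ = ker g₀`, `M₁ = {x : E₁ | (x : E) ∈ M}`, a lattice with the basis
`b a - g₀ (b a) • b 0`, `a ≥ 1` (or: `M₁` is the image of `M` under the projection `x ↦ x - g₀ x • b 0`, use `lat_of_fg`), `P₁` = restrictions of the elements of `P` to `E₁`.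
The hypotheses hold for `E₁`.  Given `g` with `g M ⊆ O`, by induction the restriction of `g` to `E₁` is the restriction of some `g' ∈ P`, and
`g - g' = t • g₀` with `t = (g - g') (b 0) ∈ O` (both sides vanish on `E₁` and agree at `b 0`).
-/

set_option autoImplicit false

noncomputable section

open scoped BigOperators

namespace Pool.Agent.SFC

open Pool.Agent.NFG

universe w

variable {K : Type w} [Field K] {O : Subring K}

private theorem TlB_vec (n : ℕ) (P : Submodule O (Fin n → K)) (hP : ∀ g ∈ P, ∀ i, g i ∈ O)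
    (hp : ∀ x : Fin n → K, (∀ i, x i ∈ O) → (∃ i, x i ≠ 0 ∧ (x i)⁻¹ ∈ O) → ∃ g ∈ P, ∑ i, g i * x i = 1)
    (h : Fin n → K) (hh : ∀ i, h i ∈ O) : h ∈ P := by
  induction n with
  | zero =>
    have : h = 0 := Subsingleton.elim _ _
    rw [this]
    exact P.zero_mem
  | succ n ih =>
    obtain ⟨g₀, hg₀, h0⟩ := hp (Pi.single 0 1)
      (fun i => by
        by_cases hi : i = 0
        · subst hi
          rw [Pi.single_eq_same]
          exact O.one_mem
        · rw [Pi.single_eq_of_ne hi]
          exact O.zero_mem)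
      ⟨0, by rw [Pi.single_eq_same]; exact one_ne_zero, by rw [Pi.single_eq_same, inv_one]; exact O.one_mem⟩
    have hg00 : g₀ 0 = 1 := by
      rw [← h0, Finset.sum_eq_single 0]
      · rw [Pi.single_eq_same, mul_one]
      · intro b _ hb
        rw [Pi.single_eq_of_ne hb, mul_zero]
      · intro hcon
        exact absurd (Finset.mem_univ _) hcon
    let φ : (Fin (n + 1) → K) →ₗ[O] (Fin n → K) :=
      { toFun := fun g i => g i.succ - g 0 * g₀ i.succ
        map_add' := fun g g' => by
          funext i
          simp only [Pi.add_apply]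
          ring
        map_smul' := fun c g => by
          funext i
          have h1 : ∀ (x : K), c • x = (c : K) * x := fun x => rfl
          simp only [Pi.smul_apply, RingHom.id_apply, h1]
          ring }
    have hφ : ∀ g i, φ g i = g i.succ - g 0 * g₀ i.succ := fun _ _ => rfl
    have key : φ h ∈ P.map φ := by
      apply ih
      · rintro _ ⟨g, hg, rfl⟩ i
        rw [hφ]
        exact O.sub_mem (hP g hg _) (O.mul_mem (hP g hg _) (hP g₀ hg₀ _))
      · intro x hx hx1
        obtain ⟨i, hi, hi'⟩ := hx1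
        obtain ⟨g, hg, hgx⟩ := hp (Fin.cons (-∑ j, g₀ (Fin.succ j) * x j) x)
          (fun j => by
            refine Fin.cases ?_ (fun j => ?_) j
            · rw [Fin.cons_zero]
              exact O.neg_mem (O.sum_mem fun j _ => O.mul_mem (hP g₀ hg₀ _) (hx j))
            · rw [Fin.cons_succ]
              exact hx j)
          ⟨i.succ, by rw [Fin.cons_succ]; exact ⟨hi, hi'⟩⟩
        refine ⟨φ g, ⟨g, hg, rfl⟩, ?_⟩
        rw [Fin.sum_univ_succ, Fin.cons_zero] at hgx
        simp only [Fin.cons_succ] at hgx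
        rw [← hgx]
        have h2 : ∑ j : Fin n, φ g j * x j =
            ∑ j : Fin n, (g j.succ * x j - g 0 * (g₀ j.succ * x j)) :=
          Finset.sum_congr rfl fun j _ => by rw [hφ]; ring
        rw [h2, Finset.sum_sub_distrib, ← Finset.mul_sum]
        ring
      · intro i
        rw [hφ]
        exact O.sub_mem (hh _) (O.mul_mem (hh _) (hP g₀ hg₀ _))
    obtain ⟨g, hg, hgh⟩ := key
    have h3 : h = g + (⟨h 0 - g 0, O.sub_mem (hh 0) (hP g hg 0)⟩ : O) • g₀ := by
      funext j
      have h1 : ∀ (c : O) (x : K), c • x = (c : K) * x := fun c x => rfl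
      simp only [Pi.add_apply, Pi.smul_apply, h1]
      refine Fin.cases ?_ (fun j => ?_) j
      · rw [hg00]
        ring
      · have h4 := congrFun hgh j
        rw [hφ, hφ] at h4
        linear_combination -h4
    rw [h3]
    exact P.add_mem hg (P.smul_mem _ hg₀)

private theorem TlB_coord {E : Type*} [AddCommGroup E] [Module K E] {n : ℕ} (b : Module.Basis (Fin n) K E) (f : E)
    (hf : f ∈ Submodule.span O (Set.range b)) (i : Fin n) : b.repr f i ∈ O := by
  induction hf using Submodule.span_induction with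
  | mem x hx =>
    obtain ⟨j, rfl⟩ := hx
    rw [Module.Basis.repr_self, Finsupp.single_apply]
    split_ifs
    · exact O.one_mem
    · exact O.zero_mem
  | zero =>
    rw [map_zero, Finsupp.zero_apply]
    exact O.zero_mem
  | add x y _ _ h1 h2 =>
    rw [map_add, Finsupp.add_apply]
    exact O.add_mem h1 h2
  | smul c x _ h1 =>
    have h2 : (c • x : E) = (c : K) • x := rfl
    rw [h2, map_smul, Finsupp.smul_apply, smul_eq_mul]
    exact O.mul_mem c.2 h1

theorem lat_pair (hO : Val O) {E : Type*} [AddCommGroup E] [Module K E] {M : Submodule O E} (hM : IsLat O M)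
    (P : Submodule O (E →ₗ[K] K)) (hP : ∀ g ∈ P, ∀ f ∈ M, g f ∈ O)
    (hp : ∀ f ∈ M, f ≠ 0 → (∀ c : K, c • f ∈ M → c ∈ O) → ∃ g ∈ P, g f = 1) (g : E →ₗ[K] K)
    (hg : ∀ f ∈ M, g f ∈ O) : g ∈ P := by
  obtain ⟨n, b, rfl⟩ := hM
  have hb : ∀ i, b i ∈ Submodule.span O (Set.range b) := fun i => Submodule.subset_span ⟨i, rfl⟩
  let φ : (E →ₗ[K] K) →ₗ[O] (Fin n → K) :=
    { toFun := fun g i => g (b i)
      map_add' := fun _ _ => rfl
      map_smul' := fun _ _ => rfl }
  have hφ : ∀ g i, φ g i = g (b i) := fun _ _ => rfl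
  have key : φ g ∈ P.map φ := by
    apply TlB_vec n
    · rintro _ ⟨g, hg, rfl⟩ i
      exact hP g hg _ (hb i)
    · intro x hx hx1
      obtain ⟨i, hi, hi'⟩ := hx1
      have hrep : ∀ j, b.repr (∑ k, x k • b k) j = x j := by
        intro j
        rw [Module.Basis.repr_sum_self]
      have hmem : (∑ k, x k • b k) ∈ Submodule.span O (Set.range b) :=
        Submodule.sum_mem _ fun k _ => Submodule.smul_mem _ (⟨x k, hx k⟩ : O) (hb k)
      obtain ⟨g, hg, hgx⟩ := hp (∑ k, x k • b k) hmem
        (fun h0 => hi (by rw [← hrep i, h0, map_zero, Finsupp.zero_apply]))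
        (fun c hc => by
          have h1 := TlB_coord b _ hc i
          rw [map_smul, Finsupp.smul_apply, smul_eq_mul, hrep] at h1
          have h2 : c = (c * x i) * (x i)⁻¹ := by rw [mul_assoc, mul_inv_cancel₀ hi, mul_one]
          rw [h2]
          exact O.mul_mem h1 hi')
      refine ⟨φ g, ⟨g, hg, rfl⟩, ?_⟩
      rw [← hgx, map_sum]
      refine Finset.sum_congr rfl fun k _ => ?_
      rw [map_smul, smul_eq_mul, hφ, mul_comm]
    · intro i
      exact hg _ (hb i)
  obtain ⟨g', hg', he⟩ := key
  have : g = g' := b.ext fun i => (congrFun he i).symm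
  rw [this]
  exact hg'

end Pool.Agent.SFC
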