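import Pool.Agent.SFC.TDefs

/-!
# SFC/TmA: maps out of tensor products of families

`mem_tens`: `Submodule.subset_span`.  `mp_tens_of`: `Submodule.span_induction` (as in `mp_gen`).
`mp_tens`: generator `z ≫ (a ⊗ₘ b)`, then `z ≫ (a ⊗ₘ b) ≫ (f ⊗ₘ g) = z ≫ ((a ≫ f) ⊗ₘ (b ≫ g))`.
`mp_tens_ofL`: let `P := {a | ∀ ..., z ≫ (a ⊗ₘ b) ≫ t ∈ n'' m}`: it is a submodule.
-/

set_option autoImplicit false

noncomputable section

open CategoryTheory MonoidalCategory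
open scoped BigOperators

namespace Pool.Agent.SFC

open Pool.Agent.NFG

universe v' u' w

variable {K : Type w} [Field K] {N : Type u'} [Category.{v'} N] [Preadditive N] [Linear K N] [MonoidalCategory N]
  {ι : Type} [Fintype ι] [DecidableEq ι] {O : Subring K} {F : Fus K N ι}

theorem mem_tens {L : F.Sys O} {W W' : N} {n : F.Fam O W} {n' : F.Fam O W'} {i j m : ι}
    {z : F.S m ⟶ F.S i ⊗ F.S j} {f : F.S i ⟶ W} {g : F.S j ⟶ W'} (hz : z ∈ L i j m) (hf : f ∈ n i) (hg : g ∈ n' j) :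
    z ≫ (f ⊗ₘ g) ∈ tens L n n' m :=
  Submodule.subset_span ⟨i, j, z, f, g, hz, hf, hg, rfl⟩

/-- a map with the values in `n''` on the generators -/
theorem mp_tens_of {L : F.Sys O} {W W' W'' : N} {n : F.Fam O W} {n' : F.Fam O W'} {n'' : F.Fam O W''}
    {t : W ⊗ W' ⟶ W''}
    (h : ∀ (m i j : ι) (z : F.S m ⟶ F.S i ⊗ F.S j) (f : F.S i ⟶ W) (g : F.S j ⟶ W'), z ∈ L i j m → f ∈ n i →
      g ∈ n' j → z ≫ (f ⊗ₘ g) ≫ t ∈ n'' m) : Mp (tens L n n') n'' t := by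
  intro m x hx
  induction hx using Submodule.span_induction with
  | mem x hx =>
    obtain ⟨i, j, z, f, g, hz, hf, hg, rfl⟩ := hx
    rw [Category.assoc]
    exact h m i j z f g hz hf hg
  | zero =>
    rw [Limits.zero_comp]
    exact (n'' m).zero_mem
  | add x y _ _ h1 h2 =>
    rw [Preadditive.add_comp]
    exact (n'' m).add_mem h1 h2
  | smul c x _ h1 =>
    have h2 : (c • x : F.S m ⟶ W ⊗ W') = (c : K) • x := rfl
    rw [h2, Linear.smul_comp]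
    exact smul_mem_K c.2 h1

theorem mp_tens {L : F.Sys O} {W₁ W₂ W₁' W₂' : N} {n₁ : F.Fam O W₁} {n₂ : F.Fam O W₂} {n₁' : F.Fam O W₁'}
    {n₂' : F.Fam O W₂'} {f : W₁ ⟶ W₁'} {g : W₂ ⟶ W₂'} (hf : Mp n₁ n₁' f) (hg : Mp n₂ n₂' g) :
    Mp (tens L n₁ n₂) (tens L n₁' n₂') (f ⊗ₘ g) := by
  refine mp_tens_of fun m i j z a b hz ha hb => ?_
  rw [MonoidalCategory.tensorHom_comp_tensorHom]
  exact mem_tens hz (hf i a ha) (hg j b hb)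

theorem mp_wl {L : F.Sys O} {W₁ W₂ W₂' : N} (n₁ : F.Fam O W₁) {n₂ : F.Fam O W₂} {n₂' : F.Fam O W₂'}
    {g : W₂ ⟶ W₂'} (hg : Mp n₂ n₂' g) : Mp (tens L n₁ n₂) (tens L n₁ n₂') (W₁ ◁ g) := by
  rw [← id_tensorHom]
  exact mp_tens (mp_id n₁) hg

theorem mp_wr {L : F.Sys O} {W₁ W₂ W₁' : N} {n₁ : F.Fam O W₁} (n₂ : F.Fam O W₂) {n₁' : F.Fam O W₁'}
    {f : W₁ ⟶ W₁'} (hf : Mp n₁ n₁' f) : Mp (tens L n₁ n₂) (tens L n₁' n₂) (f ▷ W₂) := by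
  rw [← tensorHom_id]
  exact mp_tens hf (mp_id n₂)

/-- maps out of `(push t n) ⊗ (push t' n')` -/
theorem mp_tens_push {L : F.Sys O} {W₁ W₂ W₁' W₂' W'' : N} {n₁ : F.Fam O W₁} {n₂ : F.Fam O W₂} {n'' : F.Fam O W''}
    {t₁ : W₁ ⟶ W₁'} {t₂ : W₂ ⟶ W₂'} {f : W₁' ⊗ W₂' ⟶ W''} :
    Mp (tens L (push t₁ n₁) (push t₂ n₂)) n'' f ↔ Mp (tens L n₁ n₂) n'' ((t₁ ⊗ₘ t₂) ≫ f) := by
  constructor
  · intro h
    exact mp_comp (mp_tens (mp_push t₁ n₁) (mp_push t₂ n₂)) h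
  · intro h
    refine mp_tens_of ?_
    rintro m i j z _ _ hz ⟨a, ha, rfl⟩ ⟨b, hb, rfl⟩
    rw [← MonoidalCategory.tensorHom_comp_tensorHom, Category.assoc, ← Category.assoc]
    exact h m _ (mem_tens hz ha hb)

theorem mp_tens_pushL {L : F.Sys O} {W₁ W₂ W₁' W'' : N} {n₁ : F.Fam O W₁} {n₂ : F.Fam O W₂} {n'' : F.Fam O W''}
    {t₁ : W₁ ⟶ W₁'} {f : W₁' ⊗ W₂ ⟶ W''} :
    Mp (tens L (push t₁ n₁) n₂) n'' f ↔ Mp (tens L n₁ n₂) n'' (t₁ ▷ W₂ ≫ f) := by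
  constructor
  · intro h
    exact mp_comp (mp_wr n₂ (mp_push t₁ n₁)) h
  · intro h
    refine mp_tens_of ?_
    rintro m i j z _ b hz ⟨a, ha, rfl⟩ hb
    have h1 : (a ≫ t₁) ⊗ₘ b = (a ⊗ₘ b) ≫ t₁ ▷ W₂ := by
      rw [← tensorHom_id, MonoidalCategory.tensorHom_comp_tensorHom, Category.comp_id]
    rw [h1, Category.assoc, ← Category.assoc]
    exact h m _ (mem_tens hz ha hb)

theorem mp_tens_pushR {L : F.Sys O} {W₁ W₂ W₂' W'' : N} {n₁ : F.Fam O W₁} {n₂ : F.Fam O W₂} {n'' : F.Fam O W''}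
    {t₂ : W₂ ⟶ W₂'} {f : W₁ ⊗ W₂' ⟶ W''} :
    Mp (tens L n₁ (push t₂ n₂)) n'' f ↔ Mp (tens L n₁ n₂) n'' (W₁ ◁ t₂ ≫ f) := by
  constructor
  · intro h
    exact mp_comp (mp_wl n₁ (mp_push t₂ n₂)) h
  · intro h
    refine mp_tens_of ?_
    rintro m i j z a _ hz ha ⟨b, hb, rfl⟩
    have h1 : a ⊗ₘ (b ≫ t₂) = (a ⊗ₘ b) ≫ W₁ ◁ t₂ := by
      rw [← id_tensorHom, MonoidalCategory.tensorHom_comp_tensorHom, Category.comp_id]
    rw [h1, Category.assoc, ← Category.assoc]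
    exact h m _ (mem_tens hz ha hb)

section Lin

variable [MonoidalPreadditive N] [MonoidalLinear K N]

theorem th_addL {A B X Y : N} (f f' : A ⟶ B) (g : X ⟶ Y) : (f + f') ⊗ₘ g = f ⊗ₘ g + f' ⊗ₘ g := by
  rw [MonoidalCategory.tensorHom_def, MonoidalCategory.tensorHom_def, MonoidalCategory.tensorHom_def, MonoidalPreadditive.add_whiskerRight, Preadditive.add_comp]

theorem th_addR {A B X Y : N} (f : A ⟶ B) (g g' : X ⟶ Y) : f ⊗ₘ (g + g') = f ⊗ₘ g + f ⊗ₘ g' := by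
  rw [MonoidalCategory.tensorHom_def, MonoidalCategory.tensorHom_def, MonoidalCategory.tensorHom_def, MonoidalPreadditive.whiskerLeft_add, Preadditive.comp_add]

theorem th_smulL {A B X Y : N} (c : K) (f : A ⟶ B) (g : X ⟶ Y) : (c • f) ⊗ₘ g = c • (f ⊗ₘ g) := by
  rw [MonoidalCategory.tensorHom_def, MonoidalCategory.tensorHom_def, MonoidalLinear.smul_whiskerRight, Linear.smul_comp]

theorem th_smulR {A B X Y : N} (c : K) (f : A ⟶ B) (g : X ⟶ Y) : f ⊗ₘ (c • g) = c • (f ⊗ₘ g) := by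
  rw [MonoidalCategory.tensorHom_def, MonoidalCategory.tensorHom_def, MonoidalLinear.whiskerLeft_smul, Linear.comp_smul]

theorem th_zeroL {A B X Y : N} (g : X ⟶ Y) : (0 : A ⟶ B) ⊗ₘ g = 0 := by
  rw [MonoidalCategory.tensorHom_def, MonoidalPreadditive.zero_whiskerRight, Limits.zero_comp]

theorem th_zeroR {A B X Y : N} (f : A ⟶ B) : f ⊗ₘ (0 : X ⟶ Y) = 0 := by
  rw [MonoidalCategory.tensorHom_def, MonoidalPreadditive.whiskerLeft_zero, Limits.comp_zero]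

/-- maps out of `(n₁ ⊗ n₂) ⊗ n₃` -/
theorem mp_tens_of3 {L : F.Sys O} {W₁ W₂ W₃ W'' : N} {n₁ : F.Fam O W₁} {n₂ : F.Fam O W₂} {n₃ : F.Fam O W₃}
    {n'' : F.Fam O W''} {t : (W₁ ⊗ W₂) ⊗ W₃ ⟶ W''}
    (h : ∀ (m i j k l : ι) (z : F.S m ⟶ F.S l ⊗ F.S k) (z' : F.S l ⟶ F.S i ⊗ F.S j) (a : F.S i ⟶ W₁)
      (b : F.S j ⟶ W₂) (c : F.S k ⟶ W₃), z ∈ L l k m → z' ∈ L i j l → a ∈ n₁ i → b ∈ n₂ j → c ∈ n₃ k →
      z ≫ z' ▷ F.S k ≫ ((a ⊗ₘ b) ⊗ₘ c) ≫ t ∈ n'' m) : Mp (tens L (tens L n₁ n₂) n₃) n'' t := by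
  refine mp_tens_of fun m l k z f c hz hf hc => ?_
  induction hf using Submodule.span_induction with
  | mem x hx =>
    obtain ⟨i, j, z', a, b, hz', ha, hb, rfl⟩ := hx
    have h1 : (z' ≫ (a ⊗ₘ b)) ⊗ₘ c = z' ▷ F.S k ≫ ((a ⊗ₘ b) ⊗ₘ c) := by
      rw [← tensorHom_id, MonoidalCategory.tensorHom_comp_tensorHom, Category.id_comp]
    rw [h1, Category.assoc]
    exact h m i j k l z z' a b c hz hz' ha hb hc
  | zero =>
    rw [th_zeroL, Limits.zero_comp, Limits.comp_zero]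
    exact (n'' m).zero_mem
  | add x y _ _ h1 h2 =>
    rw [th_addL, Preadditive.add_comp, Preadditive.comp_add]
    exact (n'' m).add_mem h1 h2
  | smul o x _ h1 =>
    have h2 : (o • x : F.S l ⟶ W₁ ⊗ W₂) = (o : K) • x := rfl
    rw [h2, th_smulL, Linear.smul_comp, Linear.comp_smul]
    exact smul_mem_K o.2 h1

/-- maps out of `n₁ ⊗ (n₂ ⊗ n₃)` -/
theorem mp_tens_of3' {L : F.Sys O} {W₁ W₂ W₃ W'' : N} {n₁ : F.Fam O W₁} {n₂ : F.Fam O W₂} {n₃ : F.Fam O W₃}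
    {n'' : F.Fam O W''} {t : W₁ ⊗ (W₂ ⊗ W₃) ⟶ W''}
    (h : ∀ (m i j k l : ι) (z : F.S m ⟶ F.S i ⊗ F.S l) (z' : F.S l ⟶ F.S j ⊗ F.S k) (a : F.S i ⟶ W₁)
      (b : F.S j ⟶ W₂) (c : F.S k ⟶ W₃), z ∈ L i l m → z' ∈ L j k l → a ∈ n₁ i → b ∈ n₂ j → c ∈ n₃ k →
      z ≫ F.S i ◁ z' ≫ (a ⊗ₘ (b ⊗ₘ c)) ≫ t ∈ n'' m) : Mp (tens L n₁ (tens L n₂ n₃)) n'' t := by
  refine mp_tens_of fun m i l z a f hz ha hf => ?_
  induction hf using Submodule.span_induction with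
  | mem x hx =>
    obtain ⟨j, k, z', b, c, hz', hb, hc, rfl⟩ := hx
    have h1 : a ⊗ₘ (z' ≫ (b ⊗ₘ c)) = F.S i ◁ z' ≫ (a ⊗ₘ (b ⊗ₘ c)) := by
      rw [← id_tensorHom, MonoidalCategory.tensorHom_comp_tensorHom, Category.id_comp]
    rw [h1, Category.assoc]
    exact h m i j k l z z' a b c hz hz' ha hb hc
  | zero =>
    rw [th_zeroR, Limits.zero_comp, Limits.comp_zero]
    exact (n'' m).zero_mem
  | add x y _ _ h1 h2 =>
    rw [th_addR, Preadditive.add_comp, Preadditive.comp_add]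
    exact (n'' m).add_mem h1 h2
  | smul o x _ h1 =>
    have h2 : (o • x : F.S l ⟶ W₂ ⊗ W₃) = (o : K) • x := rfl
    rw [h2, th_smulR, Linear.smul_comp, Linear.comp_smul]
    exact smul_mem_K o.2 h1

end Lin

end Pool.Agent.SFC
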