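import Pool.Agent.SFC.TsAH
import Pool.Agent.SFC.TlA

/-!
# SFC/TrAH (general finite group): the lattices `vS`; primitive maps split

`vS G m m' = {f : x ⟶ y | Mp m m' (V f)}`.  `vS_lat`: `lat_comap` for the injective `K`-linear map `f ↦ V f` (`G.faithful`) and `mpS_lat`.
`self_O`: `𝟙 W ≠ 0`: `exists_ne_zero`, `exists_pair`: `f ∈ m j`, `g ∈ dl (m j)`, `f ≫ g = 𝟙`; `f ≫ (c • 𝟙) ≫ g = c • 𝟙` is in `O • 𝟙`, `smul_one_inj`.
`key`: `prim` for `T = V f` (`V f ≠ 0` since `V` is faithful, `c • V f = V (c • f)`): `u ∈ m j`, `h ∈ dl (m' j)`, `(u ≫ V f) ≫ h = 𝟙`.  `Mp m' m (h ≫ u)` (`mp_dl`), so `Mp m' m (av V (h ≫ u))` (`stb_av`) and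
`av V (h ≫ u) = V g'` (`G.avg`).  `V f ≫ V g' = av V ((V f ≫ h) ≫ u) = c • 𝟙`, `c` a unit (`av_pre`, `hsc j u (V f ≫ h)`), so `f ≫ g' = c • 𝟙`; `g = c⁻¹ • g'`.
-/

set_option autoImplicit false

noncomputable section

open CategoryTheory MonoidalCategory
open Functor.LaxMonoidal Functor.OplaxMonoidal
open scoped BigOperators

namespace Pool.Agent.SFC.G

open Pool.Agent.NFG

universe v u v' u' w

variable {K : Type w} [Field K] {C : Type u} [Category.{v} C] [Preadditive C] [Linear K C] [MonoidalCategory C]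
  [MonoidalPreadditive C] [MonoidalLinear K C] {N : Type u'} [Category.{v'} N] [Preadditive N] [Linear K N]
  [MonoidalCategory N] [MonoidalPreadditive N] [MonoidalLinear K N] {V : C ⥤ N} [V.LaxMonoidal] [V.OplaxMonoidal]
  {Γ : Type} [AddGroup Γ] [Fintype Γ] {ι' : Type} [Fintype ι'] [DecidableEq ι'] {O : Subring K} {FN : Fus K N ι'} {L : FN.Sys O}
  {e : FN.Fam O (V.obj (𝟙_ C))}

/-- the lattice of the maps of `C` which map `m` to `m'` -/
def vS (G : GalFH K V Γ) {x y : C} (m : FN.Fam O (V.obj x)) (m' : FN.Fam O (V.obj y)) : Submodule O (x ⟶ y) where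
  carrier := {f | Mp m m' (V.map f)}
  add_mem' := fun {f g} hf hg => by
    show Mp m m' (V.map (f + g))
    rw [G.map_add]
    exact mp_add hf hg
  zero_mem' := by
    show Mp m m' (V.map 0)
    have h : V.map (0 : x ⟶ y) = 0 := by
      have h1 := G.map_smul (0 : K) (0 : x ⟶ y)
      rwa [zero_smul, zero_smul] at h1
    rw [h]
    exact mp_zero
  smul_mem' := fun c f hf => by
    show Mp m m' (V.map ((c : K) • f))
    rw [G.map_smul]
    exact mp_smul c.2 hf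

theorem mem_vS {G : GalFH K V Γ} {x y : C} {m : FN.Fam O (V.obj x)} {m' : FN.Fam O (V.obj y)} {f : x ⟶ y} :
    f ∈ vS G m m' ↔ Mp m m' (V.map f) := Iff.rfl

theorem vS_lat (G : GalFH K V Γ) (hO : Val O) {x y : C} {m : FN.Fam O (V.obj x)} {m' : FN.Fam O (V.obj y)}
    (hm : LF m) (hm' : LF m') : IsLat O (vS G m m') := by
  let T : (x ⟶ y) →ₗ[K] (V.obj x ⟶ V.obj y) :=
    { toFun := fun f => V.map f
      map_add' := fun f g => G.map_add f g
      map_smul' := fun c f => G.map_smul c f }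
  have hT : Function.Injective T := fun f g h => by
    haveI := G.faithful
    exact V.map_injective h
  exact lat_comap hO T hT (mpS_lat hO hm hm') (vS G m m') (fun f => Iff.rfl)

theorem V_ne (G : GalFH K V Γ) {x y : C} {f : x ⟶ y} (hf : f ≠ 0) : V.map f ≠ 0 := by
  intro h
  apply hf
  have h0 : V.map (0 : x ⟶ y) = 0 := by
    have h1 := G.map_smul (0 : K) (0 : x ⟶ y)
    rwa [zero_smul, zero_smul] at h1
  haveI := G.faithful
  exact V.map_injective (by rw [h, h0])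

theorem self_O {W : N} (hW : 𝟙 W ≠ 0) {m : FN.Fam O W} (hm : LF m) {c : K} (h : Mp m m (c • 𝟙 W)) : c ∈ O := by
  obtain ⟨j, f₀, hf₀⟩ := exists_ne_zero FN hW
  obtain ⟨f, hf, g, hg, hfg⟩ := exists_pair FN (hm j) ⟨f₀, hf₀⟩
  obtain ⟨c', hc', h1⟩ := hg _ (h j f hf)
  rw [Linear.comp_smul, Category.comp_id, Linear.smul_comp, hfg] at h1
  rw [smul_one_inj FN h1]
  exact hc'

theorem key (G : GalFH K V Γ) (hL : OF O FN L) (he : EOk V L e) {x y : C} {m : FN.Fam O (V.obj x)}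
    {m' : FN.Fam O (V.obj y)} (hm : Stb V L e m) (hm' : Stb V L e m')
    (hsc : ∀ j (u : FN.S j ⟶ V.obj x) (q : V.obj x ⟶ FN.S j), u ≫ q = 𝟙 _ →
      ∃ c : K, IsU O c ∧ av V (q ≫ u) = c • 𝟙 _)
    {f : x ⟶ y} (hf : f ≠ 0) (hf' : ∀ c : K, Mp m m' (V.map (c • f)) → c ∈ O) :
    ∃ g : y ⟶ x, Mp m' m (V.map g) ∧ f ≫ g = 𝟙 x := by
  obtain ⟨j, u, hu, h, hh, huh⟩ := prim hL.val hm.lat hm'.lat (V_ne G hf)
    (fun c hc => hf' c (by rw [G.map_smul]; exact hc))
  obtain ⟨c, hc, h1⟩ := hsc j u (V.map f ≫ h) (by rw [← Category.assoc]; exact huh)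
  obtain ⟨g', hg'⟩ := G.avg (h ≫ u)
  have h2 : Mp m' m (V.map g') := by
    rw [← hg']
    exact stb_av G hL he hm' hm (mp_dl hh hu)
  have h3 : V.map (f ≫ g') = V.map (c • 𝟙 x) := by
    rw [V.map_comp, ← hg', ← av_pre, ← Category.assoc, h1, G.map_smul, V.map_id]
  have h4 : f ≫ g' = c • 𝟙 x := by
    haveI := G.faithful
    exact V.map_injective h3
  refine ⟨c⁻¹ • g', ?_, ?_⟩
  · rw [G.map_smul]
    exact mp_smul hc.2.2 h2
  · rw [Linear.comp_smul, h4, smul_smul, inv_mul_cancel₀ hc.1, one_smul]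

end Pool.Agent.SFC.G
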