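import Pool.Agent.SFC.TrA
import Pool.Agent.SFC.TlB

/-!
# SFC/TrB: complete reducibility over `O`

`dl_mp`: `lat_pair` for `E = Hom (S i, y)`, `M = vS G (nn i) m`, `P = {φ | ∃ g : y ⟶ S i, Mp m (nn i) (V g) ∧ ∀ f, f ≫ g = φ f • 𝟙}` (a submodule).  `hP`: `f ≫ g = φ f • 𝟙` and `V (f ≫ g)` maps `nn i` to
`nn i`: `self_O`.  `hp`: `key`.  For `g ∈ dl` the functional `φ` with `f ≫ g = φ f • 𝟙` (`schur`, `smul_one_inj`; linear) is in `P`: there is `g'` with `f ≫ g' = f ≫ g` for all `f : S i ⟶ y`, so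
`g' = g` (`ext_left`; for `m ≠ i` both are `0` by `comp_zero'`).
`red`: `latdec` of `FC` for the family `i ↦ vS G (nn i) m` (`vS_lat`), `dl_mp`.
`stb_unique`: `End (S i) = K • 𝟙`, `vS G (nn i) m = span O {t • 𝟙}` (`lat_rank_one`), `f = t • 𝟙` satisfies the hypotheses of `key`; `g = t⁻¹ • 𝟙`.
-/

set_option autoImplicit false

noncomputable section

open CategoryTheory MonoidalCategory
open Functor.LaxMonoidal Functor.OplaxMonoidal
open scoped BigOperators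

namespace Pool.Agent.SFC

open Pool.Agent.NFG

universe v u v' u' w

variable {K : Type w} [Field K] {C : Type u} [Category.{v} C] [Preadditive C] [Linear K C] [MonoidalCategory C]
  [MonoidalPreadditive C] [MonoidalLinear K C] {N : Type u'} [Category.{v'} N] [Preadditive N] [Linear K N]
  [MonoidalCategory N] [MonoidalPreadditive N] [MonoidalLinear K N] {V : C ⥤ N} [V.LaxMonoidal] [V.OplaxMonoidal]
  {n : ℕ} [NeZero n] {ι' : Type} [Fintype ι'] [DecidableEq ι'] {O : Subring K} {FN : Fus K N ι'} {L : FN.Sys O}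
  {e : FN.Fam O (V.obj (𝟙_ C))} {ι : Type} [Fintype ι] [DecidableEq ι] {FC : Fus K C ι}

private theorem TrB_fn (FC : Fus K C ι) {i : ι} {y : C} (g : y ⟶ FC.S i) :
    ∃ φ : (FC.S i ⟶ y) →ₗ[K] K, ∀ f, f ≫ g = φ f • 𝟙 (FC.S i) := by
  choose φ hφ using fun f : FC.S i ⟶ y => FC.schur i (f ≫ g)
  refine ⟨{ toFun := φ, map_add' := fun f f' => ?_, map_smul' := fun c f => ?_ }, hφ⟩
  · apply smul_one_inj FC (m := i)
    rw [← hφ, Preadditive.add_comp, hφ f, hφ f', add_smul]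
  · apply smul_one_inj FC (m := i)
    rw [← hφ, Linear.smul_comp, hφ f, smul_smul]
    rfl

theorem dl_mp (G : GalF K V n) (hL : OF O FN L) (he : EOk V L e) {i : ι} {y : C} {m₀ : FN.Fam O (V.obj (FC.S i))}
    {m : FN.Fam O (V.obj y)} (hm₀ : Stb V L e m₀) (hm : Stb V L e m)
    (hsc : ∀ j (u : FN.S j ⟶ V.obj (FC.S i)) (q : V.obj (FC.S i) ⟶ FN.S j), u ≫ q = 𝟙 _ →
      ∃ c : K, IsU O c ∧ av V (q ≫ u) = c • 𝟙 _)
    {g : y ⟶ FC.S i} (hg : g ∈ FC.dl (vS G m₀ m)) : Mp m m₀ (V.map g) := by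
  have hne : 𝟙 (V.obj (FC.S i)) ≠ 0 := by
    rw [← V.map_id]
    exact V_ne G (FC.one_ne i)
  let P : Submodule O ((FC.S i ⟶ y) →ₗ[K] K) :=
    { carrier := {φ | ∃ g : y ⟶ FC.S i, Mp m m₀ (V.map g) ∧ ∀ f, f ≫ g = φ f • 𝟙 (FC.S i)}
      add_mem' := by
        rintro φ ψ ⟨g, hg, h⟩ ⟨g', hg', h'⟩
        refine ⟨g + g', ?_, fun f => ?_⟩
        · rw [G.map_add]
          exact mp_add hg hg'
        · rw [Preadditive.comp_add, h, h', ← add_smul]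
          rfl
      zero_mem' := ⟨0, (vS G m m₀).zero_mem, fun f => by
        rw [Limits.comp_zero, LinearMap.zero_apply, zero_smul]⟩
      smul_mem' := by
        rintro c φ ⟨g, hg, h⟩
        refine ⟨(c : K) • g, ?_, fun f => ?_⟩
        · rw [G.map_smul]
          exact mp_smul c.2 hg
        · rw [Linear.comp_smul, h, smul_smul]
          rfl }
  have hP : ∀ φ, φ ∈ P ↔ ∃ g : y ⟶ FC.S i, Mp m m₀ (V.map g) ∧ ∀ f, f ≫ g = φ f • 𝟙 (FC.S i) :=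
    fun _ => Iff.rfl
  obtain ⟨φ, hφ⟩ := TrB_fn FC g
  have key1 : φ ∈ P := by
    refine lat_pair hL.val (vS_lat G hL.val hm₀.lat hm.lat) P ?_ ?_ φ ?_
    · intro ψ hψ f hf
      obtain ⟨g', hg', h⟩ := (hP ψ).1 hψ
      refine self_O hne hm₀.lat (c := ψ f) ?_
      have h1 : Mp m₀ m₀ (V.map (f ≫ g')) := by
        rw [V.map_comp]
        exact mp_comp (mem_vS.1 hf) hg'
      rw [h, G.map_smul, V.map_id] at h1
      exact h1
    · intro f hf hf0 hfc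
      obtain ⟨g', hg', h⟩ := key G hL he hm₀ hm hsc hf0 (fun c hc => hfc c hc)
      obtain ⟨ψ, hψ⟩ := TrB_fn FC g'
      refine ⟨ψ, (hP ψ).2 ⟨g', hg', hψ⟩, ?_⟩
      apply smul_one_inj FC (m := i)
      rw [← hψ, h, one_smul]
    · intro f hf
      obtain ⟨c, hc, h⟩ := hg f hf
      rw [hφ] at h
      rw [smul_one_inj FC h]
      exact hc
  obtain ⟨g', hg', h⟩ := (hP φ).1 key1
  have h2 : g = g' := by
    refine ext_left FC fun j f => ?_
    by_cases hj : j = i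
    · subst hj
      rw [h, hφ]
    · rw [comp_zero' FC hj, comp_zero' FC hj]
  rw [h2]
  exact hg'

theorem red (G : GalF K V n) (hL : OF O FN L) (he : EOk V L e) {nn : ∀ i, FN.Fam O (V.obj (FC.S i))}
    (hnn : ∀ i, Stb V L e (nn i))
    (hsc : ∀ i j (u : FN.S j ⟶ V.obj (FC.S i)) (q : V.obj (FC.S i) ⟶ FN.S j), u ≫ q = 𝟙 _ →
      ∃ c : K, IsU O c ∧ av V (q ≫ u) = c • 𝟙 _)
    {y : C} {m : FN.Fam O (V.obj y)} (hm : Stb V L e m) :
    ∃ (M : ι → ℕ) (b : ∀ i, Fin (M i) → (FC.S i ⟶ y)) (g : ∀ i, Fin (M i) → (y ⟶ FC.S i)),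
      (∀ i a, Mp (nn i) m (V.map (b i a))) ∧ (∀ i a, Mp m (nn i) (V.map (g i a))) ∧
      ∑ i, ∑ a, g i a ≫ b i a = 𝟙 y := by
  obtain ⟨M, b, g, hb, hg, -, hs⟩ := latdec FC (fun i => vS G (nn i) m)
    (fun i => vS_lat G hL.val (hnn i).lat hm.lat)
  exact ⟨M, b, g, fun i a => mem_vS.1 (hb i a),
    fun i a => dl_mp G hL he (hnn i) hm (hsc i) (hg i a), hs⟩

theorem stb_unique (G : GalF K V n) (hL : OF O FN L) (he : EOk V L e) {i : ι} {m₀ m : FN.Fam O (V.obj (FC.S i))}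
    (hm₀ : Stb V L e m₀) (hm : Stb V L e m)
    (hsc : ∀ j (u : FN.S j ⟶ V.obj (FC.S i)) (q : V.obj (FC.S i) ⟶ FN.S j), u ≫ q = 𝟙 _ →
      ∃ c : K, IsU O c ∧ av V (q ≫ u) = c • 𝟙 _) :
    ∃ s : K, s ≠ 0 ∧ Mp m₀ m (s • 𝟙 _) ∧ Mp m m₀ (s⁻¹ • 𝟙 _) := by
  obtain ⟨t, ht, hspan⟩ := lat_rank_one (vS_lat G hL.val hm₀.lat hm.lat) (FC.one_ne i)
    (fun x => FC.schur i x)
  have hf : t • 𝟙 (FC.S i) ∈ vS G m₀ m := by
    rw [hspan]
    exact Submodule.mem_span_singleton_self _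
  have hf0 : t • 𝟙 (FC.S i) ≠ 0 := smul_ne_zero ht (FC.one_ne i)
  obtain ⟨g, hg, h⟩ := key G hL he hm₀ hm hsc hf0 (fun c hc => by
    have h1 : c • (t • 𝟙 (FC.S i)) ∈ vS G m₀ m := hc
    rw [hspan, Submodule.mem_span_singleton] at h1
    obtain ⟨o, ho⟩ := h1
    have h2 : ((o : K) * t) • 𝟙 (FC.S i) = (c * t) • 𝟙 (FC.S i) := by
      rw [mul_smul, mul_smul]
      exact ho
    have h3 := mul_right_cancel₀ ht (smul_one_inj FC h2)
    rw [← h3]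
    exact o.2)
  have hg1 : g = t⁻¹ • 𝟙 (FC.S i) := by
    rw [Linear.smul_comp, Category.id_comp] at h
    rw [← h, smul_smul, inv_mul_cancel₀ ht, one_smul]
  refine ⟨t, ht, ?_, ?_⟩
  · have h1 := mem_vS.1 hf
    rw [G.map_smul, V.map_id] at h1
    exact h1
  · rw [hg1, G.map_smul, V.map_id] at hg
    exact hg

end Pool.Agent.SFC
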