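import Pool.Agent.SFC.TfBH
import Pool.Agent.SFC.TfDH
import Pool.Agent.SFC.TeDH
import Pool.Agent.NFG.StmA

/-!
# SFC/TraH (general finite group): the transfer theorem
-/

set_option autoImplicit false

noncomputable section

open CategoryTheory MonoidalCategory
open Functor.LaxMonoidal Functor.OplaxMonoidal
open scoped BigOperators

namespace Pool.Agent.SFC.G

open Pool.Agent.NFG

universe v u v' u' w

theorem of_form {K : Type w} [Field K] {N : Type u'} [Category.{v'} N] [Preadditive N] [Linear K N]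
    [MonoidalCategory N] [MonoidalPreadditive N] [MonoidalLinear K N] {ι : Type} [Fintype ι] [DecidableEq ι]
    {O : Subring K} {F : Fus K N ι} (hO : Val O) {L : F.Sy} (h : F.IsForm O L) : ∃ L' : F.Sys O, OF O F L' := by
  obtain ⟨hl, hu, ha, hr, -⟩ := h
  have h0 : ∀ i j k, ∃ L' : Submodule O (F.S k ⟶ F.S i ⊗ F.S j), (L' : Set _) = L i j k ∧ IsLat O L' :=
    fun i j k => isLt_sub (hl i j k)
  choose L' h1 h2 using h0
  have hL : L = fun i j k => (L' i j k : Set (F.S k ⟶ F.S i ⊗ F.S j)) := by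
    funext i j k
    exact (h1 i j k).symm
  refine ⟨L', ⟨hO, h2, fun v => ?_, fun v => ?_, fun i j v => ?_, fun i => ?_⟩⟩
  · apply SetLike.coe_injective
    rw [h1, span_one]
    exact (hu v).1
  · apply SetLike.coe_injective
    rw [h1, span_one]
    exact (hu v).2
  · funext m
    apply SetLike.coe_injective
    rw [N1_eq, N2_eq, ← hL, ha i j v m]
  · obtain ⟨j, e, he1, he2⟩ := hr i
    refine ⟨j, e, ?_, ?_⟩
    · rw [← SetLike.mem_coe, h1]
      exact he1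
    · rw [← SetLike.mem_coe, dl_eq, h1]
      exact he2

/-- The transfer theorem: an `O`-form of `N` gives an `O`-form of `C`. -/
theorem transfer {K : Type w} [Field K] {C : Type u} [Category.{v} C] [Preadditive C] [Linear K C]
    [MonoidalCategory C] [MonoidalPreadditive C] [MonoidalLinear K C] {D : Type u'} [Category.{v'} D] [Preadditive D]
    [Linear K D] [MonoidalCategory D] [MonoidalPreadditive D] [MonoidalLinear K D]
    [IsAlgClosed K] {V : C ⥤ D} [V.LaxMonoidal] [V.OplaxMonoidal] {Γ : Type} [AddGroup Γ] [Fintype Γ]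
    (G : GalFH K V Γ) {O : Subring K} (hO : Val O) (hn : IsU O (Fintype.card Γ : K)) {ιC : Type} [Fintype ιC] [DecidableEq ιC]
    (FC : Fus K C ιC) {ιD : Type} [Fintype ιD] [DecidableEq ιD] (FN : Fus K D ιD) (rC : Rig C)
    (hsc : ∀ i j (u : FN.S j ⟶ V.obj (FC.S i)) (q : V.obj (FC.S i) ⟶ FN.S j), u ≫ q = 𝟙 _ →
      ∃ c : K, IsU O c ∧ av V (q ≫ u) = c • 𝟙 _) (L : FN.Sy) (hL : FN.IsForm O L) :
    ∃ L' : FC.Sy, FC.IsForm O L' := by
  obtain ⟨L₀, hL₀⟩ := of_form hO hL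
  obtain ⟨e, he⟩ := exists_e G hL₀
  obtain ⟨nn, hnn⟩ := exists_nn G hn hL₀ he FC
  have hr : ∀ {i j : ιC} (_ : ExactPairing (FC.S i) (FC.S j)),
      FC.DualOver O (fun i j k => (LL G L₀ nn i j k : Set (FC.S k ⟶ FC.S i ⊗ FC.S j))) i j := by
    intro i j p
    obtain ⟨q, h1, h2⟩ := LL_rigid G hn hL₀ he hnn hsc p
    exact ⟨q, h1, h2⟩
  refine ⟨fun i j k => (LL G L₀ nn i j k : Set (FC.S k ⟶ FC.S i ⊗ FC.S j)),
    fun i j k => (isLt_iff _).1 (LL_lat G hn hL₀ hnn i j k), fun v => ⟨?_, ?_⟩, fun i j v m => ?_, fun i => ?_,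
    fun i => ?_⟩
  · show ((LL G L₀ nn FC.o v v : Submodule O _) : Set (FC.S v ⟶ FC.S FC.o ⊗ FC.S v)) = _
    rw [LL_unitL G hL₀ he hnn v, span_one]
  · show ((LL G L₀ nn v FC.o v : Submodule O _) : Set (FC.S v ⟶ FC.S v ⊗ FC.S FC.o)) = _
    rw [LL_unitR G hL₀ he hnn v, span_one]
  · have h1 := congrFun (LL_assoc G hn hL₀ he hnn hsc i j v) m
    apply SetLike.coe_injective
    rw [← N1_eq, ← N2_eq, h1]
  · obtain ⟨⟨y, ⟨p⟩⟩, -⟩ := rC (FC.S i)
    obtain ⟨j, ⟨q⟩⟩ := dual_simple FC p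
    exact ⟨j, hr q⟩
  · obtain ⟨-, y, ⟨p⟩⟩ := rC (FC.S i)
    obtain ⟨j, ⟨q⟩⟩ := dual_simple' FC p
    exact ⟨j, hr q⟩

end Pool.Agent.SFC.G
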