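import Pool.Agent.SFC.TmB
import Pool.Agent.SFC.TmC
import Pool.Agent.SFC.TmH
import Pool.Agent.SFC.TvB

/-!
# SFC/TsA: the coactions and the averages of maps of stable families

`stb_cL`: `n → un ⊗ n → (e ⊗ e) ⊗ n → e ⊗ (e ⊗ n) → e ⊗ n`.
-/

set_option autoImplicit false
set_option linter.unusedSectionVars false

noncomputable section

open CategoryTheory MonoidalCategory
open Functor.LaxMonoidal Functor.OplaxMonoidal
open scoped BigOperators

namespace Pool.Agent.SFC

open Pool.Agent.NFG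

universe v u v' u' w

variable {K : Type w} [Field K] {C : Type u} [Category.{v} C] [Preadditive C] [Linear K C] [MonoidalCategory C]
  [MonoidalPreadditive C] [MonoidalLinear K C] {N : Type u'} [Category.{v'} N] [Preadditive N] [Linear K N]
  [MonoidalCategory N] [MonoidalPreadditive N] [MonoidalLinear K N] {V : C ⥤ N} [V.LaxMonoidal] [V.OplaxMonoidal]
  {n : ℕ} [NeZero n] {ι' : Type} [Fintype ι'] [DecidableEq ι'] {O : Subring K} {FN : Fus K N ι'} {L : FN.Sys O}
  {e : FN.Fam O (V.obj (𝟙_ C))}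

theorem stb_one (he : EOk V L e) : Stb V L e e := ⟨he.lat, he.mul, by rw [← aL_eq_aR]; exact he.mul⟩

theorem stb_cL (G : GalF K V n) (hL : OF O FN L) (he : EOk V L e) {x : C} {m : FN.Fam O (V.obj x)}
    (hm : Stb V L e m) : Mp m (tens L e m) (cL V x) := by
  rw [cL_eq G]
  exact mp_comp (mp_lam_inv hL m) (mp_comp (mp_wr m he.sg) (mp_comp (mp_assoc hL e e m) (mp_wl e hm.aL)))

theorem stb_cR (G : GalF K V n) (hL : OF O FN L) (he : EOk V L e) {x : C} {m : FN.Fam O (V.obj x)}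
    (hm : Stb V L e m) : Mp m (tens L m e) (cR V x) := by
  rw [cR_eq G]
  exact mp_comp (mp_rho_inv hL m) (mp_comp (mp_wl m he.sg) (mp_comp (mp_assoc_inv hL m e e) (mp_wr e hm.aR)))

theorem stb_av (G : GalF K V n) (hL : OF O FN L) (he : EOk V L e) {x y : C} {m : FN.Fam O (V.obj x)}
    {m' : FN.Fam O (V.obj y)} (hm : Stb V L e m) (hm' : Stb V L e m') {T : V.obj x ⟶ V.obj y} (hT : Mp m m' T) :
    Mp m m' (av V T) := by
  rw [av]
  exact mp_comp (stb_cL G hL he hm) (mp_comp (mp_wl e (mp_comp (stb_cR G hL he hm) (mp_comp (mp_wr e hT) hm'.aR)))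
    hm'.aL)

theorem stb_push (hO : Val O) {x y : C} (i : x ≅ y) {m : FN.Fam O (V.obj x)} (hm : Stb V L e m) :
    Stb V L e (push (V.map i.hom) m) := by
  refine ⟨lf_push hO hm.lat (V.map i.hom) (V.map i.inv) ?_, ?_, ?_⟩
  · rw [← V.map_comp, i.inv_hom_id, V.map_id]
  · rw [mp_tens_pushR, aL_nat]
    exact mp_comp hm.aL (mp_push _ _)
  · rw [mp_tens_pushL, aR_nat]
    exact mp_comp hm.aR (mp_push _ _)

end Pool.Agent.SFC
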