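import Pool.Agent.SFC.TvA
import Pool.Agent.SFC.BSigH

/-!
# SFC/TvBH (general finite group): the coactions of `V 1`; recovering maps from their values under `η` and `ε`

`mu_delta`: `G.frob2 x (𝟙_ C) y` precomposed with `V x ◁ V λ⁻¹` and postcomposed with `V ρ ▷ V y`:
`μ ≫ δ = V x ◁ cL V y ≫ α⁻¹ ≫ aR V x ▷ V y`.
`rec_ev`: put `φ = μ ≫ V b : V y ⊗ V x ⟶ V 1`.  `φ = φ ≫ cR V 1 ≫ η ▷ V 1 ≫ λ` (`cL V 1 = cR V 1`, `cL_cn`), insert `cR_eq` for `𝟙`, and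
`φ ▷ V 1 ≫ aR V 1 = α ≫ V y ◁ aR V x ≫ φ` (`mu_aR`, `aR_nat`).
`rec_cv`: `V 1 ◁ (ε ≫ V c ≫ δ ≫ μ) ≫ aL = n • V 1 ◁ (ε ≫ V c) ≫ aL = n • V 1 ◁ ε ≫ aL V 1 ≫ V c = n • ρ ≫ V c` (`G.card`, `aL_nat`, `aR_one` with
`aL_eq_aR`).
-/

set_option autoImplicit false

noncomputable section

open CategoryTheory MonoidalCategory
open Functor.LaxMonoidal Functor.OplaxMonoidal

namespace Pool.Agent.SFC.G

universe v u v' u' w

section A

variable {C : Type u} [Category.{v} C] [MonoidalCategory C] {N : Type u'} [Category.{v'} N] [MonoidalCategory N]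
  {V : C ⥤ N} [V.OplaxMonoidal]

theorem cL_nat {x y : C} (f : x ⟶ y) : V.map f ≫ cL V y = cL V x ≫ V.obj (𝟙_ C) ◁ V.map f := by
  rw [cL, cL, Category.assoc, δ_natural_right, ← V.map_comp_assoc, ← V.map_comp_assoc, leftUnitor_inv_naturality]

theorem cR_nat {x y : C} (f : x ⟶ y) : V.map f ≫ cR V y = cR V x ≫ V.map f ▷ V.obj (𝟙_ C) := by
  rw [cR, cR, Category.assoc, δ_natural_left, ← V.map_comp_assoc, ← V.map_comp_assoc, rightUnitor_inv_naturality]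

theorem cL_eq_cR : cL V (𝟙_ C) = cR V (𝟙_ C) := by
  rw [cL, cR, unitors_inv_equal]

theorem cL_cn (x : C) : cL V x ≫ η V ▷ V.obj x ≫ (λ_ _).hom = 𝟙 _ := by
  rw [cL, Category.assoc, Functor.OplaxMonoidal.left_unitality_hom, ← V.map_comp, Iso.inv_hom_id, V.map_id]

theorem cR_cn (x : C) : cR V x ≫ V.obj x ◁ η V ≫ (ρ_ _).hom = 𝟙 _ := by
  rw [cR, Category.assoc, Functor.OplaxMonoidal.right_unitality_hom, ← V.map_comp, Iso.inv_hom_id, V.map_id]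

theorem av_pre [V.LaxMonoidal] {x y z : C} (f : x ⟶ y) (T : V.obj y ⟶ V.obj z) :
    av V (V.map f ≫ T) = V.map f ≫ av V T := by
  rw [av, av, ← Category.assoc (V.map f), cL_nat, Category.assoc, comp_whiskerRight, ← Category.assoc (cR V x),
    ← Category.assoc (cR V x), ← cR_nat]
  simp

end A

variable {K : Type w} [Field K] {C : Type u} [Category.{v} C] [Preadditive C] [Linear K C] [MonoidalCategory C]
  [MonoidalPreadditive C] [MonoidalLinear K C] {N : Type u'} [Category.{v'} N] [Preadditive N] [Linear K N]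
  [MonoidalCategory N] [MonoidalPreadditive N] [MonoidalLinear K N] {V : C ⥤ N} [V.LaxMonoidal] [V.OplaxMonoidal]
  {Γ : Type} [AddGroup Γ] [Fintype Γ]

theorem mu_delta (G : GalFH K V Γ) (x y : C) :
    μ V x y ≫ δ V x y = V.obj x ◁ cL V y ≫ (α_ _ _ _).inv ≫ aR V x ▷ V.obj y := by
  have h := G.frob2 x (𝟙_ C) y
  rw [cL, aR, MonoidalCategory.whiskerLeft_comp, comp_whiskerRight, Category.assoc, reassoc_of% h,
    μ_natural_right_assoc, δ_natural_left, ← V.map_comp_assoc, ← V.map_comp_assoc]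
  simp

theorem rec_ev (G : GalFH K V Γ) {x y : C} (b : y ⊗ x ⟶ 𝟙_ C) :
    μ V y x ≫ V.map b = (ρ_ _).inv ≫ (V.obj y ⊗ V.obj x) ◁ sig V ≫ (α_ _ _ _).inv ≫
      ((α_ _ _ _).hom ≫ V.obj y ◁ aR V x ≫ μ V y x ≫ V.map b ≫ η V) ▷ V.obj (𝟙_ C) ≫ (λ_ _).hom := by
  have h1 := cL_cn (V := V) (𝟙_ C)
  rw [cL_eq_cR, cR_eq G] at h1
  have h2 : (α_ _ _ _).hom ≫ V.obj y ◁ aR V x ≫ μ V y x ≫ V.map b ≫ η V =
      (μ V y x ≫ V.map b) ▷ V.obj (𝟙_ C) ≫ aR V (𝟙_ C) ≫ η V := by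
    rw [comp_whiskerRight, Category.assoc, ← Category.assoc (V.map b ▷ V.obj (𝟙_ C)), aR_nat, Category.assoc,
      ← Category.assoc (μ V y x ▷ V.obj (𝟙_ C)), mu_aR, Category.assoc, Category.assoc]
  rw [h2]
  have h3 : ∀ {W : N} (φ : W ⟶ V.obj (𝟙_ C)), φ = (ρ_ _).inv ≫ W ◁ sig V ≫ (α_ _ _ _).inv ≫
      (φ ▷ V.obj (𝟙_ C) ≫ aR V (𝟙_ C) ≫ η V) ▷ V.obj (𝟙_ C) ≫ (λ_ _).hom := by
    intro W φ
    calc φ = φ ≫ ((ρ_ (V.obj (𝟙_ C))).inv ≫ V.obj (𝟙_ C) ◁ sig V ≫ (α_ _ _ _).inv ≫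
          aR V (𝟙_ C) ▷ V.obj (𝟙_ C)) ≫ η V ▷ V.obj (𝟙_ C) ≫ (λ_ _).hom := by rw [h1, Category.comp_id]
      _ = _ := by
          simp only [Category.assoc, comp_whiskerRight]
          rw [rightUnitor_inv_naturality_assoc, ← whisker_exchange_assoc, ← associator_inv_naturality_left_assoc]
  exact h3 _

theorem rec_cv (G : GalFH K V Γ) {x y : C} (c : 𝟙_ C ⟶ x ⊗ y) :
    (ρ_ _).inv ≫ V.obj (𝟙_ C) ◁ (ε V ≫ V.map c ≫ δ V x y) ≫ V.obj (𝟙_ C) ◁ μ V x y ≫ aL V (x ⊗ y) =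
      (Fintype.card Γ : K) • V.map c := by
  have h1 := aR_one (V := V) (𝟙_ C)
  rw [← aL_eq_aR] at h1
  rw [← MonoidalCategory.whiskerLeft_comp_assoc, Category.assoc, Category.assoc, G.card, Linear.comp_smul,
    Linear.comp_smul, Category.comp_id, MonoidalLinear.whiskerLeft_smul, Linear.smul_comp, Linear.comp_smul,
    MonoidalCategory.whiskerLeft_comp, Category.assoc, aL_nat, reassoc_of% h1]

end Pool.Agent.SFC.G
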