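import Pool.Agent.SFC.DefsB

/-!
# SFC/TvA: the two actions of `V 1`

For a lax monoidal functor `V`: `aL V x = μ ≫ V λ`, `aR V x = μ ≫ V ρ`.
-/

set_option autoImplicit false

noncomputable section

open CategoryTheory MonoidalCategory
open Functor.LaxMonoidal Functor.OplaxMonoidal

namespace Pool.Agent.SFC

universe v u v' u' w

variable {C : Type u} [Category.{v} C] [MonoidalCategory C] {N : Type u'} [Category.{v'} N] [MonoidalCategory N]
  {V : C ⥤ N} [V.LaxMonoidal]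

theorem aL_one (x : C) : (λ_ (V.obj x)).inv ≫ ε V ▷ V.obj x ≫ aL V x = 𝟙 _ := by
  rw [aL, ← Functor.LaxMonoidal.left_unitality, Iso.inv_hom_id]

theorem aR_one (x : C) : (ρ_ (V.obj x)).inv ≫ V.obj x ◁ ε V ≫ aR V x = 𝟙 _ := by
  rw [aR, ← Functor.LaxMonoidal.right_unitality, Iso.inv_hom_id]

theorem aL_eq_aR : aL V (𝟙_ C) = aR V (𝟙_ C) := by
  rw [aL, aR, unitors_equal]

theorem aL_nat {x y : C} (f : x ⟶ y) : V.obj (𝟙_ C) ◁ V.map f ≫ aL V y = aL V x ≫ V.map f := by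
  rw [aL, aL, μ_natural_right_assoc, Category.assoc, ← V.map_comp, ← V.map_comp, leftUnitor_naturality]

theorem aR_nat {x y : C} (f : x ⟶ y) : V.map f ▷ V.obj (𝟙_ C) ≫ aR V y = aR V x ≫ V.map f := by
  rw [aR, aR, μ_natural_left_assoc, Category.assoc, ← V.map_comp, ← V.map_comp, rightUnitor_naturality]

/-- `μ` is linear from the left -/
theorem mu_aL (x y : C) : V.obj (𝟙_ C) ◁ μ V x y ≫ aL V (x ⊗ y) =
    (α_ _ _ _).inv ≫ aL V x ▷ V.obj y ≫ μ V x y := by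
  rw [Iso.eq_inv_comp, aL, aL, comp_whiskerRight, Category.assoc, μ_natural_left, ← Category.assoc, ← Category.assoc,
    Category.assoc (α_ _ _ _).hom, ← Functor.LaxMonoidal.associativity, Category.assoc, Category.assoc, ← V.map_comp,
    leftUnitor_tensor_hom]
  simp

/-- `μ` is linear from the right -/
theorem mu_aR (x y : C) : μ V x y ▷ V.obj (𝟙_ C) ≫ aR V (x ⊗ y) =
    (α_ _ _ _).hom ≫ V.obj x ◁ aR V y ≫ μ V x y := by
  have h := Functor.LaxMonoidal.associativity V x y (𝟙_ C)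
  rw [aR, aR, MonoidalCategory.whiskerLeft_comp, Category.assoc, μ_natural_right, rightUnitor_tensor_hom, V.map_comp,
    reassoc_of% h]

/-- `μ` is balanced -/
theorem mu_mid (x y : C) : aR V x ▷ V.obj y ≫ μ V x y = (α_ _ _ _).hom ≫ V.obj x ◁ aL V y ≫ μ V x y := by
  have h := Functor.LaxMonoidal.associativity V x (𝟙_ C) y
  rw [aR, aL, MonoidalCategory.whiskerLeft_comp, comp_whiskerRight, Category.assoc, Category.assoc, μ_natural_right,
    μ_natural_left, ← triangle, V.map_comp, reassoc_of% h]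

theorem aL_assoc (x : C) : aL V (𝟙_ C) ▷ V.obj x ≫ aL V x =
    (α_ _ _ _).hom ≫ V.obj (𝟙_ C) ◁ aL V x ≫ aL V x := by
  have h := mu_mid (V := V) (𝟙_ C) x
  rw [← aL_eq_aR] at h
  have e : aL V x = μ V _ _ ≫ V.map (λ_ x).hom := rfl
  calc aL V (𝟙_ C) ▷ V.obj x ≫ aL V x = (aL V (𝟙_ C) ▷ V.obj x ≫ μ V _ _) ≫ V.map (λ_ x).hom := by
        rw [Category.assoc, ← e]
    _ = _ := by rw [h, Category.assoc, Category.assoc, ← e]

theorem aR_assoc (x : C) : V.obj x ◁ aL V (𝟙_ C) ≫ aR V x =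
    (α_ _ _ _).inv ≫ aR V x ▷ V.obj (𝟙_ C) ≫ aR V x := by
  have h := mu_mid (V := V) x (𝟙_ C)
  have e : aR V x = μ V _ _ ≫ V.map (ρ_ x).hom := rfl
  rw [Iso.eq_inv_comp]
  calc (α_ _ _ _).hom ≫ V.obj x ◁ aL V (𝟙_ C) ≫ aR V x =
        ((α_ _ _ _).hom ≫ V.obj x ◁ aL V (𝟙_ C) ≫ μ V _ _) ≫ V.map (ρ_ x).hom := by
        rw [Category.assoc, Category.assoc, ← e]
    _ = _ := by rw [← h, Category.assoc, ← e]

theorem aL_aR (x : C) : aL V x ▷ V.obj (𝟙_ C) ≫ aR V x =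
    (α_ _ _ _).hom ≫ V.obj (𝟙_ C) ◁ aR V x ≫ aL V x := by
  have h := mu_aL (V := V) x (𝟙_ C)
  have h2 := aL_nat (V := V) (ρ_ x).hom
  have h3 : aL V x ▷ V.obj (𝟙_ C) ≫ μ V x (𝟙_ C) = (α_ _ _ _).hom ≫ V.obj (𝟙_ C) ◁ μ V x (𝟙_ C) ≫
      aL V (x ⊗ 𝟙_ C) := by
    rw [h, Iso.hom_inv_id_assoc]
  rw [aR, reassoc_of% h3, MonoidalCategory.whiskerLeft_comp, Category.assoc, h2]

end Pool.Agent.SFC
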