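import Pool.Agent.SFC.BFa
import Pool.Agent.SFC.BGa
import Pool.Agent.NFG.FinFP

/-!
# SFC/X1a: the simple objects of the trivial component of an extension

`G : D ⥤ C` is fully faithful, so `G (S a)` is simple (`End (G (S a)) = K`, `𝟙 ≠ 0`), hence (`FC.dec`) isomorphic to a unique `S (φ a)`.
`φ` injective: `G` reflects isomorphisms (full, faithful), `FD.hom_zero`.  If `deg i = 1` then `S i ≅ G y` (`img`), `y` is simple because `G` is fully faithful, so `y ≅ S a` and `i = φ a`.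
`deg (φ a) = 1` by `one`.  `φ o = o`: `G (𝟙) ≅ 𝟙`.
`Occ`: `Hom (S i, S (φ a) ⊗ S (φ b)) ≅ Hom (S i, G (S a ⊗ S b))`; if not zero then `deg i = 1` (`one`), `i = φ c`, and it is
`Hom (G (S c), G (S a ⊗ S b)) ≅ Hom (S c, S a ⊗ S b)`, a linear isomorphism, so the dimensions agree.
`ext_fp`: for `i` not in the image of `φ` the multiplicity is zero; `Finset.sum` over the image of the injective `φ`.
-/

set_option autoImplicit false

noncomputable section

open CategoryTheory MonoidalCategory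

namespace Pool.Agent.SFC

open Pool.Agent.NFG

universe v u v' u' w

variable {K : Type w} [Field K] {C : Type u} [Category.{v} C] [Preadditive C] [Linear K C] [MonoidalCategory C]
  [MonoidalPreadditive C] [MonoidalLinear K C] {D : Type u'} [Category.{v'} D] [Preadditive D] [Linear K D]
  [MonoidalCategory D] [MonoidalPreadditive D] [MonoidalLinear K D] {G : D ⥤ C} [G.Monoidal] {ιC ιD : Type}
  [Fintype ιC] [DecidableEq ιC] [Fintype ιD] [DecidableEq ιD] {FC : Fus K C ιC} {Q : Type} [Group Q] {deg : ιC → Q}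

/-- the map on simple objects -/
structure Phi (FD : Fus K D ιD) (FC : Fus K C ιC) (G : D ⥤ C) (deg : ιC → Q) (φ : ιD → ιC) : Prop where
  inj : Function.Injective φ
  iso : ∀ a, Nonempty (FC.S (φ a) ≅ G.obj (FD.S a))
  img : ∀ i, deg i = 1 ↔ ∃ a, φ a = i
  one : φ FD.o = FC.o
  occ : ∀ a b i, FC.Occ (φ a) (φ b) i → ∃ c, φ c = i
  mult : ∀ a b c, Module.finrank K (FC.S (φ c) ⟶ FC.S (φ a) ⊗ FC.S (φ b)) =
    Module.finrank K (FD.S c ⟶ FD.S a ⊗ FD.S b)

omit [MonoidalPreadditive C] [MonoidalLinear K C] in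
private theorem X1a_simple (F : Fus K C ιC) {Z : C} (h1 : 𝟙 Z ≠ 0) (h2 : ∀ f : Z ⟶ Z, ∃ c : K, f = c • 𝟙 Z) :
    ∃ m, Nonempty (F.S m ≅ Z) := by
  obtain ⟨m, f, hf⟩ := exists_ne_zero F h1
  obtain ⟨g, hg⟩ := exists_retract F hf
  obtain ⟨c, hc⟩ := h2 (g ≫ f)
  have h3 : f ≫ (g ≫ f) = f := by rw [← Category.assoc, hg, Category.id_comp]
  have h4 : c • f = f := by
    rw [hc, Linear.comp_smul, Category.comp_id] at h3
    exact h3
  have h5 : (c - 1) • f = 0 := by rw [sub_smul, h4, one_smul, sub_self]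
  have h6 : c = 1 := by
    rcases smul_eq_zero.1 h5 with h | h
    · exact sub_eq_zero.1 h
    · exact absurd h hf
  refine ⟨m, ⟨⟨f, g, hg, ?_⟩⟩⟩
  rw [hc, h6, one_smul]

omit [MonoidalPreadditive C] [MonoidalLinear K C] in
private theorem X1a_eq (F : Fus K C ιC) {i j : ιC} (e : F.S i ≅ F.S j) : i = j := by
  by_contra hij
  have h1 : e.hom = 0 := F.hom_zero i j hij _
  apply F.one_ne i
  rw [← e.hom_inv_id, h1, Limits.zero_comp]

theorem exists_phi (FD : Fus K D ιD) (h : IsExt K G FC Q deg) : ∃ φ : ιD → ιC, Phi FD FC G deg φ := by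
  have hfull := h.full
  have hfaith := h.faithful
  have hz : ∀ {x y : D}, G.map (0 : x ⟶ y) = 0 := by
    intro x y
    have h1 := h.map_smul (0 : K) (0 : x ⟶ y)
    rw [zero_smul, zero_smul] at h1
    exact h1
  have hid : ∀ (y : D), 𝟙 y ≠ 0 → 𝟙 (G.obj y) ≠ 0 := by
    intro y hy hc
    apply hy
    apply G.map_injective
    rw [G.map_id, hz, hc]
  have hS : ∀ a, ∃ m, Nonempty (FC.S m ≅ G.obj (FD.S a)) := by
    intro a
    refine X1a_simple FC (hid _ (FD.one_ne a)) fun f => ?_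
    obtain ⟨g, rfl⟩ := G.map_surjective f
    obtain ⟨c, hc⟩ := FD.schur a g
    refine ⟨c, ?_⟩
    rw [hc, h.map_smul, G.map_id]
  choose φ hφ using hS
  have e : ∀ a, FC.S (φ a) ≅ G.obj (FD.S a) := fun a => (hφ a).some
  have hone : ∀ a, deg (φ a) = 1 := by
    intro a
    refine h.one (FD.S a) (φ a) (e a).hom fun h0 => ?_
    apply FC.one_ne (φ a)
    rw [← (e a).hom_inv_id, h0, Limits.zero_comp]
  have himg : ∀ i, deg i = 1 → ∃ a, φ a = i := by
    intro i hi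
    obtain ⟨y, ⟨s⟩⟩ := h.img i hi
    have hy1 : 𝟙 y ≠ 0 := by
      intro hc
      apply FC.one_ne i
      have h1 : 𝟙 (G.obj y) = 0 := by rw [← G.map_id, hc, hz]
      rw [← s.hom_inv_id, ← Category.id_comp s.inv, h1, Limits.zero_comp, Limits.comp_zero]
    have hy2 : ∀ f : y ⟶ y, ∃ c : K, f = c • 𝟙 y := by
      intro f
      obtain ⟨c, hc⟩ := FC.schur i (s.hom ≫ G.map f ≫ s.inv)
      refine ⟨c, ?_⟩
      apply G.map_injective
      rw [h.map_smul, G.map_id]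
      have h1 : s.inv ≫ (s.hom ≫ G.map f ≫ s.inv) ≫ s.hom = G.map f := by simp
      rw [← h1, hc, Linear.smul_comp, Linear.comp_smul, Category.id_comp, s.inv_hom_id]
    obtain ⟨a, ⟨t⟩⟩ := X1a_simple FD hy1 hy2
    refine ⟨a, X1a_eq FC (e a ≪≫ G.mapIso t ≪≫ s.symm)⟩
  refine ⟨φ, ⟨?_, hφ, ?_, ?_, ?_, ?_⟩⟩
  · intro a b hab
    have s1 : G.obj (FD.S a) ≅ G.obj (FD.S b) := (e a).symm ≪≫ (eqToIso (by rw [hab]) : FC.S (φ a) ≅ FC.S (φ b)) ≪≫ e b
    exact X1a_eq FD (G.preimageIso s1)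
  · intro i
    refine ⟨himg i, ?_⟩
    rintro ⟨a, rfl⟩
    exact hone a
  · exact X1a_eq FC (e FD.o ≪≫ G.mapIso FD.u ≪≫ (Functor.Monoidal.εIso G).symm ≪≫ FC.u.symm)
  · intro a b i hocc
    obtain ⟨f, hf⟩ := hocc
    apply himg
    let s : FC.S (φ a) ⊗ FC.S (φ b) ≅ G.obj (FD.S a ⊗ FD.S b) := (e a ⊗ᵢ e b) ≪≫ Functor.Monoidal.μIso G _ _
    refine h.one (FD.S a ⊗ FD.S b) i (f ≫ s.hom) fun h0 => hf ?_
    rw [← Category.comp_id f, ← s.hom_inv_id, ← Category.assoc, h0, Limits.zero_comp]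
  · intro a b c
    let s : FC.S (φ a) ⊗ FC.S (φ b) ≅ G.obj (FD.S a ⊗ FD.S b) := (e a ⊗ᵢ e b) ≪≫ Functor.Monoidal.μIso G _ _
    have h1 : Module.finrank K (FC.S (φ c) ⟶ FC.S (φ a) ⊗ FC.S (φ b)) =
        Module.finrank K (G.obj (FD.S c) ⟶ G.obj (FD.S a ⊗ FD.S b)) :=
      LinearEquiv.finrank_eq (Linear.homCongr K (e c) s)
    rw [h1]
    let L : (FD.S c ⟶ FD.S a ⊗ FD.S b) →ₗ[K] (G.obj (FD.S c) ⟶ G.obj (FD.S a ⊗ FD.S b)) :=
      { toFun := fun f => G.map f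
        map_add' := fun f g => h.map_add f g
        map_smul' := fun r f => h.map_smul r f }
    exact (LinearEquiv.finrank_eq (LinearEquiv.ofBijective L
      ⟨fun f g hfg => G.map_injective hfg, fun f => G.map_surjective f⟩)).symm

theorem ext_fp {FD : Fus K D ιD} {φ : ιD → ιC} (h : Phi FD FC G deg φ) {f : ιC → ℝ} (hf : IsFPdim FC f) :
    IsFPdim FD (fun a => f (φ a)) := by
  refine ⟨fun a => hf.1 (φ a), fun a b => ?_⟩
  show f (φ a) * f (φ b) = _
  rw [hf.2 (φ a) (φ b)]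
  symm
  refine Fintype.sum_of_injective φ h.inj _ _ (fun i hi => ?_) fun c => ?_
  · have h1 : ∀ g : FC.S i ⟶ FC.S (φ a) ⊗ FC.S (φ b), g = 0 := by
      intro g
      by_contra hg
      exact hi (h.occ a b i ⟨g, hg⟩)
    have h2 : Subsingleton (FC.S i ⟶ FC.S (φ a) ⊗ FC.S (φ b)) := ⟨fun x y => by rw [h1 x, h1 y]⟩
    rw [Module.finrank_zero_of_subsingleton, Nat.cast_zero, zero_mul]
  · rw [h.mult]

end Pool.Agent.SFC
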