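import Pool.Agent.SFC.X1a

/-!
# SFC/X1b: an extension of a nilpotent fusion category is nilpotent

By induction on `FD.Nlp E`: `FC.Nlp (φ '' E)`.  `vec`: `φ '' {o} = {o}`.  `ext E E' Q' deg'`: the grading of `φ '' E'` is `deg'` of the preimage (`Function.invFun φ` or
`Function.extend`), `Occ (φ a) (φ b) i` gives `i = φ c` (`occ`) and `Occ a b c` by `mult` (`Occ` iff `finrank ≠ 0`, `Pool.Agent.NFG.mult_ne`).
Then `FC.Grd (φ '' univ) univ Q deg` (`img`, `h.occ`, `h.surj`) and `FC.Nlp.ext`.  (`Q` finite: `Fintype.ofFinite`.)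
-/

set_option autoImplicit false

noncomputable section

open CategoryTheory MonoidalCategory

namespace Pool.Agent.SFC

open Pool.Agent.NFG

universe v u v' u' w

variable {K : Type w} [Field K] {C : Type u} [Category.{v} C] [Preadditive C] [Linear K C] [MonoidalCategory C]
  [MonoidalPreadditive C] [MonoidalLinear K C] {D : Type u'} [Category.{v'} D] [Preadditive D] [Linear K D]
  [MonoidalCategory D] [MonoidalPreadditive D] [MonoidalLinear K D] {G : D ⥤ C} [G.Monoidal] {ιC ιD : Type}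
  [Fintype ιC] [DecidableEq ιC] [Fintype ιD] [DecidableEq ιD] {FC : Fus K C ιC} {Q : Type} [Group Q] {deg : ιC → Q}

theorem nlp_ext [Finite Q] (FD : Fus K D ιD) (h : IsExt K G FC Q deg) (hD : FD.Nlp Set.univ) :
    FC.Nlp Set.univ := by
  obtain ⟨φ, hφ⟩ := exists_phi FD h
  have hocc : ∀ a b c, FC.Occ (φ a) (φ b) (φ c) ↔ FD.Occ a b c := by
    intro a b c
    rw [← mult_ne, ← mult_ne]
    exact not_congr (Eq.congr (hφ.mult a b c) rfl)
  have key : ∀ E : Set ιD, FD.Nlp E → FC.Nlp (φ '' E) := by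
    intro E hE
    induction hE with
    | vec =>
      rw [Set.image_singleton, hφ.one]
      exact Fus.Nlp.vec
    | ext E E' Q' iG iF deg' _ hg ih =>
      obtain ⟨h1, h2, h3, h4⟩ := hg
      have hx : ∀ a, Function.extend φ deg' 1 (φ a) = deg' a := fun a => hφ.inj.extend_apply _ _ _
      refine Fus.Nlp.ext (φ '' E) (φ '' E') Q' iG iF (Function.extend φ deg' 1) ih ⟨?_, ?_, ?_, ?_⟩
      · exact ⟨FD.o, h1, hφ.one⟩
      · rintro _ ⟨a, ha, rfl⟩ _ ⟨b, hb, rfl⟩ i hi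
        obtain ⟨c, rfl⟩ := hφ.occ a b i hi
        have h5 := h2 a ha b hb c ((hocc a b c).1 hi)
        refine ⟨⟨c, h5.1, rfl⟩, ?_⟩
        rw [hx, hx, hx]
        exact h5.2
      · intro i
        constructor
        · rintro ⟨a, ha, rfl⟩
          have h5 := (h3 a).1 ha
          exact ⟨⟨a, h5.1, rfl⟩, by rw [hx]; exact h5.2⟩
        · rintro ⟨⟨a, ha, rfl⟩, h5⟩
          rw [hx] at h5
          exact ⟨a, (h3 a).2 ⟨ha, h5⟩, rfl⟩
      · intro q
        obtain ⟨a, ha, h5⟩ := h4 q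
        exact ⟨φ a, ⟨a, ha, rfl⟩, by rw [hx]; exact h5⟩
  refine Fus.Nlp.ext (φ '' Set.univ) Set.univ Q inferInstance (Fintype.ofFinite Q) deg (key _ hD)
    ⟨Set.mem_univ _, fun a _ b _ c hc => ⟨Set.mem_univ _, h.occ a b c hc⟩, fun i => ?_, fun q => ?_⟩
  · rw [hφ.img i]
    constructor
    · rintro ⟨a, _, rfl⟩
      exact ⟨Set.mem_univ _, a, rfl⟩
    · rintro ⟨_, a, rfl⟩
      exact ⟨a, Set.mem_univ _, rfl⟩
  · obtain ⟨a, ha⟩ := h.surj q
    exact ⟨a, Set.mem_univ _, ha⟩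

end Pool.Agent.SFC
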