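import Pool.Agent.SFC.BGc
import Pool.Agent.SFC.X1a

/-!
# SFC/X2a: homogeneous objects, degrees of simple bimodules

`Deg FC deg x q`: all simple constituents of `x` have degree `q`.  Degrees add under tensor
products, and since the algebra `A` has degree `1`, each simple bimodule has a well defined
degree, the degree of all homogeneous objects `x` such that it occurs in `V x`.
-/

set_option autoImplicit false

noncomputable section

open CategoryTheory MonoidalCategory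

namespace Pool.Agent.SFC

open Pool.Agent.NFG

universe v u v' u' w

variable {K : Type w} [Field K] {C : Type u} [Category.{v} C] [Preadditive C] [Linear K C] [MonoidalCategory C]
  [MonoidalPreadditive C] [MonoidalLinear K C] {D : Type u'} [Category.{v'} D] [Preadditive D] [Linear K D]
  [MonoidalCategory D] {G : D ⥤ C} [G.Monoidal] {ιC : Type} [Fintype ιC] [DecidableEq ιC] {FC : Fus K C ιC} {Q : Type}
  [Group Q] {deg : ιC → Q}

/-- all simple constituents of `x` have degree `q` -/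
def Deg (FC : Fus K C ιC) (deg : ιC → Q) (x : C) (q : Q) : Prop := ∀ (i : ιC) (f : FC.S i ⟶ x), f ≠ 0 → deg i = q

theorem deg_S (FC : Fus K C ιC) (deg : ιC → Q) (i : ιC) : Deg FC deg (FC.S i) (deg i) := by
  intro j f hf
  by_cases hij : j = i
  · rw [hij]
  · exact absurd (FC.hom_zero j i hij f) hf

theorem deg_iso {x y : C} (e : x ≅ y) {q : Q} (hx : Deg FC deg x q) : Deg FC deg y q := by
  intro i f hf
  refine hx i (f ≫ e.inv) fun h0 => hf ?_
  have h1 : f = (f ≫ e.inv) ≫ e.hom := by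
    rw [Category.assoc, Iso.inv_hom_id, Category.comp_id]
  rw [h1, h0, Limits.zero_comp]

theorem deg_tensor (h : IsExt K G FC Q deg) {x y : C} {q r : Q} (hx : Deg FC deg x q) (hy : Deg FC deg y r) :
    Deg FC deg (x ⊗ y) (q * r) := by
  intro i f hf
  obtain ⟨m, k, p, j, hjp, -, hs⟩ := FC.dec x
  obtain ⟨m', k', p', j', hjp', -, hs'⟩ := FC.dec y
  obtain ⟨a, ha⟩ : ∃ a, f ≫ (p a ▷ y) ≠ 0 := by
    by_contra hcon
    push Not at hcon
    apply hf
    have h1 : f = f ≫ (𝟙 x ▷ y) := by rw [id_whiskerRight, Category.comp_id]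
    rw [h1, ← hs, sum_whiskerRight, Preadditive.comp_sum]
    refine Finset.sum_eq_zero fun a _ => ?_
    rw [comp_whiskerRight, ← Category.assoc, hcon a, Limits.zero_comp]
  obtain ⟨b, hb⟩ : ∃ b, (f ≫ (p a ▷ y)) ≫ (FC.S (k a) ◁ p' b) ≠ 0 := by
    by_contra hcon
    push Not at hcon
    apply ha
    have h1 : f ≫ (p a ▷ y) = (f ≫ (p a ▷ y)) ≫ (FC.S (k a) ◁ 𝟙 y) := by
      rw [MonoidalCategory.whiskerLeft_id, Category.comp_id]
    rw [h1, ← hs', whiskerLeft_sum, Preadditive.comp_sum]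
    refine Finset.sum_eq_zero fun b _ => ?_
    rw [MonoidalCategory.whiskerLeft_comp, ← Category.assoc, hcon b, Limits.zero_comp]
  have e1 : deg (k a) = q := hx (k a) (j a) fun h0 => FC.one_ne (k a) (by
    rw [← hjp a, h0, Limits.zero_comp])
  have e2 : deg (k' b) = r := hy (k' b) (j' b) fun h0 => FC.one_ne (k' b) (by
    rw [← hjp' b, h0, Limits.zero_comp])
  rw [h.occ (k a) (k' b) i ⟨_, hb⟩, e1, e2]

variable {C' : Type*} [Category* C'] [Preadditive C'] [Linear K C'] [MonoidalCategory C'] [MonoidalPreadditive C']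
  [MonoidalLinear K C'] {VC : C ⥤ C'} [VC.LaxMonoidal] [VC.OplaxMonoidal] {n : ℕ} [NeZero n] {ι' : Type} [Fintype ι']
  [DecidableEq ι']

private theorem X2a_VV (h : IsExt K G FC Q deg) (GC : GalF K VC n)
    (hA : ∃ a : D, Nonempty (GC.A ≅ G.obj a)) {k l : ιC} {f : VC.obj (FC.S k) ⟶ VC.obj (FC.S l)}
    (hf : f ≠ 0) : deg k = deg l := by
  have hdA : Deg FC deg GC.A 1 := by
    obtain ⟨a, ⟨e⟩⟩ := hA
    exact deg_iso e.symm (fun i f hf => h.one a i f hf)
  obtain ⟨e⟩ := GC.HH (FC.S k) (FC.S l)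
  have h1 : e f ≠ 0 := by
    intro h0
    exact hf (by rw [← e.symm_apply_apply f, h0, map_zero])
  have h2 := deg_tensor h hdA (deg_tensor h (deg_S FC deg l) hdA) k (e f) h1
  rwa [mul_one, one_mul] at h2

private theorem X2a_comp (GC : GalF K VC n) {x : C} {Z : C'} {g : VC.obj x ⟶ Z} (hg : g ≠ 0) :
    ∃ (i : ιC) (j : FC.S i ⟶ x), j ≠ 0 ∧ VC.map j ≫ g ≠ 0 := by
  obtain ⟨m, k, p, j, hjp, -, hs⟩ := FC.dec x
  obtain ⟨a, ha⟩ : ∃ a, VC.map (j a) ≫ g ≠ 0 := by
    by_contra hcon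
    push Not at hcon
    apply hg
    have h1 : 𝟙 (VC.obj x) = ∑ a, VC.map (p a) ≫ VC.map (j a) := by
      rw [← VC.map_id, ← hs]
      refine (map_sum (AddMonoidHom.mk' (fun g : x ⟶ x => VC.map g) (fun g h => GC.map_add g h))
        (fun a => p a ≫ j a) Finset.univ).trans ?_
      exact Finset.sum_congr rfl fun a _ => VC.map_comp _ _
    rw [← Category.id_comp g, h1, Preadditive.sum_comp]
    refine Finset.sum_eq_zero fun a _ => ?_
    rw [Category.assoc, hcon a, Limits.comp_zero]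
  refine ⟨k a, j a, fun h0 => FC.one_ne (k a) ?_, ha⟩
  rw [← hjp a, h0, Limits.zero_comp]

theorem exists_deg' (h : IsExt K G FC Q deg) (GC : GalF K VC n) (hA : ∃ a : D, Nonempty (GC.A ≅ G.obj a))
    (FN : Fus K C' ι') : ∃ deg' : ι' → Q, ∀ (j : ι') (x : C) (q : Q), Deg FC deg x q →
      ((∃ f : VC.obj x ⟶ FN.S j, f ≠ 0) → deg' j = q) ∧ ((∃ f : FN.S j ⟶ VC.obj x, f ≠ 0) → deg' j = q) := by
  have h0 : ∀ j : ι', ∃ (k : ιC) (f : VC.obj (FC.S k) ⟶ FN.S j), f ≠ 0 := fun j =>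
    gal_ne' GC FC (FN.one_ne j)
  choose k f hf using h0
  have key : ∀ (j : ι') (x : C) (q : Q), Deg FC deg x q →
      (∃ f : VC.obj x ⟶ FN.S j, f ≠ 0) → deg (k j) = q := by
    rintro j x q hx ⟨g, hg⟩
    obtain ⟨i, t, ht, htg⟩ := X2a_comp (FC := FC) GC hg
    obtain ⟨s, hs⟩ := exists_section FN (hf j)
    have h1 : (VC.map t ≫ g) ≫ s ≠ 0 := by
      intro h2
      apply htg
      have h3 : VC.map t ≫ g = ((VC.map t ≫ g) ≫ s) ≫ f j := by
        rw [Category.assoc, hs, Category.comp_id]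
      rw [h3, h2, Limits.zero_comp]
    rw [← X2a_VV h GC hA h1, hx i t ht]
  refine ⟨fun j => deg (k j), fun j x q hx => ⟨key j x q hx, ?_⟩⟩
  rintro ⟨g, hg⟩
  obtain ⟨g', hg'⟩ := exists_retract FN hg
  refine key j x q hx ⟨g', fun h1 => FN.one_ne j ?_⟩
  rw [← hg', h1, Limits.comp_zero]

end Pool.Agent.SFC
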