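import Pool.Agent.SFC.X2a

/-!
# SFC/X2b: bimodules over an algebra in the trivial component of an extension

`C` is an extension of `D` by `Q` via `G`, `A` lies in `D`, `D'`, `C'` are the bimodule categories, `G' : D' ⥤ C'` is fully faithful with `G' (V y) ≅ V (G y)`.  Then `C'` is an extension of `D'` by `Q` via `G'`.
`deg'` from `exists_deg'`.
`occ`: `S a`, `S b` are retracts of `V (S k)`, `V (S l)` (`gal_ne`, `exists_retract`), `deg' a = deg k`, `deg' b = deg l` (`deg_S`).  A nonzero `S c ⟶ S a ⊗ S b` gives a nonzero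
`S c ⟶ V (S k) ⊗ V (S l) ≅ V (S k ⊗ (A ⊗ S l))` (compose with the split mono `i ⊗ₘ i'`), so `deg' c = deg k * (1 * deg l)`.
`surj`: `q = deg k`; `V (S k)` is not zero (`faithful`, `one_ne`), so there is a nonzero `S j ⟶ V (S k)` (`NFG.exists_ne_zero`).
`one`: `f : S j ⟶ G' y`, `f ≠ 0`; `y` is a retract of `VD x` (`GD.retr`), so there is a nonzero `S j ⟶ G' (VD x) ≅ VC (G x)`, and `Deg (G x) 1` (`h.one`).
`img`: `deg' j = 1`, `S j` is a retract of `V (S k)`, `deg k = 1`, `S k ≅ G y`, so `S j` is a retract of `G' (VD y)`.  The idempotent of `G' (VD y)` is `G' e`, `e` idempotent (full, faithful); split `e` in `D'`: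
`G'` of the summand is isomorphic to `S j`.
-/

set_option autoImplicit false

noncomputable section

open CategoryTheory MonoidalCategory

namespace Pool.Agent.SFC

open Pool.Agent.NFG

universe v u v' u' w

variable {K : Type w} [Field K] {C : Type u} [Category.{v} C] [Preadditive C] [Linear K C] [MonoidalCategory C]
  [MonoidalPreadditive C] [MonoidalLinear K C] {D : Type u'} [Category.{v'} D] [Preadditive D] [Linear K D]
  [MonoidalCategory D] [MonoidalPreadditive D] [MonoidalLinear K D] {G : D ⥤ C} [G.Monoidal] {ιC : Type} [Fintype ιC]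
  [DecidableEq ιC] {FC : Fus K C ιC} {Q : Type} [Group Q] {deg : ιC → Q}
  {C' : Type*} [Category* C'] [Preadditive C'] [Linear K C'] [MonoidalCategory C'] [MonoidalPreadditive C']
  [MonoidalLinear K C'] {VC : C ⥤ C'} [VC.LaxMonoidal] [VC.OplaxMonoidal] {n : ℕ} [NeZero n]
  {D' : Type*} [Category* D'] [Preadditive D'] [Linear K D'] [MonoidalCategory D'] [MonoidalPreadditive D']
  [MonoidalLinear K D'] {VD : D ⥤ D'} [VD.LaxMonoidal] [VD.OplaxMonoidal] [IsIdempotentComplete D'] {G' : D' ⥤ C'}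
  [G'.Monoidal] {ι' : Type} [Fintype ι'] [DecidableEq ι']

theorem ext_gal (h : IsExt K G FC Q deg) (GD : GalF K VD n) (GC : GalF K VC n)
    (hA : ∃ a : D, Nonempty (GC.A ≅ G.obj a)) (hfull : G'.Full) (hfaith : G'.Faithful)
    (hadd : ∀ {x y : D'} (f g : x ⟶ y), G'.map (f + g) = G'.map f + G'.map g)
    (hsmul : ∀ {x y : D'} (c : K) (f : x ⟶ y), G'.map (c • f) = c • G'.map f)
    (e : ∀ y : D, Nonempty (G'.obj (VD.obj y) ≅ VC.obj (G.obj y))) (FN : Fus K C' ι') :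
    ∃ deg' : ι' → Q, IsExt K G' FN Q deg' := by
  obtain ⟨deg', hd⟩ := exists_deg' h GC hA FN
  have hret : ∀ j : ι', ∃ (k : ιC) (i : FN.S j ⟶ VC.obj (FC.S k)) (g : VC.obj (FC.S k) ⟶ FN.S j),
      i ≫ g = 𝟙 _ ∧ deg' j = deg k := by
    intro j
    obtain ⟨k, i, hi⟩ := gal_ne GC FC (FN.one_ne j)
    obtain ⟨g, hg⟩ := exists_retract FN hi
    exact ⟨k, i, g, hg, (hd j (FC.S k) (deg k) (deg_S FC deg k)).2 ⟨i, hi⟩⟩
  have hA1 : Deg FC deg GC.A 1 := by
    obtain ⟨a, ⟨ea⟩⟩ := hA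
    exact deg_iso ea.symm (fun i f hf => h.one a i f hf)
  refine ⟨deg', hfull, hfaith, hadd, hsmul, ?_, ?_, ?_, ?_⟩
  · rintro a b c ⟨f, hf⟩
    obtain ⟨k, i, g, hg, hk⟩ := hret a
    obtain ⟨l, i', g', hg', hl⟩ := hret b
    obtain ⟨e1⟩ := GC.VV (FC.S k) (FC.S l)
    have h1 : f ≫ (i ⊗ₘ i') ≫ e1.hom ≠ 0 := by
      intro h0
      apply hf
      have h2 : f = (f ≫ (i ⊗ₘ i') ≫ e1.hom) ≫ e1.inv ≫ (g ⊗ₘ g') := by
        simp only [Category.assoc, Iso.hom_inv_id_assoc]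
        rw [MonoidalCategory.tensorHom_comp_tensorHom, hg, hg', MonoidalCategory.id_tensorHom_id, Category.comp_id]
      rw [h2, h0, Limits.zero_comp]
    have h3 := (hd c _ _ (deg_tensor h (deg_S FC deg k) (deg_tensor h hA1 (deg_S FC deg l)))).2
      ⟨_, h1⟩
    rw [h3, one_mul, hk, hl]
  · intro q
    obtain ⟨k, hk⟩ := h.surj q
    have h1 : 𝟙 (VC.obj (FC.S k)) ≠ 0 := by
      intro h0
      apply FC.one_ne k
      apply GC.faithful.map_injective
      rw [VC.map_id, h0]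
      exact (map_zero (AddMonoidHom.mk' (fun g : FC.S k ⟶ FC.S k => VC.map g) (fun g h => GC.map_add g h))).symm
    obtain ⟨m, f, hf⟩ := exists_ne_zero FN h1
    exact ⟨m, by rw [(hd m (FC.S k) (deg k) (deg_S FC deg k)).2 ⟨f, hf⟩, hk]⟩
  · intro j hj
    obtain ⟨k, i, g, hg, hk⟩ := hret j
    obtain ⟨y, ⟨ey⟩⟩ := h.img k (by rw [← hk, hj])
    obtain ⟨e1⟩ := e y
    obtain ⟨i2, g2, h2⟩ : ∃ (i2 : FN.S j ⟶ G'.obj (VD.obj y)) (g2 : G'.obj (VD.obj y) ⟶ FN.S j),
        i2 ≫ g2 = 𝟙 _ := by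
      refine ⟨i ≫ VC.map ey.hom ≫ e1.inv, e1.hom ≫ VC.map ey.inv ≫ g, ?_⟩
      simp only [Category.assoc, Iso.inv_hom_id_assoc]
      rw [← Functor.map_comp_assoc, Iso.hom_inv_id, VC.map_id, Category.id_comp, hg]
    obtain ⟨e0, he0⟩ := hfull.map_surjective (g2 ≫ i2)
    have he : e0 ≫ e0 = e0 := by
      apply hfaith.map_injective
      rw [G'.map_comp, he0, Category.assoc, reassoc_of% h2]
    obtain ⟨Y, i1, e1', h3, h4⟩ := IsIdempotentComplete.idempotents_split _ e0 he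
    refine ⟨Y, ⟨⟨i2 ≫ G'.map e1', G'.map i1 ≫ g2, ?_, ?_⟩⟩⟩
    · rw [Category.assoc, ← Functor.map_comp_assoc, h4, he0, Category.assoc, h2, Category.comp_id, h2]
    · have h5 : (G'.map i1 ≫ g2) ≫ i2 ≫ G'.map e1' = G'.map i1 ≫ (g2 ≫ i2) ≫ G'.map e1' := by
        simp only [Category.assoc]
      rw [h5, ← he0, ← G'.map_comp, ← G'.map_comp, ← h4, Category.assoc, h3, Category.comp_id, h3, G'.map_id]
  · intro y i f hf
    obtain ⟨x, j, p, hjp⟩ := GD.retr y
    obtain ⟨e1⟩ := e x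
    have h1 : f ≫ G'.map j ≫ e1.hom ≠ 0 := by
      intro h0
      apply hf
      have h2 : f = (f ≫ G'.map j ≫ e1.hom) ≫ e1.inv ≫ G'.map p := by
        simp only [Category.assoc, Iso.hom_inv_id_assoc]
        rw [← G'.map_comp, hjp, G'.map_id, Category.comp_id]
      rw [h2, h0, Limits.zero_comp]
    exact (hd i (G.obj x) 1 (fun i f hf => h.one x i f hf)).2 ⟨_, h1⟩

end Pool.Agent.SFC
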