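import Pool.Agent.SFC.AIdm
import Pool.Agent.SFC.AReg
import Pool.Agent.SFC.BNum
import Pool.Agent.SFC.X2b
import Pool.Agent.SFC.X1b
import Pool.Agent.SFC.A0a
import Pool.Agent.SFC.A0c
import Pool.Agent.SFC.BFc
import Pool.Agent.NFG.FinR
import Pool.Agent.SFC.AMop
import Pool.Agent.SFC.GB
import Pool.Agent.SFC.GD
import Pool.Agent.SFC.Tra
import Pool.Agent.SFC.E1i
import Pool.Agent.SFC.AVd
import Pool.Agent.SFC.E2m
import Pool.Agent.SFC.Fnf
import Pool.Agent.SFC.E3h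
import Pool.Agent.SFH.Gfb

/-! # SFC/ZTmp: imports -/
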